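import Pool.Agent.Lib.IW2.Blue2

/-! Block statements, part three: patching, gluing, specialisation. -/

open Polynomial IntermediateField
open scoped Pointwise

namespace Pool.Agent.Lib.IW2

open Pool.Agent.Lib.IW

section Defs

variable {k : Type} (𝕜 : Type) {Ω Ω' : Type} [Field k] [Field 𝕜] [Field Ω] [Field Ω'] [Algebra k Ω]
  [Algebra k Ω'] [Algebra 𝕜 Ω']

/-- The place `U` lies in the small closed disc around the place `V` of `F`. -/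
def InD (σ : Ω') (O : ValuationSubring Ω') (ι : Ω →ₐ[k] Ω') (F : IntermediateField k Ω)
    (V : ValuationSubring Ω) (U : ValuationSubring Ω') : Prop :=
  In 𝕜 ι O F V U ∧ ∃ a : 𝕜, algebraMap 𝕜 Ω' a ∈ O ∧ U.valuation (σ - algebraMap 𝕜 Ω' a) < 1

variable {𝕜}

/-- The data needed for patching: a frame, inner embeddings and the outer lift. -/
structure GMid (F : IntermediateField k Ω) (π qπ x : Ω) {J : Type} (W V : J → ValuationSubring Ω)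
    {B B' H : Type} [Group B] [Group B'] [Group H] (φ : B →* B') (a : Aut k Ω → B')
    (b : J → Aut k Ω → B) (τ : Aut k Ω → H) (σ : Ω') (E0 E1 E2 : IntermediateField 𝕜 Ω')
    (O : ValuationSubring Ω') (ι : Ω →ₐ[k] Ω') (t : 𝕜) (ε : J → Aut k Ω) (δ : J → Aut 𝕜 Ω')
    (ι' : J → Ω →ₐ[k] Ω') (α : Aut 𝕜 Ω' → B) (v : J → B) : Prop where
  px : PX k σ E0 E1 E2 O
  rτ : IsRep (Gam k π) τ
  kτ : ∀ γ ∈ Gam k π, τ γ = 1 → γ ∈ F.fixingSubgroup ∧ a γ = 1 ∧ γ qπ = qπ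
  eps : ∀ j, ε j ∈ Gam k π ∧ τ (ε j) = 1
  fr : Fr σ E2 O ι t F π (fun j => ε j • W j) δ
  inn : ∀ j, ι' j x * algebraMap 𝕜 Ω' t = σ ∧ ∀ s, ι' j s ∈ O ↔ s ∈ V j
  rα : IsRep (Ext 𝕜 ι F).fixingSubgroup α
  lift : ∀ γ ∈ (Ext 𝕜 ι F).fixingSubgroup, φ (α γ) = a (res 𝕜 ι γ)
  ker : ∀ j, v j ∈ φ.ker
  agree : ∀ j, ∀ γ ∈ E0.fixingSubgroup,
    α (δ j * γ * (δ j)⁻¹) = v j * b j (res 𝕜 (ι' j) γ) * (v j)⁻¹
  unr : ∀ U : ValuationSubring Ω', IsPl 𝕜 U → σ ∈ U → (∀ j, ¬ InD 𝕜 σ O ι F (ε j • W j) U) →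
    Triv (fun γ => a (res 𝕜 ι γ)) (DecF (Ext 𝕜 ι F) U) → Triv α (DecF (Ext 𝕜 ι F) U)

/-- The output of the gluing theorem over the small constant field. -/
structure GRes (F : IntermediateField k Ω) (π qπ x qx : Ω) {J : Type}
    (W : J → ValuationSubring Ω) {G B B' : Type} [Group G] [Group B] [Group B']
    (inc : B →* G) (φ : B →* B') (a : Aut k Ω → B') (β : J → Aut k Ω → G) (ρ : Aut k Ω → G) :
    Prop where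
  rep : IsRep F.fixingSubgroup ρ
  g1 : ∀ U : ValuationSubring Ω, IsPl k U → π ∈ U → (∀ j, ¬ Agr F U (W j)) →
    Triv a (DecF F U) → Triv ρ (DecF F U)
  g2 : ∀ (j : J) (V₀ : ValuationSubring Ω) (I : Set (G × Ω)), IsPl k V₀ → V₀.valuation x < 1 →
    Loc k⟮x⟯ V₀ qx (β j) I → Loc F (W j) qπ ρ I
  g3 : ∀ j : J, ∃ v ∈ φ.ker, ∀ γ ∈ Gam k x, ∃ γ' ∈ F.fixingSubgroup,
    ρ γ' = inc v * β j γ * (inc v)⁻¹
  g4 : ∀ γ ∈ F.fixingSubgroup, ∃ γ' ∈ F.fixingSubgroup, ∃ b : B, ρ γ' = inc b ∧ φ b = a γ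
  g5 : ∃ U : ValuationSubring Ω, IsPl k U ∧ π ∉ U ∧
    ∀ γ ∈ DecF F U, ∃ b : B, ρ γ = inc b ∧ φ b = a γ

end Defs

/-- The sheet of a simple root over the closed unit disc. -/
def StmtONS : Prop := ∀ (p : ℕ) [Fact p.Prime] (k 𝕜 Q Ω' : Type) [Field k] [IsAlgClosed k]
  [CharP k p] [NormedField 𝕜] [IsUltrametricDist 𝕜] [CompleteSpace 𝕜] [IsAlgClosed 𝕜]
  [Algebra k 𝕜] [NormedField Q] [IsUltrametricDist Q] [CompleteSpace Q] [NormedAlgebra 𝕜 Q]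
  [Field Ω'] [IsAlgClosed Ω'] [Algebra 𝕜 Ω'] [Algebra k Ω'] [IsScalarTower k 𝕜 Ω'] (s : Q)
  (σ : Ω') (κ : Ω' →ₐ[𝕜] AlgebraicClosure Q), Gauss 𝕜 s → (∀ c : k, ‖algebraMap k 𝕜 c‖ ≤ 1) →
    Co 𝕜 σ → κ σ = algebraMap Q (AlgebraicClosure Q) s → ∀ O : ValuationSubring Ω',
      (∀ (y : Ω') (r : Q), algebraMap Q (AlgebraicClosure Q) r = κ y → (y ∈ O ↔ ‖r‖ ≤ 1)) →
      ∀ f : k[X][X], Sh f → ∀ ε : 𝕜, O.valuation (algebraMap 𝕜 Ω' ε) < 1 → ∀ θ : Ω',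
        Rt f (algebraMap 𝕜 Ω' ε * σ) θ → O.valuation θ < 1 →
          θ ∈ Eof 𝕜 κ (Mer 𝕜 s (R1 𝕜 s)) ∧ ∀ (W : ValuationSubring Ω') (a : 𝕜), IsPl 𝕜 W →
            algebraMap 𝕜 Ω' a ∈ O → W.valuation (σ - algebraMap 𝕜 Ω' a) < 1 →
            Dec 𝕜 σ W ≤ (Eof 𝕜 κ (Mer 𝕜 s (R1 𝕜 s))).fixingSubgroup →
              ∃ b : 𝕜, O.valuation (algebraMap 𝕜 Ω' b) < 1 ∧
                W.valuation (θ - algebraMap 𝕜 Ω' b) < 1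

/-- Existence of the extended patching datum over a large field. -/
def StmtPDX : Prop := ∀ (p : ℕ) [Fact p.Prime] (k : Type) [Field k] [IsAlgClosed k] [CharP k p],
  ∃ (𝕜 Ω' : Type) (_ : Field 𝕜) (_ : IsAlgClosed 𝕜) (_ : Field Ω') (_ : IsAlgClosed Ω')
    (_ : Algebra k 𝕜) (_ : Algebra k Ω') (_ : Algebra 𝕜 Ω') (_ : IsScalarTower k 𝕜 Ω')
    (ν : AbsoluteValue 𝕜 ℝ) (σ : Ω') (E0 E1 E2 : IntermediateField 𝕜 Ω')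
    (O : ValuationSubring Ω'), Big k ν ∧ PX k σ E0 E1 E2 O

/-- Connectedness over the two regions; existence of frames. -/
structure StmtFRX : Prop where
  conn1 : ∀ (p : ℕ) [Fact p.Prime] (k 𝕜 Ω Ω' : Type) [Field k] [IsAlgClosed k] [CharP k p]
    [Field 𝕜] [Field Ω] [IsAlgClosed Ω] [Field Ω'] [IsAlgClosed Ω'] [Algebra k 𝕜] [Algebra k Ω]
    [Algebra k Ω'] [Algebra 𝕜 Ω'] [IsScalarTower k 𝕜 Ω'] (σ : Ω')
    (E0 E1 E2 : IntermediateField 𝕜 Ω') (O : ValuationSubring Ω'), BasP k σ E0 E1 E2 O →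
      ∀ t : 𝕜, t ≠ 0 → O.valuation (algebraMap 𝕜 Ω' t) < 1 → ∀ (x : Ω) (ι : Ω →ₐ[k] Ω'), Co k x →
        ι x * algebraMap 𝕜 Ω' t = σ → ∀ (H : Type) [Group H] [Finite H] (τ : Aut k Ω → H),
          IsRep (Gam k x) τ → ∀ γ ∈ Gam k x, ∃ γ' ∈ E1.fixingSubgroup, τ (res 𝕜 ι γ') = τ γ
  conn2 : ∀ (p : ℕ) [Fact p.Prime] (k 𝕜 Ω Ω' : Type) [Field k] [IsAlgClosed k] [CharP k p]
    [Field 𝕜] [Field Ω] [IsAlgClosed Ω] [Field Ω'] [IsAlgClosed Ω'] [Algebra k 𝕜] [Algebra k Ω]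
    [Algebra k Ω'] [Algebra 𝕜 Ω'] [IsScalarTower k 𝕜 Ω'] (σ : Ω')
    (E0 E1 E2 : IntermediateField 𝕜 Ω') (O : ValuationSubring Ω'), BasP k σ E0 E1 E2 O →
      ∀ t : 𝕜, t ≠ 0 → O.valuation (algebraMap 𝕜 Ω' t) < 1 → ∀ (x : Ω) (ι : Ω →ₐ[k] Ω'), Co k x →
        ι x = algebraMap 𝕜 Ω' t * σ → ∀ (H : Type) [Group H] [Finite H] (τ : Aut k Ω → H),
          IsRep (Gam k x) τ → ∀ γ ∈ Gam k x, ∃ γ' ∈ E2.fixingSubgroup, τ (res 𝕜 ι γ') = τ γ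
  frame : ∀ (p : ℕ) [Fact p.Prime] (k 𝕜 Ω Ω' : Type) [Field k] [IsAlgClosed k] [CharP k p]
    [Field 𝕜] [Field Ω] [IsAlgClosed Ω] [Field Ω'] [IsAlgClosed Ω'] [Algebra k 𝕜] [Algebra k Ω]
    [Algebra k Ω'] [Algebra 𝕜 Ω'] [IsScalarTower k 𝕜 Ω'] (σ : Ω')
    (E0 E1 E2 : IntermediateField 𝕜 Ω') (O : ValuationSubring Ω'), BasP k σ E0 E1 E2 O →
      ∀ t : 𝕜, t ≠ 0 → O.valuation (algebraMap 𝕜 Ω' t) < 1 → ∀ (x : Ω) (ι : Ω →ₐ[k] Ω'), Co k x →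
        ι x = algebraMap 𝕜 Ω' t * σ → ∀ (H : Type) [Group H] [Finite H] (τ : Aut k Ω → H),
          IsRep (Gam k x) τ → ∀ W : ValuationSubring Ω, IsPl k W → W.valuation x < 1 →
            ∃ δ ∈ E2.fixingSubgroup, ∃ ε ∈ Gam k x, τ ε = 1 ∧
              ∀ s, ι s ∈ (δ • O : ValuationSubring Ω') ↔ s ∈ (ε • W : ValuationSubring Ω)
  inner : ∀ (k 𝕜 Ω Ω' : Type) [Field k] [IsAlgClosed k] [Field 𝕜] [Field Ω] [IsAlgClosed Ω]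
    [Field Ω'] [IsAlgClosed Ω'] [Algebra k 𝕜] [Algebra k Ω] [Algebra k Ω'] [Algebra 𝕜 Ω']
    [IsScalarTower k 𝕜 Ω'] (σ : Ω') (E0 E1 E2 : IntermediateField 𝕜 Ω')
    (O : ValuationSubring Ω'), BasP k σ E0 E1 E2 O → ∀ t : 𝕜, t ≠ 0 →
      O.valuation (algebraMap 𝕜 Ω' t) < 1 → Transcendental k t ∧ ∀ x : Ω, Co k x →
        (∃ ι : Ω →ₐ[k] Ω', ι x = algebraMap 𝕜 Ω' t * σ) ∧
        ∀ V : ValuationSubring Ω, IsPl k V → x ∉ V → ∃ ι : Ω →ₐ[k] Ω',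
          ι x * algebraMap 𝕜 Ω' t = σ ∧ ∀ s, ι s ∈ O ↔ s ∈ V

/-- The sheets of a frame. -/
def StmtFRL1 : Prop := ∀ (p : ℕ) [Fact p.Prime] (k 𝕜 Ω Ω' : Type) [Field k] [IsAlgClosed k]
  [CharP k p] [Field 𝕜] [IsAlgClosed 𝕜] [Field Ω] [IsAlgClosed Ω] [Field Ω'] [IsAlgClosed Ω']
  [Algebra k 𝕜] [Algebra k Ω] [Algebra k Ω'] [Algebra 𝕜 Ω'] [IsScalarTower k 𝕜 Ω'] (σ : Ω')
  (E0 E1 E2 : IntermediateField 𝕜 Ω') (O : ValuationSubring Ω'), PX k σ E0 E1 E2 O →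
    ∀ (ι : Ω →ₐ[k] Ω') (t : 𝕜) (F : IntermediateField k Ω) (π : Ω) (J : Type)
      (W : J → ValuationSubring Ω) (δ : J → Aut 𝕜 Ω'), Fr σ E2 O ι t F π W δ →
      FS (Ext 𝕜 ι F) σ ∧ Co 𝕜 (ι π) ∧ Gam 𝕜 (ι π) = Gam 𝕜 σ ∧
      (∀ j, ∀ γ ∈ E1.fixingSubgroup, δ j * γ * (δ j)⁻¹ ∈ (Ext 𝕜 ι F).fixingSubgroup) ∧
      (∀ i j, δ i * (δ j)⁻¹ ∈ (Ext 𝕜 ι F).fixingSubgroup → i = j) ∧
      (∀ j, ∀ γ ∈ E0.fixingSubgroup, res 𝕜 ι (δ j * γ * (δ j)⁻¹) ∈ DecF F (W j)) ∧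
      (∀ j, ∀ y ∈ Ext 𝕜 ι F, (δ j)⁻¹ y ∈ E0) ∧
      ∀ (H : Type) [Group H] [Finite H] (τ : Aut k Ω → H), IsRep (Gam k π) τ → ∀ j,
        ∀ γ ∈ E1.fixingSubgroup, ∃ η ∈ DecF F (W j), τ (res 𝕜 ι (δ j * γ * (δ j)⁻¹)) = τ η

/-- The places of the extended curve. -/
def StmtFRL2 : Prop := ∀ (p : ℕ) [Fact p.Prime] (k 𝕜 Ω Ω' : Type) [Field k] [IsAlgClosed k]
  [CharP k p] [Field 𝕜] [IsAlgClosed 𝕜] [Field Ω] [IsAlgClosed Ω] [Field Ω'] [IsAlgClosed Ω']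
  [Algebra k 𝕜] [Algebra k Ω] [Algebra k Ω'] [Algebra 𝕜 Ω'] [IsScalarTower k 𝕜 Ω'] (σ : Ω')
  (E0 E1 E2 : IntermediateField 𝕜 Ω') (O : ValuationSubring Ω'), PX k σ E0 E1 E2 O →
    ∀ (ι : Ω →ₐ[k] Ω') (t : 𝕜) (F : IntermediateField k Ω) (π : Ω) (J : Type)
      (W : J → ValuationSubring Ω) (δ : J → Aut 𝕜 Ω'), Fr σ E2 O ι t F π W δ →
      (∀ U : ValuationSubring Ω', IsPl 𝕜 U → ∃ η ∈ Gam 𝕜 σ,
        ((∀ γ ∈ Dec 𝕜 σ U, η⁻¹ * γ * η ∈ E2.fixingSubgroup) ∧ ∀ j, ¬ InD 𝕜 σ O ι F (W j) U) ∨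
        ((∀ γ ∈ Dec 𝕜 σ U, η⁻¹ * γ * η ∈ E1.fixingSubgroup) ∧
          ∀ j, η * (δ j)⁻¹ ∈ (Ext 𝕜 ι F).fixingSubgroup ↔ InD 𝕜 σ O ι F (W j) U)) ∧
      (∀ j U, InD 𝕜 σ O ι F (W j) U → ι π ∈ U ∧
        (∀ e : k, e ≠ 0 → ¬ U.valuation (ι π - algebraMap k Ω' e) < 1) ∧
        (U.valuation (ι π) < 1 → Ov ι F U (W j))) ∧
      (∀ j U, IsPl 𝕜 U → Ov ι F U (W j) →
        InD 𝕜 σ O ι F (W j) U ∧ Dec 𝕜 σ U ≤ (Ext 𝕜 ι F).fixingSubgroup) ∧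
      ∀ j, ∃ U, IsPl 𝕜 U ∧ Ov ι F U (W j)

/-- Simultaneous approximation on the boundary circles. -/
def StmtAPXF : Prop := ∀ (p : ℕ) [Fact p.Prime] (k 𝕜 Ω Ω' : Type) [Field k] [IsAlgClosed k]
  [CharP k p] [Field 𝕜] [IsAlgClosed 𝕜] [Field Ω] [IsAlgClosed Ω] [Field Ω'] [IsAlgClosed Ω']
  [Algebra k 𝕜] [Algebra k Ω] [Algebra k Ω'] [Algebra 𝕜 Ω'] [IsScalarTower k 𝕜 Ω'] (σ : Ω')
  (E0 E1 E2 : IntermediateField 𝕜 Ω') (O : ValuationSubring Ω'), PX k σ E0 E1 E2 O →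
    ∀ (ι : Ω →ₐ[k] Ω') (t : 𝕜) (F : IntermediateField k Ω) (π : Ω) (J : Type) [Finite J]
      (W : J → ValuationSubring Ω) (δ : J → Aut 𝕜 Ω'), Fr σ E2 O ι t F π W δ →
      ∀ (e : J → Ω') (T : Finset Ω'), (∀ j, (δ j)⁻¹ (e j) ∈ E0) → ∃ e' ∈ Ext 𝕜 ι F,
        (∀ j, ∀ m ∈ T, (δ j • O : ValuationSubring Ω').valuation ((e' - e j) * m) < 1) ∧
        ∀ U : ValuationSubring Ω', IsPl 𝕜 U → σ ∈ U → (∀ j, ¬ InD 𝕜 σ O ι F (W j) U) → e' ∈ U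

/-- A trace element regular at all finite tame places. -/
def StmtTRX : Prop := ∀ (p : ℕ) [Fact p.Prime] (k Ω : Type) [Field k] [IsAlgClosed k] [CharP k p]
  [Field Ω] [IsAlgClosed Ω] [Algebra k Ω] (F : IntermediateField k Ω) (x : Ω), FS F x →
    ∀ (G : Type) [Group G] [Finite G] (ρ : Aut k Ω → G) (h : IsRep F.fixingSubgroup ρ),
      ∃ t : G → Ω, (∀ γ ∈ F.fixingSubgroup, ∀ g, γ (t g) = t (ρ γ * g)) ∧
        ∑ᶠ g ∈ h.im, t g = 1 ∧ ∀ W : ValuationSubring Ω, IsPl k W → x ∈ W →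
          Tame p ρ (DecF F W) → ∀ g, t g ∈ W

/-- Elementary abelian normal subgroups. -/
structure StmtPIND : Prop where
  pgrp : ∀ (p : ℕ) [Fact p.Prime] (G : Type) [Group G] [Finite G] (K : Subgroup G), K.Normal →
    K ≠ ⊥ → IsPGroup p K → ∃ V : Subgroup G, V.Normal ∧ V ≠ ⊥ ∧ V ≤ K ∧
      (∀ a ∈ V, ∀ b ∈ V, a * b = b * a) ∧ ∀ a ∈ V, a ^ p = 1
  solv : ∀ (G : Type) [Group G] [Finite G] (K : Subgroup G), K.Normal → K ≠ ⊥ →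
    Group.IsSolvable K → ∃ (V : Subgroup G) (l : ℕ), V.Normal ∧ V ≠ ⊥ ∧ V ≤ K ∧ l.Prime ∧
      (∀ a ∈ V, ∀ b ∈ V, a * b = b * a) ∧ ∀ a ∈ V, a ^ l = 1

/-- One Artin-Schreier step with approximated local conditions. -/
def StmtASG1 : Prop := ∀ (p : ℕ) [Fact p.Prime] (k Ω : Type) [Field k] [IsAlgClosed k]
  [CharP k p] [Field Ω] [IsAlgClosed Ω] [Algebra k Ω] (F : IntermediateField k Ω) (x : Ω), FS F x →
    ∀ (J : Type) [Finite J] (E : J → IntermediateField k Ω) (O : J → ValuationSubring Ω)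
      (P : ValuationSubring Ω → Prop), (∀ j, F ≤ E j) →
      (∀ j, (E j).fixingSubgroup ≤ (O j).decompositionSubgroup k) →
      (∀ (e : J → Ω) (T : Finset Ω), (∀ j, e j ∈ E j) → ∃ e' ∈ F,
        (∀ j, ∀ m ∈ T, (O j).valuation ((e' - e j) * m) < 1) ∧ ∀ U, IsPl k U → P U → e' ∈ U) →
      (∀ U, P U → x ∈ U) → ∀ (B : Type) [Group B] [Finite B] (V : Subgroup B) [V.Normal],
        (∀ a ∈ V, ∀ b ∈ V, a * b = b * a) → (∀ a ∈ V, a ^ p = 1) → ∀ α₀ : Aut k Ω → B,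
          IsRep F.fixingSubgroup α₀ → ∀ b : J → Aut k Ω → B,
            (∀ j, IsRep (E j).fixingSubgroup (b j)) →
            (∀ j, ∀ γ ∈ (E j).fixingSubgroup, b j γ * (α₀ γ)⁻¹ ∈ V) →
              ∃ α : Aut k Ω → B, IsRep F.fixingSubgroup α ∧
                (∀ γ ∈ F.fixingSubgroup, α γ * (α₀ γ)⁻¹ ∈ V) ∧
                (∀ j, ∃ v ∈ V, ∀ γ ∈ (E j).fixingSubgroup, α γ = v * b j γ * v⁻¹) ∧
                ∀ U, IsPl k U → P U → ∀ γ ∈ DecF F U, α₀ γ = 1 → α γ = 1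

/-- Lifting through a `p`-group with approximated local conditions. -/
def StmtASG : Prop := ∀ (p : ℕ) [Fact p.Prime] (k Ω : Type) [Field k] [IsAlgClosed k]
  [CharP k p] [Field Ω] [IsAlgClosed Ω] [Algebra k Ω] (F : IntermediateField k Ω) (x : Ω), FS F x →
    ∀ (J : Type) [Finite J] (E : J → IntermediateField k Ω) (O : J → ValuationSubring Ω)
      (P : ValuationSubring Ω → Prop), (∀ j, F ≤ E j) →
      (∀ j, (E j).fixingSubgroup ≤ (O j).decompositionSubgroup k) →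
      (∀ (e : J → Ω) (T : Finset Ω), (∀ j, e j ∈ E j) → ∃ e' ∈ F,
        (∀ j, ∀ m ∈ T, (O j).valuation ((e' - e j) * m) < 1) ∧ ∀ U, IsPl k U → P U → e' ∈ U) →
      (∀ U, P U → x ∈ U) → ∀ (B B' : Type) [Group B] [Finite B] [Group B'] (φ : B →* B'),
        Function.Surjective φ → IsPGroup p φ.ker → ∀ a : Aut k Ω → B',
          IsRep F.fixingSubgroup a → ∀ b : J → Aut k Ω → B,
            (∀ j, IsRep (E j).fixingSubgroup (b j)) →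
            (∀ j, ∀ γ ∈ (E j).fixingSubgroup, φ (b j γ) = a γ) →
              ∃ α : Aut k Ω → B, IsRep F.fixingSubgroup α ∧
                (∀ γ ∈ F.fixingSubgroup, φ (α γ) = a γ) ∧
                (∀ j, ∃ v ∈ φ.ker, ∀ γ ∈ (E j).fixingSubgroup, α γ = v * b j γ * v⁻¹) ∧
                ∀ U, IsPl k U → P U → Tame p a (DecF F U) → ∀ γ ∈ DecF F U, a γ = 1 → α γ = 1

/-- Patching on a finite cover of the line. -/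
def StmtPATCH : Prop := ∀ (p : ℕ) [Fact p.Prime] (𝕜 Ω' : Type) [Field 𝕜] [IsAlgClosed 𝕜]
  [CharP 𝕜 p] [Field Ω'] [IsAlgClosed Ω'] [Algebra 𝕜 Ω'] (σ : Ω')
  (E0 E1 E2 : IntermediateField 𝕜 Ω'), σ ∈ E1 → σ ∈ E2 → E1 ≤ E0 → E2 ≤ E0 →
    (∀ y, y ∈ E1 → y ∈ E2 → y ∈ 𝕜⟮σ⟯) → FactP E0 E1 E2 → ∀ F : IntermediateField 𝕜 Ω', FS F σ →
      ∀ (J : Type) (δ : J → Aut 𝕜 Ω'), (∀ j, δ j ∈ E2.fixingSubgroup) →
        (∀ j, ∀ γ ∈ E1.fixingSubgroup, δ j * γ * (δ j)⁻¹ ∈ F.fixingSubgroup) →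
        (∀ i j, δ i * (δ j)⁻¹ ∈ F.fixingSubgroup → i = j) →
        ∀ (G : Type) [Group G] [Finite G] (α : Aut 𝕜 Ω' → G) (β : J → Aut 𝕜 Ω' → G),
          IsRep F.fixingSubgroup α → (∀ j, IsRep E1.fixingSubgroup (β j)) →
          (∀ j, ∀ γ ∈ E0.fixingSubgroup, β j γ = α (δ j * γ * (δ j)⁻¹)) →
            ∃ ρ : Aut 𝕜 Ω' → G, IsRep F.fixingSubgroup ρ ∧
              (∀ γ ∈ F.fixingSubgroup, γ ∈ E2.fixingSubgroup → ρ γ = α γ) ∧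
              (∀ j, ∀ γ ∈ E1.fixingSubgroup, ρ (δ j * γ * (δ j)⁻¹) = β j γ) ∧
              (∀ η ∈ Gam 𝕜 σ, ∃ h : G, ∀ γ ∈ F.fixingSubgroup,
                η⁻¹ * γ * η ∈ E2.fixingSubgroup → ρ γ = h⁻¹ * α γ * h) ∧
              (∀ η ∈ Gam 𝕜 σ, (∀ j, η * (δ j)⁻¹ ∉ F.fixingSubgroup) → ∃ h : G,
                ∀ γ ∈ F.fixingSubgroup, η⁻¹ * γ * η ∈ E1.fixingSubgroup → ρ γ = h⁻¹ * α γ * h) ∧
              ∀ (G' : Type) [Group G'] (ψ : G →* G'),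
                (∀ j, ∀ γ ∈ E1.fixingSubgroup, ψ (β j γ) = ψ (α (δ j * γ * (δ j)⁻¹))) →
                  ∀ γ ∈ F.fixingSubgroup, ψ (ρ γ) = ψ (α γ)

/-- Construction of the patching data. -/
def StmtG0A : Prop := ∀ (p : ℕ) [Fact p.Prime] (k Ω : Type) [Field k] [IsAlgClosed k] [CharP k p]
  [Field Ω] [IsAlgClosed Ω] [Algebra k Ω] (F : IntermediateField k Ω) (π qπ x qx : Ω) (M : ℕ)
  (ω : k) (J : Type) [Finite J] (W V : J → ValuationSubring Ω) (G B B' : Type) [Group G] [Group B]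
  [Finite B] [Group B'] (inc : B →* G) (φ : B →* B') (a : Aut k Ω → B') (β : J → Aut k Ω → G)
  (b : J → Aut k Ω → B) (c : J → B'), GIn p F π qπ x qx M ω W V inc φ a β b c →
    ∃ (𝕜 Ω' : Type) (_ : Field 𝕜) (_ : IsAlgClosed 𝕜) (_ : Field Ω') (_ : IsAlgClosed Ω')
      (_ : Algebra k 𝕜) (_ : Algebra k Ω') (_ : Algebra 𝕜 Ω') (_ : IsScalarTower k 𝕜 Ω')
      (ν : AbsoluteValue 𝕜 ℝ) (H : Type) (_ : Group H) (_ : Finite H) (τ : Aut k Ω → H) (σ : Ω')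
      (E0 E1 E2 : IntermediateField 𝕜 Ω') (O : ValuationSubring Ω') (ι : Ω →ₐ[k] Ω') (t : 𝕜)
      (ε : J → Aut k Ω) (δ : J → Aut 𝕜 Ω') (ι' : J → Ω →ₐ[k] Ω') (α : Aut 𝕜 Ω' → B) (v : J → B),
        Big k ν ∧ GMid F π qπ x W V φ a b τ σ E0 E1 E2 O ι t ε δ ι' α v

/-- From the patching data to the glued representation. -/
def StmtG0B : Prop := ∀ (p : ℕ) [Fact p.Prime] (k 𝕜 Ω Ω' : Type) [Field k] [IsAlgClosed k]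
  [CharP k p] [Field 𝕜] [IsAlgClosed 𝕜] [Field Ω] [IsAlgClosed Ω] [Field Ω'] [IsAlgClosed Ω']
  [Algebra k 𝕜] [Algebra k Ω] [Algebra k Ω'] [Algebra 𝕜 Ω'] [IsScalarTower k 𝕜 Ω']
  (F : IntermediateField k Ω) (π qπ x qx : Ω) (M : ℕ) (ω : k) (J : Type)
  (W V : J → ValuationSubring Ω) (G B B' H : Type) [Group G] [Finite G] [Group B] [Group B']
  [Group H] [Finite H] (inc : B →* G) (φ : B →* B') (a : Aut k Ω → B') (β : J → Aut k Ω → G)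
  (b : J → Aut k Ω → B) (c : J → B'), GIn p F π qπ x qx M ω W V inc φ a β b c →
    ∀ (ν : AbsoluteValue 𝕜 ℝ) (τ : Aut k Ω → H) (σ : Ω') (E0 E1 E2 : IntermediateField 𝕜 Ω')
      (O : ValuationSubring Ω') (ι : Ω →ₐ[k] Ω') (t : 𝕜) (ε : J → Aut k Ω) (δ : J → Aut 𝕜 Ω')
      (ι' : J → Ω →ₐ[k] Ω') (α : Aut 𝕜 Ω' → B) (v : J → B), Big k ν →
        GMid F π qπ x W V φ a b τ σ E0 E1 E2 O ι t ε δ ι' α v →
          ∃ ρ : Aut 𝕜 Ω' → G, GOut F π x qx ω W inc φ a β c ι t ρ α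

/-- The gluing theorem over the large constant field. -/
def StmtGLUE0 : Prop := ∀ (p : ℕ) [Fact p.Prime] (k Ω : Type) [Field k] [IsAlgClosed k]
  [CharP k p] [Field Ω] [IsAlgClosed Ω] [Algebra k Ω] (F : IntermediateField k Ω)
  (π qπ x qx : Ω) (M : ℕ) (ω : k) (J : Type) [Finite J] (W V : J → ValuationSubring Ω)
  (G B B' : Type) [Group G] [Finite G] [Group B] [Finite B] [Group B'] (inc : B →* G)
  (φ : B →* B') (a : Aut k Ω → B') (β : J → Aut k Ω → G) (b : J → Aut k Ω → B) (c : J → B'),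
    GIn p F π qπ x qx M ω W V inc φ a β b c →
      ∃ (𝕜 Ω' : Type) (_ : Field 𝕜) (_ : IsAlgClosed 𝕜) (_ : Field Ω') (_ : IsAlgClosed Ω')
        (_ : Algebra k 𝕜) (_ : Algebra k Ω') (_ : Algebra 𝕜 Ω') (_ : IsScalarTower k 𝕜 Ω')
        (ι : Ω →ₐ[k] Ω') (t : 𝕜) (ρ : Aut 𝕜 Ω' → G) (α : Aut 𝕜 Ω' → B),
          GOut F π x qx ω W inc φ a β c ι t ρ α

theorem glue0_of (hA : StmtG0A) (hB : StmtG0B) : StmtGLUE0 := by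
  intro p _ k Ω _ _ _ _ _ _ F π qπ x qx M ω J _ W V G B B' _ _ _ _ _ inc φ a β b c h
  obtain ⟨𝕜, Ω', i1, i2, i3, i4, i5, i6, i7, i8, ν, H, _, _, τ, σ, E0, E1, E2, O, ι, t, ε, δ, ι', α,
    v, h1, h2⟩ := hA p k Ω F π qπ x qx M ω J W V G B B' inc φ a β b c h
  obtain ⟨ρ, hρ⟩ := hB p k 𝕜 Ω Ω' F π qπ x qx M ω J W V G B B' H inc φ a β b c h ν τ σ E0 E1 E2 O
    ι t ε δ ι' α v h1 h2
  exact ⟨𝕜, Ω', i1, i2, i3, i4, i5, i6, i7, i8, ι, t, ρ, α, hρ⟩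

/-- The specialised decomposition groups at the poles of the coordinate. -/
def StmtTPD : Prop := ∀ (p : ℕ) [Fact p.Prime] (k 𝕜 Ω Ω' : Type) [Field k] [IsAlgClosed k]
  [CharP k p] [Field 𝕜] [IsAlgClosed 𝕜] [Field Ω] [IsAlgClosed Ω] [Field Ω'] [IsAlgClosed Ω']
  [Algebra k 𝕜] [Algebra k Ω] [Algebra k Ω'] [Algebra 𝕜 Ω'] [IsScalarTower k 𝕜 Ω'] (σ : Ω')
  (x : Ω), Co 𝕜 σ → Co k x → ∀ (H : Type) [Group H] [Finite H] (τ : Aut 𝕜 Ω' → H),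
    IsRep (Gam 𝕜 σ) τ → (∀ h, ∃ γ ∈ Gam 𝕜 σ, τ γ = h) → ∀ (U : ValuationSubring Ω') (s : Ω'),
      IsPl 𝕜 U → σ ∉ U → IsSeparable 𝕜⟮σ⟯ s → (∀ δ ∈ Gam 𝕜 σ, τ δ = 1 → δ s = s) →
      IntgInf 𝕜 σ s → U.valuation s < 1 → ∃ S : Finset Ω',
        (∀ y ∈ S, IsSeparable 𝕜⟮σ⟯ y ∧ ∀ δ ∈ Gam 𝕜 σ, τ δ = 1 → δ y = y) ∧
        Ev k 𝕜 σ x fun O ψ => ∀ τ' : Aut k Ω → H, IsRep (Gam k x) τ' →
          (∀ h, ∃ γ ∈ Gam k x, τ' γ = h) →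
          (∀ y ∈ S, IsSeparable k⟮x⟯ (ψ y) ∧ (∀ δ ∈ Gam 𝕜 σ, δ y ∈ O) ∧
            ∀ γ ∈ Gam k x, ∀ δ ∈ Gam 𝕜 σ, τ δ = τ' γ → γ (ψ y) = ψ (δ y)) →
          ∃ W : ValuationSubring Ω, IsPl k W ∧ x ∉ W ∧ W.valuation (ψ s) < 1 ∧
            τ' '' (Dec k x W : Set (Aut k Ω)) = τ '' (Dec 𝕜 σ U : Set (Aut 𝕜 Ω'))

/-- Normalised specialisations are points of good reduction. -/
def StmtADM : Prop := ∀ (k 𝕜 Ω Ω' : Type) [Field k] [IsAlgClosed k] [Field 𝕜] [IsAlgClosed 𝕜]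
  [Field Ω] [IsAlgClosed Ω] [Field Ω'] [Algebra k 𝕜] [Algebra k Ω] [Algebra k Ω'] [Algebra 𝕜 Ω']
  [IsScalarTower k 𝕜 Ω'] (ι : Ω →ₐ[k] Ω') (x : Ω), Co k x → Co 𝕜 (ι x) →
    ∀ (O : ValuationSubring Ω') (ψ : Ω' → Ω), Adm k 𝕜 (ι x) x O ψ → ∃ ψ' : Ω' → Ω,
      Adm k 𝕜 (ι x) x O ψ' ∧ (∀ s, ψ' (ι s) = s) ∧ RedD 𝕜 ι O ∧ ∀ s ∈ O, Rd ι O s (ψ' s)

/-- Specialisation of a cover of a constant curve. -/
def StmtTPX : Prop := ∀ (p : ℕ) [Fact p.Prime] (k 𝕜 Ω Ω' : Type) [Field k] [IsAlgClosed k]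
  [CharP k p] [Field 𝕜] [IsAlgClosed 𝕜] [Field Ω] [IsAlgClosed Ω] [Field Ω'] [IsAlgClosed Ω']
  [Algebra k 𝕜] [Algebra k Ω] [Algebra k Ω'] [Algebra 𝕜 Ω'] [IsScalarTower k 𝕜 Ω']
  (ι : Ω →ₐ[k] Ω') (F : IntermediateField k Ω) (u : Ω), FS F u → Co 𝕜 (ι u) →
    ∀ (G : Type) [Group G] [Finite G] (ρ' : Aut 𝕜 Ω' → G), IsRep (Ext 𝕜 ι F).fixingSubgroup ρ' →
      (∀ U : ValuationSubring Ω', IsPl 𝕜 U → ι u ∈ U → Triv ρ' (DecF (Ext 𝕜 ι F) U)) →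
      ∀ S : Finset Ω, (∀ s ∈ S, IsSeparable F s) → ∀ (I : Type) [Finite I]
        (U : I → ValuationSubring Ω'), (∀ i, IsPl 𝕜 (U i) ∧ ι u ∉ U i) →
          ∃ ρ : Aut k Ω → G, IsRep F.fixingSubgroup ρ ∧
            (∀ W : ValuationSubring Ω, IsPl k W → u ∈ W → Triv ρ (DecF F W)) ∧
            (∀ δ ∈ (Ext 𝕜 ι F).fixingSubgroup, ∃ γ ∈ F.fixingSubgroup,
              ρ γ = ρ' δ ∧ ∀ s ∈ S, ι (γ s) = δ (ι s)) ∧
            ∀ i, ∃ W : ValuationSubring Ω, IsPl k W ∧ Ov ι F (U i) W ∧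
              (∀ δ ∈ DecF (Ext 𝕜 ι F) (U i), ∃ γ ∈ DecF F W,
                ρ γ = ρ' δ ∧ ∀ s ∈ S, ι (γ s) = δ (ι s)) ∧
              ∀ γ ∈ DecF F W, ∃ δ ∈ DecF (Ext 𝕜 ι F) (U i),
                ρ γ = ρ' δ ∧ ∀ s ∈ S, ι (γ s) = δ (ι s)

/-- The gluing theorem over the small constant field. -/
def StmtGLUE : Prop := ∀ (p : ℕ) [Fact p.Prime] (k Ω : Type) [Field k] [IsAlgClosed k]
  [CharP k p] [Field Ω] [IsAlgClosed Ω] [Algebra k Ω] (F : IntermediateField k Ω)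
  (π qπ x qx : Ω) (M : ℕ) (ω : k) (J : Type) [Finite J] (W V : J → ValuationSubring Ω)
  (G B B' : Type) [Group G] [Finite G] [Group B] [Finite B] [Group B'] (inc : B →* G)
  (φ : B →* B') (a : Aut k Ω → B') (β : J → Aut k Ω → G) (b : J → Aut k Ω → B) (c : J → B'),
    GIn p F π qπ x qx M ω W V inc φ a β b c → (∀ j, UnrG x (β j)) →
      ∃ ρ : Aut k Ω → G, GRes F π qπ x qx W inc φ a β ρ

/-- A cover of the multiplicative group, tame at zero with given generator, wild at infinity. -/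
def StmtSTAR0 : Prop := ∀ (p : ℕ) [Fact p.Prime] (k Ω : Type) [Field k] [IsAlgClosed k]
  [CharP k p] [Field Ω] [IsAlgClosed Ω] [Algebra k Ω] (x q : Ω) (M : ℕ) (ω : k), Co k x →
    ¬ p ∣ M → IsPrimitiveRoot ω M → q ^ M = x → ∀ (G : Type) [Group G] [Finite G] (c : G),
      c ^ M = 1 → p ∣ Nat.card G → ∀ V₀ : ValuationSubring Ω, IsPl k V₀ → V₀.valuation x < 1 →
        ∃ β : Aut k Ω → G, IsRep (Gam k x) β ∧ UnrG x β ∧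
          Lam β (Dec k x V₀) q (algebraMap k Ω ω) c ∧
          ∀ V : ValuationSubring Ω, IsPl k V → x ∉ V → ¬ Tame p β (Dec k x V)

/-- Changing the tame inertia generator along a three point cover. -/
def StmtEDGE : Prop := ∀ (p : ℕ) [Fact p.Prime] (k Ω : Type) [Field k] [IsAlgClosed k]
  [CharP k p] [Field Ω] [IsAlgClosed Ω] [Algebra k Ω] (F : IntermediateField k Ω)
  (π qπ x qx : Ω) (M : ℕ) (ω : k), FS F π → Co k x → ¬ p ∣ M → IsPrimitiveRoot ω M →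
    qπ ^ M = π → qx ^ M = x → ∀ W V V₀ : ValuationSubring Ω, IsPl k W → IsUnif F W π →
      IsPl k V → x ∉ V → IsPl k V₀ → V₀.valuation x < 1 →
      ∀ (G G' : Type) [Group G] [Finite G] [Group G'] (ψ : G →* G') (α β : Aut k Ω → G)
        (c y : G), ¬ p ∣ Nat.card G → IsRep F.fixingSubgroup α → IsRep (Gam k x) β →
        Lam α (DecF F W) qπ (algebraMap k Ω ω) c → Lam β (Dec k x V) qx (algebraMap k Ω ω) c →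
        Lam β (Dec k x V₀) qx (algebraMap k Ω ω) y →
        (∀ U : ValuationSubring Ω, IsPl k U → U.valuation x = 1 → ¬ U.valuation (x - 1) < 1 →
          Triv β (Dec k x U)) →
        Lam (fun γ => ψ (β γ)) (Gam k x) qx (algebraMap k Ω ω) (ψ c) →
          ∃ α' : Aut k Ω → G, IsRep F.fixingSubgroup α' ∧
            (∀ γ ∈ F.fixingSubgroup, ψ (α' γ) = ψ (α γ)) ∧
            (∃ g : G, Lam α' (DecF F W) qπ (algebraMap k Ω ω) (g⁻¹ * y * g)) ∧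
            ∀ U : ValuationSubring Ω, IsPl k U → π ∈ U → ¬ Agr F U W → Triv α (DecF F U) →
              Triv α' (DecF F U)

end Pool.Agent.Lib.IW2
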