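import Pool.Agent.Lib.IW2.All1
import Pool.Agent.Lib.IW2.Blue3

/-! Normalised specialisations are points of good reduction. -/

open Polynomial IntermediateField

namespace Pool.Agent.Lib.IW2

open Pool.Agent.Lib.IW

namespace ADM

open TP Spec

variable {k 𝕜 Ω Ω' : Type} [Field k] [Field 𝕜] [Field Ω] [Field Ω']
  [Algebra k Ω] [Algebra k Ω'] [Algebra 𝕜 Ω'] {σ : Ω'} {x : Ω}
  {O : ValuationSubring Ω'} {ψ : Ω' → Ω}

lemma lt_of (h : Adm k 𝕜 σ x O ψ) {a : Ω'} (ha : a ∈ O) (h0 : ψ a = 0) : O.valuation a < 1 := by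
  rw [SH2.lt_iff]
  by_contra e
  push Not at e
  exact psi_ne h e.1 ha e.2 h0

lemma val_one (h : Adm k 𝕜 σ x O ψ) {a : Ω'} (ha : a ∈ O) (h0 : ψ a ≠ 0) :
    O.valuation a = 1 := by
  refine le_antisymm ((O.valuation_le_one_iff a).2 ha) (not_lt.1 fun e => ?_)
  rcases (SH2.lt_iff O a).1 e with e | e
  · exact h0 (e ▸ psi_zero h)
  · exact e (h.unit a ha h0)

lemma poly (h : Adm k 𝕜 σ x O ψ) (P : k[X]) : aeval σ P ∈ O ∧ ψ (aeval σ P) = aeval x P := by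
  induction P using Polynomial.induction_on' with
  | add P Q hP hQ =>
    rw [map_add, map_add, h.add _ hP.1 _ hQ.1, hP.2, hQ.2]
    exact ⟨add_mem hP.1 hQ.1, rfl⟩
  | monomial n c =>
    rw [aeval_monomial, aeval_monomial, h.mul _ (h.memk c) _ (pow_mem h.mem n), h.mapk,
      psi_pow h h.mem, h.map]
    exact ⟨mul_mem (h.memk c) (pow_mem h.mem n), rfl⟩

lemma ratf {ι : Ω →ₐ[k] Ω'} (h : Adm k 𝕜 (ι x) x O ψ) {y : Ω} (hy : y ∈ k⟮x⟯) :
    ι y ∈ O ∧ ψ (ι y) = y := by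
  obtain ⟨P, Q, rfl⟩ := (mem_adjoin_simple_iff k y).1 hy
  by_cases h0 : aeval x Q = 0
  · rw [h0, div_zero, map_zero]
    exact ⟨zero_mem O, psi_zero h⟩
  · have := psi_div h (poly h P).1 (poly h Q).1 (by rwa [(poly h Q).2])
    rwa [(poly h P).2, (poly h Q).2, aeval_algHom_apply, aeval_algHom_apply, ← map_div₀] at this

lemma mem {ι : Ω →ₐ[k] Ω'} (hx : Co k x) (h : Adm k 𝕜 (ι x) x O ψ) (s : Ω) : ι s ∈ O := by
  have hi := (hx.alg s).isIntegral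
  refine root_mem O (q := (minpoly k⟮x⟯ s).map ((ι : Ω →+* Ω').comp (algebraMap k⟮x⟯ Ω)))
    ((minpoly.monic hi).map _) (fun n => ?_) ?_
  · rw [coeff_map]
    exact (ratf h ((minpoly k⟮x⟯ s).coeff n).2).1
  · rw [eval_map]
    refine (hom_eval₂ _ _ (ι : Ω →+* Ω') s).symm.trans ?_
    rw [← aeval_def, minpoly.aeval, map_zero]

lemma lin (hx : Transcendental k x) (h : Adm k 𝕜 σ x O ψ) (a : 𝕜) :
    ∃ c : 𝕜, O.valuation (σ - algebraMap 𝕜 Ω' a) = O.valuation (algebraMap 𝕜 Ω' c) := by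
  by_cases ha : algebraMap 𝕜 Ω' a ∈ O
  · obtain ⟨c, hc⟩ := h.const a ha
    refine ⟨1, ?_⟩
    rw [map_one, map_one]
    refine val_one h (sub_mem h.mem ha) ?_
    rw [psi_sub h h.mem ha, h.map, hc, sub_ne_zero]
    exact fun e => hx (e ▸ isAlgebraic_algebraMap c)
  · refine ⟨a, Valuation.map_sub_eq_of_lt_right _ ?_⟩
    exact ((O.valuation_le_one_iff σ).2 h.mem).trans_lt
      (not_le.1 fun e => ha ((O.valuation_le_one_iff _).1 e))

variable [IsAlgClosed 𝕜]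

lemma vpoly
    (h : ∀ a : 𝕜, ∃ c : 𝕜, O.valuation (σ - algebraMap 𝕜 Ω' a) = O.valuation (algebraMap 𝕜 Ω' c))
    (P : 𝕜[X]) : ∃ c : 𝕜, O.valuation (aeval σ P) = O.valuation (algebraMap 𝕜 Ω' c) := by
  rw [(IsAlgClosed.splits P).eq_prod_roots, map_mul, aeval_C, map_multiset_prod]
  obtain ⟨c, hc⟩ := Multiset.prod_induction
    (fun s => ∃ c : 𝕜, O.valuation s = O.valuation (algebraMap 𝕜 Ω' c))
    ((P.roots.map fun a => X - C a).map (aeval σ))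
    (fun _ _ ⟨c, hc⟩ ⟨d, hd⟩ => ⟨c * d, by rw [map_mul, map_mul, map_mul, hc, hd]⟩)
    ⟨1, by rw [map_one (algebraMap 𝕜 Ω')]⟩ fun s hs => by
      obtain ⟨_, hq, rfl⟩ := Multiset.mem_map.1 hs
      obtain ⟨a, -, rfl⟩ := Multiset.mem_map.1 hq
      rw [map_sub, aeval_X, aeval_C]
      exact h a
  exact ⟨P.leadingCoeff * c, by rw [map_mul, map_mul, map_mul, hc]⟩

lemma vall (hσ : Co 𝕜 σ)
    (h : ∀ a : 𝕜, ∃ c : 𝕜, O.valuation (σ - algebraMap 𝕜 Ω' a) = O.valuation (algebraMap 𝕜 Ω' c))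
    {s : Ω'} (hs : s ≠ 0) : ∃ c : 𝕜, O.valuation s = O.valuation (algebraMap 𝕜 Ω' c) := by
  obtain ⟨e, he, g, hg, -, h1⟩ := Bas.pow_val _ O hs (hσ.alg s)
  obtain ⟨P, Q, rfl⟩ := (mem_adjoin_simple_iff 𝕜 g).1 hg
  obtain ⟨c, hc⟩ := vpoly h P
  obtain ⟨d, hd⟩ := vpoly h Q
  obtain ⟨b, hb⟩ := IsAlgClosed.exists_pow_nat_eq (c / d) he
  refine ⟨b, (pow_left_inj₀ zero_le zero_le he.ne').1 ?_⟩
  rw [h1, map_div₀, hc, hd, ← map_div₀, ← map_div₀, ← hb, map_pow, map_pow]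

end ADM

open ADM TP in
theorem blockADM : StmtADM := by
  intro k 𝕜 Ω Ω' _ _ _ _ _ _ _ _ _ _ _ _ ι x hx hσ O ψ h
  have hm := mem hx h
  have : Algebra.IsAlgebraic k⟮x⟯ Ω := ⟨hx.alg⟩
  let φ : Ω →ₐ[k⟮x⟯] Ω :=
    { toFun := fun s => ψ (ι s)
      map_one' := by rw [map_one, psi_one h]
      map_mul' := fun a b => by rw [map_mul, h.mul _ (hm a) _ (hm b)]
      map_zero' := by rw [map_zero, Spec.psi_zero h]
      map_add' := fun a b => by rw [map_add, h.add _ (hm a) _ (hm b)]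
      commutes' := fun y => (ratf h y.2).2 }
  let e := AlgEquiv.ofBijective φ (Algebra.IsAlgebraic.algHom_bijective φ)
  have he : ∀ s, e s = ψ (ι s) := fun _ => rfl
  have h1 : ∀ y ∈ k⟮x⟯, e.symm y = y := fun y hy => e.symm.commutes ⟨y, hy⟩
  have h2 : ∀ c : k, e.symm (algebraMap k Ω c) = algebraMap k Ω c := fun c =>
    h1 _ (IntermediateField.algebraMap_mem _ c)
  have h3 : ∀ s ∈ O, Rd ι O s (e.symm (ψ s)) := fun s hs => lt_of h (sub_mem hs (hm _)) (by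
    rw [psi_sub h hs (hm _), ← he, e.apply_symm_apply, sub_self])
  refine ⟨fun s => e.symm (ψ s), ⟨fun a ha b hb => ?_, fun a ha b hb => ?_,
    fun a ha h0 => h.unit a ha fun e' => h0 ?_, h.memk, fun c => ?_, h.mem, ?_, fun c hc => ?_⟩,
    fun s => e.symm_apply_apply s, ⟨hm, fun s hs => vall hσ (lin hx.tr h) hs,
      fun s hs => ⟨_, h3 s hs⟩, fun c hc => ?_⟩, h3⟩
  · rw [h.add a ha b hb, map_add]
  · rw [h.mul a ha b hb, map_mul]
  · rw [e', map_zero]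
  · rw [h.mapk, h2]
  · rw [h.map]
    exact h1 x (mem_adjoin_simple_self k x)
  · obtain ⟨c₀, h4⟩ := h.const c hc
    exact ⟨c₀, by rw [h4, h2]⟩
  · obtain ⟨c₀, h4⟩ := h.const c hc
    refine ⟨c₀, lt_of h (sub_mem hc (h.memk c₀)) ?_⟩
    rw [psi_sub h hc (h.memk c₀), h4, h.mapk, sub_self]

end Pool.Agent.Lib.IW2
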