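import Pool.Agent.Lib.IW2.All1
import Pool.Agent.Lib.IW2.Blue3

/-! Simultaneous approximation on the boundary circles. -/

open Polynomial IntermediateField Filter
open scoped Pointwise

namespace Pool.Agent.Lib.IW2

open Pool.Agent.Lib.IW

namespace APXF

open MAX

section

variable {k L : Type} [Field k] [Field L] [Algebra k L] {U : ValuationSubring L}

lemma prod_one {I : Type} (S : Finset I) (u : I → L) (h : ∀ i ∈ S, U.valuation (u i - 1) < 1) :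
    U.valuation (∏ i ∈ S, u i - 1) < 1 := by
  refine Finset.prod_induction u (fun x => U.valuation (x - 1) < 1) (fun a b ha hb => ?_)
    (by simp) h
  have e : a * b - 1 = (a - 1) * b + (b - 1) := by ring
  rw [e]
  exact U.valuation.map_add_lt (mul_lt ha (RED3.mem_of_small (one_mem U) hb)) hb

lemma ev_of {s m : L} (hs : U.valuation s < 1) {n : ℕ} (h : U.valuation (s ^ n * m) < 1) :
    ∀ᶠ N : ℕ in atTop, U.valuation (s ^ N * m) < 1 := by
  filter_upwards [eventually_ge_atTop n] with N hN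
  obtain ⟨d, rfl⟩ := Nat.exists_eq_add_of_le hN
  rw [pow_add, mul_right_comm]
  exact mul_lt h (pow_mem (mem_of_lt hs) d)

lemma ev_pl [IsAlgClosed k] {x : L} (hx : Co k x) (hU : IsPl k U) {s : L}
    (hs : U.valuation s < 1) (y : L) : ∀ᶠ N : ℕ in atTop, U.valuation (s ^ N * y) < 1 := by
  rcases eq_or_ne s 0 with rfl | h0
  · exact ev_of hs (n := 1) (by simp)
  simpa only [map_mul, map_pow] using ASM.ev_small found.bas hx hU h0 hs y

lemma rt_mem (hk : ∀ c : k, algebraMap k L c ∈ U) {f : k[X][X]} (hf : f.Monic) {u θ : L}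
    (h : Rt f u θ) (hu : u ∈ U) : θ ∈ U :=
  root_mem (hf.map (aeval (R := k) u).toRingHom) (fun i => by
    rw [coeff_map]
    exact Bas.aeval_mem hk hu _) (by rw [eval_map]; exact h)

lemma ev_smul {O : ValuationSubring L}
    (hO : ∀ s m : L, O.valuation s < 1 → ∃ n : ℕ, O.valuation (s ^ n * m) < 1) (γ : Aut k L)
    {s : L} (hs : (γ • O : ValuationSubring L).valuation s < 1) (m : L) :
    ∀ᶠ N : ℕ in atTop, (γ • O : ValuationSubring L).valuation (s ^ N * m) < 1 := by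
  obtain ⟨s, rfl⟩ := γ.surjective s
  obtain ⟨m, rfl⟩ := γ.surjective m
  obtain ⟨n, hn⟩ := hO s m ((Bas.smul_lt O γ s).1 hs)
  refine ev_of hs (n := n) ?_
  rwa [← map_pow, ← map_mul, Bas.smul_lt]

end

variable {p : ℕ} [Fact p.Prime] {k 𝕜 Ω Ω' : Type} [Field k] [IsAlgClosed k]
  [CharP k p] [Field 𝕜] [IsAlgClosed 𝕜] [Field Ω] [IsAlgClosed Ω] [Field Ω'] [IsAlgClosed Ω']
  [Algebra k 𝕜] [Algebra k Ω] [Algebra k Ω'] [Algebra 𝕜 Ω'] [IsScalarTower k 𝕜 Ω'] {σ : Ω'}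
  {E0 E1 E2 : IntermediateField 𝕜 Ω'} {O : ValuationSubring Ω'} {ι : Ω →ₐ[k] Ω'} {t : 𝕜}
  {F : IntermediateField k Ω} {π : Ω} {J : Type} {W : J → ValuationSubring Ω}
  {δ : J → Aut 𝕜 Ω'}

/-- A function vanishing at a given place outside the small disc. -/
lemma key (p : ℕ) [Fact p.Prime] [CharP k p] (hP : PX k σ E0 E1 E2 O)
    (hF : Fr σ E2 O ι t F π W δ) (hco : Co 𝕜 (ι π)) (j : J) {U : ValuationSubring Ω'}
    (hU : IsPl 𝕜 U) {a : 𝕜} (ha : algebraMap 𝕜 Ω' a ∈ O)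
    (hσ : U.valuation (σ - algebraMap 𝕜 Ω' a) < 1) (hn : ¬ In 𝕜 ι O F (W j) U) :
    ∃ u ∈ Ext 𝕜 ι F, Intg 𝕜 σ u ∧ (δ j • O : ValuationSubring Ω').valuation (u - 1) < 1 ∧
      (∀ i, u ∈ (δ i • O : ValuationSubring Ω')) ∧ U.valuation u < 1 := by
  have kk := IsScalarTower.algebraMap_apply k 𝕜 Ω'
  obtain ⟨d1, -⟩ := disc p k 𝕜 Ω Ω' ι O hP.bas.const F π hF.fs hco _ (hF.pl j) (hF.un j)
  obtain ⟨θ, f, f1, f2, f3, f4⟩ := sh1 p k Ω F π hF.fs _ (hF.pl j) (hF.un j)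
  replace d1 := d1 θ f f1 f2 f3 f4
  have hθ : θ ∈ F := f4 ▸ IntermediateField.subset_adjoin _ _ (by simp)
  have cO : ∀ i (c : 𝕜), algebraMap 𝕜 Ω' c ∈ (δ i • O : ValuationSubring Ω') ↔
      algebraMap 𝕜 Ω' c ∈ O := fun i c => by rw [← Bas.smul_mem O (δ i), (δ i).commutes]
  have w2 : O.valuation (algebraMap 𝕜 Ω' (t * a)) < 1 := by
    rw [map_mul]
    exact mul_lt hF.t1 ha
  have w3 : U.valuation (ι π - algebraMap 𝕜 Ω' (t * a)) < 1 := by
    rw [hF.eq, map_mul, ← mul_sub, mul_comm]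
    exact mul_lt hσ (hU.2 t)
  obtain ⟨b, h, b1, b2, b3, b4⟩ := sh2.fac k 𝕜 Ω' O hP.bas.const f f1 _ w2
  have hI : ∀ V : ValuationSubring Ω', IsPl 𝕜 V → σ ∈ V → ι θ ∈ V := fun V v1 v2 =>
    rt_mem (fun c => by rw [kk]; exact v1.2 _) f1.1 (DISC.rt_map ι f2)
      (hF.eq ▸ mul_mem (v1.2 t) v2)
  have hi : algebraMap 𝕜 Ω' (h.coeff 0)⁻¹ ∈ O := by
    rw [← O.valuation_le_one_iff, map_inv₀, map_inv₀, b4, inv_one]
  have h0 : algebraMap 𝕜 Ω' (h.coeff 0) ≠ 0 := fun e => by simp [e] at b4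
  refine ⟨aeval (ι θ) h * algebraMap 𝕜 Ω' (h.coeff 0)⁻¹, mul_mem (amem
    (R := (Ext 𝕜 ι F).toSubring) h (fun i => IntermediateField.algebraMap_mem _ _) (mem_Ext ι hθ))
    (IntermediateField.algebraMap_mem _ _), fun V v1 v2 => mul_mem
      (Bas.aeval_mem v1.2 (hI V v1 v2) h) (v1.2 _), ?_, fun i => mul_mem (amem
      (R := (δ i • O : ValuationSubring Ω').toSubring) h (fun n => (cO i _).2 (b3 n))
      ((hF.ov i θ).2 (rt_mem (hF.pl i).2 f1.1 f2 (mem_of_lt (hF.un i).2.2.1))))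
      ((cO i _).2 hi), mul_lt ?_ (hU.2 _)⟩
  · have a0 := DISC.lt_of_ov (fun s _ => hF.ov j s) hθ f3
    have a1 := acong h (fun n => (cO j _).2 (b3 n)) (mem_of_lt a0) (y := 0) (by simpa using a0)
    rw [← coeff_zero_eq_aeval_zero'] at a1
    have a2 := mul_lt a1 ((cO j _).2 hi)
    rwa [sub_mul, map_inv₀, mul_inv_cancel₀ h0, ← map_inv₀] at a2
  · have wθ := hI U hU (RED3.mem_of_small (hU.2 a) hσ)
    have a1 := rt_cong hU f w3 wθ
    rw [rt_map ι f2, zero_sub, Valuation.map_neg, b2, map_mul, map_mul, map_sub, aeval_X,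
      aeval_C] at a1
    have a2 : U.valuation (ι θ - algebraMap 𝕜 Ω' b) = 1 :=
      le_antisymm ((U.valuation_le_one_iff _).2 (sub_mem wθ (hU.2 b))) (not_lt.1 fun e =>
        hn ((d1 U).2 ⟨hU, ⟨_, w2, w3⟩, b, b1, e⟩))
    rwa [a2, one_mul] at a1

lemma inD_agr {V : ValuationSubring Ω} {U U' : ValuationSubring Ω'}
    (hU : IsPl 𝕜 U) (h : Agr (Ext 𝕜 ι F) U' U) (hI : In 𝕜 ι O F V U') : In 𝕜 ι O F V U :=
  ⟨hU, fun s hs hv => (hI.2 s hs hv).imp fun _ hc => ⟨hc.1, agr_lt h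
    (sub_mem (mem_Ext ι hs) (IntermediateField.algebraMap_mem _ _)) hc.2⟩⟩

/-- The cut-off function attached to one circle. -/
lemma cut [Finite J] (p : ℕ) [Fact p.Prime] [CharP k p] (hP : PX k σ E0 E1 E2 O)
    (hF : Fr σ E2 O ι t F π W δ) (hco : Co 𝕜 (ι π)) (j : J) (S : Finset (ValuationSubring Ω'))
    (hS : ∀ U ∈ S, IsPl 𝕜 U ∧ ¬ In 𝕜 ι O F (W j) U ∧ ∃ a : 𝕜, algebraMap 𝕜 Ω' a ∈ O ∧
      U.valuation (σ - algebraMap 𝕜 Ω' a) < 1) :
    ∃ w ∈ Ext 𝕜 ι F, Intg 𝕜 σ w ∧ (δ j • O : ValuationSubring Ω').valuation (w - 1) < 1 ∧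
      (∀ i, i ≠ j → (δ i • O : ValuationSubring Ω').valuation w < 1) ∧
      ∀ U ∈ S, U.valuation w < 1 := by
  classical
  have := Fintype.ofFinite J
  have kk := IsScalarTower.algebraMap_apply k 𝕜 Ω'
  choose! u u1 u2 u3 u4 u5 using fun U (h : U ∈ S) => (hS U h).2.2.elim fun a ha =>
    key p hP hF hco j (hS U h).1 ha.1 ha.2 (hS U h).2.1
  obtain ⟨s, s1, s2, s3, s4⟩ := found.unif.sepp k Ω π hF.fs.co F hF.fs.fg hF.fs.mem (W j)
    ((Finset.univ.erase j).image W) (hF.pl j) (mem_of_lt (hF.un j).2.2.1) fun V hV => by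
      obtain ⟨i, hi, rfl⟩ := Finset.mem_image.1 hV
      exact ⟨hF.pl i, mem_of_lt (hF.un i).2.2.1, fun e => Finset.ne_of_mem_erase hi (hF.ne i j e)⟩
  have s5 : Intg 𝕜 σ (ι s) := fun V v1 v2 => by
    rcases rx.plc k 𝕜 Ω Ω' ι π hF.fs.co hco V v1 with h | h
    · exact h.1 s
    · exact s2 _ h.1 (show ι π ∈ V from hF.eq ▸ mul_mem (v1.2 t) v2)
  have q : Intg 𝕜 σ (∏ U ∈ S, u U) := fun V v1 v2 => prod_mem fun U h => u2 U h V v1 v2
  have sU : ∀ U ∈ S, σ ∈ U := fun U h => (hS U h).2.2.elim fun a ha =>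
    RED3.mem_of_small ((hS U h).1.2 a) ha.2
  refine ⟨ι s * ∏ U ∈ S, u U, mul_mem (mem_Ext ι s1) (prod_mem u1), fun V v1 v2 =>
    mul_mem (s5 V v1 v2) (q V v1 v2), ?_, fun i hi => mul_lt (DISC.lt_of_ov (fun s _ => hF.ov i s)
      s1 (s4 _ (Finset.mem_image_of_mem W (by simpa using hi)))) (prod_mem fun U h => u4 U h i),
      fun U h => ?_⟩
  · have a1 := DISC.lt_of_ov (fun s _ => hF.ov j s) (sub_mem s1 (one_mem F)) s3
    rw [map_sub, map_one] at a1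
    have a2 := prod_one S u u3
    have e : ι s * ∏ U ∈ S, u U - 1 = (ι s - 1) * ∏ U ∈ S, u U + (∏ U ∈ S, u U - 1) := by ring
    rw [e]
    exact Valuation.map_add_lt _ (mul_lt a1 (RED3.mem_of_small (one_mem _) a2)) a2
  · rw [← Finset.mul_prod_erase S u h, mul_left_comm]
    exact mul_lt (u5 U h) (mul_mem (s5 U (hS U h).1 (sU U h)) (prod_mem fun U' h' =>
      u2 U' (Finset.mem_of_mem_erase h') U (hS U h).1 (sU U h)))

end APXF

open APXF MAX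

theorem blockAPXF (hFRL1 : StmtFRL1) : StmtAPXF := by
  classical
  intro p hp k 𝕜 Ω Ω' _ _ _ _ _ _ _ _ _ _ _ _ _ _ σ E0 E1 E2 O hP ι t F π J _ W δ hF e T he
  have := Fintype.ofFinite J
  have : CharP Ω' p := charP_of_injective_algebraMap (algebraMap k Ω').injective p
  obtain ⟨hE, hco, -⟩ := hFRL1 p k 𝕜 Ω Ω' σ E0 E1 E2 O hP ι t F π J W δ hF
  have hle : 𝕜⟮σ⟯ ≤ Ext 𝕜 ι F := adjoin_simple_le_iff.2 hE.mem
  have h1 : ∀ j, ∃ y ∈ 𝕜⟮σ⟯, (∀ m ∈ T,
      (δ j • O : ValuationSubring Ω').valuation ((y - e j) * m) < 1) ∧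
      ∀ U : ValuationSubring Ω', IsPl 𝕜 U → σ ∈ U → y ∉ U →
        ∃ a : 𝕜, algebraMap 𝕜 Ω' a ∈ O ∧ U.valuation (σ - algebraMap 𝕜 Ω' a) < 1 := fun j => by
    obtain ⟨m, -, hm⟩ := Finset.exists_max_image (insert 0 T)
      (δ j • O : ValuationSubring Ω').valuation (Finset.insert_nonempty _ _)
    obtain ⟨y, y1, y2, y3⟩ := hP.apx _ (he j) ((δ j)⁻¹ m)
    refine ⟨y, y1, fun m' hm' => lt_of_le_of_lt ?_ ((Bas.smul_lt O (δ j) _).2 y2), y3⟩
    have e1 : ∀ z, δ j ((δ j)⁻¹ z) = z := (δ j).apply_symm_apply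
    rw [map_mul (δ j), map_sub, e1, e1,
      fix_apply (hF.mem j) (adjoin_simple_le_iff.2 hP.bas.mem2 y1), map_mul, map_mul]
    exact mul_le_mul_right (hm m' (Finset.mem_insert_of_mem hm')) _
  choose y y1 y2 y3 using h1
  choose S S1 S2 S3 using fun j => found.unif.fin 𝕜 Ω' _ hE.ff (y j) (hle (y1 j))
  choose w w1 w2 w3 w4 w5 using fun j => cut p hP hF hco j
    ((S j).filter fun U => σ ∈ U ∧ ¬ In 𝕜 ι O F (W j) U) fun U hU => by
      obtain ⟨a, b, c⟩ := Finset.mem_filter.1 hU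
      exact ⟨(S1 j U a).1, c, y3 j U (S1 j U a).1 b (S1 j U a).2⟩
  have ev : ∀ᶠ N : ℕ in atTop, ∀ j, (∀ m ∈ T,
      (δ j • O : ValuationSubring Ω').valuation ((w j - 1) ^ N * (y j * m)) < 1 ∧ ∀ i, i ≠ j →
        (δ i • O : ValuationSubring Ω').valuation (w j ^ N * (y j * m)) < 1) ∧
      ∀ U ∈ (S j).filter fun U => σ ∈ U ∧ ¬ In 𝕜 ι O F (W j) U,
        U.valuation (w j ^ N * y j) < 1 := by
    refine eventually_all.2 fun j => Eventually.and ((eventually_all_finset T).2 fun m _ =>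
      (ev_smul hP.arch _ (w3 j) _).and (eventually_all.2 fun i => ?_))
      ((eventually_all_finset _).2 fun U hU =>
        ev_pl hP.bas.co (S1 j U (Finset.mem_filter.1 hU).1).1 (w5 j U hU) _)
    by_cases h : i = j
    · exact Eventually.of_forall fun _ h' => (h' h).elim
    · exact (ev_smul hP.arch _ (w4 j i h) _).mono fun _ h' _ => h'
  obtain ⟨n, hn⟩ := ((tendsto_pow_atTop_atTop_of_one_lt hp.out.one_lt).eventually ev).exists
  refine ⟨∑ j, w j ^ p ^ n * y j, sum_mem fun j _ => mul_mem (pow_mem (w1 j) _) (hle (y1 j)),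
    fun i m hm => ?_, fun U u1 u2 u3 => sum_mem fun j _ => ?_⟩
  · have e1 : (∑ j, w j ^ p ^ n * y j - e i) * m = (w i - 1) ^ p ^ n * (y i * m) +
        (y i - e i) * m + ∑ j ∈ Finset.univ.erase i, w j ^ p ^ n * (y j * m) := by
      rw [← Finset.add_sum_erase _ _ (Finset.mem_univ i), sub_pow_char_pow, one_pow,
        add_sub_right_comm, add_mul, Finset.sum_mul]
      simp only [mul_assoc]
      ring
    rw [e1]
    exact Valuation.map_add_lt _ (Valuation.map_add_lt _ ((hn i).1 m hm).1 (y2 i m hm))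
      (Valuation.map_sum_lt _ one_ne_zero fun j hj =>
        ((hn j).1 m hm).2 i (Finset.ne_of_mem_erase hj).symm)
  · by_cases h : y j ∈ U
    · exact mul_mem (pow_mem (w2 j U u1 u2) _) h
    obtain ⟨U', a1, a2⟩ := S3 j U u1 h
    refine (a2 _ (mul_mem (pow_mem (w1 j) _) (hle (y1 j)))).2 (mem_of_lt ((hn j).2 U'
      (Finset.mem_filter.2 ⟨a1, (a2 σ hE.mem).1 u2, fun hI => u3 j
        ⟨inD_agr u1 (fun z hz => (a2 z hz).symm) hI, y3 j U u1 u2 h⟩⟩)))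

end Pool.Agent.Lib.IW2
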