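import Pool.Agent.Lib.IW2.All1
import Pool.Agent.Lib.IW2.Blue3

/-! Lifting through a `p`-group with approximated local conditions. -/

open scoped Pointwise

namespace Pool.Agent.Lib.IW2

open Pool.Agent.Lib.IW

theorem blockASG (hT : StmtTRX) (hP : StmtPIND) (h1 : StmtASG1) : StmtASG := by
  intro p _ k Ω _ _ _ _ _ _ F x hF J _ E O P hE hO hap hx B B' _ _ _ φ hφ hp a ha
  have fx : ∀ j, (E j).fixingSubgroup ≤ F.fixingSubgroup := fun j =>
    IntermediateField.fixingSubgroup_antitone (hE j)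
  induction hn : Nat.card B using Nat.strong_induction_on generalizing B with
  | _ n ih =>
  intro b hb hab
  by_cases hk : φ.ker = ⊥
  · have inj := (MonoidHom.ker_eq_bot_iff φ).1 hk
    let e := MulEquiv.ofBijective φ ⟨inj, hφ⟩
    have he : ∀ y, φ (e.symm y) = y := e.apply_symm_apply
    refine ⟨fun γ => e.symm (a γ), ha.comp e.symm.toMonoidHom, fun γ _ => he _,
      fun j => ⟨1, one_mem _, fun γ hγ => inj ?_⟩, fun U _ _ _ γ _ h => ?_⟩
    · simp only [he, one_mul, inv_one, mul_one, hab j γ hγ]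
    · simp only [h, map_one]
  obtain ⟨V, hN, hV, hle, hc, he⟩ := hP.pgrp p B φ.ker inferInstance hk hp
  let φ' : B ⧸ V →* B' := QuotientGroup.lift V φ hle
  have kr : φ'.ker = φ.ker.map (QuotientGroup.mk' V) := QuotientGroup.ker_lift V φ hle
  have lt : Nat.card (B ⧸ V) < n := by
    rw [← hn, Subgroup.card_eq_card_quotient_mul_card_subgroup V]
    exact lt_mul_of_one_lt_right Nat.card_pos ((Subgroup.one_lt_card_iff_ne_bot V).2 hV)
  obtain ⟨α₁, r1, a1, c1, t1⟩ := ih _ lt (B ⧸ V) φ'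
    (fun y => let ⟨g, hg⟩ := hφ y; ⟨g, hg⟩) (kr ▸ hp.map _) rfl
    (fun j γ => QuotientGroup.mk' V (b j γ)) (fun j => (hb j).comp _) hab
  obtain ⟨t, u1, u2, u3⟩ := hT p k Ω F x hF _ α₁ r1
  obtain ⟨α₀, r0, a0, t0⟩ := blockASW found blockLin p k Ω x hF.co F.fixingSubgroup
    (fix_le_Gam hF.mem) B (B ⧸ V) (QuotientGroup.mk' V) (QuotientGroup.mk'_surjective V)
    (by rw [QuotientGroup.ker_mk']; exact hc) (by rw [QuotientGroup.ker_mk']; exact he)
    α₁ r1 t u1 u2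
  have c2 : ∀ j, ∃ w ∈ φ.ker, ∀ γ ∈ (E j).fixingSubgroup,
      α₁ γ = QuotientGroup.mk' V (w * b j γ * w⁻¹) := fun j => by
    obtain ⟨v, hv, h⟩ := c1 j
    rw [kr] at hv
    obtain ⟨w, hw, rfl⟩ := hv
    exact ⟨w, hw, fun γ hγ => by rw [h γ hγ, map_mul, map_mul, map_inv]⟩
  choose w w1 w2 using c2
  obtain ⟨α, r, a2, c3, t2⟩ := h1 p k Ω F x hF J E O P hE hO hap hx B V hc he α₀ r0
    (fun j γ => w j * b j γ * (w j)⁻¹) (fun j => (hb j).conj _) fun j γ hγ => by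
      rw [← QuotientGroup.ker_mk' V, MonoidHom.mem_ker, map_mul, map_inv, a0 γ (fx j hγ),
        w2 j γ hγ, mul_inv_cancel]
  refine ⟨α, r, fun γ hγ => ?_, fun j => ?_, fun U hU hPU hta γ hγ h => ?_⟩
  · have := hle (a2 γ hγ)
    rw [MonoidHom.mem_ker, map_mul, map_inv, mul_inv_eq_one] at this
    rw [this, ← a1 γ hγ, ← a0 γ hγ]
    rfl
  · obtain ⟨v, hv, h⟩ := c3 j
    exact ⟨v * w j, mul_mem (hle hv) (w1 j), fun γ hγ => by rw [h γ hγ]; group⟩
  · refine t2 U hU hPU γ hγ (t0 U hU (u3 U hU (hx U hPU) fun δ hδ => ?_) γ hγ.1 hγ.2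
      (t1 U hU hPU hta γ hγ h))
    obtain ⟨m, m1, m2⟩ := hta δ hδ
    exact ⟨m, m1, by
      rw [← r1.pow hδ.1]
      exact t1 U hU hPU hta _ (pow_mem hδ m) (by rw [ha.pow hδ.1, m2])⟩

end Pool.Agent.Lib.IW2
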