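import Pool.Agent.Lib.IW2.Blue3

/-! Block ASG1: one Artin-Schreier step with approximated local conditions. -/

open Polynomial IntermediateField
open scoped Pointwise

namespace Pool.Agent.Lib.IW2

open Pool.Agent.Lib.IW Pool.Agent.Lib.IW.ASM

namespace ASG1

variable {p : ℕ} [Fact p.Prime] {k Ω : Type} [Field k] [Field Ω] [Algebra k Ω]
  {E : Type} [Group E] {r : ℕ}

lemma small_root [CharP Ω p] [IsAlgClosed Ω] {W : ValuationSubring Ω} {m : Ω}
    (hm : W.valuation m < 1) : ∃ z : Ω, z ^ p - z = m ∧ W.valuation z < 1 := by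
  obtain ⟨z, hz⟩ := as_root (p := p) m
  have h1 : z ∈ W := as_mem (p := p) (hz ▸ (W.valuation_le_one_iff _).1 hm.le)
  have hp : (p : IsLocalRing.ResidueField W) = 0 := by
    have h : (p : W) = 0 := Subtype.ext (by simp)
    rw [← map_natCast (IsLocalRing.residue W), h, map_zero]
  have : CharP (IsLocalRing.ResidueField W) p := (CharP.charP_iff_prime_eq_zero Fact.out).2 hp
  have h2 : IsLocalRing.residue W ⟨z, h1⟩ ^ p = IsLocalRing.residue W ⟨z, h1⟩ := by
    rw [← sub_eq_zero, ← map_pow, ← map_sub, IsLocalRing.residue_eq_zero_iff,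
      W.valuation_lt_one_iff]
    simpa [hz] using hm
  obtain ⟨c, hc⟩ := mem_cast (p := p) h2
  obtain ⟨n, hn⟩ := cast_nat (Ω := IsLocalRing.ResidueField W) c
  refine ⟨z - n, ?_, ?_⟩
  · rw [sub_pow_char, ← frobenius_def p (n : Ω), map_natCast, ← hz]
    ring
  · rw [hn, eq_comm, ← map_natCast (IsLocalRing.residue W), ← sub_eq_zero, ← map_sub,
      IsLocalRing.residue_eq_zero_iff, W.valuation_lt_one_iff] at hc
    simpa using hc

lemma star_lt {W : ValuationSubring Ω} {A : E →* Matrix (Fin r) (Fin r) Ω} (hA : Pr A)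
    (g : E) {γ : Aut k Ω} (hγ : γ • W = W) {m : Fin r → Ω} (hm : ∀ l, W.valuation (m l) < 1)
    (i : Fin r) : W.valuation (ASM.star A g γ m i) < 1 := by
  rw [star_apply]
  refine Valuation.map_sum_lt _ one_ne_zero fun j _ => ?_
  obtain ⟨n, hn⟩ := hA g i j
  rw [hn, map_mul]
  exact mul_lt_one_of_nonneg_of_lt_one_right ((W.valuation_le_one_iff _).2 (natCast_mem W n))
    zero_le (Bas.move₂ hγ (hm j))

/-- Fixed integral separable vectors span. -/
lemma span_vec [IsAlgClosed k] [CharP k p] [IsAlgClosed Ω] [Finite E] {x : Ω}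
    (hx : Co k x) {Δ : Subgroup (Aut k Ω)} (hΔ : Δ ≤ Gam k x)
    {A : E →* Matrix (Fin r) (Fin r) Ω} (hA : Pr A) {ρ : Aut k Ω → E}
    (hρ : IsRep Δ ρ) : ∃ s : Set (Fin r → Ω), s.Finite ∧
      (∀ b ∈ s, b ∈ FixIn A ρ Δ (IntA k x).toSubmodule ∧ ∀ l, b l ∈ SepF k x) ∧
      ∀ m : Fin r → Ω, (∀ l, m l ∈ SepF k x) → m ∈ Submodule.span (SepF k x) s := by
  classical
  have := Fintype.ofFinite E
  obtain ⟨y, hinj, hy, hγy⟩ := found.str p k Ω x hx Δ hΔ E ρ hρ
  let y' : E → SepF k x := fun h => ⟨y h, (hy h).1⟩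
  have hinj' : Function.Injective y' := fun a b h => hinj (congrArg Subtype.val h)
  let P : (SepF k x)[X] := Lagrange.basis Finset.univ y' 1
  have hP : ∀ h, aeval (y h) P = if h = 1 then 1 else 0 := fun h => by
    have h1 : aeval (y h) P = algebraMap (SepF k x) Ω (P.eval (y' h)) := by
      rw [← aeval_algebraMap_apply_eq_algebraMap_eval]
      rfl
    rw [h1]
    split_ifs with h2
    · rw [h2, Lagrange.eval_basis_self hinj'.injOn (Finset.mem_univ _), map_one]
    · rw [Lagrange.eval_basis_of_ne (Ne.symm h2) (Finset.mem_univ _), map_zero]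
  let e : Fin r × ℕ → Fin r → Ω := fun vi l => ∑ h, y h ^ vi.2 * A h l vi.1
  refine ⟨e '' (Set.univ ×ˢ (Finset.range (P.natDegree + 1) : Set ℕ)),
    (Set.finite_univ.prod (Finset.finite_toSet _)).image _, ?_, fun m hm => ?_⟩
  · rintro _ ⟨⟨v, i⟩, -, rfl⟩
    refine ⟨⟨fun γ hγ => ?_, fun l => ?_⟩, fun l => ?_⟩
    · funext l
      simp only [star_apply, e, map_sum, map_mul, map_pow, hγy γ hγ, Finset.mul_sum]
      rw [Finset.sum_comm, ← Equiv.sum_comp (Equiv.mulLeft (ρ γ)) fun h => y h ^ i * A h l v]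
      refine Finset.sum_congr rfl fun h _ => ?_
      rw [Equiv.coe_mulLeft, map_mul, Matrix.mul_apply, Finset.mul_sum]
      refine Finset.sum_congr rfl fun j _ => ?_
      obtain ⟨n, hn⟩ := hA h j v
      rw [hn, map_natCast]
      ring
    · refine (IntA k x).sum_mem fun h _ => mul_mem (pow_mem (hy h).2 _) ?_
      obtain ⟨n, hn⟩ := hA h l v
      rw [hn]
      exact _root_.natCast_mem _ n
    · refine sum_mem fun h _ => mul_mem (pow_mem (hy h).1 _) ?_
      obtain ⟨n, hn⟩ := hA h l v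
      rw [hn]
      exact _root_.natCast_mem _ n
  · have h1 : m = ∑ v, (⟨m v, hm v⟩ : SepF k x) •
        ∑ i ∈ Finset.range (P.natDegree + 1), P.coeff i • e (v, i) := by
      funext l
      have h2 : ∀ v, (∑ i ∈ Finset.range (P.natDegree + 1), P.coeff i • e (v, i)) l =
          (1 : Matrix (Fin r) (Fin r) Ω) l v := fun v => by
        simp only [Finset.sum_apply, Pi.smul_apply, e, Finset.smul_sum]
        rw [Finset.sum_comm]
        have h3 : ∀ h, ∑ i ∈ Finset.range (P.natDegree + 1), P.coeff i • (y h ^ i * A h l v) =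
            aeval (y h) P * A h l v := fun h => by
          rw [aeval_eq_sum_range, Finset.sum_mul]
          exact Finset.sum_congr rfl fun i _ => (smul_mul_assoc _ _ _).symm
        simp only [h3, hP, ite_mul, one_mul, zero_mul, Finset.sum_ite_eq', Finset.mem_univ,
          if_true, map_one]
      simp only [Finset.sum_apply (g := fun v => (⟨m v, hm v⟩ : SepF k x) •
        ∑ i ∈ Finset.range (P.natDegree + 1), P.coeff i • e (v, i)), Pi.smul_apply, h2]
      simp [Matrix.one_apply, IntermediateField.smul_def]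
    rw [h1]
    refine Submodule.sum_mem _ fun v _ => Submodule.smul_mem _ _ (Submodule.sum_mem _ fun i hi =>
      Submodule.smul_mem _ _ (Submodule.subset_span ⟨(v, i), ⟨trivial, hi⟩, rfl⟩))

/-- A basis of fixed integral vectors, with coordinates in the fixed field. -/
lemma basis [IsAlgClosed k] [CharP k p] [IsAlgClosed Ω] [Finite E] {F : IntermediateField k Ω}
    {x : Ω} (hF : FS F x) {A : E →* Matrix (Fin r) (Fin r) Ω} (hA : Pr A) {ρ : Aut k Ω → E}
    (hρ : IsRep F.fixingSubgroup ρ) : ∃ (ι : Type) (_ : Fintype ι) (w : ι → Fin r → Ω),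
      (∀ i, w i ∈ FixIn A ρ F.fixingSubgroup (IntA k x).toSubmodule) ∧
      ∀ L : IntermediateField k Ω, F ≤ L → ∀ m ∈ FixIn A ρ L.fixingSubgroup
        (SepF k x).toSubalgebra.toSubmodule, ∃ c : ι → Ω, (∀ i, c i ∈ L) ∧ ∑ i, c i • w i = m := by
  classical
  obtain ⟨s, hs, hs1, hs2⟩ := span_vec (p := p) hF.co hF.le hA hρ
  obtain ⟨b, hbs, hb, hli⟩ := exists_linearIndependent (SepF k x) s
  have : Fintype b := (hs.subset hbs).fintype
  refine ⟨b, this, (↑), fun i => (hs1 _ (hbs i.2)).1, fun L hL m hm => ?_⟩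
  have hle := IntermediateField.fixingSubgroup_le hL
  have h1 : m ∈ Submodule.span (SepF k x) (Set.range ((↑) : b → Fin r → Ω)) := by
    rw [Subtype.range_coe, hb]
    exact hs2 m hm.2
  obtain ⟨c, hc⟩ := (Submodule.mem_span_range_iff_exists_fun _).1 h1
  refine ⟨fun i => c i, fun j => found.gal.sep k Ω L (Ind.alg_of_mem hF.co (hL hF.mem)) _
    (sep_up (adjoin_simple_le_iff.2 (hL hF.mem)) (c j).2) fun γ hγ => ?_, hc⟩
  let c' : b → SepF k x := fun j => ⟨γ (c j), sep_map (hF.le (hle hγ)) (c j).2⟩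
  have h2 : ∑ j, c' j • (j : Fin r → Ω) = ∑ j, c j • (j : Fin r → Ω) := by
    rw [hc, ← hm.1 γ hγ, ← hc, map_sum]
    refine Finset.sum_congr rfl fun j _ => ?_
    rw [IntermediateField.smul_def, IntermediateField.smul_def, ASM.star_smul,
      (hs1 _ (hbs j.2)).1.1 γ (hle hγ)]
  exact congrArg Subtype.val
    (congrFun (funext (Fintype.linearIndependent_iffₛ.1 hli c' c h2)) j)

end ASG1

open ASG1 in
theorem blockASG1 : StmtASG1 := by
  intro p _ k Ω _ _ _ _ _ _ F x hF J _ E O P hFE hEO hap hP B _ _ V _ hc hp α₀ h0 b hb hV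
  classical
  have : CharP Ω p := charP_of_injective_algebraMap (algebraMap k Ω).injective p
  obtain ⟨r, e, a, hl⟩ := blockLin p B V hc hp
  have hA := mat_pr (Ω := Ω) a
  have hle := fun j => IntermediateField.fixingSubgroup_le (hFE j)
  choose η hη1 hη2 using fun j =>
    ex_eta found hF.co hl ((hle j).trans hF.le) (h0.mono (hle j)) (hb j) (hV j)
  have hν : ∀ j, frob p r (η j) - η j ∈
      FixIn (mat Ω a) α₀ (E j).fixingSubgroup (SepF k x).toSubalgebra.toSubmodule := fun j => by
    refine ⟨fun γ hγ => ?_, fun l => (SepF k x).toSubalgebra.sub_mem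
      ((SepF k x).toSubalgebra.pow_mem (hη1 j l) p) (hη1 j l)⟩
    obtain ⟨u, -, hu⟩ := hη2 j γ hγ
    have h1 := frob_emb (Ω := Ω) u
    rw [← hu, map_sub] at h1
    rw [map_sub, star_frob hA]
    linear_combination h1
  obtain ⟨ι, _, w, hw1, hw2⟩ := basis (p := p) hF hA h0
  choose d hd1 hd2 using fun j => hw2 (E j) (hFE j) _ (hν j)
  choose d' hd3 hd4 hd5 using fun i => hap (fun j => d j i)
    (Finset.univ.image fun il : ι × Fin r => w il.1 il.2) fun j => hd1 j i
  choose y hy using fun l => as_root (p := p) ((∑ i, d' i • w i) l)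
  have hy' : frob p r y - y = ∑ i, d' i • w i := funext hy
  have hc : ∀ γ : Aut k Ω, γ ∈ F.fixingSubgroup →
      ∃ u, emb Ω p r u = ASM.star (mat Ω a) (α₀ γ) γ y - y := fun γ hγ => by
    refine ex_emb ?_
    have h1 : ASM.star (mat Ω a) (α₀ γ) γ (frob p r y - y) = frob p r y - y := by
      rw [hy', map_sum]
      exact Finset.sum_congr rfl fun i _ => by
        rw [ASM.star_smul, fix_apply hγ (hd3 i), (hw1 i).1 γ hγ]
    rw [map_sub, star_frob hA] at h1
    rw [map_sub]
    linear_combination h1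
  choose! c hc using hc
  have he0 : e 0 = 1 := by
    have h1 := hl.add 0 0
    rw [add_zero] at h1
    exact mul_left_cancel (h1.symm.trans (mul_one _).symm)
  refine ⟨fun γ => e (c γ) * α₀ γ, ⟨fun γ hγ δ hδ => ?_, ?_⟩, fun γ _ => ?_, fun j => ?_,
    fun U hU hPU γ hγ h1 => ?_⟩
  · have h1 : c (γ * δ) = c γ + (a (α₀ γ)).mulVec (c δ) := by
      apply emb_inj (Ω := Ω)
      rw [map_add, ← star_emb a _ γ, hc _ (mul_mem hγ hδ), hc γ hγ, hc δ hδ, h0.mul γ hγ δ hδ,
        ASM.star_mul hA, map_sub]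
      abel
    rw [h1, hl.add, ← hl.conj, h0.mul γ hγ δ hδ]
    group
  · obtain ⟨S, hS⟩ := h0.cts
    refine ⟨S ∪ Finset.univ.image y, fun γ hγ δ hδ h => ?_⟩
    have h1 := hS γ hγ δ hδ fun s hs => h s (Finset.mem_union_left _ hs)
    have h2 : c γ = c δ := by
      apply emb_inj (Ω := Ω)
      rw [hc γ hγ, hc δ hδ, h1]
      congr 1
      funext i
      rw [star_apply, star_apply]
      refine Finset.sum_congr rfl fun j _ => ?_
      rw [h _ (Finset.mem_union_right _ (Finset.mem_image_of_mem y (Finset.mem_univ j)))]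
    beta_reduce
    rw [h1, h2]
  · rw [mul_inv_cancel_right]
    exact (hl.range _).2 ⟨_, rfl⟩
  · have hs : ∀ l, (O j).valuation ((∑ i, (d' i - d j i) • w i) l) < 1 := fun l => by
      rw [Finset.sum_apply]
      exact Valuation.map_sum_lt _ one_ne_zero fun i _ =>
        hd4 i j _ (Finset.mem_image_of_mem _ (Finset.mem_univ (i, l)))
    choose z hz hz' using fun l => small_root (p := p) (hs l)
    have hzb : frob p r z - z = (frob p r y - y) - (frob p r (η j) - η j) := by
      rw [hy', ← hd2 j, ← Finset.sum_sub_distrib]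
      simp only [← sub_smul]
      exact funext hz
    obtain ⟨u0, hu0⟩ := ex_emb (p := p) (w := y - η j - z) (by
      rw [map_sub, map_sub]
      linear_combination -hzb)
    refine ⟨e (-u0), (hl.range _).2 ⟨_, rfl⟩, fun γ hγ => ?_⟩
    obtain ⟨u, hu1, hu2⟩ := hη2 j γ hγ
    have h3 : ASM.star (mat Ω a) (α₀ γ) γ z = z := by
      have h4 : frob p r (ASM.star (mat Ω a) (α₀ γ) γ z - z) = ASM.star (mat Ω a) (α₀ γ) γ z - z := by
        have h5 := congrArg (ASM.star (mat Ω a) (α₀ γ) γ) hzb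
        have h6 := frob_emb (Ω := Ω) (c γ)
        rw [hc γ (hle j hγ), map_sub] at h6
        rw [map_sub, map_sub, (hν j).1 γ hγ, map_sub, star_frob hA, star_frob hA] at h5
        rw [map_sub]
        linear_combination h5 + h6 - hzb
      funext l
      exact sub_eq_zero.1 (as_zero (p := p) (congrFun h4 l) ((O j).valuation.map_sub_lt
        (star_lt hA _ (hEO j hγ) hz' l) (hz' l)))
    have h1 : c γ = -u0 + (u + (a (α₀ γ)).mulVec u0) := by
      apply emb_inj (Ω := Ω)
      rw [hc γ (hle j hγ), map_add, map_add, map_neg, ← star_emb a _ γ, hu0, ← hu2, map_sub,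
        map_sub, h3]
      abel
    have h2 : (e (-u0))⁻¹ = e u0 := by
      rw [inv_eq_iff_mul_eq_one, ← hl.add, neg_add_cancel, he0]
    beta_reduce
    rw [h1, h2, hl.add, hl.add, ← hl.conj, hu1]
    group
  · have h2 : c γ = 0 := by
      apply emb_inj (Ω := Ω)
      rw [map_zero]
      funext l
      have h3 : y l ∈ U := as_mem (p := p) (by
        rw [hy, Finset.sum_apply]
        exact sum_mem fun i _ => mul_mem (hd5 i U hU hPU) ((hw1 i).2 l U hU (hP U hPU)))
      refine as_zero (p := p) (W := U) (congrFun (frob_emb (c γ)) l) ?_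
      rw [hc γ (DecF_le _ _ hγ), h1, Pi.sub_apply, star_apply, map_one]
      simpa [Matrix.one_apply] using
        (found.bas.move k Ω x hF.co U hU γ (mem_DecF.1 hγ).2).1 _ h3
    beta_reduce
    rw [h1, h2, he0, one_mul]

end Pool.Agent.Lib.IW2
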