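import Mathlib

/-! Inertia groups of Galois covers of a curve unramified outside a set of points. -/

namespace Pool.Agent.Lib.IW2

/-- `H` is the stabiliser of a point above `ξ` in a Galois cover with group `G` in which all
points not above a member of `S` have trivial stabiliser. -/
def OccursOn (k : Type) [Field k] {K : Type} [Field K] [Algebra k K]
    (S : Set (ValuationSubring K)) (ξ : ValuationSubring K) (G : Type) [Group G]
    (H : Subgroup G) : Prop :=
  ∃ (L : Type) (_ : Field L) (_ : Algebra K L) (_ : FiniteDimensional K L) (_ : IsGalois K L)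
    (e : (L ≃ₐ[K] L) ≃* G),
    (∀ η : ValuationSubring L, η ≠ ⊤ → (∀ c : k, algebraMap K L (algebraMap k K c) ∈ η) →
      η.comap (algebraMap K L) ∉ S → η.decompositionSubgroup K = ⊥) ∧
    ∃ η : ValuationSubring L, η.comap (algebraMap K L) = ξ ∧
      (η.decompositionSubgroup K).map e.toMonoidHom = H

/-- The subgroup generated by the elements of `p`-power order. -/
def pPart (p : ℕ) (G : Type) [Group G] : Subgroup G :=
  Subgroup.normalClosure {g : G | ∃ j : ℕ, g ^ p ^ j = 1}

instance (p : ℕ) (G : Type) [Group G] : (pPart p G).Normal := Subgroup.normalClosure_normal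

end Pool.Agent.Lib.IW2
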