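import Pool.Agent.Lib.IW2.Blue3
import Pool.Agent.Lib.IW2.Occ

/-! Block statements, part four: lifting problems, group theory and the assembly. -/

open Polynomial IntermediateField
open scoped Pointwise

namespace Pool.Agent.Lib.IW2

open Pool.Agent.Lib.IW

/-! ### Solvable kernels of order prime to `p` -/

/-- Cocycles with values in an induced module, with one free place. -/
def StmtINDX : Prop := ∀ (p : ℕ) [Fact p.Prime] (k Ω : Type) [Field k] [IsAlgClosed k]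
  [CharP k p] [Field Ω] [IsAlgClosed Ω] [Algebra k Ω] (F L : IntermediateField k Ω), FF F → FF L →
    F ≤ L → (∀ y ∈ L, IsSeparable F y) → (∀ γ ∈ F.fixingSubgroup, ∀ y ∈ L, γ y ∈ L) →
    ∀ (H A : Type) [Group H] [Finite H] [AddCommGroup A] [Finite A] (ρ : Aut k Ω → H),
      IsRep F.fixingSubgroup ρ → (∀ h, ∃ γ ∈ F.fixingSubgroup, ρ γ = h) →
      (∀ γ : Aut k Ω, γ ∈ L.fixingSubgroup ↔ γ ∈ F.fixingSubgroup ∧ ρ γ = 1) →
      ∀ n : ℕ, ¬ p ∣ n → (∀ a : A, n • a = 0) →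
        (∀ W₁ W₂ : ValuationSubring Ω, IsPl k W₁ → IsPl k W₂ → ∃ f : Ω, DivMod L n f W₁ W₂) →
        ∀ W W₁ : ValuationSubring Ω, IsPl k W → IsPl k W₁ → ¬ Agr F W W₁ →
          ∀ c₀ : Aut k Ω → H → A,
            (∀ γ ∈ DecF F W, ∀ δ ∈ DecF F W, ∀ h, c₀ (γ * δ) h = c₀ γ h + c₀ δ ((ρ γ)⁻¹ * h)) →
            Cts (DecF F W) c₀ → ∃ c : Aut k Ω → H → A,
              (∀ γ ∈ F.fixingSubgroup, ∀ δ ∈ F.fixingSubgroup, ∀ h,
                c (γ * δ) h = c γ h + c δ ((ρ γ)⁻¹ * h)) ∧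
              Cts F.fixingSubgroup c ∧ (∀ γ ∈ DecF F W, ∀ h, c γ h = c₀ γ h) ∧
              ∀ W' : ValuationSubring Ω, IsPl k W' → ¬ Agr F W W' → ¬ Agr F W₁ W' →
                ∃ a : H → A, ∀ γ ∈ DecF F W', ∀ h, c γ h = a ((ρ γ)⁻¹ * h) - a h

/-- Local cocycles are global when one place is free. -/
def StmtLGX : Prop := ∀ (p : ℕ) [Fact p.Prime] (k Ω : Type) [Field k] [IsAlgClosed k]
  [CharP k p] [Field Ω] [IsAlgClosed Ω] [Algebra k Ω] (F : IntermediateField k Ω) (x : Ω), FS F x →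
    ∀ (H A : Type) [Group H] [Finite H] [AddCommGroup A] [Finite A] [DistribMulAction H A]
      (ρ : Aut k Ω → H), IsRep F.fixingSubgroup ρ → ∀ l : ℕ, l.Prime → l ≠ p →
        (∀ a : A, l • a = 0) → ∀ W W₁ : ValuationSubring Ω, IsPl k W → IsPl k W₁ → ¬ Agr F W W₁ →
          ∀ c₀ : Aut k Ω → A, IsCoc (DecF F W) ρ c₀ →
            ∃ c : Aut k Ω → A, IsCoc F.fixingSubgroup ρ c ∧ (∀ γ ∈ DecF F W, c γ = c₀ γ) ∧
              ∀ W' : ValuationSubring Ω, IsPl k W' → ¬ Agr F W W' → ¬ Agr F W₁ W' →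
                ∃ a : A, ∀ γ ∈ DecF F W', c γ = ρ γ • a - a

/-- One abelian step with prescribed local behaviour. -/
def StmtSOLV1 : Prop := ∀ (p : ℕ) [Fact p.Prime] (k Ω : Type) [Field k] [IsAlgClosed k]
  [CharP k p] [Field Ω] [IsAlgClosed Ω] [Algebra k Ω] (F : IntermediateField k Ω) (x : Ω), FS F x →
    ∀ (G : Type) [Group G] [Finite G] (V : Subgroup G) [V.Normal] (l : ℕ), l.Prime → l ≠ p →
      (∀ a ∈ V, ∀ b ∈ V, a * b = b * a) → (∀ a ∈ V, a ^ l = 1) → ∀ α₀ : Aut k Ω → G,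
        IsRep F.fixingSubgroup α₀ → ∀ (I : Type) [Finite I] (W : I → ValuationSubring Ω)
          (W₁ : ValuationSubring Ω) (b : I → Aut k Ω → G), (∀ i, IsPl k (W i)) → IsPl k W₁ →
          (∀ i j, Agr F (W i) (W j) → i = j) → (∀ i, ¬ Agr F (W i) W₁) →
          (∀ i, IsRep (DecF F (W i)) (b i)) → (∀ i, ∀ γ ∈ DecF F (W i), b i γ * (α₀ γ)⁻¹ ∈ V) →
            ∃ α : Aut k Ω → G, IsRep F.fixingSubgroup α ∧
              (∀ γ ∈ F.fixingSubgroup, α γ * (α₀ γ)⁻¹ ∈ V) ∧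
              (∀ i, ∃ v ∈ V, ∀ γ ∈ DecF F (W i), α γ = v * b i γ * v⁻¹) ∧
              ∀ U : ValuationSubring Ω, IsPl k U → (∀ i, ¬ Agr F (W i) U) → ¬ Agr F W₁ U →
                Triv α₀ (DecF F U) → Triv α (DecF F U)

/-- Lifting through a solvable kernel of order prime to `p`. -/
def StmtSOLV : Prop := ∀ (p : ℕ) [Fact p.Prime] (k Ω : Type) [Field k] [IsAlgClosed k]
  [CharP k p] [Field Ω] [IsAlgClosed Ω] [Algebra k Ω] (F : IntermediateField k Ω) (x : Ω), FS F x →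
    ∀ (G G' : Type) [Group G] [Finite G] [Group G'] (φ : G →* G'), Function.Surjective φ →
      Group.IsSolvable φ.ker → ¬ p ∣ Nat.card φ.ker → ∀ a : Aut k Ω → G',
        IsRep F.fixingSubgroup a → ∀ (I : Type) [Finite I] (W : I → ValuationSubring Ω)
          (W₁ : ValuationSubring Ω) (b : I → Aut k Ω → G), (∀ i, IsPl k (W i)) → IsPl k W₁ →
          (∀ i j, Agr F (W i) (W j) → i = j) → (∀ i, ¬ Agr F (W i) W₁) →
          (∀ i, IsRep (DecF F (W i)) (b i)) → (∀ i, ∀ γ ∈ DecF F (W i), φ (b i γ) = a γ) →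
            ∃ α : Aut k Ω → G, IsRep F.fixingSubgroup α ∧
              (∀ γ ∈ F.fixingSubgroup, φ (α γ) = a γ) ∧
              (∀ i, ∃ v ∈ φ.ker, ∀ γ ∈ DecF F (W i), α γ = v * b i γ * v⁻¹) ∧
              ∀ U : ValuationSubring Ω, IsPl k U → (∀ i, ¬ Agr F (W i) U) → ¬ Agr F W₁ U →
                Triv a (DecF F U) → Triv α (DecF F U)

/-! ### The local group at zero -/

/-- Prescribing the local behaviour at infinity without new finite ramification. -/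
def StmtASMX : Prop := ∀ (p : ℕ) [Fact p.Prime] (k Ω : Type) [Field k] [IsAlgClosed k]
  [CharP k p] [Field Ω] [IsAlgClosed Ω] [Algebra k Ω] (x : Ω), Co k x →
    ∀ (B B' : Type) [Group B] [Finite B] [Group B'] (φ : B →* B'), Function.Surjective φ →
      IsPGroup p φ.ker → ∀ a : Aut k Ω → B', IsRep (Gam k x) a → ∀ W : ValuationSubring Ω,
        IsPl k W → x ∉ W → ∀ b : Aut k Ω → B, IsRep (Dec k x W) b →
          (∀ γ ∈ Dec k x W, φ (b γ) = a γ) → ∃ α : Aut k Ω → B, IsRep (Gam k x) α ∧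
            (∀ γ ∈ Gam k x, φ (α γ) = a γ) ∧ (∀ γ ∈ Dec k x W, α γ = b γ) ∧
            ∀ U : ValuationSubring Ω, IsPl k U → x ∈ U → Tame p a (Dec k x U) →
              ∀ γ ∈ Dec k x U, a γ = 1 → α γ = 1

/-- A cover of the multiplicative group, totally ramified at zero and tame at infinity. -/
def StmtKG : Prop := ∀ (p : ℕ) [Fact p.Prime] (k Ω : Type) [Field k] [IsAlgClosed k]
  [CharP k p] [Field Ω] [IsAlgClosed Ω] [Algebra k Ω] (x q : Ω) (M : ℕ) (ω : k), Co k x →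
    ¬ p ∣ M → IsPrimitiveRoot ω M → q ^ M = x → ∀ (G : Type) [Group G] [Finite G]
      (H P : Subgroup G) (c : G), P ≤ H → IsPGroup p P → (∀ g ∈ H, ∀ a ∈ P, g * a * g⁻¹ ∈ P) →
        c ∈ H → (∀ g ∈ H, ∃ i : ℕ, g * (c ^ i)⁻¹ ∈ P) → c ^ M ∈ P →
        ∃ (β : Aut k Ω → G) (V₀ V : ValuationSubring Ω) (d : G), IsRep (Gam k x) β ∧ UnrG x β ∧
          IsPl k V₀ ∧ V₀.valuation x < 1 ∧ β '' (Dec k x V₀ : Set (Aut k Ω)) = (H : Set G) ∧
          LamQ β (Dec k x V₀) q (algebraMap k Ω ω) c P ∧ IsPl k V ∧ x ∉ V ∧ d ^ M = 1 ∧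
          Lam β (Dec k x V) q (algebraMap k Ω ω) d

/-! ### Group theory -/

/-- The trichotomy of Raynaud. -/
def StmtGp1 : Prop := ∀ (p : ℕ) [Fact p.Prime] (G : Type) [Group G] [Finite G], pPart p G = ⊤ →
  (∀ N : Subgroup G, N.Normal → IsPGroup p N → N = ⊥) → (⊤ : Subgroup G) ≠ ⊥ → ∀ S : Sylow p G,
    (∀ D : Subgroup G, (∀ Y : Subgroup G, Y ≠ ⊤ → pPart p Y = ⊤ →
      ¬ p ∣ (S : Subgroup G).relIndex Y → Y ≤ D) → D = ⊤) ∨
    ∃ c : G, ¬ p ∣ orderOf c ∧ ∀ D : Subgroup G, c ∈ D → p ∣ Nat.card D → D = ⊤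

/-- A coset is connected by conjugation and solvable pairs. -/
def StmtGp2 : Prop := ∀ (G : Type) [Group G] [Finite G] (K : Subgroup G), K.Normal →
  ∀ (a : G) (Pr : G → Prop), (∀ y, Pr y → ∀ v ∈ K, Pr (v * y * v⁻¹)) →
    (∀ y z, y * a⁻¹ ∈ K → z * a⁻¹ ∈ K → Group.IsSolvable (Subgroup.closure {y, z}) →
      Pr y → Pr z) → Pr a → ∀ y, y * a⁻¹ ∈ K → Pr y

/-- Supplements, the Frattini argument, generators. -/
structure StmtGp3 : Prop where
  supp : ∀ (G G' : Type) [Group G] [Finite G] [Group G'] (φ : G →* G'), Function.Surjective φ →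
    ∃ D : Subgroup G, Function.Surjective (φ.comp D.subtype) ∧
      Group.IsSolvable (φ.comp D.subtype).ker
  frat : ∀ (p : ℕ) [Fact p.Prime] (G : Type) [Group G] [Finite G] (S : Sylow p G),
    (S : Subgroup G) ≤ pPart p G ∧ ¬ p ∣ Nat.card (G ⧸ pPart p G) ∧ pPart p (pPart p G) = ⊤ ∧
    (∀ g : G, ∃ n ∈ Subgroup.normalizer ((S : Subgroup G) : Set G), n * g⁻¹ ∈ pPart p G) ∧
    ∀ I : Subgroup G, IsPGroup p I → ∃ g : G, ∀ a ∈ I, g * a * g⁻¹ ∈ (S : Subgroup G)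
  norm : ∀ (p : ℕ) [Fact p.Prime] (G : Type) [Group G] [Finite G] (Q : Subgroup G), IsPGroup p Q →
    (¬ p ∣ Nat.card (Subgroup.normalizer (Q : Set G) ⧸
        Q.subgroupOf (Subgroup.normalizer (Q : Set G))) ↔ ∃ S : Sylow p G, (S : Subgroup G) = Q)
  gen : ∀ (p : ℕ) [Fact p.Prime] (G G' : Type) [Group G] [Finite G] [Group G'] (ψ : G →* G')
    (H P : Subgroup G) (M : ℕ), CycP p H P → ¬ p ∣ M → (∀ g : G, ∃ j : ℕ, g ^ (M * p ^ j) = 1) →
      (∀ g : G, ψ g ^ M = 1) → ∀ z : G', (∀ g', g' ∈ H.map ψ ↔ ∃ i : ℕ, g' = z ^ i) →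
        ∃ (P' : Subgroup G) (c : G), P' ≤ H ∧ IsPGroup p P' ∧
          (∀ g ∈ H, ∀ a ∈ P', g * a * g⁻¹ ∈ P') ∧ c ∈ H ∧ (∀ g ∈ H, ∃ i : ℕ, g * (c ^ i)⁻¹ ∈ P') ∧
          c ^ M ∈ P' ∧ ψ c = z

/-! ### Covers of the multiplicative group -/

/-- A cover of the multiplicative group with local image `I` at zero whose inertia group at
infinity lies in the group generated by `Q` and `c`. -/
def CH {k Ω : Type} [Field k] [Field Ω] [Algebra k Ω] {G : Type} [Group G] (p M : ℕ) (x q ω : Ω)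
    (V₀ : ValuationSubring Ω) (I : Set (G × Ω)) (β : Aut k Ω → G) (Q : Subgroup G) (c : G) : Prop :=
  IsRep (Gam k x) β ∧ UnrG x β ∧ Loc k⟮x⟯ V₀ q β I ∧ IsPGroup p Q ∧
    c ∈ Subgroup.normalizer (Q : Set G) ∧ c ^ M ∈ Q ∧
    ∃ V : ValuationSubring Ω, IsPl k V ∧ x ∉ V ∧ LamQ β (Dec k x V) q ω c Q

/-- Joining with a cover of the affine line. -/
def StmtJOIN : Prop := ∀ (p : ℕ) [Fact p.Prime] (k Ω : Type) [Field k] [IsAlgClosed k]
  [CharP k p] [Field Ω] [IsAlgClosed Ω] [Algebra k Ω] (x q : Ω) (M : ℕ) (ω : k), Co k x →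
    ¬ p ∣ M → IsPrimitiveRoot ω M → q ^ M = x → ∀ (G : Type) [Group G] [Finite G]
      (V₀ : ValuationSubring Ω) (I : Set (G × Ω)) (β β' : Aut k Ω → G) (Q : Subgroup G) (c : G),
        IsPl k V₀ → V₀.valuation x < 1 → CH p M x q (algebraMap k Ω ω) V₀ I β Q c →
        IsRep (Gam k x) β' → Unr x β' →
        (∃ V : ValuationSubring Ω, IsPl k V ∧ x ∉ V ∧ ∀ γ ∈ Dec k x V, β' γ ∈ Q) →
          ∃ ρ : Aut k Ω → G, CH p M x q (algebraMap k Ω ω) V₀ I ρ Q c ∧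
            (∃ v ∈ Q, ∀ γ ∈ Gam k x, ∃ γ' ∈ Gam k x, ρ γ' = v * β γ * v⁻¹) ∧
            ∃ v ∈ Q, ∀ γ ∈ Gam k x, ∃ γ' ∈ Gam k x, ρ γ' = v * β' γ * v⁻¹

/-- Every quasi-`p` group occurs over the affine line. -/
def StmtRAY : Prop := ∀ (p : ℕ) [Fact p.Prime] (k Ω : Type) [Field k] [IsAlgClosed k]
  [CharP k p] [Field Ω] [IsAlgClosed Ω] [Algebra k Ω] (x : Ω), Co k x →
    ∀ (G : Type) [Group G] [Finite G], pPart p G = ⊤ →
      ∃ I : Subgroup G, IsPGroup p I ∧ RealAt k x G I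

/-- Enlarging the wild part at infinity to a Sylow subgroup. -/
def StmtCHAIN : Prop := ∀ (p : ℕ) [Fact p.Prime] (k Ω : Type) [Field k] [IsAlgClosed k]
  [CharP k p] [Field Ω] [IsAlgClosed Ω] [Algebra k Ω] (x q : Ω) (M : ℕ) (ω : k), Co k x →
    ¬ p ∣ M → IsPrimitiveRoot ω M → q ^ M = x → ∀ (G : Type) [Group G] [Finite G],
      (∀ g : G, ∃ j : ℕ, g ^ (M * p ^ j) = 1) → ∀ (V₀ : ValuationSubring Ω) (I : Set (G × Ω))
        (β : Aut k Ω → G) (Q : Subgroup G) (c : G), IsPl k V₀ → V₀.valuation x < 1 →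
          CH p M x q (algebraMap k Ω ω) V₀ I β Q c → ∃ (β' : Aut k Ω → G) (S : Sylow p G) (c' : G),
            CH p M x q (algebraMap k Ω ω) V₀ I β' (S : Subgroup G) c'

/-- The inner cover. -/
def StmtINNER : Prop := ∀ (p : ℕ) [Fact p.Prime] (k Ω : Type) [Field k] [IsAlgClosed k]
  [CharP k p] [Field Ω] [IsAlgClosed Ω] [Algebra k Ω] (x q : Ω) (M : ℕ) (ω : k), Co k x →
    ¬ p ∣ M → IsPrimitiveRoot ω M → q ^ M = x → ∀ (G : Type) [Group G] [Finite G],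
      (∀ g : G, ∃ j : ℕ, g ^ (M * p ^ j) = 1) → ∀ (H P : Subgroup G) (c : G), P ≤ H →
        IsPGroup p P → (∀ g ∈ H, ∀ a ∈ P, g * a * g⁻¹ ∈ P) → c ∈ H →
        (∀ g ∈ H, ∃ i : ℕ, g * (c ^ i)⁻¹ ∈ P) → c ^ M ∈ P →
        ∃ (β : Aut k Ω → G) (V₀ : ValuationSubring Ω) (I : Set (G × Ω)) (S : Sylow p G) (d g : G),
          IsPl k V₀ ∧ V₀.valuation x < 1 ∧
          CH p M x q (algebraMap k Ω ω) V₀ I β (S : Subgroup G) d ∧
          (∀ h : G, h ∈ H ↔ ∃ ζ : Ω, (h, ζ) ∈ I) ∧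
          (∀ n ∈ pPart p G, ∃ γ ∈ Gam k x, β γ = n) ∧ g * c * g⁻¹ * d⁻¹ ∈ pPart p G

/-- The outer cover. -/
def StmtWS : Prop := ∀ (p : ℕ) [Fact p.Prime] (k Ω : Type) [Field k] [IsAlgClosed k]
  [CharP k p] [Field Ω] [IsAlgClosed Ω] [Algebra k Ω] (F : IntermediateField k Ω) (π q : Ω)
  (M : ℕ) (ω : k), FS F π → ¬ p ∣ M → IsPrimitiveRoot ω M → q ^ M = π →
    ∀ W W₁ : ValuationSubring Ω, IsPl k W → IsUnif F W π → IsPl k W₁ → ¬ Agr F W W₁ →
      (∀ U, IsPl k U → π ∉ U → Agr F U W₁) →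
      ∀ (G G' : Type) [Group G] [Finite G] [Group G'] (φ : G →* G'), Function.Surjective φ →
        (∀ g : G, g ^ M = 1) → ∀ a : Aut k Ω → G', IsRep F.fixingSubgroup a →
          (∀ g, ∃ γ ∈ F.fixingSubgroup, a γ = g) → ∀ y : G,
            Lam a (DecF F W) q (algebraMap k Ω ω) (φ y) →
              ∃ α : Aut k Ω → G, IsRep F.fixingSubgroup α ∧
                (∀ γ ∈ F.fixingSubgroup, φ (α γ) = a γ) ∧
                (∃ W' : ValuationSubring Ω, IsPl k W' ∧ Agr F W' W ∧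
                  Lam α (DecF F W') q (algebraMap k Ω ω) y) ∧
                ∀ U : ValuationSubring Ω, IsPl k U → ¬ Agr F W U → ¬ Agr F W₁ U →
                  Triv a (DecF F U) → Triv α (DecF F U)

/-- The main theorem in the language of representations. -/
def StmtMAIN : Prop := ∀ (p : ℕ) [Fact p.Prime] (k Ω : Type) [Field k] [IsAlgClosed k]
  [CharP k p] [Field Ω] [IsAlgClosed Ω] [Algebra k Ω] (F : IntermediateField k Ω), FF F →
    ∀ (Z : ValuationSubring Ω → Prop) (W₀ W₁ : ValuationSubring Ω), IsPl k W₀ → IsPl k W₁ →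
      ¬ Agr F W₀ W₁ → (∀ U, IsPl k U → Agr F W₀ U → Z U) → (∀ U, IsPl k U → Agr F W₁ U → Z U) →
      ∀ (G : Type) [Group G] [Finite G] (H : Subgroup G), OccR F Z W₀ G H ↔
        (∃ P : Subgroup G, CycP p H P) ∧
          OccR F Z W₀ (G ⧸ pPart p G) (H.map (QuotientGroup.mk' (pPart p G)))

/-- The bridge between Galois extensions and representations. -/
def StmtBR : Prop := ∀ (p : ℕ) [Fact p.Prime] (k K : Type) [Field k] [IsAlgClosed k] [CharP k p]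
  [Field K] [Algebra k K] [Algebra.EssFiniteType k K], Algebra.trdeg k K = 1 →
    FF (Br2.Im k K (AlgebraicClosure K)) ∧
    (∀ ξ : ValuationSubring K, ξ ≠ ⊤ → (∀ c : k, algebraMap k K c ∈ ξ) →
      ∃ W : ValuationSubring (AlgebraicClosure K), IsPl k W ∧
        W.comap (algebraMap K (AlgebraicClosure K)) = ξ) ∧
    (∀ W W' : ValuationSubring (AlgebraicClosure K), Agr (Br2.Im k K (AlgebraicClosure K)) W W' ↔
      W.comap (algebraMap K (AlgebraicClosure K)) = W'.comap (algebraMap K (AlgebraicClosure K))) ∧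
    ∀ (S : Set (ValuationSubring K)) (W : ValuationSubring (AlgebraicClosure K)), IsPl k W →
      ∀ (G : Type) [Group G] [Finite G] (H : Subgroup G),
        OccursOn k S (W.comap (algebraMap K (AlgebraicClosure K))) G H ↔
          OccR (Br2.Im k K (AlgebraicClosure K))
            (fun U => U.comap (algebraMap K (AlgebraicClosure K)) ∈ S) W G H

theorem cyc_iff {p : ℕ} {G : Type} [Group G] [Finite G] {H : Subgroup G} :
    (∃ P : Subgroup G, CycP p H P) ↔ ∃ P : Subgroup G, P ≤ H ∧ IsPGroup p P ∧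
      ∃ _ : (P.subgroupOf H).Normal, IsCyclic (H ⧸ P.subgroupOf H) := by
  refine ⟨fun ⟨P, h1, h2, h3, c, hc, h4⟩ => ⟨P, h1, h2, ⟨fun a ha g => h3 g g.2 a ha⟩, ?_⟩,
    fun ⟨P, h1, h2, _, h3⟩ => ⟨P, cycP_of h1 h2 h3⟩⟩
  have : (P.subgroupOf H).Normal := ⟨fun a ha g => h3 g g.2 a ha⟩
  refine ⟨⟨QuotientGroup.mk ⟨c, hc⟩, fun z => ?_⟩⟩
  obtain ⟨g, rfl⟩ := QuotientGroup.mk_surjective z
  obtain ⟨i, hi⟩ := h4 g g.2
  refine ⟨i, ?_⟩
  have h5 : (QuotientGroup.mk (g * ((⟨c, hc⟩ : H) ^ i)⁻¹) : H ⧸ P.subgroupOf H) = 1 :=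
    (QuotientGroup.eq_one_iff _).2 (Subgroup.mem_subgroupOf.2 hi)
  rw [QuotientGroup.mk_mul, QuotientGroup.mk_inv, QuotientGroup.mk_pow, mul_inv_eq_one] at h5
  simpa using h5.symm

theorem final_of (hM : StmtMAIN) (hB : StmtBR) (p : ℕ) [Fact p.Prime] (k : Type) [Field k]
    [IsAlgClosed k] [CharP k p] (K : Type) [Field K] [Algebra k K] [Algebra.EssFiniteType k K]
    (hK : Algebra.trdeg k K = 1) (S : Set (ValuationSubring K)) (ξ ξ' : ValuationSubring K)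
    (hξ : ξ ≠ ⊤) (hξ' : ξ' ≠ ⊤) (hk : ∀ c : k, algebraMap k K c ∈ ξ)
    (hk' : ∀ c : k, algebraMap k K c ∈ ξ') (hS : ξ ∈ S) (hS' : ξ' ∈ S) (hne : ξ ≠ ξ')
    (G : Type) [Group G] [Finite G] (H : Subgroup G) :
    OccursOn k S ξ G H ↔ (∃ P : Subgroup G, P ≤ H ∧ IsPGroup p P ∧
      ∃ _ : (P.subgroupOf H).Normal, IsCyclic (H ⧸ P.subgroupOf H)) ∧
      OccursOn k S ξ (G ⧸ pPart p G) (H.map (QuotientGroup.mk' (pPart p G))) := by
  obtain ⟨h1, h2, h3, h4⟩ := hB p k K hK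
  obtain ⟨W, hW, rfl⟩ := h2 ξ hξ hk
  obtain ⟨W', hW', rfl⟩ := h2 ξ' hξ' hk'
  rw [h4 S W hW, h4 S W hW, ← cyc_iff]
  exact hM p k _ _ h1 _ W W' hW hW' (fun h => hne ((h3 _ _).1 h))
    (fun U _ h => (h3 _ _).1 h ▸ hS) (fun U _ h => (h3 _ _).1 h ▸ hS') G H

end Pool.Agent.Lib.IW2
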