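import Pool.Agent.Lib.IW2.All1
import Pool.Agent.Lib.IW2.Blue4

/-! Prescribing the local behaviour at infinity without new finite ramification. -/

open Polynomial IntermediateField
open scoped Pointwise

namespace Pool.Agent.Lib.IW2

open Pool.Agent.Lib.IW

namespace ASMX

open ASM in
theorem step (p : ℕ) [Fact p.Prime] (k Ω : Type) [Field k] [IsAlgClosed k]
    [CharP k p] [Field Ω] [IsAlgClosed Ω] [Algebra k Ω] (x : Ω) (hx : Co k x)
    (E : Type) [Group E] [Finite E] (V : Subgroup E) [V.Normal]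
    (hc : ∀ a ∈ V, ∀ b ∈ V, a * b = b * a) (hp : ∀ a ∈ V, a ^ p = 1) (ρ₀ : Aut k Ω → E)
    (h0 : IsRep (Gam k x) ρ₀) (W : ValuationSubring Ω) (hW : IsPl k W) (hxW : x ∉ W)
    (ρi : Aut k Ω → E) (hi : IsRep (Dec k x W) ρi)
    (hV : ∀ γ ∈ Dec k x W, ρi γ * (ρ₀ γ)⁻¹ ∈ V) :
    ∃ ρ : Aut k Ω → E, IsRep (Gam k x) ρ ∧
      (∀ U : ValuationSubring Ω, IsPl k U → x ∈ U → ∀ γ ∈ Dec k x U, ρ₀ γ = 1 → ρ γ = 1) ∧
      (∀ γ ∈ Gam k x, ρ γ * (ρ₀ γ)⁻¹ ∈ V) ∧ ∀ γ ∈ Dec k x W, ρ γ = ρi γ := by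
  classical
  have hF : Found := found
  have : CharP Ω p := charP_of_injective_algebraMap (algebraMap k Ω).injective p
  obtain ⟨r, e, a, hl⟩ := blockLin p E V hc hp
  have hA := mat_pr (Ω := Ω) a
  obtain ⟨η, hη1, hη2⟩ := ex_eta hF hx hl (Dec_le x W) (h0.mono (Dec_le x W)) hi hV
  have hν : frob p r η - η ∈
      FixIn (mat Ω a) ρ₀ (Dec k x W) (SepF k x).toSubalgebra.toSubmodule := by
    refine ⟨fun γ hγ => ?_, fun l => (SepF k x).toSubalgebra.sub_mem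
      ((SepF k x).toSubalgebra.pow_mem (hη1 l) p) (hη1 l)⟩
    obtain ⟨u, -, hu⟩ := hη2 γ hγ
    have h1 := frob_emb (Ω := Ω) u
    rw [← hu, map_sub] at h1
    rw [map_sub, star_frob hA]
    linear_combination h1
  obtain ⟨ξ, hξ1, hξ2⟩ := solve (p := p) hF hx hA h0 hW hxW hν
  obtain ⟨y, hy⟩ : ∃ y, y = η - ξ := ⟨_, rfl⟩
  have hμ : frob p r y - y ∈ FixIn (mat Ω a) ρ₀ (Gam k x) (IntA k x).toSubmodule := by
    convert hξ2 using 1
    rw [hy, map_sub]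
    abel
  have hc : ∀ γ : Aut k Ω, γ ∈ Gam k x →
      ∃ u, emb Ω p r u = star (mat Ω a) (ρ₀ γ) γ y - y := fun γ hγ => by
    refine ex_emb ?_
    have h1 := hμ.1 γ hγ
    rw [map_sub, star_frob hA] at h1
    rw [map_sub]
    linear_combination h1
  choose! c hc using hc
  have he0 : e 0 = 1 := by
    have h1 := hl.add 0 0
    rw [add_zero] at h1
    exact mul_left_cancel (h1.symm.trans (mul_one _).symm)
  refine ⟨fun γ => e (c γ) * ρ₀ γ, ⟨fun γ hγ δ hδ => ?_, ?_⟩, fun W' hW' hx' γ hγ h1 => ?_,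
    fun γ _ => ?_, fun γ hγ => ?_⟩
  · have h1 : c (γ * δ) = c γ + (a (ρ₀ γ)).mulVec (c δ) := by
      apply emb_inj (Ω := Ω)
      rw [map_add, ← star_emb a _ γ, hc _ (mul_mem hγ hδ), hc γ hγ, hc δ hδ, h0.mul γ hγ δ hδ,
        ASM.star_mul hA, map_sub]
      abel
    rw [h1, hl.add, ← hl.conj, h0.mul γ hγ δ hδ]
    group
  · obtain ⟨S, hS⟩ := h0.cts
    refine ⟨S ∪ Finset.univ.image y, fun γ hγ δ hδ h => ?_⟩
    have h1 := hS γ hγ δ hδ fun s hs => h s (Finset.mem_union_left _ hs)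
    have h2 : c γ = c δ := by
      apply emb_inj (Ω := Ω)
      rw [hc γ hγ, hc δ hδ, h1]
      congr 1
      funext i
      rw [star_apply, star_apply]
      refine Finset.sum_congr rfl fun j _ => ?_
      rw [h _ (Finset.mem_union_right _ (Finset.mem_image_of_mem y (Finset.mem_univ j)))]
    beta_reduce
    rw [h1, h2]
  · have h2 : c γ = 0 := by
      apply emb_inj (Ω := Ω)
      rw [map_zero]
      funext l
      have h3 : y l ∈ W' := as_mem (p := p) (hμ.2 l W' hW' hx')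
      refine as_zero (p := p) (W := W') (congrFun (frob_emb (c γ)) l) ?_
      rw [hc γ (Dec_le _ _ hγ), h1, Pi.sub_apply, star_apply, map_one]
      simpa [Matrix.one_apply] using
        (hF.bas.move k Ω x hx W' hW' γ (mem_Dec.1 hγ).2).1 _ h3
    beta_reduce
    rw [h1, h2, he0, one_mul]
  · rw [mul_inv_cancel_right]
    exact (hl.range _).2 ⟨_, rfl⟩
  · obtain ⟨u, hu1, hu2⟩ := hη2 γ hγ
    have h1 : c γ = u := by
      apply emb_inj (Ω := Ω)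
      rw [hc γ (Dec_le _ _ hγ), ← hu2, hy, map_sub, hξ1 γ hγ]
      abel
    beta_reduce
    rw [h1, hu1, inv_mul_cancel_right]

theorem trx (hT : StmtTRX) (p : ℕ) [Fact p.Prime] (k Ω : Type) [Field k] [IsAlgClosed k]
    [CharP k p] [Field Ω] [IsAlgClosed Ω] [Algebra k Ω] (x : Ω) (hx : Co k x)
    (G : Type) [Group G] [Finite G] (ρ : Aut k Ω → G) (h : IsRep (Gam k x) ρ) :
    ∃ t : G → Ω, (∀ γ ∈ Gam k x, ∀ g, γ (t g) = t (ρ γ * g)) ∧
      ∑ᶠ g ∈ h.im, t g = 1 ∧ ∀ W : ValuationSubring Ω, IsPl k W → x ∈ W →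
        Tame p ρ (Dec k x W) → ∀ g, t g ∈ W := by
  have key : ∀ Δ : Subgroup (Aut k Ω), (k⟮x⟯).fixingSubgroup = Δ → ∀ h : IsRep Δ ρ,
      ∃ t : G → Ω, (∀ γ ∈ Δ, ∀ g, γ (t g) = t (ρ γ * g)) ∧
        ∑ᶠ g ∈ h.im, t g = 1 ∧ ∀ W : ValuationSubring Ω, IsPl k W → x ∈ W →
          Tame p ρ (DecF k⟮x⟯ W) → ∀ g, t g ∈ W := by
    intro Δ hΔ
    subst hΔ
    exact fun h => hT p k Ω k⟮x⟯ x (fs_self hx) G ρ h
  obtain ⟨t, u1, u2, u3⟩ := key _ (fix_adjoin x) h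
  refine ⟨t, u1, u2, fun W hW hxW hta => u3 W hW hxW ?_⟩
  rw [DecF_adjoin]
  exact hta

end ASMX

theorem blockASMX (hT : StmtTRX) (hP : StmtPIND) : StmtASMX := by
  intro p _ k Ω _ _ _ _ _ _ x hx B B' _ _ _ φ hφ hp a ha W hW hxW
  induction hn : Nat.card B using Nat.strong_induction_on generalizing B with
  | _ n ih =>
  intro b hb hab
  by_cases hk : φ.ker = ⊥
  · have inj := (MonoidHom.ker_eq_bot_iff φ).1 hk
    let e := MulEquiv.ofBijective φ ⟨inj, hφ⟩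
    have he : ∀ y, φ (e.symm y) = y := e.apply_symm_apply
    refine ⟨fun γ => e.symm (a γ), ha.comp e.symm.toMonoidHom, fun γ _ => he _,
      fun γ hγ => inj ?_, fun U _ _ _ γ _ h => ?_⟩
    · simp only [he, hab γ hγ]
    · simp only [h, map_one]
  obtain ⟨V, hN, hV, hle, hc, he⟩ := hP.pgrp p B φ.ker inferInstance hk hp
  let φ' : B ⧸ V →* B' := QuotientGroup.lift V φ hle
  have kr : φ'.ker = φ.ker.map (QuotientGroup.mk' V) := QuotientGroup.ker_lift V φ hle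
  have lt : Nat.card (B ⧸ V) < n := by
    rw [← hn, Subgroup.card_eq_card_quotient_mul_card_subgroup V]
    exact lt_mul_of_one_lt_right Nat.card_pos ((Subgroup.one_lt_card_iff_ne_bot V).2 hV)
  obtain ⟨α₁, r1, a1, c1, t1⟩ := ih _ lt (B ⧸ V) φ'
    (fun y => let ⟨g, hg⟩ := hφ y; ⟨g, hg⟩) (kr ▸ hp.map _) rfl
    (fun γ => QuotientGroup.mk' V (b γ)) (hb.comp _) hab
  obtain ⟨t, u1, u2, u3⟩ := ASMX.trx hT p k Ω x hx _ α₁ r1
  obtain ⟨α₀, r0, a0, t0⟩ := blockASW found blockLin p k Ω x hx (Gam k x)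
    le_rfl B (B ⧸ V) (QuotientGroup.mk' V) (QuotientGroup.mk'_surjective V)
    (by rw [QuotientGroup.ker_mk']; exact hc) (by rw [QuotientGroup.ker_mk']; exact he)
    α₁ r1 t u1 u2
  obtain ⟨α, r, t2, a2, c3⟩ := ASMX.step p k Ω x hx B V hc he α₀ r0 W hW hxW b hb
    fun γ hγ => by
      rw [← QuotientGroup.ker_mk' V, MonoidHom.mem_ker, map_mul, map_inv, a0 γ (Dec_le _ _ hγ),
        c1 γ hγ, mul_inv_cancel]
  refine ⟨α, r, fun γ hγ => ?_, c3, fun U hU hxU hta γ hγ h => ?_⟩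
  · have := hle (a2 γ hγ)
    rw [MonoidHom.mem_ker, map_mul, map_inv, mul_inv_eq_one] at this
    rw [this, ← a1 γ hγ, ← a0 γ hγ]
    rfl
  · refine t2 U hU hxU γ hγ (t0 U hU (u3 U hU hxU fun δ hδ => ?_) γ hγ.1 hγ.2
      (t1 U hU hxU hta γ hγ h))
    obtain ⟨m, m1, m2⟩ := hta δ hδ
    exact ⟨m, m1, by
      rw [← r1.pow hδ.1]
      exact t1 U hU hxU hta _ (pow_mem hδ m) (by rw [ha.pow hδ.1, m2])⟩

end Pool.Agent.Lib.IW2
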