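import Pool.Agent.Lib.IW2.ASO2

/-! A large Artin-Schreier branch point alone in a residue disc prevents good reduction. -/

open Polynomial IntermediateField
open scoped Pointwise

namespace Pool.Agent.Lib.IW2

open Pool.Agent.Lib.IW

namespace ASO

variable {𝕜 Ω' : Type} [Field 𝕜] [IsAlgClosed 𝕜] [Field Ω'] [IsAlgClosed Ω'] [Algebra 𝕜 Ω']
  {p : ℕ} [hp : Fact p.Prime] [CharP 𝕜 p] {u : Ω'} {O W : ValuationSubring Ω'}
  {G : Type} [Group G] [Fintype G] [DecidableEq G] {ρ : Aut 𝕜 Ω' → G}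

/-- At an unramified place of the disc the determinant is a unit. -/
lemma det_away (hu : Co 𝕜 u) {X : Matrix G G Ω'} (hA : ∀ i, Alg 𝕜⟮u⟯ ρ fun g => X g i)
    (hB : ∀ g i W', Dsc 𝕜 O u W' → Bd p u W' (X g i))
    (hL : ∀ (c : G → 𝕜) (e : 𝕜), O.valuation (algebraMap 𝕜 Ω' e) < 1 →
      (∀ g W', Dsc 𝕜 O u W' → Bd p u W' ((∑ i, algebraMap 𝕜 Ω' (c i) * X g i) /
        (u - algebraMap 𝕜 Ω' e))) → c = 0)
    (hW : IsPl 𝕜 W) {a : 𝕜} (haO : O.valuation (algebraMap 𝕜 Ω' a) < 1)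
    (ha : W.valuation (u - algebraMap 𝕜 Ω' a) < 1) (hu1 : W.valuation u = 1)
    (hT : Triv ρ (Dec 𝕜 u W)) : W.valuation X.det = 1 := by
  have : CharP Ω' p := charP_of_injective_algebraMap (algebraMap 𝕜 Ω').injective p
  have hX : ∀ g i, X g i ∈ W := fun g i => (hB g i W ⟨hW, a, haO, ha⟩).mem hu1
  choose r hr using fun g i => found.bas.resid 𝕜 Ω' u hu W hW (X g i) (hX g i)
  refine det_unit hW X (Matrix.of r) hr fun h0 => ?_
  obtain ⟨c, hc0, hc⟩ := Matrix.exists_mulVec_eq_zero_iff.2 h0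
  have hy := alg_comb hA c
  have hun := found.bas.unifAt 𝕜 Ω' u hu.tr a W hW ha
  refine hc0 (hL c a haO (transfer hu hy hW ha (fun g => ?_) fun g W' hW' =>
    Bd.sum fun i => (hB g i W' hW').mul (hW'.1.2 _)))
  refine bd_of_mem ((W.valuation_le_one_iff _).1 hu1.le) (div_mem ?_)
  have h1 : W.valuation (∑ i, algebraMap 𝕜 Ω' (c i) * X g i) < 1 := by
    have h2 : ∑ i, algebraMap 𝕜 Ω' (c i) * X g i =
        ∑ i, algebraMap 𝕜 Ω' (c i) * (X g i - algebraMap 𝕜 Ω' (r g i)) := by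
      have h3 := congrArg (algebraMap 𝕜 Ω') (congrFun hc g)
      simp only [Matrix.mulVec, dotProduct, Matrix.of_apply, map_sum, map_mul, Pi.zero_apply,
        map_zero] at h3
      simp only [mul_sub, Finset.sum_sub_distrib]
      rw [eq_comm, sub_eq_self, ← h3]
      exact Finset.sum_congr rfl fun i _ => mul_comm _ _
    rw [h2]
    exact W.valuation.map_sum_lt one_ne_zero fun i _ => mul_lt (hW.2 _) (hr g i)
  by_cases h0 : ∑ i, algebraMap 𝕜 Ω' (c i) * X g i = 0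
  · rw [h0, map_zero]
    exact zero_le
  obtain ⟨j, hj⟩ := found.hens.hens p 𝕜 Ω' 𝕜⟮u⟯ hu.ff W hW _ hun _ h0 (hy.1 g) fun γ hγ => by
    have h2 := hy.2 γ (DecF_le _ _ hγ) g
    rwa [hT γ (by rwa [DecF_adjoin] at hγ), one_mul] at h2
  have h2 : 0 < W.valuation (u - algebraMap 𝕜 Ω' a) :=
    zero_lt_iff.2 ((_root_.map_ne_zero W.valuation).2 hun.2.1)
  rw [hj] at h1 ⊢
  have h3 : 1 ≤ j := (zpow_lt_one_iff_right_of_lt_one₀ h2 ha).1 h1
  simpa using zpow_le_zpow_right_of_le_one₀ h2 ha.le h3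

omit [DecidableEq G] [CharP 𝕜 p] [IsAlgClosed 𝕜] in
/-- The trace of a function with small pole has a small value at the origin. -/
lemma trace_small (hu : Co 𝕜 u) (hW : IsPl 𝕜 W) (hWu : W.valuation u < 1) {f : G → Ω'}
    (hf : Alg 𝕜⟮u⟯ ρ f) {l : 𝕜} (hl : algebraMap 𝕜 Ω' l ∉ O) {T : Finset G} {e : G → 𝕜}
    (h1 : W.valuation (∑ g, f g + algebraMap 𝕜 Ω' (∑ g ∈ T, e g)) < 1)
    (h2 : ∀ g ∈ T, W.valuation (f g ^ p * u ^ (p - 1) -
      algebraMap 𝕜 Ω' (e g ^ p * l ^ (p - 1))) < 1)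
    (h3 : ∀ g, ∃ c : 𝕜, algebraMap 𝕜 Ω' c ∈ O ∧
      W.valuation (f g ^ p * u ^ (p - 1) - algebraMap 𝕜 Ω' c) < 1) :
    ∃ ε : 𝕜, O.valuation (algebraMap 𝕜 Ω' ε) < 1 ∧ ∀ W' : ValuationSubring Ω', IsPl 𝕜 W' →
      W'.valuation u < 1 → (∑ g, f g - algebraMap 𝕜 Ω' ε) / u ∈ W' := by
  refine ⟨-∑ g ∈ T, e g, ?_, fun W' hW' hW'u => ?_⟩
  · rw [map_neg, Valuation.map_neg, map_sum]
    refine O.valuation.map_sum_lt one_ne_zero fun g hg => ?_
    obtain ⟨c, hc, h4⟩ := h3 g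
    rw [c_eq hW h4 (h2 g hg), ← O.valuation_le_one_iff, map_mul, map_pow, map_pow, map_mul,
      map_pow, map_pow] at hc
    by_contra h5
    have h6 : 1 < O.valuation (algebraMap 𝕜 Ω' l) :=
      not_le.1 fun h => hl ((O.valuation_le_one_iff _).1 h)
    have h7 : p - 1 ≠ 0 := Nat.sub_ne_zero_of_lt hp.out.one_lt
    exact not_le.2 (one_lt_mul_of_le_of_lt (one_le_pow₀ (not_lt.1 h5)) (one_lt_pow₀ h6 h7)) hc
  · have h0 : W.valuation (u - algebraMap 𝕜 Ω' 0) < 1 := by simpa using hWu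
    have h0' : W'.valuation (u - algebraMap 𝕜 Ω' 0) < 1 := by simpa using hW'u
    have hun := found.bas.unifAt 𝕜 Ω' u hu.tr 0 W hW h0
    rw [map_zero, sub_zero] at hun
    have h4 : ∑ g, f g - algebraMap 𝕜 Ω' (-∑ g ∈ T, e g) ∈ 𝕜⟮u⟯ :=
      sub_mem (hf.tr_mem hu.alg) (IntermediateField.algebraMap_mem _ _)
    refine (found.bas.agrAt 𝕜 Ω' u hu.tr 0 W W' hW hW' h0 h0' _ (_root_.div_mem h4 hun.1)).1
      (div_mem (hun.2.2.2 _ h4 ?_))
    rwa [map_neg, sub_neg_eq_add]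

omit [IsAlgClosed 𝕜] [IsAlgClosed Ω'] in
/-- The final contradiction. -/
lemma final (hW : IsPl 𝕜 W) (hWu : W.valuation u < 1) {X X' : Matrix G G Ω'} (hXX : X * X' = 1)
    (hA : ∀ i, Alg 𝕜⟮u⟯ ρ fun g => X g i) (hO : ∀ g i, X g i ∈ O)
    (hB : ∀ g i W', Dsc 𝕜 O u W' → Bd p u W' (X g i)) (hu0 : u ≠ 0)
    (hM : ∀ f : G → Ω', Alg 𝕜⟮u⟯ ρ f → (∀ g, f g ∈ O) → (∀ g W', Dsc 𝕜 O u W' → f g ∈ W') →
      ∀ g, ∃ c : 𝕜, algebraMap 𝕜 Ω' c ∈ O ∧ W.valuation (f g - algebraMap 𝕜 Ω' c) < 1)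
    (ε : G → 𝕜) (hε : ∀ i, O.valuation (algebraMap 𝕜 Ω' (ε i)) < 1)
    (ht : ∀ i, ∀ W' : ValuationSubring Ω', IsPl 𝕜 W' → W'.valuation u < 1 →
      (∑ g, X' i g - algebraMap 𝕜 Ω' (ε i)) / u ∈ W') : False := by
  have : CharP Ω' p := charP_of_injective_algebraMap (algebraMap 𝕜 Ω').injective p
  have key : ∀ g, ∀ W' : ValuationSubring Ω', IsPl 𝕜 W' → W'.valuation u < 1 →
      W'.valuation (1 - ∑ i, algebraMap 𝕜 Ω' (ε i) * X g i) < 1 := fun g W' hW' hW'u => by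
    have h1 : ∑ i, X g i * ∑ h, X' i h = 1 := by
      have h2 : ∑ h, (X * X') g h = 1 := by
        rw [hXX]
        simp [Matrix.one_apply]
      rw [← h2]
      simp only [Matrix.mul_apply, Finset.mul_sum]
      exact Finset.sum_comm
    have h2 : 1 - ∑ i, algebraMap 𝕜 Ω' (ε i) * X g i =
        u * ∑ i, (∑ h, X' i h - algebraMap 𝕜 Ω' (ε i)) / u * X g i := by
      rw [← h1, ← Finset.sum_sub_distrib, Finset.mul_sum]
      refine Finset.sum_congr rfl fun i _ => ?_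
      field_simp
    rw [h2]
    exact (Bd.sum fun i => (hB g i W' (dsc_zero hW' hW'u)).mul (ht i W' hW' hW'u)).small hW'u
  obtain ⟨m, -, hm⟩ := Finset.exists_max_image Finset.univ
    (fun i => O.valuation (algebraMap 𝕜 Ω' (ε i))) ⟨1, Finset.mem_univ _⟩
  have hm0 : ε m ≠ 0 := fun h0 => by
    have h1 : ∀ i, algebraMap 𝕜 Ω' (ε i) = 0 := fun i => by
      have h2 := hm i (Finset.mem_univ _)
      rw [h0, map_zero, map_zero, le_zero_iff] at h2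
      exact (_root_.map_eq_zero O.valuation).1 h2
    have h2 := key 1 W hW hWu
    simp [h1] at h2
  have hη : ∀ g, ∑ i, algebraMap 𝕜 Ω' (ε i / ε m) * X g i - algebraMap 𝕜 Ω' (ε m)⁻¹ =
      algebraMap 𝕜 Ω' (-(ε m)⁻¹) * (1 - ∑ i, algebraMap 𝕜 Ω' (ε i) * X g i) := fun g => by
    simp only [div_eq_inv_mul, map_mul, mul_assoc, ← Finset.mul_sum, map_neg]
    ring
  have hlt : ∀ g, ∀ W' : ValuationSubring Ω', IsPl 𝕜 W' → W'.valuation u < 1 → W'.valuation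
      (∑ i, algebraMap 𝕜 Ω' (ε i / ε m) * X g i - algebraMap 𝕜 Ω' (ε m)⁻¹) < 1 :=
    fun g W' hW' hW'u => by
      rw [hη]
      exact mul_lt (hW'.2 _) (key g W' hW' hW'u)
  obtain ⟨c, hc, h1⟩ := hM _ (alg_comb hA fun i => ε i / ε m) (fun g => sum_mem fun i _ =>
    mul_mem (by rw [map_div₀]; exact div_mem (hm i (Finset.mem_univ _))) (hO g i))
    (fun g W' hW' => by
      by_cases h : W'.valuation u < 1
      · have h2 := add_mem (mem_of_lt (hlt g W' hW'.1 h)) (hW'.1.2 (ε m)⁻¹)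
        rwa [sub_add_cancel] at h2
      · exact sum_mem fun i _ => mul_mem (hW'.1.2 _) ((hB g i W' hW').mem (hW'.unit h))) 1
  rw [c_eq hW h1 (hlt 1 W hW hWu)] at hc
  have h2 := mul_lt hc (hε m)
  rw [← map_mul, inv_mul_cancel₀ hm0, map_one, map_one] at h2
  exact lt_irrefl _ h2

end ASO

open ASO in
theorem blockASO (SH2 : StmtSH2) (RX : StmtRX) (VAND : StmtVAND) (DISC : StmtDISC)
    (MAX : StmtMAX) (LAT : StmtLAT) (ASO1 : StmtASO1) : StmtASO := by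
  intro p hp k 𝕜 Ω Ω' _ _ _ _ _ _ _ _ _ _ _ _ _ _ ι O hR x hx hu G _ _ _ ρ hρ hT hZ hC
  have : CharP 𝕜 p := charP_of_injective_algebraMap (algebraMap k 𝕜).injective p
  obtain ⟨V, hV, hVx⟩ := found.bas.exAt k Ω x hx 0
  have hVu := found.bas.unifAt k Ω x hx.tr 0 V hV hVx
  rw [map_zero, sub_zero] at hVu
  have hE : Ext 𝕜 ι k⟮x⟯ = 𝕜⟮ι x⟯ := by
    rw [RX.ext1 k 𝕜 Ω Ω' ι {x}, Set.image_singleton]
  have hk : ∀ c : k, algebraMap k Ω' c ∈ O := fun c => by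
    rw [← ι.commutes]
    exact hR.mem _
  have hIn : ∀ W, In 𝕜 ι O k⟮x⟯ V W ↔ Dsc 𝕜 O (ι x) W := fun W => by
    rw [(DISC p k 𝕜 Ω Ω' ι O hk k⟮x⟯ x (fs_self hx) hu V hV hVu).1 0 X
      ⟨monic_X, by simp, by simp⟩ (eval₂_X _ _) (by simp) (le_antisymm
        (IntermediateField.adjoin.mono _ _ _ (by simp))
        (adjoin_le_iff.2 (Set.insert_subset (mem_adjoin_simple_self k x)
          (Set.singleton_subset_iff.2 (zero_mem _))))) W]
    exact and_congr_right fun _ => and_iff_left ⟨0, by simp, by simp⟩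
  obtain ⟨X, hA, hO, hd, hB, hL⟩ := LAT p k 𝕜 Ω Ω' ι O hR k⟮x⟯ x (fs_self hx) hu V hV hVu G ρ
    (by rwa [hE]) p (p - 1) hp.out.pos
  obtain ⟨-, M2, -, -, M5⟩ := MAX p k 𝕜 Ω Ω' ι O hR k⟮x⟯ x (fs_self hx) hu V hV hVu
  simp only [hIn, hE] at hA hB hL M2 M5
  obtain ⟨W, hW, hWu⟩ := found.bas.exAt 𝕜 Ω' (ι x) hu 0
  rw [map_zero, sub_zero] at hWu
  have hM : ∀ f : G → Ω', Alg 𝕜⟮ι x⟯ ρ f → (∀ g, f g ∈ O) →
      (∀ g W', Dsc 𝕜 O (ι x) W' → f g ∈ W') → ∀ g, ∃ c : 𝕜, algebraMap 𝕜 Ω' c ∈ O ∧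
        W.valuation (f g - algebraMap 𝕜 Ω' c) < 1 := fun f hf h1 h2 g => by
    obtain ⟨U, hU1, hU2⟩ := SH2.cmpPl 𝕜 Ω' (ι x) hu W O hW
    exact (hU1 _).1 (M2 G ρ f hf (fun g => mem_Reg.2 ⟨h1 g, fun W' h => h2 g W' ((hIn W').1 h)⟩) U
      (M5 W U (dsc_zero hW hWu) hU1 hU2) g)
  have hd0 : X.det ≠ 0 := fun h => by simp [h] at hd
  obtain ⟨hA', hinv⟩ := VAND.invm 𝕜 Ω' 𝕜⟮ι x⟯ G ρ X hA hd0
  have : CharP Ω' p := charP_of_injective_algebraMap (algebraMap 𝕜 Ω').injective p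
  have hB' : ∀ i g W', Dsc 𝕜 O (ι x) W' → Bd p (ι x) W' (X⁻¹ i g) := fun i g W' hW' => by
    by_cases h : W'.valuation (ι x) < 1
    · obtain ⟨z, l, c, h1, h2, h3, h4, h5⟩ := hZ W' hW'.1 h
      have hl : l ≠ 0 := by
        rintro rfl
        exact h1 (by simp)
      refine (ASO1 p 𝕜 Ω' (ι x) hu W' hW'.1 h z l hl h2 h3 G ρ c hρ h4 h5).1 X hA hd0
        (fun g i => hB g i W' hW') (fun e he => hL e 0 (by simp) ?_) i g
      exact transfer hu (alg_comb hA e) hW'.1 (a := 0) (by simpa using h)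
        (fun g => by rw [map_zero, sub_zero]; exact he g) fun g W'' hW'' =>
          Bd.sum fun i => Bd.mul (hB g i W'' hW'') (hW''.1.2 _)
    · have h1 := hW'.unit h
      obtain ⟨h2, a, h3, h4⟩ := id hW'
      have ha : a ≠ 0 := by
        rintro rfl
        exact h (by simpa using h4)
      exact bd_of_mem ((W'.valuation_le_one_iff _).1 h1.le) (hinv W'
        (fun g i => Bd.mem (hB g i W' hW') h1)
        (det_away hu hA hB hL h2 h3 h4 h1 (hT W' a h2 ha h3 h4)) i g)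
  obtain ⟨z, l, c, h1, h2, h3, h4, h5⟩ := hZ W hW hWu
  have hl : l ≠ 0 := by
    rintro rfl
    exact h1 (by simp)
  have hε : ∀ i, ∃ ε : 𝕜, O.valuation (algebraMap 𝕜 Ω' ε) < 1 ∧ ∀ W' : ValuationSubring Ω',
      IsPl 𝕜 W' → W'.valuation (ι x) < 1 →
        (∑ g, X⁻¹ i g - algebraMap 𝕜 Ω' ε) / ι x ∈ W' := fun i => by
    obtain ⟨T, e, h6, h7⟩ := (ASO1 p 𝕜 Ω' (ι x) hu W hW hWu z l hl h2 h3 G ρ c hρ h4 h5).2
      (X⁻¹ i) (hA' i) fun g => hB' i g W (dsc_zero hW hWu)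
    exact trace_small hu hW hWu (hA' i) h1 h6 h7 (hM _ (((hA' i).pow p).mul
      (Alg.const (pow_mem (mem_adjoin_simple_self 𝕜 (ι x)) (p - 1))))
      (fun g => mul_mem (pow_mem (hinv O hO hd i g) p) (pow_mem (hR.mem x) _)) (hB' i))
  choose ε hε ht using hε
  exact final hW hWu (Matrix.mul_nonsing_inv X (Ne.isUnit hd0)) hA hO hB hu.ne_zero hM ε hε ht

end Pool.Agent.Lib.IW2
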