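import Pool.Agent.Lib.IW2.ASO1a

/-! Local expansion at an Artin-Schreier branch point. -/

open Polynomial IntermediateField Finset
open scoped Pointwise

namespace Pool.Agent.Lib.IW2

open Pool.Agent.Lib.IW

namespace ASO1

variable (p : ℕ) [hp : Fact p.Prime] (𝕜 : Type) {Ω : Type} [Field 𝕜] [IsAlgClosed 𝕜] [CharP 𝕜 p]
  [Field Ω] [IsAlgClosed Ω] [CharP Ω p] [Algebra 𝕜 Ω] {G : Type} [Group G]

/-- the local situation -/
structure Ctx (u z : Ω) (W : ValuationSubring Ω) (ρ : Aut 𝕜 Ω → G) (c : G) : Prop where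
  co : Co 𝕜 u
  pl : IsPl 𝕜 W
  lt : W.valuation u < 1
  big : 1 < W.valuation z
  vu : W.valuation z ^ p * W.valuation u = 1
  sep : IsSeparable 𝕜⟮u⟯ z
  cp : c ^ p = 1
  mv : ∀ γ ∈ Dec 𝕜 u W, ∃ i : ZMod p, γ z = z + κ p Ω i ∧ ρ γ = c ^ i.val

/-- separable elements fixed by the decomposition group -/
def Fx (u : Ω) (W : ValuationSubring Ω) (b : Ω) : Prop :=
  IsSeparable 𝕜⟮u⟯ b ∧ ∀ γ ∈ Dec 𝕜 u W, γ b = b

variable {p 𝕜}

/-- local equivariant functions -/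
def Lc (u : Ω) (W : ValuationSubring Ω) (ρ : Aut 𝕜 Ω → G) (f : G → Ω) : Prop :=
  (∀ g, IsSeparable 𝕜⟮u⟯ (f g)) ∧ ∀ γ ∈ Dec 𝕜 u W, ∀ g, γ (f g) = f (ρ γ * g)

variable {u z : Ω} {W : ValuationSubring Ω} {ρ : Aut 𝕜 Ω → G} {c : G}

omit [IsAlgClosed 𝕜] [IsAlgClosed Ω] in
lemma dec_fix {γ : Aut 𝕜 Ω} (hγ : γ ∈ Dec 𝕜 u W) : γ ∈ (𝕜⟮u⟯).fixingSubgroup := by
  rw [fix_adjoin]; exact Dec_le u W hγ

omit [IsAlgClosed 𝕜] [IsAlgClosed Ω] in
lemma val_const (h : IsPl 𝕜 W) {l : 𝕜} (hl : l ≠ 0) : W.valuation (algebraMap 𝕜 Ω l) = 1 := by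
  have h1 := (W.valuation_le_one_iff _).2 (h.2 l)
  have h2 := (W.valuation_le_one_iff _).2 (h.2 l⁻¹)
  rw [map_inv₀, map_inv₀, inv_le_one₀ (zero_lt_iff.2 (by simpa using hl))] at h2
  exact h1.antisymm h2

omit [IsAlgClosed 𝕜] [IsAlgClosed Ω] [CharP 𝕜 p] in
lemma ctx (hu : Co 𝕜 u) (hW : IsPl 𝕜 W) (h1 : W.valuation u < 1) {l : 𝕜} (hl : l ≠ 0)
    (hz : z ^ p - z ∈ 𝕜⟮u⟯) (h2 : W.valuation ((z ^ p - z) * u - algebraMap 𝕜 Ω l) < 1)
    (hρ : IsRep (Gam 𝕜 u) ρ) (hc : ASLam ρ (Dec 𝕜 u W) z c) :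
    Ctx p 𝕜 u z W ρ c ∧ W.valuation (z ^ p * u - algebraMap 𝕜 Ω l) < 1 := by
  have p1 := hp.out.one_lt
  have e1 : W.valuation (z ^ p - z) * W.valuation u = 1 := by
    rw [← map_mul, ← val_const hW hl]
    exact Valuation.map_eq_of_sub_lt _ (by rwa [val_const hW hl])
  have big : 1 < W.valuation z := lt_of_not_ge fun h => by
    have : W.valuation (z ^ p - z) ≤ 1 :=
      Valuation.map_sub_le _ (by rw [map_pow]; exact pow_le_one₀ zero_le h) h
    exact (mul_lt_one_of_nonneg_of_lt_one_right this zero_le h1).ne e1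
  have lt : W.valuation z < W.valuation (z ^ p) := by
    rw [map_pow]; exact lt_self_pow₀ big p1
  have vu : W.valuation z ^ p * W.valuation u = 1 := by
    rwa [Valuation.map_sub_eq_of_lt_left _ lt, map_pow] at e1
  have cp : c ^ p = 1 := (hc 1 (one_mem _) p (by simp)).symm.trans hρ.one
  refine ⟨⟨hu, hW, h1, big, vu, ?_, cp, fun γ hγ => ?_⟩, ?_⟩
  · refine Separable.of_dvd (f := X ^ p - X - C (⟨_, hz⟩ : 𝕜⟮u⟯)) ?_ (minpoly.dvd _ _ (by simp))
    have : CharP 𝕜⟮u⟯ p := (algebraMap 𝕜⟮u⟯ Ω).charP (algebraMap 𝕜⟮u⟯ Ω).injective p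
    refine (separable_def' _).2 ⟨0, -1, ?_⟩
    simp [derivative_X_pow]
  · have := fix_apply (dec_fix hγ) hz
    obtain ⟨i, hi⟩ := ASM.mem_cast (p := p) (z := γ z - z) (by
      rw [sub_pow_char, ← map_pow]
      rw [map_sub] at this
      linear_combination this)
    have e : γ z = z + κ p Ω i := by rw [hi]; ring
    refine ⟨i, e, hc γ hγ _ ?_⟩
    rw [e, ← map_natCast (κ p Ω), ZMod.natCast_zmod_val]
  · rw [show z ^ p * u - algebraMap 𝕜 Ω l = (z ^ p - z) * u - algebraMap 𝕜 Ω l + z * u by ring]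
    refine Valuation.map_add_lt _ h2 ?_
    rw [map_mul, ← vu, ← map_pow]
    exact mul_lt_mul_of_pos_right lt (zero_lt_iff.2 (by simpa using hu.ne_zero))

omit [IsAlgClosed 𝕜] [IsAlgClosed Ω] in
lemma Lc.of_alg {f : G → Ω} (h : Alg 𝕜⟮u⟯ ρ f) : Lc u W ρ f :=
  ⟨h.1, fun γ hγ => h.2 γ (dec_fix hγ)⟩

omit [IsAlgClosed 𝕜] [IsAlgClosed Ω] in
lemma Fx.sub {a b : Ω} (h : Fx 𝕜 u W a) (h' : Fx 𝕜 u W b) : Fx 𝕜 u W (a - b) :=
  ⟨(separableClosure 𝕜⟮u⟯ Ω).sub_mem h.1 h'.1, fun γ hγ => by rw [map_sub, h.2 γ hγ, h'.2 γ hγ]⟩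

omit [IsAlgClosed 𝕜] [IsAlgClosed Ω] in
lemma Fx.mul {a b : Ω} (h : Fx 𝕜 u W a) (h' : Fx 𝕜 u W b) : Fx 𝕜 u W (a * b) :=
  ⟨(separableClosure 𝕜⟮u⟯ Ω).mul_mem h.1 h'.1, fun γ hγ => by rw [map_mul, h.2 γ hγ, h'.2 γ hγ]⟩

omit [IsAlgClosed 𝕜] [IsAlgClosed Ω] in
lemma fx_mem {a : Ω} (h : a ∈ 𝕜⟮u⟯) : Fx 𝕜 u W a :=
  ⟨sep_mem h, fun _ hγ => fix_apply (dec_fix hγ) h⟩

omit [IsAlgClosed 𝕜] [IsAlgClosed Ω] in
lemma fx_sum [Fintype G] {y f : G → Ω} (hy : Lc u W ρ y) (hf : Lc u W ρ f) :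
    Fx 𝕜 u W (∑ g, y g * f g) :=
  ⟨(separableClosure 𝕜⟮u⟯ Ω).sum_mem fun g _ =>
    (separableClosure 𝕜⟮u⟯ Ω).mul_mem (hy.1 g) (hf.1 g), fun γ hγ => by
    rw [map_sum, ← Equiv.sum_comp (Equiv.mulLeft (ρ γ)) fun g => y g * f g]
    exact sum_congr rfl fun g _ => by rw [map_mul, hy.2 γ hγ, hf.2 γ hγ]; rfl⟩

variable (p) in
/-- the test functions -/
noncomputable def tst [DecidableEq G] (z : Ω) (c g₀ : G) (m : ℕ) (g : G) : Ω :=
  ∑ j : ZMod p, if g = c ^ j.val * g₀ then (z + κ p Ω j) ^ m else 0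

variable (p) in
/-- the moments of a function along a coset -/
noncomputable def mom (z : Ω) (c g₀ : G) (y : G → Ω) (m : ℕ) : Ω :=
  ∑ j : ZMod p, y (c ^ j.val * g₀) * (z + κ p Ω j) ^ m

omit [IsAlgClosed Ω] in
lemma sum_tst [Fintype G] [DecidableEq G] (g₀ : G) (y : G → Ω) (m : ℕ) :
    ∑ g, y g * tst p z c g₀ m g = mom p z c g₀ y m := by
  simp only [tst, mom, mul_sum, mul_ite, mul_zero]
  rw [sum_comm]
  simp

omit [IsAlgClosed Ω] in
lemma eq_mom (g₀ : G) (y : G → Ω) :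
    y g₀ = mom p z c g₀ y 0 - ∑ l ∈ range p, z ^ l * mom p z c g₀ y (p - 1 - l) := by
  simpa [mom] using expand p z fun j => y (c ^ j.val * g₀)

namespace Ctx

variable (H : Ctx p 𝕜 u z W ρ c)
include H

omit [IsAlgClosed 𝕜] [IsAlgClosed Ω] [CharP 𝕜 p] in
lemma pos : 0 < W.valuation z := zero_lt_one.trans H.big

lemma hv {b : Ω} (h : Fx 𝕜 u W b) (hb : b ≠ 0) :
    ∃ n : ℤ, W.valuation b = W.valuation z ^ (p * n : ℤ) := by
  have := found.bas.unifAt 𝕜 Ω u H.co.tr 0 W H.pl (by simpa using H.lt)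
  rw [map_zero, sub_zero] at this
  obtain ⟨i, hi⟩ := found.hens.hens p 𝕜 Ω _ H.co.ff W H.pl u this b hb h.1
    (by rw [DecF_adjoin]; exact h.2)
  exact ⟨-i, by rw [hi, eq_inv_of_mul_eq_one_right H.vu, zpow_mul, zpow_natCast, inv_zpow']⟩

lemma small {b : Ω} (h : Fx 𝕜 u W b) (hb : W.valuation b < 1) : b / u ∈ W := by
  by_cases h0 : b = 0
  · simp [h0]
  obtain ⟨n, e⟩ := H.hv h h0
  rw [e, zpow_lt_one_iff_right₀ H.big] at hb
  have p0 : (0 : ℤ) < p := by exact_mod_cast hp.out.pos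
  have : n < 0 := by nlinarith
  rw [← W.valuation_le_one_iff, map_div₀, e, eq_inv_of_mul_eq_one_right H.vu, div_inv_eq_mul,
    ← zpow_natCast, ← zpow_add₀ H.pos.ne', zpow_le_one_iff_right₀ H.big]
  nlinarith

omit [IsAlgClosed 𝕜] [IsAlgClosed Ω] [CharP 𝕜 p] in
lemma lam (f : Ω) : f ^ p * u ^ (p - 1) ∈ W ↔ W.valuation f ≤ W.valuation z ^ (p - 1) := by
  rw [← W.valuation_le_one_iff, map_mul, map_pow, map_pow, eq_inv_of_mul_eq_one_right H.vu,
    inv_pow, mul_inv_le_iff₀ (pow_pos (pow_pos H.pos _) _), one_mul, pow_right_comm,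
    pow_le_pow_iff_left₀ zero_le zero_le hp.out.ne_zero]

omit [IsAlgClosed 𝕜] [IsAlgClosed Ω] [CharP 𝕜 p] in
lemma shift (j : ZMod p) {m : ℕ} (hm : m ≤ p - 1) :
    W.valuation ((z + κ p Ω j) ^ m) ≤ W.valuation z ^ (p - 1) := by
  obtain ⟨n, e⟩ := ASM.cast_nat (Ω := Ω) j
  rw [map_pow]
  refine (pow_le_pow_left₀ zero_le (Valuation.map_add_le _ le_rfl ?_) m).trans
    (pow_le_pow_right₀ H.big.le hm)
  exact ((W.valuation_le_one_iff _).2 (e ▸ natCast_mem W n)).trans H.big.le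

omit [IsAlgClosed 𝕜] [IsAlgClosed Ω] [CharP 𝕜 p] in
lemma lc_tst [DecidableEq G] (g₀ : G) (m : ℕ) : Lc u W ρ (tst p z c g₀ m) := by
  refine ⟨fun g => (separableClosure 𝕜⟮u⟯ Ω).sum_mem fun j _ => ?_, fun γ hγ g => ?_⟩
  · obtain ⟨n, e⟩ := ASM.cast_nat (Ω := Ω) j
    split_ifs
    · exact pow_mem (add_mem H.sep (e ▸ _root_.natCast_mem _ n)) m
    · exact zero_mem _
  · obtain ⟨i, h1, h2⟩ := H.mv γ hγ
    rw [tst, tst, map_sum]
    refine Fintype.sum_equiv (Equiv.addLeft i) _ _ fun j => ?_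
    obtain ⟨n, e⟩ := ASM.cast_nat (Ω := Ω) j
    simp only [Equiv.coe_addLeft, h2, pow_val_add H.cp, mul_assoc, mul_right_inj, map_add]
    split_ifs
    · rw [map_pow, map_add, h1, e, map_natCast, add_assoc]
    · exact map_zero _

omit [IsAlgClosed 𝕜] [IsAlgClosed Ω] [CharP 𝕜 p] in
lemma tst_le [DecidableEq G] (g₀ : G) {m : ℕ} (hm : m ≤ p - 1) (g : G) :
    W.valuation (tst p z c g₀ m g) ≤ W.valuation z ^ (p - 1) :=
  Valuation.map_sum_le _ fun j _ => by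
    split_ifs
    · exact H.shift j hm
    · simp

omit [IsAlgClosed 𝕜] [IsAlgClosed Ω] [CharP 𝕜 p] in
lemma fx_mom [Fintype G] {y : G → Ω} (hy : Lc u W ρ y) (g₀ : G) (m : ℕ) :
    Fx 𝕜 u W (mom p z c g₀ y m) := by
  classical
  exact sum_tst (p := p) g₀ y m ▸ fx_sum hy (H.lc_tst g₀ m)

lemma part1 [Fintype G] [DecidableEq G] (X : Matrix G G Ω) (hX : ∀ i, Alg 𝕜⟮u⟯ ρ fun g => X g i)
    (hd : X.det ≠ 0) (hΛ : ∀ g i, W.valuation (X g i) ≤ W.valuation z ^ (p - 1))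
    (hm : ∀ e : G → 𝕜, (∀ g, W.valuation ((∑ i, algebraMap 𝕜 Ω (e i) * X g i) / u) ≤
      W.valuation z ^ (p - 1)) → e = 0) (i g : G) :
    W.valuation (X⁻¹ i g) ≤ W.valuation z ^ (p - 1) := by
  have u0 := H.co.ne_zero
  have hy : ∀ i, Lc u W ρ (X⁻¹ i) := fun i =>
    ⟨inv_mem_sub (separableClosure 𝕜⟮u⟯ Ω).toSubfield (fun g j => (hX j).1 g) hd i, fun γ hγ =>
      inv_map (γ : Ω →+* Ω) (Equiv.mulLeft (ρ γ)) (fun g j => (hX j).2 γ (dec_fix hγ) g) hd i⟩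
  have A : ∀ f : G → Ω, Lc u W ρ f → (∀ g, W.valuation (f g) ≤ W.valuation z ^ (p - 1)) →
      ∀ i, ∑ g, X⁻¹ i g * f g ∈ W := fun f hf hb => by
    obtain ⟨a, ha⟩ : ∃ a, a = fun i => ∑ g, X⁻¹ i g * f g := ⟨_, rfl⟩
    have fx : ∀ i, Fx 𝕜 u W (a i) := fun i => ha ▸ fx_sum (hy i) hf
    have e : ∀ g, ∑ i, X g i * a i = f g := fun g => by
      have : X.mulVec (X⁻¹.mulVec f) = f := by
        rw [Matrix.mulVec_mulVec, Matrix.mul_nonsing_inv _ (isUnit_iff_ne_zero.2 hd),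
          Matrix.one_mulVec]
      exact ha ▸ congrFun this g
    have key : ∀ m : ℕ, (∀ i, u ^ m * a i ∈ W) → ∀ i, a i ∈ W := fun m => by
      induction m with
      | zero => simp
      | succ m ih =>
        intro h
        choose e₀ he using fun i => found.bas.resid 𝕜 Ω u H.co W H.pl _ (h i)
        have b : ∀ i, (u ^ (m + 1) * a i - algebraMap 𝕜 Ω (e₀ i)) / u ∈ W := fun i =>
          H.small (((fx_mem (pow_mem (mem_adjoin_simple_self 𝕜 u) _)).mul (fx i)).sub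
            (fx_mem (IntermediateField.algebraMap_mem _ _))) (he i)
        have := hm e₀ fun g => by
          have : (∑ i, algebraMap 𝕜 Ω (e₀ i) * X g i) / u = u ^ m * f g -
              ∑ i, (u ^ (m + 1) * a i - algebraMap 𝕜 Ω (e₀ i)) / u * X g i := by
            rw [← e, mul_sum, ← sum_sub_distrib, sum_div]
            exact sum_congr rfl fun i _ => by field_simp; ring
          rw [this]
          refine Valuation.map_sub_le _ ?_ (Valuation.map_sum_le _ fun i _ => ?_) <;> rw [map_mul]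
          · exact (mul_le_of_le_one_left' (by rw [map_pow]; exact pow_le_one₀ zero_le H.lt.le)).trans
              (hb g)
          · exact (mul_le_of_le_one_left' ((W.valuation_le_one_iff _).2 (b i))).trans (hΛ g i)
        refine ih fun i => ?_
        have := b i
        rwa [‹e₀ = 0›, Pi.zero_apply, map_zero, sub_zero, pow_succ', mul_assoc,
          mul_div_cancel_left₀ _ u0] at this
    have : ∀ i, ∃ m : ℕ, ∀ n ≥ m, u ^ n * a i ∈ W := fun i => by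
      by_cases h0 : a i = 0
      · exact ⟨0, fun n _ => by simp [h0]⟩
      obtain ⟨n, e⟩ := H.hv (fx i) h0
      refine ⟨n.toNat, fun k hk => ?_⟩
      rw [← W.valuation_le_one_iff, map_mul, map_pow, e, eq_inv_of_mul_eq_one_right H.vu, inv_pow,
        inv_mul_le_one₀ (pow_pos (pow_pos H.pos _) _), ← pow_mul, ← zpow_natCast,
        zpow_le_zpow_iff_right₀ H.big]
      push_cast
      exact mul_le_mul_of_nonneg_left (by omega) (by positivity)
    choose m hm using this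
    simpa only [ha] using key (univ.sup m) fun i => hm i _ (le_sup (mem_univ i))
  have T : ∀ m ≤ p - 1, W.valuation (mom p z c g (X⁻¹ i) m) ≤ 1 := fun m hm =>
    (W.valuation_le_one_iff _).2
      (sum_tst (p := p) g (X⁻¹ i) m ▸ A _ (H.lc_tst g m) (H.tst_le g hm) i)
  rw [eq_mom (p := p) (z := z) (c := c) g (X⁻¹ i)]
  refine Valuation.map_sub_le _ ((T 0 (Nat.zero_le _)).trans (one_le_pow₀ H.big.le))
    (Valuation.map_sum_le _ fun l hl => ?_)
  rw [map_mul, map_pow]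
  exact (mul_le_of_le_one_right' (T _ (Nat.sub_le _ _))).trans
    (pow_le_pow_right₀ H.big.le (Nat.le_sub_one_of_lt (mem_range.1 hl)))

lemma part2 [Fintype G] {f : G → Ω} (hf : Lc u W ρ f) (g : G)
    (hb : W.valuation (f g) ≤ W.valuation z ^ (p - 1)) : ∃ e : 𝕜,
      W.valuation (mom p z c g f 0 + algebraMap 𝕜 Ω e) < 1 ∧
      W.valuation (f g / z ^ (p - 1) - algebraMap 𝕜 Ω e) < 1 := by
  have p2 := hp.out.two_le
  have z0 : z ≠ 0 := fun h => by simpa [h] using H.pos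
  obtain ⟨b, hb'⟩ : ∃ b : ℕ → Ω, b = fun l =>
    (if l = 0 then mom p z c g f 0 else 0) - mom p z c g f (p - 1 - l) := ⟨_, rfl⟩
  have fx : ∀ l, Fx 𝕜 u W (b l) := fun l => by
    rw [hb']
    refine Fx.sub ?_ (H.fx_mom hf g _)
    split_ifs
    · exact H.fx_mom hf g _
    · exact fx_mem (zero_mem _)
  have e : f g = ∑ l ∈ range p, b l * z ^ l := by
    rw [eq_mom (p := p) (z := z) (c := c) g f, hb']
    simp only [sub_mul, sum_sub_distrib, ite_mul, zero_mul, sum_ite_eq', mem_range, hp.out.pos,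
      if_true, pow_zero, mul_one, mul_comm (z ^ _)]
  have vl : ∀ l, b l ≠ 0 → ∃ n : ℤ, W.valuation (b l) = W.valuation z ^ (p * n : ℤ) ∧
      W.valuation (b l * z ^ l) = W.valuation z ^ (p * n + l : ℤ) := fun l h =>
    let ⟨n, e⟩ := H.hv (fx l) h
    ⟨n, e, by rw [map_mul, map_pow, e, zpow_add₀ H.pos.ne', zpow_natCast]⟩
  have bW : ∀ l < p, W.valuation (b l) ≤ 1 := fun l hl => by
    by_cases h0 : b l = 0
    · simp [h0]
    obtain ⟨n, e1, e2⟩ := vl l h0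
    have := (le_sum W.valuation (range p) (fun l => b l * z ^ l) (fun i hi j hj h h' => by
      obtain ⟨n, -, e1⟩ := vl i fun t => h' (by simp [t])
      obtain ⟨m, -, e2⟩ := vl j fun t => h' (h.trans (by simp [t]))
      have := zpow_right_injective₀ H.pos H.big.ne' (e1.symm.trans (h.trans e2))
      have := congrArg (· % (p : ℤ)) this
      simp only [Int.mul_add_emod_self_left] at this
      rw [Int.emod_eq_of_lt (by omega) (by exact_mod_cast mem_range.1 hi),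
        Int.emod_eq_of_lt (by omega) (by exact_mod_cast mem_range.1 hj)] at this
      exact_mod_cast this) (mem_range.2 hl)).trans (e ▸ hb)
    rw [e2, ← zpow_natCast, zpow_le_zpow_iff_right₀ H.big, Nat.cast_sub hp.out.one_le] at this
    rw [e1, zpow_le_one_iff_right₀ H.big]
    have h1 : n < 1 := lt_of_mul_lt_mul_left (a := (p : ℤ)) (by omega) (by omega)
    exact mul_nonpos_of_nonneg_of_nonpos (by omega) (by omega)
  obtain ⟨e₀, he⟩ := found.bas.resid 𝕜 Ω u H.co W H.pl _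
    ((W.valuation_le_one_iff _).1 (bW (p - 1) (by omega)))
  refine ⟨e₀, ?_, ?_⟩
  · rw [← Valuation.map_neg]
    simpa [hb', pm1 p, sub_eq_add_neg, add_comm] using he
  · obtain ⟨q, hq⟩ : ∃ q, p = q + 1 := ⟨p - 1, by omega⟩
    have hq' : p - 1 = q := by omega
    rw [hq'] at he
    rw [e, hq', show range p = range (q + 1) by rw [hq], sum_range_succ, add_div,
      mul_div_cancel_right₀ _ (pow_ne_zero _ z0), add_sub_assoc, sum_div]
    refine Valuation.map_add_lt _ (Valuation.map_sum_lt _ one_ne_zero fun l hl => ?_) he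
    rw [map_div₀, map_mul, map_pow, map_pow, div_lt_one₀ (pow_pos H.pos _)]
    exact (mul_le_of_le_one_left' (bW l (by have := mem_range.1 hl; omega))).trans_lt
      (pow_lt_pow_right₀ H.big (mem_range.1 hl))

end Ctx

omit [IsAlgClosed Ω] [CharP Ω p] in
lemma cong_mul {a a' b b' : Ω} (ha : a ∈ W) (hb : b' ∈ W) (h : W.valuation (a - a') < 1)
    (h' : W.valuation (b - b') < 1) : W.valuation (a * b - a' * b') < 1 := by
  rw [show a * b - a' * b' = a * (b - b') + (a - a') * b' by ring]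
  refine Valuation.map_add_lt _ ?_ ?_ <;> rw [map_mul]
  · exact (mul_le_of_le_one_left' ((W.valuation_le_one_iff _).2 ha)).trans_lt h'
  · exact (mul_le_of_le_one_right' ((W.valuation_le_one_iff _).2 hb)).trans_lt h

omit [IsAlgClosed Ω] [CharP Ω p] in
lemma cong_mem {a a' : Ω} (ha : a' ∈ W) (h : W.valuation (a - a') < 1) : a ∈ W := by
  simpa using add_mem ((W.valuation_le_one_iff _).1 h.le) ha

omit [IsAlgClosed Ω] [CharP Ω p] in
lemma cong_pow {a a' : Ω} (ha : a' ∈ W) (h : W.valuation (a - a') < 1) (n : ℕ) :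
    W.valuation (a ^ n - a' ^ n) < 1 := by
  induction n with
  | zero => simp
  | succ n ih =>
    rw [pow_succ, pow_succ]
    exact cong_mul (pow_mem (cong_mem ha h) n) ha ih h

end ASO1

open ASO1 in
theorem blockASO1 : StmtASO1 := by
  intro p hp 𝕜 Ω _ _ _ _ _ _ u hu W hW h1 z l hl hz h2 G _ _ _ ρ c hρ hc hA
  have : CharP Ω p := charP_of_injective_algebraMap (algebraMap 𝕜 Ω).injective p
  obtain ⟨H, zl⟩ := ctx hu hW h1 hl hz h2 hρ hA
  simp only [H.lam]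
  refine ⟨H.part1, fun f hf hb => ?_⟩
  obtain ⟨T, hT⟩ := exists_reps (M := Ω) H.cp hc
  choose e e1 e2 using fun g => H.part2 (Lc.of_alg hf) g (hb g)
  have z0 : z ≠ 0 := fun h => by simpa [h] using H.pos
  refine ⟨T, e, ?_, fun g _ => ?_⟩
  · rw [hT, map_sum, ← sum_add_distrib]
    exact Valuation.map_sum_lt _ one_ne_zero fun g _ => by simpa [mom] using e1 g
  · have : f g ^ p * u ^ (p - 1) = (f g / z ^ (p - 1)) ^ p * (z ^ p * u) ^ (p - 1) := by
      rw [div_pow, mul_pow, pow_right_comm, ← mul_assoc,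
        div_mul_cancel₀ _ (pow_ne_zero _ (pow_ne_zero _ z0))]
    rw [this, map_mul, map_pow, map_pow]
    exact cong_mul (pow_mem (cong_mem (hW.2 _) (e2 g)) _) (pow_mem (hW.2 _) _)
      (cong_pow (hW.2 _) (e2 g) _) (cong_pow (hW.2 _) zl _)

end Pool.Agent.Lib.IW2
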