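import Pool.Agent.Lib.IW2.Blue

/-! Algebraic preliminaries for the local expansion at an Artin-Schreier branch point. -/

open Polynomial IntermediateField Finset
open scoped Pointwise

namespace Pool.Agent.Lib.IW2

open Pool.Agent.Lib.IW

namespace ASO1

section Alg

variable (p : ℕ) [hp : Fact p.Prime] {Ω : Type} [Field Ω] [CharP Ω p]

variable (Ω) in
/-- the prime field -/
abbrev κ : ZMod p →+* Ω := ZMod.castHom (dvd_refl p) Ω

lemma pm1 : p - 1 ≠ 0 := by have := hp.out.two_le; omega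

lemma geom (z t : Ω) : ∑ l ∈ range p, z ^ l * (z + t) ^ (p - 1 - l) = t ^ (p - 1) := by
  by_cases ht : t = 0
  · rw [ht, add_zero, geom_sum₂_self, CharP.cast_eq_zero, zero_mul, zero_pow (pm1 p)]
  · apply mul_right_cancel₀ (neg_ne_zero.2 ht)
    have := geom_sum₂_mul z (z + t) p
    rw [add_pow_char, show z - (z + t) = -t by ring] at this
    rw [this, mul_neg, ← pow_succ, Nat.sub_add_cancel hp.out.one_le]; ring

lemma expand (z : Ω) (h : ZMod p → Ω) : h 0 = ∑ j, h j -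
    ∑ l ∈ range p, z ^ l * ∑ j, h j * (z + κ p Ω j) ^ (p - 1 - l) := by
  simp_rw [mul_sum, mul_left_comm (z ^ _)]
  rw [sum_comm, ← sum_sub_distrib]
  simp_rw [← mul_sum, geom]
  rw [sum_eq_single 0 (fun j _ hj => by
    rw [← map_pow, ZMod.pow_card_sub_one_eq_one hj, map_one, mul_one, sub_self]) (by simp)]
  simp [pm1 p]

end Alg

section Grp

variable {p : ℕ} [hp : Fact p.Prime] {G : Type} [Group G] {c : G}

lemma pow_val (h : c ^ p = 1) (i : ℕ) : c ^ (i : ZMod p).val = c ^ i := by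
  rw [ZMod.val_natCast, ← pow_eq_pow_mod i h]

lemma pow_val_add (h : c ^ p = 1) (i j : ZMod p) : c ^ (i + j).val = c ^ i.val * c ^ j.val := by
  rw [ZMod.val_add, ← pow_eq_pow_mod _ h, pow_add]

lemma exists_reps [Fintype G] (h : c ^ p = 1) (hc : c ≠ 1) {M : Type} [AddCommMonoid M] :
    ∃ T : Finset G, ∀ f : G → M, ∑ g, f g = ∑ t ∈ T, ∑ j : ZMod p, f (c ^ j.val * t) := by
  classical
  have ho : orderOf c = p := orderOf_eq_prime h hc
  obtain ⟨T, hT, -⟩ := (Subgroup.zpowers c).exists_isComplement_right 1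
  have b : Function.Bijective fun j : ZMod p =>
      (⟨c ^ j.val, Subgroup.npow_mem_zpowers c _⟩ : (Subgroup.zpowers c : Set G)) := by
    refine ⟨fun i j e => ZMod.val_injective p (pow_injOn_Iio_orderOf ?_ ?_ (congrArg Subtype.val e)),
      fun ⟨x, hx⟩ => ?_⟩
    · exact ho ▸ ZMod.val_lt i
    · exact ho ▸ ZMod.val_lt j
    · obtain ⟨i, -, rfl⟩ := mem_image.1 (mem_zpowers_iff_mem_range_orderOf.1 hx)
      exact ⟨i, Subtype.ext (pow_val h i)⟩
  refine ⟨T.toFinset, fun f => ?_⟩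
  rw [← Function.Bijective.sum_comp hT f, Fintype.sum_prod_type_right,
    sum_subtype (p := (· ∈ T)) T.toFinset (by simp)]
  exact sum_congr rfl fun t _ => (b.sum_comp fun x => f (x.1 * t.1)).symm

end Grp

lemma inv_mem_sub {Ω ι : Type} [Field Ω] [Fintype ι] [DecidableEq ι] (S : Subfield Ω)
    {X : Matrix ι ι Ω} (h : ∀ i j, X i j ∈ S) (hd : X.det ≠ 0) (i j : ι) : X⁻¹ i j ∈ S := by
  let Y : Matrix ι ι S := fun i j => ⟨X i j, h i j⟩
  have e : S.subtype.mapMatrix Y = X := rfl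
  have d : IsUnit Y.det := isUnit_iff_ne_zero.2 fun h0 => hd (by
    rw [← e, ← RingHom.map_det, h0, map_zero])
  have : S.subtype.mapMatrix Y⁻¹ * X = 1 := by
    rw [← e, ← map_mul, Matrix.nonsing_inv_mul _ d, map_one]
  rw [Matrix.inv_eq_left_inv this]
  exact (Y⁻¹ i j).2

lemma inv_map {Ω ι : Type} [Field Ω] [Fintype ι] [DecidableEq ι] (γ : Ω →+* Ω) (σ : ι ≃ ι)
    {X : Matrix ι ι Ω} (h : ∀ i j, γ (X i j) = X (σ i) j) (hd : X.det ≠ 0) (i j : ι) :
    γ (X⁻¹ i j) = X⁻¹ i (σ j) := by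
  have d := Matrix.nonsing_inv_mul _ (isUnit_iff_ne_zero.2 hd)
  have e : γ.mapMatrix X = X.submatrix σ id := Matrix.ext h
  have h1 : γ.mapMatrix X⁻¹ * γ.mapMatrix X = 1 := by rw [← map_mul, d, map_one]
  have h2 : X⁻¹.submatrix id σ * γ.mapMatrix X = 1 := by
    rw [e, Matrix.submatrix_mul_equiv, d, Matrix.submatrix_id_id]
  exact congrFun (congrFun
    ((Matrix.inv_eq_left_inv h1).symm.trans (Matrix.inv_eq_left_inv h2)) i) j

lemma le_sum {Ω Γ ι : Type} [Field Ω] [LinearOrderedCommGroupWithZero Γ] (v : Valuation Ω Γ)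
    (s : Finset ι) (t : ι → Ω)
    (h : ∀ i ∈ s, ∀ j ∈ s, v (t i) = v (t j) → v (t i) ≠ 0 → i = j) {i : ι} (hi : i ∈ s) :
    v (t i) ≤ v (∑ i ∈ s, t i) := by
  classical
  obtain ⟨j, hj, m⟩ := s.exists_max_image (fun i => v (t i)) ⟨i, hi⟩
  by_cases h0 : v (t j) = 0
  · exact (m i hi).trans (h0.le.trans zero_le)
  rw [v.map_sum_eq_of_lt hj fun a ha => ?_]
  · exact m i hi
  · rw [mem_sdiff, mem_singleton] at ha
    exact (m a ha.1).lt_of_ne fun e => ha.2 (h a ha.1 j hj e (e ▸ h0))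

end ASO1

end Pool.Agent.Lib.IW2
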