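import Pool.Agent.Lib.IW2.Blue

/-! Valuation lemmas for the block on large Artin-Schreier branch points. -/

open Polynomial IntermediateField
open scoped Pointwise

namespace Pool.Agent.Lib.IW2

open Pool.Agent.Lib.IW

namespace ASO

variable {𝕜 Ω' : Type} [Field 𝕜] [Field Ω'] [Algebra 𝕜 Ω'] {W : ValuationSubring Ω'}

lemma mem_of_lt {s : Ω'} (h : W.valuation s < 1) : s ∈ W := (W.valuation_le_one_iff s).1 h.le

lemma val_one {s : Ω'} (h0 : s ≠ 0) (h : s ∈ W) (h' : s⁻¹ ∈ W) : W.valuation s = 1 := by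
  refine le_antisymm ((W.valuation_le_one_iff s).2 h) ?_
  have h1 := (W.valuation_le_one_iff _).2 h'
  rw [map_inv₀] at h1
  exact (inv_le_one₀ (zero_lt_iff.2 ((_root_.map_ne_zero W.valuation).2 h0))).1 h1

lemma inv_mem_of {s : Ω'} (h : W.valuation s = 1) : s⁻¹ ∈ W :=
  (W.valuation_le_one_iff _).1 (by rw [map_inv₀, h, inv_one])

lemma val_c (hW : IsPl 𝕜 W) {c : 𝕜} (hc : c ≠ 0) : W.valuation (algebraMap 𝕜 Ω' c) = 1 :=
  val_one ((_root_.map_ne_zero _).2 hc) (hW.2 c) (by rw [← map_inv₀]; exact hW.2 _)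

lemma c_zero (hW : IsPl 𝕜 W) {c : 𝕜} (h : W.valuation (algebraMap 𝕜 Ω' c) < 1) : c = 0 := by
  by_contra hc
  exact h.ne (val_c hW hc)

lemma c_eq (hW : IsPl 𝕜 W) {s : Ω'} {c c' : 𝕜} (h : W.valuation (s - algebraMap 𝕜 Ω' c) < 1)
    (h' : W.valuation (s - algebraMap 𝕜 Ω' c') < 1) : c = c' := by
  have h1 := W.valuation.map_sub_lt h' h
  rw [sub_sub_sub_cancel_left, ← map_sub] at h1
  exact sub_eq_zero.1 (c_zero hW h1)

lemma mem_of_pow {s : Ω'} {n : ℕ} (hn : n ≠ 0) (h : s ^ n ∈ W) : s ∈ W := by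
  rw [← W.valuation_le_one_iff] at h ⊢
  rw [map_pow] at h
  exact (pow_le_one_iff hn).1 h

lemma mul_lt {r s : Ω'} (hr : r ∈ W) (hs : W.valuation s < 1) : W.valuation (r * s) < 1 := by
  rw [map_mul]
  exact mul_lt_one_of_nonneg_of_lt_one_right ((W.valuation_le_one_iff r).2 hr) zero_le hs

lemma unit_of (hW : IsPl 𝕜 W) {u : Ω'} {a b : 𝕜} (h : W.valuation (u - algebraMap 𝕜 Ω' a) < 1)
    (hb : ¬ W.valuation (u - algebraMap 𝕜 Ω' b) < 1) :
    W.valuation (u - algebraMap 𝕜 Ω' b) = 1 := by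
  refine le_antisymm ((W.valuation_le_one_iff _).2 ?_) (not_lt.1 hb)
  have h1 : u - algebraMap 𝕜 Ω' b =
      (u - algebraMap 𝕜 Ω' a) + (algebraMap 𝕜 Ω' a - algebraMap 𝕜 Ω' b) := by ring
  rw [h1]
  exact add_mem (mem_of_lt h) (sub_mem (hW.2 a) (hW.2 b))

lemma div_mem {s π : Ω'} (h : W.valuation s ≤ W.valuation π) : s / π ∈ W := by
  rw [← W.valuation_le_one_iff, map_div₀]
  exact div_le_one_of_le₀ h zero_le

/-- A matrix with invertible residue matrix has unit determinant. -/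
lemma det_unit (hW : IsPl 𝕜 W) {G : Type} [Fintype G] [DecidableEq G] (X : Matrix G G Ω')
    (r : Matrix G G 𝕜) (h : ∀ g i, W.valuation (X g i - algebraMap 𝕜 Ω' (r g i)) < 1)
    (hr : r.det ≠ 0) : W.valuation X.det = 1 := by
  have hX : ∀ g i, X g i ∈ W := fun g i => by
    have h1 := add_mem (mem_of_lt (h g i)) (hW.2 (r g i))
    rwa [sub_add_cancel] at h1
  let φ : 𝕜 →+* W := (algebraMap 𝕜 Ω').codRestrict W.toSubring hW.2
  let Y : Matrix G G W := fun g i => ⟨X g i, hX g i⟩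
  have h1 : (IsLocalRing.residue W).mapMatrix Y =
      ((IsLocalRing.residue W).comp φ).mapMatrix r := by
    ext g i
    exact Ideal.Quotient.eq.2 ((W.valuation_lt_one_iff _).2 (h g i))
  have h2 : IsLocalRing.residue W Y.det ≠ 0 := by
    rw [RingHom.map_det, h1, ← RingHom.map_det]
    exact (_root_.map_ne_zero _).2 hr
  have h3 : X.det = (Y.det : Ω') := (RingHom.map_det W.subtype Y).symm
  rw [h3]
  refine le_antisymm (W.valuation_le_one _) (not_lt.1 fun h4 => h2 ?_)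
  exact (IsLocalRing.residue_eq_zero_iff _).2 ((W.valuation_lt_one_iff _).2 h4)

/-- The pole order of `s` at `W` is at most `1 - 1 / p`. -/
def Bd (p : ℕ) (u : Ω') (W : ValuationSubring Ω') (s : Ω') : Prop := s ^ p * u ^ (p - 1) ∈ W

variable {p : ℕ} [hp : Fact p.Prime] {u : Ω'}

omit hp in
lemma Bd.mul {r s : Ω'} (h : Bd p u W s) (hr : r ∈ W) : Bd p u W (r * s) := by
  unfold Bd
  rw [mul_pow, mul_assoc]
  exact mul_mem (pow_mem hr p) h

lemma Bd.sum [CharP Ω' p] {J : Type} [Fintype J] {s : J → Ω'} (h : ∀ i, Bd p u W (s i)) :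
    Bd p u W (∑ i, s i) := by
  unfold Bd
  rw [sum_pow_char, Finset.sum_mul]
  exact sum_mem fun i _ => h i

lemma Bd.mem {s : Ω'} (h : Bd p u W s) (hu : W.valuation u = 1) : s ∈ W := by
  have h0 : u ≠ 0 := by
    rintro rfl
    simp at hu
  have h1 := mul_mem h (pow_mem (inv_mem_of hu) (p - 1))
  rw [mul_assoc, ← mul_pow, mul_inv_cancel₀ h0, one_pow, mul_one] at h1
  exact mem_of_pow hp.out.ne_zero h1

omit hp in
lemma bd_of_mem {s : Ω'} (hu : u ∈ W) (hs : s ∈ W) : Bd p u W s :=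
  mul_mem (pow_mem hs p) (pow_mem hu _)

lemma Bd.small {s : Ω'} (h : Bd p u W s) (hu : W.valuation u < 1) :
    W.valuation (u * s) < 1 := by
  have h1 : (u * s) ^ p = s ^ p * u ^ (p - 1) * u := by
    rw [mul_assoc, pow_sub_one_mul hp.out.ne_zero, mul_pow, mul_comm]
  have h2 := mul_lt h hu
  rw [← h1, map_pow] at h2
  exact (pow_lt_one_iff hp.out.ne_zero).1 h2

/-- Places in the open unit disc. -/
def Dsc (𝕜 : Type) [Field 𝕜] [Algebra 𝕜 Ω'] (O : ValuationSubring Ω') (u : Ω')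
    (W : ValuationSubring Ω') : Prop :=
  IsPl 𝕜 W ∧ ∃ a : 𝕜, O.valuation (algebraMap 𝕜 Ω' a) < 1 ∧
    W.valuation (u - algebraMap 𝕜 Ω' a) < 1

variable {O : ValuationSubring Ω'}

omit hp in
lemma dsc_zero (hW : IsPl 𝕜 W) (h : W.valuation u < 1) : Dsc 𝕜 O u W :=
  ⟨hW, 0, by simp, by simpa using h⟩

omit hp in
lemma Dsc.unit (h : Dsc 𝕜 O u W) (hu : ¬ W.valuation u < 1) : W.valuation u = 1 := by
  obtain ⟨hW, a, -, ha⟩ := h
  simpa using unit_of hW ha (b := 0) (by simpa using hu)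

variable {G : Type} [Group G] {ρ : Aut 𝕜 Ω' → G}

omit hp in
/-- Divisibility at one place above a point gives divisibility on the whole disc. -/
lemma transfer [IsAlgClosed Ω'] (hu : Co 𝕜 u) {y : G → Ω'} (hy : Alg 𝕜⟮u⟯ ρ y) {a : 𝕜}
    (hW : IsPl 𝕜 W) (ha : W.valuation (u - algebraMap 𝕜 Ω' a) < 1)
    (h1 : ∀ g, Bd p u W (y g / (u - algebraMap 𝕜 Ω' a)))
    (h2 : ∀ g W', Dsc 𝕜 O u W' → Bd p u W' (y g)) (g : G) (W' : ValuationSubring Ω')
    (hW' : Dsc 𝕜 O u W') : Bd p u W' (y g / (u - algebraMap 𝕜 Ω' a)) := by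
  by_cases h : W'.valuation (u - algebraMap 𝕜 Ω' a) < 1
  · obtain ⟨γ, hγ, rfl⟩ := conj_at found.conj found.bas hu hW hW'.1 ha h
    have h3 := ((found.bas.smulPl 𝕜 Ω' W hW γ).2.1 _).2 (h1 ((ρ γ)⁻¹ * g))
    have h4 := hy.2 γ (by rwa [fix_adjoin]) ((ρ γ)⁻¹ * g)
    rw [mul_inv_cancel_left] at h4
    rw [map_mul, map_pow, map_pow, map_div₀, map_sub, h4, mem_Gam.1 hγ, γ.commutes] at h3
    exact h3
  · obtain ⟨b, -, hb⟩ := hW'.2
    rw [div_eq_inv_mul]
    exact (h2 g W' hW').mul (inv_mem_of (unit_of hW'.1 hb h))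

omit hp in
lemma alg_comb {F : IntermediateField 𝕜 Ω'} {J : Type} [Fintype J] {X : G → J → Ω'}
    (hX : ∀ i, Alg F ρ fun g => X g i) (c : J → 𝕜) :
    Alg F ρ fun g => ∑ i, algebraMap 𝕜 Ω' (c i) * X g i :=
  Alg.sum Finset.univ fun i _ => (Alg.const (F.algebraMap_mem (c i))).mul (hX i)

end ASO

end Pool.Agent.Lib.IW2
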