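import Pool.Agent.Lib.IW2.Blue2

/-! Any transcendental element is large for a suitable absolute value. -/

open Polynomial IntermediateField

namespace Pool.Agent.Lib.IW2

open Pool.Agent.Lib.IW

namespace AUT

variable {k 𝕜 : Type} [Field k] [Field 𝕜] [Algebra k 𝕜]

/-- A transcendental element is a coordinate over a suitable intermediate field. -/
lemma ex_co {l : 𝕜} (hl : Transcendental k l) : ∃ K : IntermediateField k 𝕜, Co K l := by
  have h1 : AlgebraicIndepOn k id ({l} : Set 𝕜) := by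
    unfold AlgebraicIndepOn
    exact (algebraicIndependent_singleton_iff (⟨l, rfl⟩ : ({l} : Set 𝕜))).2 hl
  obtain ⟨t, hlt, ht⟩ := exists_isTranscendenceBasis_superset h1
  have hl' : l ∈ t := hlt rfl
  let s : Set t := {i | i ≠ ⟨l, hl'⟩}
  refine ⟨adjoin k (((↑) : t → 𝕜) '' s), ?_, fun y => ?_⟩
  · rw [IntermediateField.transcendental_adjoin_iff]
    exact ht.1.transcendental_adjoin (s := s) (i := ⟨l, hl'⟩) (fun h => h rfl)
  · have ha := ht.isAlgebraic_field.isAlgebraic y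
    set K : IntermediateField k 𝕜 := adjoin k (((↑) : t → 𝕜) '' s) with hK
    have hle : adjoin k (Set.range ((↑) : t → 𝕜)) ≤ (K⟮l⟯).restrictScalars k := by
      rw [adjoin_le_iff]
      rintro _ ⟨i, rfl⟩
      by_cases hi : i = ⟨l, hl'⟩
      · subst hi
        exact mem_adjoin_simple_self K l
      · exact (K⟮l⟯).algebraMap_mem (⟨i, subset_adjoin k _ ⟨i, hi, rfl⟩⟩ : K)
    let _ := (IntermediateField.inclusion hle).toAlgebra
    have : IsScalarTower (adjoin k (Set.range ((↑) : t → 𝕜))) ((K⟮l⟯).restrictScalars k) 𝕜 :=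
      IsScalarTower.of_algebraMap_eq fun _ => rfl
    exact ha.tower_top ((K⟮l⟯).restrictScalars k)

/-- Transport of an absolute value along an automorphism. -/
def tr (ν : AbsoluteValue 𝕜 ℝ) (θ : 𝕜 ≃ₐ[k] 𝕜) : AbsoluteValue 𝕜 ℝ where
  toFun a := ν (θ a)
  map_mul' a b := by rw [map_mul, map_mul]
  nonneg' a := ν.nonneg _
  eq_zero' a := by rw [ν.eq_zero, map_eq_zero]
  add_le' a b := by rw [map_add]; exact ν.add_le _ _

lemma tr_apply (ν : AbsoluteValue 𝕜 ℝ) (θ : 𝕜 ≃ₐ[k] 𝕜) (a : 𝕜) : tr ν θ a = ν (θ a) := rfl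

lemma big_tr {ν : AbsoluteValue 𝕜 ℝ} (h : Big k ν) (θ : 𝕜 ≃ₐ[k] 𝕜) : Big k (tr ν θ) := by
  refine ⟨fun a b => ?_, fun c => ?_, fun a ha => ?_, fun r hr => ?_, fun a r hr ha => ?_⟩
  · simp only [tr_apply, map_add]
    exact h.na _ _
  · rw [tr_apply, AlgEquiv.commutes]
    exact h.const c
  · obtain ⟨c, hc⟩ := h.res (θ a) ha
    exact ⟨c, by rwa [tr_apply, map_sub, AlgEquiv.commutes]⟩
  · obtain ⟨a, ha⟩ := h.onto r hr
    exact ⟨θ.symm a, by rwa [tr_apply, AlgEquiv.apply_symm_apply]⟩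
  · obtain ⟨b, hb⟩ := h.sph (fun n => θ (a n)) r hr fun n => by
      have := ha n
      rwa [tr_apply, map_sub] at this
    exact ⟨θ.symm b, fun n => by
      rw [tr_apply, map_sub, AlgEquiv.apply_symm_apply]; exact hb n⟩

end AUT

theorem blockAUT : StmtAUT := by
  intro k 𝕜 _ _ _ _ _ ν hν l hl
  by_cases h1 : 1 < ν l
  · exact ⟨ν, hν, h1⟩
  obtain ⟨c, hc⟩ := hν.res l (not_lt.1 h1)
  obtain ⟨K, hK⟩ := AUT.ex_co hl
  have hm : Transcendental K (l - algebraMap k 𝕜 c)⁻¹ := by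
    intro ha
    apply hK.tr
    have h2 : IsAlgebraic K (l - algebraMap k 𝕜 c) := by simpa using ha.inv
    have h3 : IsAlgebraic K (algebraMap k 𝕜 c) :=
      isAlgebraic_algebraMap (R := K) (A := 𝕜) (algebraMap k K c)
    simpa using h2.add h3
  have h0 : l - algebraMap k 𝕜 c ≠ 0 := by
    intro h
    apply hm
    rw [h, inv_zero]
    exact isAlgebraic_zero
  obtain ⟨θ, hθ⟩ := found.bas.exAut K 𝕜 l _ hK (found.bas.coOf K 𝕜 l _ hK hm)
  refine ⟨AUT.tr ν (θ.restrictScalars k), AUT.big_tr hν _, ?_⟩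
  rw [AUT.tr_apply, AlgEquiv.restrictScalars_apply, hθ, map_inv₀]
  exact (one_lt_inv₀ (ν.pos h0)).2 hc

end Pool.Agent.Lib.IW2
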