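import Pool.Agent.Lib.IW2.All1
import Pool.Agent.Lib.IW2.Blue4

/-! The bridge between Galois extensions and representations. -/

open Polynomial IntermediateField
open scoped Pointwise

namespace Pool.Agent.Lib.IW2

open Pool.Agent.Lib.IW Pool.Agent.Lib.IW.Br2

namespace BR

lemma ne_top {L Ω : Type} [Field L] [Field Ω] [Algebra L Ω] [Algebra.IsAlgebraic L Ω]
    {W : ValuationSubring Ω} (h : W ≠ ⊤) : W.comap (algebraMap L Ω) ≠ ⊤ := fun e => h <| by
  have hm : ∀ a : L, algebraMap L Ω a ∈ W := fun a =>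
    show a ∈ W.comap (algebraMap L Ω) from e ▸ ValuationSubring.mem_top a
  let _ : Algebra L W := ((algebraMap L Ω).codRestrict W.toSubring hm).toAlgebra
  have : IsScalarTower L W Ω := .of_algebraMap_eq fun _ => rfl
  refine top_le_iff.1 fun y _ => ?_
  obtain ⟨z, rfl⟩ := (IsIntegrallyClosed.isIntegral_iff (R := W)).1
    ((Algebra.IsAlgebraic.isAlgebraic (R := L) y).isIntegral.tower_top (A := W))
  exact z.2

lemma sep_K {k K Ω : Type} [Field k] [Field K] [Algebra k K] [Field Ω] [Algebra k Ω] [Algebra K Ω]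
    [IsScalarTower k K Ω] {y : Ω} (h : IsSeparable (Im k K Ω) y) : IsSeparable K y := by
  let e : K ≃ₐ[k] Im k K Ω := (IsScalarTower.toAlgHom k K Ω).equivFieldRange
  let _ : Algebra (Im k K Ω) K := (e.symm : Im k K Ω →ₐ[k] K).toRingHom.toAlgebra
  have : IsScalarTower (Im k K Ω) K Ω := .of_algebraMap_eq fun z =>
    (congrArg Subtype.val (e.apply_symm_apply z)).symm
  exact h.tower_top K

end BR

open BR in
theorem blockBR : StmtBR := by
  intro p _ k K _ _ _ _ _ _ hK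
  set Ω := AlgebraicClosure K
  have hB := found.bas
  have hFF : FF (Im k K Ω) := by
    obtain ⟨x, hx⟩ := exists_co k K hK
    obtain ⟨t, ht⟩ := MP_ba4752_ag.exists_sepCoord hK
    refine ⟨?_, _, ⟨t, rfl⟩, hB.coOf k Ω x _ hx fun h => ht.toIsCoord.1
      ((isAlgebraic_algebraMap_iff (algebraMap K Ω).injective).1 h)⟩
    obtain ⟨S, hS⟩ := IntermediateField.fg_top_iff.2 ‹Algebra.EssFiniteType k K›
    classical
    refine ⟨S.image (IsScalarTower.toAlgHom k K Ω), ?_⟩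
    rw [Finset.coe_image, ← adjoin_map, hS, ← AlgHom.fieldRange_eq_map]
  have hA : ∀ W W' : ValuationSubring Ω, Agr (Im k K Ω) W W' ↔
      W.comap (algebraMap K Ω) = W'.comap (algebraMap K Ω) := fun W W' =>
    ⟨fun h => ValuationSubring.ext _ _ fun a => h _ ⟨a, rfl⟩, fun h => by
      rintro _ ⟨a, rfl⟩
      exact SetLike.ext_iff.1 h a⟩
  have hP : ∀ W : ValuationSubring Ω, W.comap (algebraMap K Ω) ≠ ⊤ →
      (∀ c : k, algebraMap k K c ∈ W.comap (algebraMap K Ω)) → IsPl k W := fun W h1 h2 =>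
    ⟨by rintro rfl; exact h1 rfl, fun c => by
      rw [IsScalarTower.algebraMap_apply k K Ω]; exact h2 c⟩
  have hP' : ∀ W : ValuationSubring Ω, IsPl k W → ∀ c : k,
      algebraMap K Ω (algebraMap k K c) ∈ W := fun W h c => by
    rw [← IsScalarTower.algebraMap_apply]; exact h.2 c
  refine ⟨hFF, fun ξ h1 h2 => ?_, hA, fun S W hW G _ _ H => ⟨?_, ?_⟩⟩
  · obtain ⟨W, rfl⟩ := hB.exOver K Ω (algebraMap K Ω) ξ
    exact ⟨W, hP W h1 h2, rfl⟩
  · rintro ⟨L, _, _, _, _, e, h1, η, h2, h3⟩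
    let ι : L →ₐ[K] Ω := IsAlgClosed.lift
    let _ : Algebra L Ω := ι.toRingHom.toAlgebra
    have : IsScalarTower K L Ω := .of_algebraMap_eq fun c => (ι.commutes c).symm
    have : Algebra.IsAlgebraic L Ω := Algebra.IsAlgebraic.tower_top (K := K) L
    obtain ⟨ρ, r1, r2, r3⟩ := Br1.rep (k := k) (Ω := Ω) found.conj e
    have hcc : ∀ W : ValuationSubring Ω, (W.comap (algebraMap L Ω)).comap (algebraMap K L) =
        W.comap (algebraMap K Ω) := fun W => ValuationSubring.ext _ _ fun a => by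
      simp only [ValuationSubring.mem_comap, ← IsScalarTower.algebraMap_apply]
    refine ⟨ρ, r1, r2, fun U hU hS γ hγ => ?_, ?_⟩
    · have h4 := h1 (U.comap (algebraMap L Ω)) (ne_top hU.1) (fun c => by
        rw [ValuationSubring.mem_comap, ← IsScalarTower.algebraMap_apply]; exact hP' U hU c)
        (by rwa [hcc])
      have h5 : ρ γ ∈ ρ '' (DecF (Im k K Ω) U : Set (Aut k Ω)) := ⟨γ, hγ, rfl⟩
      rw [← r3, h4, Subgroup.map_bot] at h5
      exact h5
    · obtain ⟨U, rfl⟩ := hB.exOver L Ω (algebraMap L Ω) η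
      rw [hcc] at h2
      exact ⟨U, hP U (h2 ▸ ne_top hW.1) (h2 ▸ hP' W hW), (hA _ _).2 h2, by rw [← r3, h3]⟩
  · rintro ⟨ρ, r1, r2, r3, U, hU, a, hH⟩
    obtain ⟨π, hπ⟩ := found.unif.ex k Ω _ hFF W hW
    obtain ⟨y, hy, hi, -⟩ := exists_alg_inj p (fb1.sepu p k Ω _ hFF W π hW hπ) r1
    obtain ⟨L, i1, i2, e, he⟩ := cover found.conj r1 r2 hi (fun h => sep_K (hy.1 h)) hy.2
    refine ⟨L, inferInstance, inferInstance, i1, i2, e, fun η h1 h2 h3 => ?_,
      U.comap (algebraMap L Ω), (hA _ _).1 a, SetLike.coe_injective ((he _).trans hH)⟩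
    obtain ⟨V, rfl⟩ := hB.exOver L Ω (algebraMap L Ω) η
    have hV : IsPl k V := ⟨by rintro rfl; exact h1 rfl, fun c => by
      rw [IsScalarTower.algebraMap_apply k K Ω]; exact h2 c⟩
    refine eq_bot_iff.2 fun σ hσ => ?_
    obtain ⟨γ, h5, h6⟩ : e σ ∈ ρ '' (DecF (Im k K Ω) V : Set (Aut k Ω)) := he V ▸ ⟨σ, hσ, rfl⟩
    rw [r3 V hV h3 γ h5] at h6
    exact e.map_eq_one_iff.1 h6.symm

end Pool.Agent.Lib.IW2
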