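import Pool.Agent.Lib.IW2.All1
import Pool.Agent.Lib.IW2.Blue4

/-! Enlarging the wild part at infinity to a Sylow subgroup. -/

open IntermediateField
open scoped Pointwise

namespace Pool.Agent.Lib.IW2

open Pool.Agent.Lib.IW

namespace CHAIN

variable {k Ω : Type} [Field k] [Field Ω] [Algebra k Ω]

lemma pow_apply {τ : Aut k Ω} {q : Ω} {ω : k} (h : τ q = algebraMap k Ω ω * q) (n : ℕ) :
    (τ ^ n) q = algebraMap k Ω ω ^ n * q := by
  induction n with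
  | zero => simp
  | succ n ih => rw [pow_succ, AlgEquiv.mul_apply, h, map_mul, AlgEquiv.commutes, ih]; ring

lemma not_agr {x : Ω} {W V : ValuationSubring Ω} (hx : x ≠ 0) (h : W.valuation x = 1)
    (h' : V.valuation x < 1) : ¬ Agr k⟮x⟯ W V := fun t => by
  have h1 := (t x⁻¹ (inv_mem (mem_adjoin_simple_self k x))).1
    ((W.valuation_le_one_iff _).1 (by rw [map_inv₀, h, inv_one]))
  have h2 := (V.valuation_le_one_iff _).2 h1
  rw [map_inv₀, inv_le_one₀ ((V.valuation.pos_iff).2 hx)] at h2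
  exact h2.not_gt h'

lemma step (h3 : StmtGp3) (hS : StmtSTAR0) (hG : StmtGLUE) (p : ℕ) [Fact p.Prime] [IsAlgClosed k]
    [CharP k p] [IsAlgClosed Ω] {x q : Ω} {M : ℕ} {ω : k} (hx : Co k x) (hM : ¬ p ∣ M)
    (hω : IsPrimitiveRoot ω M) (hq : q ^ M = x) {G : Type} [Group G] [Finite G]
    (he : ∀ g : G, ∃ j : ℕ, g ^ (M * p ^ j) = 1) {V₀ : ValuationSubring Ω} {I : Set (G × Ω)}
    {β : Aut k Ω → G} {Q : Subgroup G} {c : G} (h0 : IsPl k V₀) (h1 : V₀.valuation x < 1)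
    (h : CH p M x q (algebraMap k Ω ω) V₀ I β Q c) (hn : ¬ ∃ S : Sylow p G, (S : Subgroup G) = Q) :
    ∃ (β' : Aut k Ω → G) (Q' : Subgroup G) (c' : G), Q < Q' ∧
      CH p M x q (algebraMap k Ω ω) V₀ I β' Q' c' := by
  classical
  obtain ⟨rβ, uβ, lβ, pQ, cN, cM, V, pV, xV, lV⟩ := h
  have M0 : 0 < M := Nat.pos_of_ne_zero fun t => hM (t ▸ dvd_zero p)
  have x0 : x ≠ 0 := fun t => hx.tr (t ▸ isAlgebraic_zero)
  have ex : ∀ γ ∈ Gam k x, ∃ i : ℕ, γ q = algebraMap k Ω ω ^ i * q := fun γ hγ =>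
    loc.expo k Ω q M ω hω M0 γ (by rw [hq]; exact hγ)
  set N := Subgroup.normalizer (Q : Set G)
  let φ := QuotientGroup.mk' (Q.subgroupOf N)
  have kr : ∀ b : N, φ b = 1 ↔ (b : G) ∈ Q := fun b => QuotientGroup.eq_one_iff b
  have pk : IsPGroup p φ.ker := by
    rw [QuotientGroup.ker_mk']
    exact pQ.comap_subtype
  have on : Function.Surjective φ := QuotientGroup.mk'_surjective _
  obtain ⟨a, ra, ua, la, wa⟩ := hS p k Ω x q M ω hx hM hω hq _ (φ ⟨c, cN⟩)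
    (by rw [← map_pow, kr]; exact cM) (not_not.1 ((h3.norm p G Q pQ).not.2 hn)) V₀ h0 h1
  have bN : ∀ γ ∈ Dec k x V, β γ ∈ N := fun γ hγ => by
    obtain ⟨i, hi⟩ := ex γ hγ.1
    simpa using mul_mem (Subgroup.le_normalizer (lV γ hγ i hi)) (pow_mem cN i)
  let b : Aut k Ω → N := fun γ => if t : β γ ∈ N then ⟨β γ, t⟩ else 1
  have eb : ∀ γ ∈ Dec k x V, (b γ : G) = β γ := fun γ hγ => by simp only [b, dif_pos (bN γ hγ)]
  obtain ⟨ρ, R⟩ := hG p k Ω k⟮x⟯ x q x q M ω Unit (fun _ => V₀) (fun _ => V) G N _ N.subtype φ a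
    (fun _ => β) (fun _ => b) (fun _ => φ ⟨c, cN⟩)
    ⟨fs_self hx, hx, hM, hω, hq, hq, fun _ => h0,
      fun _ => by simpa using found.bas.unifAt k Ω x hx.tr 0 V₀ h0 (by simpa using h1),
      fun _ _ _ => rfl, fun _ => ⟨pV, xV⟩, on, pk, by rwa [fix_adjoin], fun _ => rβ,
      fun _ => ⟨fun γ hγ δ hδ => Subtype.ext (by
          rw [Subgroup.coe_mul, eb _ (mul_mem hγ hδ), eb γ hγ, eb δ hδ, rβ.mul γ hγ.1 δ hδ.1]),
        (rβ.cts.mono (Dec_le x V)).comp fun g => if t : g ∈ N then (⟨g, t⟩ : N) else 1⟩,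
      fun _ => eb, fun _ => by rwa [DecF_adjoin], fun _ γ hγ i hi => by
        rw [← mul_inv_eq_one, ← map_pow, ← map_inv, ← map_mul, kr]
        simpa [eb γ hγ] using lV γ hγ i hi⟩ fun _ => uβ
  obtain ⟨U, pU, xU, g5⟩ := R.g5
  have rρ : IsRep (Gam k x) ρ := fix_adjoin (k := k) x ▸ R.rep
  obtain ⟨τ, hτ, tq, P, pP, -, nP, lP⟩ := loc.str p k Ω k⟮x⟯ hx.ff U x⁻¹ q M ω pU
    (found.bas.unifInf k Ω x hx.tr U pU xU) hM (Or.inr (by rw [inv_inv, hq])) hω _ a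
    (by rw [DecF_adjoin]; exact ra.mono (Dec_le x U)) fun g => by
      obtain ⟨g, rfl⟩ := on g
      obtain ⟨j, hj⟩ := he g
      exact ⟨j, by rw [← map_pow, show g ^ (M * p ^ j) = 1 from Subtype.ext hj, map_one]⟩
  rw [DecF_adjoin] at g5 hτ nP lP
  have tM : a τ ^ M ∈ P := by
    have := lP _ (pow_mem hτ M) 0 (by rw [pow_apply tq, ← map_pow, hω.pow_eq_one]; simp)
    rw [ra.pow hτ.1] at this
    simpa using this
  let Q' := (P.comap φ).map N.subtype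
  have mq : ∀ g : N, (g : G) ∈ Q' ↔ φ g ∈ P := fun g =>
    Subgroup.mem_map_iff_mem N.subtype_injective
  have nq : ∀ γ ∈ Dec k x U, ∀ g ∈ Q', ρ γ * g * (ρ γ)⁻¹ ∈ Q' := by
    rintro γ hγ _ ⟨g, hg, rfl⟩
    obtain ⟨e, e1, e2⟩ := g5 γ hγ
    exact ⟨e * g * e⁻¹, by
      simpa [e2] using nP γ hγ _ hg, by simp [e1]⟩
  obtain ⟨t, t1, t2⟩ := g5 τ hτ
  refine ⟨ρ, Q', ρ τ, lt_of_le_not_ge (fun g hg => ?_) fun hle => ?_, rρ, fun W pW vW => ?_,
    R.g2 () V₀ I h0 h1 lβ, (pP.comap_of_ker_isPGroup φ pk).map _, ?_, ?_, U, pU, xU,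
    fun γ hγ i hi => ?_⟩
  · refine (mq ⟨g, Subgroup.le_normalizer hg⟩).2 ?_
    rw [(kr ⟨g, _⟩).2 hg]
    exact one_mem _
  · have P1 : ∀ g ∈ P, g = 1 := fun g hg => by
      obtain ⟨g, rfl⟩ := on g
      exact (kr g).2 (hle ((mq g).2 hg))
    refine wa U pU xU fun γ hγ => ⟨M, hM, ?_⟩
    obtain ⟨i, hi⟩ := ex γ hγ.1
    rw [mul_inv_eq_one.1 (P1 _ (lP γ hγ i hi)), ← pow_mul, mul_comm, pow_mul, P1 _ tM, one_pow]
  · rw [← DecF_adjoin]
    refine R.g1 W pW ((W.valuation_le_one_iff _).1 vW.le) (fun _ => not_agr x0 vW h1) ?_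
    rw [DecF_adjoin]
    exact ua W pW vW
  · refine Subgroup.mem_normalizer_iff.2 fun g => ⟨nq τ hτ g, fun hg => ?_⟩
    have := nq _ (inv_mem hτ) _ hg
    rw [rρ.inv hτ.1] at this
    simpa [mul_assoc] using this
  · rw [t1]
    exact (mq (t ^ M)).2 (by rwa [map_pow, t2])
  · obtain ⟨e, e1, e2⟩ := g5 γ hγ
    rw [t1, e1]
    exact (mq (e * (t ^ i)⁻¹)).2 (by rw [map_mul, map_inv, map_pow, e2, t2]; exact lP γ hγ i hi)

end CHAIN

theorem blockCHAIN (h3 : StmtGp3) (hS : StmtSTAR0) (hG : StmtGLUE) : StmtCHAIN := by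
  intro p _ k Ω _ _ _ _ _ _ x q M ω hx hM hω hq G _ _ he V₀ I β Q c h0 h1 h
  induction Q using WellFoundedGT.induction generalizing β c with
  | _ Q ih =>
  by_cases hn : ∃ S : Sylow p G, (S : Subgroup G) = Q
  · obtain ⟨S, rfl⟩ := hn
    exact ⟨β, S, c, h⟩
  · obtain ⟨β', Q', c', lt, h'⟩ := CHAIN.step h3 hS hG p hx hM hω hq he h0 h1 h hn
    exact ih Q' lt β' c' h'

end Pool.Agent.Lib.IW2
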