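import Pool.Agent.Lib.IW2.Blue

/-! The residue disc of a place is a disc. -/

open Polynomial IntermediateField
open scoped Pointwise

namespace Pool.Agent.Lib.IW2

open Pool.Agent.Lib.IW

namespace DISC

variable {k Ω Ω' : Type} [Field k] [Field Ω] [Field Ω'] [Algebra k Ω] [Algebra k Ω']

lemma lt_iff (U : ValuationSubring Ω) (s : Ω) : U.valuation s < 1 ↔ s = 0 ∨ s⁻¹ ∉ U := by
  rw [← ValuationSubring.mem_nonunits_iff, ValuationSubring.mem_nonunits_iff_or]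

lemma rt_map (φ : Ω →ₐ[k] Ω') {f : k[X][X]} {u θ : Ω} (h : Rt f u θ) : Rt f (φ u) (φ θ) := by
  have h1 := hom_eval₂ f (aeval (R := k) u).toRingHom φ.toRingHom θ
  have h2 : φ.toRingHom.comp (aeval (R := k) u).toRingHom = (aeval (R := k) (φ u)).toRingHom :=
    RingHom.ext fun P => (aeval_algHom_apply φ u P).symm
  rw [h2, h, map_zero] at h1
  exact h1.symm

lemma fix_pair {u θ : Ω} {γ : Aut k Ω} (h1 : γ u = u) (h2 : γ θ = θ) :
    γ ∈ (k⟮u, θ⟯).fixingSubgroup := by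
  rw [IntermediateField.mem_fixingSubgroup_iff]
  intro y hy
  induction hy using IntermediateField.adjoin_induction with
  | mem y hy => rcases hy with rfl | rfl <;> assumption
  | algebraMap c => exact γ.commutes c
  | add a b _ _ ha hb => rw [map_add, ha, hb]
  | inv a _ ha => rw [map_inv₀, ha]
  | mul a b _ _ ha hb => rw [map_mul, ha, hb]

lemma const_eq {U : ValuationSubring Ω} (hU : ∀ c : k, algebraMap k Ω c ∈ U) {c : k}
    (h : U.valuation (algebraMap k Ω c) < 1) : c = 0 := by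
  rcases (lt_iff U _).1 h with h | h
  · simpa using h
  · exact (h (map_inv₀ (algebraMap k Ω) c ▸ hU c⁻¹)).elim

lemma lt_of_ov {F : IntermediateField k Ω} {ι : Ω →ₐ[k] Ω'} {U : ValuationSubring Ω'}
    {V : ValuationSubring Ω} (h : Ov ι F U V) {s : Ω} (hs : s ∈ F) (hv : V.valuation s < 1) :
    U.valuation (ι s) < 1 := by
  rw [lt_iff] at hv ⊢
  refine hv.imp (fun e => by rw [e, map_zero]) fun e => ?_
  rwa [← map_inv₀, h _ (inv_mem hs)]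

/-- A valuation ring centred at the origin lies over the place. -/
lemma key [IsAlgClosed Ω] (h2 : StmtSH2) {u θ : Ω} {f : k[X][X]} (hu : Co k u)
    {V : ValuationSubring Ω} (hV : IsPl k V) (vu : V.valuation u < 1) (hf : Sh f) (hr : Rt f u θ)
    (vθ : V.valuation θ < 1) (ι : Ω →ₐ[k] Ω') {U : ValuationSubring Ω'}
    (hU : ∀ c : k, algebraMap k Ω' c ∈ U) (uu : U.valuation (ι u) < 1)
    (uθ : U.valuation (ι θ) < 1) : Ov ι k⟮u, θ⟯ U V := by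
  have e : ∀ s, U.valuation (ι s) < 1 → (U.comap ι.toRingHom).valuation s < 1 := fun s h => by
    rw [lt_iff] at h ⊢
    exact h.imp (fun e => by simpa using e) fun e => by rwa [← map_inv₀] at e
  have hc : ∀ c : k, algebraMap k Ω c ∈ U.comap ι.toRingHom := fun c => by
    simpa using hU c
  have hP : IsPl k (U.comap ι.toRingHom) := ⟨fun t => by
    have := (lt_iff _ _).1 (e u uu)
    rw [t] at this
    exact this.elim hu.ne_zero fun h => h trivial, hc⟩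
  obtain ⟨γ, hγ, e'⟩ := conj_at found.conj found.bas hu (a := 0) hV hP (by simpa using vu)
    (by simpa using e u uu)
  obtain ⟨-, s1, s2, -⟩ := found.bas.smulPl k Ω V hV γ
  rw [e'] at s1 s2
  have h3 := rt_map (γ : Ω →ₐ[k] Ω) hr
  have h4 : (γ : Ω →ₐ[k] Ω) u = u := hγ
  rw [h4] at h3
  have h5 : γ θ = θ := h2.simple k Ω _ hc f hf u _ _ (e u uu) ((s2 θ).2 vθ) (e θ uθ) h3 hr
  intro s hs
  rw [← s1 s, fix_apply (fix_pair hγ h5) hs]
  rfl

end DISC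

open DISC in
theorem blockDISC (h1 : StmtSH1) (h2 : StmtSH2) (hX : StmtRX) : StmtDISC := by
  intro p _ k 𝕜 Ω Ω' _ _ _ _ _ _ _ _ _ _ _ _ _ _ ι O hO F u hF hu V hV hVu
  have : CharP 𝕜 p := charP_of_injective_algebraMap (algebraMap k 𝕜).injective p
  have cmp : ∀ W : ValuationSubring Ω', IsPl 𝕜 W → ∃ U : ValuationSubring Ω',
      (∀ c : k, algebraMap k Ω' c ∈ U) ∧ ∀ s, U.valuation s < 1 ↔ ∃ c : 𝕜,
        O.valuation (algebraMap 𝕜 Ω' c) < 1 ∧ W.valuation (s - algebraMap 𝕜 Ω' c) < 1 := by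
    intro W hW
    obtain ⟨U, u1, u2⟩ := h2.cmpPl 𝕜 Ω' _ hu W O hW
    refine ⟨U, fun c => (u1 _).2 ⟨algebraMap k 𝕜 c, ?_, ?_⟩, u2⟩
    · rw [← IsScalarTower.algebraMap_apply]; exact hO c
    · rw [← IsScalarTower.algebraMap_apply]; simp
  have p6 : ∀ W, In 𝕜 ι O F V W → ∀ γ ∈ (Ext 𝕜 ι F).fixingSubgroup, In 𝕜 ι O F V (γ • W) := by
    intro W hW γ hγ
    obtain ⟨s0, -, s2, -⟩ := found.bas.smulPl 𝕜 Ω' W hW.1 γ
    refine ⟨s0, fun s hs v => ?_⟩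
    obtain ⟨c, c1, c2⟩ := hW.2 s hs v
    have := (s2 _).2 c2
    rw [map_sub, fix_apply hγ (mem_Ext ι hs), γ.commutes] at this
    exact ⟨c, c1, this⟩
  obtain ⟨θ, f, hf, hr, vθ, eF⟩ := h1 p k Ω F u hF V hV hVu
  have hθ : θ ∈ F := eF ▸ subset_adjoin _ _ (by simp)
  have fx : ∀ W W', In 𝕜 ι O F V W → In 𝕜 ι O F V W' → ∀ γ ∈ Gam 𝕜 (ι u), γ • W = W' →
      γ ∈ (Ext 𝕜 ι F).fixingSubgroup := by
    intro W W' hW hW' γ hγ e
    obtain ⟨U, u1, u2⟩ := cmp W' hW'.1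
    obtain ⟨-, -, s2, -⟩ := found.bas.smulPl 𝕜 Ω' W hW.1 γ
    obtain ⟨c, c1, c2⟩ := hW.2 θ hθ vθ
    have h3 := (s2 _).2 c2
    rw [e, map_sub, γ.commutes] at h3
    have h4 := rt_map ((γ : Ω' →ₐ[𝕜] Ω').restrictScalars k) (rt_map ι hr)
    have h5 : ((γ : Ω' →ₐ[𝕜] Ω').restrictScalars k) (ι u) = ι u := hγ
    rw [h5] at h4
    have h6 : γ (ι θ) = ι θ := h2.simple k Ω' U u1 f hf (ι u) _ _
      ((u2 _).2 (hW'.2 u hF.mem hVu.2.2.1)) ((u2 _).2 ⟨c, c1, h3⟩) ((u2 _).2 (hW'.2 θ hθ vθ)) h4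
      (rt_map ι hr)
    rw [eF, hX.ext1, Set.image_pair]
    exact fix_pair hγ h6
  refine ⟨fun θ f hf hr vθ eF W => ⟨fun hW => ⟨hW.1, hW.2 u hF.mem hVu.2.2.1,
    hW.2 θ (eF ▸ subset_adjoin _ _ (by simp)) vθ⟩, fun ⟨hW, ha, hb⟩ => ⟨hW, fun s hs v => ?_⟩⟩,
    fun W hW => ?_, fun W W' a hW hW' w1 w2 y hy => ?_, fun W hW => ?_,
    fun W hW ov => ⟨hW, fun s hs v => ⟨0, by simp, by simpa using lt_of_ov ov hs v⟩⟩, p6⟩
  · obtain ⟨U, u1, u2⟩ := cmp W hW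
    exact (u2 _).1 (lt_of_ov (key h2 hF.co hV hVu.2.2.1 hf hr vθ ι u1 ((u2 _).2 ha) ((u2 _).2 hb))
      (eF ▸ hs) v)
  · have h3 : Dec 𝕜 (ι u) W ≤ (Ext 𝕜 ι F).fixingSubgroup := fun γ hγ => fx W W hW hW γ hγ.1 hγ.2
    obtain ⟨a, a1, a2⟩ := hW.2 u hF.mem hVu.2.2.1
    have h4 := found.bas.unifAt 𝕜 Ω' _ hu.tr a W hW.1 a2
    refine ⟨h3, a, a1, sub_mem (mem_Ext ι hF.mem) (IntermediateField.algebraMap_mem _ a), h4.2.1,
      a2, fun y hy v => ?_⟩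
    by_cases y0 : y = 0
    · simp [y0]
    obtain ⟨i, hi⟩ := found.hens.hens p 𝕜 Ω' _ hu.ff W hW.1 _ h4 y y0
      ((hX.extf k 𝕜 Ω Ω' ι F u hF hu).sep y hy) fun γ hγ =>
        fix_apply (h3 (DecF_adjoin (k := 𝕜) (ι u) W ▸ hγ)) hy
    have h5 : 0 < W.valuation (ι u - algebraMap 𝕜 Ω' a) :=
      zero_lt_iff.2 ((_root_.map_ne_zero _).2 h4.2.1)
    rw [hi] at v ⊢
    have h6 : 0 < i := (zpow_lt_one_iff_right_of_lt_one₀ h5 a2).1 v
    simpa using zpow_le_zpow_right_of_le_one₀ h5 a2.le (show 1 ≤ i by omega)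
  · obtain ⟨γ, hγ, e⟩ := conj_at found.conj found.bas hu hW.1 hW'.1 w1 w2
    rw [← (found.bas.smulPl 𝕜 Ω' W hW.1 γ).2.1 y, e, fix_apply (fx W W' hW hW' γ hγ e) hy]
  · refine (hX.plc k 𝕜 Ω Ω' ι u hF.co hu W hW.1).symm.imp (fun ⟨q1, q2, _⟩ => ?_) And.left
    have h3 : ∀ s ∈ F, V.valuation s < 1 → W.valuation (ι s) < 1 := by
      intro s hs v
      obtain ⟨a, a1, a2⟩ := hW.2 s hs v
      have h4 : s ∈ W.comap ι.toRingHom := by
        have := add_mem ((W.valuation_le_one_iff _).1 a2.le) (hW.1.2 a)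
        rwa [sub_add_cancel] at this
      obtain ⟨c, hc⟩ := found.bas.resid k Ω u hF.co _ q1 s h4
      rw [q2, map_sub, ι.commutes, IsScalarTower.algebraMap_apply k 𝕜 Ω'] at hc
      have h5 := W.valuation.map_sub_lt hc a2
      rw [sub_sub_sub_cancel_left, ← map_sub] at h5
      rw [sub_eq_zero.1 (const_eq hW.1.2 h5), ← IsScalarTower.algebraMap_apply] at a1 a2
      simpa [const_eq hO a1] using a2
    refine ⟨h3 u hF.mem hVu.2.2.1, ?_⟩
    rw [eF]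
    exact key h2 hF.co hV hVu.2.2.1 hf hr vθ ι
      (fun c => by rw [IsScalarTower.algebraMap_apply k 𝕜 Ω']; exact hW.1.2 _)
      (h3 u hF.mem hVu.2.2.1) (h3 θ hθ vθ)

end Pool.Agent.Lib.IW2
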