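import Pool.Agent.Lib.IW2.Blue

/-! Good reduction descends along a tame Kummer extension. -/

open Polynomial IntermediateField
open scoped Pointwise

namespace Pool.Agent.Lib.IW2

open Pool.Agent.Lib.IW

namespace DOWN

variable {K Ω : Type} [Field K] [Field Ω] [Algebra K Ω] {G : Type} [Group G]

lemma fs_sup {F : IntermediateField K Ω} {π q : Ω} {M : ℕ} (h : FS F π) (hM : (M : K) ≠ 0)
    (e : q ^ M = π) : FS (F ⊔ K⟮q⟯) π := by
  refine ⟨h.co, fg_sup h.fg (fg_adjoin_of_finite (Set.finite_singleton q)),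
    le_sup_left (a := F) h.mem, fun y hy => ?_⟩
  have hq : IsSeparable K⟮π⟯ q := by
    refine (separable_X_pow_sub_C (n := M) (AdjoinSimple.gen K π) ?_ ?_).of_dvd
      (minpoly.dvd _ _ (by simp [e]))
    · rw [← map_natCast (algebraMap K K⟮π⟯)]
      exact (_root_.map_ne_zero _).2 hM
    · exact fun t => h.co.ne_zero (congrArg Subtype.val t)
  have : F ⊔ K⟮q⟯ ≤ (separableClosure K⟮π⟯ Ω).restrictScalars K :=
    sup_le h.sep (adjoin_simple_le_iff.2 hq)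
  exact this hy

lemma sep_down {E E' : IntermediateField K Ω} (hle : E ≤ E') (h : ∀ y ∈ E', IsSeparable E y)
    {y : Ω} (hy : IsSeparable E' y) : IsSeparable E y := by
  let _ := (IntermediateField.inclusion hle).toAlgebra
  have : IsScalarTower E E' Ω := IsScalarTower.of_algebraMap_eq fun _ => rfl
  have : Algebra.IsSeparable E E' :=
    ⟨fun z => IsSeparable.tower_bot (E := Ω) (h z z.2)⟩
  exact IsSeparable.of_algebra_isSeparable_of_isSeparable E hy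

/-- The data of a cyclic extension `E (Q)` of `E`. -/
structure Dat (E : IntermediateField K Ω) (Q : Ω) (M : ℕ) (w : K) (τ : Aut K Ω)
    (ρ : Aut K Ω → G) : Prop where
  sep : ∀ y ∈ E ⊔ K⟮Q⟯, IsSeparable E y
  prim : IsPrimitiveRoot w M
  mem : τ ∈ E.fixingSubgroup
  act : τ Q = algebraMap K Ω w * Q
  rep : IsRep E.fixingSubgroup ρ
  expo : ∀ γ ∈ E.fixingSubgroup, ∃ i : ℕ, γ Q = algebraMap K Ω w ^ i * Q

variable {E : IntermediateField K Ω} {Q : Ω} {M : ℕ} {w : K} {τ γ : Aut K Ω} {ρ : Aut K Ω → G}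
  {f : G → Ω}

lemma mem_fix : γ ∈ (E ⊔ K⟮Q⟯).fixingSubgroup ↔ γ ∈ E.fixingSubgroup ∧ γ Q = Q := by
  rw [fixingSubgroup_sup, fix_adjoin]; rfl

/-- The averaged functions. -/
noncomputable def S (Q : Ω) (M : ℕ) (w : K) (τ : Aut K Ω) (ρ : Aut K Ω → G) (f : G → Ω) (j : ℕ)
    (g : G) : Ω :=
  ∑ i ∈ Finset.range M, (algebraMap K Ω w ^ i * Q) ^ j * (τ ^ i) (f ((ρ τ ^ i)⁻¹ * g))

namespace Dat

variable (h : Dat E Q M w τ ρ)
include h

lemma pow_act (i : ℕ) : (τ ^ i) Q = algebraMap K Ω w ^ i * Q := by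
  induction i with
  | zero => simp
  | succ i ih =>
    rw [pow_succ', AlgEquiv.mul_apply, ih, map_mul, map_pow, τ.commutes, h.act]; ring

lemma inv_act (i : ℕ) : (τ ^ i)⁻¹ (algebraMap K Ω w ^ i * Q) = Q := by
  rw [← h.pow_act, ← AlgEquiv.mul_apply, inv_mul_cancel, AlgEquiv.one_apply]

lemma alg (hf : Alg (E ⊔ K⟮Q⟯) ρ f) (j : ℕ) :
    Alg (E ⊔ K⟮Q⟯) ρ fun g => (τ ^ j) (f ((ρ τ ^ j)⁻¹ * g)) := by
  have hj := pow_mem h.mem j
  refine ⟨fun g => sep_up le_sup_left (sep_aut hj (sep_down le_sup_left h.sep (hf.1 _))),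
    fun γ hγ g => ?_⟩
  obtain ⟨h1, h2⟩ := mem_fix.1 hγ
  have h3 : (τ ^ j)⁻¹ * γ * τ ^ j ∈ (E ⊔ K⟮Q⟯).fixingSubgroup :=
    mem_fix.2 ⟨mul_mem (mul_mem (inv_mem hj) h1) hj, by
      rw [AlgEquiv.mul_apply, AlgEquiv.mul_apply, h.pow_act, map_mul γ, map_pow γ, γ.commutes, h2,
        h.inv_act]⟩
  have h4 := congrArg (τ ^ j) (hf.2 _ h3 ((ρ τ ^ j)⁻¹ * g))
  rw [← AlgEquiv.mul_apply, h.rep.mul _ (mul_mem (inv_mem hj) h1) _ hj,
    h.rep.mul _ (inv_mem hj) _ h1, h.rep.inv hj, h.rep.pow h.mem] at h4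
  simpa [mul_assoc] using h4

lemma alg_S' (hf : Alg (E ⊔ K⟮Q⟯) ρ f) (j : ℕ) : Alg (E ⊔ K⟮Q⟯) ρ (S Q M w τ ρ f j) :=
  Alg.sum _ fun i _ => (Alg.const (pow_mem (mul_mem (pow_mem (IntermediateField.algebraMap_mem _ w) i)
    (le_sup_right (a := E) (mem_adjoin_simple_self K Q))) j)).mul (h.alg hf i)

lemma shift (hf : Alg (E ⊔ K⟮Q⟯) ρ f) (j : ℕ) (g : G) :
    τ (S Q M w τ ρ f j g) = S Q M w τ ρ f j (ρ τ * g) := by
  have w1 : algebraMap K Ω w ^ M = 1 := by rw [← map_pow, h.prim.pow_eq_one, map_one]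
  have hM : τ ^ M ∈ (E ⊔ K⟮Q⟯).fixingSubgroup :=
    mem_fix.2 ⟨pow_mem h.mem M, by rw [h.pow_act, w1, one_mul]⟩
  have e := (Finset.sum_range_succ (fun i => (algebraMap K Ω w ^ i * Q) ^ j *
    (τ ^ i) (f ((ρ τ ^ i)⁻¹ * (ρ τ * g)))) M).symm.trans (Finset.sum_range_succ' _ M)
  rw [hf.2 _ hM, h.rep.pow h.mem, w1, mul_inv_cancel_left] at e
  simp only [pow_zero, inv_one, one_mul, AlgEquiv.one_apply, add_left_inj] at e
  rw [S, S, e, map_sum]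
  refine Finset.sum_congr rfl fun i _ => ?_
  rw [map_mul, map_pow, map_mul, map_pow, τ.commutes, h.act, ← AlgEquiv.mul_apply, ← pow_succ',
    ← mul_assoc, ← pow_succ, pow_succ' (ρ τ), mul_inv_rev, mul_assoc, inv_mul_cancel_left]

lemma alg_S (hf : Alg (E ⊔ K⟮Q⟯) ρ f) (j : ℕ) : Alg E ρ (S Q M w τ ρ f j) := by
  refine ⟨fun g => sep_down le_sup_left h.sep ((h.alg_S' hf j).1 g), fun γ hγ g => ?_⟩
  have key : ∀ (m : ℕ) g, (τ ^ m) (S Q M w τ ρ f j g) = S Q M w τ ρ f j (ρ τ ^ m * g) := by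
    intro m
    induction m with
    | zero => simp
    | succ m ih =>
      intro g
      rw [pow_succ', AlgEquiv.mul_apply, ih, h.shift hf, ← mul_assoc, ← pow_succ']
  obtain ⟨m, hm⟩ := h.expo γ hγ
  have hj := pow_mem h.mem m
  have h3 : (τ ^ m)⁻¹ * γ ∈ (E ⊔ K⟮Q⟯).fixingSubgroup :=
    mem_fix.2 ⟨mul_mem (inv_mem hj) hγ, by rw [AlgEquiv.mul_apply, hm, h.inv_act]⟩
  have h4 := congrArg (τ ^ m) ((h.alg_S' hf j).2 _ h3 g)
  rwa [← AlgEquiv.mul_apply, mul_inv_cancel_left, key, h.rep.mul _ (inv_mem hj) _ hγ,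
    h.rep.inv hj, h.rep.pow h.mem, mul_assoc, mul_inv_cancel_left] at h4

lemma fourier (hQ : Q ≠ 0) (hM : 0 < M) (g : G) :
    ∑ j ∈ Finset.range M, Q⁻¹ ^ j * S Q M w τ ρ f j g = M * f g := by
  simp only [S, Finset.mul_sum, ← mul_assoc, ← mul_pow]
  simp only [mul_comm Q⁻¹, mul_right_comm _ _ Q, mul_inv_cancel_right₀ hQ]
  rw [Finset.sum_comm, Finset.sum_eq_single_of_mem 0 (Finset.mem_range.2 hM)]
  · simp
  · intro i hi h0
    have h1 : algebraMap K Ω w ^ i ≠ 1 := by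
      rw [← map_pow, ← map_one (algebraMap K Ω)]
      exact (algebraMap K Ω).injective.ne
        (h.prim.pow_ne_one_of_pos_of_lt h0 (Finset.mem_range.1 hi))
    rw [← Finset.sum_mul, geom_sum_eq h1, ← pow_mul, mul_comm i, pow_mul, ← map_pow,
      h.prim.pow_eq_one]
    simp

end Dat

lemma aut_mem [IsAlgClosed Ω] [Fintype G] (hE : ∀ y : Ω, IsAlgebraic E y) (hf : Alg E ρ f)
    {O : ValuationSubring Ω} (hO : ∀ g, f g ∈ O) (hγ : ∀ a ∈ E, a ∈ O → γ a ∈ O) (g : G) :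
    γ (f g) ∈ O := by
  refine Spec.root_mem O (q := (∏ g, (X - C (f g))).map (γ : Ω →+* Ω))
    ((monic_prod_of_monic _ _ fun g _ => monic_X_sub_C _).map _) (fun n => ?_) ?_
  · rw [coeff_map]
    exact hγ _ (hf.coeff_mem hE n) (SpecRep.coeff_prod_mem O.toSubring hO n)
  · rw [Polynomial.map_prod, eval_prod]
    exact Finset.prod_eq_zero (Finset.mem_univ g) (by simp)

end DOWN

open DOWN in
theorem blockDOWN (hL : StmtLOC) (hR : StmtRX) (hV : StmtVAND) (hO : StmtORTH) : StmtDOWN := by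
  intro p _ k 𝕜 Ω Ω' _ _ _ _ _ _ _ _ _ _ _ _ _ _ ι O hD F π q M ω hF hC hM hω e τ hτ ha G _ _ _ ρ hρ
  have M0 : 0 < M := Nat.pos_of_ne_zero (by rintro rfl; exact hM (dvd_zero p))
  have Mk : (M : k) ≠ 0 := fun t => hM ((CharP.cast_eq_zero_iff k p M).1 t)
  have hF' := fs_sup hF Mk e
  have f1 := hR.extf k 𝕜 Ω Ω' ι _ π hF hC
  have f2 := hR.extf k 𝕜 Ω Ω' ι _ π hF' hC
  have uq := hO.uniq k 𝕜 Ω Ω' ι O hD _ π hF'
  have e1 : Ext 𝕜 ι (F ⊔ k⟮q⟯) = Ext 𝕜 ι F ⊔ 𝕜⟮ι q⟯ := by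
    conv_lhs => rw [← adjoin_self k F, ← adjoin_union, hR.ext1, Set.image_union,
      Set.image_singleton, adjoin_union]
    rfl
  have hw := hω.map_of_injective (algebraMap k 𝕜).injective
  have e2 := IsScalarTower.algebraMap_apply k 𝕜 Ω'
  rw [e1] at f2 uq ⊢
  rw [e2] at ha ⊢
  have h : Dat (Ext 𝕜 ι F) (ι q) M (algebraMap k 𝕜 ω) τ ρ :=
    ⟨fun y hy => sep_up (adjoin_simple_le_iff.2 f1.mem) (f2.sep y hy), hw, hτ, ha, hρ,
      fun γ hγ => hL.expo 𝕜 Ω' _ M _ hw M0 γ (by rw [← map_pow, e]; exact fix_apply hγ f1.mem)⟩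
  have m1 : ∀ f : G → Ω', Alg (Ext 𝕜 ι F ⊔ 𝕜⟮ι q⟯) ρ f → (∀ g, f g ∈ O) → ∀ (j : ℕ) g,
      (τ ^ j) (f g) ∈ O := fun f hf hO j => aut_mem f2.alg hf hO fun a ha t =>
    (uq _ (f1.le (pow_mem hτ j)) a ha).2 t
  have c1 : ∀ c : k, algebraMap k Ω' c ∈ O := fun c => ι.commutes c ▸ hD.mem _
  refine ⟨fun f hf hO j => ⟨h.alg hf j, fun g => m1 f hf hO j _, h.alg_S hf j⟩, fun hc => ?_⟩
  refine hV.vand k 𝕜 Ω' _ G ρ O c1 fun a ha => ?_
  obtain ⟨f, hf, hO, h1⟩ := hV.cert 𝕜 Ω' _ G ρ O hc a ha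
  by_contra t
  have h2 : ∀ j, O.valuation (S (ι q) M (algebraMap k 𝕜 ω) τ ρ f j a -
      S (ι q) M (algebraMap k 𝕜 ω) τ ρ f j 1) < 1 := fun j => by_contra fun t' =>
    t ⟨_, h.alg_S hf j, sum_mem fun i _ => mul_mem (pow_mem (mul_mem (pow_mem (e2 ω ▸ c1 ω) i)
      (hD.mem q)) j) (m1 f hf hO i _), t'⟩
  have q0 : ι q ≠ 0 := fun t => hC.ne_zero (by rw [← e, map_pow, t, zero_pow M0.ne'])
  have M1 : (M : Ω') ≠ 0 := by
    rw [← map_natCast (algebraMap k Ω')]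
    exact (_root_.map_ne_zero _).2 Mk
  have h3 : f a - f 1 = ∑ j ∈ Finset.range M, ((M : Ω')⁻¹ * (ι q)⁻¹ ^ j) *
      (S (ι q) M (algebraMap k 𝕜 ω) τ ρ f j a - S (ι q) M (algebraMap k 𝕜 ω) τ ρ f j 1) := by
    simp only [mul_sub, mul_assoc, Finset.sum_sub_distrib, ← Finset.mul_sum, h.fourier q0 M0,
      inv_mul_cancel_left₀ M1]
  refine h1.not_lt (h3 ▸ O.valuation.map_sum_lt one_ne_zero fun j _ => ?_)
  rw [map_mul]
  refine mul_lt_one_of_nonneg_of_lt_one_right ((O.valuation_le_one_iff _).2 (mul_mem ?_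
    (pow_mem (map_inv₀ ι q ▸ hD.mem _) j))) zero_le (h2 j)
  simpa using c1 (M : k)⁻¹

end Pool.Agent.Lib.IW2
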