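import Pool.Agent.Lib.IW2.Blue

/-! Block FB1: separating coordinates, Galois cores, finiteness of the branch locus. -/

open Polynomial IntermediateField
open scoped Pointwise

namespace Pool.Agent.Lib.IW2

open Pool.Agent.Lib.IW

namespace FB1

variable {k Ω : Type} [Field k] [Field Ω] [Algebra k Ω]

lemma root_mem (p : ℕ) [Fact p.Prime] [IsAlgClosed k] [CharP k p] {x z : Ω} (hz : z ^ p = x)
    {y : Ω} (hy : y ∈ k⟮x⟯) : ∃ b ∈ k⟮x⟯⟮z⟯, b ^ p = y := by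
  have : CharP Ω p := charP_of_injective_algebraMap (algebraMap k Ω).injective p
  induction hy using IntermediateField.adjoin_induction with
  | mem y hy => exact ⟨z, mem_adjoin_simple_self _ z, hz.trans (Set.mem_singleton_iff.1 hy).symm⟩
  | algebraMap c =>
    obtain ⟨c', rfl⟩ := IsAlgClosed.exists_pow_nat_eq c (Fact.out : p.Prime).pos
    exact ⟨algebraMap k Ω c', (k⟮x⟯⟮z⟯).algebraMap_mem (algebraMap k k⟮x⟯ c'),
      (map_pow _ _ _).symm⟩
  | add a b _ _ ha hb =>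
    obtain ⟨a', h1, rfl⟩ := ha
    obtain ⟨b', h2, rfl⟩ := hb
    exact ⟨a' + b', add_mem h1 h2, add_pow_char _ _ _⟩
  | inv a _ ha =>
    obtain ⟨a', h1, rfl⟩ := ha
    exact ⟨a'⁻¹, inv_mem h1, inv_pow _ _⟩
  | mul a b _ _ ha hb =>
    obtain ⟨a', h1, rfl⟩ := ha
    obtain ⟨b', h2, rfl⟩ := hb
    exact ⟨a' * b', mul_mem h1 h2, mul_pow _ _ _⟩

lemma deg_drop (p : ℕ) [Fact p.Prime] {K : Type} [Field K] [Algebra K Ω] [CharP K p] {z s : Ω}
    (hz : z ^ p ∈ (algebraMap K Ω).range) (hK : ∀ a : K, ∃ b ∈ K⟮z⟯, b ^ p = algebraMap K Ω a)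
    (hs : IsAlgebraic K s) (hns : ¬ IsSeparable K s) : z ∈ K⟮s⟯ := by
  have hp : 0 < p := (Fact.out : p.Prime).pos
  have hi := hs.isIntegral
  have : CharP K⟮z⟯ p := charP_of_injective_algebraMap (algebraMap K K⟮z⟯).injective p
  have : ExpChar K⟮z⟯ p := ExpChar.prime Fact.out
  obtain ⟨g, hg, he⟩ := ((separable_or p (minpoly.irreducible hi)).resolve_left hns).2
  obtain ⟨h, h1, h2⟩ := exists_natDegree_eq_of_mem_lifts (f := frobenius K⟮z⟯ p)
    (p := g.map (algebraMap K K⟮z⟯)) ((lifts_iff_coeff_lifts _).2 fun n => by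
      obtain ⟨b, hb, e⟩ := hK (g.coeff n)
      refine ⟨⟨b, hb⟩, Subtype.ext ?_⟩
      rw [coeff_map]
      exact e)
  have h0 : h ≠ 0 := by
    rintro rfl
    rw [Polynomial.map_zero, eq_comm, Polynomial.map_eq_zero] at h1
    exact hg.ne_zero h1
  have h3 : aeval s h = 0 := by
    refine pow_eq_zero_iff hp.ne' |>.1 ?_
    rw [← map_pow, ← map_frobenius_expand, map_expand, h1, ← map_expand, he, aeval_map_algebraMap,
      minpoly.aeval]
  obtain ⟨a, ha⟩ := hz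
  have hzi : IsIntegral K z := IsIntegral.of_pow hp (ha ▸ isIntegral_algebraMap)
  have d1 : Module.finrank K K⟮z⟯ ≤ p := by
    rw [adjoin.finrank hzi]
    have := minpoly.degree_le_of_ne_zero K z (p := X ^ p - C a) (X_pow_sub_C_ne_zero hp a)
      (by rw [map_sub, map_pow, aeval_X, aeval_C, ha, sub_self])
    have := natDegree_le_natDegree this
    rwa [natDegree_X_pow_sub_C] at this
  have d2 : Module.finrank K⟮z⟯ K⟮z⟯⟮s⟯ ≤ g.natDegree := by
    rw [adjoin.finrank hi.tower_top, ← natDegree_map (algebraMap K K⟮z⟯), ← h2]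
    exact natDegree_le_natDegree (minpoly.degree_le_of_ne_zero _ s h0 h3)
  have i1 := adjoin.finiteDimensional hzi
  have i2 := adjoin.finiteDimensional (hi.tower_top (A := K⟮z⟯))
  have i3 : FiniteDimensional K (K⟮z⟯⟮s⟯.restrictScalars K) :=
    FiniteDimensional.trans K K⟮z⟯ K⟮z⟯⟮s⟯
  have d3 : Module.finrank K (K⟮z⟯⟮s⟯.restrictScalars K) ≤ Module.finrank K K⟮s⟯ := by
    rw [adjoin.finrank hi, ← he, natDegree_expand, mul_comm]
    exact (Module.finrank_mul_finrank K K⟮z⟯ K⟮z⟯⟮s⟯).ge.trans (Nat.mul_le_mul d1 d2)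
  have hle : K⟮s⟯ ≤ K⟮z⟯⟮s⟯.restrictScalars K :=
    adjoin_simple_le_iff.2 (mem_adjoin_simple_self K⟮z⟯ s)
  rw [eq_of_le_of_finrank_le hle d3]
  exact K⟮z⟯⟮s⟯.algebraMap_mem ⟨z, mem_adjoin_simple_self K z⟩

lemma ins (p : ℕ) [Fact p.Prime] [IsAlgClosed k] [CharP k p] [IsAlgClosed Ω] {x s : Ω}
    (hs : IsAlgebraic k⟮x⟯ s) (hns : ¬ IsSeparable k⟮x⟯ s) : ∃ z ∈ k⟮x, s⟯, z ^ p = x := by
  obtain ⟨z, hz⟩ := IsAlgClosed.exists_pow_nat_eq x (Fact.out : p.Prime).pos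
  have : CharP k⟮x⟯ p := charP_of_injective_algebraMap (algebraMap k k⟮x⟯).injective p
  refine ⟨z, ?_, hz⟩
  have h : z ∈ k⟮x⟯⟮s⟯ :=
    deg_drop p ⟨⟨x, mem_adjoin_simple_self k x⟩, hz.symm⟩ (fun a => root_mem p hz a.2) hs hns
  exact (adjoin_simple_adjoin_simple k x s).le ((mem_restrictScalars k).2 h)

lemma sepu (p : ℕ) [Fact p.Prime] [IsAlgClosed k] [CharP k p] [IsAlgClosed Ω]
    {F : IntermediateField k Ω} (hF : FF F) {W : ValuationSubring Ω} {π : Ω} (hW : IsPl k W)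
    (hπ : IsUnif F W π) : FS F π := by
  obtain ⟨h1, x, -, hx⟩ := hF
  obtain ⟨p1, p2, p3, p4⟩ := hπ
  have := Bas.triv hW
  have hc : Co k π := Bas.coOf hx (Valuation.transcendental_of_ne_one k π p2 p3.ne)
  refine ⟨hc, h1, p1, fun y hy => by_contra fun hn => ?_⟩
  obtain ⟨z, hz, e⟩ := ins p (hc.alg y) hn
  have hzF : z ∈ F := (adjoin_le_iff.2 (Set.pair_subset p1 hy) : k⟮π, y⟯ ≤ F) hz
  have hp : 1 < p := (Fact.out : p.Prime).one_lt
  have hv : W.valuation z ^ p = W.valuation π := by rw [← map_pow, e]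
  have z1 : W.valuation z < 1 := by
    by_contra h
    exact not_le.2 p3 (hv ▸ one_le_pow₀ (not_lt.1 h))
  have z0 : 0 < W.valuation z := zero_lt_iff.2 fun h => by
    rw [(Valuation.zero_iff _).1 h, zero_pow (by omega)] at e
    exact p2 e.symm
  exact not_le.2 (pow_lt_self_of_lt_one₀ z0 z1 hp) (hv ▸ p4 z hzF z1)

lemma core (p : ℕ) [Fact p.Prime] [CharP k p] [IsAlgClosed Ω] {F : IntermediateField k Ω} {x : Ω}
    (hF : FS F x) {G : Type} [Group G] {ρ : Aut k Ω → G} (hρ : IsRep F.fixingSubgroup ρ)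
    (S : Finset Ω) : ∃ (H : Type) (_ : Group H) (_ : Finite H) (τ : Aut k Ω → H),
      IsRep (Gam k x) τ ∧ (∀ h, ∃ γ ∈ Gam k x, τ γ = h) ∧ ∀ γ ∈ Gam k x, τ γ = 1 →
        γ ∈ F.fixingSubgroup ∧ ρ γ = 1 ∧ ∀ s ∈ S, γ s = s := by
  classical
  have : CharP Ω p := charP_of_injective_algebraMap (algebraMap k Ω).injective p
  have : ExpChar Ω p := ExpChar.prime Fact.out
  obtain ⟨A, hA⟩ := hF.fg
  obtain ⟨B, hB⟩ := hρ.cts
  obtain ⟨L, hfd, hgal, hL⟩ := found.gal.closure p k Ω k⟮x⟯ hF.co.alg (S ∪ A ∪ B)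
  have : Algebra.IsAlgebraic k⟮x⟯ Ω := ⟨hF.co.alg⟩
  have : IsAlgClosure k⟮x⟯ Ω := ⟨inferInstance, inferInstance⟩
  let r : k⟮x⟯.fixingSubgroup →* (L ≃ₐ[k⟮x⟯] L) :=
    (AlgEquiv.restrictNormalHom L).comp (fixingSubgroupEquiv k⟮x⟯).toMonoidHom
  have hr : ∀ (g : k⟮x⟯.fixingSubgroup) (y : L), ((r g y : L) : Ω) = g.1 y := fun g y =>
    AlgEquiv.restrictNormalHom_apply L (fixingSubgroupEquiv k⟮x⟯ g) y
  rw [← fix_adjoin]
  refine ⟨L ≃ₐ[k⟮x⟯] L, inferInstance, inferInstance,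
    fun γ => if h : γ ∈ k⟮x⟯.fixingSubgroup then r ⟨γ, h⟩ else 1, ⟨fun γ hγ δ hδ => ?_, ?_⟩,
    fun h => ?_, fun γ hγ h1 => ?_⟩
  · rw [dif_pos hγ, dif_pos hδ, dif_pos (mul_mem hγ hδ), ← map_mul]
    rfl
  · let b := Module.finBasis k⟮x⟯ L
    refine ⟨Finset.univ.image fun i => (b i : Ω), fun γ hγ δ hδ e => ?_⟩
    beta_reduce
    rw [dif_pos hγ, dif_pos hδ]
    refine AlgEquiv.toLinearEquiv_injective (LinearEquiv.toLinearMap_injective
      (b.ext fun i => Subtype.ext ?_))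
    exact (hr _ _).trans ((e _ (Finset.mem_image_of_mem _ (Finset.mem_univ i))).trans
      (hr ⟨δ, hδ⟩ _).symm)
  · obtain ⟨σ, rfl⟩ := AlgEquiv.restrictNormalHom_surjective (F := k⟮x⟯) (K₁ := L) (E := Ω) h
    obtain ⟨γ, rfl⟩ := (fixingSubgroupEquiv k⟮x⟯).surjective σ
    exact ⟨γ, γ.2, dif_pos γ.2⟩
  · replace h1 : r ⟨γ, hγ⟩ = 1 := (dif_pos hγ).symm.trans h1
    have key : ∀ s ∈ S ∪ A ∪ B, γ s = s := fun s hs => by
      obtain ⟨N, hN⟩ := hL s hs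
      have h3 := hr ⟨γ, hγ⟩ ⟨_, hN⟩
      rw [h1] at h3
      exact iterateFrobenius_inj Ω p N ((map_pow γ s _).symm.trans h3.symm)
    have hfix : γ ∈ F.fixingSubgroup := by
      rw [IntermediateField.mem_fixingSubgroup_iff, ← hA]
      intro y hy
      induction hy using IntermediateField.adjoin_induction with
      | mem y hy => exact key y (by simp [Finset.mem_coe.1 hy])
      | algebraMap c => exact γ.commutes c
      | add a b _ _ ha hb => rw [map_add, ha, hb]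
      | inv a _ ha => rw [map_inv₀, ha]
      | mul a b _ _ ha hb => rw [map_mul, ha, hb]
    exact ⟨hfix, (hB γ hfix 1 (one_mem _) fun s hs => key s (by simp [hs])).trans hρ.one,
      fun s hs => key s (by simp [hs])⟩

lemma trivA [IsAlgClosed Ω] {F : IntermediateField k Ω} (hF : FF F) {G : Type} [Group G]
    {ρ : Aut k Ω → G} (hρ : IsRep F.fixingSubgroup ρ) {W W' : ValuationSubring Ω}
    (h : Agr F W W') (ht : Triv ρ (DecF F W)) : Triv ρ (DecF F W') := by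
  obtain ⟨δ, hδ, rfl⟩ := found.conj k Ω F (ff_alg hF) W W' h
  intro γ hγ
  have h1 := ht _ ((conj_mem_DecF hδ).2 hγ)
  have h2 := DecF_le _ _ hγ
  rw [hρ.mul _ (mul_mem (inv_mem hδ) h2) _ hδ, hρ.mul _ (inv_mem hδ) _ h2, hρ.inv hδ] at h1
  simpa [mul_assoc, inv_mul_eq_one] using h1

/-- a finite set contains a set of representatives for an equivalence relation -/
lemma thin {α : Type} {r : α → α → Prop} (hr : Equivalence r) (T : Finset α) :
    ∃ T' ⊆ T, (∀ a ∈ T', ∀ b ∈ T', r a b → a = b) ∧ ∀ a ∈ T, ∃ b ∈ T', r a b := by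
  classical
  induction T using Finset.induction_on with
  | empty => exact ⟨∅, subset_rfl, by simp, by simp⟩
  | insert c T _ ih =>
    obtain ⟨T', h1, h2, h3⟩ := ih
    by_cases h : ∃ b ∈ T', r c b
    · refine ⟨T', h1.trans (Finset.subset_insert _ _), h2, fun a ha => ?_⟩
      rcases Finset.mem_insert.1 ha with rfl | ha
      exacts [h, h3 a ha]
    · refine ⟨insert c T', Finset.insert_subset_insert _ h1, fun a ha b hb e => ?_, fun a ha => ?_⟩
      · rcases Finset.mem_insert.1 ha with ha' | ha' <;> rcases Finset.mem_insert.1 hb with hb' | hb'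
        exacts [ha'.trans hb'.symm, (h ⟨b, hb', ha' ▸ e⟩).elim,
          (h ⟨a, ha', hb' ▸ hr.symm e⟩).elim, h2 a ha' b hb' e]
      · rcases Finset.mem_insert.1 ha with rfl | ha
        · exact ⟨_, Finset.mem_insert_self _ _, hr.refl _⟩
        · obtain ⟨b, hb, e⟩ := h3 a ha
          exact ⟨b, Finset.mem_insert_of_mem hb, e⟩

lemma agr_equiv (F : IntermediateField k Ω) : Equivalence (Agr F) :=
  ⟨fun _ _ _ => Iff.rfl, fun h y hy => (h y hy).symm, fun h h' y hy => (h y hy).trans (h' y hy)⟩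

lemma finx (p : ℕ) [Fact p.Prime] [IsAlgClosed k] [CharP k p] [IsAlgClosed Ω]
    {F : IntermediateField k Ω} (hF : FF F) {G : Type} [Group G] {ρ : Aut k Ω → G}
    (hρ : IsRep F.fixingSubgroup ρ) :
    ∃ T : Finset (ValuationSubring Ω), (∀ V ∈ T, IsPl k V ∧ ¬ Triv ρ (DecF F V)) ∧
      (∀ V ∈ T, ∀ V' ∈ T, Agr F V V' → V = V') ∧
      ∀ W, IsPl k W → ¬ Triv ρ (DecF F W) → ∃ V ∈ T, Agr F W V := by
  classical
  obtain ⟨x₀, -, hx₀⟩ := hF.2
  obtain ⟨W₀, hW₀, -⟩ := found.bas.exInf k Ω x₀ hx₀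
  obtain ⟨x, hx⟩ := found.unif.ex k Ω F hF W₀ hW₀
  have hs := sepu p hF hW₀ hx
  obtain ⟨H, _, _, τ, t1, -, t3⟩ := core p hs hρ ∅
  obtain ⟨T₀, hT₀⟩ := found.fld.finRam p k Ω x hs.co H τ t1
  obtain ⟨A, a1, -, a2⟩ := found.unif.fin k Ω F hF x hs.mem
  choose B b1 _ b2 using fun a : k => found.unif.fin k Ω F hF (x - algebraMap k Ω a)⁻¹
    (inv_mem (sub_mem hs.mem (F.algebraMap_mem a)))
  obtain ⟨T, h1, h2, h3⟩ := thin (agr_equiv F)
    ((A ∪ T₀.biUnion B).filter fun V => ¬ Triv ρ (DecF F V))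
  refine ⟨T, fun V hV => ?_, h2, fun W hW hn => ?_⟩
  · obtain ⟨h4, h5⟩ := Finset.mem_filter.1 (h1 hV)
    refine ⟨?_, h5⟩
    rcases Finset.mem_union.1 h4 with h | h
    · exact (a1 V h).1
    · obtain ⟨a, -, h⟩ := Finset.mem_biUnion.1 h
      exact (b1 a V h).1
  · have key : ∃ V ∈ A ∪ T₀.biUnion B, Agr F W V := by
      by_cases hxW : x ∈ W
      swap
      · obtain ⟨V, h4, h5⟩ := a2 W hW hxW
        exact ⟨V, Finset.mem_union_left _ h4, h5⟩
      by_cases h : ∃ a ∈ T₀, W.valuation (x - algebraMap k Ω a) < 1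
      · obtain ⟨a, ha, h⟩ := h
        obtain ⟨V, h4, h5⟩ := b2 a W hW (((Bas.lt_one_iff W _).1 h).resolve_left
          (Bas.tr_ne (Bas.tr_sub hs.co.tr a)))
        exact ⟨V, Finset.mem_union_right _ (Finset.mem_biUnion.2 ⟨a, ha, h4⟩), h5⟩
      · refine (hn fun γ hγ => ?_).elim
        have h4 := hs.le (DecF_le _ _ hγ)
        exact (t3 γ h4 (hT₀ W hW hxW (fun a ha e => h ⟨a, ha, e⟩) γ ⟨h4, hγ.2⟩)).2.1
    obtain ⟨V, h4, h5⟩ := key
    obtain ⟨V', h6, h7⟩ := h3 V (Finset.mem_filter.2 ⟨h4, fun t =>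
      hn (trivA hF hρ ((agr_equiv F).symm h5) t)⟩)
    exact ⟨V', h6, (agr_equiv F).trans h5 h7⟩

end FB1

theorem blockFB1 : StmtFB1 where
  ins p _ _ _ _ _ _ _ _ _ _ _ h h' := FB1.ins p h h'
  sepu p _ _ _ _ _ _ _ _ _ _ hF _ _ hW hπ := FB1.sepu p hF hW hπ
  core p _ _ _ _ _ _ _ _ _ _ _ hF _ _ _ _ hρ S := FB1.core p hF hρ S
  trivA _ _ _ _ _ _ _ hF _ _ _ hρ _ _ h ht := FB1.trivA hF hρ h ht
  finx p _ _ _ _ _ _ _ _ _ _ hF _ _ _ _ hρ := FB1.finx p hF hρ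

end Pool.Agent.Lib.IW2
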