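import Pool.Agent.Lib.IW2.Blue

/-! Adjoining a root of a uniformiser is totally ramified. -/

open Polynomial IntermediateField

namespace Pool.Agent.Lib.IW2

open Pool.Agent.Lib.IW

namespace FB2

variable {k Ω : Type} [Field k] [Field Ω] [Algebra k Ω] {F : IntermediateField k Ω}
  {π q y : Ω} {M : ℕ} {W W' : ValuationSubring Ω}

lemma expand (hπ : π ∈ F) (hM : 0 < M) (hq : q ^ M = π) (hy : y ∈ F ⊔ k⟮q⟯) :
    ∃ a : ℕ → Ω, (∀ i, a i ∈ F) ∧ y = ∑ i ∈ Finset.range M, a i * q ^ i := by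
  have hm : (X ^ M - C (⟨π, hπ⟩ : F)).Monic := monic_X_pow_sub_C _ hM.ne'
  have h0 : aeval q (X ^ M - C (⟨π, hπ⟩ : F)) = 0 := by simp [hq]
  rw [← restrictScalars_adjoin_eq_sup, mem_restrictScalars, ← mem_toSubalgebra,
    adjoin_simple_toSubalgebra_of_isAlgebraic ⟨_, hm.ne_zero, h0⟩,
    Algebra.adjoin_singleton_eq_range_aeval] at hy
  obtain ⟨P, rfl⟩ := hy
  have hd : (P %ₘ (X ^ M - C (⟨π, hπ⟩ : F))).natDegree < M := by
    have := natDegree_modByMonic_lt P hm fun e => by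
      have := congrArg natDegree e
      rw [natDegree_X_pow_sub_C, natDegree_one] at this
      omega
    rwa [natDegree_X_pow_sub_C] at this
  refine ⟨fun i => (P %ₘ (X ^ M - C (⟨π, hπ⟩ : F))).coeff i, fun i => Subtype.property _, ?_⟩
  change aeval q P = _
  rw [← aeval_modByMonic_eq_self_of_root (p := P) h0, aeval_eq_sum_range' hd]
  exact Finset.sum_congr rfl fun i _ => Algebra.smul_def _ _

lemma unif_agr (h : IsUnif F W π) (ha : Agr F W' W) : IsUnif F W' π := by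
  have lt : ∀ y ∈ F, y ≠ 0 → (W'.valuation y < 1 ↔ W.valuation y < 1) := fun y hy h0 => by
    rw [← not_le, ← not_le, ← inv_le_one₀ (by simpa [pos_iff_ne_zero] using h0),
      ← inv_le_one₀ (by simpa [pos_iff_ne_zero] using h0), ← map_inv₀, ← map_inv₀,
      W.valuation_le_one_iff, W'.valuation_le_one_iff, ha _ (inv_mem hy)]
  obtain ⟨h1, h2, h3, h4⟩ := h
  refine ⟨h1, h2, (lt π h1 h2).2 h3, fun y hy e => ?_⟩
  rcases eq_or_ne y 0 with rfl | h0
  · simp
  have := h4 y hy ((lt y hy h0).1 e)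
  rw [← div_le_one₀ (by simpa [pos_iff_ne_zero] using h2), ← map_div₀,
    ValuationSubring.valuation_le_one_iff] at this ⊢
  exact (ha _ (div_mem hy h1)).2 this

/-- the value of a sum is the value of its largest term -/
lemma top {s : Finset ℕ} {t : ℕ → Ω} (hs : s.Nonempty)
    (h : ∀ i ∈ s, ∀ j ∈ s, t j ≠ 0 → W.valuation (t i) = W.valuation (t j) → i = j) :
    ∃ j ∈ s, W.valuation (∑ i ∈ s, t i) = W.valuation (t j) ∧
      ∀ i ∈ s, W.valuation (t i) ≤ W.valuation (t j) := by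
  obtain ⟨j, hj, e⟩ := s.exists_max_image (fun i => W.valuation (t i)) hs
  refine ⟨j, hj, ?_, e⟩
  rcases eq_or_ne (t j) 0 with h0 | h0
  · rw [Finset.sum_eq_zero fun i hi => by simpa [h0] using e i hi, h0]
  · refine W.valuation.map_sum_eq_of_lt hj fun i hi => ?_
    obtain ⟨h1, h2⟩ := Finset.mem_sdiff.1 hi
    exact (e i h1).lt_of_ne fun e' => h2 (Finset.mem_singleton.2 (h i h1 j hj h0 e'))

variable [IsAlgClosed k]

lemma key (hF : FF F) (hW : IsPl k W) (h : IsUnif F W π) (hM : 0 < M) (hq : q ^ M = π) :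
    (q ≠ 0 ∧ W.valuation q < 1) ∧ ∀ a : ℕ → Ω, (∀ i, a i ∈ F) →
      (∑ i ∈ Finset.range M, a i * q ^ i ∈ W ↔ ∀ i < M, a i ∈ W) ∧
      (W.valuation (∑ i ∈ Finset.range M, a i * q ^ i) < 1 →
        W.valuation (∑ i ∈ Finset.range M, a i * q ^ i) ≤ W.valuation q) := by
  have q0 : q ≠ 0 := by rintro rfl; exact h.2.1 (by rw [← hq, zero_pow hM.ne'])
  have q1 : W.valuation q < 1 := by
    have := h.2.2.1
    rwa [← hq, map_pow, pow_lt_one_iff hM.ne'] at this
  have q2 : 0 < W.valuation q := by simpa [pos_iff_ne_zero] using q0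
  refine ⟨⟨q0, q1⟩, fun a ha => ?_⟩
  have val : ∀ i, a i ≠ 0 → ∃ n : ℤ, W.valuation (a i) = W.valuation q ^ (M * n) ∧
      W.valuation (a i * q ^ i) = W.valuation q ^ (M * n + i) := fun i h0 => by
    obtain ⟨n, e⟩ := found.unif.val k Ω F hF W hW π h _ (ha i) h0
    rw [← hq, map_pow, ← zpow_natCast, ← zpow_mul] at e
    exact ⟨n, e, by rw [map_mul, e, map_pow, zpow_add₀ q2.ne', zpow_natCast]⟩
  obtain ⟨j, hj, e1, e2⟩ := top (W := W) (t := fun i => a i * q ^ i)
    (Finset.nonempty_range_iff.2 hM.ne') fun i hi j hj h0 e => by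
      have h1 : a i * q ^ i ≠ 0 := fun e' => h0 (by simpa [e'] using e.symm)
      obtain ⟨n, -, e1⟩ := val i (left_ne_zero_of_mul h1)
      obtain ⟨m, -, e2⟩ := val j (left_ne_zero_of_mul h0)
      rw [e1, e2, zpow_right_inj₀ q2 q1.ne] at e
      have := congrArg (· % (M : ℤ)) e
      simp only [Int.mul_add_emod_self_left] at this
      rw [Int.emod_eq_of_lt (by omega) (by exact_mod_cast Finset.mem_range.1 hi),
        Int.emod_eq_of_lt (by omega) (by exact_mod_cast Finset.mem_range.1 hj)] at this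
      exact_mod_cast this
  refine ⟨⟨fun e i hi => ?_, fun e => sum_mem fun i hi => mul_mem (e i (Finset.mem_range.1 hi))
    (pow_mem ((W.valuation_le_one_iff q).1 q1.le) i)⟩, fun e => ?_⟩
  · rcases eq_or_ne (a i) 0 with h0 | h0
    · exact h0 ▸ zero_mem W
    obtain ⟨n, e3, e4⟩ := val i h0
    have := (e2 i (Finset.mem_range.2 hi)).trans (e1 ▸ (W.valuation_le_one_iff _).2 e)
    rw [e4, zpow_le_one_iff_right_of_lt_one₀ q2 q1] at this
    rw [← W.valuation_le_one_iff, e3, zpow_le_one_iff_right_of_lt_one₀ q2 q1]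
    have h1 : (i : ℤ) < M := by exact_mod_cast hi
    exact mul_nonneg (by omega) (by by_contra h2; nlinarith)
  · rw [e1] at e ⊢
    rcases eq_or_ne (a j) 0 with h0 | h0
    · simp [h0]
    obtain ⟨n, -, e4⟩ := val j h0
    rw [e4] at e ⊢
    rw [zpow_lt_one_iff_right_of_lt_one₀ q2 q1] at e
    simpa using zpow_le_zpow_right_of_le_one₀ q2 q1.le (show 1 ≤ (M : ℤ) * n + j by omega)

end FB2

open FB2 in
theorem blockFB2 : StmtFB2 := by
  intro k Ω _ _ _ _ _ F hF W π q M hW h hM hq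
  obtain ⟨⟨q0, q1⟩, K⟩ := key hF hW h hM hq
  refine ⟨⟨fg_sup hF.1 (fg_adjoin_of_finite (Set.finite_singleton q)),
    hF.2.imp fun x hx => ⟨le_sup_left (a := F) hx.1, hx.2⟩⟩,
    ⟨le_sup_right (a := F) (mem_adjoin_simple_self k q), q0, q1, fun y hy => ?_⟩,
    fun W' hW' ha y hy => ?_⟩ <;> obtain ⟨a, h1, rfl⟩ := expand h.1 hM hq hy
  · exact (K a h1).2
  · rw [(K a h1).1, ((key hF hW' (unif_agr h ha) hM hq).2 a h1).1]
    exact forall₂_congr fun i _ => ha _ (h1 i)

end Pool.Agent.Lib.IW2
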