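import Pool.Agent.Lib.IW2.Blue

/-! Two homomorphisms that agree on invariants differ by a translation. -/

namespace Pool.Agent.Lib.IW2

open Pool.Agent.Lib.IW Matrix

theorem blockHOM : StmtHOM := by
  intro k Ω E _ _ _ _ _ F hF G _ _ _ ρ R ⟨X, X', hA, hR, hX⟩ φ φ' hφ
  let Y : Matrix G G R := .of fun g i => ⟨X g i, (hR g i).1⟩
  let Y' : Matrix G G R := .of fun i g => ⟨X' i g, (hR g i).2⟩
  have e1 : Y * Y' = 1 := by
    ext g h
    have := congrFun (congrFun hX g) h
    simp only [mul_apply, one_apply] at this ⊢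
    push_cast
    rw [apply_ite (Subtype.val : R → Ω)]
    exact this
  have m1 : ∀ ψ : R →+* E, Y.map ψ * Y'.map ψ = 1 := fun ψ => by
    rw [← Matrix.map_mul, e1, Matrix.map_one _ (map_zero ψ) (map_one ψ)]
  refine ⟨?_, fun h h' H => ?_⟩
  swap
  · by_contra ne
    have a := congrFun (congrFun (m1 φ) h) h
    have b := congrFun (congrFun (m1 φ) h') h
    simp only [mul_apply, map_apply, one_apply_eq, one_apply_ne (Ne.symm ne)] at a b
    rw [Finset.sum_congr rfl fun i _ => by rw [H (fun g => Y g i) (hA i).1]] at a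
    exact one_ne_zero (a.symm.trans b)
  -- conjugation of diagonal matrices by the comparison matrix
  have key : ∀ f : G → R, Alg F ρ (fun g => f g) →
      diagonal (fun g => φ (f g)) * (Y.map φ * Y'.map φ') =
        Y.map φ * Y'.map φ' * diagonal fun g => φ' (f g) := fun f hf => by
    have hm : (Y' * diagonal f * Y).map φ = (Y' * diagonal f * Y).map φ' := by
      ext j i
      refine hφ _ ?_
      have := (((hA j).2.mul hf).mul (hA i).1).tr_mem hF
      simpa [mul_apply, diagonal, Y, Y'] using this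
    have d : ∀ ψ : R →+* E, (diagonal f).map ψ = diagonal fun g => ψ (f g) := fun ψ =>
      diagonal_map (map_zero ψ)
    rw [Matrix.map_mul, Matrix.map_mul, Matrix.map_mul, Matrix.map_mul, d, d] at hm
    calc _ = (Y.map φ * Y'.map φ) * diagonal (fun g => φ (f g)) * (Y.map φ * Y'.map φ') := by
          rw [m1, one_mul]
      _ = Y.map φ * (Y'.map φ * diagonal (fun g => φ (f g)) * Y.map φ) * Y'.map φ' := by
          simp only [Matrix.mul_assoc]
      _ = Y.map φ * Y'.map φ' * diagonal (fun g => φ' (f g)) * (Y.map φ' * Y'.map φ') := by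
          rw [hm]; simp only [Matrix.mul_assoc]
      _ = _ := by rw [m1, mul_one]
  have inv : Y.map φ' * Y'.map φ * (Y.map φ * Y'.map φ') = 1 := by
    rw [Matrix.mul_assoc, ← Matrix.mul_assoc (Y'.map φ), mul_eq_one_comm.1 (m1 φ), one_mul, m1]
  obtain ⟨h, hh⟩ : ∃ h, (Y.map φ * Y'.map φ') h 1 ≠ 0 := by
    by_contra! c
    have := congrFun (congrFun inv 1) 1
    rw [mul_apply] at this
    simp [c] at this
  refine ⟨h, fun f hf g => ?_⟩
  have := congrFun (congrFun (key (fun x => f (x * g)) (hf.shift g)) h) 1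
  rw [diagonal_mul, mul_diagonal, one_mul, mul_comm] at this
  exact (mul_left_cancel₀ hh this).symm

end Pool.Agent.Lib.IW2
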