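import Pool.Agent.Lib.IW2.Blue

/-! Tame covers of the multiplicative group are Kummer covers. -/

open Polynomial IntermediateField
open scoped Pointwise

namespace Pool.Agent.Lib.IW2

open Pool.Agent.Lib.IW

namespace KUMG

theorem one (hS : StmtSC) (p : ℕ) [Fact p.Prime] (k Ω : Type) [Field k] [IsAlgClosed k] [CharP k p]
    [Field Ω] [IsAlgClosed Ω] [Algebra k Ω] (x q : Ω) (M : ℕ) (hx : Co k x) (hM : ¬ p ∣ M)
    (hq : q ^ M = x) (G : Type) [Group G] [Finite G] (ρ : Aut k Ω → G) (hρ : IsRep (Gam k x) ρ)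
    (hu : UnrG x ρ) (V₀ : ValuationSubring Ω) (h0 : IsPl k V₀) (h1 : V₀.valuation x < 1)
    (h2 : ∀ γ ∈ Dec k x V₀, γ q = q → ρ γ = 1) : Unr q ρ ∧
      ∀ V : ValuationSubring Ω, IsPl k V → x ∉ V → Tame p ρ (Dec k x V) → Triv ρ (Gam k q) := by
  have hc := co_of_pow found.bas hx hq
  have hr := hρ.mono (Gam_le_of_pow hq)
  have U : Unr q ρ := by
    intro W hW hqW γ hγ
    rcases ((W.valuation_le_one_iff q).2 hqW).eq_or_lt with e | e
    · exact hu W hW (by rw [← hq, map_pow, e, one_pow]) γ (Dec_le_of_pow hq W hγ)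
    · have e0 : V₀.valuation q < 1 := by
        by_contra c
        rw [← hq, map_pow] at h1
        exact absurd (one_le_pow₀ (not_lt.1 c)) (not_le.2 h1)
      obtain ⟨δ, d1, rfl⟩ := conj_at found.conj found.bas hc (a := 0) h0 hW (by simpa using e0)
        (by simpa using e)
      exact hr.triv_smul (fun γ hγ => h2 γ (Dec_le_of_pow hq _ hγ) hγ.1) d1 γ hγ
  exact ⟨U, fun V hV hxV hT => hS p k Ω q hc G ρ hr U V hV
    (fun h => hxV (hq ▸ pow_mem h M)) fun γ hγ => hT γ (Dec_le_of_pow hq V hγ)⟩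

end KUMG

theorem blockKUMG (hL : StmtLOC) (hS : StmtSC) : StmtKUMG where
  one := KUMG.one hS
  two p _ k Ω _ _ _ _ _ _ x q M ω hx hM hq hω G _ _ ρ hρ hu hG := by
    obtain ⟨V₀, h0, h1⟩ := found.bas.exAt k Ω x hx 0
    have hπ := found.bas.unifAt k Ω x hx.tr 0 V₀ h0 h1
    rw [map_zero, sub_zero] at hπ h1
    obtain ⟨τ, t1, t2, P, hP, -, -, hQ⟩ := hL.str p k Ω k⟮x⟯ hx.ff V₀ x q M ω h0 hπ hM (Or.inl hq)
      hω G ρ (by rw [DecF_adjoin]; exact hρ.mono (Dec_le _ _)) fun g => ⟨0, by simp [hG]⟩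
    rw [DecF_adjoin] at t1 hQ
    have P1 : ∀ a ∈ P, a = 1 := fun a ha => by
      obtain ⟨j, hj⟩ := hP ⟨a, ha⟩
      have e : a ^ p ^ j = 1 := by simpa using congrArg Subtype.val hj
      have c : (p ^ j).Coprime M :=
        ((Nat.Prime.coprime_iff_not_dvd Fact.out).2 hM).pow_left j
      exact orderOf_eq_one_iff.1 (Nat.eq_one_of_dvd_coprimes c (orderOf_dvd_of_pow_eq_one e)
        (orderOf_dvd_of_pow_eq_one (hG a)))
    obtain ⟨V, hV, hxV⟩ := found.bas.exInf k Ω x hx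
    have T := (KUMG.one hS p k Ω x q M hx hM hq G ρ hρ hu V₀ h0 h1 fun γ hγ e => by
      simpa using P1 _ (hQ γ hγ 0 (by simpa using e))).2 V hV hxV fun γ _ => ⟨M, hM, hG _⟩
    refine ⟨ρ τ, fun γ hγ i e => ?_⟩
    have t3 : (τ ^ i) q = algebraMap k Ω ω ^ i * q := by
      clear e
      induction i with
      | zero => simp
      | succ i ih =>
        rw [pow_succ, AlgEquiv.mul_apply, t2, map_mul, AlgEquiv.commutes, ih]; ring
    have t4 := pow_mem t1.1 i
    have := T ((τ ^ i)⁻¹ * γ) (by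
      rw [mem_Gam, AlgEquiv.mul_apply, e, ← t3]; exact (τ ^ i).symm_apply_apply q)
    rw [hρ.mul _ (inv_mem t4) _ hγ, hρ.inv t4, hρ.pow t1.1, inv_mul_eq_one] at this
    exact this.symm

end Pool.Agent.Lib.IW2
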