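import Pool.Agent.Lib.IW2.Blue

/-! An orthonormal basis of a lattice on a residue disc. -/

open Polynomial IntermediateField
open scoped Pointwise

namespace Pool.Agent.Lib.IW2

open Pool.Agent.Lib.IW

namespace LAT

section field
variable {K : Type} [Field K]

lemma unit_of (O : ValuationSubring K) {x y : K} (hx : x ∈ O) (hy : y ∈ O) (h : x * y = 1) :
    O.valuation x = 1 := by
  refine le_antisymm ((O.valuation_le_one_iff x).2 hx) ?_
  calc 1 = O.valuation x * O.valuation y := by rw [← map_mul, h, map_one]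
    _ ≤ O.valuation x * 1 := mul_le_mul_right ((O.valuation_le_one_iff y).2 hy) _
    _ = _ := mul_one _

lemma mem_of_val (O : ValuationSubring K) {x : K} (h : O.valuation x = 1) : x ∈ O :=
  (O.valuation_le_one_iff x).1 h.le

lemma ne_of_val (O : ValuationSubring K) {x : K} (h : O.valuation x = 1) : x ≠ 0 := by
  rintro rfl
  simp at h

variable {J : Type} [Fintype J] [DecidableEq J]

lemma det_mem (O : ValuationSubring K) {X : Matrix J J K} (h : ∀ g i, X g i ∈ O) : X.det ∈ O := by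
  rw [Matrix.det_apply']
  exact sum_mem fun σ _ => mul_mem (intCast_mem O _) (prod_mem fun i _ => h _ _)

lemma det_pole [IsAlgClosed K] (W : ValuationSubring K) {X : Matrix J J K} (t : K) {a b : ℕ}
    (ha : 0 < a) (h : ∀ g i, X g i ^ a * t ^ b ∈ W) :
    X.det ^ a * t ^ (b * Fintype.card J) ∈ W := by
  obtain ⟨r, hr⟩ := IsAlgClosed.exists_pow_nat_eq (t ^ b) ha
  have h1 : (r • X).det ∈ W := det_mem W fun g i => by
    have := (W.valuation_le_one_iff _).2 (h g i)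
    rw [← hr, ← mul_pow, map_pow, pow_le_one_iff ha.ne', W.valuation_le_one_iff, mul_comm] at this
    exact this
  have h2 := pow_mem h1 a
  rwa [Matrix.det_smul, mul_pow, ← pow_mul, mul_comm _ a, pow_mul, hr, ← pow_mul, mul_comm] at h2

end field

section den
variable {𝕜 Ω' : Type} [Field 𝕜] [Field Ω'] [Algebra 𝕜 Ω']

lemma val_const {W : ValuationSubring Ω'} (hW : IsPl 𝕜 W) {c : 𝕜} (hc : c ≠ 0) :
    W.valuation (algebraMap 𝕜 Ω' c) = 1 :=
  unit_of W (hW.2 c) (hW.2 c⁻¹) (by rw [← map_mul, mul_inv_cancel₀ hc, map_one])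

open scoped IntermediateField.algebraAdjoinAdjoin in
/-- denominators that are units at the point of good reduction -/
lemma den [IsAlgClosed 𝕜] {σ : Ω'} (hσ : Co 𝕜 σ) {O : ValuationSubring Ω'}
    (hO : O.valuation σ = 1) {E : IntermediateField 𝕜 Ω'} (hE : σ ∈ E)
    {P : ValuationSubring Ω' → Prop} (hP : ∀ W, P W → IsPl 𝕜 W ∧
      ∃ a : 𝕜, O.valuation (algebraMap 𝕜 Ω' a) < 1 ∧ W.valuation (σ - algebraMap 𝕜 Ω' a) < 1)
    (s : Ω') : ∃ q ∈ E, O.valuation q = 1 ∧ ∀ W, P W → q ∈ W ∧ q * s ∈ W := by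
  have hm : ∀ W, P W → σ ∈ W := fun W hW => by
    obtain ⟨h1, a, -, h2⟩ := hP W hW
    simpa using add_mem ((W.valuation_le_one_iff _).1 h2.le) (h1.2 a)
  have key : ∀ M : Multiset 𝕜, ∃ q ∈ E, O.valuation q = 1 ∧ ∀ W, P W → q ∈ W ∧
      W.valuation q = W.valuation (aeval σ (M.map (X - C ·)).prod) := fun M => by
    induction M using Multiset.induction_on with
    | empty => exact ⟨1, one_mem _, map_one _, fun W _ => ⟨one_mem _, by simp⟩⟩
    | cons α M ih =>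
      obtain ⟨q, h1, h2, h3⟩ := ih
      by_cases hα : O.valuation (algebraMap 𝕜 Ω' α) < 1
      · refine ⟨(σ - algebraMap 𝕜 Ω' α) * q, mul_mem (sub_mem hE (E.algebraMap_mem α)) h1, ?_,
          fun W hW => ⟨mul_mem (sub_mem (hm W hW) ((hP W hW).1.2 α)) (h3 W hW).1, ?_⟩⟩
        · rw [map_mul, h2, Valuation.map_sub_eq_of_lt_left _ (hO ▸ hα), hO, mul_one]
        · simp [(h3 W hW).2]
      · refine ⟨q, h1, h2, fun W hW => ⟨(h3 W hW).1, ?_⟩⟩
        obtain ⟨p1, a, p2, p3⟩ := hP W hW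
        have ne : a - α ≠ 0 := sub_ne_zero.2 fun e => hα (e ▸ p2)
        have e : W.valuation (σ - algebraMap 𝕜 Ω' α) = 1 := by
          have : σ - algebraMap 𝕜 Ω' α =
              algebraMap 𝕜 Ω' (a - α) + (σ - algebraMap 𝕜 Ω' a) := by rw [map_sub]; ring
          rw [this, Valuation.map_add_eq_of_lt_left _ (by rwa [val_const p1 ne]), val_const p1 ne]
        simp [(h3 W hW).2, e]
  have ha : IsAlgebraic (Algebra.adjoin 𝕜 {σ}) s :=
    (IsFractionRing.isAlgebraic_iff (Algebra.adjoin 𝕜 {σ}) 𝕜⟮σ⟯ Ω').2 (hσ.alg _)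
  obtain ⟨b, hb0, hb⟩ := ha.exists_integral_multiple
  have hi := (found.bas.intg 𝕜 Ω' σ _).2 hb
  obtain ⟨Q, hQ⟩ : ∃ Q : 𝕜[X], aeval σ Q = (b : Ω') :=
    (Algebra.adjoin_singleton_eq_range_aeval 𝕜 σ).le b.2
  have Q0 : Q ≠ 0 := fun e => hb0 (Subtype.ext (by rw [← hQ, e, map_zero]; rfl))
  obtain ⟨q, h1, h2, h3⟩ := key Q.roots
  refine ⟨q, h1, h2, fun W hW => ⟨(h3 W hW).1, ?_⟩⟩
  have h4 : (b : Ω') * s ∈ W := hi W (hP W hW).1 (hm W hW)
  rw [← W.valuation_le_one_iff, map_mul] at h4 ⊢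
  rwa [← hQ, (IsAlgClosed.splits Q).eq_prod_roots, map_mul, map_mul, aeval_C,
    val_const (hP W hW).1 (leadingCoeff_ne_zero.2 Q0), one_mul, ← (h3 W hW).2] at h4

end den

end LAT

open LAT in
theorem blockLAT (hSH2 : StmtSH2) (hRX : StmtRX) (hV : StmtVAND) (hOR : StmtORTH)
    (hD : StmtDISC) (hM : StmtMAX) : StmtLAT := by
  intro p _ k 𝕜 Ω Ω' _ _ _ _ _ _ _ _ _ _ _ _ _ _ ι O hR F u hF hc V hV0 hu G _ _ _ ρ hC a b ha
  have hE := hRX.extf k 𝕜 Ω Ω' ι F u hF hc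
  have unit : ∀ s : Ω, s ≠ 0 → O.valuation (ι s) = 1 := fun s hs =>
    unit_of O (hR.mem s) (hR.mem s⁻¹) (by rw [← map_mul, mul_inv_cancel₀ hs, map_one])
  have u1 := unit u hu.2.1
  have hk : ∀ c : k, algebraMap k Ω' c ∈ O := fun c => by
    rw [← ι.commutes]; exact hR.mem _
  obtain ⟨-, d2, -⟩ := hD p k 𝕜 Ω Ω' ι O hk F u hF hc V hV0 hu
  obtain ⟨m1, -, -, m4, -⟩ := hM p k 𝕜 Ω Ω' ι O hR F u hF hc V hV0 hu
  obtain ⟨U, U1, U2⟩ := hSH2.cmpRed k 𝕜 Ω Ω' ι O hR V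
  have cen := m4 U U1 U2
  have t1 : U.valuation (ι u) < 1 := cen.2 u hF.mem hu.2.2.1
  have t0 : ι u ≠ 0 := ne_of_val O u1
  have tp : 0 < U.valuation (ι u) := (Valuation.pos_iff _).2 t0
  let S : ℤ → Prop := fun n => ∃ X : Matrix G G Ω', ((∀ i, Alg (Ext 𝕜 ι F) ρ fun g => X g i) ∧
    (∀ g i, X g i ∈ O) ∧ O.valuation X.det = 1 ∧
    ∀ g i W, In 𝕜 ι O F V W → X g i ^ a * ι u ^ b ∈ W) ∧
    U.valuation (X.det ^ 2) = U.valuation (ι u) ^ n
  have bdd : ∃ B : ℤ, ∀ n, S n → B ≤ n := by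
    refine ⟨-(2 * (b * Fintype.card G : ℕ)), ?_⟩
    rintro n ⟨X, ⟨x1, x2, -, x4⟩, x5⟩
    have e : (X.det ^ 2) ^ a * ι u ^ (2 * (b * Fintype.card G)) =
        (X.det ^ a * ι u ^ (b * Fintype.card G)) ^ 2 := by ring
    have h1 : (X.det ^ 2) ^ a * ι u ^ (2 * (b * Fintype.card G)) ∈ U :=
      m1 _ (mul_mem (pow_mem (hV.det2 𝕜 Ω' _ hE.alg G ρ X x1) a) (pow_mem hE.mem _))
        ⟨mul_mem (pow_mem (pow_mem (det_mem O x2) 2) a) (pow_mem (hR.mem u) _),
          fun W hW => e ▸ pow_mem (det_pole W _ ha fun g i => x4 g i W hW) 2⟩ U cen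
    rw [← U.valuation_le_one_iff, map_mul, map_pow, x5, map_pow, ← zpow_natCast, ← zpow_natCast,
      ← zpow_mul, ← zpow_add₀ tp.ne', zpow_le_one_iff_right_of_lt_one₀ tp t1] at h1
    push_cast at h1 ⊢
    by_contra hn
    have : (0 : ℤ) ≤ b * Fintype.card G := by positivity
    have : (1 : ℤ) ≤ a := by exact_mod_cast ha
    nlinarith
  have ne : ∃ n, S n := by
    obtain ⟨X, X', c1, c2, c3⟩ := hC
    have dX : O.valuation X.det = 1 := unit_of O (det_mem O fun g i => (c2 g i).1)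
      (det_mem O fun i g => (c2 g i).2) (by rw [← Matrix.det_mul, c3, Matrix.det_one])
    have hP : ∀ W, In 𝕜 ι O F V W → IsPl 𝕜 W ∧ ∃ a : 𝕜, O.valuation (algebraMap 𝕜 Ω' a) < 1 ∧
        W.valuation (ι u - algebraMap 𝕜 Ω' a) < 1 := fun W hW =>
      let ⟨a, h1, h2⟩ := (d2 W hW).2; ⟨hW.1, a, h1, h2.2.2.1⟩
    have hm : ∀ W, In 𝕜 ι O F V W → ι u ∈ W := fun W hW => by
      obtain ⟨h1, a, -, h2⟩ := hP W hW
      simpa using add_mem ((W.valuation_le_one_iff _).1 h2.le) (h1.2 a)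
    choose q q1 q2 q3 using fun x : G × G => den hc u1 hE.mem hP (X x.1 x.2)
    have Q1 : ∏ x, q x ∈ Ext 𝕜 ι F := prod_mem fun x _ => q1 x
    have Q2 : O.valuation (∏ x, q x) = 1 := by simp [map_prod, q2]
    have y1 : ∀ i, Alg (Ext 𝕜 ι F) ρ fun g => ((∏ x, q x) • X) g i := fun i =>
      (Alg.const Q1).mul (c1 i).1
    have y2 : ∀ g i, ((∏ x, q x) • X) g i ∈ O := fun g i => mul_mem (mem_of_val O Q2) (c2 g i).1
    have y3 : O.valuation ((∏ x, q x) • X).det = 1 := by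
      rw [Matrix.det_smul, map_mul, map_pow, Q2, dX, one_pow, mul_one]
    have y4 : ∀ g i W, In 𝕜 ι O F V W → ((∏ x, q x) • X) g i ^ a * ι u ^ b ∈ W := by
      intro g i W hW
      refine mul_mem (pow_mem ?_ a) (pow_mem (hm W hW) b)
      rw [Matrix.smul_apply, smul_eq_mul, ← Finset.prod_erase_mul _ _ (Finset.mem_univ (g, i)),
        mul_assoc]
      exact mul_mem (prod_mem fun x _ => (q3 x W hW).1) (q3 (g, i) W hW).2
    set D := ((∏ x, q x) • X).det ^ 2 with hD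
    have D1 : O.valuation D = 1 := by rw [hD, map_pow, y3, one_pow]
    obtain ⟨d, hd⟩ := hR.res D (mem_of_val O D1)
    have dF := hOR.resf k 𝕜 Ω Ω' ι O hR F u hF D (hV.det2 𝕜 Ω' _ hE.alg G ρ _ y1) d hd
    have d0 : d ≠ 0 := by
      rintro rfl
      simp [Rd, D1] at hd
    obtain ⟨n, hn⟩ := found.unif.val k Ω F hF.ff V hV0 u hu d dF d0
    have un : u ^ n ≠ 0 := zpow_ne_zero n hu.2.1
    have v1 : V.valuation (d / u ^ n) = 1 := by
      rw [map_div₀, map_zpow₀, hn, div_self (zpow_ne_zero n ((Valuation.ne_zero_iff _).2 hu.2.1))]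
    have r1 : Rd ι O (D / ι u ^ n) (d / u ^ n) := by
      rw [Rd, map_div₀, map_zpow₀, ← sub_div, map_div₀, map_zpow₀, u1, one_zpow, div_one]
      exact hd
    have v2 : U.valuation (D / ι u ^ n) = 1 := by
      refine le_antisymm ((U.valuation_le_one_iff _).2 ((U1 _).2 ⟨_, mem_of_val V v1, r1⟩)) ?_
      by_contra hlt
      obtain ⟨s, s1, s2⟩ := (U2 _).1 (not_le.1 hlt)
      rw [hOR.uniq₀ k Ω Ω' ι O hR.mem _ _ _ s2 r1, v1] at s1
      exact lt_irrefl _ s1
    refine ⟨n, _, ⟨y1, y2, y3, y4⟩, ?_⟩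
    rwa [map_div₀, map_zpow₀, div_eq_one_iff_eq (zpow_ne_zero n tp.ne')] at v2
  obtain ⟨n, ⟨X, ⟨x1, x2, x3, x4⟩, x5⟩, hmin⟩ := Int.exists_least_of_bdd bdd ne
  refine ⟨X, x1, x2, x3, x4, fun c e he hc' => ?_⟩
  by_contra c0
  obtain ⟨m, -, hm⟩ := Finset.exists_max_image Finset.univ
    (fun i => O.valuation (algebraMap 𝕜 Ω' (c i))) ⟨1, Finset.mem_univ _⟩
  have cm : c m ≠ 0 := fun h => c0 (funext fun i => by
    have := hm i (Finset.mem_univ i)
    simpa [h] using this)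
  have cm' : algebraMap 𝕜 Ω' (c m) ≠ 0 := by simpa using cm
  have w1 : O.valuation (ι u - algebraMap 𝕜 Ω' e) = 1 := by
    rw [Valuation.map_sub_eq_of_lt_left _ (u1 ▸ he), u1]
  have w0 := ne_of_val O w1
  have w2 : U.valuation (ι u - algebraMap 𝕜 Ω' e) = U.valuation (ι u) := by
    refine Valuation.map_sub_eq_of_lt_left _ ?_
    have : U.valuation (algebraMap 𝕜 Ω' e / ι u) < 1 :=
      (U2 _).2 ⟨0, by simp, by simpa [Rd, u1] using he⟩
    rwa [map_div₀, div_lt_one₀ tp] at this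
  let l : G → Ω' := fun i => algebraMap 𝕜 Ω' (c i / c m) / (ι u - algebraMap 𝕜 Ω' e)
  have l1 : ∀ i, l i ∈ Ext 𝕜 ι F := fun i =>
    div_mem (IntermediateField.algebraMap_mem _ _) (sub_mem hE.mem (IntermediateField.algebraMap_mem _ _))
  have l2 : ∀ i, l i ∈ O := fun i => by
    rw [← O.valuation_le_one_iff, map_div₀, w1, div_one, map_div₀, map_div₀,
      div_le_one₀ ((Valuation.pos_iff _).2 cm')]
    exact hm i (Finset.mem_univ i)
  have hS : S (n - 2) := by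
    refine ⟨X.updateCol m fun g => ∑ i, l i • X g i, ⟨fun i => ?_, fun g i => ?_, ?_,
      fun g i W hW => ?_⟩, ?_⟩
    · by_cases h : i = m
      · simp only [h, Matrix.updateCol_self]
        exact Alg.sum _ fun j _ => (Alg.const (l1 j)).mul (x1 j)
      · simp only [Matrix.updateCol_ne h]
        exact x1 i
    · by_cases h : i = m
      · rw [h, Matrix.updateCol_self]
        exact sum_mem fun j _ => mul_mem (l2 j) (x2 g j)
      · rw [Matrix.updateCol_ne h]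
        exact x2 g i
    · rw [Matrix.det_updateCol_sum, smul_eq_mul, map_mul, x3, map_div₀, w1, div_self cm]
      simp
    · by_cases h : i = m
      · rw [h, Matrix.updateCol_self]
        have e1 : ∑ i, l i • X g i = algebraMap 𝕜 Ω' (c m)⁻¹ *
            ((∑ i, algebraMap 𝕜 Ω' (c i) * X g i) / (ι u - algebraMap 𝕜 Ω' e)) := by
          rw [Finset.sum_div, Finset.mul_sum]
          refine Finset.sum_congr rfl fun j _ => ?_
          simp only [l, smul_eq_mul, map_div₀, map_inv₀]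
          ring
        rw [e1, mul_pow, mul_assoc]
        exact mul_mem (pow_mem (hW.1.2 _) a) (hc' g W hW)
      · rw [Matrix.updateCol_ne h]
        exact x4 g i W hW
    · rw [Matrix.det_updateCol_sum, smul_eq_mul, mul_pow, map_mul, x5, map_pow, map_div₀, w2,
        div_self cm, map_one, map_one, zpow_sub₀ tp.ne', div_pow, one_pow, one_div,
        div_eq_inv_mul]
      rfl
  have := hmin _ hS
  omega

end Pool.Agent.Lib.IW2
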