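import Pool.Agent.Lib.IW2.Blue

/-! Local structure of representations; Kummer and Artin-Schreier representations. -/

open Polynomial IntermediateField
open scoped Pointwise

namespace Pool.Agent.Lib.IW2

open Pool.Agent.Lib.IW

namespace LOC

variable {k Ω : Type} [Field k] [Field Ω] [Algebra k Ω] {q : Ω} {M : ℕ} {γ δ : Aut k Ω}

lemma expo {ω : k} (hω : IsPrimitiveRoot ω M) (hM : 0 < M) (h : γ (q ^ M) = q ^ M) :
    ∃ i : ℕ, γ q = algebraMap k Ω ω ^ i * q := by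
  rcases eq_or_ne q 0 with rfl | hq
  · exact ⟨0, by simp⟩
  have : NeZero M := ⟨hM.ne'⟩
  obtain ⟨i, -, e⟩ := (hω.map_of_injective (algebraMap k Ω).injective).eq_pow_of_pow_eq_one
    (kap_pow rfl (pow_ne_zero M hq) h)
  exact ⟨i, by rw [e, div_mul_cancel₀ _ hq]⟩

lemma pow_q {ω : k} (h : γ q = algebraMap k Ω ω * q) (i : ℕ) :
    (γ ^ i) q = algebraMap k Ω ω ^ i * q := by
  induction i with
  | zero => simp
  | succ i ih => rw [pow_succ, AlgEquiv.mul_apply, h, map_mul, AlgEquiv.commutes, ih]; ring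

lemma comm [IsAlgClosed k] (hM : M ≠ 0) (h : γ (q ^ M) = q ^ M) (h' : δ (q ^ M) = q ^ M) :
    γ (δ q) = δ (γ q) := by
  rcases eq_or_ne q 0 with rfl | hq
  · simp
  have a := root_fixed hM (kap_pow rfl (pow_ne_zero M hq) h) δ
  have b := root_fixed hM (kap_pow rfl (pow_ne_zero M hq) h') γ
  calc γ (δ q) = γ (δ q / q * q) := by rw [div_mul_cancel₀ _ hq]
    _ = δ (γ q / q * q) := by rw [map_mul, map_mul, a, b]; field_simp
    _ = _ := by rw [div_mul_cancel₀ _ hq]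

lemma conj_q [IsAlgClosed k] (hM : M ≠ 0) (h : γ (q ^ M) = q ^ M) (h' : δ (q ^ M) = q ^ M) :
    (δ⁻¹ * γ * δ) q = γ q := by
  rw [AlgEquiv.mul_apply, AlgEquiv.mul_apply, comm hM h h']
  exact δ.symm_apply_apply _

lemma val_agr {F : IntermediateField k Ω} {W W' : ValuationSubring Ω} (h : Agr F W' W) {y : Ω}
    (hy : y ∈ F) (e : W.valuation y = 1) : W'.valuation y = 1 := by
  have h0 : y ≠ 0 := fun t => by simp [t] at e
  have a := (W'.valuation_le_one_iff _).2 ((h y hy).2 ((W.valuation_le_one_iff _).1 e.le))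
  have b := (W'.valuation_le_one_iff _).2 ((h _ (inv_mem hy)).2 ((W.valuation_le_one_iff _).1
    (by rw [map_inv₀, e, inv_one])))
  rw [map_inv₀, inv_le_one₀ (zero_lt_iff.2 ((Valuation.ne_zero_iff _).2 h0))] at b
  exact le_antisymm a b

lemma val_root {W : ValuationSubring Ω} (hM : M ≠ 0) (e : W.valuation (q ^ M) = 1) :
    W.valuation q = 1 := by
  rwa [map_pow, pow_eq_one_iff_of_nonneg zero_le hM] at e

variable (p : ℕ) [Fact p.Prime] [IsAlgClosed k] [CharP k p] [IsAlgClosed Ω]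
  {F : IntermediateField k Ω} {W : ValuationSubring Ω} {π : Ω}

lemma tau (hF : FF F) {ω : Ω} (hW : IsPl k W) (hπ : IsUnif F W π) (hM : ¬ p ∣ M)
    (hq : q ^ M = π ∨ q ^ M = π⁻¹) (hω : ω ^ M = 1) : ∃ τ ∈ DecF F W, τ q = ω * q := by
  rcases hq with hq | hq
  · exact found.tame1 p k Ω F hF W hW π hπ M hM q ω hq hω
  · obtain ⟨τ, h1, h2⟩ := found.tame1 p k Ω F hF W hW π hπ M hM q⁻¹ ω⁻¹
      (by rw [inv_pow, hq, inv_inv]) (by rw [inv_pow, hω, inv_one])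
    exact ⟨τ, h1, inv_injective (by rw [← map_inv₀, h2, mul_inv])⟩

end LOC

open LOC in
theorem blockLOC : StmtLOC where
  expo k Ω _ _ _ q M ω hω hM γ h := expo hω hM h
  tau p _ k Ω _ _ _ _ _ _ F hF W π q ω M hW hπ hM hq hω := tau p hF hW hπ hM hq hω
  str p _ k Ω _ _ _ _ _ _ F hF W π q M ω hW hπ hM hq hω G _ _ ρ hρ hG := by
    have M0 : M ≠ 0 := fun e => hM (e ▸ dvd_zero p)
    have fx : ∀ γ ∈ DecF F W, γ (q ^ M) = q ^ M := fun γ hγ =>
      fix_apply (DecF_le F W hγ) (by rcases hq with e | e <;> rw [e]; exacts [hπ.1, inv_mem hπ.1])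
    obtain ⟨τ, h1, h2⟩ := tau p hF hW hπ hM hq
      (hω.map_of_injective (algebraMap k Ω).injective).pow_eq_one
    have hρ' := hρ.mono (inf_le_left : DecF F W ⊓ Gam k q ≤ _)
    refine ⟨τ, h1, h2, hρ'.im, fun a => ?_, fun a ha => ?_, fun γ hγ a ha => ?_,
      fun γ hγ i e => ?_⟩
    · obtain ⟨γ, ⟨g1, g2⟩, e⟩ := hρ'.mem_im.1 a.2
      have : ∃ j : ℕ, ρ γ ^ p ^ j = 1 := by
        rcases hq with hq | hq
        · exact found.tame2 p k Ω F hF W hW π hπ G ρ hρ M hM (fun _ _ => hG _) q hq γ g1 g2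
        · exact found.tame2 p k Ω F hF W hW π hπ G ρ hρ M hM (fun _ _ => hG _) q⁻¹
            (by rw [inv_pow, hq, inv_inv]) γ g1 (by rw [map_inv₀, mem_Gam.1 g2])
      obtain ⟨j, hj⟩ := this
      exact ⟨j, Subtype.ext (by rw [Subgroup.coe_pow, ← e]; exact hj)⟩
    · obtain ⟨γ, ⟨g1, g2⟩, e⟩ := hρ'.mem_im.1 ha
      exact ⟨γ, g1, g2, e⟩
    · obtain ⟨δ, ⟨g1, g2⟩, rfl⟩ := hρ'.mem_im.1 ha
      refine hρ'.mem_im.2 ⟨γ * δ * γ⁻¹,
        Subgroup.mem_inf.2 ⟨mul_mem (mul_mem hγ g1) (inv_mem hγ), ?_⟩, ?_⟩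
      · exact (conj_q M0 (fx δ g1) (fx _ (inv_mem hγ))).trans g2
      · rw [hρ.mul _ (mul_mem hγ g1) _ (inv_mem hγ), hρ.mul _ hγ _ g1, hρ.inv hγ]
    · have t := inv_mem (pow_mem h1 i)
      refine hρ'.mem_im.2 ⟨γ * (τ ^ i)⁻¹, ⟨mul_mem hγ t, ?_⟩, ?_⟩
      · change γ ((τ ^ i)⁻¹ q) = q
        rw [comm M0 (fx γ hγ) (fx _ t), e, ← pow_q h2]
        exact (τ ^ i).symm_apply_apply q
      · rw [hρ.mul _ hγ _ t, hρ.inv (pow_mem h1 i), hρ.pow h1]
  any k Ω _ _ _ _ _ F hF G _ ρ hρ W q M J hM _ hq hJ W' hW' := by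
    obtain ⟨V, -, h1, g, h2⟩ := hJ
    obtain ⟨δ, hδ, rfl⟩ := found.conj k Ω F (ff_alg hF) V W' fun y hy =>
      (h1 y hy).trans (hW' y hy).symm
    refine ⟨ρ δ * g, fun h ζ => (h2 h ζ).trans ⟨fun ⟨γ, g1, g2, g3⟩ => ?_, fun ⟨γ, g1, g2, g3⟩ => ?_⟩⟩
    · have g0 := DecF_le F V g1
      refine ⟨δ * γ * δ⁻¹, (conj_mem_DecF hδ).1 (by simpa [mul_assoc] using g1), ?_, ?_⟩
      · rw [hρ.mul _ (mul_mem hδ g0) _ (inv_mem hδ), hρ.mul _ hδ _ g0, hρ.inv hδ, g2]; group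
      · exact (conj_q hM.ne' (fix_apply g0 hq) (fix_apply (inv_mem hδ) hq)).trans g3
    · have g0 := DecF_le F _ g1
      refine ⟨δ⁻¹ * γ * δ, (conj_mem_DecF hδ).2 g1, ?_, ?_⟩
      · rw [hρ.mul _ (mul_mem (inv_mem hδ) g0) _ hδ, hρ.mul _ (inv_mem hδ) _ g0, hρ.inv hδ, g2]
        group
      · exact (conj_q hM.ne' (fix_apply g0 hq) (fix_apply hδ hq)).trans g3
  chg k Ω _ _ _ _ _ F hF W q q' M hM hq hv W' hW' hA γ hγ ζ := by
    obtain ⟨-, x, -, hx⟩ := hF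
    have v := val_root (fun e => hM (by rw [e, Nat.cast_zero]))
      (val_agr hA hq (by rw [map_pow, hv, one_pow]))
    have e := found.bas.unitFix k Ω x hx W' hW' γ (mem_DecF.1 hγ).2 _ M hM v
      (fix_apply (DecF_le F W' hγ) hq)
    have h0 : q / q' ≠ 0 := fun t => by simp [t] at hv
    have h1 : q' ≠ 0 := fun t => h0 (by simp [t])
    have h2 : q = q / q' * q' := (div_mul_cancel₀ _ h1).symm
    generalize q / q' = y at *
    rw [h2, map_mul, e, mul_left_comm, mul_right_inj' h0]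
  lamA k Ω _ _ _ _ _ F G _ ρ hρ W q M ω c hM _ hq hL δ hδ γ hγ i e := by
    have g0 := DecF_le F _ hγ
    have := hL _ ((conj_mem_DecF hδ).2 hγ) i
      ((conj_q hM.ne' (fix_apply g0 hq) (fix_apply hδ hq)).trans e)
    rw [hρ.mul _ (mul_mem (inv_mem hδ) g0) _ hδ, hρ.mul _ (inv_mem hδ) _ g0, hρ.inv hδ] at this
    rw [conj_pow, ← this]; group
  kum p _ k Ω _ _ _ _ _ x₀ h₀ x q M ω hM hω hx hq G _ c hc := by
    classical
    have M0 : M ≠ 0 := fun e => hM (e ▸ dvd_zero p)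
    have q0 : q ≠ 0 := fun e => hx (by rw [← hq, e, zero_pow M0])
    have hω' := hω.map_of_injective (algebraMap k Ω).injective
    obtain ⟨χ, hχ⟩ : ∃ χ : Aut k Ω → G, ∀ (γ : Aut k Ω) (i : ℕ),
        γ q = algebraMap k Ω ω ^ i * q → χ γ = c ^ i := by
      refine ⟨fun γ => if h : ∃ i : ℕ, γ q = algebraMap k Ω ω ^ i * q then c ^ h.choose else 1,
        fun γ i e => ?_⟩
      have h : ∃ i : ℕ, γ q = algebraMap k Ω ω ^ i * q := ⟨i, e⟩
      have a := mul_right_cancel₀ q0 (h.choose_spec.symm.trans e)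
      rw [pow_eq_pow_mod _ hω'.pow_eq_one, pow_eq_pow_mod i hω'.pow_eq_one] at a
      exact (dif_pos h).trans (pow_eq_pow_of_modEq (hω'.pow_inj
        (Nat.mod_lt _ (Nat.pos_of_ne_zero M0)) (Nat.mod_lt _ (Nat.pos_of_ne_zero M0)) a) hc)
    have ex : ∀ γ ∈ Gam k x, ∃ i : ℕ, γ q = algebraMap k Ω ω ^ i * q := fun γ hγ =>
      expo hω (Nat.pos_of_ne_zero M0) (by rw [hq]; exact hγ)
    refine ⟨χ, ⟨fun γ hγ δ hδ => ?_, {q}, fun γ hγ δ _ e => ?_⟩, fun γ _ => hχ γ,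
      fun W hW hv γ hγ => ?_⟩
    · obtain ⟨i, hi⟩ := ex γ hγ
      obtain ⟨j, hj⟩ := ex δ hδ
      rw [hχ γ i hi, hχ δ j hj, ← pow_add]
      refine hχ _ _ ?_
      rw [AlgEquiv.mul_apply, hj, map_mul, map_pow, AlgEquiv.commutes, hi]; ring
    · obtain ⟨i, hi⟩ := ex γ hγ
      rw [hχ γ i hi, hχ δ i ((e q (Finset.mem_singleton_self q)).symm.trans hi)]
    · have := found.bas.unitFix k Ω x₀ h₀ W hW γ hγ.2 q M
        (fun e => hM ((CharP.cast_eq_zero_iff k p M).1 e)) (val_root M0 (hq ▸ hv))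
        (by rw [hq]; exact hγ.1)
      simpa using hχ γ 0 (by simpa using this)
  as p _ k Ω _ _ _ _ _ x₀ h₀ a z hz G _ c hc := by
    classical
    have : CharP Ω p := charP_of_injective_algebraMap (algebraMap k Ω).injective p
    obtain ⟨χ, hχ⟩ : ∃ χ : Aut k Ω → G, ∀ (γ : Aut k Ω) (i : ℕ), γ z = z + i → χ γ = c ^ i := by
      refine ⟨fun γ => if h : ∃ i : ℕ, γ z = z + i then c ^ h.choose else 1, fun γ i e => ?_⟩
      have h : ∃ i : ℕ, γ z = z + i := ⟨i, e⟩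
      exact (dif_pos h).trans (pow_eq_pow_of_modEq ((CharP.natCast_eq_natCast Ω p).1
        (add_left_cancel (h.choose_spec.symm.trans e))) hc)
    have rt : ∀ γ ∈ Gam k a, (γ z - z) ^ p = γ z - z := fun γ hγ => by
      have := congrArg γ hz
      rw [map_sub, map_pow, mem_Gam.1 hγ] at this
      rw [sub_pow_char]
      linear_combination this - hz
    have ex : ∀ γ ∈ Gam k a, ∃ i : ℕ, γ z = z + i := fun γ hγ => by
      obtain ⟨t, ht⟩ := ASM.mem_cast (rt γ hγ)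
      refine ⟨t.val, ?_⟩
      rw [← map_natCast (ZMod.castHom (dvd_refl p) Ω), ZMod.natCast_zmod_val, ht]; ring
    refine ⟨χ, ⟨fun γ hγ δ hδ => ?_, {z}, fun γ hγ δ _ e => ?_⟩, fun γ _ => hχ γ,
      fun W hW hv γ hγ => ?_⟩
    · obtain ⟨i, hi⟩ := ex γ hγ
      obtain ⟨j, hj⟩ := ex δ hδ
      rw [hχ γ i hi, hχ δ j hj, ← pow_add]
      refine hχ _ _ ?_
      rw [AlgEquiv.mul_apply, hj, map_add, map_natCast, hi, Nat.cast_add, add_assoc]
    · obtain ⟨i, hi⟩ := ex γ hγ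
      rw [hχ γ i hi, hχ δ i ((e z (Finset.mem_singleton_self z)).symm.trans hi)]
    · have := ASM.as_zero (rt γ hγ.1) ((found.bas.move k Ω x₀ h₀ W hW γ hγ.2).1 z
        (ASM.as_mem (p := p) (hz ▸ hv)))
      simpa using hχ γ 0 (by simpa using sub_eq_zero.1 this)

end Pool.Agent.Lib.IW2
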