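import Pool.Agent.Lib.IW2.Blue

/-! The maximum principle on a residue disc. -/

open Polynomial IntermediateField
open scoped Pointwise

namespace Pool.Agent.Lib.IW2

open Pool.Agent.Lib.IW

namespace MAX

section

variable {Ω : Type} [Field Ω] {U : ValuationSubring Ω} {x y : Ω}

lemma root_mem {P : Polynomial Ω} (hm : P.Monic) (hc : ∀ i, P.coeff i ∈ U) (h : P.eval y = 0) : y ∈ U := by
  obtain ⟨Q, h1, -, h2⟩ := lifts_and_natDegree_eq_and_monic (f := algebraMap U Ω)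
    ((lifts_iff_coeff_lifts P).2 fun n => ⟨⟨_, hc n⟩, rfl⟩) hm
  obtain ⟨z, rfl⟩ := (IsIntegrallyClosed.isIntegral_iff (R := U) (K := Ω)).1
    ⟨Q, h2, by rw [← eval_map, h1, h]⟩
  exact z.2

lemma mem_of_lt (h : U.valuation x < 1) : x ∈ U := (U.valuation_le_one_iff x).1 h.le

lemma mul_lt (h : U.valuation x < 1) (h' : y ∈ U) : U.valuation (x * y) < 1 := by
  rw [map_mul]
  exact mul_lt_one_of_nonneg_of_lt_one_left zero_le h ((U.valuation_le_one_iff y).2 h')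

lemma mem_of_mul (h : x * y ∈ U) (h' : U.valuation y = 1) : x ∈ U := by
  rwa [← U.valuation_le_one_iff, map_mul, h', mul_one, U.valuation_le_one_iff] at h

lemma eval_mem {R : Subring Ω} {P : Polynomial Ω} (hc : ∀ i, P.coeff i ∈ R) (h : x ∈ R) :
    P.eval x ∈ R := by
  rw [eval_eq_sum_range]
  exact sum_mem fun i _ => mul_mem (hc i) (pow_mem h i)

lemma cong {P : Polynomial Ω} (hc : ∀ i, P.coeff i ∈ U) (hx : x ∈ U) (h : U.valuation (x - y) < 1) :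
    U.valuation (P.eval x - P.eval y) < 1 := by
  have hy : y ∈ U := by simpa using sub_mem hx (mem_of_lt h)
  rw [eval_eq_sum_range, eval_eq_sum_range, ← Finset.sum_sub_distrib]
  refine Valuation.map_sum_lt _ one_ne_zero fun i _ => ?_
  rw [← mul_sub, ← Commute.mul_geom_sum₂ (Commute.all x y), mul_left_comm]
  exact mul_lt h (mul_mem (hc i) (sum_mem fun j _ => mul_mem (pow_mem hx _) (pow_mem hy _)))

end

variable {k 𝕜 Ω Ω' : Type} [Field k] [Field 𝕜] [Field Ω] [Field Ω'] [Algebra 𝕜 Ω']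

lemma agr_lt {F : IntermediateField 𝕜 Ω'} {W W' : ValuationSubring Ω'} (h : Agr F W W') {y : Ω'}
    (hy : y ∈ F) (h' : W.valuation y < 1) : W'.valuation y < 1 := by
  rwa [Bas.lt_one_iff, ← h _ (inv_mem hy), ← Bas.lt_one_iff]

lemma acong {W : ValuationSubring Ω'} (P : 𝕜[X]) (hc : ∀ i, algebraMap 𝕜 Ω' (P.coeff i) ∈ W)
    {x y : Ω'} (hx : x ∈ W) (h : W.valuation (x - y) < 1) :
    W.valuation (aeval x P - aeval y P) < 1 := by
  rw [aeval_def, aeval_def, ← eval_map, ← eval_map]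
  exact cong (fun i => by rw [coeff_map]; exact hc i) hx h

lemma amem {R : Subring Ω'} (P : 𝕜[X]) (hc : ∀ i, algebraMap 𝕜 Ω' (P.coeff i) ∈ R) {x : Ω'}
    (hx : x ∈ R) : aeval x P ∈ R := by
  rw [aeval_def, ← eval_map]
  exact eval_mem (fun i => by rw [coeff_map]; exact hc i) hx

/-- places above the open unit disc -/
def Sm (𝕜 : Type) [Field 𝕜] [Algebra 𝕜 Ω'] (O : ValuationSubring Ω') (σ : Ω')
    (W : ValuationSubring Ω') : Prop :=
  IsPl 𝕜 W ∧ ∃ a : 𝕜, O.valuation (algebraMap 𝕜 Ω' a) < 1 ∧ W.valuation (σ - algebraMap 𝕜 Ω' a) < 1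

variable {O U : ValuationSubring Ω'} {σ : Ω'}

lemma Sm.mem {W : ValuationSubring Ω'} (h : Sm 𝕜 O σ W) : σ ∈ W := by
  obtain ⟨h1, a, -, h2⟩ := h
  simpa using add_mem (mem_of_lt h2) (h1.2 a)

lemma con_lt (hU : ∀ c : 𝕜, algebraMap 𝕜 Ω' c ∈ U ↔ algebraMap 𝕜 Ω' c ∈ O) (c : 𝕜) :
    U.valuation (algebraMap 𝕜 Ω' c) < 1 ↔ O.valuation (algebraMap 𝕜 Ω' c) < 1 := by
  rw [Bas.lt_one_iff, Bas.lt_one_iff, ← map_inv₀, hU]

/-- the statement for rational functions -/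
lemma line [IsAlgClosed 𝕜] (hσ : Co 𝕜 σ) (hO : σ ∈ O)
    (hP : ∀ P : 𝕜[X], aeval σ P ∈ O → ∀ i, algebraMap 𝕜 Ω' (P.coeff i) ∈ O)
    (hU : ∀ c : 𝕜, algebraMap 𝕜 Ω' c ∈ U ↔ algebraMap 𝕜 Ω' c ∈ O) (hs : U.valuation σ < 1)
    {e : Ω'} (he : e ∈ 𝕜⟮σ⟯) (h1 : e ∈ O) (h2 : ∀ W, Sm 𝕜 O σ W → e ∈ W) : e ∈ U := by
  have nz : ∀ Q : 𝕜[X], Q ≠ 0 → aeval σ Q ≠ 0 := fun Q h t => hσ.tr ⟨Q, h, t⟩
  have key : ∀ (n : ℕ) (Q P : 𝕜[X]) (e : Ω'), Q.Monic → Q.natDegree = n →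
      e * aeval σ Q = aeval σ P → e ∈ O → (∀ W, Sm 𝕜 O σ W → e ∈ W) → e ∈ U := by
    intro n
    induction n with
    | zero =>
      intro Q P e hm hn h h1 _
      rw [(hm.natDegree_eq_zero).1 hn, map_one, mul_one] at h
      subst h
      exact amem (R := U.toSubring) P (fun i => (hU _).2 (hP P h1 i)) (mem_of_lt hs)
    | succ n ih =>
      intro Q P e hm hn h h1 h2
      obtain ⟨β, hβ⟩ := IsAlgClosed.exists_root Q (by
        rw [degree_eq_natDegree hm.ne_zero, hn]; exact_mod_cast Nat.succ_ne_zero n)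
      obtain ⟨Q₁, rfl⟩ := dvd_iff_isRoot.2 hβ
      have m1 : Q₁.Monic := (monic_X_sub_C β).of_mul_monic_left hm
      have d1 : Q₁.natDegree = n := by
        rw [(monic_X_sub_C β).natDegree_mul m1, natDegree_X_sub_C] at hn
        omega
      simp only [map_mul, map_sub, aeval_X, aeval_C] at h
      by_cases hb : O.valuation (algebraMap 𝕜 Ω' β) < 1
      · obtain ⟨W, w1, w2⟩ := found.bas.exAt 𝕜 Ω' σ hσ β
        have w3 : Sm 𝕜 O σ W := ⟨w1, β, hb, w2⟩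
        have a1 : W.valuation (aeval σ P) < 1 := by
          rw [← h, mul_left_comm]
          exact mul_lt w2 (mul_mem (h2 W w3) (Bas.aeval_mem w1.2 w3.mem _))
        have a2 := acong P (fun i => w1.2 _) w3.mem w2
        have a3 := W.valuation.map_sub_lt a1 a2
        rw [sub_sub_cancel, aeval_algebraMap_apply, coe_aeval_eq_eval] at a3
        obtain ⟨P₁, rfl⟩ := dvd_iff_isRoot.2 (Bas.const_eq w1 a3)
        refine ih Q₁ P₁ e m1 d1 ?_ h1 h2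
        simp only [map_mul, map_sub, aeval_X, aeval_C] at h
        have := nz _ (X_sub_C_ne_zero β)
        simp only [map_sub, aeval_X, aeval_C] at this
        exact mul_left_cancel₀ this (by rw [← h]; ring)
      · rw [Bas.lt_one_iff, not_or, not_not, ← map_inv₀] at hb
        have a1 := mul_lt hs ((hU _).2 hb.2)
        refine mem_of_mul (ih Q₁ (C (-β⁻¹) * P) (e * (1 - σ * algebraMap 𝕜 Ω' β⁻¹)) m1 d1 ?_
          (mul_mem h1 (sub_mem (one_mem _) (mul_mem hO hb.2))) fun W w =>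
            mul_mem (h2 W w) (sub_mem (one_mem _) (mul_mem w.mem (w.1.2 _))))
          (U.valuation.map_one_sub_of_lt a1)
        have := hb.1
        rw [map_mul, aeval_C, ← h, map_neg, map_inv₀]
        field_simp
        ring
  obtain ⟨P, Q, rfl⟩ := (mem_adjoin_simple_iff 𝕜 e).1 he
  by_cases hQ : Q = 0
  · simp [hQ]
  refine key _ (Q * C Q.leadingCoeff⁻¹) (P * C Q.leadingCoeff⁻¹) _
    (monic_mul_leadingCoeff_inv hQ) rfl ?_ h1 h2
  rw [map_mul, map_mul, ← mul_assoc, div_mul_cancel₀ _ (nz Q hQ)]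

/-- elements that are regular above the whole open disc -/
lemma whole [IsAlgClosed Ω'] (hσ : Co 𝕜 σ)
    (hl : ∀ e ∈ 𝕜⟮σ⟯, e ∈ O → (∀ W, Sm 𝕜 O σ W → e ∈ W) → e ∈ U)
    {a : Ω'} (h1 : ∀ γ ∈ Gam 𝕜 σ, γ a ∈ O) (h2 : ∀ W, Sm 𝕜 O σ W → a ∈ W) : a ∈ U := by
  have hi : IsIntegral 𝕜⟮σ⟯ a := (hσ.alg a).isIntegral
  have hm := (minpoly.monic hi).map (algebraMap 𝕜⟮σ⟯ Ω')
  have key : ∀ R : Subring Ω', (∀ γ ∈ Gam 𝕜 σ, γ a ∈ R) →
      ∀ i, ((minpoly 𝕜⟮σ⟯ a).map (algebraMap 𝕜⟮σ⟯ Ω')).coeff i ∈ R := fun R hR i => by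
    obtain ⟨c, hc⟩ := (lifts_iff_coeff_lifts _).1 ((IsAlgClosed.splits _).mem_lift_of_roots_mem_range
      hm R.subtype fun r hr => by
        obtain ⟨γ, t, rfl⟩ := found.gal.conjRoot 𝕜 Ω' _ hσ.alg a r (by
          rw [aeval_def, ← eval_map]; exact (mem_roots hm.ne_zero).1 hr)
        exact ⟨⟨_, hR γ (by rwa [← fix_adjoin])⟩, rfl⟩) i
    exact hc ▸ c.2
  refine root_mem hm (fun i => hl _ ?_ (key O.toSubring h1 i) fun W w =>
    key W.toSubring (fun γ hγ => ?_) i) (by rw [eval_map, ← aeval_def, minpoly.aeval])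
  · rw [coeff_map]; exact SetLike.coe_mem _
  · obtain ⟨w1, α, w2, w3⟩ := w
    refine (Cert.inv_mem_iff found.bas w1 γ a).1 (h2 _ ⟨(found.bas.smulPl _ _ W w1 _).1, α, w2,
      (Cert.inv_lt_iff found.bas w1 γ _).2 ?_⟩)
    rwa [map_sub, mem_Gam.1 hγ, AlgEquiv.commutes]

/-- removing finitely many poles -/
lemma poles [IsAlgClosed 𝕜] (hσ : Co 𝕜 σ) {E : IntermediateField 𝕜 Ω'}
    (hw : ∀ a ∈ E, a ∈ O → (∀ W, Sm 𝕜 O σ W → a ∈ W) → a ∈ U) (T : Finset (ValuationSubring Ω')) :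
    (∀ W ∈ T, IsPl 𝕜 W ∧ ∃ t ∈ E, t ∈ O ∧ (∀ W', Sm 𝕜 O σ W' → t ∈ W') ∧ U.valuation t = 1 ∧
      W.valuation t < 1) → ∀ a ∈ E, a ∈ O → (∀ W', Sm 𝕜 O σ W' → a ∉ W' → ∃ W ∈ T, Agr E W' W) →
      a ∈ U := by
  classical
  induction T using Finset.induction_on with
  | empty => exact fun _ a h1 h2 h3 => hw a h1 h2 fun W w => by_contra fun t => by simpa using h3 W w t
  | insert W T _ ih =>
    intro hT a h1 h2 h3
    obtain ⟨w, t, t1, t2, t3, t4, t5⟩ := hT W (Finset.mem_insert_self _ _)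
    by_cases h0 : a = 0
    · simp [h0]
    have t0 : t ≠ 0 := by rintro rfl; simp at t4
    obtain ⟨e, he, i, hi⟩ := found.bas.rank 𝕜 Ω' σ hσ W w t t0 t5 a h0
    have m : a * t ^ i.natAbs ∈ W := by
      have p : 0 < W.valuation t := zero_lt_iff.2 (by simpa using t0)
      rw [← W.valuation_le_one_iff, ← pow_le_one_iff he.ne', map_mul, map_pow, mul_pow, hi,
        ← pow_mul, ← zpow_natCast, ← zpow_add₀ p.ne', zpow_le_one_iff_right_of_lt_one₀ p t5]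
      have := Nat.le_mul_of_pos_right i.natAbs he
      omega
    have e1 := mul_mem h1 (pow_mem t1 i.natAbs)
    refine mem_of_mul (ih (fun W' h => hT W' (Finset.mem_insert_of_mem h)) _ e1
      (mul_mem h2 (pow_mem t2 _)) fun W' w' h => ?_) (by rw [map_pow, t4, one_pow])
    obtain ⟨W₁, r1, r2⟩ := h3 W' w' fun r => h (mul_mem r (pow_mem (t3 W' w') _))
    rcases Finset.mem_insert.1 r1 with rfl | r1
    · exact (h ((r2 _ e1).2 m)).elim
    · exact ⟨W₁, r1, r2⟩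

variable [Algebra k 𝕜] [Algebra k Ω] [Algebra k Ω'] [IsScalarTower k 𝕜 Ω']

lemma rt_map (ι : Ω →ₐ[k] Ω') {f : k[X][X]} {u θ : Ω} (h : Rt f u θ) :
    (f.map (aeval (R := k) (ι u)).toRingHom).eval (ι θ) = 0 := by
  have := congrArg ι.toRingHom h
  rw [hom_eval₂, map_zero] at this
  rw [eval_map, ← this]
  congr 1
  ext <;> simp

lemma rt_cong {W : ValuationSubring Ω'} (w : IsPl 𝕜 W) (f : k[X][X]) {σ θ : Ω'} {α : 𝕜}
    (h : W.valuation (σ - algebraMap 𝕜 Ω' α) < 1) (hθ : θ ∈ W) :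
    W.valuation ((f.map (aeval (R := k) σ).toRingHom).eval θ -
      aeval θ (f.map (aeval (R := k) α).toRingHom)) < 1 := by
  have hσ : σ ∈ W := by simpa using add_mem (mem_of_lt h) (w.2 α)
  rw [aeval_def, eval₂_map, eval_map, eval₂_eq_sum_range, eval₂_eq_sum_range,
    ← Finset.sum_sub_distrib]
  refine Valuation.map_sum_lt _ one_ne_zero fun i _ => ?_
  rw [← sub_mul]
  refine mul_lt ?_ (pow_mem hθ _)
  have := acong (f.coeff i) (fun j => by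
    rw [IsScalarTower.algebraMap_apply k 𝕜 Ω']; exact w.2 _) hσ h
  rwa [aeval_algebraMap_apply] at this

end MAX

open MAX

theorem blockMAX (hSH1 : StmtSH1) (hSH2 : StmtSH2) (hRX : StmtRX) (hORTH : StmtORTH)
    (hDISC : StmtDISC) : StmtMAX := by
  classical
  intro p _ k 𝕜 Ω Ω' _ _ _ _ _ _ _ _ _ _ _ _ _ _ ι O hO F u hF hσ V hV hu
  have hk : ∀ c : k, algebraMap k Ω' c ∈ O := fun c => ι.commutes c ▸ hO.mem _
  have kk := IsScalarTower.algebraMap_apply k 𝕜 Ω'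
  obtain ⟨d1, d2, d3, -⟩ := hDISC p k 𝕜 Ω Ω' ι O hk F u hF hσ V hV hu
  obtain ⟨θ, f, f1, f2, f3, f4⟩ := hSH1 p k Ω F u hF V hV hu
  replace d1 := d1 θ f f1 f2 f3 f4
  have hθ : θ ∈ F := f4 ▸ IntermediateField.subset_adjoin _ _ (by simp)
  have hE := hRX.extf k 𝕜 Ω Ω' ι F u hF hσ
  have p1 : ∀ a ∈ Ext 𝕜 ι F, a ∈ Reg 𝕜 ι O F V → ∀ U, Cen 𝕜 ι O F V U → a ∈ U := by
    intro a ha hr U hU
    have hs := hU.2 u hF.mem hu.2.2.1
    have hθW : ∀ W, Sm 𝕜 O (ι u) W → ι θ ∈ W := fun W w =>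
      root_mem (f1.1.map _) (fun i => by
        rw [coeff_map]
        exact Bas.aeval_mem (fun c => by rw [kk]; exact w.1.2 _) w.mem _) (rt_map ι f2)
    obtain ⟨T, t1, -, t2⟩ := found.unif.fin 𝕜 Ω' _ hE.ff a ha
    refine poles hσ (fun a ha h1 h2 => whole hσ (fun e => line hσ (hO.mem u)
      (fun P h => (hORTH.poly k 𝕜 Ω Ω' ι O hO u hF.co.tr P h).1) hU.1 hs)
      (fun γ hγ => (hORTH.uniq k 𝕜 Ω Ω' ι O hO F u hF γ hγ a ha).2 h1) h2)
      (T.filter (Sm 𝕜 O (ι u))) (fun W hW => ?_) a ha hr.1 fun W w h => ?_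
    · obtain ⟨w0, w⟩ := Finset.mem_filter.1 hW
      have wθ := hθW W w
      obtain ⟨w1, α, w2, w3⟩ := w
      obtain ⟨b, h, b1, b2, b3, b4⟩ := hSH2.fac k 𝕜 Ω' O hk f f1 α w2
      refine ⟨w1, aeval (ι θ) h, amem (R := (Ext 𝕜 ι F).toSubring) h
        (fun i => IntermediateField.algebraMap_mem _ _) (mem_Ext ι hθ),
        amem (R := O.toSubring) h b3 (hO.mem θ),
        fun W' w' => Bas.aeval_mem w'.1.2 (hθW W' w') h, ?_, ?_⟩
      · have a0 := hU.2 θ hθ f3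
        have a1 := acong h (fun i => (hU.1 _).2 (b3 i)) (mem_of_lt a0) (y := 0) (by simpa using a0)
        have a2 : U.valuation (algebraMap 𝕜 Ω' (h.coeff 0)) = 1 :=
          le_antisymm ((U.valuation_le_one_iff _).2 ((hU.1 _).2 (b3 0)))
            (not_lt.1 fun t => ((con_lt hU.1 _).1 t).ne b4)
        rw [← coeff_zero_eq_aeval_zero'] at a1
        rw [← a2] at a1 ⊢
        exact U.valuation.map_eq_of_sub_lt a1
      · have a1 := rt_cong w1 f w3 wθ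
        rw [rt_map ι f2, zero_sub, Valuation.map_neg, b2, map_mul, map_mul, map_sub, aeval_X,
          aeval_C] at a1
        have a2 : W.valuation (ι θ - algebraMap 𝕜 Ω' b) = 1 :=
          le_antisymm ((W.valuation_le_one_iff _).2 (sub_mem wθ (w1.2 b))) (not_lt.1 fun t =>
            (t1 W w0).2 (hr.2 W ((d1 W).2 ⟨w1, ⟨α, w2, w3⟩, b, b1, t⟩)))
        rwa [a2, one_mul] at a1
    · obtain ⟨W', r1, r2⟩ := t2 W w.1 h
      obtain ⟨-, α, w2, w3⟩ := w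
      exact ⟨W', Finset.mem_filter.2 ⟨r1, (t1 W' r1).1, α, w2, agr_lt r2
        (sub_mem hE.mem (IntermediateField.algebraMap_mem _ _)) w3⟩, r2⟩
  have p5 : ∀ W U : ValuationSubring Ω', In 𝕜 ι O F V W →
      (∀ s, s ∈ U ↔ ∃ c : 𝕜, algebraMap 𝕜 Ω' c ∈ O ∧ W.valuation (s - algebraMap 𝕜 Ω' c) < 1) →
      (∀ s, U.valuation s < 1 ↔ ∃ c : 𝕜, O.valuation (algebraMap 𝕜 Ω' c) < 1 ∧
        W.valuation (s - algebraMap 𝕜 Ω' c) < 1) → Cen 𝕜 ι O F V U := fun W U w h1 h2 =>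
    ⟨fun c => (h1 _).trans ⟨fun ⟨c', t1, t2⟩ => by
      rw [← map_sub] at t2
      rwa [sub_eq_zero.1 (Bas.const_eq w.1 t2)], fun t => ⟨c, t, by simp⟩⟩,
      fun s hs h => (h2 _).2 (w.2 s hs h)⟩
  refine ⟨p1, fun G _ _ ρ g hg hr U hU x => ?_, fun W₀ w hw a ha hr => ?_,
    fun U h1 h2 => ⟨fun c => (h1 _).trans ⟨fun ⟨s, _, t⟩ => ?_, fun t => ?_⟩,
      fun s _ h => (h2 _).2 ⟨s, h, by simp [Rd]⟩⟩, p5⟩
  · have := Fintype.ofFinite G
    refine root_mem (monic_prod_X_sub_C g Finset.univ) (fun i => p1 _ (hg.coeff_mem hE.alg i)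
      (SpecRep.coeff_prod_mem _ hr i) U hU) ?_
    rw [eval_prod]
    exact Finset.prod_eq_zero (Finset.mem_univ x) (by simp)
  · obtain ⟨U₀, u1, u2⟩ := hSH2.cmpPl 𝕜 Ω' _ hσ W₀ O w.1
    obtain ⟨c, c1, c2⟩ := (u1 a).1 (p1 a ha hr U₀ (p5 W₀ U₀ w u1 u2))
    obtain ⟨c₀, c3⟩ := hO.con c c1
    refine ⟨c₀, fun U hU => ?_⟩
    have e1 := sub_mem ha (IntermediateField.algebraMap_mem (Ext 𝕜 ι F) c)
    have e2 := mul_mem (inv_mem hE.mem) e1
    have e0 : ι u ≠ 0 := hσ.ne_zero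
    have a1 : (ι u)⁻¹ * (a - algebraMap 𝕜 Ω' c) ∈ W₀ := by
      obtain ⟨-, α, -, t⟩ := d2 W₀ w
      have a2 := W₀.valuation.map_sub_lt hw t.2.2.1
      rw [sub_sub_cancel] at a2
      have a3 := t.2.2.2 _ e1 c2
      rw [Bas.const_eq w.1 a2, map_zero, sub_zero] at a3
      rwa [← W₀.valuation_le_one_iff, map_mul, map_inv₀,
        inv_mul_le_one₀ (zero_lt_iff.2 (by simpa using e0))]
    have a2 := p1 _ e2 ⟨mul_mem (map_inv₀ ι u ▸ hO.mem _) (sub_mem hr.1 c1), fun W w' => by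
      by_cases t : W.valuation (ι u) < 1
      · exact (d3 W W₀ 0 w' w (by simpa using t) (by simpa using hw) _ e2).2 a1
      · rw [Bas.lt_one_iff, not_or, not_not] at t
        exact mul_mem t.2 (sub_mem (hr.2 W w') (w'.1.2 c))⟩ U hU
    have a3 := mul_lt (hU.2 u hF.mem hu.2.2.1) a2
    rw [mul_inv_cancel_left₀ e0] at a3
    rw [kk, ← map_sub, ← con_lt hU.1, map_sub] at c3
    have a4 := U.valuation.map_add_lt a3 c3
    rwa [sub_add_sub_cancel, ← kk] at a4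
  · simpa using add_mem (mem_of_lt t) (hO.mem s)
  · obtain ⟨c₀, h⟩ := hO.con c t
    exact ⟨_, hV.2 c₀, by rwa [Rd, ι.commutes]⟩

end Pool.Agent.Lib.IW2
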