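import Pool.Agent.Lib.IW2.Blue

/-! Orthogonality of independent families at a point of good reduction. -/

open Polynomial IntermediateField
open scoped Pointwise

namespace Pool.Agent.Lib.IW2

open Pool.Agent.Lib.IW

namespace ORTH

section A

variable {k Ω Ω' : Type} [Field k] [Field Ω] [Field Ω'] [Algebra k Ω] [Algebra k Ω']
  {ι : Ω →ₐ[k] Ω'} {O : ValuationSubring Ω'} {a b : Ω'} {r s : Ω}

lemma val_le (h : ∀ s, ι s ∈ O) (s : Ω) : O.valuation (ι s) ≤ 1 :=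
  (O.valuation_le_one_iff _).2 (h s)

lemma val_one (h : ∀ s, ι s ∈ O) (hs : s ≠ 0) : O.valuation (ι s) = 1 := by
  refine le_antisymm (val_le h s) ?_
  have h1 := val_le h s⁻¹
  have h0 : O.valuation (ι s) ≠ 0 := by simpa using hs
  rwa [map_inv₀, map_inv₀, inv_le_one₀ (zero_lt_iff.2 h0)] at h1

lemma rd_uniq (h : ∀ s, ι s ∈ O) (h1 : Rd ι O a r) (h2 : Rd ι O a s) : r = s := by
  by_contra hne
  have h3 := O.valuation.map_sub_lt h2 h1
  rw [sub_sub_sub_cancel_left, ← map_sub, val_one h (sub_ne_zero.2 hne)] at h3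
  exact lt_irrefl _ h3

lemma rd_le (h : ∀ s, ι s ∈ O) (h1 : Rd ι O a r) : O.valuation a ≤ 1 := by
  simpa using O.valuation.map_add_le (le_of_lt h1) (val_le h r)

lemma rd_one (h : ∀ s, ι s ∈ O) (h1 : Rd ι O a r) (hr : r ≠ 0) : O.valuation a = 1 := by
  rw [← val_one h hr]
  exact O.valuation.map_eq_of_sub_lt (by rw [val_one h hr]; exact h1)

lemma rd_mul (h : ∀ s, ι s ∈ O) (h1 : Rd ι O a r) (h2 : Rd ι O b s) : Rd ι O (a * b) (r * s) := by
  have e : a * b - ι (r * s) = a * (b - ι s) + (a - ι r) * ι s := by rw [map_mul]; ring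
  rw [Rd, e]
  refine O.valuation.map_add_lt ?_ ?_ <;> rw [map_mul]
  · exact mul_lt_one_of_nonneg_of_lt_one_right (rd_le h h1) zero_le h2
  · exact mul_lt_one_of_nonneg_of_lt_one_left zero_le h1 (val_le h s)

lemma rd_inv (h : ∀ s, ι s ∈ O) (h1 : Rd ι O a r) (hr : r ≠ 0) : Rd ι O a⁻¹ r⁻¹ := by
  have h2 := rd_one h h1 hr
  have ha : a ≠ 0 := fun e => by simp [e] at h2
  have hr' : ι r ≠ 0 := by simpa using hr
  have e : a⁻¹ - ι r⁻¹ = -(a - ι r) * a⁻¹ * (ι r)⁻¹ := by rw [map_inv₀]; field_simp; ring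
  rw [Rd, e, map_mul, map_mul, map_inv₀, map_inv₀, h2, val_one h hr, Valuation.map_neg]
  simpa [Rd] using h1

lemma rd_self (s : Ω) : Rd ι O (ι s) s := by simp [Rd]

lemma rd_sum {I : Type} (t : Finset I) {f : I → Ω'} {g : I → Ω} (h : ∀ i ∈ t, Rd ι O (f i) (g i)) :
    Rd ι O (∑ i ∈ t, f i) (∑ i ∈ t, g i) := by
  rw [Rd, map_sum, ← Finset.sum_sub_distrib]
  exact O.valuation.map_sum_lt one_ne_zero h

end A

variable {k 𝕜 Ω Ω' : Type} [Field k] [Field 𝕜] [Field Ω] [Field Ω'] [Algebra k Ω] [Algebra k Ω']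
  [Algebra 𝕜 Ω'] {ι : Ω →ₐ[k] Ω'} {O : ValuationSubring Ω'}

lemma rd_con (h : RedD 𝕜 ι O) {c : 𝕜} (hc : O.valuation (algebraMap 𝕜 Ω' c) ≤ 1) :
    ∃ d : k, Rd ι O (algebraMap 𝕜 Ω' c) (algebraMap k Ω d) := by
  obtain ⟨d, hd⟩ := h.con c ((O.valuation_le_one_iff _).1 hc)
  exact ⟨d, by rwa [Rd, ι.commutes]⟩

lemma rd_comb (h : RedD 𝕜 ι O) {I : Type} (t : Finset I) (c : I → 𝕜)
    (hc : ∀ i ∈ t, O.valuation (algebraMap 𝕜 Ω' (c i)) ≤ 1) :
    ∃ d : I → k, (∀ i ∈ t, Rd ι O (algebraMap 𝕜 Ω' (c i)) (algebraMap k Ω (d i))) ∧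
      ∀ s : I → Ω, Rd ι O (∑ i ∈ t, c i • ι (s i)) (∑ i ∈ t, d i • s i) := by
  classical
  choose d hd using fun i (hi : i ∈ t) => rd_con h (hc i hi)
  have e : ∀ i ∈ t, Rd ι O (algebraMap 𝕜 Ω' (c i))
      (algebraMap k Ω (if hi : i ∈ t then d i hi else 0)) := fun i hi => by
    simpa only [dif_pos hi] using hd i hi
  refine ⟨_, e, fun s => rd_sum t fun i hi => ?_⟩
  rw [Algebra.smul_def, Algebra.smul_def]
  exact rd_mul h.mem (e i hi) (rd_self _)

/-- A nontrivial combination of an independent family is a constant times a unit. -/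
lemma key (h : RedD 𝕜 ι O) {I : Type} (t : Finset I) (c : I → 𝕜) (hc : ∃ i ∈ t, c i ≠ 0) :
    ∃ m ∈ t, c m ≠ 0 ∧
      (∀ i ∈ t, O.valuation (algebraMap 𝕜 Ω' (c i)) ≤ O.valuation (algebraMap 𝕜 Ω' (c m))) ∧
      ∃ d : I → k, ∀ s : I → Ω, LinearIndependent k s → ∑ i ∈ t, d i • s i ≠ 0 ∧
        ∃ U, Rd ι O U (∑ i ∈ t, d i • s i) ∧ ∑ i ∈ t, c i • ι (s i) = algebraMap 𝕜 Ω' (c m) * U := by
  obtain ⟨j, hj, hj0⟩ := hc
  obtain ⟨m, hm, hmax⟩ := t.exists_max_image (fun i => O.valuation (algebraMap 𝕜 Ω' (c i))) ⟨j, hj⟩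
  have hv : 0 < O.valuation (algebraMap 𝕜 Ω' (c m)) :=
    lt_of_lt_of_le (zero_lt_iff.2 (by simpa using hj0)) (hmax j hj)
  have h0 : c m ≠ 0 := fun e => by simp [e] at hv
  obtain ⟨d, h1, h2⟩ := rd_comb h t (fun i => c i / c m) fun i hi => by
    rw [map_div₀, map_div₀, div_le_one₀ hv]; exact hmax i hi
  refine ⟨m, hm, h0, hmax, d, fun s hs => ⟨fun e => ?_, _, h2 s, ?_⟩⟩
  · have h3 := h1 m hm
    rw [linearIndependent_iff'.1 hs t d e m hm, div_self h0] at h3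
    simp [Rd] at h3
  · rw [Finset.mul_sum]
    refine Finset.sum_congr rfl fun i _ => ?_
    rw [← Algebra.smul_def, smul_smul, mul_div_cancel₀ _ h0]

variable [Algebra k 𝕜] [IsScalarTower k 𝕜 Ω']

lemma rep (ι : Ω →ₐ[k] Ω') (F : IntermediateField k Ω) : ∃ (I : Type) (s : I → Ω),
    LinearIndependent k s ∧ (∀ i, s i ∈ F) ∧ ∀ P ∈ Algebra.adjoin 𝕜 (ι '' (F : Set Ω)),
      ∃ (t : Finset I) (c : I → 𝕜), P = ∑ i ∈ t, c i • ι (s i) := by
  let b := Module.Basis.ofVectorSpace k F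
  refine ⟨_, fun i => b i, b.linearIndependent.map' F.val.toLinearMap
    (LinearMap.ker_eq_bot.2 Subtype.val_injective), fun i => (b i).2, fun P hP => ?_⟩
  have h1 : P ∈ Submodule.span 𝕜 (Set.range fun i => ι (b i)) := by
    rw [← Subalgebra.mem_toSubmodule, Algebra.adjoin_eq_span] at hP
    refine Submodule.span_le.2 (fun y hy => ?_) hP
    have h2 : ∃ z ∈ F, ι z = y := by
      induction hy using Submonoid.closure_induction with
      | mem y hy => exact hy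
      | one => exact ⟨1, one_mem F, map_one ι⟩
      | mul _ _ _ _ h h' =>
        obtain ⟨a, ha, rfl⟩ := h
        obtain ⟨b, hb, rfl⟩ := h'
        exact ⟨a * b, mul_mem ha hb, map_mul ι a b⟩
    obtain ⟨z, hz, rfl⟩ := h2
    have h3 := congrArg (ι.comp F.val) (b.linearCombination_repr ⟨z, hz⟩)
    rw [Finsupp.linearCombination_apply, Finsupp.sum, map_sum] at h3
    refine (show _ = ι z from h3) ▸ Submodule.sum_mem _ fun i _ => ?_
    rw [map_smul, ← algebraMap_smul 𝕜]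
    exact Submodule.smul_mem _ _ (Submodule.subset_span ⟨i, rfl⟩)
  obtain ⟨c, rfl⟩ := Finsupp.mem_span_range_iff_exists_finsupp.1 h1
  exact ⟨c.support, c, rfl⟩

lemma dec (h : RedD 𝕜 ι O) (F : IntermediateField k Ω) {P : Ω'}
    (hP : P ∈ Algebra.adjoin 𝕜 (ι '' (F : Set Ω))) (h0 : P ≠ 0) :
    ∃ (c : 𝕜) (U : Ω'), ∃ r ∈ F, r ≠ 0 ∧ Rd ι O U r ∧ P = algebraMap 𝕜 Ω' c * U := by
  obtain ⟨I, s, h1, h2, h3⟩ := rep (𝕜 := 𝕜) ι F
  obtain ⟨t, c, rfl⟩ := h3 P hP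
  obtain ⟨m, -, -, -, d, hd⟩ := key h t c (by
    by_contra! e
    exact h0 (Finset.sum_eq_zero fun i hi => by rw [e i hi, zero_smul]))
  obtain ⟨e1, U, e2, e3⟩ := hd s h1
  exact ⟨c m, U, _, F.sum_mem fun i _ => F.smul_mem (h2 i), e1, e2, e3⟩

lemma val_aut (h : RedD 𝕜 ι O) (F : IntermediateField k Ω) {γ : Aut 𝕜 Ω'} {δ : Aut k Ω}
    (e : ∀ y, ι (δ y) = γ (ι y)) {P : Ω'} (hP : P ∈ Algebra.adjoin 𝕜 (ι '' (F : Set Ω))) :
    O.valuation (γ P) = O.valuation P := by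
  obtain ⟨I, s, h1, -, h3⟩ := rep (𝕜 := 𝕜) ι F
  obtain ⟨t, c, rfl⟩ := h3 P hP
  by_cases hc : ∃ i ∈ t, c i ≠ 0
  · obtain ⟨m, -, -, -, d, hd⟩ := key h t c hc
    obtain ⟨e1, U, e2, e3⟩ := hd s h1
    obtain ⟨e4, U', e5, e6⟩ := hd (fun i => δ (s i))
      (h1.map' δ.toLinearEquiv.toLinearMap δ.toLinearEquiv.ker)
    simp only [e] at e6
    rw [map_sum]
    simp only [map_smul]
    rw [e3, e6, map_mul, map_mul, rd_one h.mem e2 e1, rd_one h.mem e5 e4]
  · push Not at hc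
    rw [Finset.sum_eq_zero fun i hi => by rw [hc i hi, zero_smul], map_zero]

end ORTH

open ORTH

theorem blockORTH (_ : StmtRX) : StmtORTH where
  uniq₀ _ _ _ _ _ _ _ _ _ _ h _ _ _ := rd_uniq h
  resf k 𝕜 Ω Ω' _ _ _ _ _ _ _ _ _ ι O h F x _ a ha a₀ h0 := by
    obtain ⟨P, hP, Q, hQ, rfl⟩ := IntermediateField.mem_adjoin_iff_div.1 ha
    by_cases e : P / Q = 0
    · rw [rd_uniq h.mem h0 (s := 0) (by simp [Rd, e])]
      exact zero_mem F
    obtain ⟨e1, e2⟩ := div_ne_zero_iff.1 e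
    obtain ⟨c, U, r, r1, r2, r3, rfl⟩ := dec h F hP e1
    obtain ⟨c', U', r', s1, s2, s3, rfl⟩ := dec h F hQ e2
    have e3 : algebraMap 𝕜 Ω' c * U / (algebraMap 𝕜 Ω' c' * U') =
        algebraMap 𝕜 Ω' (c / c') * (U * U'⁻¹) := by rw [map_div₀, mul_div_mul_comm, div_eq_mul_inv U]
    rw [e3] at h0
    have h1 := rd_mul h.mem r3 (rd_inv h.mem s3 s2)
    have h2 := rd_le h.mem h0
    rw [map_mul, rd_one h.mem h1 (mul_ne_zero r2 (inv_ne_zero s2)), mul_one] at h2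
    obtain ⟨d, hd⟩ := rd_con h h2
    rw [rd_uniq h.mem h0 (rd_mul h.mem hd h1)]
    exact mul_mem (F.algebraMap_mem d) (mul_mem r1 (inv_mem s1))
  poly k 𝕜 Ω Ω' _ _ _ _ _ _ _ _ _ ι O h x hx P hP := by
    have li : LinearIndependent k fun i : ℕ => x ^ i := linearIndependent_iff'.2 fun t g e i hi => by
      have h1 := transcendental_iff.1 hx (∑ j ∈ t, monomial j (g j)) (by
        simpa [map_sum, aeval_monomial, Algebra.smul_def] using e)
      simpa [coeff_monomial, hi] using congrArg (fun Q => coeff Q i) h1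
    have e : aeval (ι x) P = ∑ i ∈ Finset.range (P.natDegree + 1), P.coeff i • ι (x ^ i) := by
      simp only [aeval_eq_sum_range, map_pow]
    have h1 : ∀ i ∈ Finset.range (P.natDegree + 1),
        O.valuation (algebraMap 𝕜 Ω' (P.coeff i)) ≤ 1 := by
      by_cases hc : ∃ i ∈ Finset.range (P.natDegree + 1), P.coeff i ≠ 0
      · obtain ⟨m, -, -, h2, d, hd⟩ := key h _ _ hc
        obtain ⟨e1, U, e2, e3⟩ := hd _ li
        have h3 := (O.valuation_le_one_iff _).2 hP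
        rw [e, e3, map_mul, rd_one h.mem e2 e1, mul_one] at h3
        exact fun i hi => (h2 i hi).trans h3
      · push Not at hc
        exact fun i hi => by simp [hc i hi]
    refine ⟨fun i => ?_, ?_⟩
    · by_cases hi : i < P.natDegree + 1
      · exact (O.valuation_le_one_iff _).1 (h1 i (Finset.mem_range.2 hi))
      · rw [coeff_eq_zero_of_natDegree_lt (by omega), map_zero]
        exact zero_mem O
    · obtain ⟨d, -, hd⟩ := rd_comb h _ _ h1
      refine ⟨∑ i ∈ Finset.range (P.natDegree + 1), monomial i (d i),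
        natDegree_sum_le_of_forall_le _ _ fun i hi => (natDegree_monomial_le _).trans
          (Nat.lt_succ_iff.1 (Finset.mem_range.1 hi)), ?_⟩
      rw [e]
      simpa only [map_sum, aeval_monomial, Algebra.smul_def] using hd fun i => x ^ i
  uniq k 𝕜 Ω Ω' _ _ _ _ _ _ _ _ _ _ ι O h F x hx γ hγ a ha := by
    obtain ⟨P, hP, Q, hQ, rfl⟩ := IntermediateField.mem_adjoin_iff_div.1 ha
    have e := found.res.spec k 𝕜 Ω Ω' x hx.co ι γ hγ
    rw [← O.valuation_le_one_iff, ← O.valuation_le_one_iff, map_div₀, map_div₀, map_div₀,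
      val_aut h F e hP, val_aut h F e hQ]

end Pool.Agent.Lib.IW2
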