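import Pool.Agent.Lib.IW2.Blue

/-! Functions with prescribed poles. -/

open Polynomial IntermediateField

namespace Pool.Agent.Lib.IW2

open Pool.Agent.Lib.IW

namespace PI

open MP_e06174_ag MP_ba4752_ag Place Unif

variable {k K : Type} [Field k] [IsAlgClosed k] [Field K] [Algebra k K]

lemma tr_of_ord {v : Place k K} {t : K} (h : v.ord t ≠ 0) : Transcendental k t :=
  transcendental_of_ne_const fun a ha => h (by rw [ha, ord_const])

lemma one {x : K} (h : SepCoord k x) {v₀ v₁ : Place k K} (hne : v₀ ≠ v₁) :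
    ∃ π : K, π ≠ 0 ∧ v₀.ord π = 1 ∧ ∀ v, v ≠ v₁ → v.Ge 0 π := by
  classical
  obtain ⟨t, j, ht, hj, -, hreg⟩ := h.exists_single_pole v₁ Nat.one_pos
  obtain ⟨u, hu0, hu⟩ := v₀.exists_ord_eq_one
  let T := (finite_poles h u).toFinset.erase v₁
  have hT : ∀ v, v ∈ T ↔ v ≠ v₁ ∧ v.ord u < 0 := fun v => by
    simp [T]
  obtain ⟨s, hs, hs0, hs1⟩ := sep_place h (tr_of_ord (v := v₁) (t := t) (by omega)) v₀ T
    (hreg v₀ hne) (fun e => by have := ((hT _).1 e).2; omega) fun v hv => hreg v ((hT v).1 hv).1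
  obtain ⟨h1, h2⟩ := ord_eq_zero_of_ge_sub_const (p := v₀) (y := s) (c := 1) one_ne_zero
    (by rwa [map_one])
  let n := ∑ v ∈ T, (v.ord u).natAbs
  refine ⟨u * s ^ n, mul_ne_zero hu0 (pow_ne_zero _ h1), ?_, fun v hv => ?_⟩
  · rw [v₀.ord_mul hu0 (pow_ne_zero _ h1), ord_pow, h2, hu]; simp
  · by_cases hvT : v ∈ T
    · have h3 : (v.ord u).natAbs ≤ n :=
        Finset.single_le_sum (f := fun v : Place k K => (v.ord u).natAbs)
          (fun _ _ => Nat.zero_le _) hvT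
      exact (ge_ord u).mul' ((hs1 v hvT).pow n) (by omega)
    · have h3 : 0 ≤ v.ord u := not_lt.1 fun e => hvT ((hT v).2 ⟨hv, e⟩)
      exact (ge_ord u).mul' ((hs v (hreg v hv)).pow n) (by omega)

lemma two {x : K} (h : SepCoord k x) (S : Finset (Place k K)) {n : ℕ} (hn : 0 < n) :
    ∃ u : K, (∀ v ∈ S, ∃ j : ℕ, v.ord u = -j ∧ 0 < j ∧ j.Coprime n) ∧ ∀ v ∉ S, v.Ge 0 u := by
  classical
  choose t j ht hj hc hreg using fun v : Place k K => h.exists_single_pole v hn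
  refine ⟨∑ v ∈ S, t v, fun v hv => ⟨j v, ?_, hj v, hc v⟩,
    fun v hv => Ge.sum fun w hw => hreg w v fun e => hv (e ▸ hw)⟩
  have h1 := ht v
  have h2 := hj v
  have h0 : t v ≠ 0 := by
    intro e
    rw [e, ord_zero] at h1
    omega
  rw [← Finset.add_sum_erase _ _ hv, (ord_add_of_ge h0 ((Ge.sum fun w hw =>
    hreg w v (Finset.ne_of_mem_erase hw).symm).mono (by omega))).2, h1]

end PI

open MP_e06174_ag MP_ba4752_ag Place Unif in
theorem blockPI (FB1 : StmtFB1) : StmtPI where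
  pi1 := by
    intro k Ω _ _ _ _ _ F hF W₀ W₁ h₀ h₁ hne
    obtain ⟨x, hx⟩ := exists_sep hF
    obtain ⟨v₀, hv₀⟩ := exists_rs hF h₀
    obtain ⟨v₁, hv₁⟩ := exists_rs hF h₁
    obtain ⟨π, hπ0, hπ, hreg⟩ := PI.one hx (v₀ := v₀) (v₁ := v₁)
      fun e => hne ((hv₀.agr_iff hv₁).2 e)
    refine ⟨π, ⟨π.2, by simpa using hπ0, (hv₀.lt_iff π).2 (ge_of_le hπ.ge), fun y hy h => ?_⟩,
      fun W hW h => ?_⟩
    · exact (hv₀.le_iff ⟨y, hy⟩ hπ0).2 (hπ ▸ (hv₀.lt_iff ⟨y, hy⟩).1 h)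
    · obtain ⟨v, hv⟩ := exists_rs hF hW
      by_contra e
      exact h ((hv π).2 (hreg v fun e' => e ((hv.agr_iff hv₁).2 e')))
  pi2 := by
    intro p hp k Ω _ _ _ _ _ _ F hF T hT hpl
    classical
    obtain ⟨x, hx⟩ := exists_sep hF
    choose w hw using fun V : T => exists_rs hF (hpl V V.2)
    obtain ⟨u, hu, hreg⟩ := PI.two hx (Finset.univ.image w) hp.out.pos
    obtain ⟨V₀, hV₀⟩ := hT
    obtain ⟨j, hj, hj0, hjc⟩ := hu (w ⟨V₀, hV₀⟩) (Finset.mem_image_of_mem _ (Finset.mem_univ _))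
    have htr : Transcendental k (u : Ω) := fun e =>
      PI.tr_of_ord (v := w ⟨V₀, hV₀⟩) (t := u) (by omega)
        ((isAlgebraic_algHom_iff F.val Subtype.val_injective).1 e)
    obtain ⟨hfg, x₀, -, hx₀⟩ := id hF
    have hco := found.bas.coOf k Ω x₀ u hx₀ htr
    refine ⟨u, ⟨hco, hfg, u.2, fun y hy => ?_⟩, fun W hW => ?_⟩
    · by_contra hs
      obtain ⟨z, hz, e⟩ := FB1.ins p k Ω u y (hco.alg y) hs
      have hzF : z ∈ F := (adjoin_le_iff.2 (by
        rintro _ (rfl | rfl)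
        · exact u.2
        · exact hy) : k⟮(u : Ω), y⟯ ≤ F) hz
      have e' : (⟨z, hzF⟩ : F) ^ p = u := Subtype.ext e
      rw [← e', ord_pow] at hj
      have h1 : (p : ℤ) ∣ (j : ℤ) := Int.dvd_neg.1 ⟨_, hj.symm⟩
      exact (hp.out.coprime_iff_not_dvd.1 hjc.symm) (Int.natCast_dvd_natCast.1 h1)
    · obtain ⟨v, hv⟩ := exists_rs hF hW
      rw [hv u]
      constructor
      · intro h
        by_contra e
        refine h (hreg v fun hm => e ?_)
        obtain ⟨V, -, rfl⟩ := Finset.mem_image.1 hm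
        exact ⟨V, V.2, (hv.agr_iff (hw V)).2 rfl⟩
      · rintro ⟨V, hV, e⟩ h
        obtain rfl := (hv.agr_iff (hw ⟨V, hV⟩)).1 e
        obtain ⟨i, hi, hi0, -⟩ := hu _ (Finset.mem_image_of_mem w (Finset.mem_univ ⟨V, hV⟩))
        have h0 : u ≠ 0 := by
          intro e
          rw [e, ord_zero] at hi
          omega
        have := h.le h0
        omega

end Pool.Agent.Lib.IW2
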