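import Pool.Agent.Lib.IW2.Blue

/-! Purity of the branch locus. -/

open Polynomial IntermediateField
open scoped Pointwise

namespace Pool.Agent.Lib.IW2

open Pool.Agent.Lib.IW

namespace PUR

variable {𝕜 Ω G : Type} [Field 𝕜] [Field Ω] [Algebra 𝕜 Ω] [Fintype G] [DecidableEq G]

lemma det_mem (W : ValuationSubring Ω) (X : Matrix G G Ω) (h : ∀ g i, X g i ∈ W) : X.det ∈ W := by
  have := W.subtype.map_det (Matrix.of fun g i => (⟨X g i, h g i⟩ : W))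
  exact (show (W.subtype.mapMatrix (Matrix.of fun g i => (⟨X g i, h g i⟩ : W))) = X from rfl) ▸
    this ▸ SetLike.coe_mem _

/-- A matrix with small determinant has a singular residue matrix. -/
lemma sing (W : ValuationSubring Ω) (hW : ∀ c : 𝕜, algebraMap 𝕜 Ω c ∈ W) (X : Matrix G G Ω)
    (hX : ∀ g i, X g i ∈ W) (r : Matrix G G 𝕜)
    (h : ∀ g i, W.valuation (X g i - algebraMap 𝕜 Ω (r g i)) < 1) (hd : W.valuation X.det < 1) :
    ∃ c : G → 𝕜, c ≠ 0 ∧ ∀ g, W.valuation (∑ i, algebraMap 𝕜 Ω (c i) * X g i) < 1 := by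
  let φ : 𝕜 →+* W := (algebraMap 𝕜 Ω).codRestrict W hW
  let A : Matrix G G W := Matrix.of fun g i => ⟨X g i, hX g i⟩
  have h1 : (IsLocalRing.residue W).mapMatrix A = ((IsLocalRing.residue W).comp φ).mapMatrix r := by
    ext g i
    exact (Ideal.Quotient.mk_eq_mk_iff_sub_mem _ _).2 ((W.valuation_lt_one_iff _).2 (h g i))
  have h2 : (A.det : Ω) = X.det := W.subtype.map_det A
  have h3 : ((IsLocalRing.residue W).comp φ) r.det = 0 := by
    rw [RingHom.map_det, ← h1, ← RingHom.map_det, IsLocalRing.residue_eq_zero_iff,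
      W.valuation_lt_one_iff, h2]
    exact hd
  obtain ⟨c, c0, hc⟩ := Matrix.exists_mulVec_eq_zero_iff.2 ((map_eq_zero _).1 h3)
  refine ⟨c, c0, fun g => ?_⟩
  have h4 : ∑ i, algebraMap 𝕜 Ω (c i) * algebraMap 𝕜 Ω (r g i) = 0 := by
    simpa [Matrix.mulVec, dotProduct, mul_comm] using congrArg (algebraMap 𝕜 Ω) (congrFun hc g)
  rw [← sub_zero (∑ i, _), ← h4, ← Finset.sum_sub_distrib]
  refine Valuation.map_sum_lt _ one_ne_zero fun i _ => ?_
  rw [← mul_sub, map_mul]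
  exact mul_lt_one_of_nonneg_of_lt_one_right ((W.valuation_le_one_iff _).2 (hW _)) zero_le (h g i)

lemma div_mem (W : ValuationSubring Ω) {y π : Ω} (h : W.valuation y ≤ W.valuation π) :
    y / π ∈ W := by
  rw [← W.valuation_le_one_iff, map_div₀]
  exact div_le_one_of_le₀ h zero_le

end PUR

theorem blockPUR (hRX : StmtRX) (hV : StmtVAND) (hD : StmtDISC) (hL : StmtLAT) : StmtPUR := by
  intro p _ k 𝕜 Ω Ω' _ _ _ _ _ _ _ _ _ _ _ _ _ _ ι O hO F u hF hu V hV' hU G _ _ _ ρ hC hT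
  have : CharP 𝕜 p := charP_of_injective_algebraMap (algebraMap k 𝕜).injective p
  have hE := hRX.extf k 𝕜 Ω Ω' ι F u hF hu
  have hk : ∀ c : k, algebraMap k Ω' c ∈ O := fun c => ι.commutes c ▸ hO.mem _
  obtain ⟨-, d2, d3, -⟩ := hD p k 𝕜 Ω Ω' ι O hk F u hF hu V hV' hU
  obtain ⟨X, x1, x2, x3, x4, x5⟩ := hL p k 𝕜 Ω Ω' ι O hO F u hF hu V hV' hU G ρ hC 1 0 one_pos
  simp only [pow_one, pow_zero, mul_one] at x4 x5
  have x0 : X.det ≠ 0 := fun t => by simp [t] at x3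
  obtain ⟨i1, i2⟩ := hV.invm 𝕜 Ω' _ G ρ X x1 x0
  have key : ∀ W, In 𝕜 ι O F V W → W.valuation X.det = 1 := fun W hW => by
    refine le_antisymm ((W.valuation_le_one_iff _).2 (PUR.det_mem W X fun g i => x4 g i W hW))
      (not_lt.1 fun hd => ?_)
    choose r hr using fun g i => found.bas.resid 𝕜 Ω' _ hu W hW.1 _ (x4 g i W hW)
    obtain ⟨c, c0, hc⟩ := PUR.sing W hW.1.2 X (fun g i => x4 g i W hW) r hr hd
    obtain ⟨-, e, e1, e2⟩ := d2 W hW
    have hA : Alg (Ext 𝕜 ι F) ρ fun g => ∑ i, algebraMap 𝕜 Ω' (c i) * X g i :=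
      Alg.sum _ fun i _ => (Alg.const (IntermediateField.algebraMap_mem _ _)).mul (x1 i)
    have h1 : ∀ g, (∑ i, algebraMap 𝕜 Ω' (c i) * X g i) / (ι u - algebraMap 𝕜 Ω' e) ∈ W := by
      intro g
      by_cases y0 : ∑ i, algebraMap 𝕜 Ω' (c i) * X g i = 0
      · rw [y0, zero_div]; exact zero_mem W
      obtain ⟨n, hn⟩ := found.hens.hens p 𝕜 Ω' _ hE.ff W hW.1 _ e2 _ y0 (hA.1 g) fun γ hγ => by
        rw [hA.2 γ (DecF_le _ _ hγ), hT W hW γ hγ, one_mul]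
      have p0 : 0 < W.valuation (ι u - algebraMap 𝕜 Ω' e) := (Valuation.pos_iff _).2 e2.2.1
      have h2 := hc g
      rw [hn, zpow_lt_one_iff_right_of_lt_one₀ p0 e2.2.2.1] at h2
      refine PUR.div_mem W ?_
      rw [hn]
      exact (zpow_le_zpow_right_of_le_one₀ p0 e2.2.2.1.le h2).trans_eq (zpow_one _)
    refine c0 (x5 c e e1 fun g W' hW' => ?_)
    by_cases t : W'.valuation (ι u - algebraMap 𝕜 Ω' e) < 1
    · obtain ⟨γ, g1, rfl⟩ := found.conj 𝕜 Ω' _ hE.alg W W' (d3 W W' e hW hW' e2.2.2.1 t)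
      have := ((found.bas.smulPl 𝕜 Ω' W hW.1 γ).2.1 _).2 (h1 ((ρ γ)⁻¹ * g))
      rwa [map_div₀, hA.2 γ g1, mul_inv_cancel_left, fix_apply g1 e2.1] at this
    · exact PUR.div_mem W' (((W'.valuation_le_one_iff _).2 (sum_mem fun i _ =>
        mul_mem (hW'.1.2 _) (x4 g i W' hW'))).trans (not_lt.1 t))
  exact ⟨X, X⁻¹, fun i => ⟨x1 i, i1 i⟩, fun g i => ⟨⟨x2 g i, x4 g i⟩, i2 O x2 x3 i g, fun W hW =>
    i2 W (fun g i => x4 g i W hW) (key W hW) i g⟩, Matrix.mul_nonsing_inv _ (Ne.isUnit x0)⟩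

end Pool.Agent.Lib.IW2
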