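import Pool.Agent.Lib.IW2.Blue

/-! Block RED2: the reduction is unramified where the residue disc has no branch point. -/

open Polynomial IntermediateField
open scoped Pointwise

namespace Pool.Agent.Lib.IW2

open Pool.Agent.Lib.IW

namespace RED2

variable {k 𝕜 Ω Ω' : Type} [Field k] [Field 𝕜] [Field Ω] [Field Ω'] [Algebra k Ω] [Algebra k Ω']
  [Algebra 𝕜 Ω'] {ι : Ω →ₐ[k] Ω'} {O : ValuationSubring Ω'}

lemma rd_mul (hm : ∀ s, ι s ∈ O) {s t : Ω'} {a b : Ω} (hs : s ∈ O) (h1 : Rd ι O s a)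
    (h2 : Rd ι O t b) : Rd ι O (s * t) (a * b) := by
  unfold Rd at *
  have e : s * t - ι (a * b) = s * (t - ι b) + (s - ι a) * ι b := by
    rw [map_mul]; ring
  rw [e]
  refine Valuation.map_add_lt _ ?_ ?_
  · rw [map_mul]
    exact mul_lt_one_of_nonneg_of_lt_one_right ((O.valuation_le_one_iff s).2 hs) zero_le h2
  · rw [map_mul]
    exact mul_lt_one_of_nonneg_of_lt_one_left zero_le h1 ((O.valuation_le_one_iff _).2 (hm b))

lemma rd_sum {J : Type} (T : Finset J) {s : J → Ω'} {a : J → Ω} (h : ∀ i, Rd ι O (s i) (a i)) :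
    Rd ι O (∑ i ∈ T, s i) (∑ i ∈ T, a i) := by
  unfold Rd at *
  rw [map_sum, ← Finset.sum_sub_distrib]
  exact Valuation.map_sum_lt _ one_ne_zero fun i _ => h i

lemma rd_self (a : Ω) : Rd ι O (ι a) a := by
  unfold Rd
  rw [sub_self, map_zero]
  exact zero_lt_one

lemma trans_of [Algebra k 𝕜] [IsScalarTower k 𝕜 Ω'] (ORTH : StmtORTH) (hR : RedD 𝕜 ι O) {u : Ω}
    (hu : Transcendental k u) : Transcendental 𝕜 (ι u) := by
  rintro ⟨P, hP, h0⟩
  have hall : ∀ c : 𝕜, algebraMap 𝕜 Ω' c ∈ O := fun c => by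
    have h1 : aeval (ι u) (C (c / P.leadingCoeff) * P) ∈ O := by
      rw [map_mul, h0, mul_zero]
      exact zero_mem O
    have h2 := (ORTH.poly k 𝕜 Ω Ω' ι O hR u hu _ h1).1 P.natDegree
    rwa [coeff_C_mul, coeff_natDegree, div_mul_cancel₀ _ (leadingCoeff_ne_zero.2 hP)] at h2
  have hs : Function.Surjective (algebraMap k 𝕜) := fun c => by
    obtain ⟨c₀, hc⟩ := hR.con c (hall c)
    refine ⟨c₀, by_contra fun hne => ?_⟩
    have hd : c - algebraMap k 𝕜 c₀ ≠ 0 := fun e => hne (sub_eq_zero.1 e).symm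
    rw [IsScalarTower.algebraMap_apply k 𝕜 Ω', ← map_sub] at hc
    have h3 := mul_lt_one_of_nonneg_of_lt_one_left zero_le hc
      ((O.valuation_le_one_iff _).2 (hall (c - algebraMap k 𝕜 c₀)⁻¹))
    rw [← map_mul, ← map_mul, mul_inv_cancel₀ hd, map_one, map_one] at h3
    exact lt_irrefl _ h3
  obtain ⟨P₀, rfl⟩ := Polynomial.map_surjective _ hs P
  rw [aeval_map_algebraMap, aeval_algHom_apply, _root_.map_eq_zero] at h0
  exact hu ⟨P₀, fun e => hP (by rw [e, Polynomial.map_zero]), h0⟩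

end RED2

theorem blockRED2 (FB1 : StmtFB1) (SH2 : StmtSH2) (ORTH : StmtORTH) (MAX : StmtMAX)
    (PUR : StmtPUR) : StmtRED2 := by
  intro p _ k 𝕜 Ω Ω' _ _ _ _ _ _ _ _ _ _ _ _ _ _ ι O hR F x hF hc V hV G _ _ _ ρ β hC hβ hT
  obtain ⟨u, hun⟩ := found.unif.ex k Ω F hF.ff V hV
  have hu : FS F u := FB1.sepu p k Ω F hF.ff V u hV hun
  have hcu : Co 𝕜 (ι u) :=
    found.bas.coOf 𝕜 Ω' (ι x) (ι u) hc (RED2.trans_of ORTH hR hu.co.tr)
  obtain ⟨X, X', h1, h2, h3⟩ := PUR p k 𝕜 Ω Ω' ι O hR F u hu hcu V hV hun G ρ hC hT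
  obtain ⟨U, hU1, hU2⟩ := SH2.cmpRed k 𝕜 Ω Ω' ι O hR V
  obtain ⟨-, m2, -, m4, -⟩ := MAX p k 𝕜 Ω Ω' ι O hR F u hu hcu V hV hun
  have hcen := m4 U hU1 hU2
  have a1 : ∀ g i, ∃ s₀ ∈ V, Rd ι O (X g i) s₀ := fun g i =>
    (hU1 _).1 (m2 G ρ _ (h1 i).1 (fun g => (h2 g i).1) U hcen g)
  have a2 : ∀ i g, ∃ s₀ ∈ V, Rd ι O (X' i g) s₀ := fun i g =>
    (hU1 _).1 (m2 G ρ _ (h1 i).2 (fun g => (h2 g i).2) U hcen g)
  choose X₀ b1 b2 using a1
  choose X₀' b3 b4 using a2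
  have key : ∀ g h, ∑ i, X₀ g i * X₀' i h = if g = h then 1 else 0 := fun g h => by
    have e1 : ∑ i, X g i * X' i h = if g = h then 1 else 0 := by
      rw [← Matrix.mul_apply, h3, Matrix.one_apply]
    have e2 := RED2.rd_sum (ι := ι) (O := O) Finset.univ fun i =>
      RED2.rd_mul hR.mem (mem_Reg.1 (h2 g i).1).1 (b2 g i) (b4 i h)
    refine ORTH.uniq₀ k Ω Ω' ι O hR.mem _ _ _ e2 ?_
    rw [e1]
    have e3 := RED2.rd_self (ι := ι) (O := O) (if g = h then 1 else 0)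
    split_ifs at e3 ⊢
    · rwa [map_one] at e3
    · rwa [map_zero] at e3
  intro γ hγ
  by_contra hne
  have hm := (found.bas.move k Ω x hF.co V hV γ (mem_DecF.1 hγ).2).1
  have c1 : ∀ i, V.valuation ((X₀ (β γ) i - X₀ 1 i) * X₀' i 1) < 1 := fun i => by
    have d1 := (hβ.down _ (fun g => X₀ g i) (h1 i).1 fun g => b2 g i).2 γ (DecF_le F V hγ) 1
    have d2 := hm _ (b1 1 i)
    rw [d1, mul_one] at d2
    rw [map_mul]
    exact mul_lt_one_of_nonneg_of_lt_one_left zero_le d2 ((V.valuation_le_one_iff _).2 (b3 i 1))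
  have c2 := Valuation.map_sum_lt V.valuation (s := Finset.univ) one_ne_zero fun i _ => c1 i
  simp only [sub_mul, Finset.sum_sub_distrib, key, if_neg hne, if_true, zero_sub,
    Valuation.map_neg, map_one] at c2
  exact lt_irrefl _ c2

end Pool.Agent.Lib.IW2
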