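import Pool.Agent.Lib.IW2.Blue

/-! The reduced representation. -/

open Polynomial IntermediateField
open scoped Pointwise

namespace Pool.Agent.Lib.IW2

open Pool.Agent.Lib.IW

namespace RREP

lemma row_inj {Ω G : Type} [Field Ω] [Fintype G] [DecidableEq G] {X X' : Matrix G G Ω}
    (h : X * X' = 1) {g g' : G} (e : ∀ i, X g i = X g' i) : g = g' := by
  by_contra t
  have h1 : (X * X') g g' = (X * X') g' g' := by simp only [Matrix.mul_apply, e]
  rw [h, Matrix.one_apply_ne t, Matrix.one_apply_eq] at h1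
  exact zero_ne_one h1

lemma back {Ω G : Type} [Field Ω] [Fintype G] [DecidableEq G] {X X' : Matrix G G Ω}
    (h : X * X' = 1) (u : G → Ω) (g : G) : ∑ i, X g i * ∑ j, X' i j * u j = u g := by
  have := congrFun (Matrix.mulVec_mulVec u X X') g
  rw [h, Matrix.one_mulVec] at this
  exact this

/-- Values of a function all of whose powers have rational coordinates are separable. -/
lemma sep_of {F Ω G : Type} [Field F] [Field Ω] [Algebra F Ω] [Fintype G] [DecidableEq G]
    {X X' : Matrix G G Ω} (h : X * X' = 1) {u : G → Ω}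
    (hu : ∀ (n : ℕ) i, ∃ a : F, algebraMap F Ω a = ∑ j, X' i j * u j ^ n) (g : G) :
    IsSeparable F (u g) := by
  classical
  obtain ⟨l, hl⟩ := (Algebra.linearMap F Ω).exists_leftInverse_of_injective
    (LinearMap.ker_eq_bot.2 (algebraMap F Ω).injective)
  have l1 : l 1 = 1 := by simpa using LinearMap.congr_fun hl 1
  choose a ha using hu
  set s := Finset.univ.image u with hs
  set P : Polynomial Ω := ∏ v ∈ s, (Polynomial.X - C v) with hP
  have hm : P.Monic := monic_prod_of_monic _ _ fun v _ => monic_X_sub_C v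
  have hd : P.natDegree = s.card := by
    rw [hP, natDegree_prod_of_monic _ _ fun v _ => monic_X_sub_C v]
    simp
  have hr : ∀ v ∈ s, P.eval v = 0 := fun v hv => by
    rw [hP, eval_prod]
    exact Finset.prod_eq_zero hv (by simp)
  set μ : Polynomial F := ∑ n ∈ Finset.range (s.card + 1), monomial n (l (P.coeff n)) with hμ
  have hc : ∀ n, μ.coeff n = l (P.coeff n) := fun n => by
    rw [hμ, finsetSum_coeff]
    simp only [coeff_monomial, Finset.sum_ite_eq', Finset.mem_range]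
    split_ifs with t
    · rfl
    · rw [coeff_eq_zero_of_natDegree_lt (by omega), map_zero]
  have hμm : μ.Monic ∧ μ.natDegree = s.card := by
    have h1 : μ.natDegree ≤ s.card := natDegree_le_iff_coeff_eq_zero.2 fun n hn => by
      rw [hc, coeff_eq_zero_of_natDegree_lt (by omega), map_zero]
    have h2 : μ.coeff s.card = 1 := by rw [hc, ← hd, hm.coeff_natDegree, l1]
    exact ⟨monic_of_natDegree_le_of_coeff_eq_one _ h1 h2,
      natDegree_eq_of_le_of_coeff_ne_zero h1 (by rw [h2]; exact one_ne_zero)⟩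
  have key : ∀ (c : ℕ → Ω) i, ∑ j, X' i j * ∑ n ∈ Finset.range (s.card + 1), c n * u j ^ n =
      ∑ n ∈ Finset.range (s.card + 1), a n i • c n := fun c i => by
    simp only [Finset.mul_sum, Algebra.smul_def, ha, Finset.sum_mul]
    rw [Finset.sum_comm]
    exact Finset.sum_congr rfl fun n _ => Finset.sum_congr rfl fun j _ => by ring
  have hz : ∀ j, aeval (u j) μ = 0 := fun j => by
    have h1 : ∀ j, aeval (u j) μ =
        ∑ n ∈ Finset.range (s.card + 1), algebraMap F Ω (l (P.coeff n)) * u j ^ n := fun j => by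
      rw [hμ, map_sum]
      simp only [aeval_monomial]
    rw [← back h (fun j => aeval (u j) μ) j]
    refine Finset.sum_eq_zero fun i _ => mul_eq_zero_of_right _ ?_
    have h2 : ∑ n ∈ Finset.range (s.card + 1), a n i • P.coeff n = 0 := by
      rw [← key]
      refine Finset.sum_eq_zero fun j _ => mul_eq_zero_of_right _ ?_
      rw [← hd, ← eval_eq_sum_range]
      exact hr _ (Finset.mem_image_of_mem u (Finset.mem_univ j))
    have h3 := congrArg (fun y => algebraMap F Ω (l y)) h2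
    simp only [map_sum, map_smul, map_zero, smul_eq_mul, map_mul] at h3
    simp only [h1, key, Algebra.smul_def]
    exact h3
  have he : μ.map (algebraMap F Ω) = P := by
    refine eq_of_degree_le_of_eval_finset_eq s ?_ ?_ ?_ fun v hv => ?_
    · rw [degree_map, degree_eq_natDegree hμm.1.ne_zero, hμm.2]
    · rw [degree_map, degree_eq_natDegree hμm.1.ne_zero, hμm.2, degree_eq_natDegree hm.ne_zero, hd]
    · rw [(hμm.1.map _).leadingCoeff, hm.leadingCoeff]
    · obtain ⟨j, -, rfl⟩ := Finset.mem_image.1 hv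
      rw [eval_map_algebraMap, hz, hr _ hv]
  have hsep : μ.Separable := by
    rw [← separable_map (algebraMap F Ω), he]
    exact separable_prod_X_sub_C_iff'.2 fun _ _ _ _ e => e
  exact hsep.of_dvd (minpoly.dvd F _ (hz g))

variable {k 𝕜 Ω Ω' : Type} [Field k] [Field 𝕜] [Field Ω] [Field Ω'] [Algebra k Ω]
  [Algebra k Ω'] [Algebra 𝕜 Ω'] {ι : Ω →ₐ[k] Ω'} {O : ValuationSubring Ω'}

lemma rd_self (s : Ω) : Rd ι O (ι s) s := by simp [Rd]

lemma rd_mem (h : RedD 𝕜 ι O) {s : Ω'} {s₀ : Ω} (e : Rd ι O s s₀) : s ∈ O := by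
  have := add_mem ((O.valuation_le_one_iff _).1 e.le) (h.mem s₀)
  rwa [sub_add_cancel] at this

/-- The residue homomorphism. -/
lemma ex_phi (h : RedD 𝕜 ι O) :
    ∃ φ : O.toSubring →+* Ω, ∀ (s : O.toSubring) s₀, Rd ι O s s₀ ↔ φ s = s₀ := by
  let j : Ω →+* IsLocalRing.ResidueField O :=
    (IsLocalRing.residue O).comp (ι.toRingHom.codRestrict O.toSubring h.mem)
  have key : ∀ (s : O) s₀, Rd ι O s s₀ ↔ IsLocalRing.residue O s = j s₀ := fun s s₀ => by
    have := (O.valuation_lt_one_iff (s - ⟨ι s₀, h.mem s₀⟩)).symm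
    rw [← IsLocalRing.residue_eq_zero_iff, map_sub, sub_eq_zero] at this
    exact this
  have hj : Function.Bijective j := ⟨j.injective, fun y => by
    obtain ⟨s, rfl⟩ := IsLocalRing.residue_surjective y
    obtain ⟨s₀, e⟩ := h.res s s.2
    exact ⟨s₀, ((key s s₀).1 e).symm⟩⟩
  refine ⟨(RingEquiv.ofBijective j hj).symm.toRingHom.comp (IsLocalRing.residue O),
    fun s s₀ => (key s s₀).trans ?_⟩
  exact ((RingEquiv.ofBijective j hj).symm_apply_eq).symm

/-- The reduction of a certificate. -/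
lemma cert_red {G : Type} [Group G] [Fintype G] [DecidableEq G] {E : IntermediateField 𝕜 Ω'}
    {ρ : Aut 𝕜 Ω' → G} (h : Cert E ρ O) (φ : O.toSubring →+* Ω) :
    ∃ X X' : Matrix G G O.toSubring, (∀ i, Alg E ρ (fun g => X g i) ∧ Alg E ρ fun g => X' i g) ∧
      X.map φ * X'.map φ = 1 := by
  obtain ⟨X, X', h1, h2, h3⟩ := h
  refine ⟨Matrix.of fun g i => ⟨X g i, (h2 g i).1⟩, Matrix.of fun i g => ⟨X' i g, (h2 g i).2⟩,
    h1, ?_⟩
  rw [← Matrix.map_mul, ← Matrix.map_one φ (map_zero φ) (map_one φ)]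
  congr 1
  refine Matrix.map_injective O.toSubring.subtype_injective ?_
  change Matrix.map _ O.toSubring.subtype = Matrix.map _ O.toSubring.subtype
  rw [Matrix.map_mul, Matrix.map_one _ (map_zero _) (map_one _)]
  exact h3

end RREP

open RREP in
theorem blockRREP (RX : StmtRX) (HOM : StmtHOM) (ORTH : StmtORTH) : StmtRREP where
  ex := by
    classical
    intro k 𝕜 Ω Ω' _ _ _ _ _ _ _ _ _ _ _ ι O hR F x hF hx G _ _ _ ρ hC
    obtain ⟨φ, hφ⟩ := ex_phi hR
    have hE := (RX.extf k 𝕜 Ω Ω' ι F x hF hx).alg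
    have hres : ∀ a : O.toSubring, (a : Ω') ∈ Ext 𝕜 ι F → φ a ∈ F := fun a ha =>
      ORTH.resf k 𝕜 Ω Ω' ι O hR F x hF a ha _ ((hφ a _).2 rfl)
    have hex : ∀ γ : Aut k Ω, ∃ h : G, γ ∈ F.fixingSubgroup → ∀ f : G → O.toSubring,
        Alg (Ext 𝕜 ι F) ρ (fun g => f g) → ∀ g, γ (φ (f g)) = φ (f (h * g)) := fun γ => by
      by_cases hγ : γ ∈ F.fixingSubgroup
      · obtain ⟨h, e⟩ := (HOM 𝕜 Ω' Ω (Ext 𝕜 ι F) hE G ρ O.toSubring hC φ
          ((γ : Ω →+* Ω).comp φ) fun a ha => (fix_apply hγ (hres a ha)).symm).1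
        exact ⟨h, fun _ => e⟩
      · exact ⟨1, fun t => absurd t hγ⟩
    choose β hβ using hex
    obtain ⟨X, X', h1, h2⟩ := cert_red hC φ
    have down : ∀ f : G → O.toSubring, Alg (Ext 𝕜 ι F) ρ (fun g => f g) →
        Alg F β fun g => φ (f g) := fun f hf => by
      refine ⟨sep_of h2 fun n i => ⟨⟨φ (∑ j, X' i j * f j ^ n), hres _ ?_⟩, ?_⟩,
        fun γ hγ => hβ γ hγ f hf⟩
      · simpa using ((h1 i).2.mul (hf.pow n)).tr_mem hE
      · simp
    refine ⟨β, ⟨fun γ hγ δ hδ => row_inj h2 fun i => ?_,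
      Finset.univ.image fun i => φ (X 1 i), fun γ hγ δ hδ e => row_inj h2 fun i => ?_⟩,
      fun f f₀ hf e => ?_, fun f₀ hf => ?_⟩
    · have a1 := hβ _ (mul_mem hγ hδ) _ (h1 i).1 1
      rw [AlgEquiv.mul_apply, hβ _ hδ _ (h1 i).1, hβ _ hγ _ (h1 i).1, mul_one, mul_one] at a1
      exact a1.symm
    · have a1 := e _ (Finset.mem_image_of_mem _ (Finset.mem_univ i))
      rw [hβ _ hδ _ (h1 i).1, hβ _ hγ _ (h1 i).1, mul_one, mul_one] at a1
      exact a1
    · have := down (fun g => ⟨f g, rd_mem hR (e g)⟩) hf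
      rwa [funext fun g => (hφ ⟨f g, rd_mem hR (e g)⟩ _).1 (e g)] at this
    · have ha : ∀ i, ∑ j, φ (X' i j) * f₀ j ∈ F := fun i =>
        ((down _ (h1 i).2).mul hf).tr_mem hF.alg
      refine ⟨fun g => ∑ i, X g i * ι (∑ j, φ (X' i j) * f₀ j),
        Alg.sum _ fun i _ => (h1 i).1.mul (Alg.const (mem_Ext ι (ha i))), fun g => ?_⟩
      have := (hφ (∑ i, X g i * ⟨ι (∑ j, φ (X' i j) * f₀ j), hR.mem _⟩) (f₀ g)).2 (by
        rw [← back h2 f₀ g, map_sum]
        refine Finset.sum_congr rfl fun i _ => ?_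
        rw [map_mul, (hφ ⟨_, hR.mem _⟩ _).1 (rd_self _)]
        rfl)
      simpa using this
  quot := by
    intro p _ k 𝕜 Ω Ω' _ _ _ _ _ _ _ _ _ _ _ _ ι O F x hF G G' _ _ _ ψ ρ β κ hβ hκ e γ hγ
    obtain ⟨y, h1, h2, -⟩ := exists_alg_inj p hF hκ
    have h3 := hβ.down (fun g => ι (y (ψ g))) (fun g => y (ψ g))
      ⟨fun g => RX.sep k 𝕜 Ω Ω' ι F _ (h1.1 _), fun δ hδ g => by
        have hx : δ (ι x) = ι x := fix_apply hδ (mem_Ext ι hF.mem)
        rw [← found.res.spec k 𝕜 Ω Ω' x hF.co ι δ hx,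
          h1.2 _ ((RX.fix k 𝕜 Ω Ω' ι F x hF.co hF.mem δ hx).1 hδ), ← e δ hδ, ← map_mul]⟩
      fun g => rd_self _
    have h4 := h2 ((h3.2 γ hγ 1).symm.trans (h1.2 γ hγ _))
    simpa using h4
  sub := by
    intro k 𝕜 Ω Ω' _ _ _ _ _ _ _ ι O hR F F' hle G _ _ _ ρ β β' hC hβ hβ' γ hγ
    obtain ⟨φ, hφ⟩ := ex_phi hR
    obtain ⟨X, X', h1, h2⟩ := cert_red hC φ
    refine row_inj h2 fun i => ?_
    have a1 := (hβ.down _ (fun g => φ (X g i)) (h1 i).1 fun g => (hφ _ _).2 rfl).2 γ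
      (IntermediateField.fixingSubgroup_le hle hγ) 1
    have a2 := (hβ'.down _ (fun g => φ (X g i)) ((h1 i).1.mono (Ext_mono ι hle))
      fun g => (hφ _ _).2 rfl).2 γ hγ 1
    rw [mul_one] at a1 a2
    exact a1.symm.trans a2

end Pool.Agent.Lib.IW2
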