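import Pool.Agent.Lib.IW2.Blue

/-! Block RX: constant extension and restriction. -/

open Polynomial IntermediateField
open scoped Pointwise

namespace Pool.Agent.Lib.IW2

open Pool.Agent.Lib.IW

namespace RX

variable {k 𝕜 Ω Ω' : Type} [Field k] [Field 𝕜] [Field Ω] [Field Ω']
  [Algebra k 𝕜] [Algebra k Ω] [Algebra k Ω'] [Algebra 𝕜 Ω'] [IsScalarTower k 𝕜 Ω']

lemma map_mem (ι : Ω →ₐ[k] Ω') {S : Set Ω} {E : IntermediateField 𝕜 Ω'}
    (h : ∀ s ∈ S, ι s ∈ E) {y : Ω} (hy : y ∈ IntermediateField.adjoin k S) : ι y ∈ E := by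
  induction hy using IntermediateField.adjoin_induction with
  | mem y hy => exact h y hy
  | algebraMap c =>
    rw [ι.commutes, IsScalarTower.algebraMap_apply k 𝕜 Ω']
    exact E.algebraMap_mem _
  | add a b _ _ ha hb => rw [map_add]; exact add_mem ha hb
  | inv a _ ha => rw [map_inv₀]; exact inv_mem ha
  | mul a b _ _ ha hb => rw [map_mul]; exact mul_mem ha hb

lemma ext1 (ι : Ω →ₐ[k] Ω') (S : Set Ω) :
    Ext 𝕜 ι (IntermediateField.adjoin k S) = IntermediateField.adjoin 𝕜 (ι '' S) := by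
  refine le_antisymm (IntermediateField.adjoin_le_iff.2 ?_)
    (IntermediateField.adjoin.mono _ _ _ (Set.image_mono (IntermediateField.subset_adjoin k S)))
  rintro _ ⟨y, hy, rfl⟩
  exact map_mem ι (fun s hs => IntermediateField.subset_adjoin 𝕜 _ (Set.mem_image_of_mem ι hs)) hy

omit [Algebra k 𝕜] [IsScalarTower k 𝕜 Ω'] in
lemma sep_to (ι : Ω →ₐ[k] Ω') {F : IntermediateField k Ω} {E : IntermediateField 𝕜 Ω'}
    (h : ∀ s ∈ F, ι s ∈ E) {y : Ω} (hy : IsSeparable F y) : IsSeparable E (ι y) := by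
  let f : F →+* E := (ι.toRingHom.comp (algebraMap F Ω)).codRestrict E.toSubfield
    fun a => h a a.2
  have h1 : ((minpoly F y).map f).Separable := Polynomial.Separable.map hy
  have h2 : aeval (ι y) ((minpoly F y).map f) = 0 := by
    have h3 := congrArg ι (minpoly.aeval F y)
    rw [map_zero, aeval_def] at h3
    rw [aeval_def, eval₂_map, ← h3]
    exact (hom_eval₂ (minpoly F y) (algebraMap F Ω) ι.toRingHom y).symm
  exact h1.of_dvd (minpoly.dvd E (ι y) h2)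

lemma extf (ι : Ω →ₐ[k] Ω') {F : IntermediateField k Ω} {x : Ω} (h : FS F x) (hx : Co 𝕜 (ι x)) :
    FS (Ext 𝕜 ι F) (ι x) := by
  classical
  refine ⟨hx, ?_, mem_Ext ι h.mem, fun y hy => ?_⟩
  · obtain ⟨S, hS⟩ := h.fg
    refine ⟨S.image ι, ?_⟩
    rw [← hS, ext1, Finset.coe_image]
  · have h1 : Ext 𝕜 ι F ≤ (separableClosure 𝕜⟮ι x⟯ Ω').restrictScalars 𝕜 := by
      refine IntermediateField.adjoin_le_iff.2 ?_
      rintro _ ⟨s, hs, rfl⟩
      exact sep_to ι (fun a ha => map_mem ι (fun b hb => by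
        rw [Set.mem_singleton_iff.1 hb]
        exact mem_adjoin_simple_self 𝕜 (ι x)) ha) (h.sep s hs)
    exact h1 hy

lemma val_lt (ι : Ω →ₐ[k] Ω') (U : ValuationSubring Ω') (s : Ω) :
    (U.comap ι.toRingHom).valuation s < 1 ↔ U.valuation (ι s) < 1 := by
  rw [← not_le, ← not_le, ← map_one (U.comap ι.toRingHom).valuation, ← map_one U.valuation,
    ← map_one ι]
  exact not_congr (Pull.val_le ι.toRingHom U 1 s)

variable [IsAlgClosed Ω]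

lemma res_inv {x : Ω} (hx : Co k x) (ι : Ω →ₐ[k] Ω') {γ : Aut 𝕜 Ω'} (h : γ ∈ Gam 𝕜 (ι x)) :
    res 𝕜 ι γ⁻¹ = (res 𝕜 ι γ)⁻¹ := by
  rw [eq_inv_iff_mul_eq_one, ← Res.res_mul hx ι (inv_mem h) h, inv_mul_cancel, Res.res_one hx]

lemma res_conj {x : Ω} (hx : Co k x) (ι : Ω →ₐ[k] Ω') (δ γ : Aut 𝕜 Ω') (ι' : Ω →ₐ[k] Ω')
    (e : ∀ s, ι' s = δ (ι s)) (h : γ ∈ Gam 𝕜 (ι x)) :
    res 𝕜 ι' (δ * γ * δ⁻¹) = res 𝕜 ι γ := by
  have h1 : ∀ s, (δ * γ * δ⁻¹) (ι' s) = δ (γ (ι s)) := fun s => by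
    rw [e, AlgEquiv.mul_apply, AlgEquiv.mul_apply]
    exact congrArg (fun a => δ (γ a)) (δ.symm_apply_apply _)
  ext y
  refine ι'.toRingHom.injective ?_
  change ι' _ = ι' _
  rw [Res.spec hx ι' _ (by rw [h1, mem_Gam.1 h, e]), h1, e, Res.spec hx ι γ h]

lemma fix (ι : Ω →ₐ[k] Ω') {F : IntermediateField k Ω} {x : Ω} (hx : Co k x) {γ : Aut 𝕜 Ω'}
    (h : γ ∈ Gam 𝕜 (ι x)) :
    γ ∈ (Ext 𝕜 ι F).fixingSubgroup ↔ res 𝕜 ι γ ∈ F.fixingSubgroup := by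
  rw [IntermediateField.mem_fixingSubgroup_iff, IntermediateField.mem_fixingSubgroup_iff]
  refine ⟨fun h1 y hy => ι.toRingHom.injective ?_, fun h1 y hy => ?_⟩
  · change ι _ = ι _
    rw [Res.spec hx ι γ h, h1 _ (mem_Ext ι hy)]
  · induction hy using IntermediateField.adjoin_induction with
    | mem y hy =>
      obtain ⟨s, hs, rfl⟩ := hy
      rw [← Res.spec hx ι γ h, h1 s hs]
    | algebraMap c => exact γ.commutes c
    | add a b _ _ ha hb => rw [map_add, ha, hb]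
    | inv a _ ha => rw [map_inv₀, ha]
    | mul a b _ _ ha hb => rw [map_mul, ha, hb]

lemma smul (ι : Ω →ₐ[k] Ω') {x : Ω} (hx : Co k x) {γ : Aut 𝕜 Ω'} (h : γ ∈ Gam 𝕜 (ι x))
    (U : ValuationSubring Ω') :
    (γ • U).comap ι.toRingHom = res 𝕜 ι γ • U.comap ι.toRingHom := by
  ext y
  obtain ⟨z, rfl⟩ := (res 𝕜 ι γ).surjective y
  have h1 : γ (ι z) ∈ γ • U ↔ ι z ∈ U := ValuationSubring.smul_mem_pointwise_smul_iff
  have h2 : res 𝕜 ι γ z ∈ res 𝕜 ι γ • U.comap ι.toRingHom ↔ z ∈ U.comap ι.toRingHom :=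
    ValuationSubring.smul_mem_pointwise_smul_iff
  rw [h2]
  change ι (res 𝕜 ι γ z) ∈ γ • U ↔ ι z ∈ U
  rw [Res.spec hx ι γ h, h1]

end RX

theorem blockRX : StmtRX where
  ext1 := fun _ _ _ _ _ _ _ _ _ _ _ _ _ ι S => RX.ext1 ι S
  extf := fun _ _ _ _ _ _ _ _ _ _ _ _ _ ι _ _ h hx => RX.extf ι h hx
  sep := fun _ _ _ _ _ _ _ _ _ _ _ _ _ ι _ _ h => RX.sep_to ι (fun _ hs => mem_Ext ι hs) h
  mul := fun _ _ _ _ _ _ _ _ _ _ _ _ _ _ ι _ hx => ⟨Res.res_one hx ι,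
    fun _ h => Res.res_mem hx ι h, fun _ h _ h' => Res.res_mul hx ι h h',
    fun _ h => RX.res_inv hx ι h, fun δ γ ι' e h => RX.res_conj hx ι δ γ ι' e h⟩
  fix := fun _ _ _ _ _ _ _ _ _ _ _ _ _ _ ι _ _ hx _ _ h => RX.fix ι hx h
  rep := by
    intro k 𝕜 Ω Ω' _ _ _ _ _ _ _ _ _ _ ι x hx Δ Δ' hle hm G _ κ hκ
    classical
    refine ⟨fun γ hγ δ hδ => ?_, ?_⟩
    · rw [Res.res_mul hx ι (hle hγ) (hle hδ), hκ.mul _ (hm _ hγ) _ (hm _ hδ)]
    · obtain ⟨S, hS⟩ := hκ.cts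
      refine ⟨S.image ι, fun γ hγ δ hδ e => hS _ (hm _ hγ) _ (hm _ hδ)
        fun s hs => ι.toRingHom.injective ?_⟩
      change ι _ = ι _
      rw [Res.spec hx ι γ (hle hγ), Res.spec hx ι δ (hle hδ), e _ (Finset.mem_image_of_mem ι hs)]
  smul := fun _ _ _ _ _ _ _ _ _ _ _ _ _ _ ι _ hx _ h U => RX.smul ι hx h U
  plc := by
    intro k 𝕜 Ω Ω' _ _ _ _ _ _ _ _ _ _ _ ι x hx hσ U hU
    by_cases htop : U.comap ι.toRingHom = ⊤
    · have h1 : ∀ y, ι y ∈ U := fun y => by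
        have : y ∈ U.comap ι.toRingHom := htop ▸ ValuationSubring.mem_top y
        exact this
      refine Or.inl ⟨h1, fun γ hγ => ?_⟩
      ext y
      by_contra hne
      have h3 := (found.bas.move 𝕜 Ω' _ hσ U hU γ hγ.2).1 (ι y) (h1 y)
      rw [← Res.spec hx ι γ hγ.1 y, ← map_sub] at h3
      have h4 : res 𝕜 ι γ y - y ≠ 0 := sub_ne_zero.2 hne
      have h5 := mul_lt_one_of_nonneg_of_lt_one_left zero_le h3
        ((U.valuation_le_one_iff _).2 (h1 (res 𝕜 ι γ y - y)⁻¹))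
      rw [← map_mul, ← map_mul, mul_inv_cancel₀ h4, map_one, map_one] at h5
      exact lt_irrefl _ h5
    · refine Or.inr ⟨⟨htop, fun c => ?_⟩, RX.val_lt ι U, fun γ hγ =>
        mem_Dec.2 ⟨Res.res_mem hx ι hγ.1, ?_⟩⟩
      · change ι (algebraMap k Ω c) ∈ U
        rw [ι.commutes, IsScalarTower.algebraMap_apply k 𝕜 Ω']
        exact hU.2 _
      · rw [← RX.smul ι hx hγ.1 U, (mem_Dec.1 hγ).2]
  ovr := by
    intro k Ω Ω' _ _ _ _ _ _ x hx ι U V h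
    obtain ⟨γ, hγ, e⟩ := found.conj k Ω k⟮x⟯ hx.alg _ _ h
    rw [fix_adjoin] at hγ
    refine ⟨ι.comp γ.symm.toAlgHom, ?_, fun s => ?_⟩
    · exact congrArg ι (γ.symm_apply_eq.2 (mem_Gam.1 hγ).symm)
    · rw [← e, ValuationSubring.mem_pointwise_smul_iff_inv_smul_mem]
      rfl

end Pool.Agent.Lib.IW2
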