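import Pool.Agent.Lib.IW2.SC1

/-! A cover that is unramified on the affine line and tame at infinity is trivial. -/

open Polynomial IntermediateField
open scoped Pointwise

namespace Pool.Agent.Lib.IW2

open Pool.Agent.Lib.IW

namespace SC

variable {k Ω : Type} [Field k] [Field Ω] [Algebra k Ω]

/-- a relation that is homogeneous for given weights -/
lemma homog {I : Type} [Fintype I] (R : (I → k) → Prop) (w : I → k)
    (h1 : ∀ c, R c → R fun i => w i * c i) (h2 : ∀ c c' (a : k), R c → R c' → R fun i => c i - a * c' i)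
    (c : I → k) (hc : R c) (c0 : c ≠ 0) :
    ∃ c, R c ∧ c ≠ 0 ∧ ∀ i j, c i ≠ 0 → c j ≠ 0 → w i = w j := by
  classical
  induction hn : (Finset.univ.filter fun i => c i ≠ 0).card using Nat.strong_induction_on
    generalizing c with
  | _ n ih =>
  by_cases t : ∀ i j, c i ≠ 0 → c j ≠ 0 → w i = w j
  · exact ⟨c, hc, c0, t⟩
  push Not at t
  obtain ⟨i, j, hi, hj, hw⟩ := t
  refine ih _ ?_ _ (h2 _ _ (w j) (h1 c hc) hc) (Function.ne_iff.2 ⟨i, ?_⟩) rfl
  · rw [← hn]
    refine Finset.card_lt_card ⟨fun l hl => ?_, fun h => ?_⟩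
    · simp only [Finset.mem_filter, Finset.mem_univ, true_and] at hl ⊢
      exact fun z => hl (by simp [z])
    · simpa using h (Finset.mem_filter.2 ⟨Finset.mem_univ j, hj⟩)
  · rw [← sub_mul]
    exact mul_ne_zero (sub_ne_zero.2 hw) hi

lemma val_const {W : ValuationSubring Ω} (hW : IsPl k W) {e : k} (he : e ≠ 0) :
    W.valuation (algebraMap k Ω e) = 1 := by
  refine le_antisymm ((W.valuation_le_one_iff _).2 (hW.2 e)) ?_
  have := (W.valuation_le_one_iff _).2 (hW.2 e⁻¹)
  rwa [map_inv₀, map_inv₀, inv_le_one₀ ((Valuation.pos_iff _).2 ((_root_.map_ne_zero _).2 he))] at this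

lemma const_eq {W : ValuationSubring Ω} (hW : IsPl k W) {y : Ω} {a b : k}
    (ha : W.valuation (y - algebraMap k Ω a) < 1) (hb : W.valuation (y - algebraMap k Ω b) < 1) :
    a = b := by
  by_contra t
  have := W.valuation.map_sub_lt hb ha
  rw [sub_sub_sub_cancel_left, ← map_sub, val_const hW (sub_ne_zero.2 t)] at this
  exact lt_irrefl _ this

/-- functions that are regular everywhere are constant -/
lemma const [IsAlgClosed k] [IsAlgClosed Ω] {x : Ω} (hx : Co k x) {G : Type} [Group G]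
    {ρ : Aut k Ω → G} {W : ValuationSubring Ω} (hW : IsPl k W) (hxW : x ∉ W) {f : G → Ω}
    (h1 : Alg k⟮x⟯ ρ f) (h2 : ∀ g, Intg k x (f g)) (h3 : ∀ g, f g ∈ W) (g : G) :
    ∃ e : k, algebraMap k Ω e = f g := by
  have : IsAlgebraic k (f g) := by
    by_contra t
    obtain ⟨W', hW', h⟩ := found.bas.exInf k Ω _ (found.bas.coOf k Ω x _ hx t)
    refine h ?_
    by_cases r : x ∈ W'
    · exact h2 g W' hW' r
    obtain ⟨γ, hγ, rfl⟩ := found.conj k Ω _ hx.alg W W'
      (found.bas.agrInf k Ω x hx.tr W W' hW hW' hxW r)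
    rw [ValuationSubring.mem_pointwise_smul_iff_inv_smul_mem, AlgEquiv.smul_def,
      h1.2 _ (inv_mem hγ)]
    exact h3 _
  exact minpoly.mem_range_of_degree_eq_one k _
    (IsAlgClosed.degree_eq_one_of_irreducible k (minpoly.irreducible this.isIntegral))

end SC

theorem blockSC (LOC : StmtLOC) (hS : StmtSC1) : StmtSC := by
  intro p hp k Ω _ _ _ _ _ _ x hx G _ _ ρ hρ hu W hW hxW ht
  classical
  have := Fintype.ofFinite G
  obtain ⟨j, M, hM, hG⟩ := Nat.exists_eq_pow_mul_and_not_dvd (Nat.card_pos (α := G)).ne' p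
    hp.out.ne_one
  have M0 : 0 < M := Nat.pos_of_ne_zero (by rintro rfl; exact hM (dvd_zero p))
  have : NeZero (M : k) := ⟨fun t => hM ((CharP.cast_eq_zero_iff k p M).1 t)⟩
  have : NeZero M := ⟨M0.ne'⟩
  obtain ⟨ω, hω⟩ := HasEnoughRootsOfUnity.exists_primitiveRoot k M
  obtain ⟨q, hq⟩ := IsAlgClosed.exists_pow_nat_eq x M0
  have hD : IsRep (DecF k⟮x⟯ W) ρ := hρ.mono (DecF_adjoin (k := k) x W ▸ Dec_le x W)
  obtain ⟨τ, hτ, τq, P, hP, P1, -, P2⟩ := LOC.str p k Ω _ hx.ff W _ q M ω hW
    (found.bas.unifInf k Ω x hx.tr W hW hxW) hM (Or.inr (by rw [inv_inv, hq])) hω G ρ hD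
    fun g => ⟨j, by rw [mul_comm, ← hG, pow_card_eq_one']⟩
  have P0 : ∀ a ∈ P, a = 1 := fun a ha => by
    obtain ⟨γ, hγ, -, rfl⟩ := P1 a ha
    obtain ⟨n, hn, e⟩ := ht γ (DecF_adjoin (k := k) x W ▸ hγ)
    obtain ⟨i, hi⟩ := hP ⟨_, ha⟩
    have e' : ρ γ ^ p ^ i = 1 := congrArg Subtype.val hi
    rw [← orderOf_dvd_iff_pow_eq_one] at e e'
    exact orderOf_eq_one_iff.1 (Nat.eq_one_of_dvd_coprimes
      (((Nat.Prime.coprime_iff_not_dvd hp.out).2 hn).pow_left i) e' e)
  have qW : q ∉ W := fun t => hxW (hq ▸ pow_mem t M)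
  have u1 : 1 < W.valuation q := not_le.1 fun t => qW ((W.valuation_le_one_iff _).1 t)
  have u0 : 0 < W.valuation q := zero_lt_one.trans u1
  have q0 : q ≠ 0 := (Valuation.pos_iff _).1 u0
  have cq : Co k q := found.bas.coOf k Ω x q hx fun t => hx.tr (hq ▸ t.pow M)
  have le : k⟮x⟯ ≤ k⟮q⟯ := adjoin_simple_le_iff.2 (hq ▸ pow_mem (mem_adjoin_simple_self k q) M)
  have val : ∀ f : G → Ω, Alg k⟮x⟯ ρ f → ∀ g, f g ≠ 0 →
      ∃ i : ℤ, W.valuation (f g) = W.valuation q ^ i := fun f hf g z => by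
    obtain ⟨i, hi⟩ := found.hens.hens p k Ω _ cq.ff W hW _ (found.bas.unifInf k Ω q cq.tr W hW qW)
      _ z (sep_up le (hf.1 g)) fun γ hγ => by
        have h1 : γ ∈ DecF k⟮x⟯ W := ⟨IntermediateField.fixingSubgroup_le le hγ.1, hγ.2⟩
        have h2 := P0 _ (P2 γ h1 0 (by
          rw [pow_zero, one_mul]; exact fix_apply hγ.1 (mem_adjoin_simple_self k q)))
        rw [pow_zero, inv_one, mul_one] at h2
        rw [hf.2 γ h1.1, h2, one_mul]
    exact ⟨-i, by rw [hi, map_inv₀, inv_zpow']⟩
  have mem : ∀ (y : Ω) (n : ℕ), y / q ^ n ∈ W ↔ W.valuation y ≤ W.valuation q ^ n := fun y n => by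
    rw [← W.valuation_le_one_iff, map_div₀, map_pow, div_le_one₀ (pow_pos u0 n)]
  have key : ∀ (n : ℕ) (X : Matrix G G Ω) (m : G → ℕ) (d : k), ∑ i, m i = n →
      (∀ i, Alg k⟮x⟯ ρ fun g => X g i) → (∀ g i, Intg k x (X g i)) → d ≠ 0 →
      X.det = algebraMap k Ω d → (∀ g i, X g i / q ^ m i ∈ W) → Triv ρ (Gam k x) := by
    intro n
    induction n using Nat.strong_induction_on with
    | _ n ih =>
    intro X m d hn h1 h2 d0 h3 h4
    have X0 : X.det ≠ 0 := h3 ▸ (_root_.map_ne_zero _).2 d0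
    rcases Nat.eq_zero_or_pos n with rfl | n0
    · intro γ hγ
      by_contra t
      refine X0 (Matrix.det_zero_of_row_eq t (funext fun i => ?_))
      obtain ⟨e, he⟩ := SC.const hx hW hxW (h1 i) (fun g => h2 g i) (fun g => by
        simpa [(Finset.sum_eq_zero_iff.1 hn) i (Finset.mem_univ i)] using h4 g i) 1
      have := (h1 i).2 γ (fix_adjoin (k := k) x ▸ hγ) 1
      simp only [mul_one] at this
      rw [← this, ← he, AlgEquiv.commutes]
    choose r hr using fun g i => found.bas.resid k Ω x hx W hW _ (h4 g i)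
    have hd : W.valuation (Matrix.of fun g i => X g i / q ^ m i).det < 1 := by
      simp only [div_eq_inv_mul]
      rw [Matrix.det_mul_row, map_mul, h3, SC.val_const hW d0, mul_one, Finset.prod_inv_distrib,
        Finset.prod_pow_eq_pow_sum, hn, map_inv₀, map_pow]
      exact inv_lt_one_of_one_lt₀ (one_lt_pow₀ u1 n0.ne')
    obtain ⟨c₀, c0, hc⟩ := Matrix.exists_mulVec_eq_zero_iff.2
      (SC1.sing hW (X := Matrix.of fun g i => X g i / q ^ m i) h4 (Matrix.of r) hr hd)
    have rτ : ∀ g i, r (ρ τ * g) i = ω ^ m i * r g i := fun g i => by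
      refine SC.const_eq hW (hr _ i) ?_
      have e : X (ρ τ * g) i / q ^ m i - algebraMap k Ω (ω ^ m i * r g i) =
          algebraMap k Ω (ω ^ m i) * ((τ (X g i / q ^ m i) - X g i / q ^ m i) +
            (X g i / q ^ m i - algebraMap k Ω (r g i))) := by
        have : algebraMap k Ω ω ≠ 0 := (_root_.map_ne_zero _).2 (hω.ne_zero M0.ne')
        rw [map_div₀, map_pow τ, τq, (h1 i).2 τ hτ.1, map_mul, map_pow]
        field_simp
        ring
      rw [e, map_mul, SC.val_const hW (pow_ne_zero _ (hω.ne_zero M0.ne')), one_mul]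
      exact W.valuation.map_add_lt
        ((found.bas.move k Ω x hx W hW τ (mem_DecF.1 hτ).2).1 _ (h4 g i)) (hr g i)
    obtain ⟨c, hc, c0, cw⟩ := SC.homog (fun c => ∀ g, ∑ i, r g i * c i = 0) (fun i => ω ^ m i)
      (fun c t g => by
        rw [← t (ρ τ * g)]
        exact Finset.sum_congr rfl fun i _ => by rw [rτ]; ring)
      (fun c c' a t t' g => by
        simp only [mul_sub, Finset.sum_sub_distrib, mul_left_comm _ a, ← Finset.mul_sum, t g, t' g,
          mul_zero, sub_zero])
      c₀ (fun g => congrFun hc g) c0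
    obtain ⟨l, hl, lm⟩ := Finset.exists_max_image (Finset.univ.filter fun i => c i ≠ 0) m
      (let ⟨i, hi⟩ := Function.ne_iff.1 c0; ⟨i, by simpa using hi⟩)
    have hl : c l ≠ 0 := by simpa using hl
    let a : G → Ω := fun i => algebraMap k Ω (c i) * x ^ ((m l - m i) / M)
    let f : G → Ω := fun g => ∑ i, a i * X g i
    have fa : Alg k⟮x⟯ ρ f := Alg.sum _ fun i _ => (Alg.const (mul_mem
      (IntermediateField.algebraMap_mem _ _) (pow_mem (mem_adjoin_simple_self k x) _))).mul (h1 i)
    have fi : ∀ g, Intg k x (f g) := fun g W' hW' hx' =>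
      sum_mem fun i _ => mul_mem (mul_mem (hW'.2 _) (pow_mem hx' _)) (h2 g i W' hW' hx')
    have fv : ∀ g, W.valuation (f g) < W.valuation q ^ m l := fun g => by
      have h6 : ∑ i, algebraMap k Ω (c i) * algebraMap k Ω (r g i) = 0 := by
        simpa [mul_comm] using congrArg (algebraMap k Ω) (hc g)
      rw [← div_lt_one₀ (pow_pos u0 _), ← map_pow, ← map_div₀, ← sub_zero (f g / _), ← h6,
        Finset.sum_div, ← Finset.sum_sub_distrib]
      refine W.valuation.map_sum_lt one_ne_zero fun i _ => ?_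
      by_cases z : c i = 0
      · simp [a, z]
      have l1 : m i ≤ m l := lm i (by simpa using z)
      obtain ⟨s, hs⟩ : M ∣ m l - m i := by
        rw [← hω.pow_eq_one_iff_dvd]
        apply mul_left_cancel₀ (pow_ne_zero (m i) (hω.ne_zero M0.ne'))
        rw [← pow_add, Nat.add_sub_cancel' l1, mul_one]
        exact cw l i hl z
      have e : a i * X g i / q ^ m l - algebraMap k Ω (c i) * algebraMap k Ω (r g i) =
          algebraMap k Ω (c i) * (X g i / q ^ m i - algebraMap k Ω (r g i)) := by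
        have e1 : m l = M * s + m i := by omega
        simp only [a]
        rw [hs, Nat.mul_div_cancel_left _ M0, e1, pow_add, pow_mul, hq]
        have : x ≠ 0 := hq ▸ pow_ne_zero _ q0
        field_simp
      rw [e, map_mul, SC.val_const hW z, one_mul]
      exact hr g i
    let X' := X.updateCol l f
    have a1 : ∀ i, Alg k⟮x⟯ ρ fun g => X' g i := fun i => by
      by_cases t : i = l
      · simpa [X', t] using fa
      · simpa [X', t] using h1 i
    have a2 : ∀ g i, Intg k x (X' g i) := fun g i => by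
      by_cases t : i = l
      · simpa [X', t] using fi g
      · simpa [X', t] using h2 g i
    have a3 : X'.det = algebraMap k Ω (c l * d) := by
      have := Matrix.det_updateCol_sum X l a
      simp only [smul_eq_mul] at this
      rw [map_mul, ← h3]
      simpa [a] using this
    rcases Nat.eq_zero_or_pos (m l) with z | z
    · refine absurd (a3.symm.trans (Matrix.det_eq_zero_of_column_eq_zero l fun g => ?_))
        ((_root_.map_ne_zero _).2 (mul_ne_zero hl d0))
      simp only [z, pow_zero] at fv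
      obtain ⟨e, he⟩ := SC.const hx hW hxW fa fi
        (fun g => (W.valuation_le_one_iff _).1 (fv g).le) g
      have := SC.const_eq hW (y := f g) (a := e) (b := 0) (by simp [he]) (by simpa using fv g)
      simp [X', ← he, this]
    refine ih _ ?_ X' (Function.update m l (m l - 1)) _ rfl a1 a2 (mul_ne_zero hl d0) a3
      fun g i => ?_
    · rw [← hn]
      refine Finset.sum_lt_sum (fun i _ => ?_) ⟨l, Finset.mem_univ l, by simpa using z⟩
      by_cases t : i = l
      · simp [t]
      · simp [t]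
    by_cases t : i = l
    swap
    · simpa [X', t] using h4 g i
    simp only [X', t, Matrix.updateCol_self, Function.update_self, mem]
    by_cases y : f g = 0
    · simp [y]
    obtain ⟨s, hs⟩ := val f fa g y
    have := fv g
    rw [hs, ← zpow_natCast] at this ⊢
    exact zpow_le_zpow_right₀ u1.le (by
      have := (zpow_lt_zpow_iff_right₀ u1).1 this
      omega)
  obtain ⟨X, d, h1, h2, d0, h3⟩ := hS p k Ω x hx G ρ hρ hu
  have ex : ∀ g i, ∃ n : ℕ, W.valuation (X g i) ≤ W.valuation q ^ n := fun g i => by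
    by_cases y : X g i = 0
    · exact ⟨0, by simp [y]⟩
    obtain ⟨s, hs⟩ := val _ (h1 i) g y
    exact ⟨s.toNat, by
      rw [hs, ← zpow_natCast]; exact zpow_le_zpow_right₀ u1.le (Int.self_le_toNat s)⟩
  choose n hn using ex
  exact key _ X (fun i => Finset.univ.sup fun g => n g i) d rfl h1 h2 d0 h3 fun g i =>
    (mem _ _).2 ((hn g i).trans (pow_le_pow_right₀ u1.le
      (Finset.le_sup (f := fun g => n g i) (Finset.mem_univ g))))

end Pool.Agent.Lib.IW2
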