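import Pool.Agent.Lib.IW2.Blue

/-! An unramified Galois algebra over the affine line has an integral basis with constant
determinant. -/

open Polynomial IntermediateField
open scoped Pointwise

namespace Pool.Agent.Lib.IW2

open Pool.Agent.Lib.IW

namespace SC1

variable {k Ω : Type} [Field k] [Field Ω] [Algebra k Ω] {G : Type} [Fintype G] [DecidableEq G]

lemma det_mem {W : ValuationSubring Ω} {X : Matrix G G Ω} (h : ∀ g i, X g i ∈ W) : X.det ∈ W := by
  rw [Matrix.det_apply']
  exact sum_mem fun σ _ => mul_mem (intCast_mem W _) (prod_mem fun i _ => h _ i)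

/-- a small determinant has a singular matrix of residues -/
lemma sing {W : ValuationSubring Ω} (hW : IsPl k W) {X : Matrix G G Ω} (h : ∀ g i, X g i ∈ W)
    (r : Matrix G G k) (hr : ∀ g i, W.valuation (X g i - algebraMap k Ω (r g i)) < 1)
    (hd : W.valuation X.det < 1) : r.det = 0 := by
  let ψ : k →+* W := (algebraMap k Ω).codRestrict W hW.2
  let Y : Matrix G G W := fun g i => ⟨X g i, h g i⟩
  have h1 : ((Y.det : W) : Ω) = X.det := W.subtype.map_det Y
  have h2 : (IsLocalRing.residue W).mapMatrix Y = ((IsLocalRing.residue W).comp ψ).mapMatrix r := by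
    ext g i
    exact Ideal.Quotient.eq.2 ((W.valuation_lt_one_iff _).2 (hr g i))
  apply ((IsLocalRing.residue W).comp ψ).injective
  rw [RingHom.map_det, ← h2, ← RingHom.map_det, map_zero, IsLocalRing.residue_eq_zero_iff,
    W.valuation_lt_one_iff, h1]
  exact hd

end SC1

theorem blockSC1 (VAND : StmtVAND) : StmtSC1 := by
  intro p _ k Ω _ _ _ _ _ _ x hx G _ _ _ ρ hρ hu
  have poly : ∀ X : Matrix G G Ω, (∀ i, Alg k⟮x⟯ ρ fun g => X g i) → (∀ g i, Intg k x (X g i)) →
      ∃ P : k[X], X.det ^ 2 = aeval x P := fun X h1 h2 =>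
    found.bas.intgPoly k Ω x _ hx.tr
      (fun W hW hxW => pow_mem (SC1.det_mem fun g i => h2 g i W hW hxW) 2)
      (VAND.det2 k Ω _ hx.alg G ρ X h1)
  have key : ∀ (n : ℕ) (X : Matrix G G Ω) (P : k[X]), P.natDegree = n →
      (∀ i, Alg k⟮x⟯ ρ fun g => X g i) → (∀ g i, Intg k x (X g i)) → X.det ≠ 0 →
      X.det ^ 2 = aeval x P → ∃ (X : Matrix G G Ω) (d : k), (∀ i, Alg k⟮x⟯ ρ fun g => X g i) ∧
        (∀ g i, Intg k x (X g i)) ∧ d ≠ 0 ∧ X.det = algebraMap k Ω d := by
    intro n
    induction n using Nat.strong_induction_on with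
    | _ n ih =>
    intro X P hn h1 h2 h3 h4
    have P0 : P ≠ 0 := by
      rintro rfl
      exact h3 (by simpa using h4)
    by_cases h0 : P.degree = 0
    · obtain ⟨e, he⟩ := IsAlgClosed.exists_pow_nat_eq (P.coeff 0) two_pos
      rw [eq_C_of_degree_eq_zero h0, aeval_C, ← he, map_pow, sq_eq_sq_iff_eq_or_eq_neg,
        ← map_neg] at h4
      rcases h4 with t | t <;> exact ⟨X, _, h1, h2, fun z => h3 (by rw [t, z, map_zero]), t⟩
    obtain ⟨a, ha⟩ := IsAlgClosed.exists_root P h0
    obtain ⟨W, hW, hWa⟩ := found.bas.exAt k Ω x hx a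
    set π := x - algebraMap k Ω a with hπ
    have hxW : x ∈ W := by
      simpa [hπ] using add_mem ((W.valuation_le_one_iff _).1 hWa.le) (hW.2 a)
    have un := found.bas.unifAt k Ω x hx.tr a W hW hWa
    have hd : W.valuation X.det < 1 := by
      obtain ⟨Q, hQ⟩ := dvd_iff_isRoot.2 ha
      have h5 : aeval x Q ∈ W := by
        rw [aeval_eq_sum_range]
        exact sum_mem fun i _ => Algebra.smul_def (Q.coeff i) (x ^ i) ▸
          mul_mem (hW.2 _) (pow_mem hxW i)
      refine lt_of_pow_lt_pow_left₀ 2 zero_le_one ?_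
      rw [← map_pow, h4, hQ, map_mul, map_mul, one_pow, map_sub, aeval_X, aeval_C]
      exact (mul_le_of_le_one_right' ((W.valuation_le_one_iff _).2 h5)).trans_lt hWa
    choose r hr using fun g i => found.bas.resid k Ω x hx W hW _ (h2 g i W hW hxW)
    obtain ⟨c, c0, hc⟩ := Matrix.exists_mulVec_eq_zero_iff.2
      (SC1.sing hW (fun g i => h2 g i W hW hxW) (Matrix.of r) hr hd)
    obtain ⟨m, hm⟩ := Function.ne_iff.1 c0
    let f : G → Ω := fun g => ∑ i, algebraMap k Ω (c i) * X g i
    have fa : Alg k⟮x⟯ ρ f :=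
      Alg.sum _ fun i _ => (Alg.const (IntermediateField.algebraMap_mem _ _)).mul (h1 i)
    have fW : ∀ g, f g / π ∈ W := fun g => by
      have h5 : W.valuation (f g) < 1 := by
        have h6 : ∑ i, algebraMap k Ω (c i) * algebraMap k Ω (r g i) = 0 := by
          simpa [Matrix.mulVec, dotProduct, mul_comm] using
            congrArg (algebraMap k Ω) (congrFun hc g)
        rw [← sub_zero (f g), ← h6, ← Finset.sum_sub_distrib]
        refine W.valuation.map_sum_lt one_ne_zero fun i _ => ?_
        rw [← mul_sub, map_mul]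
        exact (mul_le_of_le_one_left' ((W.valuation_le_one_iff _).2 (hW.2 _))).trans_lt (hr g i)
      have v0 : 0 < W.valuation π := (Valuation.pos_iff _).2 un.2.1
      rw [← W.valuation_le_one_iff, map_div₀, div_le_one₀ v0]
      by_cases z : f g = 0
      · simp [z]
      obtain ⟨i, hi⟩ := found.hens.hens p k Ω _ hx.ff W hW π un _ z (fa.1 g) fun γ hγ => by
        rw [fa.2 γ (DecF_le _ _ hγ), hu W hW hxW γ (DecF_adjoin (k := k) x W ▸ hγ), one_mul]
      rw [hi] at h5 ⊢
      simpa using zpow_le_zpow_right_of_le_one₀ v0 hWa.le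
        (show 1 ≤ i from (zpow_lt_one_iff_right_of_lt_one₀ v0 hWa).1 h5)
    have ga : Alg k⟮x⟯ ρ fun g => f g / π := fa.div (Alg.const un.1)
    have gi : ∀ g, Intg k x (f g / π) := fun g W' hW' hx' => by
      rcases ((W'.valuation_le_one_iff π).2 (sub_mem hx' (hW'.2 a))).eq_or_lt with t | t
      · rw [← W'.valuation_le_one_iff, map_div₀, t, div_one, W'.valuation_le_one_iff]
        exact sum_mem fun i _ => mul_mem (hW'.2 _) (h2 g i W' hW' hx')
      · obtain ⟨γ, hγ, rfl⟩ := found.conj k Ω _ hx.alg W W'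
          (found.bas.agrAt k Ω x hx.tr a W W' hW hW' hWa t)
        rw [ValuationSubring.mem_pointwise_smul_iff_inv_smul_mem, AlgEquiv.smul_def,
          ga.2 _ (inv_mem hγ)]
        exact fW _
    let X' := X.updateCol m fun g => f g / π
    have a1 : ∀ i, Alg k⟮x⟯ ρ fun g => X' g i := fun i => by
      by_cases t : i = m
      · simpa [X', t] using ga
      · simpa [X', t] using h1 i
    have a2 : ∀ g i, Intg k x (X' g i) := fun g i => by
      by_cases t : i = m
      · simpa [X', t] using gi g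
      · simpa [X', t] using h2 g i
    have a3 : X'.det = algebraMap k Ω (c m) / π * X.det := by
      rw [← smul_eq_mul, ← Matrix.det_updateCol_sum X m fun i => algebraMap k Ω (c i) / π]
      simp only [X', f, Finset.sum_div, smul_eq_mul, div_mul_eq_mul_div]
    have a4 : X'.det ≠ 0 :=
      a3 ▸ mul_ne_zero (div_ne_zero ((_root_.map_ne_zero _).2 hm) un.2.1) h3
    obtain ⟨P', hP'⟩ := poly X' a1 a2
    refine ih _ ?_ X' P' rfl a1 a2 a4 hP'
    have a5 : P' * (Polynomial.X - C a) ^ 2 = C (c m ^ 2) * P := by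
      apply transcendental_iff_injective.1 hx.tr
      have : π ≠ 0 := un.2.1
      rw [map_mul, map_mul, ← hP', ← h4, a3, map_pow, map_sub, aeval_X, aeval_C, aeval_C, map_pow,
        ← hπ]
      field_simp
    have P1 : P' ≠ 0 := by
      rintro rfl
      exact a4 (by simpa using hP')
    have a6 := congrArg natDegree a5
    rw [natDegree_C_mul (pow_ne_zero 2 hm), natDegree_mul P1 (pow_ne_zero 2 (X_sub_C_ne_zero a)),
      natDegree_pow, natDegree_X_sub_C] at a6
    omega
  obtain ⟨f, f1, f2, f3⟩ := exists_alg_inj p (fs_self hx) (fix_adjoin (k := k) x ▸ hρ)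
  let e := Fintype.equivFin G
  let A : Matrix G G Ω := (Matrix.vandermonde (f ∘ e.symm)).submatrix e e
  have b1 : ∀ i, Alg k⟮x⟯ ρ fun g => A g i := fun i => by simpa [A] using f1.pow (e i)
  have b2 : ∀ g i, Intg k x (A g i) := fun g i W hW hxW => by
    simpa [A] using pow_mem (f3 g W hW hxW) (e i)
  obtain ⟨P, hP⟩ := poly A b1 b2
  refine key _ A P rfl b1 b2 ?_ hP
  rw [Matrix.det_submatrix_equiv_self, Matrix.det_vandermonde_ne_zero_iff]
  exact f2.comp e.symm.injective

end Pool.Agent.Lib.IW2
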