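import Pool.Agent.Lib.IW2.Blue

/-! Block SH1: a primitive element that is a simple small root. -/

open Polynomial IntermediateField
open scoped Pointwise

namespace Pool.Agent.Lib.IW2

open Pool.Agent.Lib.IW

namespace SH1

variable {k Ω : Type} [Field k] [Field Ω] [Algebra k Ω] {x : Ω} {F : IntermediateField k Ω}
  {W : ValuationSubring Ω}

lemma coeff_mem (R : Subring Ω) (s : Multiset Ω) (h : ∀ a ∈ s, a ∈ R) (n : ℕ) :
    (s.map fun a => X - C a).prod.coeff n ∈ R := by
  induction s using Multiset.induction_on generalizing n with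
  | empty =>
    rw [Multiset.map_zero, Multiset.prod_zero, coeff_one]
    split_ifs
    exacts [one_mem R, zero_mem R]
  | cons a s ih =>
    have h1 := ih fun b hb => h b (Multiset.mem_cons_of_mem hb)
    rw [Multiset.map_cons, Multiset.prod_cons, sub_mul, coeff_sub, coeff_C_mul]
    refine sub_mem ?_ (mul_mem (h a (Multiset.mem_cons_self a s)) (h1 n))
    rcases n with _ | n
    · rw [coeff_X_mul_zero]
      exact zero_mem R
    · rw [coeff_X_mul]
      exact h1 n

lemma fix_of_mem {γ : Aut k Ω} (hγ : γ ∈ Gam k x) {y : Ω} (hy : y ∈ k⟮x⟯) : γ y = y :=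
  fix_apply (by rwa [fix_adjoin]) hy

lemma finite_orbit (hx : Co k x) (a : Ω) : {b | ∃ γ ∈ Gam k x, γ a = b}.Finite := by
  refine ((minpoly k⟮x⟯ a).rootSet_finite Ω).subset ?_
  rintro _ ⟨γ, hγ, rfl⟩
  rw [mem_rootSet_of_ne (minpoly.ne_zero (hx.alg a).isIntegral)]
  have := aeval_algHom_apply
    (IntermediateField.fixingSubgroupEquiv k⟮x⟯ ⟨γ, by rwa [fix_adjoin]⟩) a (minpoly k⟮x⟯ a)
  rw [minpoly.aeval, map_zero] at this
  exact this

lemma exists_comb [Infinite k] (hx : Co k x) (a b : Ω) : ∃ c : k, ∀ γ ∈ Gam k x,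
    γ (a + algebraMap k Ω c * b) = a + algebraMap k Ω c * b → γ a = a ∧ γ b = b := by
  have hfin := (finite_orbit hx a).image2 (fun a' b' => (a - a') / (b' - b)) (finite_orbit hx b)
  obtain ⟨c, hc⟩ := (hfin.preimage (algebraMap k Ω).injective.injOn).exists_notMem
  refine ⟨c, fun γ hγ e => ?_⟩
  rw [map_add, map_mul, AlgEquiv.commutes] at e
  have hb : γ b = b := by
    by_contra hb
    refine hc ⟨γ a, ⟨γ, hγ, rfl⟩, γ b, ⟨γ, hγ, rfl⟩, ?_⟩
    rw [div_eq_iff (sub_ne_zero.2 hb)]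
    linear_combination -e
  rw [hb] at e
  exact ⟨add_right_cancel e, hb⟩

open scoped IntermediateField.algebraAdjoinAdjoin in
lemma exists_mul (hx : Co k x) (s : Ω) : ∃ b ∈ k⟮x⟯, b ≠ 0 ∧ Intg k x (b * s) := by
  have ha : IsAlgebraic (Algebra.adjoin k {x}) s :=
    (IsFractionRing.isAlgebraic_iff (Algebra.adjoin k {x}) k⟮x⟯ Ω).2 (hx.alg _)
  obtain ⟨b, hb0, hb⟩ := ha.exists_integral_multiple
  exact ⟨b, IntermediateField.algebra_adjoin_le_adjoin k _ b.2, fun h => hb0 (Subtype.ext h),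
    (found.bas.intg k Ω x _).2 hb⟩

lemma small_mul {a b : Ω} (ha : W.valuation a < 1) (hb : b ∈ W) : W.valuation (a * b) < 1 := by
  rw [map_mul]
  exact mul_lt_one_of_nonneg_of_lt_one_left zero_le ha ((W.valuation_le_one_iff _).2 hb)

lemma mem_of_small {a : Ω} (ha : W.valuation a < 1) : a ∈ W := (W.valuation_le_one_iff _).1 ha.le

/-- A polynomial in a small element is congruent to its constant term. -/
lemma small_iff (hW : IsPl k W) (hx : W.valuation x < 1) (P : k[X]) :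
    W.valuation (aeval x P) < 1 ↔ P.coeff 0 = 0 := by
  have h1 : aeval x (divX P) ∈ W := by
    rw [aeval_eq_sum_range]
    exact sum_mem fun i _ => by
      rw [Algebra.smul_def]
      exact mul_mem (hW.2 _) (pow_mem (mem_of_small hx) i)
  have h2 := small_mul hx h1
  have h3 : aeval x P = x * aeval x (divX P) + algebraMap k Ω (P.coeff 0) := by
    conv_lhs => rw [← X_mul_divX_add P, map_add, map_mul, aeval_X, aeval_C]
  refine ⟨fun h => by_contra fun h0 => ?_, fun h => by rwa [h3, h, map_zero, add_zero]⟩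
  have h4 := W.valuation.map_sub_lt h h2
  rw [h3, add_sub_cancel_left, PicA.val_const hW.2 h0] at h4
  exact lt_irrefl _ h4

/-- Integral, small at `W`, and congruent to one at the other places over zero. -/
structure Gd (F : IntermediateField k Ω) (x : Ω) (W : ValuationSubring Ω) (θ : Ω) : Prop where
  mem : θ ∈ F
  int : Intg k x θ
  sm : W.valuation θ < 1
  one : ∀ V, IsPl k V → V.valuation x < 1 → ¬ Agr F V W → V.valuation (θ - 1) < 1

lemma exists_gd [IsAlgClosed k] (h : FS F x) (hW : IsPl k W) (hx : W.valuation x < 1) :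
    ∃ θ, Gd F x W θ := by
  classical
  obtain ⟨T, h1, -, h3⟩ := found.unif.fin k Ω F h.ff x⁻¹ (inv_mem h.mem)
  obtain ⟨s, s1, s2, s3, s4⟩ := found.unif.sepp k Ω x h.co F h.fg h.mem W
    (T.filter fun V => ¬ Agr F V W) hW (mem_of_small hx) fun V hV => by
      obtain ⟨a, b⟩ := Finset.mem_filter.1 hV
      exact ⟨(h1 V a).1, (V.mem_or_inv_mem x).resolve_right (h1 V a).2, b⟩
  refine ⟨1 - s, sub_mem (one_mem F) s1, fun V hV hx => sub_mem (one_mem V) (s2 V hV hx),
    by rwa [Valuation.map_sub_swap], fun V hV hx hA => ?_⟩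
  obtain ⟨V', a, b⟩ := h3 V hV ((PicA.lt_one_iff.1 hx).resolve_left h.co.ne_zero)
  rw [sub_sub_cancel_left, Valuation.map_neg, PicA.agr_lt b s1]
  exact s4 V' (Finset.mem_filter.2 ⟨a, fun c => hA fun y hy => (b y hy).trans (c y hy)⟩)

lemma exists_gd_fix [IsAlgClosed k] (h : FS F x) (hW : IsPl k W) (hx : W.valuation x < 1)
    (S : Finset Ω) (hS : ∀ s ∈ S, s ∈ F) :
    ∃ θ, Gd F x W θ ∧ ∀ γ ∈ Gam k x, γ θ = θ → ∀ s ∈ S, γ s = s := by
  classical
  induction S using Finset.induction_on with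
  | empty => exact (exists_gd h hW hx).imp fun θ t => ⟨t, by simp⟩
  | insert s S _ ih =>
    obtain ⟨θ, t1, t2⟩ := ih fun a ha => hS a (Finset.mem_insert_of_mem ha)
    obtain ⟨b, b1, b2, b3⟩ := exists_mul h.co s
    obtain ⟨c, hc⟩ := exists_comb h.co θ (x * (b * s))
    have sm : ∀ V : ValuationSubring Ω, IsPl k V → V.valuation x < 1 →
        V.valuation (algebraMap k Ω c * (x * (b * s))) < 1 := fun V hV hx => by
      rw [mul_left_comm]
      exact small_mul hx (mul_mem (hV.2 c) (b3 V hV (mem_of_small hx)))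
    refine ⟨_, ⟨add_mem t1.mem (mul_mem (F.algebraMap_mem c) (mul_mem h.mem (mul_mem
      (adjoin_simple_le_iff.2 h.mem b1) (hS s (Finset.mem_insert_self s S))))),
      fun V hV hx => add_mem (t1.int V hV hx) (mul_mem (hV.2 c) (mul_mem hx (b3 V hV hx))),
      W.valuation.map_add_lt t1.sm (sm W hW hx), fun V hV hx hA => ?_⟩, fun γ hγ e a ha => ?_⟩
    · rw [add_sub_right_comm]
      exact V.valuation.map_add_lt (t1.one V hV hx hA) (sm V hV hx)
    · obtain ⟨e1, e2⟩ := hc γ hγ e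
      rcases Finset.mem_insert.1 ha with rfl | ha
      · rw [map_mul, map_mul, mem_Gam.1 hγ, fix_of_mem hγ b1] at e2
        exact mul_left_cancel₀ b2 (mul_left_cancel₀ h.co.ne_zero e2)
      · exact t2 γ hγ e1 a ha

/-- No other conjugate is small. -/
lemma conj_eq [IsAlgClosed k] [IsAlgClosed Ω] (h : FS F x) (hW : IsPl k W) (hu : IsUnif F W x)
    {θ : Ω} (t : Gd F x W θ) {γ : Aut k Ω} (hγ : γ ∈ Gam k x) (hs : W.valuation (γ θ) < 1) :
    γ θ = θ := by
  have hA : Agr F (γ⁻¹ • W) W := by_contra fun hA =>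
    Cert.not_both ((Cert.inv_lt_iff found.bas hW γ θ).2 hs)
      (t.one _ (found.bas.smulPl k Ω W hW γ⁻¹).1
        ((Cert.inv_lt_iff found.bas hW γ x).2 (by rw [mem_Gam.1 hγ]; exact hu.2.2.1)) hA)
  obtain ⟨δ, d1, d2⟩ := found.conj k Ω F h.alg W _ fun y hy => (hA y hy).symm
  have := found.dens.fix k Ω x h.co W hW x hu.2.1 hu.2.2.1 F h.mem
    (found.unif.val k Ω F h.ff W hW x hu) (γ * δ) (by rw [mul_smul, d2, smul_inv_smul])
    (mul_mem hγ (h.le d1)) θ t.mem
  rwa [AlgEquiv.mul_apply, fix_apply d1 t.mem] at this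

lemma eq_adjoin [IsAlgClosed Ω] (h : FS F x) {θ : Ω} (hθ : θ ∈ F) {S : Finset Ω}
    (hS : IntermediateField.adjoin k (S : Set Ω) = F)
    (t : ∀ γ ∈ Gam k x, γ θ = θ → ∀ s ∈ S, γ s = s) : F = k⟮x, θ⟯ := by
  have hx : x ∈ k⟮x, θ⟯ := IntermediateField.subset_adjoin _ _ (by simp)
  have h2 : θ ∈ k⟮x, θ⟯ := IntermediateField.subset_adjoin _ _ (by simp)
  refine le_antisymm (fun y hy => found.gal.sep k Ω _ (Ind.alg_of_mem h.co hx) y
    (sep_up (adjoin_simple_le_iff.2 hx) (h.sep y hy)) fun γ hγ => ?_)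
    (IntermediateField.adjoin_le_iff.2 ?_)
  · have h3 := t γ (fix_apply hγ hx) (fix_apply hγ h2)
    rw [← hS] at hy
    induction hy using IntermediateField.adjoin_induction with
    | mem y hy => exact h3 y hy
    | algebraMap c => exact γ.commutes c
    | add a b _ _ ha hb => rw [map_add, ha, hb]
    | inv a _ ha => rw [map_inv₀, ha]
    | mul a b _ _ ha hb => rw [map_mul, ha, hb]
  · rintro _ (rfl | rfl)
    exacts [h.mem, hθ]

end SH1

open SH1 in
theorem blockSH1 : StmtSH1 := by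
  intro p _ k Ω _ _ _ _ _ _ F x h W hW hu
  classical
  obtain ⟨S, hS⟩ := h.fg
  have hx := hu.2.2.1
  obtain ⟨θ, t1, t2⟩ := exists_gd_fix h hW hx S fun s hs =>
    hS ▸ IntermediateField.subset_adjoin k _ hs
  set M := (minpoly k⟮x⟯ θ).map (algebraMap k⟮x⟯ Ω) with hM
  have mon : M.Monic := (minpoly.monic (h.co.alg θ).isIntegral).map _
  have rt : ∀ r, r ∈ M.roots ↔ aeval r (minpoly k⟮x⟯ θ) = 0 := fun r => by
    rw [mem_roots mon.ne_zero, IsRoot.def, hM, eval_map_algebraMap]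
  have cj : ∀ r ∈ M.roots, ∃ γ ∈ Gam k x, γ θ = r := fun r hr => by
    rw [← fix_adjoin]
    exact found.gal.conjRoot k Ω _ h.co.alg θ r ((rt r).1 hr)
  have int : ∀ r ∈ M.roots, Intg k x r := fun r hr => by
    obtain ⟨γ, hγ, rfl⟩ := cj r hr
    exact Cert.intg_map found.bas hγ t1.int
  have e1 : M = (M.roots.map fun a => X - C a).prod :=
    (IsAlgClosed.splits M).eq_prod_roots_of_monic mon
  have hl : M ∈ lifts (aeval x : k[X] →ₐ[k] Ω).toRingHom := by
    rw [lifts_iff_coeff_lifts]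
    intro n
    obtain ⟨P, hP⟩ := found.bas.intgPoly k Ω x (M.coeff n) h.co.tr
      (fun V hV hx => e1 ▸ coeff_mem V.toSubring _ (fun r hr => int r hr V hV hx) n)
      (by rw [hM, coeff_map]; exact SetLike.coe_mem _)
    exact ⟨P, hP.symm⟩
  obtain ⟨f, hf, -, hfm⟩ := lifts_and_natDegree_eq_and_monic hl mon
  have r0 : θ ∈ M.roots := (rt θ).2 (minpoly.aeval _ _)
  have nd : M.roots.Nodup := nodup_roots (Separable.map (h.sep θ t1.mem))
  set Q := ((M.roots.erase θ).map fun a => X - C a).prod with hQ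
  have e2 : M = (X - C θ) * Q := by
    conv_lhs => rw [e1, ← Multiset.cons_erase r0, Multiset.map_cons, Multiset.prod_cons]
  have q1 : ∀ n, Q.coeff n ∈ W := coeff_mem W.toSubring _ fun r hr =>
    int r (Multiset.mem_of_mem_erase hr) W hW (mem_of_small hx)
  have q2 : W.valuation (Q.coeff 0) = 1 := by
    rw [coeff_zero_eq_eval_zero, hQ, eval_multiset_prod, map_multiset_prod, Multiset.map_map,
      Multiset.map_map]
    refine Multiset.prod_eq_one fun a ha => ?_
    obtain ⟨r, hr, rfl⟩ := Multiset.mem_map.1 ha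
    obtain ⟨r1, r2⟩ := nd.mem_erase_iff.1 hr
    have r3 := (W.valuation_le_one_iff _).2 (int r r2 W hW (mem_of_small hx))
    obtain ⟨γ, hγ, rfl⟩ := cj r r2
    simpa using r3.eq_of_not_lt fun t => r1 (conj_eq h hW hu t1 hγ t)
  have cf : ∀ n, aeval x (f.coeff n) = M.coeff n := fun n => by
    rw [← hf, coeff_map]
    rfl
  refine ⟨θ, f, ⟨hfm, (small_iff hW hx _).1 ?_, fun t => ?_⟩, ?_, t1.sm,
    eq_adjoin h t1.mem hS t2⟩
  · rw [cf, e2, mul_coeff_zero, coeff_sub, coeff_X_zero, coeff_C_zero, zero_sub, neg_mul,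
      Valuation.map_neg]
    exact small_mul t1.sm (q1 0)
  · have a1 := (small_iff hW hx _).2 t
    rw [cf, e2, sub_mul, coeff_sub, coeff_C_mul, coeff_X_mul] at a1
    have a2 := W.valuation.map_add_lt a1 (small_mul t1.sm (q1 1))
    rw [sub_add_cancel, q2] at a2
    exact lt_irrefl _ a2
  · rw [Rt, eval₂_eq_eval_map, hf]
    exact (mem_roots mon.ne_zero).1 r0

end Pool.Agent.Lib.IW2
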