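import Pool.Agent.Lib.IW2.Blue

/-! Simple roots and composite valuation rings. -/

open Polynomial IntermediateField

namespace Pool.Agent.Lib.IW2

open Pool.Agent.Lib.IW

namespace SH2

variable {K L : Type} [Field K] [Field L]

lemma lt_iff (U : ValuationSubring L) (s : L) : U.valuation s < 1 ↔ s = 0 ∨ s⁻¹ ∉ U :=
  U.mem_nonunits_iff.symm.trans U.mem_nonunits_iff_or

lemma comap_lt (O : ValuationSubring L) (j : K →+* L) (c : K) :
    (O.comap j).valuation c < 1 ↔ O.valuation (j c) < 1 := by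
  rw [lt_iff, lt_iff, ValuationSubring.mem_comap, map_inv₀, map_eq_zero]

lemma mem_of_lt {U : ValuationSubring L} {s : L} (h : U.valuation s < 1) : s ∈ U :=
  U.mem_of_valuation_le_one s h.le

lemma mul_lt {U : ValuationSubring L} {s t : L} (hs : s ∈ U) (h : U.valuation t < 1) :
    U.valuation (s * t) < 1 := by
  rw [map_mul]
  exact mul_lt_one_of_nonneg_of_lt_one_right ((U.valuation_le_one_iff s).2 hs) zero_le h

lemma eval_mem {U : ValuationSubring L} {g : L[X]} (hg : ∀ i, g.coeff i ∈ U) {θ : L}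
    (hθ : θ ∈ U) : g.eval θ ∈ U := by
  rw [eval_eq_sum_range]
  exact sum_mem fun i _ => mul_mem (hg i) (pow_mem hθ i)

lemma eval_sub {U : ValuationSubring L} {g : L[X]} (hg : ∀ i, g.coeff i ∈ U) {θ : L}
    (hθ : U.valuation θ < 1) : U.valuation (g.eval θ - g.coeff 0) < 1 := by
  have h1 : g.eval θ - g.coeff 0 = (divX g).eval θ * θ := by
    conv_lhs => rw [← divX_mul_X_add g]
    simp
  rw [h1]
  exact mul_lt (eval_mem (fun i => by rw [coeff_divX]; exact hg _) (mem_of_lt hθ)) hθ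

lemma val_eq {U : ValuationSubring L} {s t : L} (ht : U.valuation t = 1)
    (h : U.valuation (s - t) < 1) : U.valuation s = 1 := by
  rw [← ht] at h ⊢
  exact Valuation.map_eq_of_sub_lt _ h

lemma quot {U : ValuationSubring L} {g : L[X]} (hg : ∀ i, g.coeff i ∈ U)
    (h1 : U.valuation (g.coeff 1) = 1) {b : L} (hb : U.valuation b < 1) (hr : g.IsRoot b) :
    ∃ h : L[X], g = (X - C b) * h ∧ (∀ i, h.coeff i ∈ U) ∧ U.valuation (h.coeff 0) = 1 := by
  have h2 : ∀ i, (g /ₘ (X - C b)).coeff i ∈ U := fun i => by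
    rw [coeff_divByMonic_X_sub_C]
    exact sum_mem fun n _ => mul_mem (pow_mem (mem_of_lt hb) _) (hg n)
  have h3 := (mul_divByMonic_eq_iff_isRoot.2 hr).symm
  refine ⟨_, h3, h2, val_eq h1 ?_⟩
  have h4 : g.coeff 1 = (g /ₘ (X - C b)).coeff 0 - b * (g /ₘ (X - C b)).coeff 1 := by
    conv_lhs => rw [h3]
    exact coeff_X_sub_C_mul
  rw [h4, sub_sub_cancel, mul_comm]
  exact mul_lt (h2 1) hb

section Sh

variable {k : Type} [Field k] [Algebra k L] {U : ValuationSubring L}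

lemma aeval_mem (hU : ∀ c : k, algebraMap k L c ∈ U) (q : k[X]) {u : L} (hu : u ∈ U) :
    aeval u q ∈ U := by
  rw [← eval_map_algebraMap]
  exact eval_mem (fun i => by rw [coeff_map]; exact hU _) hu

lemma aeval_sub (hU : ∀ c : k, algebraMap k L c ∈ U) (q : k[X]) {u : L}
    (hu : U.valuation u < 1) : U.valuation (aeval u q - algebraMap k L (q.coeff 0)) < 1 := by
  rw [← eval_map_algebraMap, ← coeff_map]
  exact eval_sub (fun i => by rw [coeff_map]; exact hU _) hu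

lemma hom_val {j : K →+* L} (hU : ∀ c, j c ∈ U) {c : K} (hc : c ≠ 0) : U.valuation (j c) = 1 := by
  refine le_antisymm ((U.valuation_le_one_iff _).2 (hU c)) (not_lt.1 fun h => ?_)
  rcases (lt_iff U _).1 h with h | h
  · exact hc ((map_eq_zero j).1 h)
  · exact h (map_inv₀ j c ▸ hU c⁻¹)

lemma sh (hU : ∀ c : k, algebraMap k L c ∈ U) {f : k[X][X]} (hf : Sh f) {u : L}
    (hu : U.valuation u < 1) :
    (∀ i, (f.map (aeval (R := k) u).toRingHom).coeff i ∈ U) ∧
      U.valuation ((f.map (aeval (R := k) u).toRingHom).coeff 0) < 1 ∧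
      U.valuation ((f.map (aeval (R := k) u).toRingHom).coeff 1) = 1 := by
  simp only [coeff_map]
  refine ⟨fun i => aeval_mem hU _ (mem_of_lt hu), ?_,
    val_eq (hom_val hU hf.2.2) (aeval_sub hU _ hu)⟩
  have h := aeval_sub hU (f.coeff 0) hu
  rwa [hf.2.1, map_zero, sub_zero] at h

end Sh

lemma small_root [IsAlgClosed L] {U : ValuationSubring L} {g : L[X]} (hm : g.Monic)
    (h0 : U.valuation (g.coeff 0) < 1) : ∃ b, U.valuation b < 1 ∧ g.IsRoot b := by
  by_contra h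
  push Not at h
  rw [coeff_zero_eq_eval_zero, (IsAlgClosed.splits g).eval_eq_prod_roots_of_monic hm] at h0
  refine not_le.2 h0 (Multiset.prod_induction (fun a => 1 ≤ U.valuation a) _ ?_ ?_ ?_)
  · intro a b ha hb
    rw [map_mul]
    exact one_le_mul ha hb
  · rw [map_one]
  · intro a ha
    obtain ⟨b, hb, rfl⟩ := Multiset.mem_map.1 ha
    rw [zero_sub, Valuation.map_neg]
    exact not_lt.1 fun h' => h b h' (isRoot_of_mem_roots hb)

section Cmp

variable {W : ValuationSubring L} {j : K →+* L}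

lemma r_mem (hW : ∀ c, j c ∈ W) {s : L} {c : K} (h : W.valuation (s - j c) < 1) : s ∈ W := by
  have := add_mem (mem_of_lt h) (hW c)
  rwa [sub_add_cancel] at this

lemma r_mul (hW : ∀ c, j c ∈ W) {s s' : L} {c c' : K} (h : W.valuation (s - j c) < 1)
    (h' : W.valuation (s' - j c') < 1) : W.valuation (s * s' - j (c * c')) < 1 := by
  have h1 : s * s' - j (c * c') = s * (s' - j c') + j c' * (s - j c) := by
    rw [map_mul]; ring
  rw [h1]
  exact Valuation.map_add_lt _ (mul_lt (r_mem hW h) h') (mul_lt (hW c') h)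

lemma r_inv (hW : ∀ c, j c ∈ W) {s : L} {c : K} (h : W.valuation (s - j c) < 1) (hc : c ≠ 0) :
    W.valuation (s⁻¹ - j c⁻¹) < 1 := by
  have h1 := hom_val hW hc
  have h2 := val_eq h1 h
  have h3 : s ≠ 0 := fun e => by simp [e] at h2
  have h4 : j c ≠ 0 := (map_ne_zero j).2 hc
  have h5 : s⁻¹ - j c⁻¹ = -(s - j c) * s⁻¹ * (j c)⁻¹ := by
    rw [map_inv₀]; field_simp; ring
  rwa [h5, map_mul, map_mul, map_inv₀, map_inv₀, h1, h2, inv_one, mul_one, mul_one,
    Valuation.map_neg]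

lemma cmp (hW : ∀ c, j c ∈ W) (hr : ∀ s ∈ W, ∃ c, W.valuation (s - j c) < 1)
    (V : ValuationSubring K) : ∃ U : ValuationSubring L,
      (∀ s, s ∈ U ↔ ∃ c ∈ V, W.valuation (s - j c) < 1) ∧
      ∀ s, U.valuation s < 1 ↔ ∃ c, V.valuation c < 1 ∧ W.valuation (s - j c) < 1 := by
  have key : ∀ s ∈ W, (∃ c ∈ V, W.valuation (s - j c) < 1) ∨
      ∃ c ∈ V, W.valuation (s⁻¹ - j c) < 1 := fun s hs => by
    obtain ⟨c, hc⟩ := hr s hs
    by_cases h : c ∈ V
    · exact Or.inl ⟨c, h, hc⟩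
    · exact Or.inr ⟨c⁻¹, (V.mem_or_inv_mem c).resolve_left h,
        r_inv hW hc fun e => h (e ▸ zero_mem V)⟩
  let U : ValuationSubring L :=
    { carrier := {s | ∃ c ∈ V, W.valuation (s - j c) < 1}
      mul_mem' := fun ⟨c, hc, h⟩ ⟨c', hc', h'⟩ => ⟨c * c', mul_mem hc hc', r_mul hW h h'⟩
      one_mem' := ⟨1, one_mem V, by simp⟩
      add_mem' := fun ⟨c, hc, h⟩ ⟨c', hc', h'⟩ => ⟨c + c', add_mem hc hc', by
        rw [map_add, add_sub_add_comm]
        exact Valuation.map_add_lt _ h h'⟩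
      zero_mem' := ⟨0, zero_mem V, by simp⟩
      neg_mem' := fun ⟨c, hc, h⟩ => ⟨-c, neg_mem hc, by
        rwa [map_neg, neg_sub_neg, Valuation.map_sub_swap]⟩
      mem_or_inv_mem' := fun s => by
        rcases W.mem_or_inv_mem s with h | h
        · exact key s h
        · have := key _ h
          rw [inv_inv] at this
          exact this.symm }
  have hU : ∀ s, s ∈ U ↔ ∃ c ∈ V, W.valuation (s - j c) < 1 := fun _ => Iff.rfl
  refine ⟨U, hU, fun s => ⟨fun h => ?_, fun ⟨c, hc, h⟩ => ?_⟩⟩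
  · obtain ⟨c, hc, h1⟩ := (hU s).1 (mem_of_lt h)
    refine ⟨c, ?_, h1⟩
    by_contra h2
    rw [lt_iff] at h h2
    push Not at h2
    rcases h with h | h
    · rw [h, zero_sub, Valuation.map_neg, hom_val hW h2.1] at h1
      exact lt_irrefl _ h1
    · exact h ⟨c⁻¹, h2.2, r_inv hW h1 h2.1⟩
  · rw [lt_iff]
    by_contra h2
    push Not at h2
    obtain ⟨c', hc', h'⟩ := (hU _).1 h2.2
    have h3 := r_mul hW h' h
    rw [inv_mul_cancel₀ h2.1, ← map_one j, ← map_sub] at h3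
    have h4 : 1 - c' * c = 0 := by
      by_contra h4
      rw [hom_val hW h4] at h3
      exact lt_irrefl _ h3
    have h5 := mul_lt hc' hc
    rw [← sub_eq_zero.1 h4, map_one] at h5
    exact lt_irrefl _ h5

end Cmp

end SH2

open SH2 in
theorem blockSH2 : StmtSH2 where
  simple := fun k Ω _ _ _ U hU f hf u θ θ' hu hθ hθ' h h' => by
    obtain ⟨h1, -, h2⟩ := sh hU hf hu
    rw [Rt, ← eval_map] at h h'
    obtain ⟨q, h3, h4, h5⟩ := quot h1 h2 hθ h
    rw [h3, eval_mul, Polynomial.eval_sub, eval_X, eval_C, mul_eq_zero] at h'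
    rcases h' with h' | h'
    · exact (sub_eq_zero.1 h').symm
    · have h6 := val_eq h5 (SH2.eval_sub h4 hθ')
      rw [h', map_zero] at h6
      exact absurd h6 zero_ne_one
  fac := fun k 𝕜 Ω' _ _ _ _ _ _ _ _ O hO f hf a ha => by
    have hV : ∀ c : k, algebraMap k 𝕜 c ∈ O.comap (algebraMap 𝕜 Ω') := fun c => by
      rw [ValuationSubring.mem_comap, ← IsScalarTower.algebraMap_apply]
      exact hO c
    obtain ⟨h1, h2, h3⟩ := sh hV hf ((comap_lt O _ a).2 ha)
    obtain ⟨b, h4, h5⟩ := small_root (hf.1.map _) h2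
    obtain ⟨q, h6, h7, h8⟩ := quot h1 h3 h4 h5
    refine ⟨b, q, (comap_lt O _ b).1 h4, h6, h7, le_antisymm
      ((O.valuation_le_one_iff _).2 (h7 0)) (not_lt.1 fun h => ?_)⟩
    exact ((comap_lt O _ _).2 h).ne h8
  cmpPl := fun 𝕜 Ω' _ _ _ _ σ hσ W O hW => by
    obtain ⟨U, h1, h2⟩ := cmp (j := algebraMap 𝕜 Ω') hW.2 (found.bas.resid 𝕜 Ω' σ hσ W hW)
      (O.comap (algebraMap 𝕜 Ω'))
    exact ⟨U, h1, fun s => by simp only [h2, comap_lt]⟩
  cmpRed := fun k 𝕜 Ω Ω' _ _ _ _ _ _ _ ι O hO V =>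
    cmp (j := ι.toRingHom) hO.mem hO.res V

end Pool.Agent.Lib.IW2
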