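import Pool.Agent.Lib.IW2.Blue

/-! Groups of order prime to the characteristic have good reduction. -/

open Polynomial IntermediateField

namespace Pool.Agent.Lib.IW2

open Pool.Agent.Lib.IW

namespace TAMEG

/-- Fourier inversion on a cyclic subgroup. -/
lemma four {Ω G : Type} [Field Ω] [Group G] {n : ℕ} (hn : (n : Ω) ≠ 0) {w : Ω}
    (hw : IsPrimitiveRoot w n) {h : G} (hh : h ^ n = 1) {f : G → Ω} (hf : f h ≠ f 1) :
    (∀ (j : ℕ) (g : G), w ^ j * ∑ i ∈ Finset.range n, (w ^ j) ^ i * f (g * h * h ^ i) =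
      ∑ i ∈ Finset.range n, (w ^ j) ^ i * f (g * h ^ i)) ∧
    ∃ j : ℕ, w ^ j ≠ 1 ∧ ∑ i ∈ Finset.range n, (w ^ j) ^ i * f (1 * h ^ i) ≠ 0 := by
  have h0 : 0 < n := Nat.pos_of_ne_zero fun e => hn (by simp [e])
  have h1 : ∀ (j : ℕ) (g : G), w ^ j * ∑ i ∈ Finset.range n, (w ^ j) ^ i * f (g * h * h ^ i) =
      ∑ i ∈ Finset.range n, (w ^ j) ^ i * f (g * h ^ i) := fun j g => by
    have := (Finset.sum_range_succ (fun i => (w ^ j) ^ i * f (g * h ^ i)) n).symm.trans
      (Finset.sum_range_succ' _ n)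
    rw [hh, ← pow_mul, mul_comm j n, pow_mul, hw.pow_eq_one, one_pow, pow_zero, pow_zero,
      add_left_inj] at this
    rw [this, Finset.mul_sum]
    exact Finset.sum_congr rfl fun i _ => by rw [pow_succ', pow_succ', mul_assoc, mul_assoc]
  have h2 : ∀ g : G, ∑ j ∈ Finset.range n, ∑ i ∈ Finset.range n, (w ^ j) ^ i * f (g * h ^ i) =
      n * f g := fun g => by
    rw [Finset.sum_comm, Finset.sum_eq_single_of_mem 0 (Finset.mem_range.2 h0)]
    · simp
    · intro i hi hi'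
      have e : w ^ i ≠ 1 := hw.pow_ne_one_of_pos_of_lt hi' (Finset.mem_range.1 hi)
      rw [← Finset.sum_mul, Finset.sum_congr rfl fun j _ => pow_right_comm w j i, geom_sum_eq e,
        pow_right_comm, hw.pow_eq_one]
      simp
  refine ⟨h1, by_contra fun hc => hf (mul_left_cancel₀ hn ?_)⟩
  push Not at hc
  rw [← h2, ← h2]
  refine Finset.sum_congr rfl fun j _ => ?_
  have := h1 j 1
  rw [one_mul] at this
  by_cases e : w ^ j = 1
  · rw [← this, e, one_mul]
  · rw [hc j e] at this ⊢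
    exact (mul_eq_zero.1 this).resolve_left (pow_ne_zero _ (hw.ne_zero h0.ne'))

end TAMEG

theorem blockTAMEG (hV : StmtVAND) : StmtTAMEG := by
  intro p _ k 𝕜 Ω' _ _ _ _ _ _ _ _ _ _ _ F σ hF G _ _ _ ρ hρ hp O hk hO
  have : CharP 𝕜 p := charP_of_injective_algebraMap (algebraMap k 𝕜).injective p
  obtain ⟨f, hf, hi, -⟩ := exists_alg_inj p hF hρ
  refine hV.vand k 𝕜 Ω' F G ρ O hk fun h hh => ?_
  have hn : ((orderOf h : ℕ) : k) ≠ 0 := fun e =>
    hp (((CharP.cast_eq_zero_iff k p _).1 e).trans (orderOf_dvd_natCard h))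
  have : NeZero ((orderOf h : ℕ) : k) := ⟨hn⟩
  obtain ⟨ζ, hζ⟩ := HasEnoughRootsOfUnity.exists_primitiveRoot k (orderOf h)
  have hw := hζ.map_of_injective (algebraMap k Ω').injective
  obtain ⟨h1, j, h2, h3⟩ := TAMEG.four (Ω := Ω') (n := orderOf h)
    (by simpa using (_root_.map_ne_zero (algebraMap k Ω')).2 hn) hw (pow_orderOf_eq_one h) (hi.ne hh)
  have mem : ∀ a : k, algebraMap k Ω' a ∈ F := fun a => by
    rw [IsScalarTower.algebraMap_apply k 𝕜 Ω']; exact F.algebraMap_mem _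
  have val : ∀ a : k, a ≠ 0 → O.valuation (algebraMap k Ω' a) = 1 := fun a ha => by
    refine le_antisymm ((O.valuation_le_one_iff _).2 (hk a)) ?_
    have := (O.valuation_le_one_iff _).2 (hk a⁻¹)
    rwa [map_inv₀, map_inv₀, inv_le_one₀ ((Valuation.pos_iff _).2
      ((_root_.map_ne_zero _).2 ha))] at this
  obtain ⟨c, hc⟩ := hO _ h3
  have c0 : O.valuation (algebraMap 𝕜 Ω' c) ≠ 0 := hc ▸ (Valuation.ne_zero_iff _).2 h3
  have h4 := h1 j 1
  generalize hA : ∑ i ∈ Finset.range (orderOf h), (algebraMap k Ω' ζ ^ j) ^ i * f (1 * h ^ i) = A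
    at h3 h4 hc
  generalize hB : ∑ i ∈ Finset.range (orderOf h),
    (algebraMap k Ω' ζ ^ j) ^ i * f (1 * h * h ^ i) = B at h4
  rw [one_mul] at hB
  refine ⟨fun g => (∑ i ∈ Finset.range (orderOf h), (algebraMap k Ω' ζ ^ j) ^ i * f (g * h ^ i)) /
    algebraMap 𝕜 Ω' c, (Alg.sum _ fun i _ => (Alg.const (pow_mem (pow_mem (mem ζ) j) i)).mul
      (hf.shift _)).div (Alg.const (F.algebraMap_mem c)), ?_, ?_⟩
  · beta_reduce
    rw [hA, ← O.valuation_le_one_iff, map_div₀, hc, div_self c0]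
  · have z0 : ζ ^ j ≠ 0 := pow_ne_zero _ (hζ.ne_zero fun e => hn (by simp [e]))
    have v1 := val _ z0
    have v2 := val (1 - ζ ^ j) (sub_ne_zero.2 fun e => h2 (by rw [← map_pow, ← e, map_one]))
    rw [map_pow] at v1
    rw [map_sub, map_one, map_pow] at v2
    rw [← h4, map_mul, v1, one_mul] at hc
    beta_reduce
    rw [hA, hB, ← h4, ← sub_div, ← one_sub_mul, map_div₀, map_mul, v2, hc, one_mul, div_self c0]
    exact lt_irrefl _

end Pool.Agent.Lib.IW2
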