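import Pool.Agent.Lib.IW2.Blue

/-! Certificates from separating functions. -/

open Polynomial IntermediateField
open scoped Pointwise

namespace Pool.Agent.Lib.IW2

open Pool.Agent.Lib.IW

namespace VAND

section Mat

variable {Ω S : Type} [Field Ω] [SetLike S Ω] [SubringClass S Ω] {ι : Type} [Fintype ι]
  [DecidableEq ι]

lemma det_mem (R : S) {X : Matrix ι ι Ω} (h : ∀ i j, X i j ∈ R) : X.det ∈ R := by
  rw [Matrix.det_apply']
  exact sum_mem fun σ _ => mul_mem (intCast_mem R _) (prod_mem fun i _ => h _ _)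

lemma inv_mem_of (R : S) {X : Matrix ι ι Ω} (h : ∀ i j, X i j ∈ R) (hd : X.det⁻¹ ∈ R) (i j : ι) :
    X⁻¹ i j ∈ R := by
  rw [Matrix.inv_def, Matrix.smul_apply, Ring.inverse_eq_inv', smul_eq_mul, Matrix.adjugate_apply]
  refine mul_mem hd (det_mem R fun a b => ?_)
  rw [Matrix.updateRow_apply]
  split_ifs
  · rw [Pi.single_apply]
    split_ifs
    exacts [one_mem R, zero_mem R]
  · exact h _ _

end Mat

section One

variable {k Ω : Type} [Field k] [Field Ω] [Algebra k Ω] {F : IntermediateField k Ω}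
  {G : Type} [Group G] [Fintype G] [DecidableEq G] {ρ : Aut k Ω → G} {X : Matrix G G Ω}

omit [Fintype G] [DecidableEq G] in
lemma map_eq (h : ∀ i, Alg F ρ fun g => X g i) {γ : Aut k Ω} (hγ : γ ∈ F.fixingSubgroup) :
    X.map (γ : Ω →+* Ω) = X.submatrix (Equiv.mulLeft (ρ γ)) id := by
  ext g i
  exact (h i).2 γ hγ g

lemma det_sep (h : ∀ i, Alg F ρ fun g => X g i) : X.det ∈ separableClosure F Ω :=
  det_mem _ fun g i => (h i).1 g

lemma inv_alg (h : ∀ i, Alg F ρ fun g => X g i) (hd : X.det ≠ 0) (i : G) : Alg F ρ (X⁻¹ i) := by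
  refine ⟨fun g => inv_mem_of (separableClosure F Ω) (fun g i => (h i).1 g)
    (inv_mem (det_sep h)) i g, fun γ hγ g => ?_⟩
  have h0 : X⁻¹ * X = 1 := Matrix.nonsing_inv_mul X (isUnit_iff_ne_zero.2 hd)
  have h1 : (X⁻¹).map (γ : Ω →+* Ω) * X.submatrix (Equiv.mulLeft (ρ γ)) id = 1 := by
    rw [← map_eq h hγ, ← Matrix.map_mul, h0, Matrix.map_one _ (map_zero _) (map_one _)]
  have h2 : (X⁻¹).submatrix id (Equiv.mulLeft (ρ γ)) * X.submatrix (Equiv.mulLeft (ρ γ)) id
      = 1 := by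
    rw [Matrix.submatrix_mul_equiv, h0, Matrix.submatrix_id_id]
  exact congrFun (congrFun (Matrix.left_inv_eq_left_inv h1 h2) i) g

lemma det2 [IsAlgClosed Ω] (hF : ∀ y : Ω, IsAlgebraic F y) (h : ∀ i, Alg F ρ fun g => X g i) :
    X.det ^ 2 ∈ F := by
  refine found.gal.sep k Ω F hF _ ((separableClosure F Ω).toSubalgebra.pow_mem (det_sep h) 2)
    fun γ hγ => ?_
  have h1 : γ X.det = (Equiv.Perm.sign (Equiv.mulLeft (ρ γ)) : ℤ) * X.det := by
    rw [← Matrix.det_permute, ← map_eq h hγ]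
    exact RingHom.map_det (γ : Ω →+* Ω) X
  rw [map_pow, h1, mul_pow, ← Int.cast_pow, ← Units.val_pow_eq_pow_val, Int.units_sq]
  simp

lemma cert {U : ValuationSubring Ω} (hc : Cert F ρ U) {h : G} (hh : h ≠ 1) :
    ∃ f, Alg F ρ f ∧ (∀ g, f g ∈ U) ∧ U.valuation (f h - f 1) = 1 := by
  obtain ⟨X, X', h1, h2, h3⟩ := hc
  by_contra hn
  have h4 : ∀ i, U.valuation (X h i - X 1 i) < 1 := fun i =>
    lt_of_le_of_ne ((U.valuation_le_one_iff _).2 (sub_mem (h2 h i).1 (h2 1 i).1))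
      fun e => hn ⟨fun g => X g i, (h1 i).1, fun g => (h2 g i).1, e⟩
  have h5 : ∑ i, (X h i - X 1 i) * X' i 1 = -1 := by
    have a := congrFun (congrFun h3 h) 1
    have b := congrFun (congrFun h3 1) 1
    rw [Matrix.mul_apply, Matrix.one_apply_ne hh] at a
    rw [Matrix.mul_apply, Matrix.one_apply_eq] at b
    simp only [sub_mul, Finset.sum_sub_distrib, a, b, zero_sub]
  have h6 : U.valuation (∑ i, (X h i - X 1 i) * X' i 1) < 1 :=
    Valuation.map_sum_lt _ one_ne_zero fun i _ => by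
      rw [map_mul]
      exact mul_lt_one_of_lt_of_le (h4 i) ((U.valuation_le_one_iff _).2 (h2 1 i).2)
  rw [h5, Valuation.map_neg, map_one] at h6
  exact lt_irrefl _ h6

end One

lemma avoid {k ι : Type} [Infinite k] [Finite ι] (bad : ι → k → Prop)
    (h : ∀ i a b, bad i a → bad i b → a = b) : ∃ a, ∀ i, ¬ bad i a := by
  have h1 : (⋃ i, {a | bad i a}).Finite :=
    Set.finite_iUnion fun i => Set.Subsingleton.finite fun a ha b hb => h i a b ha hb
  obtain ⟨a, ha⟩ := h1.exists_notMem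
  exact ⟨a, fun i hi => ha (Set.mem_iUnion.2 ⟨i, hi⟩)⟩

section Two

variable {k 𝕜 Ω' : Type} [Field k] [IsAlgClosed k] [Field 𝕜] [Field Ω'] [Algebra k 𝕜]
  [Algebra k Ω'] [Algebra 𝕜 Ω'] [IsScalarTower k 𝕜 Ω'] {F : IntermediateField 𝕜 Ω'}
  {G : Type} [Group G] {ρ : Aut 𝕜 Ω' → G} {U : ValuationSubring Ω'}

omit [IsAlgClosed k] in
lemma val_const (hU : ∀ c : k, algebraMap k Ω' c ∈ U) {c : k} (hc : c ≠ 0) :
    U.valuation (algebraMap k Ω' c) = 1 := by
  have h1 := (U.valuation_le_one_iff _).2 (hU c)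
  have h2 := (U.valuation_le_one_iff _).2 (hU c⁻¹)
  have h3 : U.valuation (algebraMap k Ω' c) * U.valuation (algebraMap k Ω' c⁻¹) = 1 := by
    rw [← map_mul, ← map_mul, mul_inv_cancel₀ hc, map_one, map_one]
  by_contra hn
  exact (mul_lt_one_of_lt_of_le (lt_of_le_of_ne h1 hn) h2).ne h3

omit [IsAlgClosed k] in
lemma const_mem (c : k) : algebraMap k Ω' c ∈ F := by
  rw [IsScalarTower.algebraMap_apply k 𝕜 Ω']
  exact F.algebraMap_mem _

omit [IsAlgClosed k] in
/-- At most one constant `c` makes `A + c B` small, unless both `A` and `B` are small. -/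
lemma uniq (hU : ∀ c : k, algebraMap k Ω' c ∈ U) {A B : Ω'}
    (h : ¬ U.valuation A < 1 ∨ ¬ U.valuation B < 1) {a b : k}
    (ha : U.valuation (A + algebraMap k Ω' a * B) < 1)
    (hb : U.valuation (A + algebraMap k Ω' b * B) < 1) : a = b := by
  by_contra hn
  have h1 : U.valuation B < 1 := by
    have := U.valuation.map_sub_lt ha hb
    rwa [add_sub_add_left_eq_sub, ← sub_mul, ← map_sub, map_mul,
      val_const hU (sub_ne_zero.2 hn), one_mul] at this
  have h2 : U.valuation (algebraMap k Ω' a * B) < 1 := by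
    rw [map_mul, mul_comm]
    exact mul_lt_one_of_lt_of_le h1 ((U.valuation_le_one_iff _).2 (hU a))
  have h3 := U.valuation.map_sub_lt ha h2
  rw [add_sub_cancel_right] at h3
  exact h.elim (fun e => e h3) fun e => e h1

lemma step1 [Finite G] (hU : ∀ c : k, algebraMap k Ω' c ∈ U) {f : G → Ω'} (hf : Alg F ρ f)
    {g h : G} (hg : f g ∈ U) (hs : ¬ U.valuation (f h - f g) < 1) :
    ∃ z, Alg F ρ z ∧ (∀ x, z x ∈ U) ∧ U.valuation (z g - z h) = 1 := by
  obtain ⟨a, ha⟩ := avoid (fun x (a : k) => U.valuation (f x + algebraMap k Ω' a * 1) < 1)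
    fun x a b h1 h2 => uniq hU (Or.inr (by rw [map_one]; exact lt_irrefl _)) h1 h2
  simp only [mul_one, not_lt] at ha hs
  set c := algebraMap k Ω' a
  have h0 : ∀ x, U.valuation (f x + c) ≠ 0 := fun x => (lt_of_lt_of_le zero_lt_one (ha x)).ne'
  have h1 : U.valuation (f g + c) ≤ 1 := (U.valuation_le_one_iff _).2 (add_mem hg (hU a))
  have h2 : U.valuation (f h + c) = U.valuation (f h - f g) := by
    refine le_antisymm ?_ ?_
    · rw [show f h + c = (f h - f g) + (f g + c) by ring]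
      exact U.valuation.map_add_le le_rfl (h1.trans hs)
    · rw [show f h - f g = (f h + c) - (f g + c) by ring]
      exact U.valuation.map_sub_le le_rfl (h1.trans (ha h))
  refine ⟨fun x => (f x + c)⁻¹, (hf.add (Alg.const (const_mem a))).inv, fun x => ?_, ?_⟩
  · rw [← U.valuation_le_one_iff, map_inv₀]
    exact inv_le_one_of_one_le₀ (ha x)
  · have e1 : f g + c ≠ 0 := fun e => h0 g (by rw [e, map_zero])
    have e2 : f h + c ≠ 0 := fun e => h0 h (by rw [e, map_zero])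
    rw [show (f g + c)⁻¹ - (f h + c)⁻¹ = (f h - f g) / ((f g + c) * (f h + c)) by
      field_simp; ring, map_div₀, map_mul, ← h2, le_antisymm h1 (ha g), one_mul, div_self (h0 h)]

lemma sepf [Finite G] (hU : ∀ c : k, algebraMap k Ω' c ∈ U)
    (hs : ∀ h : G, h ≠ 1 → ∃ f, Alg F ρ f ∧ f 1 ∈ U ∧ ¬ U.valuation (f h - f 1) < 1) :
    ∃ z, Alg F ρ z ∧ (∀ g, z g ∈ U) ∧ ∀ g h, g ≠ h → U.valuation (z g - z h) = 1 := by
  classical
  have key : ∀ s : Finset (G × G), ∃ z, Alg F ρ z ∧ (∀ g, z g ∈ U) ∧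
      ∀ p ∈ s, p.1 ≠ p.2 → U.valuation (z p.1 - z p.2) = 1 := by
    intro s
    induction s using Finset.induction_on with
    | empty => exact ⟨fun _ => 0, Alg.const (zero_mem F), fun _ => zero_mem U, by simp⟩
    | insert q s _ ih =>
      obtain ⟨z, z1, z2, z3⟩ := ih
      by_cases hq : q.1 = q.2
      · refine ⟨z, z1, z2, fun p hp hne => ?_⟩
        rcases Finset.mem_insert.1 hp with rfl | hp
        exacts [absurd hq hne, z3 p hp hne]
      obtain ⟨f, f1, f2, f3⟩ := hs (q.2 * q.1⁻¹) fun e => hq (mul_inv_eq_one.1 e).symm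
      obtain ⟨y, y1, y2, y3⟩ := step1 hU (f1.shift q.1⁻¹) (g := q.1) (h := q.2)
        (by simpa using f2) (by simpa using f3)
      obtain ⟨c, hc⟩ := avoid (fun (p : {p : G × G // p ∈ insert q s ∧ p.1 ≠ p.2}) (a : k) =>
          U.valuation ((z p.1.1 - z p.1.2) + algebraMap k Ω' a * (y p.1.1 - y p.1.2)) < 1)
        fun p a b h1 h2 => uniq hU (by
          rcases Finset.mem_insert.1 p.2.1 with e | e
          · right
            rw [e, y3]
            exact lt_irrefl _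
          · left
            rw [z3 _ e p.2.2]
            exact lt_irrefl _) h1 h2
      have hm : ∀ g, z g + algebraMap k Ω' c * y g ∈ U := fun g =>
        add_mem (z2 g) (mul_mem (hU c) (y2 g))
      refine ⟨fun g => z g + algebraMap k Ω' c * y g, z1.add ((Alg.const (const_mem c)).mul y1),
        hm, fun p hp hne => le_antisymm ((U.valuation_le_one_iff _).2 (sub_mem (hm _) (hm _))) ?_⟩
      have := not_lt.1 (hc ⟨p, hp, hne⟩)
      rwa [show z p.1 - z p.2 + algebraMap k Ω' c * (y p.1 - y p.2) =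
        z p.1 + algebraMap k Ω' c * y p.1 - (z p.2 + algebraMap k Ω' c * y p.2) by ring] at this
  have := Fintype.ofFinite G
  obtain ⟨z, z1, z2, z3⟩ := key Finset.univ
  exact ⟨z, z1, z2, fun g h hne => z3 (g, h) (Finset.mem_univ _) hne⟩

omit [IsAlgClosed k] in
lemma cert_of [Fintype G] [DecidableEq G] {z : G → Ω'} (z1 : Alg F ρ z) (z2 : ∀ g, z g ∈ U)
    (z3 : ∀ g h, g ≠ h → U.valuation (z g - z h) = 1) : Cert F ρ U := by
  let e := Fintype.equivFin G
  let X : Matrix G G Ω' := (Matrix.vandermonde (z ∘ e.symm)).submatrix e e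
  have hX : ∀ g i, X g i = z g ^ (e i : ℕ) := fun g i => by
    simp [X, Matrix.vandermonde_apply]
  have h1 : ∀ i, Alg F ρ fun g => X g i := fun i => by
    simp only [hX]
    exact z1.pow _
  have h2 : ∀ g i, X g i ∈ U := fun g i => by
    rw [hX]
    exact pow_mem (z2 g) _
  have h3 : U.valuation X.det = 1 := by
    rw [Matrix.det_submatrix_equiv_self, Matrix.det_vandermonde, map_prod]
    refine Finset.prod_eq_one fun i _ => ?_
    rw [map_prod]
    exact Finset.prod_eq_one fun j hj =>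
      z3 _ _ (e.symm.injective.ne (Finset.mem_Ioi.1 hj).ne')
  have h4 : X.det ≠ 0 := fun e => by
    rw [e, map_zero] at h3
    exact zero_ne_one h3
  refine ⟨X, X⁻¹, fun i => ⟨h1 i, inv_alg h1 h4 i⟩, fun g i => ⟨h2 g i, inv_mem_of U h2 ?_ i g⟩,
    Matrix.mul_nonsing_inv X (isUnit_iff_ne_zero.2 h4)⟩
  rw [← U.valuation_le_one_iff, map_inv₀, h3, inv_one]

end Two

end VAND

theorem blockVAND : StmtVAND where
  invm := fun _ _ _ _ _ _ _ _ _ _ _ _ h hd =>
    ⟨VAND.inv_alg h hd, fun U hU h1 => VAND.inv_mem_of U hU (by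
      rw [← U.valuation_le_one_iff, map_inv₀, h1, inv_one])⟩
  det2 := fun _ _ _ _ _ _ _ hF _ _ _ _ _ _ h => VAND.det2 hF h
  sepf := fun _ _ _ _ _ _ _ _ _ _ _ _ _ _ _ _ _ hU hs => VAND.sepf hU hs
  vand := fun _ _ _ _ _ _ _ _ _ _ _ _ _ _ _ _ _ _ hU hs => by
    obtain ⟨z, z1, z2, z3⟩ := VAND.sepf hU hs
    exact VAND.cert_of z1 z2 z3
  cert := fun _ _ _ _ _ _ _ _ _ _ _ _ hc _ hh => VAND.cert hc hh

end Pool.Agent.Lib.IW2
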