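import Pool.Agent.Lib.IW2.ASO
import Pool.Agent.Lib.IW2.ASO1
import Pool.Agent.Lib.IW2.DISC
import Pool.Agent.Lib.IW2.DOWN
import Pool.Agent.Lib.IW2.FB1
import Pool.Agent.Lib.IW2.FB2
import Pool.Agent.Lib.IW2.HOM
import Pool.Agent.Lib.IW2.KUMG
import Pool.Agent.Lib.IW2.LAT
import Pool.Agent.Lib.IW2.LOC
import Pool.Agent.Lib.IW2.MAX
import Pool.Agent.Lib.IW2.ORTH
import Pool.Agent.Lib.IW2.PI
import Pool.Agent.Lib.IW2.PUR
import Pool.Agent.Lib.IW2.RED2
import Pool.Agent.Lib.IW2.RED3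
import Pool.Agent.Lib.IW2.RREP
import Pool.Agent.Lib.IW2.RX
import Pool.Agent.Lib.IW2.SC
import Pool.Agent.Lib.IW2.SC1
import Pool.Agent.Lib.IW2.SH1
import Pool.Agent.Lib.IW2.SH2
import Pool.Agent.Lib.IW2.TAMEG
import Pool.Agent.Lib.IW2.VAND

/-! Assembly of the blocks of part one. -/

namespace Pool.Agent.Lib.IW2

theorem fb1 : StmtFB1 := blockFB1
theorem fb2 : StmtFB2 := blockFB2
theorem loc : StmtLOC := blockLOC
theorem pi : StmtPI := blockPI fb1
theorem sh1 : StmtSH1 := blockSH1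
theorem sh2 : StmtSH2 := blockSH2
theorem rx : StmtRX := blockRX
theorem vand : StmtVAND := blockVAND
theorem hom : StmtHOM := blockHOM
theorem tameg : StmtTAMEG := blockTAMEG vand
theorem orth : StmtORTH := blockORTH rx
theorem rrep : StmtRREP := blockRREP rx hom orth
theorem disc : StmtDISC := blockDISC sh1 sh2 rx
theorem maxp0 : StmtMAX := blockMAX sh1 sh2 rx orth disc
theorem lat : StmtLAT := blockLAT sh2 rx vand orth disc maxp0
theorem pur : StmtPUR := blockPUR rx vand disc lat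
theorem red2 : StmtRED2 := blockRED2 fb1 sh2 orth maxp0 pur
theorem down : StmtDOWN := blockDOWN loc rx vand orth
theorem red3 : StmtRED3 := blockRED3 fb1 fb2 loc sh2 rx hom orth disc maxp0 pur down
theorem aso1 : StmtASO1 := blockASO1
theorem aso : StmtASO := blockASO sh2 rx vand disc maxp0 lat aso1
theorem sc1 : StmtSC1 := blockSC1 vand
theorem sc : StmtSC := blockSC loc sc1
theorem kumg : StmtKUMG := blockKUMG loc sc

end Pool.Agent.Lib.IW2
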