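import Pool.Agent.Lib.IW2.Blue4
import Pool.Agent.Lib.IW2.All1

/-! Explicit consequences of the main theorem. -/

open Polynomial IntermediateField
open scoped Pointwise

namespace Pool.Agent.Lib.IW2

open Pool.Agent.Lib.IW

namespace Cor

variable {k Ω : Type} [Field k] [Field Ω] [Algebra k Ω]

lemma pow_q {τ : Aut k Ω} {q : Ω} {ω : k} (h : τ q = algebraMap k Ω ω * q) (i : ℕ) :
    (τ ^ i) q = algebraMap k Ω ω ^ i * q := by
  induction i with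
  | zero => simp
  | succ i ih => rw [pow_succ, AlgEquiv.mul_apply, h, map_mul, AlgEquiv.commutes, ih]; ring

variable [IsAlgClosed k] [IsAlgClosed Ω]

/-- Cyclic covers of order prime to `p`, totally ramified at a given place. -/
theorem cyc (hS : StmtSOLV) (p : ℕ) [Fact p.Prime] [CharP k p] {F : IntermediateField k Ω}
    (hF : FF F) {Z : ValuationSubring Ω → Prop} {W₀ W₁ : ValuationSubring Ω} (h0 : IsPl k W₀)
    (h1 : IsPl k W₁) (hne : ¬ Agr F W₀ W₁) (z0 : ∀ U, IsPl k U → Agr F W₀ U → Z U)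
    (z1 : ∀ U, IsPl k U → Agr F W₁ U → Z U) (G : Type) [Group G] [Finite G]
    (hp : ¬ p ∣ Nat.card G) (c : G) (hc : ∀ g, ∃ i : ℕ, g = c ^ i) : OccR F Z W₀ G ⊤ := by
  obtain ⟨π, hπ⟩ := found.unif.ex k Ω F hF W₀ h0
  have hfs := fb1.sepu p k Ω F hF W₀ π h0 hπ
  obtain ⟨ω, hω⟩ := exists_prim (k := k) (Ω := k) p hp
  obtain ⟨q, hq⟩ := IsAlgClosed.exists_pow_nat_eq π (Nat.card_pos (α := G))
  obtain ⟨χ, c1, c2, -⟩ := loc.kum p k Ω π hfs.co π q _ ω hp hω hπ.2.1 hq G c pow_card_eq_one'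
  have le : DecF F W₀ ≤ Gam k π := (DecF_le F W₀).trans hfs.le
  have sol : Group.IsSolvable G := Group.isSolvable_of_comm fun a b => by
    obtain ⟨i, rfl⟩ := hc a
    obtain ⟨j, rfl⟩ := hc b
    exact (Commute.refl c).pow_pow i j
  obtain ⟨α, a1, -, a3, a4⟩ := hS p k Ω F π hfs G Unit 1 (fun _ => ⟨1, rfl⟩) inferInstance
    (fun h => hp (h.trans (Subgroup.card_subgroup_dvd_card _))) (fun _ => 1)
    ⟨fun _ _ _ _ => rfl, ∅, fun _ _ _ _ _ => rfl⟩ Unit (fun _ => W₀) W₁ (fun _ => χ)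
    (fun _ => h0) h1 (fun _ _ _ => rfl) (fun _ => hne) (fun _ => c1.mono le) fun _ _ _ => rfl
  obtain ⟨v, -, hv⟩ := a3 ()
  obtain ⟨τ, t1, t2⟩ := loc.tau p k Ω F hF W₀ π q (algebraMap k Ω ω) _ h0 hπ hp (Or.inl hq)
    (by rw [← map_pow, hω.pow_eq_one, map_one])
  have on : ∀ g, ∃ γ ∈ DecF F W₀, α γ = g := fun g => by
    obtain ⟨i, hi⟩ := hc (v⁻¹ * g * v)
    have t3 := pow_mem t1 i
    refine ⟨τ ^ i, t3, ?_⟩
    rw [hv _ t3, c2 _ (le t3) i (pow_q t2 i), ← hi]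
    group
  refine ⟨α, a1, fun g => (on g).imp fun γ h => ⟨DecF_le _ _ h.1, h.2⟩, fun W hW hZ => a4 W hW
    (fun _ h => hZ (z0 W hW h)) (fun h => hZ (z1 W hW h)) fun _ _ => rfl, W₀, h0,
    fun _ _ => Iff.rfl, Set.eq_univ_of_forall on⟩

omit [IsAlgClosed Ω] in
/-- A coordinate with its zero and its pole at two given places. -/
lemma coord {x : Ω} (hx : Co k x) {W₀ W₁ : ValuationSubring Ω} (h0 : IsPl k W₀) (h1 : IsPl k W₁)
    (hne : ¬ Agr k⟮x⟯ W₀ W₁) :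
    ∃ u : Ω, Co k u ∧ k⟮u⟯ = k⟮x⟯ ∧ W₀.valuation u < 1 ∧ u ∉ W₁ := by
  have sub : ∀ (y : Ω) (a : k), k⟮y - algebraMap k Ω a⟯ = k⟮y⟯ := fun y a =>
    le_antisymm (adjoin_simple_le_iff.2 (sub_mem (mem_adjoin_simple_self k y)
      (IntermediateField.algebraMap_mem _ a))) (adjoin_simple_le_iff.2 (by
        simpa using add_mem (mem_adjoin_simple_self k (y - algebraMap k Ω a))
          (IntermediateField.algebraMap_mem _ a)))
  have inv : ∀ y : Ω, k⟮y⁻¹⟯ = k⟮y⟯ := fun y =>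
    le_antisymm (adjoin_simple_le_iff.2 (inv_mem (mem_adjoin_simple_self k y)))
      (adjoin_simple_le_iff.2 (by simpa using inv_mem (mem_adjoin_simple_self k y⁻¹)))
  have cs : ∀ (y : Ω) (a : k), Co k y → Co k (y - algebraMap k Ω a) := fun y a hy =>
    found.bas.coOf k Ω y _ hy fun h => hy.tr (by simpa using h.add (isAlgebraic_algebraMap a))
  obtain ⟨y, hy, e, y1⟩ : ∃ y : Ω, Co k y ∧ k⟮y⟯ = k⟮x⟯ ∧ y ∉ W₁ := by
    by_cases h : x ∈ W₁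
    · obtain ⟨b, hb⟩ := found.bas.resid k Ω x hx W₁ h1 x h
      refine ⟨_, co_inv found.bas (cs x b hx), by rw [inv, sub], fun t => ?_⟩
      rw [← W₁.valuation_le_one_iff, map_inv₀, inv_le_one₀
        (zero_lt_iff.2 (by simpa using (cs x b hx).ne_zero))] at t
      exact absurd hb (not_lt.2 t)
    · exact ⟨x, hx, rfl, h⟩
  have y0 : y ∈ W₀ := by
    by_contra t
    exact hne (e ▸ found.bas.agrInf k Ω y hy.tr W₀ W₁ h0 h1 t y1)
  obtain ⟨a, ha⟩ := found.bas.resid k Ω y hy W₀ h0 y y0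
  exact ⟨_, cs y a hy, by rw [sub, e], ha, fun t => y1 (by simpa using add_mem t (h1.2 a))⟩

/-- Covers of the multiplicative group of order prime to `p` are totally ramified. -/
theorem gm (p : ℕ) [Fact p.Prime] [CharP k p] {x : Ω} (hx : Co k x)
    {Z : ValuationSubring Ω → Prop} {W₀ W₁ : ValuationSubring Ω} (h0 : IsPl k W₀) (h1 : IsPl k W₁)
    (hne : ¬ Agr k⟮x⟯ W₀ W₁) (hZ : ∀ U, Z U → Agr k⟮x⟯ U W₀ ∨ Agr k⟮x⟯ U W₁) (G : Type) [Group G]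
    [Finite G] (hp : ¬ p ∣ Nat.card G) (H : Subgroup G) (h : OccR k⟮x⟯ Z W₀ G H) : H = ⊤ := by
  obtain ⟨u, hu, e, u0, u1⟩ := coord hx h0 h1 hne
  rw [← e] at h hZ
  obtain ⟨ρ, r1, r2, r3, W, hW, hA, r4⟩ := h
  rw [fix_adjoin] at r1 r2
  have lt : ∀ U : ValuationSubring Ω, U.valuation u < 1 ↔ u⁻¹ ∉ U := fun U => by
    rw [← U.valuation_le_one_iff, map_inv₀, inv_le_one₀
      (zero_lt_iff.2 (by simpa using hu.ne_zero)), not_le]
  have m := mem_adjoin_simple_self k u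
  obtain ⟨ω, hω⟩ := exists_prim (k := k) (Ω := k) p hp
  obtain ⟨q, hq⟩ := IsAlgClosed.exists_pow_nat_eq u (Nat.card_pos (α := G))
  obtain ⟨d, hd⟩ := kumg.two p k Ω u q _ ω hu hp hq hω G ρ r1 (fun U hU e1 => by
    rw [← DecF_adjoin]
    refine r3 U hU fun z => (hZ U z).elim (fun a => ?_) fun a => ?_
    · exact e1.not_lt ((lt U).2 fun t => (lt W₀).1 u0 ((a _ (inv_mem m)).1 t))
    · exact u1 ((a _ m).1 ((U.valuation_le_one_iff u).1 e1.le))) fun _ => pow_card_eq_one'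
  have uW : W.valuation (u - algebraMap k Ω 0) < 1 := by
    rw [map_zero, sub_zero]
    exact (lt W).2 fun t => (lt W₀).1 u0 ((hA _ (inv_mem m)).1 t)
  have hπ := found.bas.unifAt k Ω u hu.tr 0 W hW uW
  rw [map_zero, sub_zero] at hπ
  obtain ⟨τ, t1, t2⟩ := loc.tau p k Ω _ hu.ff W u q (algebraMap k Ω ω) _ hW hπ hp (Or.inl hq)
    (by rw [← map_pow, hω.pow_eq_one, map_one])
  have dH : d ∈ H := by
    have t3 : ρ τ ∈ (H : Set G) := r4 ▸ ⟨τ, t1, rfl⟩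
    rwa [hd τ (fix_le_Gam m (DecF_le _ _ t1)) 1 (by rw [pow_one, t2]), pow_one] at t3
  refine eq_top_iff.2 fun g _ => ?_
  obtain ⟨γ, hγ, rfl⟩ := r2 g
  obtain ⟨i, hi⟩ := loc.expo k Ω q _ ω hω Nat.card_pos γ (by rw [hq]; exact hγ)
  rw [hd γ hγ i hi]
  exact pow_mem dH i

lemma map_top {G : Type} [Group G] (N H : Subgroup G) [N.Normal] :
    H.map (QuotientGroup.mk' N) = ⊤ ↔ H ⊔ N = ⊤ := by
  rw [← (Subgroup.comap_injective (QuotientGroup.mk'_surjective N)).eq_iff,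
    Subgroup.comap_map_eq, QuotientGroup.ker_mk', Subgroup.comap_top]

lemma gen {p : ℕ} {G : Type} [Group G] {H P : Subgroup G} (h : CycP p H P)
    (t : H.map (QuotientGroup.mk' (pPart p G)) = ⊤) :
    ∃ c : G ⧸ pPart p G, ∀ g, ∃ i : ℕ, g = c ^ i := by
  obtain ⟨-, hP, -, c, -, hc⟩ := h
  refine ⟨c, fun g => ?_⟩
  obtain ⟨g, hg, rfl⟩ : g ∈ H.map (QuotientGroup.mk' (pPart p G)) := t ▸ Subgroup.mem_top g
  obtain ⟨i, hi⟩ := hc g hg
  obtain ⟨j, hj⟩ := hP ⟨_, hi⟩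
  have e : g * (c ^ i)⁻¹ ∈ pPart p G :=
    Subgroup.subset_normalClosure ⟨j, by simpa using congrArg Subtype.val hj⟩
  rw [← QuotientGroup.eq_one_iff, QuotientGroup.mk_mul, QuotientGroup.mk_inv, QuotientGroup.mk_pow,
    mul_inv_eq_one] at e
  exact ⟨i, e⟩

end Cor

theorem final_cyc (hM : StmtMAIN) (hB : StmtBR) (hV : StmtSOLV) (hG : StmtGp3) (p : ℕ)
    [Fact p.Prime] (k : Type) [Field k]
    [IsAlgClosed k] [CharP k p] (K : Type) [Field K] [Algebra k K] [Algebra.EssFiniteType k K]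
    (hK : Algebra.trdeg k K = 1) (S : Set (ValuationSubring K)) (ξ ξ' : ValuationSubring K)
    (hξ : ξ ≠ ⊤) (hξ' : ξ' ≠ ⊤) (hk : ∀ c : k, algebraMap k K c ∈ ξ)
    (hk' : ∀ c : k, algebraMap k K c ∈ ξ') (hS : ξ ∈ S) (hS' : ξ' ∈ S) (hne : ξ ≠ ξ')
    (G : Type) [Group G] [Finite G] (H : Subgroup G) (h : ∃ P : Subgroup G, P ≤ H ∧ IsPGroup p P ∧
      ∃ _ : (P.subgroupOf H).Normal, IsCyclic (H ⧸ P.subgroupOf H)) (ht : H ⊔ pPart p G = ⊤) :
    OccursOn k S ξ G H := by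
  refine (final_of hM hB p k K hK S ξ ξ' hξ hξ' hk hk' hS hS' hne G H).2 ⟨h, ?_⟩
  obtain ⟨h1, h2, h3, h4⟩ := hB p k K hK
  obtain ⟨W, hW, rfl⟩ := h2 ξ hξ hk
  obtain ⟨W', hW', rfl⟩ := h2 ξ' hξ' hk'
  obtain ⟨P, hP⟩ := cyc_iff.2 h
  have t := (Cor.map_top _ H).2 ht
  obtain ⟨c, hc⟩ := Cor.gen hP t
  rw [h4 S W hW, t]
  exact Cor.cyc hV p h1 hW hW' (fun h => hne ((h3 _ _).1 h))
    (fun U _ h => (h3 _ _).1 h ▸ hS) (fun U _ h => (h3 _ _).1 h ▸ hS') _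
    (hG.frat p G default).2.1 c hc

theorem final_gm (hM : StmtMAIN) (hB : StmtBR) (hG : StmtGp3) (p : ℕ)
    [Fact p.Prime] (k : Type) [Field k]
    [IsAlgClosed k] [CharP k p] (K : Type) [Field K] [Algebra k K] [Algebra.EssFiniteType k K]
    (hK : Algebra.trdeg k K = 1) (ξ ξ' : ValuationSubring K)
    (hξ : ξ ≠ ⊤) (hξ' : ξ' ≠ ⊤) (hk : ∀ c : k, algebraMap k K c ∈ ξ)
    (hk' : ∀ c : k, algebraMap k K c ∈ ξ') (hne : ξ ≠ ξ') (x : K) (hx : k⟮x⟯ = ⊤)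
    (G : Type) [Group G] [Finite G] (H : Subgroup G) (h : OccursOn k {ξ, ξ'} ξ G H) :
    H ⊔ pPart p G = ⊤ := by
  have h' := ((final_of hM hB p k K hK {ξ, ξ'} ξ ξ' hξ hξ' hk hk' (by simp) (by simp) hne G H).1
    h).2
  obtain ⟨h1, h2, h3, h4⟩ := hB p k K hK
  obtain ⟨W, hW, rfl⟩ := h2 ξ hξ hk
  obtain ⟨W', hW', rfl⟩ := h2 ξ' hξ' hk'
  rw [h4 _ W hW] at h'
  have e : Br2.Im k K (AlgebraicClosure K) = k⟮algebraMap K (AlgebraicClosure K) x⟯ := by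
    rw [Br2.Im, AlgHom.fieldRange_eq_map, ← hx, IntermediateField.adjoin_map, Set.image_singleton]
    rfl
  rw [e] at h1 h3 h'
  have al := ff_alg h1
  obtain ⟨-, y, hy, cy⟩ := h1
  have cx : Co k (algebraMap K (AlgebraicClosure K) x) := ⟨fun a => cy.tr (by
    have := IntermediateField.adjoin.finiteDimensional a.isIntegral
    exact (IntermediateField.isAlgebraic_iff (x := ⟨y, hy⟩)).1 (IsAlgebraic.of_finite k _)), al⟩
  exact (Cor.map_top _ H).1 (Cor.gm p cx hW hW' (fun h => hne ((h3 _ _).1 h))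
    (fun U z => z.elim (fun z => Or.inl ((h3 _ _).2 z)) fun z => Or.inr ((h3 _ _).2 z)) _
    (hG.frat p G default).2.1 _ h')

end Pool.Agent.Lib.IW2
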