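import Pool.Agent.Lib.IW2.Blue

/-! Block statements, part two: absolute values and the ray of Gauss points. -/

open Polynomial IntermediateField
open scoped Pointwise

namespace Pool.Agent.Lib.IW2

open Pool.Agent.Lib.IW

/-- Orthonormal bases over a spherically complete field. -/
def StmtN1 : Prop := ∀ (k 𝕜 : Type) [Field k] [Field 𝕜] [Algebra k 𝕜] (ν : AbsoluteValue 𝕜 ℝ),
  Big k ν → ∀ (E : Type) [AddCommGroup E] [Module 𝕜 E] (N : E → ℝ), (∀ e, 0 ≤ N e) →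
    (∀ e, N e = 0 → e = 0) → (∀ (c : 𝕜) (e : E), N (c • e) = ν c * N e) →
    (∀ e e', N (e + e') ≤ max (N e) (N e')) → ∀ (d : ℕ) (v : Fin d → E), LinearIndependent 𝕜 v →
      ∃ w : Fin d → E, (∀ i, w i ∈ Submodule.span 𝕜 (Set.range v)) ∧ (∀ i, N (w i) ≤ 1) ∧
        ∀ (c : Fin d → 𝕜) (i : Fin d), ν (c i) ≤ N (∑ j, c j • w j)

/-- Hahn series with real exponents. -/
def StmtHAHN1 : Prop := ∀ (k : Type) [Field k],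
  ∃ (𝕜 : Type) (_ : Field 𝕜) (_ : Algebra k 𝕜) (ν : AbsoluteValue 𝕜 ℝ), Big k ν

/-- Such a field is algebraically closed. -/
def StmtHAHN2 : Prop := ∀ (k 𝕜 : Type) [Field k] [IsAlgClosed k] [Field 𝕜] [Algebra k 𝕜]
  (ν : AbsoluteValue 𝕜 ℝ), Big k ν → IsAlgClosed 𝕜

/-- Any transcendental element is large for a suitable absolute value. -/
def StmtAUT : Prop := ∀ (k 𝕜 : Type) [Field k] [IsAlgClosed k] [Field 𝕜] [IsAlgClosed 𝕜]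
  [Algebra k 𝕜] (ν : AbsoluteValue 𝕜 ℝ), Big k ν → ∀ l : 𝕜, Transcendental k l →
    ∃ ν' : AbsoluteValue 𝕜 ℝ, Big k ν' ∧ 1 < ν' l

/-- Gauss points. -/
structure StmtGP1 : Prop where
  exg : ∀ (k 𝕜 Ω' : Type) [Field k] [Field 𝕜] [IsAlgClosed 𝕜] [Field Ω'] [IsAlgClosed Ω']
    [Algebra k 𝕜] [Algebra 𝕜 Ω'] (ν : AbsoluteValue 𝕜 ℝ), Big k ν → ∀ σ : Ω', Co 𝕜 σ →
      ∀ r : ℝ, 0 < r → ∃ y : AbsoluteValue Ω' ℝ, GR ν y σ r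
  ball : ∀ (Ω' : Type) [Field Ω'] (y : AbsoluteValue Ω' ℝ), IsNonarchimedean y →
    (∃ O : ValuationSubring Ω', IsBall y O) ∧ ∀ O : ValuationSubring Ω', IsBall y O →
      (∀ s, O.valuation s < 1 ↔ y s < 1) ∧ ∀ s s', O.valuation s ≤ O.valuation s' ↔ y s ≤ y s'
  gpr : ∀ (k 𝕜 Ω Ω' : Type) [Field k] [IsAlgClosed k] [Field 𝕜] [IsAlgClosed 𝕜] [Field Ω]
    [IsAlgClosed Ω] [Field Ω'] [Algebra k 𝕜] [Algebra k Ω] [Algebra k Ω'] [Algebra 𝕜 Ω']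
    [IsScalarTower k 𝕜 Ω'] (ν : AbsoluteValue 𝕜 ℝ), Big k ν → ∀ σ : Ω', Co 𝕜 σ →
      ∀ (r : ℝ) (y : AbsoluteValue Ω' ℝ) (O : ValuationSubring Ω'), GR ν y σ r → IsBall y O →
        ∀ c : 𝕜, c ≠ 0 → ν c = r → ∀ (x : Ω) (ι : Ω →ₐ[k] Ω'), Co k x →
          ι x * algebraMap 𝕜 Ω' c = σ → RedD 𝕜 ι O
  good1 : ∀ (𝕜 Ω' : Type) [Field 𝕜] [IsAlgClosed 𝕜] [Field Ω'] [IsAlgClosed Ω'] [Algebra 𝕜 Ω']
    (ν : AbsoluteValue 𝕜 ℝ) (σ : Ω'), Co 𝕜 σ → ∀ (r : ℝ) (y : AbsoluteValue Ω' ℝ)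
      (O : ValuationSubring Ω'), GR ν y σ r → IsBall y O →
        ∀ (G : Type) [Group G] [Fintype G] [DecidableEq G] (ρ : Aut 𝕜 Ω' → G),
          Cert 𝕜⟮σ⟯ ρ O → Good ν σ r ρ

/-- Continuity in the radius. -/
structure StmtGP2 : Prop where
  cont : ∀ (𝕜 Ω' : Type) [Field 𝕜] [IsAlgClosed 𝕜] [Field Ω'] [Algebra 𝕜 Ω']
    (ν : AbsoluteValue 𝕜 ℝ) (σ : Ω'), ∀ a ∈ 𝕜⟮σ⟯, ∃ φ : ℝ → ℝ, ContinuousOn φ (Set.Ioi 0) ∧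
      ∀ (r : ℝ) (y : AbsoluteValue Ω' ℝ), 0 < r → GR ν y σ r → y a = φ r
  zero : ∀ (𝕜 Ω' : Type) [Field 𝕜] [IsAlgClosed 𝕜] [Field Ω'] [Algebra 𝕜 Ω']
    (ν : AbsoluteValue 𝕜 ℝ) (σ : Ω'), Transcendental 𝕜 σ → ∀ W : ValuationSubring Ω', IsPl 𝕜 W →
      W.valuation σ < 1 → ∀ a ∈ 𝕜⟮σ⟯, W.valuation a < 1 → ∃ r₀ : ℝ, 0 < r₀ ∧
        ∀ (r : ℝ) (y : AbsoluteValue Ω' ℝ), 0 < r → r < r₀ → GR ν y σ r → y a < 1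

/-- Splitting is an open condition. -/
structure StmtNEAR : Prop where
  right : ∀ (k 𝕜 Ω' : Type) [Field k] [IsAlgClosed k] [Field 𝕜] [IsAlgClosed 𝕜] [Field Ω']
    [IsAlgClosed Ω'] [Algebra k 𝕜] [Algebra k Ω'] [Algebra 𝕜 Ω'] [IsScalarTower k 𝕜 Ω']
    (ν : AbsoluteValue 𝕜 ℝ), Big k ν → ∀ σ : Ω', Co 𝕜 σ →
      ∀ (G : Type) [Group G] [Fintype G] [DecidableEq G] (ρ : Aut 𝕜 Ω' → G) (r₀ : ℝ)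
        (y : AbsoluteValue Ω' ℝ), 0 < r₀ → GR ν y σ r₀ → ∀ (f : G → Ω') (c : G → k),
          Alg 𝕜⟮σ⟯ ρ f → Function.Injective c → (∀ g, y (f g - algebraMap k Ω' (c g)) < 1) →
            ∃ ε : ℝ, 0 < ε ∧ ∀ r : ℝ, 0 < r → |r - r₀| < ε → Good ν σ r ρ
  zero : ∀ (p : ℕ) [Fact p.Prime] (k 𝕜 Ω' : Type) [Field k] [IsAlgClosed k] [CharP k p]
    [Field 𝕜] [IsAlgClosed 𝕜] [Field Ω'] [IsAlgClosed Ω'] [Algebra k 𝕜] [Algebra k Ω']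
    [Algebra 𝕜 Ω'] [IsScalarTower k 𝕜 Ω'] (ν : AbsoluteValue 𝕜 ℝ), Big k ν → ∀ σ : Ω', Co 𝕜 σ →
      ∀ (G : Type) [Group G] [Fintype G] [DecidableEq G] (ρ : Aut 𝕜 Ω' → G),
        IsRep (Gam 𝕜 σ) ρ → ∀ W : ValuationSubring Ω', IsPl 𝕜 W → W.valuation σ < 1 →
          Triv ρ (Dec 𝕜 σ W) → ∃ r₀ : ℝ, 0 < r₀ ∧ ∀ r : ℝ, 0 < r → r < r₀ → Good ν σ r ρ

/-- The upper bound in a Riemann-Roch type count. -/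
def StmtN2 : Prop := ∀ (k Ω : Type) [Field k] [IsAlgClosed k] [Field Ω] [Algebra k Ω] (x : Ω),
  Co k x → ∀ (G : Type) (U : Submodule k (G → Ω)) (f : ℕ),
    (∀ v : Fin (f + 1) → G → Ω, (∀ i, v i ∈ U) → ∃ a : Fin (f + 1) → Ω, (∀ i, a i ∈ k⟮x⟯) ∧
      a ≠ 0 ∧ ∀ g, ∑ i, a i * v i g = 0) →
    ∀ (m d : ℕ) (v : Fin d → G → Ω), (∀ i, v i ∈ U) → LinearIndependent k v →
      (∀ i g, Intg k x (v i g) ∧ IntgInf k x (v i g / x ^ m)) → d ≤ f * (m + 1)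

/-- Bounds on poles pass to the reduction. -/
def StmtMAXP : Prop := ∀ (k 𝕜 Ω Ω' : Type) [Field k] [IsAlgClosed k] [Field 𝕜] [IsAlgClosed 𝕜]
  [Field Ω] [IsAlgClosed Ω] [Field Ω'] [IsAlgClosed Ω'] [Algebra k 𝕜] [Algebra k Ω] [Algebra k Ω']
  [Algebra 𝕜 Ω'] [IsScalarTower k 𝕜 Ω'] (ι : Ω →ₐ[k] Ω') (O : ValuationSubring Ω'), RedD 𝕜 ι O →
    ∀ x : Ω, Co k x → Co 𝕜 (ι x) → ∀ (G : Type) [Group G] [Finite G] (ρ : Aut 𝕜 Ω' → G)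
      (f : G → Ω') (f₀ : G → Ω) (m : ℕ), Alg 𝕜⟮ι x⟯ ρ f → (∀ g, Rd ι O (f g) (f₀ g)) →
        (∀ g, Intg 𝕜 (ι x) (f g) ∧ IntgInf 𝕜 (ι x) (f g / ι x ^ m)) →
          ∀ g, Intg k x (f₀ g) ∧ IntgInf k x (f₀ g / x ^ m)

/-- Gauss points are defectless. -/
def StmtDEF : Prop := ∀ (p : ℕ) [Fact p.Prime] (k 𝕜 Ω Ω' : Type) [Field k] [IsAlgClosed k]
  [CharP k p] [Field 𝕜] [IsAlgClosed 𝕜] [Field Ω] [IsAlgClosed Ω] [Field Ω'] [IsAlgClosed Ω']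
  [Algebra k 𝕜] [Algebra k Ω] [Algebra k Ω'] [Algebra 𝕜 Ω'] [IsScalarTower k 𝕜 Ω']
  (ν : AbsoluteValue 𝕜 ℝ), Big k ν → ∀ (y : AbsoluteValue Ω' ℝ) (O : ValuationSubring Ω'),
    IsNonarchimedean y → (∀ a, y (algebraMap 𝕜 Ω' a) = ν a) → IsBall y O →
    ∀ ι : Ω →ₐ[k] Ω', RedD 𝕜 ι O → ∀ x : Ω, Co k x → Co 𝕜 (ι x) →
      ∀ (G : Type) [Group G] [Fintype G] [DecidableEq G] (ρ : Aut 𝕜 Ω' → G),
        IsRep (Gam 𝕜 (ι x)) ρ → ∃ (X : Matrix G G Ω') (X₀ : Matrix G G Ω),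
          (∀ i, Alg 𝕜⟮ι x⟯ ρ fun g => X g i) ∧ (∀ g i, Rd ι O (X g i) (X₀ g i)) ∧
          ∀ a : G → Ω, (∀ i, a i ∈ k⟮x⟯) → (∀ g, ∑ i, X₀ g i * a i = 0) → a = 0

/-- Separable residues give a certificate. -/
def StmtGSEP : Prop := ∀ (k 𝕜 Ω Ω' : Type) [Field k] [IsAlgClosed k] [Field 𝕜] [Field Ω]
  [IsAlgClosed Ω] [Field Ω'] [IsAlgClosed Ω'] [Algebra k 𝕜] [Algebra k Ω] [Algebra k Ω']
  [Algebra 𝕜 Ω'] [IsScalarTower k 𝕜 Ω'] (ι : Ω →ₐ[k] Ω') (O : ValuationSubring Ω'), RedD 𝕜 ι O →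
    ∀ x : Ω, Co k x → Co 𝕜 (ι x) → ∀ (G : Type) [Group G] [Fintype G] [DecidableEq G]
      (ρ : Aut 𝕜 Ω' → G) (X : Matrix G G Ω') (X₀ : Matrix G G Ω),
        (∀ i, Alg 𝕜⟮ι x⟯ ρ fun g => X g i) → (∀ g i, Rd ι O (X g i) (X₀ g i)) →
        (∀ a : G → Ω, (∀ i, a i ∈ k⟮x⟯) → (∀ g, ∑ i, X₀ g i * a i = 0) → a = 0) →
        (∀ g i, IsSeparable k⟮x⟯ (X₀ g i)) → Cert 𝕜⟮ι x⟯ ρ O

/-- Good reduction is a closed condition on the radius. -/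
def StmtLEFT : Prop := ∀ (p : ℕ) [Fact p.Prime] (k 𝕜 Ω Ω' : Type) [Field k] [IsAlgClosed k]
  [CharP k p] [Field 𝕜] [IsAlgClosed 𝕜] [Field Ω] [IsAlgClosed Ω] [Field Ω'] [IsAlgClosed Ω']
  [Algebra k 𝕜] [Algebra k Ω] [Algebra k Ω'] [Algebra 𝕜 Ω'] [IsScalarTower k 𝕜 Ω']
  (ν : AbsoluteValue 𝕜 ℝ), Big k ν → ∀ (x : Ω) (σ : Ω'), Co k x → Co 𝕜 σ →
    ∀ (G : Type) [Group G] [Fintype G] [DecidableEq G] (ρ : Aut 𝕜 Ω' → G), IsRep (Gam 𝕜 σ) ρ →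
      ∀ r₀ : ℝ, 0 < r₀ → (∀ ε : ℝ, 0 < ε → ∃ r : ℝ, 0 < r ∧ |r - r₀| < ε ∧ Good ν σ r ρ) →
        Good ν σ r₀ ρ

/-- The first radius of non-trivial reduction. -/
def StmtSTAR1 : Prop := ∀ (p : ℕ) [Fact p.Prime] (k 𝕜 Ω Ω' : Type) [Field k] [IsAlgClosed k]
  [CharP k p] [Field 𝕜] [IsAlgClosed 𝕜] [Field Ω] [IsAlgClosed Ω] [Field Ω'] [IsAlgClosed Ω']
  [Algebra k 𝕜] [Algebra k Ω] [Algebra k Ω'] [Algebra 𝕜 Ω'] [IsScalarTower k 𝕜 Ω']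
  (ν : AbsoluteValue 𝕜 ℝ), Big k ν → ∀ (x q : Ω) (σ Q : Ω') (M : ℕ) (ω : k), Co k x → Co 𝕜 σ →
    ¬ p ∣ M → IsPrimitiveRoot ω M → q ^ M = x → Q ^ M = σ →
    ∀ (G : Type) [Group G] [Finite G] (ρ : Aut 𝕜 Ω' → G) (c : G), IsRep (Gam 𝕜 σ) ρ →
      (∀ W : ValuationSubring Ω', IsPl 𝕜 W → W.valuation σ = 1 → ¬ W.valuation (σ - 1) < 1 →
        Triv ρ (Dec 𝕜 σ W)) →
      (∃ W : ValuationSubring Ω', IsPl 𝕜 W ∧ W.valuation σ < 1 ∧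
        Lam ρ (Dec 𝕜 σ W) Q (algebraMap k Ω' ω) c) →
      (∀ W : ValuationSubring Ω', IsPl 𝕜 W → W.valuation (σ - 1) < 1 →
        ∃ (z : Ω') (l : 𝕜) (a : G), 1 < ν l ∧ (z ^ p - z) * (σ - 1) = algebraMap 𝕜 Ω' l ∧ a ≠ 1 ∧
          ASLam ρ (Dec 𝕜 σ W) z a) →
      ∃ β : Aut k Ω → G, IsRep (Gam k x) β ∧ UnrG x β ∧
        (∃ (V : ValuationSubring Ω) (g : G), IsPl k V ∧ V.valuation x < 1 ∧
          Lam β (Dec k x V) q (algebraMap k Ω ω) (g⁻¹ * c * g)) ∧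
        ∃ V : ValuationSubring Ω, IsPl k V ∧ x ∉ V ∧ ¬ Tame p β (Dec k x V)

end Pool.Agent.Lib.IW2
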