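import Pool.Agent.Lib.IW2.All1
import Pool.Agent.Lib.IW2.Blue2

/-! Gauss points are defectless. -/

open Polynomial IntermediateField
open scoped Pointwise

namespace Pool.Agent.Lib.IW2

open Pool.Agent.Lib.IW

namespace DEF

variable {k Ω : Type} [Field k] [Field Ω] [Algebra k Ω] {G : Type} [Group G]

lemma inv_mem {u : Ω} {W : ValuationSubring Ω} (h : u ∉ W) : u⁻¹ ∈ W :=
  (W.mem_or_inv_mem u).resolve_left h

lemma up {u s : Ω} (hu : u ≠ 0) {W : ValuationSubring Ω} (h : u ∉ W) {d m : ℕ} (hd : d ≤ m)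
    (hs : s / u ^ d ∈ W) : s / u ^ m ∈ W := by
  obtain ⟨e, rfl⟩ := Nat.exists_eq_add_of_le hd
  have : s / u ^ (d + e) = s / u ^ d * u⁻¹ ^ e := by
    rw [pow_add, inv_pow]
    field_simp
  rw [this]
  exact mul_mem hs (pow_mem (inv_mem h) e)

lemma pole1 [IsAlgClosed k] {u : Ω} (hu : Co k u) {W : ValuationSubring Ω} (hW : IsPl k W)
    (h : u ∉ W) (s : Ω) : ∃ d : ℕ, s / u ^ d ∈ W := by
  rcases eq_or_ne s 0 with rfl | hs
  · exact ⟨0, by simp⟩
  have h0 : u⁻¹ ≠ 0 := inv_ne_zero hu.ne_zero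
  have h1 : W.valuation u⁻¹ < 1 := (found.bas.unifInf k Ω u hu.tr W hW h).2.2.1
  obtain ⟨e, he, i, hi⟩ := found.bas.rank k Ω u hu W hW u⁻¹ h0 h1 s hs
  refine ⟨i.natAbs, ?_⟩
  rw [← W.valuation_le_one_iff, ← pow_le_one_iff he.ne']
  have hv : W.valuation u⁻¹ ≠ 0 := (_root_.map_ne_zero _).2 h0
  have h2 : 0 ≤ i + (i.natAbs * e : ℕ) := by
    have h3 : (i.natAbs : ℤ) ≤ (i.natAbs * e : ℕ) := by
      exact_mod_cast Nat.le_mul_of_pos_right _ he
    have h4 : -i ≤ (i.natAbs : ℤ) := by omega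
    omega
  obtain ⟨n, hn⟩ := Int.eq_ofNat_of_zero_le h2
  rw [div_eq_mul_inv, ← inv_pow, map_mul, map_pow, mul_pow, hi, ← pow_mul, ← zpow_natCast,
    ← zpow_add₀ hv, hn, zpow_natCast]
  exact pow_le_one₀ zero_le h1.le

lemma pole [IsAlgClosed k] [IsAlgClosed Ω] [Fintype G] {u : Ω} (hu : Co k u)
    {ρ : Aut k Ω → G} {f : G → Ω} (hf : Alg k⟮u⟯ ρ f) :
    ∃ d : ℕ, ∀ g, IntgInf k u (f g / u ^ d) := by
  obtain ⟨W₀, hW₀, h₀⟩ := found.bas.exInf k Ω u hu
  choose d hd using fun g => pole1 hu hW₀ h₀ (f g)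
  refine ⟨Finset.univ.sup d, fun g W hW h => ?_⟩
  obtain ⟨δ, hδ, rfl⟩ := conj_inf found.conj found.bas hu hW₀ hW h₀ h
  have hδ' : δ⁻¹ ∈ Gam k u := Subgroup.inv_mem _ hδ
  rw [ValuationSubring.mem_pointwise_smul_iff_inv_smul_mem, AlgEquiv.smul_def, map_div₀, map_pow,
    hf.2 δ⁻¹ (by rw [fix_adjoin]; exact hδ'), mem_Gam.1 hδ']
  exact up hu.ne_zero h₀ (Finset.le_sup (Finset.mem_univ _)) (hd _)

omit [Group G] in
lemma indep [Fintype G] {n : ℕ} (e : G ≃ Fin n) {u : Ω} (hu : Transcendental k u) {f : G → Ω}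
    (hf : Function.Injective f) (m : ℕ) :
    LinearIndependent k fun (a : Fin n × Fin m) (g : G) => f g ^ (a.1 : ℕ) * u ^ (a.2 : ℕ) := by
  rw [Fintype.linearIndependent_iff]
  intro c hc a
  have h1 : (fun i : Fin n => ∑ j : Fin m, c (i, j) • u ^ (j : ℕ)) = 0 := by
    refine Matrix.eq_zero_of_forall_index_sum_pow_mul_eq_zero (f := fun j => f (e.symm j))
      (hf.comp e.symm.injective) fun j => ?_
    have h2 := congrFun hc (e.symm j)
    simp only [Finset.sum_apply, Pi.smul_apply, Pi.zero_apply, Fintype.sum_prod_type] at h2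
    rw [← h2]
    refine Finset.sum_congr rfl fun i _ => ?_
    rw [Finset.mul_sum]
    exact Finset.sum_congr rfl fun l _ => by rw [mul_smul_comm]
  have h3 : aeval u (∑ j : Fin m, monomial (j : ℕ) (c (a.1, j))) = 0 := by
    rw [map_sum]
    refine Eq.trans ?_ (congrFun h1 a.1)
    exact Finset.sum_congr rfl fun j _ => by rw [aeval_monomial, Algebra.smul_def]
  have h4 := congrArg (fun P => P.coeff (a.2 : ℕ)) ((transcendental_iff.1 hu) _ h3)
  simp only [finsetSum_coeff, coeff_monomial, coeff_zero] at h4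
  rw [Finset.sum_eq_single a.2 (fun b _ hb => if_neg fun h => hb (Fin.ext h))
    (fun h => absurd (Finset.mem_univ _) h), if_pos rfl] at h4
  exact h4

/-- Equivariant functions with bounded poles. -/
def Sp (u : Ω) (ρ : Aut k Ω → G) (m : ℕ) : Submodule k (G → Ω) where
  carrier := {f | Alg k⟮u⟯ ρ f ∧ ∀ g, Intg k u (f g) ∧ IntgInf k u (f g / u ^ m)}
  add_mem' := fun {a b} ha hb => ⟨ha.1.add hb.1, fun g =>
    ⟨fun W hW h => add_mem ((ha.2 g).1 W hW h) ((hb.2 g).1 W hW h), fun W hW h => by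
      rw [Pi.add_apply, add_div]
      exact add_mem ((ha.2 g).2 W hW h) ((hb.2 g).2 W hW h)⟩⟩
  zero_mem' := ⟨Alg.const (zero_mem _), fun g => ⟨fun W _ _ => zero_mem W, fun W _ _ => by
    rw [Pi.zero_apply, zero_div]
    exact zero_mem W⟩⟩
  smul_mem' := fun c a ha => by
    refine ⟨?_, fun g => ⟨fun W hW h => ?_, fun W hW h => ?_⟩⟩
    · have := (Alg.const (ρ := ρ) (IntermediateField.algebraMap_mem k⟮u⟯ c)).mul ha.1
      simp only [← Algebra.smul_def] at this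
      exact this
    · rw [Pi.smul_apply, Algebra.smul_def]
      exact mul_mem (hW.2 c) ((ha.2 g).1 W hW h)
    · rw [Pi.smul_apply, Algebra.smul_def, mul_div_assoc]
      exact mul_mem (hW.2 c) ((ha.2 g).2 W hW h)

lemma lt_one {y : AbsoluteValue Ω ℝ} {O : ValuationSubring Ω} (h : IsBall y O) {s : Ω}
    (hs : O.valuation s < 1) : y s < 1 := by
  by_contra h1
  have h2 : 1 ≤ y s := not_lt.1 h1
  have h0 : s ≠ 0 := by
    rintro rfl
    rw [map_zero] at h2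
    exact absurd h2 (by norm_num)
  have h3 : s⁻¹ ∈ O := (h _).2 (by rw [map_inv₀]; exact inv_le_one_of_one_le₀ h2)
  have h4 := mul_lt_one_of_nonneg_of_lt_one_left zero_le hs ((O.valuation_le_one_iff _).2 h3)
  rw [← map_mul, mul_inv_cancel₀ h0, map_one] at h4
  exact lt_irrefl _ h4

section Two

variable {𝕜 Ω' : Type} [Field 𝕜] [Field Ω'] [Algebra k 𝕜] [Algebra k Ω'] [Algebra 𝕜 Ω']
  [IsScalarTower k 𝕜 Ω']

lemma cmem {ι : Ω →ₐ[k] Ω'} {O : ValuationSubring Ω'} (h : ∀ s, ι s ∈ O) (c : k) :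
    O.valuation (algebraMap k Ω' c) ≤ 1 := by
  rw [← ι.commutes]
  exact (O.valuation_le_one_iff _).2 (h _)

/-- Reductions of equivariant functions. -/
def Un (ι : Ω →ₐ[k] Ω') (O : ValuationSubring Ω') (h : ∀ s, ι s ∈ O) (u : Ω')
    (ρ : Aut 𝕜 Ω' → G) : Submodule k (G → Ω) where
  carrier := {f₀ | ∃ f, Alg 𝕜⟮u⟯ ρ f ∧ ∀ g, Rd ι O (f g) (f₀ g)}
  add_mem' := fun {a b} ⟨f, h1, h2⟩ ⟨f', h3, h4⟩ => ⟨_, h1.add h3, fun g => by
    have := O.valuation.map_add_lt (h2 g) (h4 g)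
    rw [Rd, Pi.add_apply, map_add, add_sub_add_comm]
    exact this⟩
  zero_mem' := ⟨_, Alg.const (zero_mem _), fun g => by simp [Rd]⟩
  smul_mem' := fun c a ⟨f, h1, h2⟩ => by
    have h0 : algebraMap k Ω' c ∈ 𝕜⟮u⟯ := by
      rw [IsScalarTower.algebraMap_apply k 𝕜 Ω']
      exact IntermediateField.algebraMap_mem _ _
    refine ⟨_, (Alg.const (ρ := ρ) h0).mul h1, fun g => ?_⟩
    rw [Rd, Pi.smul_apply, Algebra.smul_def, map_mul, ι.commutes, ← mul_sub, map_mul]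
    exact mul_lt_one_of_nonneg_of_lt_one_right (cmem h c) zero_le (h2 g)

end Two

/-- The sup norm. -/
noncomputable def nm [Fintype G] (y : AbsoluteValue Ω ℝ) (f : G → Ω) : ℝ :=
  Finset.univ.sup' ⟨1, Finset.mem_univ _⟩ fun g => y (f g)

section Nm

variable [Fintype G] (y : AbsoluteValue Ω ℝ)

lemma le_nm (f : G → Ω) (g : G) : y (f g) ≤ nm y f :=
  Finset.le_sup' (fun g => y (f g)) (Finset.mem_univ g)

lemma ex_nm (f : G → Ω) : ∃ g, nm y f = y (f g) := by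
  obtain ⟨g, -, h⟩ := Finset.exists_mem_eq_sup'
    (⟨1, Finset.mem_univ _⟩ : (Finset.univ : Finset G).Nonempty) fun g => y (f g)
  exact ⟨g, h⟩

lemma nm_smul {ν : AbsoluteValue k ℝ} (hy : ∀ a, y (algebraMap k Ω a) = ν a) (c : k) (f : G → Ω) :
    nm y (c • f) = ν c * nm y f := by
  refine le_antisymm ?_ ?_
  · obtain ⟨g, hg⟩ := ex_nm y (c • f)
    rw [hg, Pi.smul_apply, Algebra.smul_def, map_mul, hy]
    exact mul_le_mul_of_nonneg_left (le_nm y f g) (ν.nonneg c)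
  · obtain ⟨g, hg⟩ := ex_nm y f
    have := le_nm y (c • f) g
    rwa [Pi.smul_apply, Algebra.smul_def, map_mul, hy, ← hg] at this

lemma nm_add (hy : IsNonarchimedean y) (f f' : G → Ω) :
    nm y (f + f') ≤ max (nm y f) (nm y f') := by
  obtain ⟨g, hg⟩ := ex_nm y (f + f')
  rw [hg]
  exact (hy _ _).trans (max_le_max (le_nm y f g) (le_nm y f' g))

end Nm

end DEF

open DEF in
theorem blockDEF (N1 : StmtN1) (N2 : StmtN2) (MAXP : StmtMAXP) : StmtDEF := by
  intro p _ k 𝕜 Ω Ω' _ _ _ _ _ _ _ _ _ _ _ _ _ _ ν hν y O hy hyν hO ι hR x hx hu G _ _ _ ρ hρ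
  by_contra hcon
  have : CharP 𝕜 p := charP_of_injective_algebraMap (algebraMap k 𝕜).injective p
  obtain ⟨f, hf⟩ : ∃ f, Fintype.card G = f + 1 := Nat.exists_eq_succ_of_ne_zero Fintype.card_ne_zero
  let e : G ≃ Fin (f + 1) := Fintype.equivFinOfCardEq hf
  obtain ⟨z, hz1, hz2, hz3⟩ := exists_alg_inj p (fs_self hu) (ρ := ρ) (by rwa [fix_adjoin])
  obtain ⟨d, hd⟩ := pole hu hz1
  have hdep : ∀ v : Fin (f + 1) → G → Ω, (∀ i, v i ∈ Un ι O hR.mem (ι x) ρ) →
      ∃ a : Fin (f + 1) → Ω, (∀ i, a i ∈ k⟮x⟯) ∧ a ≠ 0 ∧ ∀ g, ∑ i, a i * v i g = 0 := by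
    intro v hv
    choose F hF1 hF2 using hv
    by_contra h1
    refine hcon ⟨fun g i => F (e i) g, fun g i => v (e i) g, fun i => hF1 _, fun g i => hF2 _ g,
      fun a ha1 ha2 => ?_⟩
    by_contra h2
    refine h1 ⟨fun j => a (e.symm j), fun j => ha1 _, fun h3 => h2 (funext fun i => ?_),
      fun g => ?_⟩
    · simpa using congrFun h3 (e i)
    · rw [← ha2 g, ← Equiv.sum_comp e]
      exact Finset.sum_congr rfl fun i _ => by simp [mul_comm]
  set m' := f * ((f + 1) * d) with hm'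
  set m := m' + (f + 1) * d with hm
  have hv := (indep e hu.tr hz2 (m' + 1)).comp _ (finProdFinEquiv (m := f + 1)).symm.injective
  obtain ⟨w, hw1, hw2, hw3⟩ := N1 k 𝕜 ν hν (G → Ω') (nm y)
    (fun s => (y.nonneg _).trans (le_nm y s 1))
    (fun s hs => funext fun g => y.eq_zero.1 (le_antisymm (hs ▸ le_nm y s g) (y.nonneg _)))
    (nm_smul y hyν) (nm_add y hy) _ _ hv
  have hS : ∀ i, w i ∈ Sp (ι x) ρ m := fun i => by
    refine (Submodule.span_le.2 ?_ : _ ≤ Sp (ι x) ρ m) (hw1 i)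
    rintro _ ⟨j, rfl⟩
    obtain ⟨⟨a, b⟩, rfl⟩ := finProdFinEquiv.surjective j
    simp only [Function.comp_apply, Equiv.symm_apply_apply]
    refine ⟨(hz1.pow a).mul (Alg.const (pow_mem (mem_adjoin_simple_self 𝕜 _) b)), fun g =>
      ⟨fun W hW h => mul_mem (pow_mem (hz3 g W hW h) _) (pow_mem h _), fun W hW h => ?_⟩⟩
    have h0 := hu.ne_zero
    have h1 : z g ^ (a : ℕ) / ι x ^ (a * d) ∈ W := by
      rw [mul_comm, pow_mul, ← div_pow]
      exact pow_mem (hd g W hW h) _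
    have h2 : z g ^ (a : ℕ) * ι x ^ (b : ℕ) / ι x ^ (a * d + b) ∈ W := by
      rw [pow_add, mul_div_mul_right _ _ (pow_ne_zero _ h0)]
      exact h1
    refine up h0 h ?_ h2
    have h3 : (a : ℕ) * d ≤ (f + 1) * d := Nat.mul_le_mul_right _ a.2.le
    have h4 : (b : ℕ) ≤ m' := Nat.lt_succ_iff.1 b.2
    omega
  choose w₀ hw₀ using fun i g => hR.res (w i g) ((hO _).2 ((le_nm y (w i) g).trans (hw2 i)))
  have hli : LinearIndependent k w₀ := by
    rw [Fintype.linearIndependent_iff]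
    intro c hc i
    by_contra hci
    have h1 := hw3 (fun j => algebraMap k 𝕜 (c j)) i
    obtain ⟨g, hg⟩ := ex_nm y (∑ j, algebraMap k 𝕜 (c j) • w j)
    have h2 : (∑ j, algebraMap k 𝕜 (c j) • w j) g =
        ∑ j, algebraMap k Ω' (c j) * (w j g - ι (w₀ j g)) := by
      have h3 := congrArg ι (congrFun hc g)
      simp only [Finset.sum_apply, Pi.smul_apply, Pi.zero_apply] at h3
      simp only [map_sum, map_zero, Algebra.smul_def, map_mul, AlgHom.commutes] at h3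
      simp only [Finset.sum_apply, Pi.smul_apply]
      simp only [mul_sub, Finset.sum_sub_distrib, h3, sub_zero, Algebra.smul_def,
        ← IsScalarTower.algebraMap_apply]
    have h4 : O.valuation ((∑ j, algebraMap k 𝕜 (c j) • w j) g) < 1 := by
      rw [h2]
      refine O.valuation.map_sum_lt one_ne_zero fun j _ => ?_
      rw [map_mul]
      exact mul_lt_one_of_nonneg_of_lt_one_right (cmem hR.mem _) zero_le (hw₀ j g)
    have h5 : ν (algebraMap k 𝕜 (c i)) < 1 := h1.trans_lt (hg ▸ lt_one hO h4)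
    have h6 := mul_lt_one_of_nonneg_of_lt_one_left (ν.nonneg _) h5 (hν.const (c i)⁻¹)
    rw [← map_mul, ← map_mul, mul_inv_cancel₀ hci, map_one, map_one] at h6
    exact lt_irrefl _ h6
  have := N2 k Ω x hx G _ f hdep m _ w₀ (fun i => ⟨w i, (hS i).1, hw₀ i⟩) hli fun i =>
    MAXP k 𝕜 Ω Ω' ι O hR x hx hu G ρ (w i) (w₀ i) m (hS i).1 (hw₀ i) (hS i).2
  rw [hm, hm'] at this
  nlinarith

end Pool.Agent.Lib.IW2
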