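import Pool.Agent.Lib.IW2.All1
import Pool.Agent.Lib.IW2.Blue3

/-! Block EDGE: changing the tame inertia generator along a three point cover. -/

open Polynomial IntermediateField
open scoped Pointwise

namespace Pool.Agent.Lib.IW2

open Pool.Agent.Lib.IW

namespace EDGE

variable {k 𝕜 Ω Ω' : Type} [Field k] [Field 𝕜] [Field Ω] [Field Ω'] [Algebra k 𝕜] [Algebra k Ω]
  [Algebra k Ω'] [Algebra 𝕜 Ω'] [IsScalarTower k 𝕜 Ω']

omit [Algebra k 𝕜] [IsScalarTower k 𝕜 Ω'] in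
lemma cert_mono {G : Type} [Group G] [Fintype G] [DecidableEq G] {E E' : IntermediateField 𝕜 Ω'}
    (hle : E ≤ E') {ρ : Aut 𝕜 Ω' → G} {R : Set Ω'} (h : Cert E ρ R) : Cert E' ρ R := by
  obtain ⟨X, X', h1, h2, h3⟩ := h
  exact ⟨X, X', fun i => ⟨(h1 i).1.mono hle, (h1 i).2.mono hle⟩, h2, h3⟩

omit [Algebra k 𝕜] [IsScalarTower k 𝕜 Ω'] in
lemma co_div {a b : Ω'} {s : 𝕜} (h : a * algebraMap 𝕜 Ω' s = b) (hb : Co 𝕜 b) : Co 𝕜 a :=
  found.bas.coOf 𝕜 Ω' b a hb fun ha => hb.tr (h ▸ ha.mul (isAlgebraic_algebraMap s))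

omit [Algebra k 𝕜] [IsScalarTower k 𝕜 Ω'] in
lemma gam_div {a b : Ω'} {s : 𝕜} (h : a * algebraMap 𝕜 Ω' s = b) (hb : b ≠ 0) {γ : Aut 𝕜 Ω'}
    (hγ : γ b = b) : γ a = a := by
  have hs : algebraMap 𝕜 Ω' s ≠ 0 := fun e => hb (by rw [← h, e, mul_zero])
  refine mul_right_cancel₀ hs ?_
  rw [h, ← γ.commutes s, ← map_mul, h, hγ]

omit [Algebra k 𝕜] [IsScalarTower k 𝕜 Ω'] in
lemma dec_div {ι : Ω →ₐ[k] Ω'} {F : IntermediateField k Ω} {π : Ω} (hπ : π ∈ F)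
    {U : ValuationSubring Ω'} {γ : Aut 𝕜 Ω'} (hγ : γ ∈ DecF (Ext 𝕜 ι F) U) :
    γ ∈ Dec 𝕜 (ι π) U := ⟨fix_le_Gam (mem_Ext ι hπ) hγ.1, hγ.2⟩

/-- A place in the unit disc over a point of the rescaled line lies over the origin. -/
lemma origin [IsAlgClosed k] {ν : AbsoluteValue 𝕜 ℝ} (hν : Big k ν) {t : 𝕜} (ht : 1 < ν t)
    {U : ValuationSubring Ω'} (hU : IsPl 𝕜 U) {a b : Ω'} (h : a * algebraMap 𝕜 Ω' (t * t) = b)
    {c : 𝕜} (hc : ν c ≤ 1) (hb : U.valuation (b - algebraMap 𝕜 Ω' c) < 1) {e : k}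
    (ha : U.valuation (a - algebraMap k Ω' e) < 1) : U.valuation b < 1 := by
  have h1 := RED3.mul_small (hU.2 (t * t)) ha
  rw [mul_sub, mul_comm _ a, h, IsScalarTower.algebraMap_apply k 𝕜 Ω', ← map_mul] at h1
  have h2 := RED3.res_uniq hU.2 h1 hb
  obtain rfl : e = 0 := by
    by_contra he
    have h3 := hν.const e⁻¹
    have h4 : t * t = c * algebraMap k 𝕜 e⁻¹ := by
      rw [← h2, mul_assoc (t * t), ← map_mul, mul_inv_cancel₀ he, map_one, mul_one]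
    have h5 := congrArg ν h4
    rw [map_mul, map_mul] at h5
    nlinarith [ν.nonneg c, ν.nonneg (algebraMap k 𝕜 e⁻¹)]
  simpa using h1

end EDGE

open EDGE in
theorem blockEDGE (hGP : StmtGP1) (hGL : StmtGLUE0) : StmtEDGE := by
  intro p _ k Ω _ _ _ _ _ _ F π qπ x qx M ω hF hx hM hω e1 e2 W V V₀ hW hu hV hxV hV₀ hx₀ G G' _ _ _
    ψ α β c y hG hα hβ lα lβ lβ₀ _ lψ
  classical
  have := Fintype.ofFinite G
  have hM0 : M ≠ 0 := fun e => hM (e ▸ dvd_zero p)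
  obtain ⟨𝕜, Ω', _, _, _, _, _, _, _, _, ι, t, ρ, α₁, H⟩ := hGL p k Ω F π qπ x qx M ω Unit
    (fun _ => W) (fun _ => V) G G G (MonoidHom.id G) (MonoidHom.id G) α (fun _ => β) (fun _ => β)
    (fun _ => c) ⟨hF, hx, hM, hω, e1, e2, fun _ => hW, fun _ => hu, fun _ _ _ => rfl,
      fun _ => ⟨hV, hxV⟩, Function.surjective_id, by rw [MonoidHom.ker_id]; exact IsPGroup.of_bot,
      hα, fun _ => hβ, fun _ => hβ.mono (Dec_le _ _), fun _ _ _ => rfl, fun _ => lα, fun _ => lβ⟩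
  have h6 := H.h6 G' ψ ψ (fun _ => rfl) fun _ => lψ
  obtain ⟨ν, hν, ht⟩ := H.big t H.tr
  obtain ⟨yv, hy⟩ := hGP.exg k 𝕜 Ω' ν hν (ι π) H.co 1 one_pos
  obtain ⟨⟨O, hO⟩, hb⟩ := hGP.ball Ω' yv hy.na
  have hR : RedD 𝕜 ι O := hGP.gpr k 𝕜 Ω Ω' ν hν (ι π) H.co 1 yv O hy hO 1 one_ne_zero (map_one ν)
    π ι hF.co (by rw [map_one, mul_one])
  have hk : ∀ a : k, algebraMap k Ω' a ∈ O := fun a => ι.commutes a ▸ hR.mem _
  have hC := tameg p k 𝕜 Ω' _ _ (rx.extf k 𝕜 Ω Ω' ι F π hF H.co) G ρ H.rρ hG O hk hR.val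
  obtain ⟨α', hα'⟩ := rrep.ex k 𝕜 Ω Ω' ι O hR F π hF H.co G ρ hC
  have π0 : ι π ≠ 0 := H.co.ne_zero
  have key : ∀ U U', IsPl k U → π ∈ U → In 𝕜 ι O F U U' →
      (Ov ι F U' U → Triv α (DecF F U) ∧ ¬ Ov ι F U' W) → Triv ρ (DecF (Ext 𝕜 ι F) U') := by
    intro U U' hU hπ hin hov γ hγ
    obtain ⟨u, hun⟩ := found.unif.ex k Ω F hF.ff U hU
    have hfu := fb1.sepu p k Ω F hF.ff U u hU hun
    have d4 := (disc p k 𝕜 Ω Ω' ι O hk F u hfu (found.bas.coOf 𝕜 Ω' _ _ H.co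
      (RED2.trans_of orth hR hfu.co.tr)) U hU hun).2.2.2.1 U' hin
    have hγ' := dec_div hF.mem hγ
    rcases H.h1 U' hin.1 with ⟨⟨h, hh⟩, -⟩ | ⟨_, h, ι', i1, i2, i3, -, i4⟩
    · have hl : α₁ γ = α (res 𝕜 ι γ) := H.lift γ hγ.1
      have : α (res 𝕜 ι γ) = 1 := by
        rcases rx.plc k 𝕜 Ω Ω' ι π hF.co H.co U' hin.1 with ⟨-, j⟩ | ⟨j1, -, j2⟩
        · rw [j γ hγ', hα.one]
        · rcases d4 with ⟨-, d⟩ | d
          · exact fb1.trivA k Ω F hF.ff G α hα U _ (fun s hs => (d s hs).symm) (hov d).1 _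
              ⟨(RX.fix ι hF.co hγ'.1).1 hγ.1, (j2 γ hγ').2⟩
          · exact (j1.1 (eq_top_iff.2 fun s _ => d s)).elim
      rw [hh γ hγ, MonoidHom.id_apply, hl, this, mul_one, inv_mul_cancel]
    · rcases rx.plc k 𝕜 Ω Ω' ι' x hx (co_div i1 H.co) U' hin.1 with ⟨-, j⟩ | ⟨j1, j2, -⟩
      · rw [i2 γ hγ, j γ ⟨gam_div i1 π0 hγ'.1, hγ.2⟩, hβ.one, mul_one, inv_mul_cancel]
      · have t0 : algebraMap 𝕜 Ω' (t * t) ≠ 0 := fun e => π0 (by rw [← i1, e, mul_zero])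
        have hxm : ι' x ∈ U' := by
          rw [(eq_mul_inv_iff_mul_eq₀ t0).2 i1, ← map_inv₀]
          exact mul_mem i3 (hin.1.2 _)
        obtain ⟨a, ha⟩ := found.bas.resid k Ω x hx _ j1 x hxm
        rw [j2, map_sub, ι'.commutes] at ha
        obtain ⟨e, he⟩ := found.bas.resid k Ω π hF.co U hU π hπ
        obtain ⟨d, d1, d2⟩ := hin.2 _ (sub_mem hF.mem (F.algebraMap_mem e)) he
        rw [(hb O hO).1, hy.ext] at d1
        rw [map_sub ι, ι.commutes, sub_sub, IsScalarTower.algebraMap_apply k 𝕜 Ω', ← map_add] at d2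
        have sm := origin hν ht hin.1 i1 ((hν.na _ _).trans (max_le (hν.const e) d1.le)) d2 ha
        rcases d4 with ⟨-, d⟩ | d
        · exact ((hov d).2 (i4 sm)).elim
        · exact (((DISC.lt_iff _ _).1 sm).resolve_left π0 (map_inv₀ ι π ▸ d π⁻¹)).elim
  refine ⟨α', hα'.rep, fun γ hγ => ?_, ?_, fun U hU hπ hne hT => ?_⟩
  · have : Finite ψ.range := Finite.of_surjective _ ψ.rangeRestrict_surjective
    exact congrArg Subtype.val (rrep.quot p k 𝕜 Ω Ω' ι O F π hF G ψ.range ψ.rangeRestrict ρ α'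
      (fun γ => ψ.rangeRestrict (α γ)) hα' (hα.comp _) (fun γ hγ => Subtype.ext (h6 γ hγ)) γ hγ)
  · obtain ⟨W₀, w1, w2⟩ := H.ex ()
    obtain ⟨h, ι', i1, i2⟩ := H.h2 () W₀ w1 w2
    have t0 : algebraMap 𝕜 Ω' (t * t) ≠ 0 := fun e => π0 (by rw [← i1, e, mul_zero])
    have sm : W₀.valuation (ι' x) < 1 := by
      rw [(eq_mul_inv_iff_mul_eq₀ t0).2 i1, ← map_inv₀, mul_comm]
      exact RED3.mul_small (w1.2 _) (DISC.lt_of_ov w2 hF.mem hu.2.2.1)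
    have hc' := co_div i1 H.co
    rcases rx.plc k 𝕜 Ω Ω' ι' x hx hc' W₀ w1 with ⟨j, -⟩ | ⟨j1, j2, j3⟩
    · exact (((DISC.lt_iff _ _).1 sm).resolve_left hc'.ne_zero (map_inv₀ ι' x ▸ j x⁻¹)).elim
    obtain ⟨δ, hδ, eδ⟩ := conj_at found.conj found.bas hx (a := 0) hV₀ j1 (by simpa using hx₀)
      (by simpa using (j2 x).2 sm)
    have q0 : qx ≠ 0 := fun e => hx.ne_zero (by rw [← e2, e, zero_pow hM0])
    have l1 := loc.lamA k Ω k⟮x⟯ G β (fix_adjoin (k := k) x ▸ hβ) V₀ qx M ω y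
      (Nat.pos_of_ne_zero hM0) q0 (e2 ▸ mem_adjoin_simple_self k x) (by rwa [DecF_adjoin]) δ
      (fix_adjoin (k := k) x ▸ hδ)
    rw [DecF_adjoin, eδ] at l1
    obtain ⟨s, hs⟩ := IsAlgClosed.exists_pow_nat_eq (t * t) (Nat.pos_of_ne_zero hM0)
    have s0 : algebraMap 𝕜 Ω' s ≠ 0 := fun e => t0 (by rw [← hs, map_pow, e, zero_pow hM0])
    have q1 : ι' qx ≠ 0 := (_root_.map_ne_zero ι').2 q0
    have hr : (ι qπ / (ι' qx * algebraMap 𝕜 Ω' s)) ^ M = 1 := by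
      rw [div_pow, mul_pow, ← map_pow, ← map_pow, ← map_pow, e1, e2, hs, i1, div_self π0]
    obtain ⟨a, ha⟩ := red3 p k 𝕜 Ω Ω' ι O hR F π qπ M ω hF H.co hM hω e1 W hW hu G ρ α' H.rρ
      (cert_mono (Ext_mono ι le_sup_left) hC) hα' (fun U' hin hn => key W U' hW
        ((W.valuation_le_one_iff _).1 hu.2.2.1.le) hin
        fun d => (hn (DISC.lt_of_ov d hF.mem hu.2.2.1)).elim)
      W₀ (h⁻¹ * (β δ * y * (β δ)⁻¹) * h) w1 w2 fun γ hγ i hi => by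
        have hγ' := dec_div hF.mem hγ
        have g1 : γ ∈ Dec 𝕜 (ι' x) W₀ := ⟨gam_div i1 π0 hγ'.1, hγ.2⟩
        have r1 := root_fixed (k := 𝕜) hM0 hr γ
        have qπ0 : ι qπ ≠ 0 := fun e => π0 (by rw [← e1, map_pow, e, zero_pow hM0])
        have g0 : γ (ι' qx) ≠ 0 := (_root_.map_ne_zero γ).2 q1
        rw [map_div₀, map_mul, γ.commutes, hi, div_eq_div_iff (mul_ne_zero g0 s0)
          (mul_ne_zero q1 s0)] at r1
        have r2 : res 𝕜 ι' γ qx = algebraMap k Ω ω ^ i * qx := ι'.toRingHom.injective (by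
          change ι' _ = ι' _
          rw [Res.spec hx ι' γ g1.1, map_mul, map_pow, ι'.commutes]
          refine mul_left_cancel₀ (mul_ne_zero qπ0 s0) ?_
          linear_combination -r1)
        rw [(i2 γ hγ').2, l1 _ (j3 γ g1) i r2, ← inv_inv h, inv_inv h⁻¹, ← conj_pow]
    refine ⟨(β δ)⁻¹ * h * a, ?_⟩
    convert ha using 1
    group
  · exact red2 p k 𝕜 Ω Ω' ι O hR F π hF H.co U hU G ρ α' hC hα' fun U' hin =>
      key U U' hU hπ hin fun d => ⟨hT, fun d' => hne fun s hs => (d s hs).symm.trans (d' s hs)⟩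

end Pool.Agent.Lib.IW2
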