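import Pool.Agent.Lib.IW2.All1
import Pool.Agent.Lib.IW2.Blue3

/-! The sheets of a frame. -/

open Polynomial IntermediateField
open scoped Pointwise

namespace Pool.Agent.Lib.IW2

open Pool.Agent.Lib.IW

namespace FRL1

section One

variable {k Ω : Type} [Field k] [Field Ω] [Algebra k Ω]

lemma val_lt_iff (W : ValuationSubring Ω) (s : Ω) :
    W.valuation s < 1 ↔ s = 0 ∨ s⁻¹ ∉ W := by
  by_cases h : s = 0
  · simp [h]
  · have h0 : 0 < W.valuation s := (Valuation.pos_iff _).2 h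
    rw [← W.valuation_le_one_iff, map_inv₀, inv_le_one₀ h0, not_le]
    simp [h]

lemma sep_sup {F : IntermediateField k Ω} {y : Ω} (hy : IsSeparable F y) :
    ∀ z ∈ F ⊔ k⟮y⟯, IsSeparable F z := by
  have : F ⊔ k⟮y⟯ ≤ (separableClosure F Ω).restrictScalars k :=
    sup_le (fun z hz => sep_mem hz) (adjoin_simple_le_iff.2 hy)
  exact fun z hz => this hz

lemma fs_sup {F : IntermediateField k Ω} {π y : Ω} (h : FS F π) (hy : IsSeparable F y) :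
    FS (F ⊔ k⟮y⟯) π :=
  ⟨h.co, fg_sup h.fg (fg_adjoin_of_finite (Set.finite_singleton y)), le_sup_left (a := F) h.mem,
    fun z hz => DOWN.sep_down (adjoin_simple_le_iff.2 h.mem) (fun w hw => h.sep w hw)
      (sep_sup hy z hz)⟩

lemma fix_sup {F : IntermediateField k Ω} {y : Ω} {γ : Aut k Ω} (h : γ ∈ F.fixingSubgroup)
    (hy : γ y = y) : γ ∈ (F ⊔ k⟮y⟯).fixingSubgroup := by
  rw [IntermediateField.fixingSubgroup_sup, fix_adjoin]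
  exact ⟨h, hy⟩

lemma unif_sup (p : ℕ) [Fact p.Prime] [IsAlgClosed k] [CharP k p] [IsAlgClosed Ω]
    {F : IntermediateField k Ω} {π y : Ω} (h : FS F π) {W : ValuationSubring Ω} (hW : IsPl k W)
    (hu : IsUnif F W π) (hy : IsSeparable F y) (hf : ∀ γ ∈ DecF F W, γ y = y) :
    IsUnif (F ⊔ k⟮y⟯) W π := by
  refine ⟨le_sup_left (a := F) hu.1, hu.2.1, hu.2.2.1, fun z hz hz1 => ?_⟩
  by_cases h0 : z = 0
  · simp [h0]
  obtain ⟨i, hi⟩ := found.hens.hens p k Ω F h.ff W hW π hu z h0 (sep_sup hy z hz)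
    fun γ hγ => fix_apply (fix_sup (DecF_le F W hγ) (hf γ hγ)) hz
  have hp : 0 < W.valuation π := (Valuation.pos_iff _).2 hu.2.1
  rw [hi] at hz1 ⊢
  have h1 : 0 < i := (zpow_lt_one_iff_right_of_lt_one₀ hp hu.2.2.1).1 hz1
  calc W.valuation π ^ i ≤ W.valuation π ^ (1 : ℤ) :=
        zpow_le_zpow_right_of_le_one₀ hp hu.2.2.1.le h1
    _ = W.valuation π := zpow_one _

end One

variable {k 𝕜 Ω Ω' : Type} [Field k] [Field 𝕜] [Field Ω] [Field Ω'] [Algebra k 𝕜] [Algebra k Ω]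
  [Algebra k Ω'] [Algebra 𝕜 Ω'] [IsScalarTower k 𝕜 Ω']

lemma rt_map {f : k[X][X]} {u θ : Ω} (h : Rt f u θ) (φ : Ω →ₐ[k] Ω') : Rt f (φ u) (φ θ) := by
  have h1 := congrArg φ.toRingHom h
  rw [Polynomial.hom_eval₂, map_zero] at h1
  have h2 : φ.toRingHom.comp (aeval (R := k) u).toRingHom = (aeval (R := k) (φ u)).toRingHom := by
    ext c <;> simp
  rw [h2] at h1
  exact h1

/-- The conjugate of the extended field lies in `E1`. -/
lemma sheet (p : ℕ) [Fact p.Prime] [IsAlgClosed k] [CharP k p] [IsAlgClosed Ω] {σ : Ω'}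
    {E0 E1 E2 : IntermediateField 𝕜 Ω'} {O : ValuationSubring Ω'} (hP : PX k σ E0 E1 E2 O)
    {ι : Ω →ₐ[k] Ω'} {t : 𝕜} {F : IntermediateField k Ω} {π : Ω} (hF : FS F π)
    (ht : O.valuation (algebraMap 𝕜 Ω' t) < 1) (e : ι π = algebraMap 𝕜 Ω' t * σ)
    {W : ValuationSubring Ω} (hW : IsPl k W) (hu : IsUnif F W π) {δ : Aut 𝕜 Ω'} (hδ : δ σ = σ)
    (ov : ∀ s, ι s ∈ (δ • O : ValuationSubring Ω') ↔ s ∈ W) :
    ∀ y ∈ Ext 𝕜 ι F, δ⁻¹ y ∈ E1 := by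
  obtain ⟨θ, f, hf, hr, hθ, hFe⟩ := sh1 p k Ω F π hF W hW hu
  have hδ' : δ⁻¹ σ = σ := (inv_mem (show δ ∈ Gam 𝕜 σ from hδ) : δ⁻¹ ∈ Gam 𝕜 σ)
  have e1 : δ⁻¹ (ι π) = algebraMap 𝕜 Ω' t * σ := by rw [e, map_mul, hδ', AlgEquiv.commutes]
  let φ : Ω →ₐ[k] Ω' := ((δ⁻¹ : Aut 𝕜 Ω').toAlgHom.restrictScalars k).comp ι
  have hφ : ∀ s, φ s = δ⁻¹ (ι s) := fun _ => rfl
  have hr' := rt_map hr φ
  rw [hφ, hφ, e1] at hr'
  have hs : O.valuation (δ⁻¹ (ι θ)) < 1 := by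
    rw [val_lt_iff] at hθ ⊢
    rcases hθ with h0 | h0
    · left
      rw [h0, map_zero, map_zero]
    · right
      rw [← map_inv₀, ← map_inv₀]
      intro h1
      exact h0 ((ov _).1 (ValuationSubring.mem_pointwise_smul_iff_inv_smul_mem.2 h1))
  have h1 := (hP.onS f hf t ht _ hr' hs).1
  have h2 : Ext 𝕜 ι F ≤ E1.comap (δ⁻¹ : Aut 𝕜 Ω').toAlgHom := by
    rw [hFe, RX.ext1, IntermediateField.adjoin_le_iff]
    rintro _ ⟨s, hs, rfl⟩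
    rcases hs with rfl | rfl
    · change δ⁻¹ (ι s) ∈ E1
      rw [e1]
      exact mul_mem (E1.algebraMap_mem t) hP.bas.mem1
    · exact h1
  exact fun y hy => h2 hy

lemma conj_fix {E1 : IntermediateField 𝕜 Ω'} {δ γ : Aut 𝕜 Ω'} (hγ : γ ∈ E1.fixingSubgroup)
    {y : Ω'} (hy : δ⁻¹ y ∈ E1) : (δ * γ * δ⁻¹) y = y := by
  rw [AlgEquiv.mul_apply, AlgEquiv.mul_apply, fix_apply hγ hy]
  exact δ.apply_symm_apply y

end FRL1

open FRL1

theorem blockFRL1 : StmtFRL1 := by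
  intro p _ k 𝕜 Ω Ω' _ _ _ _ _ _ _ _ _ _ _ _ _ _ σ E0 E1 E2 O hP ι t F π J W δ hF
  have ht0 : algebraMap 𝕜 Ω' t ≠ 0 := (_root_.map_ne_zero _).2 hF.t0
  have hle : 𝕜⟮ι π⟯ ≤ 𝕜⟮σ⟯ := adjoin_simple_le_iff.2 (by
    rw [hF.eq]
    exact mul_mem (IntermediateField.algebraMap_mem _ t) (mem_adjoin_simple_self 𝕜 σ))
  have eσ : σ = algebraMap 𝕜 Ω' t⁻¹ * ι π := by
    rw [hF.eq, map_inv₀, inv_mul_cancel_left₀ ht0]
  have htr : Transcendental 𝕜 (ι π) := fun h => hP.bas.co.tr (by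
    rw [eσ]
    exact (isAlgebraic_algebraMap _).mul h)
  have hco : Co 𝕜 (ι π) := found.bas.coOf 𝕜 Ω' σ _ hP.bas.co htr
  have hG : Gam 𝕜 (ι π) = Gam 𝕜 σ := by
    ext γ
    rw [mem_Gam, mem_Gam, hF.eq, map_mul, γ.commutes]
    exact mul_right_inj' ht0
  have hE := RX.extf ι hF.fs hco
  have hδ : ∀ j, δ j σ = σ := fun j => fix_apply (hF.mem j) hP.bas.mem2
  have s1 : ∀ j, ∀ y ∈ Ext 𝕜 ι F, (δ j)⁻¹ y ∈ E1 := fun j =>
    sheet p hP hF.fs hF.t1 hF.eq (hF.pl j) (hF.un j) (hδ j) (hF.ov j)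
  have s2 : ∀ j, ∀ γ ∈ E1.fixingSubgroup, δ j * γ * (δ j)⁻¹ ∈ (Ext 𝕜 ι F).fixingSubgroup :=
    fun j γ hγ => (IntermediateField.mem_fixingSubgroup_iff _ _).2 fun y hy =>
      conj_fix hγ (s1 j y hy)
  have s3 : ∀ j, ∀ γ ∈ E1.fixingSubgroup, δ j * γ * (δ j)⁻¹ ∈ Gam 𝕜 (ι π) :=
    fun j γ hγ => hE.le (s2 j γ hγ)
  have s4 : ∀ j, ∀ γ ∈ E1.fixingSubgroup, res 𝕜 ι (δ j * γ * (δ j)⁻¹) ∈ F.fixingSubgroup :=
    fun j γ hγ => (RX.fix ι hF.fs.co (s3 j γ hγ)).1 (s2 j γ hγ)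
  refine ⟨⟨hP.bas.co, hE.fg, ?_, fun y hy => sep_up hle (hE.sep y hy)⟩, hco, hG, s2, ?_, ?_,
    fun j y hy => hP.bas.le1 (s1 j y hy), ?_⟩
  · rw [eσ]
    exact mul_mem (IntermediateField.algebraMap_mem _ _) hE.mem
  · intro i j h
    refine hF.ne i j fun s hs => ?_
    rw [← hF.ov i, ← hF.ov j, ValuationSubring.mem_pointwise_smul_iff_inv_smul_mem,
      ValuationSubring.mem_pointwise_smul_iff_inv_smul_mem]
    have h1 : (δ i)⁻¹ • ι s = (δ j)⁻¹ • ι s := by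
      conv_lhs => rw [← fix_apply h (mem_Ext ι hs)]
      change (δ i)⁻¹ • (δ i * (δ j)⁻¹) • ι s = _
      rw [← mul_smul, inv_mul_cancel_left]
    rw [h1]
  · intro j γ hγ
    have hγ1 : γ ∈ E1.fixingSubgroup := IntermediateField.fixingSubgroup_le hP.bas.le1 hγ
    refine ⟨s4 j γ hγ1, ?_⟩
    have h1 : (δ j • O : ValuationSubring Ω').comap ι.toRingHom = W j := by
      ext s
      exact hF.ov j s
    have h2 : γ • O = O := hP.bas.dec hγ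
    change res 𝕜 ι (δ j * γ * (δ j)⁻¹) • W j = W j
    rw [← h1, ← RX.smul ι hF.fs.co (s3 j γ hγ1), mul_smul, mul_smul, inv_smul_smul, h2]
  · intro H _ _ τ hτ j γ hγ
    have hD : ∀ η ∈ DecF F (W j), η ∈ Gam k π := fun η hη => hF.fs.le (DecF_le F _ hη)
    let Δ : Subgroup (Aut k Ω) :=
      { carrier := {g | g ∈ F.fixingSubgroup ∧ ∃ η ∈ DecF F (W j), τ g = τ η}
        mul_mem' := by
          rintro a b ⟨ha, η, hη, e⟩ ⟨hb, η', hη', e'⟩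
          refine ⟨mul_mem ha hb, η * η', mul_mem hη hη', ?_⟩
          rw [hτ.mul _ (hF.fs.le ha) _ (hF.fs.le hb), hτ.mul _ (hD η hη) _ (hD η' hη'), e, e']
        one_mem' := ⟨one_mem _, 1, one_mem _, rfl⟩
        inv_mem' := by
          rintro a ⟨ha, η, hη, e⟩
          refine ⟨inv_mem ha, η⁻¹, inv_mem hη, ?_⟩
          rw [hτ.inv (hF.fs.le ha), hτ.inv (hD η hη), e] }
    obtain ⟨S, hS⟩ := hτ.cts
    refine (found.gal.cor p k Ω F hF.fs.alg Δ S (fun g hg => hg.1)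
      (fun g hg hs => ⟨hg, 1, one_mem _, hS g (hF.fs.le hg) 1 (one_mem _) hs⟩) _ (s4 j γ hγ)
      fun y hy hf => ?_).2
    have hu := unif_sup p hF.fs (hF.pl j) (hF.un j) hy
      fun η hη => hf η ⟨DecF_le F _ hη, η, hη, rfl⟩
    have h1 := sheet p hP (fs_sup hF.fs hy) hF.t1 hF.eq (hF.pl j) hu (hδ j) (hF.ov j) (ι y)
      (mem_Ext ι (le_sup_right (a := F) (mem_adjoin_simple_self k y)))
    apply ι.toRingHom.injective
    change ι _ = ι _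
    rw [found.res.spec k 𝕜 Ω Ω' π hF.fs.co ι _ (s3 j γ hγ), conj_fix hγ h1]

end Pool.Agent.Lib.IW2
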