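import Pool.Agent.Lib.IW2.FRL1

/-! The places of the extended curve. -/

open Polynomial IntermediateField
open scoped Pointwise

namespace Pool.Agent.Lib.IW2

open Pool.Agent.Lib.IW

namespace FRL2

variable {𝕜 Ω' : Type} [Field 𝕜] [Field Ω'] [Algebra 𝕜 Ω']

lemma uniq {U : ValuationSubring Ω'} (hU : IsPl 𝕜 U) {s : Ω'} {a b : 𝕜}
    (ha : U.valuation (s - algebraMap 𝕜 Ω' a) < 1) (hb : U.valuation (s - algebraMap 𝕜 Ω' b) < 1) :
    a = b := by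
  by_contra h
  have h1 := Valuation.map_sub_lt _ hb ha
  rw [sub_sub_sub_cancel_left, ← map_sub, Kum.val_const hU (sub_ne_zero.2 h)] at h1
  exact lt_irrefl _ h1

lemma scale {U : ValuationSubring Ω'} (hU : IsPl 𝕜 U) {s : Ω'} {a : 𝕜} (t : 𝕜)
    (ha : U.valuation (s - algebraMap 𝕜 Ω' a) < 1) :
    U.valuation (algebraMap 𝕜 Ω' t * s - algebraMap 𝕜 Ω' (t * a)) < 1 := by
  rw [map_mul, ← mul_sub, map_mul]
  exact (mul_le_of_le_one_left' ((U.valuation_le_one_iff _).2 (hU.2 t))).trans_lt ha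

lemma small {O : ValuationSubring Ω'} {t a : 𝕜} (ht : O.valuation (algebraMap 𝕜 Ω' t) < 1)
    (ha : algebraMap 𝕜 Ω' a ∈ O) : O.valuation (algebraMap 𝕜 Ω' (t * a)) < 1 := by
  rw [map_mul, map_mul]
  exact (mul_le_of_le_one_right' ((O.valuation_le_one_iff _).2 ha)).trans_lt ht

end FRL2

open FRL1 FRL2

theorem blockFRL2 (h1 : StmtFRL1) : StmtFRL2 := by
  intro p _ k 𝕜 Ω Ω' _ _ _ _ _ _ _ _ _ _ _ _ _ _ σ E0 E1 E2 O hP ι t F π J W δ hF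
  obtain ⟨hE, hco, hG, s2, -⟩ := h1 p k 𝕜 Ω Ω' σ E0 E1 E2 O hP ι t F π J W δ hF
  have D := fun j => disc p k 𝕜 Ω Ω' ι O hP.bas.const F π hF.fs hco (W j) (hF.pl j) (hF.un j)
  have hδ : ∀ j, δ j ∈ Gam 𝕜 σ := fun j => fix_apply (hF.mem j) hP.bas.mem2
  have mv : ∀ (U : ValuationSubring Ω') (γ : Aut 𝕜 Ω') (s : Ω') (a : 𝕜), IsPl 𝕜 U →
      U.valuation (s - algebraMap 𝕜 Ω' a) < 1 →
      (γ • U).valuation (γ s - algebraMap 𝕜 Ω' a) < 1 := fun U γ s a hU h => by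
    have h2 := ((found.bas.smulPl 𝕜 Ω' U hU γ).2.2.1 _).2 h
    rwa [map_sub, AlgEquiv.commutes] at h2
  have A : ∀ (j : J) (U : ValuationSubring Ω') (a : 𝕜), IsPl 𝕜 U → algebraMap 𝕜 Ω' a ∈ O →
      U.valuation (σ - algebraMap 𝕜 Ω' a) < 1 → Dec 𝕜 σ U ≤ E1.fixingSubgroup →
      In 𝕜 ι O F (W j) (δ j • U) ∧ (δ j • U).valuation (σ - algebraMap 𝕜 Ω' a) < 1 := by
    intro j U a hU ha hv hd
    obtain ⟨θ, f, hf, hr, hθ, hFe⟩ := sh1 p k Ω F π hF.fs (W j) (hF.pl j) (hF.un j)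
    have hδ' : (δ j)⁻¹ σ = σ := inv_mem (hδ j)
    have e1 : (δ j)⁻¹ (ι π) = algebraMap 𝕜 Ω' t * σ := by
      rw [hF.eq, map_mul, hδ', AlgEquiv.commutes]
    let φ : Ω →ₐ[k] Ω' := (((δ j)⁻¹ : Aut 𝕜 Ω').toAlgHom.restrictScalars k).comp ι
    have hφ : ∀ s, φ s = (δ j)⁻¹ (ι s) := fun _ => rfl
    have hr' := rt_map hr φ
    rw [hφ, hφ, e1] at hr'
    have hs : O.valuation ((δ j)⁻¹ (ι θ)) < 1 := by
      rw [val_lt_iff] at hθ ⊢
      refine hθ.imp (fun h0 => by rw [h0, map_zero, map_zero]) fun h0 h1 => ?_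
      rw [← map_inv₀, ← map_inv₀] at h1
      exact h0 ((hF.ov j _).1 (ValuationSubring.mem_pointwise_smul_iff_inv_smul_mem.2 h1))
    obtain ⟨b, b1, b2⟩ := (hP.onS f hf t hF.t1 _ hr' hs).2 U a hU ha hv hd
    have p1 := (found.bas.smulPl 𝕜 Ω' U hU (δ j)).1
    have v1 := mv U (δ j) σ a hU hv
    rw [mem_Gam.1 (hδ j)] at v1
    have v2 := mv U (δ j) _ b hU b2
    rw [show δ j ((δ j)⁻¹ (ι θ)) = ι θ from (δ j).apply_symm_apply _] at v2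
    exact ⟨((D j).1 θ f hf hr hθ hFe _).2 ⟨p1, ⟨_, small hF.t1 ha, hF.eq ▸ scale p1 t v1⟩,
      b, b1, v2⟩, v1⟩
  have B : ∀ j U, InD 𝕜 σ O ι F (W j) U → ι π ∈ U ∧
      (∀ e : k, e ≠ 0 → ¬ U.valuation (ι π - algebraMap k Ω' e) < 1) ∧
      (U.valuation (ι π) < 1 → Ov ι F U (W j)) := by
    rintro j U ⟨hI, a, ha, hv⟩
    have v1 := scale hI.1 t hv
    rw [← hF.eq] at v1
    refine ⟨Kum.mem_of_lt hI.1 v1, fun e he h => ?_, fun h => ?_⟩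
    · rw [IsScalarTower.algebraMap_apply k 𝕜 Ω'] at h
      have h2 := small hF.t1 ha
      rw [uniq hI.1 v1 h, ← IsScalarTower.algebraMap_apply, val_lt_iff, ← map_inv₀] at h2
      exact h2.elim (by simpa using he) fun h3 => h3 (hP.bas.const _)
    · refine ((D j).2.2.2.1 U hI).elim (fun h2 => h2.2) fun h2 => ?_
      rw [val_lt_iff, ← map_inv₀] at h
      exact (h.elim (by simpa using hF.fs.co.ne_zero) fun h3 => h3 (h2 _)).elim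
  refine ⟨fun U hU => ?_, B, fun j U hU ov => ?_, fun j => ?_⟩
  · by_cases hs : σ ∈ U
    · obtain ⟨a, ha⟩ := found.bas.resid 𝕜 Ω' σ hP.bas.co U hU σ hs
      by_cases aO : algebraMap 𝕜 Ω' a ∈ O
      · obtain ⟨U', u1, u2, u3⟩ := hP.loc.loc1 a aO
        obtain ⟨η, hη, rfl⟩ := conj_at found.conj found.bas hP.bas.co u1 hU u2 ha
        refine ⟨η, hη, Or.inr ⟨fun γ hγ => u3 ((conj_mem_Dec hη).2 hγ), fun j => ?_⟩⟩
        obtain ⟨a1, a2⟩ := A j U' a u1 aO u2 u3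
        refine ⟨fun h => ⟨?_, a, aO, ha⟩, fun h => ?_⟩
        · have h2 := (D j).2.2.2.2.2 _ a1 _ h
          rwa [← mul_smul, inv_mul_cancel_right] at h2
        · obtain ⟨γ, g1, g2⟩ := found.conj 𝕜 Ω' _ hE.alg _ _ ((D j).2.2.1 _ _ (t * a) a1 h.1
            (hF.eq ▸ scale a1.1 t a2) (hF.eq ▸ scale hU t ha))
          have g3 : η⁻¹ * (γ * δ j) ∈ Dec 𝕜 σ U' := mem_Dec.2 ⟨mem_Gam.1 (mul_mem (inv_mem hη)
            (mul_mem (hE.le g1) (hδ j))), by rw [mul_smul, mul_smul, g2, inv_smul_smul]⟩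
          have g4 := mul_mem g1 (s2 j _ (inv_mem (u3 g3)))
          rwa [show γ * (δ j * (η⁻¹ * (γ * δ j))⁻¹ * (δ j)⁻¹) = η * (δ j)⁻¹ by group] at g4
      · obtain ⟨U', u1, u2, u3⟩ := hP.loc.loc2 a aO
        obtain ⟨η, hη, rfl⟩ := conj_at found.conj found.bas hP.bas.co u1 hU u2 ha
        exact ⟨η, hη, Or.inl ⟨fun γ hγ => u3 ((conj_mem_Dec hη).2 hγ),
          fun j ⟨_, b, b1, b2⟩ => aO (uniq hU ha b2 ▸ b1)⟩⟩
    · obtain ⟨U', u1, u2, u3⟩ := hP.loc.locInf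
      obtain ⟨η, hη, rfl⟩ := conj_inf found.conj found.bas hP.bas.co u1 hU u2 hs
      exact ⟨η, hη, Or.inl ⟨fun γ hγ => u3 ((conj_mem_Dec hη).2 hγ),
        fun j ⟨_, b, _, b2⟩ => hs (Kum.mem_of_lt hU b2)⟩⟩
  · have hI := (D j).2.2.2.2.1 U hU ov
    have v1 : U.valuation (ι π - algebraMap 𝕜 Ω' 0) < 1 := by
      have h2 := (hF.un j).2.2.1
      rw [map_zero, sub_zero]
      rw [val_lt_iff] at h2 ⊢
      refine h2.imp (fun h => by rw [h, map_zero]) fun h h3 => h ((ov _ (inv_mem hF.fs.mem)).1 ?_)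
      rwa [map_inv₀]
    have v2 := scale hU t⁻¹ v1
    rw [hF.eq, ← mul_assoc, ← map_mul, inv_mul_cancel₀ hF.t0, map_one, one_mul, mul_zero] at v2
    refine ⟨⟨hI, 0, by simp, v2⟩, ?_⟩
    have h2 := ((D j).2.1 U hI).1
    rwa [Dec, hG] at h2
  · obtain ⟨U', u1, u2, u3⟩ := hP.loc.loc1 0 (by simp)
    obtain ⟨a1, a2⟩ := A j U' 0 u1 (by simp) u2 u3
    have v1 := scale a1.1 t a2
    rw [← hF.eq, mul_zero, map_zero, sub_zero] at v1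
    exact ⟨_, a1.1, (B j _ ⟨a1, 0, by simp, a2⟩).2.2 v1⟩

end Pool.Agent.Lib.IW2
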