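import Pool.Agent.Lib.IW2.All1
import Pool.Agent.Lib.IW2.Blue3

/-! Connectedness over the two regions; existence of frames. -/

open Polynomial IntermediateField
open scoped Pointwise

namespace Pool.Agent.Lib.IW2

open Pool.Agent.Lib.IW

namespace FRX

variable {k 𝕜 Ω Ω' : Type} [Field k] [IsAlgClosed k] [Field 𝕜] [Field Ω] [IsAlgClosed Ω]
  [Field Ω'] [IsAlgClosed Ω'] [Algebra k 𝕜] [Algebra k Ω] [Algebra k Ω'] [Algebra 𝕜 Ω']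
  [IsScalarTower k 𝕜 Ω'] {σ : Ω'} {E0 E1 E2 : IntermediateField 𝕜 Ω'} {O : ValuationSubring Ω'}

omit [IsAlgClosed Ω] [IsAlgClosed Ω'] in
lemma closed (hb : BasP k σ E0 E1 E2 O) {x : Ω} (hx : Co k x) {ι : Ω →ₐ[k] Ω'}
    {E : IntermediateField 𝕜 Ω'} (hσ : σ ∈ E) {c : 𝕜} (hc : c ≠ 0)
    (hι : ι x = algebraMap 𝕜 Ω' c⁻¹ * σ) (j : E →ₐ[𝕜] Ω') (h0 : ∀ y, j y ∈ E0)
    (hj : ∀ y : E, (y : Ω') = σ → j y = algebraMap 𝕜 Ω' 0 + algebraMap 𝕜 Ω' c * σ) :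
    ι x ∈ E ∧ ∀ s, ι s ∈ E → s ∈ k⟮x⟯ := by
  have hxE : ι x ∈ E := hι ▸ E.mul_mem (E.algebraMap_mem _) hσ
  refine ⟨hxE, blockCin blockBas k 𝕜 Ω Ω' σ E0 E1 E2 O hb x hx ι E hxE j h0 1 one_ne_zero ?_⟩
  have e : (⟨ι x, hxE⟩ : E) = algebraMap 𝕜 E c⁻¹ * ⟨σ, hσ⟩ := Subtype.ext (by simpa using hι)
  have h5 : algebraMap 𝕜 Ω' c ≠ 0 := by simpa using hc
  rw [e, map_mul, hj ⟨σ, hσ⟩ rfl, AlgHom.commutes, map_zero, zero_add, map_inv₀,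
    inv_mul_cancel_left₀ h5, map_one, one_mul, sub_self, map_zero]
  exact zero_lt_one

omit [IsAlgClosed k] [IsAlgClosed Ω'] [Algebra k 𝕜] [IsScalarTower k 𝕜 Ω'] in
lemma small (hb : BasP k σ E0 E1 E2 O) {t : 𝕜} (ht1 : O.valuation (algebraMap 𝕜 Ω' t) < 1) :
    O.valuation (algebraMap 𝕜 Ω' t * σ) < 1 := by rwa [map_mul, PL.val_sigma hb, mul_one]

omit [IsAlgClosed k] [IsAlgClosed Ω'] [Algebra k 𝕜] [IsScalarTower k 𝕜 Ω'] in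
lemma big (hb : BasP k σ E0 E1 E2 O) {t : 𝕜} (ht : t ≠ 0)
    (ht1 : O.valuation (algebraMap 𝕜 Ω' t) < 1) : algebraMap 𝕜 Ω' t⁻¹ * σ ∉ O := by
  rw [← ValuationSubring.valuation_le_one_iff, map_mul, PL.val_sigma hb, mul_one, map_inv₀,
    map_inv₀, not_le]
  exact one_lt_inv_iff₀.2 ⟨zero_lt_iff.2 (by simpa using ht), ht1⟩

omit [IsAlgClosed Ω'] [Algebra k 𝕜] [IsScalarTower k 𝕜 Ω'] in
lemma tr (hb : BasP k σ E0 E1 E2 O) {y : Ω'} (h0 : y ≠ 0) (hy : O.valuation y ≠ 1) :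
    Transcendental k y := fun h => by
  obtain ⟨c, hc⟩ := minpoly.mem_range_of_degree_eq_one k _
    (IsAlgClosed.degree_eq_one_of_irreducible k (minpoly.irreducible h.isIntegral))
  refine hy (hc ▸ PL.val_const hb.const ?_)
  rintro rfl
  exact h0 (by rw [← hc]; simp)

lemma conn2 (p : ℕ) [Fact p.Prime] [CharP k p] (hb : BasP k σ E0 E1 E2 O) {t : 𝕜} (ht : t ≠ 0)
    (ht1 : O.valuation (algebraMap 𝕜 Ω' t) < 1) {x : Ω} {ι : Ω →ₐ[k] Ω'} (hx : Co k x)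
    (hι : ι x = algebraMap 𝕜 Ω' t * σ) (H : Type) [Group H] [Finite H] (τ : Aut k Ω → H)
    (hτ : IsRep (Gam k x) τ) :
    ι x ∈ E2 ∧ ∀ γ ∈ Gam k x, ∃ γ' ∈ E2.fixingSubgroup, τ (res 𝕜 ι γ') = τ γ := by
  obtain ⟨j, h0, hj⟩ := hb.ev2 0 t⁻¹ (inv_ne_zero ht) (by
    rw [map_zero, zero_add]; exact big hb ht ht1)
  obtain ⟨h1, h2⟩ := closed hb hx hb.mem2 (inv_ne_zero ht) (by rw [inv_inv]; exact hι) j h0 hj
  exact ⟨h1, found.res.conn p k 𝕜 Ω Ω' x hx ι E2 (Ind.alg_of_mem hb.co hb.mem2) h1 h2 H τ hτ⟩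

end FRX

open FRX in
theorem blockFRX : StmtFRX where
  conn1 := by
    intro p _ k 𝕜 Ω Ω' _ _ _ _ _ _ _ _ _ _ _ _ _ σ E0 E1 E2 O hb t ht ht1 x ι hx hι H _ _ τ hτ
    obtain ⟨j, h0, hj⟩ := hb.ev1 0 t ht (by
      rw [map_zero, zero_add]; exact (O.valuation_le_one_iff _).1 (small hb ht1).le)
    have h5 : algebraMap 𝕜 Ω' t ≠ 0 := by simpa using ht
    obtain ⟨h1, h2⟩ := closed hb hx hb.mem1 ht (by
      rw [← hι, map_inv₀, mul_comm (ι x), inv_mul_cancel_left₀ h5]) j h0 hj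
    exact found.res.conn p k 𝕜 Ω Ω' x hx ι E1 (Ind.alg_of_mem hb.co hb.mem1) h1 h2 H τ hτ
  conn2 := by
    intro p _ k 𝕜 Ω Ω' _ _ _ _ _ _ _ _ _ _ _ _ _ σ E0 E1 E2 O hb t ht ht1 x ι hx hι H _ _ τ hτ
    exact (conn2 p hb ht ht1 hx hι H τ hτ).2
  frame := by
    intro p _ k 𝕜 Ω Ω' _ _ _ _ _ _ _ _ _ _ _ _ _ σ E0 E1 E2 O hb t ht ht1 x ι hx hι H _ _ τ hτ
      W hW hWx
    have hs := small hb ht1
    rw [← hι] at hs
    have hx0 : ι x ≠ 0 := by simpa using hx.ne_zero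
    have h5 : x⁻¹ ∉ O.comap ι.toRingHom := fun h => by
      have h' : ι x⁻¹ ∈ O := h
      rw [← ValuationSubring.valuation_le_one_iff, map_inv₀, map_inv₀,
        inv_le_one₀ (zero_lt_iff.2 (by simpa using hx0))] at h'
      exact absurd hs (not_lt.2 h')
    have h6 : IsPl k (O.comap ι.toRingHom) := ⟨fun h => h5 (h ▸ ValuationSubring.mem_top _),
      fun c => by simpa [ValuationSubring.mem_comap] using hb.const c⟩
    have h7 : (O.comap ι.toRingHom).valuation (x - algebraMap k Ω 0) < 1 := by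
      rw [map_zero, sub_zero]
      rw [← ValuationSubring.valuation_le_one_iff, map_inv₀, not_le,
        one_lt_inv_iff₀] at h5
      exact h5.2
    obtain ⟨γ, hγ, hγW⟩ := conj_at found.conj found.bas hx h6 hW h7 (by simpa using hWx)
    obtain ⟨h1, h2⟩ := conn2 p hb ht ht1 hx hι H τ hτ
    obtain ⟨δ, hδ, e⟩ := h2 γ hγ
    have hδx : δ ∈ Gam 𝕜 (ι x) := fix_le_Gam h1 hδ
    have hr : res 𝕜 ι δ ∈ Gam k x := (rx.mul k 𝕜 Ω Ω' ι x hx).2.1 δ hδx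
    refine ⟨δ, hδ, res 𝕜 ι δ * γ⁻¹, mul_mem hr (inv_mem hγ), ?_, fun s => ?_⟩
    · rw [hτ.mul _ hr _ (inv_mem hγ), hτ.inv hγ, e, mul_inv_cancel]
    · rw [← hγW, smul_smul, inv_mul_cancel_right, ← rx.smul k 𝕜 Ω Ω' ι x hx δ hδx O]
      rfl
  inner := by
    intro k 𝕜 Ω Ω' _ _ _ _ _ _ _ _ _ _ _ _ σ E0 E1 E2 O hb t ht ht1
    have h5 : algebraMap 𝕜 Ω' t ≠ 0 := by simpa using ht
    have hσ : σ ≠ 0 := hb.co.ne_zero
    refine ⟨fun h => tr hb h5 ht1.ne h.algebraMap, fun x hx => ⟨found.bas.exEmb k Ω Ω' x _ hx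
      (tr hb (mul_ne_zero h5 hσ) (small hb ht1).ne), fun V hV hxV => ?_⟩⟩
    have h3 := big hb ht ht1
    obtain ⟨ι, hι⟩ := found.bas.exEmb k Ω Ω' x _ hx (tr hb (y := algebraMap 𝕜 Ω' t⁻¹ * σ)
      (by rintro h; exact h3 (h ▸ O.zero_mem))
      fun h => h3 ((O.valuation_le_one_iff _).1 h.le))
    have h4 : x ∉ O.comap ι.toRingHom := fun h => h3 (hι ▸ h)
    have h6 : IsPl k (O.comap ι.toRingHom) := ⟨fun h => h4 (h ▸ ValuationSubring.mem_top _),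
      fun c => by simpa [ValuationSubring.mem_comap] using hb.const c⟩
    obtain ⟨ι', e1, e2⟩ := rx.ovr k Ω Ω' x hx ι O V
      (found.bas.agrInf k Ω x hx.tr _ V h6 hV h4 hxV)
    refine ⟨ι', ?_, e2⟩
    rw [e1, hι, map_inv₀, mul_comm, mul_inv_cancel_left₀ h5]

end Pool.Agent.Lib.IW2
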