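import Pool.Agent.Lib.IW2.All1
import Pool.Agent.Lib.IW2.Blue3

/-! Construction of the patching data. -/

open Polynomial IntermediateField
open scoped Pointwise

namespace Pool.Agent.Lib.IW2

open Pool.Agent.Lib.IW

namespace G0A

section One

variable {k Ω : Type} [Field k] [Field Ω] [Algebra k Ω]

lemma agr_smul {F : IntermediateField k Ω} {W : ValuationSubring Ω} {ε : Aut k Ω}
    (hε : ε ∈ F.fixingSubgroup) : Agr F (ε • W) W := fun y hy => by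
  rw [ValuationSubring.mem_pointwise_smul_iff_inv_smul_mem, AlgEquiv.smul_def,
    fix_apply (inv_mem hε) hy]

lemma mem_map {E : IntermediateField k Ω} {δ : Aut k Ω} {y : Ω} :
    y ∈ E.map (δ : Ω →ₐ[k] Ω) ↔ δ⁻¹ y ∈ E := by
  rw [IntermediateField.mem_map]
  refine ⟨?_, fun h => ⟨_, h, δ.apply_symm_apply y⟩⟩
  rintro ⟨z, hz, rfl⟩
  have : δ⁻¹ ((δ : Ω →ₐ[k] Ω) z) = z := δ.symm_apply_apply z
  rwa [this]

lemma fix_map {E : IntermediateField k Ω} {δ γ : Aut k Ω} :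
    γ ∈ (E.map (δ : Ω →ₐ[k] Ω)).fixingSubgroup ↔ δ⁻¹ * γ * δ ∈ E.fixingSubgroup := by
  simp only [IntermediateField.mem_fixingSubgroup_iff]
  refine ⟨fun h y hy => ?_, fun h y hy => ?_⟩
  · rw [AlgEquiv.mul_apply, AlgEquiv.mul_apply, h (δ y) ⟨y, hy, rfl⟩]
    exact δ.symm_apply_apply y
  · obtain ⟨z, hz, rfl⟩ := hy
    have := congrArg δ (h z hz)
    rw [AlgEquiv.mul_apply, AlgEquiv.mul_apply] at this
    exact (δ.apply_symm_apply _).symm.trans this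

lemma rep_conj {G : Type} [Group G] {Δ Δ' : Subgroup (Aut k Ω)} {ρ : Aut k Ω → G} (h : IsRep Δ ρ)
    (δ : Aut k Ω) (hΔ : ∀ γ ∈ Δ', δ⁻¹ * γ * δ ∈ Δ) : IsRep Δ' fun γ => ρ (δ⁻¹ * γ * δ) := by
  classical
  refine ⟨fun γ hγ γ' hγ' => ?_, ?_⟩
  · rw [← h.mul _ (hΔ γ hγ) _ (hΔ γ' hγ')]
    congr 1
    group
  · obtain ⟨S, hS⟩ := h.cts
    refine ⟨S.image δ, fun γ hγ γ' hγ' e => hS _ (hΔ γ hγ) _ (hΔ γ' hγ') fun s hs => ?_⟩
    simp only [AlgEquiv.mul_apply]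
    rw [e _ (Finset.mem_image_of_mem _ hs)]

/-- Two roots whose powers differ by a constant have the same Kummer character. -/
lemma kum [IsAlgClosed k] {q q' z : Ω} {M : ℕ} (hM : M ≠ 0) {e : k} (h0 : q' ≠ 0)
    (he : q ^ M = algebraMap k Ω e * q' ^ M) {γ δ : Aut k Ω} (hγ : γ (q' ^ M) = q' ^ M)
    (hδ : δ (q' ^ M) = q' ^ M) (h : (δ⁻¹ * γ * δ) q' = z * q') : γ q = z * q := by
  have h1 : IsIntegral k (q / q') := IsIntegral.of_pow (Nat.pos_of_ne_zero hM) (by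
    rw [div_pow, he, mul_div_cancel_right₀ _ (pow_ne_zero M h0)]
    exact isIntegral_algebraMap)
  obtain ⟨c, hc⟩ := minpoly.mem_range_of_degree_eq_one k _
    (IsAlgClosed.degree_eq_one_of_irreducible k (minpoly.irreducible h1))
  have h2 : q = algebraMap k Ω c * q' := by rw [hc, div_mul_cancel₀ _ h0]
  rw [LOC.conj_q hM hγ hδ] at h
  rw [h2, map_mul, AlgEquiv.commutes, h]
  ring

end One

end G0A

open G0A in
theorem blockG0A (hPDX : StmtPDX) (hFRX : StmtFRX) (hFRL1 : StmtFRL1) (hAPXF : StmtAPXF)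
    (hASG : StmtASG) : StmtG0A := by
  intro p _ k Ω _ _ _ _ _ _ F π qπ x qx M ω J _ W V G B B' _ _ _ _ inc φ a β b c h
  obtain ⟨𝕜, Ω', i1, i2, i3, i4, i5, i6, i7, i8, ν, σ, E0, E1, E2, O, hν, px⟩ := hPDX p k
  have : CharP 𝕜 p := charP_of_injective_algebraMap (algebraMap k 𝕜).injective p
  have : Finite B' := Finite.of_surjective φ h.onto
  have hM : M ≠ 0 := fun e => h.hM (e ▸ dvd_zero p)
  obtain ⟨t, t0, t1⟩ := px.bas.small
  have t0' : algebraMap 𝕜 Ω' t ≠ 0 := (_root_.map_ne_zero _).2 t0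
  obtain ⟨H, _, _, τ, rτ, -, kτ⟩ := fb1.core p k Ω F π h.fs B' a h.ra {qπ}
  obtain ⟨-, hin⟩ := hFRX.inner k 𝕜 Ω Ω' σ E0 E1 E2 O px.bas t t0 t1
  obtain ⟨ι, hι⟩ := (hin π h.fs.co).1
  choose ι' hι' using fun j => (hin x h.co).2 (V j) (h.plV j).1 (h.plV j).2
  choose δ hδ ε hε hτε ov using fun j => hFRX.frame p k 𝕜 Ω Ω' σ E0 E1 E2 O px.bas t t0 t1 π ι
    h.fs.co hι H τ rτ (W j) (h.pl j) (h.un j).2.2.1
  have εF : ∀ j, ε j ∈ F.fixingSubgroup := fun j => (kτ _ (hε j) (hτε j)).1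
  have fr : Fr σ E2 O ι t F π (fun j => ε j • W j) δ :=
    ⟨h.fs, t0, t1, hι, fun j => (found.bas.smulPl k Ω _ (h.pl j) _).1,
      fun j => FB2.unif_agr (h.un j) (agr_smul (εF j)),
      fun i j e => h.ne i j fun y hy =>
        (agr_smul (εF i) y hy).symm.trans ((e y hy).trans (agr_smul (εF j) y hy)), hδ, ov⟩
  obtain ⟨f1, f2, f3, -, -, f6, f7, -⟩ := hFRL1 p k 𝕜 Ω Ω' σ E0 E1 E2 O px ι t F π J _ δ fr
  have σ0 : σ ∈ E0 := px.bas.le1 px.bas.mem1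
  have eι' : ∀ j, ι' j x = σ * algebraMap 𝕜 Ω' t⁻¹ := fun j => by
    rw [map_inv₀, ← (hι' j).1, mul_inv_cancel_right₀ t0']
  have gam : ∀ j, ∀ γ ∈ Gam 𝕜 σ, γ ∈ Gam 𝕜 (ι' j x) := fun j γ hγ => by
    rw [mem_Gam] at hγ ⊢
    rw [eι', map_mul, hγ, AlgEquiv.commutes]
  have le0 : ∀ j, E0.fixingSubgroup ≤ Gam 𝕜 (ι' j x) := fun j γ hγ => gam j γ (fix_le_Gam σ0 hγ)
  have dec : ∀ j, ∀ γ ∈ E0.fixingSubgroup, res 𝕜 (ι' j) γ ∈ Dec k x (V j) := fun j γ hγ => by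
    have e : O.comap (ι' j).toRingHom = V j := ValuationSubring.ext _ _ (hι' j).2
    have h1 := rx.smul k 𝕜 Ω Ω' (ι' j) x h.co γ (le0 j hγ) O
    rw [show γ • O = O from px.bas.dec hγ, e] at h1
    exact mem_Dec.2 ⟨(rx.mul k 𝕜 Ω Ω' (ι' j) x h.co).2.1 γ (le0 j hγ), h1.symm⟩
  have leπ : (Ext 𝕜 ι F).fixingSubgroup ≤ Gam 𝕜 (ι π) := fix_le_Gam (mem_Ext ι h.fs.mem)
  obtain ⟨α, rα, lift, agree, unr⟩ := hASG p 𝕜 Ω' (Ext 𝕜 ι F) σ f1 J
    (fun j => E0.map (δ j : Ω' →ₐ[𝕜] Ω')) (fun j => δ j • O)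
    (fun U => σ ∈ U ∧ ∀ j, ¬ InD 𝕜 σ O ι F (ε j • W j) U)
    (fun j y hy => mem_map.2 (f7 j y hy))
    (fun j γ hγ => by
      have h1 : ((δ j)⁻¹ * γ * δ j) • O = O := px.bas.dec (fix_map.1 hγ)
      rw [mul_smul, mul_smul, inv_smul_eq_iff] at h1
      exact h1)
    (fun e T he => by
      obtain ⟨e', h1, h2, h3⟩ := hAPXF p k 𝕜 Ω Ω' σ E0 E1 E2 O px ι t F π J _ δ fr e T
        fun j => mem_map.1 (he j)
      exact ⟨e', h1, h2, fun U hU hP => h3 U hU hP.1 hP.2⟩)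
    (fun U hU => hU.1) B B' φ h.onto h.ker (fun γ => a (res 𝕜 ι γ))
    (rx.rep k 𝕜 Ω Ω' ι π h.fs.co _ _ leπ
      (fun γ hγ => (rx.fix k 𝕜 Ω Ω' ι F π h.fs.co h.fs.mem γ (leπ hγ)).1 hγ) B' a h.ra)
    (fun j γ => b j (res 𝕜 (ι' j) ((δ j)⁻¹ * γ * δ j)))
    (fun j => rep_conj (rx.rep k 𝕜 Ω Ω' (ι' j) x h.co _ _ (le0 j) (dec j) B (b j) (h.rb j)) (δ j)
      fun γ hγ => fix_map.1 hγ)
    (fun j γ hγ => by
      have g0 := fix_map.1 hγ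
      have d0 := dec j _ g0
      obtain ⟨i, hi⟩ := LOC.expo (q := qx) (γ := res 𝕜 (ι' j) ((δ j)⁻¹ * γ * δ j)) h.prim
        (Nat.pos_of_ne_zero hM) (by rw [h.e2]; exact (mem_Dec.1 d0).1)
      have h1 := h.lb j _ d0 i hi
      have h2 := f6 j _ g0
      rw [show δ j * ((δ j)⁻¹ * γ * δ j) * (δ j)⁻¹ = γ by group] at h2
      have h3 := loc.lamA k Ω F B' a h.ra (W j) qπ M ω (c j) (Nat.pos_of_ne_zero hM)
        (fun e => h.fs.co.ne_zero (by rw [← h.e1, e, zero_pow hM])) (h.e1 ▸ h.fs.mem) (h.la j)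
        (ε j) (εF j)
      rw [(kτ _ (hε j) (hτε j)).2.1, one_mul, inv_one, mul_one] at h3
      have δσ : δ j ∈ Gam 𝕜 σ := fix_le_Gam px.bas.mem2 (hδ j)
      have γσ : γ ∈ Gam 𝕜 σ := by
        have := mul_mem (mul_mem δσ (fix_le_Gam σ0 g0)) (inv_mem δσ)
        rwa [show δ j * ((δ j)⁻¹ * γ * δ j) * (δ j)⁻¹ = γ by group] at this
      have e2 : ι' j qx ^ M = ι' j x := by rw [← map_pow, h.e2]
      have h4 : γ (ι qπ) = ι (algebraMap k Ω ω ^ i) * ι qπ := by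
        refine kum (q' := ι' j qx) (e := t * t) (δ := δ j) hM ?_ ?_ ?_ ?_ ?_
        · intro e
          rw [e, zero_pow hM, eq_comm, _root_.map_eq_zero] at e2
          exact h.co.ne_zero e2
        · rw [e2, ← map_pow, h.e1, hι, ← (hι' j).1, map_mul]
          ring
        · rw [e2]; exact gam j γ γσ
        · rw [e2]; exact gam j _ δσ
        · rw [← found.res.spec k 𝕜 Ω Ω' x h.co (ι' j) _ (le0 j g0), hi]
          simp
      refine h1.trans (h3 _ h2 i (ι.injective ?_)).symm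
      change ι _ = ι _
      rw [found.res.spec k 𝕜 Ω Ω' π h.fs.co ι γ (f3 ▸ γσ : γ ∈ Gam 𝕜 (ι π)), h4, map_mul])
  choose v hv ag using agree
  refine ⟨𝕜, Ω', i1, i2, i3, i4, i5, i6, i7, i8, ν, H, inferInstance, inferInstance, τ, σ, E0, E1,
    E2, O, ι, t, ε, δ, ι', α, v, hν, px, rτ, fun γ hγ e => ?_, fun j => ⟨hε j, hτε j⟩, fr, hι', rα,
    lift, hv, fun j γ hγ => ?_, fun U hU h1 h2 h3 γ hγ => ?_⟩
  · obtain ⟨h1, h2, h3⟩ := kτ γ hγ e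
    exact ⟨h1, h2, h3 _ (Finset.mem_singleton_self _)⟩
  · have e : (δ j)⁻¹ * (δ j * γ * (δ j)⁻¹) * δ j = γ := by group
    have := ag j (δ j * γ * (δ j)⁻¹) (fix_map.2 (by rwa [e]))
    rwa [e] at this
  · exact unr U hU ⟨h1, h2⟩ (fun γ hγ => ⟨1, (Fact.out : p.Prime).not_dvd_one,
      by rw [pow_one]; exact h3 γ hγ⟩) γ hγ (h3 γ hγ)

end Pool.Agent.Lib.IW2
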