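import Pool.Agent.Lib.IW2.All1
import Pool.Agent.Lib.IW2.Blue3

/-! The gluing theorem over the small constant field, by specialisation. -/

open Polynomial IntermediateField
open scoped Pointwise

namespace Pool.Agent.Lib.IW2

open Pool.Agent.Lib.IW

namespace GLUE

section One

variable {K Ω : Type} [Field K] [Field Ω] [Algebra K Ω]

lemma lt_iff (U : ValuationSubring Ω) {y : Ω} (hy : y ≠ 0) : U.valuation y < 1 ↔ y⁻¹ ∉ U := by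
  rw [← ValuationSubring.mem_nonunits_iff, ValuationSubring.mem_nonunits_iff_or]
  exact or_iff_right hy

lemma eq_one_iff (U : ValuationSubring Ω) {y : Ω} :
    U.valuation y = 1 ↔ y ∈ U ∧ ¬ U.valuation y < 1 := by
  rw [← U.valuation_le_one_iff, not_lt, le_antisymm_iff]

lemma const_val {U : ValuationSubring Ω} (hU : IsPl K U) {c : K} (hc : c ≠ 0) :
    U.valuation (algebraMap K Ω c) = 1 := by
  rw [eq_one_iff, lt_iff U ((_root_.map_ne_zero _).2 hc), not_not, ← map_inv₀]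
  exact ⟨hU.2 _, hU.2 _⟩

lemma co_div {x y : Ω} {c : K} (e : x * algebraMap K Ω c = y) (h : Co K y) :
    Co K x :=
  found.bas.coOf K Ω y x h fun hx => h.tr (e ▸ hx.mul (isAlgebraic_algebraMap c))

lemma fix_div {x y : Ω} {c : K} (hc : c ≠ 0) (e : x * algebraMap K Ω c = y) {γ : Aut K Ω} :
    γ x = x ↔ γ y = y := by
  rw [← e, map_mul, AlgEquiv.commutes, mul_left_inj' ((_root_.map_ne_zero _).2 hc)]

lemma alg_fixed [IsAlgClosed K] {y : Ω} {M : ℕ} (hM : 0 < M) {c : K}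
    (h : y ^ M = algebraMap K Ω c) (γ : Aut K Ω) : γ y = y := by
  have h1 : IsIntegral K y := IsIntegral.of_pow hM (h ▸ isIntegral_algebraMap)
  obtain ⟨c, rfl⟩ := minpoly.mem_range_of_degree_eq_one K y
    (IsAlgClosed.degree_eq_one_of_irreducible K (minpoly.irreducible h1))
  exact γ.commutes c

lemma sep_root {π q : Ω} {M : ℕ} (h : π ≠ 0) (hM : (M : K) ≠ 0) (e : q ^ M = π) :
    IsSeparable K⟮π⟯ q := by
  refine (separable_X_pow_sub_C (n := M) (AdjoinSimple.gen K π) ?_ ?_).of_dvd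
    (minpoly.dvd _ _ (by simp [e]))
  · rw [← map_natCast (algebraMap K K⟮π⟯)]
    exact (_root_.map_ne_zero _).2 hM
  · exact fun t => h (congrArg Subtype.val t)

/-- A separating function whose poles are the bad places. -/
lemma exU (p : ℕ) [Fact p.Prime] [IsAlgClosed K] [CharP K p] [IsAlgClosed Ω]
    {F : IntermediateField K Ω} {π : Ω} (h : FS F π) {J : Type} [Finite J]
    {W : J → ValuationSubring Ω} (hW : ∀ j, IsPl K (W j)) {G : Type} [Group G] [Finite G]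
    {a : Aut K Ω → G} (ha : IsRep F.fixingSubgroup a) :
    ∃ u, FS F u ∧ ∀ U, IsPl K U →
      (u ∈ U ↔ π ∈ U ∧ Triv a (DecF F U) ∧ ∀ j, ¬ Agr F U (W j)) := by
  classical
  have := Fintype.ofFinite J
  obtain ⟨T1, a1, -, a3⟩ := found.unif.fin K Ω F h.ff π h.mem
  obtain ⟨T2, b1, -, b3⟩ := fb1.finx p K Ω F h.ff G a ha
  obtain ⟨u, hu, hu'⟩ := pi.pi2 p K Ω F h.ff (T1 ∪ T2 ∪ Finset.univ.image W) (by
      obtain ⟨V, h1, h2⟩ := found.bas.exInf K Ω π h.co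
      obtain ⟨V', h3, -⟩ := a3 V h1 h2
      exact ⟨V', by simp [h3]⟩) (by
      intro V hV
      simp only [Finset.mem_union, Finset.mem_image, Finset.mem_univ, true_and] at hV
      rcases hV with (hV | hV) | ⟨j, rfl⟩
      exacts [(a1 V hV).1, (b1 V hV).1, hW j])
  refine ⟨u, hu, fun U hU => ⟨fun hm => ?_, fun ⟨h1, h2, h3⟩ => ?_⟩⟩
  · have hn : ∀ V ∈ T1 ∪ T2 ∪ Finset.univ.image W, ¬ Agr F U V := fun V hV hA =>
      (hu' U hU).2 ⟨V, hV, hA⟩ hm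
    refine ⟨by_contra fun hc => ?_, by_contra fun hc => ?_, fun j => hn _ (by simp)⟩
    · obtain ⟨V, h1, h2⟩ := a3 U hU hc
      exact hn V (by simp [h1]) h2
    · obtain ⟨V, h1, h2⟩ := b3 U hU hc
      exact hn V (by simp [h1]) h2
  · by_contra hc
    obtain ⟨V, hV, hA⟩ := (hu' U hU).1 hc
    simp only [Finset.mem_union, Finset.mem_image, Finset.mem_univ, true_and] at hV
    rcases hV with (hV | hV) | ⟨j, rfl⟩
    · exact (a1 V hV).2 ((hA π h.mem).1 h1)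
    · exact (b1 V hV).2 (fb1.trivA K Ω F h.ff G a ha U V hA h2)
    · exact h3 j hA

/-- A finite quotient that records the action on a root of the coordinate. -/
lemma exChi (p : ℕ) [Fact p.Prime] [IsAlgClosed K] [CharP K p] {x q : Ω} {M : ℕ} {ω : K}
    (hx : Co K x) (hM : ¬ p ∣ M) (hω : IsPrimitiveRoot ω M) (e : q ^ M = x) :
    ∃ (R : Type) (_ : Group R) (_ : Finite R) (χ : Aut K Ω → R), IsRep (Gam K x) χ ∧
      ∀ γ ∈ Gam K x, ∀ γ' ∈ Gam K x, χ γ = χ γ' → γ q = γ' q := by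
  have hM0 : 0 < M := Nat.pos_of_ne_zero fun h => hM (h ▸ dvd_zero p)
  have : NeZero M := ⟨hM0.ne'⟩
  obtain ⟨χ, h1, h2, -⟩ := loc.kum p K Ω x hx x q M ω hM hω hx.ne_zero e (rootsOfUnity M K)
    hω.toRootsOfUnity (Subtype.ext hω.toRootsOfUnity.2)
  refine ⟨rootsOfUnity M K, inferInstance, inferInstance, χ, h1, fun γ hγ γ' hγ' h => ?_⟩
  obtain ⟨i, hi⟩ := loc.expo K Ω q M ω hω hM0 γ (by rw [e]; exact hγ)
  obtain ⟨i', hi'⟩ := loc.expo K Ω q M ω hω hM0 γ' (by rw [e]; exact hγ')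
  rw [h2 γ hγ i hi, h2 γ' hγ' i' hi'] at h
  have h3 : ω ^ i = ω ^ i' := by
    simpa using congrArg (fun z : rootsOfUnity M K => ((z : Kˣ) : K)) h
  rw [hi, hi', ← map_pow, ← map_pow, h3]

end One

section Two

variable {k 𝕜 Ω Ω' : Type} [Field k] [Field 𝕜] [Field Ω] [Field Ω'] [Algebra k 𝕜] [Algebra k Ω]
  [Algebra k Ω'] [Algebra 𝕜 Ω'] [IsScalarTower k 𝕜 Ω']

lemma coExt {ι : Ω →ₐ[k] Ω'} {F : IntermediateField k Ω} {u π : Ω} (hu : FS F u) (hπ : π ∈ F)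
    (h : Co 𝕜 (ι π)) : Co 𝕜 (ι u) := by
  refine found.bas.coOf 𝕜 Ω' _ _ h fun ha => h.tr ?_
  have h1 := rx.sep k 𝕜 Ω Ω' ι _ π (hu.sep π hπ)
  rw [rx.ext1, Set.image_singleton] at h1
  have : Algebra.IsAlgebraic 𝕜 𝕜⟮ι u⟯ :=
    isAlgebraic_adjoin_simple ha.isIntegral
  exact h1.isIntegral.isAlgebraic.restrictScalars 𝕜

variable [IsAlgClosed Ω]

lemma res_fix {ι : Ω →ₐ[k] Ω'} {F : IntermediateField k Ω} {π : Ω} (h : FS F π)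
    {δ : Aut 𝕜 Ω'} (hδ : δ ∈ (Ext 𝕜 ι F).fixingSubgroup) : res 𝕜 ι δ ∈ F.fixingSubgroup :=
  (rx.fix k 𝕜 Ω Ω' ι F π h.co h.mem δ (fix_apply hδ (mem_Ext ι h.mem))).1 hδ

lemma key {ι : Ω →ₐ[k] Ω'} {F : IntermediateField k Ω} {π : Ω} (h : FS F π) {G : Type} [Group G]
    {a : Aut k Ω → G} {f : G → Ω} (hf : Alg F a f) (hi : Function.Injective f) {γ : Aut k Ω}
    (hγ : γ ∈ F.fixingSubgroup) {δ : Aut 𝕜 Ω'} (hδ : δ ∈ (Ext 𝕜 ι F).fixingSubgroup)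
    (e : ι (γ (f 1)) = δ (ι (f 1))) : a (res 𝕜 ι δ) = a γ := by
  rw [← found.res.spec k 𝕜 Ω Ω' π h.co ι δ (fix_apply hδ (mem_Ext ι h.mem)), hf.2 γ hγ,
    hf.2 _ (res_fix h hδ)] at e
  simpa using (hi (ι.injective e)).symm

variable [IsAlgClosed 𝕜]

lemma above {ι : Ω →ₐ[k] Ω'} {F : IntermediateField k Ω} {π u : Ω} (h : FS F π)
    (hc : Co 𝕜 (ι π)) {G : Type} [Group G] {a : Aut k Ω → G} (ha : IsRep F.fixingSubgroup a)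
    (hu : ∀ V, IsPl k V → u ∈ V → π ∈ V ∧ Triv a (DecF F V)) {U : ValuationSubring Ω'}
    (hU : IsPl 𝕜 U) (hm : ι u ∈ U) :
    ι π ∈ U ∧ Triv (fun γ => a (res 𝕜 ι γ)) (DecF (Ext 𝕜 ι F) U) := by
  have hd : ∀ γ ∈ DecF (Ext 𝕜 ι F) U, γ ∈ Dec 𝕜 (ι π) U := fun γ hγ =>
    ⟨fix_apply hγ.1 (mem_Ext ι h.mem), hγ.2⟩
  rcases rx.plc k 𝕜 Ω Ω' ι π h.co hc U hU with ⟨h1, h2⟩ | ⟨h1, -, h3⟩
  · refine ⟨h1 π, fun γ hγ => ?_⟩
    beta_reduce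
    rw [h2 γ (hd γ hγ), ha.one]
  · obtain ⟨h4, h5⟩ := hu _ h1 hm
    exact ⟨h4, fun γ hγ => h5 _ ⟨res_fix h hγ.1, (h3 γ (hd γ hγ)).2⟩⟩

lemma unr {ι : Ω →ₐ[k] Ω'} {x : Ω} (hx : Co k x) (hc : Co 𝕜 (ι x)) {G : Type} [Group G]
    {β : Aut k Ω → G} (hβ : IsRep (Gam k x) β) (hu : UnrG x β) {U : ValuationSubring Ω'}
    (hU : IsPl 𝕜 U) (hv : U.valuation (ι x) = 1) {γ : Aut 𝕜 Ω'} (hγ : γ ∈ Dec 𝕜 (ι x) U) :
    β (res 𝕜 ι γ) = 1 := by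
  rcases rx.plc k 𝕜 Ω Ω' ι x hx hc U hU with ⟨-, h2⟩ | ⟨h1, h2, h3⟩
  · rw [h2 γ hγ, hβ.one]
  · rw [eq_one_iff] at hv
    exact hu _ h1 ((eq_one_iff _).2 ⟨hv.1, fun t => hv.2 ((h2 x).1 t)⟩) _ (h3 γ hγ)

/-- Comparison of the decomposition groups at a zero of the coordinate. -/
lemma cmp (p : ℕ) [Fact p.Prime] [IsAlgClosed k] [CharP k p] [IsAlgClosed Ω'] {ι : Ω →ₐ[k] Ω'}
    {x q : Ω} {M : ℕ} {ω : k} (hx : Co k x) (hc : Co 𝕜 (ι x)) (hM : ¬ p ∣ M)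
    (hω : IsPrimitiveRoot ω M) (e : q ^ M = x) {G : Type} [Group G] [Finite G]
    {β : Aut k Ω → G} (hβ : IsRep (Gam k x) β) {U : ValuationSubring Ω'} (hU : IsPl 𝕜 U)
    (hv : U.valuation (ι x) < 1) : ∃ V : ValuationSubring Ω, IsPl k V ∧ V.valuation x < 1 ∧
      (∀ γ ∈ Dec k x V, ∃ δ ∈ Dec 𝕜 (ι x) U, β (res 𝕜 ι δ) = β γ ∧ δ (ι q) = ι (γ q)) ∧
      ∀ δ ∈ Dec 𝕜 (ι x) U, ∃ γ ∈ Dec k x V, β (res 𝕜 ι δ) = β γ ∧ δ (ι q) = ι (γ q) := by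
  obtain ⟨R, _, _, χ, h1, h2⟩ := exChi p hx hM hω e
  have hun := found.bas.unifAt 𝕜 Ω' (ι x) hc.tr 0 U hU (by simpa using hv)
  rw [map_zero, sub_zero] at hun
  obtain ⟨h3, h4, h5⟩ := found.pull p k 𝕜 Ω Ω' x⁻¹ (co_inv found.bas hx) ι 𝕜⟮ι x⟯ hc.ff
    (by rw [map_inv₀]; exact inv_mem (mem_adjoin_simple_self 𝕜 _)) U hU (ι x) hun 1 one_pos
    (by rw [map_inv₀, pow_one, inv_mul_cancel₀ hc.ne_zero, map_one]) (G × R)
    (fun γ => (β γ, χ γ)) (by rw [Gam_inv]; exact hβ.prod h1) (Nat.coprime_one_left _)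
  have hD : Dec k x⁻¹ (U.comap ι.toRingHom) = Dec k x (U.comap ι.toRingHom) := by
    rw [Dec, Gam_inv, Dec]
  rw [DecF_adjoin, hD] at h5
  have hk : ∀ γ ∈ Dec k x (U.comap ι.toRingHom), ∀ δ ∈ Dec 𝕜 (ι x) U,
      (β (res 𝕜 ι δ), χ (res 𝕜 ι δ)) = (β γ, χ γ) →
        β (res 𝕜 ι δ) = β γ ∧ δ (ι q) = ι (γ q) := fun γ hγ δ hδ t => by
    refine ⟨congrArg Prod.fst t, ?_⟩
    rw [← found.res.spec k 𝕜 Ω Ω' x hx ι δ hδ.1,
      h2 _ ((rx.mul k 𝕜 Ω Ω' ι x hx).2.1 δ hδ.1) γ hγ.1 (congrArg Prod.snd t)]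
  refine ⟨_, h3, (lt_iff _ hx.ne_zero).2 h4, fun γ hγ => ?_, fun δ hδ => ?_⟩
  · obtain ⟨δ, hδ, t⟩ := h5.ge ⟨γ, hγ, rfl⟩
    exact ⟨δ, hδ, hk γ hγ δ hδ t⟩
  · obtain ⟨γ, hγ, t⟩ := h5.le ⟨δ, hδ, rfl⟩
    exact ⟨γ, hγ, hk γ hγ δ hδ t.symm⟩

omit [IsAlgClosed Ω] [Algebra k 𝕜] [IsScalarTower k 𝕜 Ω'] in
/-- The Kummer characters of the two roots agree. -/
lemma zeta {ι ι' : Ω →ₐ[k] Ω'} {x q π r : Ω} {M : ℕ} {ω : k} {c : 𝕜} (hx : x ≠ 0) (hπ : π ≠ 0)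
    (hM : 0 < M) (hω : IsPrimitiveRoot ω M) (e : q ^ M = x) (e' : r ^ M = π)
    (ec : ι' x * algebraMap 𝕜 Ω' c = ι π) {γ₁ γ : Aut k Ω} {δ : Aut 𝕜 Ω'} (h1 : γ₁ x = x)
    (h2 : δ (ι' q) = ι' (γ₁ q)) (h3 : ι (γ r) = δ (ι r)) (ζ : Ω) :
    γ₁ q = ζ * q ↔ γ r = ζ * r := by
  obtain ⟨i, hi⟩ := loc.expo k Ω q M ω hω hM γ₁ (by rw [e, h1])
  have hq : q ≠ 0 := fun t => hx (by rw [← e, t, zero_pow hM.ne'])
  have hr : r ≠ 0 := fun t => hπ (by rw [← e', t, zero_pow hM.ne'])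
  have hq' : ι' q ≠ 0 := (_root_.map_ne_zero _).2 hq
  have h4 : δ (ι r / ι' q) = ι r / ι' q := alg_fixed hM (c := c) (by
    rw [div_pow, ← map_pow, ← map_pow, e, e', ← ec,
      mul_div_cancel_left₀ _ ((_root_.map_ne_zero _).2 hx)]) δ
  have h5 : γ r = algebraMap k Ω ω ^ i * r := by
    apply ι.injective
    have h6 : δ (ι r) = δ (ι r / ι' q) * δ (ι' q) := by
      rw [← map_mul, div_mul_cancel₀ _ hq']
    change ι (γ r) = ι _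
    rw [h3, h6, h4, h2, hi, map_mul, map_mul, map_pow, map_pow, AlgHom.commutes, AlgHom.commutes]
    field_simp
  rw [hi, h5, mul_left_inj' hq, mul_left_inj' hr]

end Two

end GLUE

open GLUE in
theorem blockGLUE (h0 : StmtGLUE0) (hT : StmtTPX) : StmtGLUE := by
  intro p _ k Ω _ _ _ _ _ _ F π qπ x qx M ω J _ W V G B B' _ _ _ _ _ inc φ a β b c h hU
  classical
  obtain ⟨𝕜, Ω', _, _, _, _, _, _, _, _, ι, t, ρ', α, o⟩ :=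
    h0 p k Ω F π qπ x qx M ω J W V G B B' inc φ a β b c h
  have : Finite B' := Finite.of_surjective φ h.onto
  have hM0 : 0 < M := Nat.pos_of_ne_zero fun t => h.hM (t ▸ dvd_zero p)
  have ht : t * t ≠ 0 := mul_self_ne_zero.2 fun e => o.tr (e ▸ isAlgebraic_zero)
  obtain ⟨u, hu, hu'⟩ := exU p h.fs h.pl h.ra
  have huW : ∀ j, u ∉ W j := fun j m => ((hu' _ (h.pl j)).1 m).2.2 j fun _ _ => Iff.rfl
  have hov : ∀ U : ValuationSubring Ω', IsPl 𝕜 U → ι u ∈ U →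
      ι π ∈ U ∧ Triv (fun γ => a (res 𝕜 ι γ)) (DecF (Ext 𝕜 ι F) U) := fun U h1 h2 =>
    above h.fs o.co h.ra (fun V h3 h4 => ⟨((hu' V h3).1 h4).1, ((hu' V h3).1 h4).2.1⟩) h1 h2
  obtain ⟨f, hf, hi, -⟩ := exists_alg_inj p h.fs h.ra
  obtain ⟨U5, k1, k2, k3⟩ := o.h5
  choose UJ l1 l2 using o.ex
  obtain ⟨ρ, r1, r2, r3, r4⟩ := hT p k 𝕜 Ω Ω' ι F u hu (coExt hu h.fs.mem o.co) G ρ' o.rρ
    (fun U h1 h2 γ hγ => by
      obtain ⟨h3, h4⟩ := hov U h1 h2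
      rcases o.h1 U h1 with ⟨⟨g, h5⟩, h6⟩ | ⟨j, g, ι', h5, h6, -, -, h7⟩
      · rw [h5 γ hγ, h6 h3 h4 γ hγ, map_one, mul_one, inv_mul_cancel]
      · have h8 : U.valuation (ι π) = 1 :=
          (eq_one_iff U).2 ⟨h3, fun t => huW j ((h7 t u hu.mem).1 h2)⟩
        rw [← h5, map_mul, const_val h1 ht, mul_one] at h8
        rw [h6 γ hγ, unr h.co (co_div h5 o.co) (h.rβ j) (hU j) h1 h8
          ⟨(fix_div ht h5).2 (fix_apply hγ.1 (mem_Ext ι h.fs.mem)), hγ.2⟩, mul_one,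
          inv_mul_cancel])
    {qπ, f 1} (by
      intro s hs
      rcases Finset.mem_insert.1 hs with rfl | hs
      · exact sep_up (adjoin_simple_le_iff.2 h.fs.mem) (sep_root h.fs.co.ne_zero
          (fun t => h.hM ((CharP.cast_eq_zero_iff k p M).1 t)) h.e1)
      · rw [Finset.mem_singleton.1 hs]
        exact hf.1 1)
    (Option J) (fun i => i.elim U5 UJ) (by
      rintro (_ | j)
      · exact ⟨k1, fun m => k2 (hov _ k1 m).1⟩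
      · exact ⟨l1 j, fun m => huW j ((l2 j u hu.mem).1 m)⟩)
  refine ⟨ρ, r1, fun U h1 h2 h3 h4 => r2 U h1 ((hu' U h1).2 ⟨h2, h4, h3⟩), ?_, fun j => ?_,
    fun γ hγ => ?_, ?_⟩
  · intro j V₀ I h1 h2 h3
    obtain ⟨W', s1, s2, s3, s4⟩ := r4 (some j)
    change Ov ι F (UJ j) W' at s2
    change ∀ δ ∈ DecF (Ext 𝕜 ι F) (UJ j), _ at s3
    change ∀ γ ∈ DecF F W', ∃ δ ∈ DecF (Ext 𝕜 ι F) (UJ j), _ at s4
    obtain ⟨g, ι', e, hg⟩ := o.h2 j (UJ j) (l1 j) (l2 j)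
    have hc := co_div e o.co
    have hv : (UJ j).valuation (ι' x) < 1 := by
      have h4 : (UJ j).valuation (ι π) < 1 := by
        rw [lt_iff _ o.co.ne_zero, ← map_inv₀, l2 j _ (inv_mem h.fs.mem),
          ← lt_iff _ h.fs.co.ne_zero]
        exact (h.un j).2.2.1
      rwa [← e, map_mul, const_val (l1 j) ht, mul_one] at h4
    obtain ⟨V', v1, v2, v3, v4⟩ := cmp p h.co hc h.hM h.prim h.e2 (h.rβ j) (l1 j) hv
    obtain ⟨g0, hg0⟩ := loc.any k Ω k⟮x⟯ h.co.ff G (β j) (by rw [fix_adjoin]; exact h.rβ j) V₀ qx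
      M I hM0 (fun t => h.co.ne_zero (by rw [← h.e2, t, zero_pow hM0.ne']))
      (by rw [h.e2]; exact mem_adjoin_simple_self k x) h3 V'
      (found.bas.agrAt k Ω x h.co.tr 0 V' V₀ v1 h1 (by simpa using v2) (by simpa using h2))
    rw [DecF_adjoin] at hg0
    have hz : ∀ {γ₁ γ : Aut k Ω} {δ : Aut 𝕜 Ω'}, γ₁ x = x → δ (ι' qx) = ι' (γ₁ qx) →
        (∀ s ∈ ({qπ, f 1} : Finset Ω), ι (γ s) = δ (ι s)) → ∀ ζ,
          γ₁ qx = ζ * qx ↔ γ qπ = ζ * qπ := fun a1 a2 a3 =>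
      zeta h.co.ne_zero h.fs.co.ne_zero hM0 h.prim h.e2 h.e1 e a1 a2 (a3 _ (by simp))
    refine ⟨W', s1, fun y hy => (s2 y hy).symm.trans (l2 j y hy), g⁻¹ * g0, fun h' ζ => ?_⟩
    rw [hg0]
    constructor
    · rintro ⟨γ₁, a1, a2, a3⟩
      obtain ⟨δ, b1, b2, b3⟩ := v3 γ₁ a1
      obtain ⟨b4, b5⟩ := hg δ ⟨(fix_div ht e).1 b1.1, b1.2⟩
      obtain ⟨γ, c1, c2, c3⟩ := s3 δ ⟨b4, b1.2⟩
      refine ⟨γ, c1, ?_, (hz a1.1 b3 c3 ζ).1 a3⟩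
      rw [c2, b5, b2, a2]
      group
    · rintro ⟨γ, c1, a2, a3⟩
      obtain ⟨δ, b1, c2, c3⟩ := s4 γ c1
      have b6 : δ (ι π) = ι π := fix_apply b1.1 (mem_Ext ι h.fs.mem)
      obtain ⟨γ₁, a1, b2, b3⟩ := v4 δ ⟨(fix_div ht e).2 b6, b1.2⟩
      refine ⟨γ₁, a1, ?_, (hz a1.1 b3 c3 ζ).2 a3⟩
      rw [c2, (hg δ ⟨b6, b1.2⟩).2, b2] at a2
      calc β j γ₁ = g * (g⁻¹ * β j γ₁ * g) * g⁻¹ := by group
        _ = g0 * h' * g0⁻¹ := by rw [a2]; group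
  · obtain ⟨v, h1, h2⟩ := o.h3 j
    refine ⟨v, h1, fun γ hγ => ?_⟩
    obtain ⟨δ, h3, h4⟩ := h2 γ hγ
    obtain ⟨γ', h5, h6, -⟩ := r3 δ h3
    exact ⟨γ', h5, h6.trans h4⟩
  · obtain ⟨δ, h3, h4, h4'⟩ := o.h4 γ hγ
    obtain ⟨γ', h5, h6, -⟩ := r3 δ h3
    exact ⟨γ', h5, α δ, h6.trans h4, h4'⟩
  · obtain ⟨W', s1, s2, -, s4⟩ := r4 none
    refine ⟨W', s1, fun m => k2 ((s2 π h.fs.mem).2 m), fun γ hγ => ?_⟩
    obtain ⟨δ, b1, b2, b3⟩ := s4 γ hγ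
    exact ⟨α δ, b2.trans (k3 δ b1), (o.lift δ b1.1).trans
      (key h.fs hf hi hγ.1 b1.1 (b3 _ (by simp)))⟩

end Pool.Agent.Lib.IW2
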