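import Pool.Agent.Lib.IW2.Blue2

/-! Gauss points. -/

open Polynomial IntermediateField
open scoped Pointwise

namespace Pool.Agent.Lib.IW2

open Pool.Agent.Lib.IW

namespace GP1

lemma lin_ind {𝕜 : Type} [Field 𝕜] [IsAlgClosed 𝕜] (p : 𝕜[X] → Prop)
    (hm : ∀ P Q, p P → p Q → p (P * Q)) (hC : ∀ a, p (C a)) (hX : ∀ a, p (X - C a))
    (P : 𝕜[X]) : p P := by
  rw [(IsAlgClosed.splits P).eq_prod_roots]
  refine hm _ _ (hC _) (Multiset.prod_induction p _ hm (by simpa using hC 1) fun x hx => ?_)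
  obtain ⟨a, -, rfl⟩ := Multiset.mem_map.1 hx
  exact hX a

lemma gauss_lin {K : Type} [Field K] (v : AbsoluteValue K ℝ) {r : ℝ} (hr : 0 < r) (a : K) :
    (X - C a).gaussNorm v r = max r (v a) := by
  refine le_antisymm ?_ (max_le ?_ ?_)
  · obtain ⟨i, hi⟩ := exists_eq_gaussNorm v r (X - C a)
    rw [hi, coeff_sub, coeff_X, coeff_C]
    split_ifs with h1 h2 h2
    · omega
    · simp [← h1]
    · simp [h2]
    · simp [hr.le]
  · have := le_gaussNorm v (X - C a) hr.le 1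
    rwa [coeff_sub, coeff_X_one, coeff_C_succ, sub_zero, map_one, pow_one, one_mul] at this
  · have := le_gaussNorm v (X - C a) hr.le 0
    rwa [coeff_sub, coeff_X_zero, coeff_C_zero, zero_sub, v.map_neg, pow_zero, mul_one] at this

section
variable {Ω' : Type} [Field Ω'] {y : AbsoluteValue Ω' ℝ}

lemma add_lt (hy : IsNonarchimedean y) {a b : Ω'} (ha : y a < 1) (hb : y b < 1) :
    y (a + b) < 1 := (hy a b).trans_lt (max_lt ha hb)

lemma eq_one (hy : IsNonarchimedean y) {a b : Ω'} (ha : y a = 1) (hb : y (a - b) < 1) :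
    y b = 1 := by
  have h1 := hy a (-(a - b))
  have h2 := hy (a - b) b
  rw [y.map_neg, ha, neg_sub, add_sub_cancel, max_eq_left hb.le] at h1
  rw [sub_add_cancel, ha] at h2
  exact le_antisymm h1 ((le_max_iff.1 h2).resolve_left hb.not_ge)

lemma one_of_le {k : Type} [Field k] {ψ : k →+* Ω'} (h : ∀ c, y (ψ c) ≤ 1) {c : k}
    (hc : c ≠ 0) : y (ψ c) = 1 := by
  refine le_antisymm (h c) ?_
  have := h c⁻¹
  rwa [map_inv₀, map_inv₀, inv_le_one₀ (y.pos ((map_ne_zero ψ).2 hc))] at this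

lemma exball (hy : IsNonarchimedean y) : ∃ O : ValuationSubring Ω', IsBall y O :=
  ⟨{ carrier := {s | y s ≤ 1}
     mul_mem' := fun {a b} ha hb => by
      change y (a * b) ≤ 1
      rw [map_mul]
      exact mul_le_one₀ ha (y.nonneg _) hb
     add_mem' := fun {a b} ha hb => (hy a b).trans (max_le ha hb)
     one_mem' := (map_one y).le
     zero_mem' := by change y 0 ≤ 1; simp
     neg_mem' := fun {a} ha => (y.map_neg a).trans_le ha
     mem_or_inv_mem' := fun a => by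
      change y a ≤ 1 ∨ y a⁻¹ ≤ 1
      rw [map_inv₀]
      exact (le_total (y a) 1).imp_right inv_le_one_of_one_le₀ }, fun _ => Iff.rfl⟩

lemma val_le {O : ValuationSubring Ω'} (h : IsBall y O) (s s' : Ω') :
    O.valuation s ≤ O.valuation s' ↔ y s ≤ y s' := by
  rw [ValuationSubring.valuation_le_iff]
  constructor
  · rintro ⟨a, rfl⟩
    rw [map_mul]
    exact mul_le_of_le_one_left (y.nonneg _) ((h _).1 a.2)
  · intro hs
    by_cases e : s' = 0
    · rw [e, map_zero] at hs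
      exact ⟨0, by rw [y.eq_zero.1 (le_antisymm hs (y.nonneg _))]; simp⟩
    · refine ⟨⟨s / s', (h _).2 ?_⟩, div_mul_cancel₀ _ e⟩
      rw [map_div₀]
      exact div_le_one_of_le₀ hs (y.nonneg _)

lemma val_lt {O : ValuationSubring Ω'} (h : IsBall y O) (s : Ω') :
    O.valuation s < 1 ↔ y s < 1 := by
  have := val_le h 1 s
  rw [map_one, map_one] at this
  rw [← not_le, ← not_le, this]

lemma root_near {k : Type} [Field k] [IsAlgClosed k] {ψ : k →+* Ω'}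
    (h : ∀ c, y (ψ c) ≤ 1) {P : k[X]} (hP : P ≠ 0) {a : Ω'} (ha : y (P.eval₂ ψ a) < 1) :
    ∃ c, y (a - ψ c) < 1 := by
  by_contra! hcon
  rw [← eval_map, ((IsAlgClosed.splits P).map ψ).eval_eq_prod_roots,
    (IsAlgClosed.splits P).roots_map, leadingCoeff_map, map_mul,
    one_of_le h (leadingCoeff_ne_zero.2 hP), one_mul] at ha
  refine ha.not_ge (Multiset.prod_induction (fun x : Ω' => 1 ≤ y x) _ (fun x z hx hz => ?_)
    (by simp) fun x hx => ?_)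
  · rw [map_mul]
    exact one_le_mul_of_one_le_of_one_le hx hz
  · simp only [Multiset.mem_map] at hx
    obtain ⟨_, ⟨c, -, rfl⟩, rfl⟩ := hx
    exact hcon c

lemma res_up {k K : Type} [Field k] [IsAlgClosed k] [Field K] (hy : IsNonarchimedean y)
    {ψ : k →+* Ω'} (h1 : ∀ c, y (ψ c) ≤ 1) (j : K →+* Ω')
    (h2 : ∀ t, y (j t) ≤ 1 → ∃ c, y (j t - ψ c) < 1) {a : Ω'} (a1 : y a ≤ 1) {P : K[X]}
    (hP : P ≠ 0) (hPa : P.eval₂ j a = 0) : ∃ c, y (a - ψ c) < 1 := by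
  obtain ⟨m, hm, hmax⟩ :=
    P.support.exists_max_image (fun i => y (j (P.coeff i))) (support_nonempty.2 hP)
  have hm0 : P.coeff m ≠ 0 := mem_support_iff.1 hm
  have hle : ∀ i, y (j (P.coeff i / P.coeff m)) ≤ 1 := fun i => by
    rw [map_div₀, map_div₀]
    refine div_le_one_of_le₀ ?_ (y.nonneg _)
    by_cases hi : i ∈ P.support
    · exact hmax i hi
    · rw [notMem_support_iff.1 hi, map_zero, map_zero]; exact y.nonneg _
  choose c hc using fun i => h2 _ (hle i)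
  refine root_near h1 (P := ∑ i ∈ P.support, monomial i (c i)) (fun e => ?_) ?_
  · have e1 := congrArg (coeff · m) e
    simp only [finsetSum_coeff, coeff_monomial, Finset.sum_ite_eq', hm, if_true, coeff_zero] at e1
    have := hc m
    rw [e1, div_self hm0, map_zero, sub_zero, map_one, map_one] at this
    exact lt_irrefl _ this
  · have e : (∑ i ∈ P.support, monomial i (c i)).eval₂ ψ a =
        ∑ i ∈ P.support, -((j (P.coeff i / P.coeff m) - ψ (c i)) * a ^ i) := by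
      rw [eval₂_eq_sum, Polynomial.sum_def] at hPa
      simp only [eval₂_finsetSum, eval₂_monomial, map_div₀, sub_mul, neg_sub,
        Finset.sum_sub_distrib, div_mul_eq_mul_div, ← Finset.sum_div, hPa, zero_div, sub_zero]
    rw [e]
    refine Finset.sum_induction _ (fun x : Ω' => y x < 1) (fun x z => add_lt hy) (by simp)
      fun i _ => ?_
    rw [y.map_neg, map_mul, map_pow]
    exact (mul_le_of_le_one_right (y.nonneg _) (pow_le_one₀ (y.nonneg _) a1)).trans_lt (hc i)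

end

section
variable {𝕜 Ω' : Type} [Field 𝕜] [IsAlgClosed 𝕜] [Field Ω'] [Algebra 𝕜 Ω']
  {ν : AbsoluteValue 𝕜 ℝ} {y y' : AbsoluteValue Ω' ℝ} {σ : Ω'} {r : ℝ}

lemma eq_gauss (hν : IsNonarchimedean ν) (h : GR ν y σ r) (hr : 0 < r) (P : 𝕜[X]) :
    y (aeval σ P) = P.gaussNorm ν r := by
  induction P using lin_ind with
  | hm P Q hP hQ => rw [map_mul, map_mul, hP, hQ, gaussNorm_mul hν hr]
  | hC a => rw [aeval_C, h.ext, gaussNorm_C]
  | hX a => rw [map_sub, aeval_X, aeval_C, h.gau, gauss_lin ν hr]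

lemma eq_poly (h : GR ν y σ r) (h' : GR ν y' σ r) (P : 𝕜[X]) :
    y (aeval σ P) = y' (aeval σ P) := by
  induction P using lin_ind with
  | hm P Q hP hQ => rw [map_mul, map_mul, map_mul, hP, hQ]
  | hC a => rw [aeval_C, h.ext, h'.ext]
  | hX a => rw [map_sub, aeval_X, aeval_C, h.gau, h'.gau]

lemma eq_rat (h : GR ν y σ r) (h' : GR ν y' σ r) {a : Ω'} (ha : a ∈ 𝕜⟮σ⟯) : y a = y' a := by
  obtain ⟨P, Q, rfl⟩ := (mem_adjoin_simple_iff 𝕜 _).1 ha
  rw [map_div₀, map_div₀, eq_poly h h', eq_poly h h']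

omit [IsAlgClosed 𝕜] in
lemma scale (h : GR ν y σ r) {c : 𝕜} (hc : c ≠ 0) (hr : ν c = r) {u : Ω'}
    (hu : u * algebraMap 𝕜 Ω' c = σ) : GR ν y u 1 := by
  refine ⟨h.na, h.ext, fun a => ?_⟩
  have h0 : 0 < ν c := ν.pos hc
  have := h.gau (a * c)
  rw [← hu, map_mul, ← sub_mul, map_mul, h.ext, map_mul, ← hr] at this
  apply mul_right_cancel₀ h0.ne'
  rw [this, max_mul_of_nonneg _ _ h0.le, one_mul]

end

lemma exg (k 𝕜 Ω' : Type) [Field k] [Field 𝕜] [Field Ω']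
    [Algebra k 𝕜] [Algebra 𝕜 Ω'] (ν : AbsoluteValue 𝕜 ℝ) (hν : Big k ν) (σ : Ω') (hσ : Co 𝕜 σ)
    (r : ℝ) (hr : 0 < r) : ∃ y : AbsoluteValue Ω' ℝ, GR ν y σ r := by
  obtain ⟨Q, _, _, _, f, s, h1, -⟩ := Khat.gauss 𝕜 ν hν.na hr
  have hf : ∀ a, ‖f a‖ = ν a := fun a => by
    have := h1 (C a)
    rwa [eval₂_C, gaussNorm_C] at this
  obtain ⟨t, ht⟩ := hν.onto (1 / 2) (by norm_num)
  have t0 : f t ≠ 0 := norm_pos_iff.1 (by rw [hf, ht]; norm_num)
  obtain ⟨L, _, _, _, j, hj, -⟩ := Khat.spec Q t0 (by rw [hf, ht]; norm_num)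
  let _ := (j.comp f).toAlgebra
  have he : ∀ P : 𝕜[X], ‖aeval (j s) P‖ = P.gaussNorm ν r := fun P => by
    rw [← h1, ← hj, hom_eval₂]; rfl
  have htr : Transcendental 𝕜 (j s) := by
    rintro ⟨P, hP, e⟩
    have := he P
    rw [e, norm_zero] at this
    exact hP ((gaussNorm_eq_zero_iff ν P (fun _ h => ν.eq_zero.1 h) hr).1 this.symm)
  obtain ⟨κ, hκ⟩ := found.bas.exEmb 𝕜 Ω' L σ (j s) hσ htr
  let y : AbsoluteValue Ω' ℝ :=
    { toFun := fun a => ‖κ a‖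
      map_mul' := fun a b => by rw [map_mul, norm_mul]
      nonneg' := fun a => norm_nonneg _
      eq_zero' := fun a => by rw [norm_eq_zero, map_eq_zero]
      add_le' := fun a b => by rw [map_add]; exact norm_add_le _ _ }
  have hy : ∀ a, y a = ‖κ a‖ := fun _ => rfl
  refine ⟨y, fun a b => ?_, fun a => ?_, fun a => ?_⟩
  · rw [hy, hy, hy, map_add]
    exact IsUltrametricDist.norm_add_le_max _ _
  · have := he (C a)
    rw [aeval_C, gaussNorm_C] at this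
    rw [hy, κ.commutes, this]
  · have := he (X - C a)
    rw [map_sub, aeval_X, aeval_C, gauss_lin ν hr] at this
    rw [hy, map_sub, κ.commutes, hκ, this]

section
variable {k 𝕜 Ω Ω' : Type} [Field k] [Field 𝕜] [IsAlgClosed 𝕜] [Field Ω]
  [Field Ω'] [Algebra k 𝕜] [Algebra k Ω] [Algebra k Ω'] [Algebra 𝕜 Ω']
  [IsScalarTower k 𝕜 Ω'] {ν : AbsoluteValue 𝕜 ℝ} {y : AbsoluteValue Ω' ℝ} {x : Ω}
  {ι : Ω →ₐ[k] Ω'}

lemma poly_one (hν : Big k ν) (h : GR ν y (ι x) 1) {P : k[X]} (hP : P ≠ 0) :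
    y (ι (aeval x P)) = 1 := by
  rw [← aeval_algHom_apply, ← aeval_map_algebraMap 𝕜, eq_gauss hν.na h one_pos]
  refine le_antisymm ?_ ?_
  · obtain ⟨i, hi⟩ := exists_eq_gaussNorm ν 1 (P.map (algebraMap k 𝕜))
    rw [hi, one_pow, mul_one, coeff_map]
    exact hν.const _
  · have := le_gaussNorm ν (P.map (algebraMap k 𝕜)) zero_le_one P.natDegree
    rwa [one_pow, mul_one, coeff_map, coeff_natDegree,
      one_of_le hν.const (leadingCoeff_ne_zero.2 hP)] at this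

lemma rat_le (hν : Big k ν) (h : GR ν y (ι x) 1) {t : Ω} (ht : t ∈ k⟮x⟯) : y (ι t) ≤ 1 := by
  obtain ⟨P, Q, rfl⟩ := (mem_adjoin_simple_iff k _).1 ht
  by_cases hP : P = 0
  · simp [hP]
  by_cases hQ : Q = 0
  · simp [hQ]
  rw [map_div₀, map_div₀, poly_one hν h hP, poly_one hν h hQ, div_one]

lemma all_le (hν : Big k ν) (h : GR ν y (ι x) 1) (hx : Co k x) (s : Ω) : y (ι s) ≤ 1 := by
  obtain ⟨O, hO⟩ := exball h.na
  let f : k⟮x⟯ →+* O := ((ι : Ω →+* Ω').comp (algebraMap k⟮x⟯ Ω)).codRestrict O.toSubring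
    fun t => (hO _).2 (rat_le hν h t.2)
  have hi : IsIntegral k⟮x⟯ s := (hx.alg s).isIntegral
  have h2 : IsIntegral O (ι s) := by
    refine ⟨(minpoly k⟮x⟯ s).map f, (minpoly.monic hi).map f, ?_⟩
    rw [eval₂_map]
    have e : (algebraMap O Ω').comp f = (ι : Ω →+* Ω').comp (algebraMap k⟮x⟯ Ω) := rfl
    have := hom_eval₂ (minpoly k⟮x⟯ s) (algebraMap k⟮x⟯ Ω) (ι : Ω →+* Ω') s
    rw [← aeval_def, minpoly.aeval, map_zero] at this
    rw [e]
    exact this.symm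
  obtain ⟨a, ha⟩ := (IsIntegrallyClosed.isIntegral_iff (R := O) (K := Ω')).1 h2
  rw [← ha]
  exact (hO _).1 a.2

lemma red_poly (hν : Big k ν) (h : GR ν y (ι x) 1) (hx : Co k x) {P : 𝕜[X]}
    (hP : y (aeval (ι x) P) ≤ 1) : ∃ c, y (aeval (ι x) P - ι c) < 1 := by
  have hc : ∀ i, ν (P.coeff i) ≤ 1 := fun i => by
    have := le_gaussNorm ν P zero_le_one i
    rw [one_pow, mul_one, ← eq_gauss hν.na h one_pos] at this
    exact this.trans hP
  rw [aeval_eq_sum_range]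
  refine Finset.sum_induction _ (fun a : Ω' => ∃ c, y (a - ι c) < 1) ?_ ⟨0, by simp⟩
    fun i _ => ?_
  · rintro a b ⟨c, hc⟩ ⟨d, hd⟩
    exact ⟨c + d, by rw [map_add, add_sub_add_comm]; exact add_lt h.na hc hd⟩
  · obtain ⟨c, hc⟩ := hν.res _ (hc i)
    refine ⟨algebraMap k Ω c * x ^ i, ?_⟩
    rw [Algebra.smul_def, map_mul, ι.commutes, IsScalarTower.algebraMap_apply k 𝕜 Ω', map_pow,
      ← sub_mul, ← map_sub, map_mul, h.ext, ← map_pow]
    exact (mul_le_of_le_one_right (ν.nonneg _) (all_le hν h hx _)).trans_lt hc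

lemma red_rat (hν : Big k ν) (h : GR ν y (ι x) 1) (hx : Co k x) {t : Ω'} (ht : t ∈ 𝕜⟮ι x⟯)
    (h1 : y t ≤ 1) : ∃ c, y (t - ι c) < 1 := by
  obtain ⟨P, Q, rfl⟩ := (mem_adjoin_simple_iff 𝕜 _).1 ht
  by_cases hQ : aeval (ι x) Q = 0
  · exact ⟨0, by simp [hQ]⟩
  obtain ⟨d, hd⟩ := hν.onto _ (y.pos hQ)
  have d0 : 0 < ν d := hd ▸ y.pos hQ
  have d1 : algebraMap 𝕜 Ω' d⁻¹ ≠ 0 :=
    (_root_.map_ne_zero _).2 (inv_ne_zero (ν.pos_iff.1 d0))
  have e1 : y (aeval (ι x) (C d⁻¹ * Q)) = 1 := by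
    rw [map_mul, map_mul, aeval_C, h.ext, map_inv₀, ← hd, inv_mul_cancel₀ d0.ne']
  have e2 : aeval (ι x) P / aeval (ι x) Q = aeval (ι x) (C d⁻¹ * P) / aeval (ι x) (C d⁻¹ * Q) := by
    rw [map_mul, map_mul, aeval_C, mul_div_mul_left _ _ d1]
  rw [e2] at h1 ⊢
  rw [map_div₀, e1, div_one] at h1
  obtain ⟨p, hp⟩ := red_poly hν h hx h1
  obtain ⟨q, hq⟩ := red_poly hν h hx e1.le
  have e3 := eq_one h.na e1 hq
  generalize aeval (ι x) (C d⁻¹ * P) = A at *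
  generalize aeval (ι x) (C d⁻¹ * Q) = B at *
  have B0 : B ≠ 0 := y.pos_iff.1 (e1 ▸ one_pos)
  have q0 : ι q ≠ 0 := y.pos_iff.1 (e3 ▸ one_pos)
  refine ⟨p / q, ?_⟩
  have e4 : A / B - ι (p / q) = ((A - ι p) * ι q + -(ι p * (B - ι q))) / (B * ι q) := by
    rw [map_div₀]; field_simp; ring
  rw [e4, map_div₀, map_mul, e1, e3, mul_one, div_one]
  refine add_lt h.na ?_ ?_
  · rwa [map_mul, e3, mul_one]
  · rw [y.map_neg, map_mul]
    exact (mul_le_of_le_one_left (y.nonneg _) (all_le hν h hx _)).trans_lt hq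

end

end GP1

open GP1 in
theorem blockGP1 : StmtGP1 where
  exg := fun k 𝕜 Ω' _ _ _ _ _ _ _ ν hν σ hσ r hr => GP1.exg k 𝕜 Ω' ν hν σ hσ r hr
  ball := fun _ _ _ hy => ⟨exball hy, fun _ hO => ⟨val_lt hO, val_le hO⟩⟩
  gpr := by
    intro k 𝕜 Ω Ω' _ _ _ _ _ _ _ _ _ _ _ _ ν hν σ hσ r y O h hO c hc hr x ι hx e
    have h' := scale h hc hr e
    have hle : 𝕜⟮σ⟯ ≤ 𝕜⟮ι x⟯ := by
      rw [adjoin_simple_le_iff, ← e]
      exact mul_mem (mem_adjoin_simple_self 𝕜 _) (IntermediateField.algebraMap_mem _ c)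
    refine ⟨fun s => (hO _).2 (all_le hν h' hx s), fun s hs => ?_, fun s hs => ?_, fun a ha => ?_⟩
    · obtain ⟨d, hd⟩ := hν.onto _ (y.pos hs)
      rw [← h.ext] at hd
      exact ⟨d, le_antisymm ((val_le hO _ _).2 hd.ge) ((val_le hO _ _).2 hd.le)⟩
    · obtain ⟨P, hP, hPs⟩ := hσ.alg s
      obtain ⟨s₀, hs₀⟩ := res_up h.na (ψ := (ι : Ω →+* Ω')) (all_le hν h' hx)
        (algebraMap 𝕜⟮σ⟯ Ω') (fun t ht => red_rat hν h' hx (hle t.2) ht) ((hO _).1 hs) hP hPs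
      exact ⟨s₀, (val_lt hO _).2 hs₀⟩
    · obtain ⟨c₀, hc₀⟩ := hν.res a (by rw [← h.ext]; exact (hO _).1 ha)
      refine ⟨c₀, (val_lt hO _).2 ?_⟩
      rwa [IsScalarTower.algebraMap_apply k 𝕜 Ω', ← map_sub, h.ext]
  good1 := by
    intro 𝕜 Ω' _ _ _ _ _ ν σ hσ r y O h hO G _ _ _ ρ hC y' O' h' hO'
    obtain ⟨γ, hγ, rfl⟩ := found.conj 𝕜 Ω' 𝕜⟮σ⟯ hσ.alg O O' fun a ha => by
      rw [hO, hO', eq_rat h h' ha]
    exact hC.smul hγ

end Pool.Agent.Lib.IW2
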