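import Pool.Agent.Lib.IW2.Blue2

/-! Block GP2: values of rational functions at Gauss points depend continuously on the radius. -/

open Polynomial IntermediateField

namespace Pool.Agent.Lib.IW2

open Pool.Agent.Lib.IW

namespace GP2

variable {𝕜 Ω' : Type} [Field 𝕜] [IsAlgClosed 𝕜] [Field Ω'] [Algebra 𝕜 Ω']

lemma ind {σ : Ω'} (S : Ω' → Prop) (hc : ∀ c : 𝕜, c ≠ 0 → S (algebraMap 𝕜 Ω' c))
    (hl : ∀ c : 𝕜, S (σ - algebraMap 𝕜 Ω' c)) (hm : ∀ a b, S a → S b → S (a * b))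
    (hi : ∀ a, S a → S a⁻¹) {a : Ω'} (ha : a ∈ 𝕜⟮σ⟯) : a = 0 ∨ S a := by
  have key : ∀ P : 𝕜[X], P ≠ 0 → S (aeval σ P) := fun P hP => by
    rw [(IsAlgClosed.splits P).eq_prod_roots, map_mul, aeval_C]
    refine hm _ _ (hc _ (leadingCoeff_ne_zero.2 hP)) (Multiset.prod_induction
      (fun Q => S (aeval σ Q)) _ (fun P Q h1 h2 => ?_) (by simpa using hc 1 one_ne_zero) ?_)
    · rw [map_mul]; exact hm _ _ h1 h2
    · intro x hx
      obtain ⟨c, -, rfl⟩ := Multiset.mem_map.1 hx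
      simpa using hl c
  obtain ⟨P, Q, rfl⟩ := (mem_adjoin_simple_iff 𝕜 a).1 ha
  by_cases hP : P = 0
  · simp [hP]
  by_cases hQ : Q = 0
  · simp [hQ]
  exact Or.inr (div_eq_mul_inv (aeval σ P) _ ▸ hm _ _ (key P hP) (hi _ (key Q hQ)))

end GP2

theorem blockGP2 : StmtGP2 where
  cont := by
    intro 𝕜 Ω' _ _ _ _ ν σ a ha
    rcases GP2.ind (fun a => ∃ φ : ℝ → ℝ, ContinuousOn φ (Set.Ioi 0) ∧ (∀ r, 0 < r → φ r ≠ 0) ∧
      ∀ (r : ℝ) (y : AbsoluteValue Ω' ℝ), 0 < r → GR ν y σ r → y a = φ r)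
      (fun c hc => ⟨fun _ => ν c, continuousOn_const, fun _ _ => ν.ne_zero hc,
        fun _ _ _ h => h.ext c⟩)
      (fun c => ⟨fun r => max r (ν c), by fun_prop, fun r hr => (lt_max_of_lt_left hr).ne',
        fun _ _ _ h => h.gau c⟩)
      (fun a b ⟨φ, a1, a2, a3⟩ ⟨ψ, b1, b2, b3⟩ => ⟨fun r => φ r * ψ r, a1.mul b1,
        fun r hr => mul_ne_zero (a2 r hr) (b2 r hr),
        fun r y hr h => by rw [map_mul, a3 r y hr h, b3 r y hr h]⟩)
      (fun a ⟨φ, a1, a2, a3⟩ => ⟨fun r => (φ r)⁻¹, a1.inv₀ a2, fun r hr => inv_ne_zero (a2 r hr),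
        fun r y hr h => by rw [map_inv₀, a3 r y hr h]⟩) ha with rfl | ⟨φ, h1, -, h2⟩
    · exact ⟨fun _ => 0, continuousOn_const, fun _ y _ _ => map_zero y⟩
    · exact ⟨φ, h1, h2⟩
  zero := by
    intro 𝕜 Ω' _ _ _ _ ν σ hσ W hW h0 a ha h1
    have s0 : W.valuation σ ≠ 0 := by
      rw [Valuation.ne_zero_iff]
      rintro rfl
      exact hσ isAlgebraic_zero
    have vc : ∀ c : 𝕜, c ≠ 0 → W.valuation (algebraMap 𝕜 Ω' c) = 1 := fun c hc => by
      refine le_antisymm ((W.valuation_le_one_iff _).2 (hW.2 c)) ?_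
      have := (W.valuation_le_one_iff _).2 (hW.2 c⁻¹)
      rwa [map_inv₀, map_inv₀, inv_le_one₀ (zero_lt_iff.2 (by simpa using hc))] at this
    rcases GP2.ind (fun a => ∃ (n : ℤ) (c r₀ : ℝ), 0 < c ∧ 0 < r₀ ∧
      W.valuation a = W.valuation σ ^ n ∧ ∀ (r : ℝ) (y : AbsoluteValue Ω' ℝ), 0 < r → r < r₀ →
        GR ν y σ r → y a = c * r ^ n)
      (fun c hc => ⟨0, ν c, 1, ν.pos hc, one_pos, by rw [vc c hc, zpow_zero],
        fun _ _ _ _ h => by rw [h.ext, zpow_zero, mul_one]⟩)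
      (fun c => by
        by_cases hc : c = 0
        · exact ⟨1, 1, 1, one_pos, one_pos, by simp [hc], fun r y hr _ h => by
            rw [h.gau, hc, map_zero, max_eq_left hr.le]; simp⟩
        · exact ⟨0, ν c, ν c, ν.pos hc, ν.pos hc, by
            rw [Valuation.map_sub_eq_of_lt_right _ (by rwa [vc c hc]), vc c hc, zpow_zero],
            fun r y _ hr h => by rw [h.gau, max_eq_right hr.le, zpow_zero, mul_one]⟩)
      (fun a b ⟨n, c, r₀, a1, a2, a3, a4⟩ ⟨m, d, r₁, b1, b2, b3, b4⟩ =>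
        ⟨n + m, c * d, min r₀ r₁, mul_pos a1 b1, lt_min a2 b2, by
          rw [map_mul, a3, b3, zpow_add₀ s0], fun r y hr h2 h => by
          rw [map_mul, a4 r y hr (h2.trans_le (min_le_left _ _)) h,
            b4 r y hr (h2.trans_le (min_le_right _ _)) h, zpow_add₀ hr.ne']; ring⟩)
      (fun a ⟨n, c, r₀, a1, a2, a3, a4⟩ => ⟨-n, c⁻¹, r₀, inv_pos.2 a1, a2, by
          rw [map_inv₀, a3, zpow_neg], fun r y hr h2 h => by
          rw [map_inv₀, a4 r y hr h2 h, zpow_neg, mul_inv]⟩) ha with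
      rfl | ⟨n, c, r₀, a1, a2, a3, a4⟩
    · exact ⟨1, one_pos, fun _ y _ _ _ => by simp⟩
    have hn : 1 ≤ n := by
      by_contra hn
      rw [a3] at h1
      exact h1.not_ge (one_le_zpow_of_nonpos₀ (zero_lt_iff.2 s0) h0.le (by omega))
    refine ⟨min r₀ (min 1 c⁻¹), by positivity, fun r y hr h2 h => ?_⟩
    rw [lt_min_iff, lt_min_iff] at h2
    have e : r ^ n ≤ r := by simpa using zpow_le_zpow_right_of_le_one₀ hr h2.2.1.le hn
    rw [a4 r y hr h2.1 h, ← lt_inv_mul_iff₀ a1, mul_one]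
    exact e.trans_lt h2.2.2

end Pool.Agent.Lib.IW2
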