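import Pool.Agent.Lib.IW2.All1
import Pool.Agent.Lib.IW2.Blue2

/-! Separable residues give a certificate. -/

open Polynomial IntermediateField
open scoped Pointwise

namespace Pool.Agent.Lib.IW2

open Pool.Agent.Lib.IW

namespace GSEP

lemma perm {R Ω G : Type} [CommRing R] [Field Ω] [Fintype G] (φ ψ : R →+* Ω) (f : G → R)
    (h : ∀ n, ψ ((∏ g, (X - C (f g))).coeff n) = φ ((∏ g, (X - C (f g))).coeff n)) (g : G) :
    ∃ g', ψ (f g) = φ (f g') := by
  have e : (∏ g, (X - C (f g))).map ψ = (∏ g, (X - C (f g))).map φ := by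
    ext n
    rw [coeff_map, coeff_map, h]
  have e2 := congrArg (eval (ψ (f g))) e
  simp only [Polynomial.map_prod, Polynomial.map_sub, map_X, map_C, eval_prod, eval_sub, eval_X,
    eval_C] at e2
  rw [Finset.prod_eq_zero (Finset.mem_univ g) (sub_self _), eq_comm, Finset.prod_eq_zero_iff] at e2
  obtain ⟨g', -, e3⟩ := e2
  exact ⟨g', sub_eq_zero.1 e3⟩

/-- Galois descent for linear relations. -/
lemma desc {k Ω G : Type} [Field k] [Field Ω] [IsAlgClosed Ω] [Algebra k Ω] [Fintype G]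
    {F : IntermediateField k Ω} (hF : ∀ y : Ω, IsAlgebraic F y) (Y : Matrix G G Ω)
    (hp : ∀ γ ∈ F.fixingSubgroup, ∀ g, ∃ g', ∀ i, γ (Y g i) = Y g' i)
    (h0 : ∀ a : G → Ω, (∀ i, a i ∈ F) → (∀ g, ∑ i, Y g i * a i = 0) → a = 0) (n : ℕ) :
    ∀ a : G → Ω, (Function.support a).ncard < n → (∀ i, IsSeparable F (a i)) →
      (∀ g, ∑ i, Y g i * a i = 0) → a = 0 := by
  induction n with
  | zero => exact fun a h => absurd h (Nat.not_lt_zero _)
  | succ n ih =>
    intro a hn hs hr
    funext j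
    by_contra hj
    have sb : ∀ i, IsSeparable F (a i / a j) := fun i =>
      (separableClosure F Ω).div_mem (hs i) (hs j)
    have rb : ∀ g, ∑ i, Y g i * (a i / a j) = 0 := fun g => by
      simp only [← mul_div_assoc, ← Finset.sum_div, hr, zero_div]
    have := h0 (fun i => a i / a j) (fun i => found.gal.sep k Ω F hF _ (sb i) fun γ hγ => ?_) rb
    · exact hj (by simpa [hj] using congrFun this j)
    refine sub_eq_zero.1 (congrFun (ih (fun i => γ (a i / a j) - a i / a j) ?_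
      (fun i => (separableClosure F Ω).sub_mem (sep_aut hγ (sb i)) (sb i)) fun g => ?_) i)
    · refine lt_of_lt_of_le (Set.ncard_lt_ncard (t := Function.support a)
        ⟨fun i hi t => hi ?_, fun t => t hj ?_⟩ (Set.toFinite _)) (Nat.lt_succ_iff.1 hn)
      · simp [t]
      · simp [div_self hj]
    · obtain ⟨g', e⟩ := hp γ⁻¹ (inv_mem hγ) g
      have := congrArg γ (rb g')
      simp only [map_sum, map_mul, map_zero, ← e, AlgEquiv.aut_inv, AlgEquiv.apply_symm_apply]
        at this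
      simp only [mul_sub, Finset.sum_sub_distrib, this, rb, sub_zero]

end GSEP

theorem blockGSEP : StmtGSEP := by
  intro k 𝕜 Ω Ω' _ _ _ _ _ _ _ _ _ _ _ _ ι O hR x hx hx' G _ _ _ ρ Z Z₀ hA hd h0 hs
  obtain ⟨φ, hφ⟩ := RREP.ex_phi hR
  have hE : Ext 𝕜 ι k⟮x⟯ = 𝕜⟮ι x⟯ := by rw [rx.ext1, Set.image_singleton]
  let Y : Matrix G G O.toSubring := Matrix.of fun g i => ⟨Z g i, RREP.rd_mem hR (hd g i)⟩
  have hY : ∀ g i, φ (Y g i) = Z₀ g i := fun g i => (hφ _ _).1 (hd g i)
  have hp : ∀ γ ∈ k⟮x⟯.fixingSubgroup, ∀ g, ∃ g', ∀ i, γ (Z₀ g i) = Z₀ g' i := by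
    intro γ hγ g
    obtain ⟨g', e⟩ := Subspace.exists_eq_top_of_iUnion_eq_univ (k := k) (E := G → k)
      (p := fun g' => LinearMap.ker (Fintype.linearCombination k fun i => γ (Z₀ g i) - Z₀ g' i))
      (Set.eq_univ_of_forall fun c => by
        let f : G → O.toSubring := fun g => ∑ i, ⟨ι (algebraMap k Ω (c i)), hR.mem _⟩ * Y g i
        have hf : ∀ g, φ (f g) = ∑ i, c i • Z₀ g i := fun g => by
          simp only [f, map_sum, map_mul, hY, Algebra.smul_def]
          exact Finset.sum_congr rfl fun i _ => by rw [(hφ _ _).1 (RREP.rd_self _)]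
        have ha : Alg 𝕜⟮ι x⟯ ρ fun g => (f g : Ω') := by
          have := Alg.sum Finset.univ fun i _ => (Alg.const (ρ := ρ)
            (hE ▸ mem_Ext (𝕜 := 𝕜) ι (k⟮x⟯.algebraMap_mem (c i)))).mul (hA i)
          simpa [f, Y] using this
        obtain ⟨g', e⟩ := GSEP.perm φ ((γ : Ω →+* Ω).comp φ) f (fun n => fix_apply hγ
          (orth.resf k 𝕜 Ω Ω' ι O hR _ x (fs_self hx) _ (by
            have := ha.coeff_mem (fs_self hx').alg n
            rw [hE]
            convert this using 1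
            rw [← Subring.coe_subtype, ← coeff_map]
            simp [Polynomial.map_prod]) _ ((hφ _ _).2 rfl))) g
        refine Set.mem_iUnion.2 ⟨g', ?_⟩
        simp only [RingHom.comp_apply, hf, RingHom.coe_coe, map_sum, map_smul] at e
        simp [Fintype.linearCombination_apply, smul_sub, e])
    refine ⟨g', fun i => sub_eq_zero.1 ?_⟩
    have : Pi.single i (1 : k) ∈ LinearMap.ker
        (Fintype.linearCombination k fun i => γ (Z₀ g i) - Z₀ g' i) := e ▸ Submodule.mem_top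
    simpa using this
  have hdet : Z₀.det ≠ 0 := fun t => by
    let W : Matrix G G (separableClosure k⟮x⟯ Ω) := Matrix.of fun g i => ⟨Z₀ g i, hs g i⟩
    have hW : W.det = 0 := Subtype.ext
      ((RingHom.map_det (separableClosure k⟮x⟯ Ω).val.toRingHom W).trans t)
    obtain ⟨a, a0, ha⟩ := Matrix.exists_mulVec_eq_zero_iff.2 hW
    have := GSEP.desc (fs_self hx).alg Z₀ hp h0 _ (fun i => (a i : Ω)) (Nat.lt_succ_self _)
      (fun i => (a i).2) fun g => by
        simpa [W, Matrix.mulVec, dotProduct] using congrArg Subtype.val (congrFun ha g)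
    exact a0 (funext fun i => Subtype.ext (congrFun this i))
  have h1 : O.valuation Z.det = 1 := by
    have e1 : φ Y.det = Z₀.det := (RingHom.map_det φ Y).trans (congrArg _ (Matrix.ext hY))
    have e2 : (Y.det : Ω') = Z.det := RingHom.map_det O.toSubring.subtype Y
    exact ORTH.rd_one hR.mem (e2 ▸ (hφ _ _).2 e1) hdet
  have h2 : Z.det ≠ 0 := fun t => by simp [t] at h1
  obtain ⟨v1, v2⟩ := vand.invm 𝕜 Ω' _ G ρ Z hA h2
  exact ⟨Z, Z⁻¹, fun i => ⟨hA i, v1 i⟩, fun g i => ⟨(Y g i).2, v2 O (fun g i => (Y g i).2) h1 i g⟩,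
    Z.mul_nonsing_inv h2.isUnit⟩

end Pool.Agent.Lib.IW2
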