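import Pool.Agent.Lib.IW2.Blue4

/-! The trichotomy of Raynaud. -/

open scoped Pointwise

namespace Pool.Agent.Lib.IW2

namespace Gp1

open Subgroup

variable {p : ℕ} {G : Type} [Group G]

/-- A proper subgroup does not meet all conjugacy classes. -/
lemma jordan [Finite G] {H : Subgroup G} (h : H ≠ ⊤) : ∃ c : G, ∀ g : G, g⁻¹ * c * g ∉ H := by
  classical
  by_contra hc
  push Not at hc
  have := Fintype.ofFinite G
  have := Fintype.ofFinite (G ⧸ H)
  have := Fintype.ofFinite (MulAction.orbitRel.Quotient G (G ⧸ H))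
  have h1 := MulAction.sum_card_fixedBy_eq_card_orbits_mul_card_group G (G ⧸ H)
  have h2 : Fintype.card (MulAction.orbitRel.Quotient G (G ⧸ H)) ≤ 1 :=
    Fintype.card_le_one_iff_subsingleton.2
      (MulAction.pretransitive_iff_subsingleton_quotient G (G ⧸ H) |>.1 inferInstance)
  have h3 : ∀ c : G, 1 ≤ Fintype.card (MulAction.fixedBy (G ⧸ H) c) := fun c => by
    obtain ⟨g, hg⟩ := hc c
    refine Fintype.card_pos_iff.2 ⟨⟨(g : G ⧸ H), ?_⟩⟩
    rw [MulAction.mem_fixedBy, MulAction.Quotient.smul_coe, eq_comm, QuotientGroup.eq]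
    simpa [mul_assoc] using hg
  have h4 : 1 < Fintype.card (MulAction.fixedBy (G ⧸ H) (1 : G)) := by
    obtain ⟨g, hg⟩ : ∃ g, g ∉ H := by
      by_contra e
      push Not at e
      exact h ((eq_top_iff' H).2 e)
    refine Fintype.one_lt_card_iff.2 ⟨⟨((1 : G) : G ⧸ H), by simp⟩, ⟨(g : G ⧸ H), by simp⟩,
      fun e => hg ?_⟩
    simpa using QuotientGroup.eq.1 (congrArg Subtype.val e)
  have h5 : ∑ _c : G, 1 < ∑ c : G, Fintype.card (MulAction.fixedBy (G ⧸ H) c) :=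
    Finset.sum_lt_sum (fun c _ => h3 c) ⟨1, Finset.mem_univ _, h4⟩
  rw [h1, Finset.sum_const, Finset.card_univ, smul_eq_mul, mul_one] at h5
  nlinarith

variable (p) in
/-- The subgroup generated by the `p`-elements of `D`. -/
def Y (D : Subgroup G) : Subgroup G := closure {u | u ∈ D ∧ ∃ j : ℕ, u ^ p ^ j = 1}

lemma Y_le (D : Subgroup G) : Y p D ≤ D := (closure_le _).2 fun _ h => h.1

lemma le_Y {Q D : Subgroup G} (hQ : IsPGroup p Q) (h : Q ≤ D) : Q ≤ Y p D := fun u hu => by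
  obtain ⟨j, hj⟩ := hQ ⟨u, hu⟩
  exact subset_closure ⟨h hu, j, congrArg Subtype.val hj⟩

lemma pPart_Y (D : Subgroup G) : pPart p (Y p D) = ⊤ := by
  refine eq_top_iff.2 (closure_closure_coe_preimage.symm.trans_le ((closure_le _).2 ?_))
  rintro u ⟨-, j, hj⟩
  exact subset_normalClosure ⟨j, Subtype.ext hj⟩

lemma ind_Y {S D : Subgroup G} (hS : IsPGroup p S) (h : ¬ p ∣ S.relIndex D) :
    ¬ p ∣ S.relIndex (Y p D) := fun e => h <| by
  have h1 := relIndex_inf_mul_relIndex S (Y p D) D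
  have h2 : S ⊓ Y p D = S ⊓ D := le_antisymm (inf_le_inf_left _ (Y_le D))
    (le_inf inf_le_left (le_Y hS.to_inf_left inf_le_right))
  rw [inf_of_le_left (Y_le D), h2, inf_relIndex_right] at h1
  exact h1 ▸ e.mul_right _

/-- The group attached to a Sylow subgroup. -/
def Ga (S : Sylow p G) : Subgroup G :=
  closure {u | (∃ j : ℕ, u ^ p ^ j = 1) ∧
    ∃ D : Subgroup G, D ≠ ⊤ ∧ u ∈ D ∧ ¬ p ∣ (S : Subgroup G).relIndex D}

lemma Y_le_Ga {S : Sylow p G} {D : Subgroup G} (hD : D ≠ ⊤)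
    (h : ¬ p ∣ (S : Subgroup G).relIndex D) : Y p D ≤ Ga S :=
  closure_mono fun _ hu => ⟨hu.2, D, hD, hu.1, h⟩

lemma conj_mem {S : Sylow p G} (g : G) {u : G} (hu : u ∈ Ga S) : g * u * g⁻¹ ∈ Ga (g • S) := by
  have : Ga S ≤ (Ga (g • S)).comap (MulAut.conj g).toMonoidHom := by
    refine (closure_le _).2 ?_
    rintro u ⟨⟨j, hj⟩, D, h1, h2, h3⟩
    refine subset_closure ⟨⟨j, by simp [hj]⟩, MulAut.conj g • D, fun e => h1 ?_,
      smul_mem_pointwise_smul _ _ _ h2, ?_⟩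
    · rw [smul_eq_iff_eq_inv_smul] at e
      rw [e, eq_top_iff']
      exact fun x => mem_pointwise_smul_iff_inv_smul_mem.2 trivial
    · rwa [Sylow.coe_subgroup_smul, relIndex_pointwise_smul]
  exact this hu

lemma conj_iff {S : Sylow p G} (g u : G) : g * u * g⁻¹ ∈ Ga (g • S) ↔ u ∈ Ga S :=
  ⟨fun h => by simpa [mul_assoc] using conj_mem g⁻¹ h, conj_mem g⟩

lemma Ga_smul {S : Sylow p G} {g : G} :
    Ga (g • S) = Ga S ↔ g ∈ normalizer (Ga S : Set G) := by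
  rw [mem_normalizer_iff]
  refine ⟨fun h u => by rw [← conj_iff g u, h], fun h => ext fun u => ?_⟩
  have h1 := (conj_iff (S := S) g (g⁻¹ * u * g)).trans (h _)
  rwa [show g * (g⁻¹ * u * g) * g⁻¹ = u by group] at h1

variable [Fact p.Prime] [Finite G]

lemma ex_sylow {Q D : Subgroup G} (hQ : IsPGroup p Q) (h : Q ≤ D) :
    ∃ S : Sylow p G, Q ≤ S ∧ ¬ p ∣ (S : Subgroup G).relIndex D := by
  obtain ⟨T, hT⟩ := (hQ.comap_subtype (K := D)).exists_le_sylow
  obtain ⟨S, hS⟩ := T.exists_comap_subtype_eq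
  refine ⟨S, fun u hu => ?_, ?_⟩
  · have : (⟨u, h hu⟩ : D) ∈ (T : Subgroup D) := hT hu
    rwa [← hS] at this
  · have := T.not_dvd_index
    rwa [← hS] at this

lemma ex_conj {S : Sylow p G} {Q D : Subgroup G} (hQ : IsPGroup p Q) (h : Q ≤ D)
    (hS : ¬ p ∣ (S : Subgroup G).relIndex D) : ∃ y ∈ D, Q ≤ (y • S : Sylow p G) := by
  obtain ⟨T, hT⟩ := (hQ.comap_subtype (K := D)).exists_le_sylow
  obtain ⟨y, hy⟩ := MulAction.exists_smul_eq D ((S.2.comap_subtype (K := D)).toSylow hS) T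
  refine ⟨y, y.2, fun u hu => ?_⟩
  have : (⟨u, h hu⟩ : D) ∈ (T : Subgroup D) := hT hu
  rw [← hy, Sylow.coe_subgroup_smul, mem_pointwise_smul_iff_inv_smul_mem] at this
  rw [Sylow.coe_subgroup_smul, mem_pointwise_smul_iff_inv_smul_mem]
  exact this

lemma ex_conj' {S : Sylow p G} {Q D : Subgroup G} (hQ : IsPGroup p Q) (h : Q ≤ D) (hD : D ≠ ⊤)
    (hS : ¬ p ∣ (S : Subgroup G).relIndex D) :
    ∃ S' : Sylow p G, Q ≤ S' ∧ Ga S' = Ga S := by
  obtain ⟨y, hy, h1⟩ := ex_conj hQ (le_Y hQ h) (ind_Y S.2 hS)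
  exact ⟨_, h1, Ga_smul.2 (le_normalizer (Y_le_Ga hD hS hy))⟩

lemma lt_norm {Q S : Subgroup G} (hS : IsPGroup p S) (h : Q < S) :
    Q < S ⊓ normalizer (Q : Set G) := by
  have := hS.isNilpotent
  have h1 := Group.normalizerCondition_of_isNilpotent (G := S) (Q.subgroupOf S)
    (lt_top_iff_ne_top.2 fun e => h.not_ge (subgroupOf_eq_top.1 e))
  rw [← subgroupOf_normalizer_eq h.le] at h1
  obtain ⟨x, h2, h3⟩ := SetLike.exists_of_lt h1
  exact lt_of_le_of_ne (le_inf h.le le_normalizer) fun e => h3 (by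
    rw [mem_subgroupOf, e]; exact ⟨x.2, h2⟩)

lemma Ga_eq (hN : ∀ N : Subgroup G, N.Normal → IsPGroup p N → N = ⊥) (Q : Subgroup G) :
    Q ≠ ⊥ → ∀ S S' : Sylow p G, Q ≤ S → Q ≤ S' → Ga S = Ga S' := by
  induction Q using WellFoundedGT.induction with
  | ind Q ih =>
  intro h0 S S' h1 h2
  have ih' : ∀ Q', Q < Q' → ∀ S S' : Sylow p G, Q' ≤ S → Q' ≤ S' → Ga S = Ga S' :=
    fun Q' h => ih Q' h (ne_bot_of_gt h)
  rcases h1.eq_or_lt with e | e
  · rw [Sylow.ext (S.3 S'.2 (e ▸ h2))]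
  rcases h2.eq_or_lt with e' | e'
  · rw [Sylow.ext (S'.3 S.2 (e' ▸ h1))]
  have hn : normalizer (Q : Set G) ≠ ⊤ := fun t =>
    h0 (hN Q (normalizer_eq_top_iff.1 t) (S.2.to_le h1))
  obtain ⟨S1, h3, h4⟩ := ex_sylow (D := normalizer (Q : Set G)) S.2.to_inf_left inf_le_right
  obtain ⟨S2, h5, h6⟩ := ex_conj' (D := normalizer (Q : Set G)) S'.2.to_inf_left inf_le_right hn h4
  rw [ih' _ (lt_norm S.2 e) S S1 inf_le_left h3, ih' _ (lt_norm S'.2 e') S' S2 inf_le_left h5, h6]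

omit [Finite G] in
lemma zp {u : G} (h : orderOf u = p) : IsPGroup p (zpowers u) ∧ zpowers u ≠ ⊥ :=
  ⟨IsPGroup.of_card (n := 1) (by rw [Nat.card_zpowers, h, pow_one]), fun e => by
    rw [zpowers_eq_bot.1 e, orderOf_one] at h
    exact (Fact.out : p.Prime).one_lt.ne h⟩

end Gp1

open Gp1 Subgroup in
theorem blockGp1 : StmtGp1 := by
  intro p hp G _ _ hP hN h0 S
  have top : ∀ S : Sylow p G, (S : Subgroup G) ≤ Ga S := fun S =>
    (le_Y S.2 le_rfl).trans (Y_le_Ga (fun e => h0 (hN ⊤ inferInstance (e ▸ S.2)))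
      (by rw [relIndex_self]; exact hp.out.not_dvd_one))
  by_cases hG : Ga S = ⊤
  · refine Or.inl fun D hD => top_le_iff.1 (hG ▸ (closure_le _).2 ?_)
    rintro u ⟨h1, E, h2, h3, h4⟩
    exact hD (Y p E) (fun e => h2 (top_le_iff.1 (e ▸ Y_le E))) (pPart_Y E) (ind_Y S.2 h4)
      (subset_closure ⟨h3, h1⟩)
  have hn : normalizer (Ga S : Set G) ≠ ⊤ := fun e => hG <| by
    have := normalizer_eq_top_iff.1 e
    refine top_le_iff.1 (hP ▸ normalClosure_le_normal ?_)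
    rintro u ⟨j, hj⟩
    have h1 : IsPGroup p (zpowers u) := by
      rintro ⟨_, i, rfl⟩
      refine ⟨j, Subtype.ext ?_⟩
      change (u ^ i) ^ p ^ j = 1
      rw [← zpow_natCast, ← zpow_mul, mul_comm, zpow_mul, zpow_natCast, hj, one_zpow]
    obtain ⟨T, hT⟩ := h1.exists_le_sylow
    obtain ⟨g, rfl⟩ := MulAction.exists_smul_eq G S T
    have h2 := top _ (hT (mem_zpowers u))
    rwa [Ga_smul.2 (e ▸ mem_top g)] at h2
  obtain ⟨c, hc⟩ := jordan hn
  have key : ∀ T : Sylow p G, Ga (c • T) ≠ Ga T := fun T e => by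
    obtain ⟨g, rfl⟩ := MulAction.exists_smul_eq G S T
    refine hc g (Ga_smul.1 (Subgroup.ext fun u => ?_))
    rw [← conj_iff g, ← conj_iff (S := S) g, ← e, smul_smul, smul_smul]
    congr! 3
    group
  have cj : ∀ (T : Sylow p G) (u : G), u ∈ (T : Subgroup G) →
      zpowers (c * u * c⁻¹) ≤ (c • T : Sylow p G) := fun T u hu =>
    zpowers_le.2 (smul_mem_pointwise_smul u (MulAut.conj c) _ hu)
  have main : ∀ D : Subgroup G, c ∈ D → p ∣ Nat.card D → D = ⊤ := fun D hD hd => by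
    by_contra hne
    obtain ⟨u, hu⟩ := exists_prime_orderOf_dvd_card' p hd
    rw [← orderOf_coe] at hu
    obtain ⟨T, h1, h2⟩ := ex_sylow (zp hu).1 (zpowers_le.2 u.2)
    have h3 : orderOf (c * u * c⁻¹) = p := by
      rw [← hu]; exact (MulAut.conj c).orderOf_eq u
    obtain ⟨T', h4, h5⟩ := ex_conj' (zp h3).1
      (zpowers_le.2 (mul_mem (mul_mem hD u.2) (inv_mem hD))) hne h2
    exact key T ((Ga_eq hN _ (zp h3).2 _ _ (cj T u (h1 (mem_zpowers _))) h4).trans h5)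
  refine Or.inr ⟨c, fun hd => ?_, main⟩
  have h1 := orderOf_pow_orderOf_div (orderOf_pos c).ne' hd
  obtain ⟨T, hT⟩ := (zp h1).1.exists_le_sylow
  have h2 := cj T _ (hT (mem_zpowers _))
  rw [← conj_pow, mul_inv_cancel_right] at h2
  exact key T (Ga_eq hN _ (zp h1).2 _ _ h2 hT)

end Pool.Agent.Lib.IW2
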