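import Pool.Agent.Lib.IW2.All1
import Pool.Agent.Lib.IW2.Blue4

/-! A coset of a normal subgroup is connected by conjugation and solvable pairs. -/

open scoped Pointwise

namespace Pool.Agent.Lib.IW2

namespace Gp2

variable {G G' : Type} [Group G] [Group G']

/-- One step inside a coset of `K`. -/
def Step (K : Subgroup G) (y z : G) : Prop :=
  (∃ v ∈ K, z = v * y * v⁻¹) ∨ (y * z⁻¹ ∈ K ∧ Group.IsSolvable (Subgroup.closure {y, z}))

/-- Chains of steps. -/
def Conn (K : Subgroup G) : G → G → Prop := Relation.ReflTransGen (Step K)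

lemma co_symm {K : Subgroup G} {y z : G} (h : y * z⁻¹ ∈ K) : z * y⁻¹ ∈ K := by
  simpa using inv_mem h

lemma co_trans {K : Subgroup G} {y z w : G} (h : y * z⁻¹ ∈ K) (h' : z * w⁻¹ ∈ K) :
    y * w⁻¹ ∈ K := by
  simpa [mul_assoc] using mul_mem h h'

lemma Step.symm {K : Subgroup G} {y z : G} (h : Step K y z) : Step K z y := by
  rcases h with ⟨v, hv, rfl⟩ | ⟨h1, h2⟩
  · exact Or.inl ⟨v⁻¹, inv_mem hv, by group⟩
  · exact Or.inr ⟨co_symm h1, by rwa [Set.pair_comm]⟩

lemma Step.co {K : Subgroup G} (hK : K.Normal) {y z : G} (h : Step K y z) : y * z⁻¹ ∈ K := by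
  rcases h with ⟨v, hv, rfl⟩ | ⟨h1, -⟩
  · have := mul_mem (hK.conj_mem v hv y) (inv_mem hv)
    convert this using 1
    group
  · exact h1

lemma Conn.symm {K : Subgroup G} {y z : G} (h : Conn K y z) : Conn K z y := by
  induction h with
  | refl => exact Relation.ReflTransGen.refl
  | tail _ h2 ih => exact Relation.ReflTransGen.head h2.symm ih

lemma Conn.trans {K : Subgroup G} {y z w : G} (h : Conn K y z) (h' : Conn K z w) : Conn K y w :=
  Relation.ReflTransGen.trans h h'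

lemma Conn.co {K : Subgroup G} (hK : K.Normal) {y z : G} (h : Conn K y z) : y * z⁻¹ ∈ K := by
  induction h with
  | refl => simp
  | tail _ h2 ih => exact co_trans ih (h2.co hK)

lemma conn_conj {K : Subgroup G} (y : G) {v : G} (hv : v ∈ K) : Conn K y (v * y * v⁻¹) :=
  Relation.ReflTransGen.single (Or.inl ⟨v, hv, rfl⟩)

lemma conn_solv {K : Subgroup G} {y z : G} (h : y * z⁻¹ ∈ K)
    (hs : Group.IsSolvable (Subgroup.closure {y, z})) : Conn K y z :=
  Relation.ReflTransGen.single (Or.inr ⟨h, hs⟩)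

lemma solv_map (f : G →* G') {H : Subgroup G} (h : Group.IsSolvable H) :
    Group.IsSolvable (H.map f) :=
  Group.isSolvable_of_surjective (f.subgroupMap_surjective H)

lemma solv_lift (f : G →* G') (hf : Group.IsSolvable f.ker) {H : Subgroup G}
    (h : Group.IsSolvable (H.map f)) : Group.IsSolvable H := by
  have h1 : Group.IsSolvable (f.subgroupMap H).ker := by
    let g : (f.subgroupMap H).ker →* f.ker :=
      (H.subtype.comp (f.subgroupMap H).ker.subtype).codRestrict f.ker fun a =>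
        congrArg Subtype.val a.2
    exact Group.isSolvable_of_isSolvable_injective (f := g) fun a b e =>
      Subtype.ext (Subtype.ext (congrArg (fun u : f.ker => (u : G)) e))
  exact Group.isSolvable_of_ker_le_range (f.subgroupMap H).ker.subtype (f.subgroupMap H)
    (by rw [Subgroup.range_subtype])

lemma solv_one (y : G) : Group.IsSolvable (Subgroup.closure ({y} : Set G)) := by
  rw [← Subgroup.zpowers_eq_closure]
  refine Group.isSolvable_of_comm fun a b => Subtype.ext ?_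
  obtain ⟨_, i, rfl⟩ := a
  obtain ⟨_, j, rfl⟩ := b
  exact (zpow_mul_comm y i j)

lemma map_pair (f : G →* G') (y z : G) :
    (Subgroup.closure {y, z}).map f = Subgroup.closure {f y, f z} := by
  rw [MonoidHom.map_closure, Set.image_pair]

/-- Chains are preserved by homomorphisms. -/
lemma Conn.map (f : G →* G') {K : Subgroup G} {K' : Subgroup G'} (hK : ∀ v ∈ K, f v ∈ K')
    {y z : G} (h : Conn K y z) : Conn K' (f y) (f z) := by
  induction h with
  | refl => exact Relation.ReflTransGen.refl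
  | tail _ h2 ih =>
    refine ih.tail ?_
    rcases h2 with ⟨v, hv, rfl⟩ | ⟨h1, h2⟩
    · exact Or.inl ⟨f v, hK v hv, by simp⟩
    · exact Or.inr ⟨by simpa using hK _ h1, map_pair f _ _ ▸ solv_map f h2⟩

/-- Chains lift through a solvable kernel. -/
lemma Conn.lift (f : G →* G') (hs : Function.Surjective f) (hf : Group.IsSolvable f.ker)
    {K : Subgroup G} (hK : K.Normal) {y : G} {z' : G'} (h : Conn (K.map f) (f y) z') :
    ∀ z, f z = z' → y * z⁻¹ ∈ K → Conn K y z := by
  have same : ∀ w z : G, f w = f z → w * z⁻¹ ∈ K → Conn K w z := fun w z e hz =>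
    conn_solv hz (solv_lift f hf (by rw [map_pair, e, Set.pair_eq_singleton]; exact solv_one _))
  induction h with
  | refl => exact fun z e hz => same y z e.symm hz
  | @tail w' z' _ h2 ih =>
    rintro z rfl hz
    obtain ⟨u, hu, e⟩ := h2.co (hK.map f hs)
    have e1 : f (u * z) = w' := by rw [map_mul, e, inv_mul_cancel_right]
    have e2 : u * z * z⁻¹ ∈ K := by simpa using hu
    refine (ih (u * z) e1 (co_trans hz (co_symm e2))).trans ?_
    rcases h2 with ⟨_, ⟨v, hv, rfl⟩, e3⟩ | ⟨-, h2⟩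
    · refine (conn_conj (u * z) hv).trans (same _ _ (by rw [e3, ← e1]; simp) ?_)
      exact co_trans (co_symm ((conn_conj (u * z) hv).co hK)) e2
    · exact conn_solv e2 (solv_lift f hf (by rwa [map_pair, e1]))

/-- The Frattini argument for a normal subgroup with abelian quotient. -/
lemma frat [Finite G] {r : ℕ} [Fact r.Prime] {K : Subgroup G} (hK : K.Normal)
    (hab : ∀ g h : G, g * h * g⁻¹ * h⁻¹ ∈ K) (T : Sylow r G) (g : G) :
    ∃ n ∈ Subgroup.normalizer (T : Set G), g * n⁻¹ ∈ K := by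
  have hM : (K ⊔ (T : Subgroup G)).Normal := ⟨fun m hm g => by
    have h1 := mul_mem (Subgroup.mem_sup_left (T := (T : Subgroup G)) (hab g m)) hm
    simpa using h1⟩
  have h1 := Sylow.normalizer_sup_eq_top' T (le_sup_right : _ ≤ K ⊔ (T : Subgroup G))
  have h2 : K ⊔ Subgroup.normalizer (T : Set G) = ⊤ := by
    rw [eq_top_iff, ← h1]
    exact sup_le le_sup_right (sup_le le_sup_left (le_sup_of_le_right Subgroup.le_normalizer))
  have h3 : g ∈ ((K ⊔ Subgroup.normalizer (T : Set G) : Subgroup G) : Set G) := by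
    rw [h2]; trivial
  rw [Subgroup.normal_mul] at h3
  obtain ⟨k, hk, n, hn, rfl⟩ := h3
  exact ⟨n, hn, by simpa using hk⟩

lemma grow [Finite G] {r : ℕ} [Fact r.Prime] {Q : Subgroup G} (hQ : IsPGroup r Q) :
    (∃ S : Sylow r G, (S : Subgroup G) = Q) ∨
      ∃ T : Sylow r (Subgroup.normalizer (Q : Set G)),
        Q < (T : Subgroup _).map (Subgroup.normalizer (Q : Set G)).subtype := by
  obtain ⟨S, hS⟩ := hQ.exists_le_sylow
  rcases hS.eq_or_lt with h | h
  · exact Or.inl ⟨S, h.symm⟩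
  right
  have := S.2.isNilpotent
  have h1 : Q.subgroupOf (S : Subgroup G) < ⊤ :=
    lt_top_iff_ne_top.2 fun e => h.not_ge (Subgroup.subgroupOf_eq_top.1 e)
  obtain ⟨g, hg, hg'⟩ := SetLike.exists_of_lt (Group.normalizerCondition_of_isNilpotent _ h1)
  rw [← Subgroup.subgroupOf_normalizer_eq hS] at hg
  obtain ⟨T, hT⟩ := (S.2.comap_subtype (K := Subgroup.normalizer (Q : Set G))).exists_le_sylow
  refine ⟨T, lt_of_le_of_ne (fun q hq => ⟨⟨q, Subgroup.le_normalizer hq⟩, hT (hS hq), rfl⟩)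
    fun e => hg' ?_⟩
  change (g : G) ∈ Q
  rw [e]
  exact ⟨⟨g, hg⟩, hT g.2, rfl⟩

section Main

variable [Finite G] {r : ℕ} [Fact r.Prime] {K : Subgroup G}

lemma climb (hK : K.Normal) (hab : ∀ g h : G, g * h * g⁻¹ * h⁻¹ ∈ K)
    (hN : ∀ Q : Subgroup G, Q ≠ ⊥ → IsPGroup r Q → ∀ x ∈ Subgroup.normalizer (Q : Set G),
      ∀ x' ∈ Subgroup.normalizer (Q : Set G), x * x'⁻¹ ∈ K → Conn K x x')
    (Q : Subgroup G) : Q ≠ ⊥ → IsPGroup r Q → ∀ x ∈ Subgroup.normalizer (Q : Set G),
      ∃ (S : Sylow r G) (x' : G), (S : Subgroup G) ≠ ⊥ ∧ x' ∈ Subgroup.normalizer (S : Set G) ∧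
        Conn K x x' := by
  induction Q using WellFoundedGT.induction with
  | ind Q ih =>
    intro h0 hQ x hx
    rcases grow hQ with ⟨S, rfl⟩ | ⟨T, hT⟩
    · exact ⟨S, x, h0, hx, Relation.ReflTransGen.refl⟩
    · obtain ⟨n, hn, h1⟩ := frat (hK.subgroupOf (Subgroup.normalizer (Q : Set G)))
        (fun g h => hab g h) T ⟨x, hx⟩
      obtain ⟨S, x', h2, h3, h4⟩ := ih _ hT (ne_bot_of_gt hT) (T.2.map _) n
        (Subgroup.le_normalizer_map _ ⟨n, hn, rfl⟩)
      exact ⟨S, x', h2, h3, (hN Q h0 hQ x hx n n.2 h1).trans h4⟩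

lemma start {x : G} (hx : r ∣ orderOf x) :
    ∃ Q : Subgroup G, Q ≠ ⊥ ∧ IsPGroup r Q ∧ x ∈ Subgroup.normalizer (Q : Set G) := by
  have h1 : orderOf (x ^ (orderOf x / r)) = r := orderOf_pow_orderOf_div (orderOf_pos x).ne' hx
  refine ⟨Subgroup.zpowers (x ^ (orderOf x / r)), fun e => ?_,
    IsPGroup.of_card (n := 1) (by rw [Nat.card_zpowers, h1, pow_one]), ?_⟩
  · rw [Subgroup.zpowers_eq_bot] at e
    rw [e, orderOf_one] at h1
    exact (Fact.out : r.Prime).one_lt.ne h1
  · refine Subgroup.centralizer_le_normalizer _ ?_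
    rintro _ ⟨i, rfl⟩
    exact ((Commute.refl x).pow_left _).zpow_left i

lemma both (hK : K.Normal) (hab : ∀ g h : G, g * h * g⁻¹ * h⁻¹ ∈ K)
    (hN : ∀ Q : Subgroup G, Q ≠ ⊥ → IsPGroup r Q → ∀ x ∈ Subgroup.normalizer (Q : Set G),
      ∀ x' ∈ Subgroup.normalizer (Q : Set G), x * x'⁻¹ ∈ K → Conn K x x')
    {y z : G} (hy : r ∣ orderOf y) (hz : r ∣ orderOf z) (h : y * z⁻¹ ∈ K) : Conn K y z := by
  obtain ⟨Q, a1, a2, a3⟩ := start hy
  obtain ⟨Q', b1, b2, b3⟩ := start hz
  obtain ⟨S, y', c1, c2, c3⟩ := climb hK hab hN Q a1 a2 y a3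
  obtain ⟨S', z', -, d2, d3⟩ := climb hK hab hN Q' b1 b2 z b3
  obtain ⟨g, hg⟩ := MulAction.exists_smul_eq G S' S
  obtain ⟨n, hn, hk⟩ := frat hK hab S' g
  have e1 : (g * n⁻¹) • S' = S := by
    rw [mul_smul, Sylow.smul_eq_iff_mem_normalizer.2 (inv_mem hn), hg]
  have e2 : g * n⁻¹ * z' * (g * n⁻¹)⁻¹ ∈ Subgroup.normalizer (S : Set G) := by
    rw [← Sylow.smul_eq_iff_mem_normalizer, mul_smul, mul_smul _ z', inv_smul_eq_iff.2 e1.symm,
      Sylow.smul_eq_iff_mem_normalizer.2 d2, e1]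
  have e3 := d3.trans (conn_conj z' hk)
  exact (c3.trans (hN S c1 S.2 y' c2 _ e2
    (co_trans (co_trans (co_symm (c3.co hK)) h) (e3.co hK)))).trans e3.symm

end Main

lemma conn (n : ℕ) : ∀ (G : Type) [Group G] [Finite G], Nat.card G < n → ∀ K : Subgroup G,
    K.Normal → ∀ y z : G, y * z⁻¹ ∈ K → Conn K y z := by
  induction n with
  | zero => intro G _ _ h; omega
  | succ n ih =>
    intro G _ _ hG K hK y z hyz
    have sub : ∀ N : Subgroup G, N ≠ ⊤ → ∀ x ∈ N, ∀ x' ∈ N, x * x'⁻¹ ∈ K → Conn K x x' :=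
      fun N hN x hx x' hx' h => by
        have h1 : Nat.card N < Nat.card G :=
          (Subgroup.card_le_card_group N).lt_of_ne fun e => hN (Subgroup.eq_top_of_card_eq N e)
        exact (ih N (by omega) (K.subgroupOf N) (hK.subgroupOf N) ⟨x, hx⟩ ⟨x', hx'⟩ h).map
          N.subtype fun v hv => hv
    by_cases h1 : ∃ Q : Subgroup G, Q.Normal ∧ Q ≠ ⊥ ∧ Group.IsSolvable Q
    · obtain ⟨Q, hQ, h0, hs⟩ := h1
      have h2 : Nat.card (G ⧸ Q) < Nat.card G := by
        rw [Subgroup.card_eq_card_quotient_mul_card_subgroup Q]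
        exact lt_mul_of_one_lt_right Nat.card_pos (Q.one_lt_card_iff_ne_bot.2 h0)
      have hs' := QuotientGroup.mk'_surjective Q
      refine Conn.lift (QuotientGroup.mk' Q) hs' (by rwa [QuotientGroup.ker_mk']) hK
        (ih (G ⧸ Q) (by omega) _ (hK.map _ hs') _ (QuotientGroup.mk' Q z) ⟨_, hyz, by simp⟩) z rfl
        hyz
    by_cases h2 : K ⊔ Subgroup.zpowers y = ⊤
    swap
    · refine sub _ h2 y (Subgroup.mem_sup_right (Subgroup.mem_zpowers y)) z ?_ hyz
      simpa using mul_mem (Subgroup.mem_sup_left (T := Subgroup.zpowers y) (co_symm hyz))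
        (Subgroup.mem_sup_right (Subgroup.mem_zpowers y))
    by_cases h3 : y ∈ K
    · have one : ∀ w ∈ K, Conn K w 1 := fun w hw => conn_solv (by simpa using hw) (by
        rw [Set.pair_comm, Subgroup.closure_insert_one]
        exact solv_one w)
      refine (one y h3).trans (one z ?_).symm
      simpa using mul_mem (co_symm hyz) h3
    have hab : ∀ g h : G, g * h * g⁻¹ * h⁻¹ ∈ K := fun g h => by
      have key : ∀ g : G, ∃ i : ℤ, QuotientGroup.mk' K g = QuotientGroup.mk' K y ^ i := fun g => by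
        have h4 : g ∈ ((K ⊔ Subgroup.zpowers y : Subgroup G) : Set G) := by rw [h2]; trivial
        rw [Subgroup.normal_mul] at h4
        obtain ⟨k, hk, _, ⟨i, rfl⟩, rfl⟩ := h4
        refine ⟨i, ?_⟩
        have : QuotientGroup.mk' K k = 1 := (QuotientGroup.eq_one_iff k).2 hk
        rw [map_mul, this, one_mul, map_zpow]
      obtain ⟨i, hi⟩ := key g
      obtain ⟨j, hj⟩ := key h
      rw [← QuotientGroup.ker_mk' K, MonoidHom.mem_ker, map_mul, map_mul, map_mul, map_inv, map_inv,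
        hi, hj]
      group
    have h4 : orderOf (QuotientGroup.mk' K y) ≠ 1 := fun e =>
      h3 ((QuotientGroup.eq_one_iff y).1 (orderOf_eq_one_iff.1 e))
    obtain ⟨r, hr, hd⟩ := Nat.exists_prime_and_dvd h4
    have : Fact r.Prime := ⟨hr⟩
    have h5 : QuotientGroup.mk' K y = QuotientGroup.mk' K z := by
      rw [← mul_inv_eq_one, ← map_inv, ← map_mul]
      exact (QuotientGroup.eq_one_iff _).2 hyz
    refine both (r := r) hK hab (fun Q h0 hQ => sub _ fun e => h1 ⟨Q,
      Subgroup.normalizer_eq_top_iff.1 e, h0, ?_⟩) (hd.trans (orderOf_map_dvd _ y))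
      ((h5 ▸ hd).trans (orderOf_map_dvd _ z)) hyz
    have := hQ.isNilpotent
    infer_instance

end Gp2

theorem blockGp2 : StmtGp2 := by
  intro G _ _ K hK a Pr h1 h2 ha y hy
  have h := Gp2.conn _ G (Nat.lt_succ_self _) K hK a y (Gp2.co_symm hy)
  clear hy
  induction h with
  | refl => exact ha
  | tail h3 h4 ih =>
    have h5 := Gp2.co_symm (Gp2.Conn.co hK h3)
    rcases h4 with ⟨v, hv, rfl⟩ | ⟨h6, h7⟩
    · exact h1 _ ih v hv
    · exact h2 _ _ h5 (Gp2.co_trans (Gp2.co_symm h6) h5) h7 ih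

end Pool.Agent.Lib.IW2
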