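import Pool.Agent.Lib.IW2.Blue4

/-! Block Gp3: supplements, the Frattini argument, generators. -/

open scoped Pointwise

namespace Pool.Agent.Lib.IW2

open Pool.Agent.Lib.IW

namespace Gp3

variable {G G' : Type} [Group G] [Finite G] [Group G'] {p : ℕ}

lemma supp (φ : G →* G') (hφ : Function.Surjective φ) : ∃ D : Subgroup G,
    Function.Surjective (φ.comp D.subtype) ∧ Group.IsSolvable (φ.comp D.subtype).ker := by
  obtain ⟨D, h1, h2⟩ := exists_minimal_of_wellFoundedLT (fun D : Subgroup G => D.map φ = ⊤)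
    ⟨⊤, Subgroup.map_top_of_surjective φ hφ⟩
  have hs : Function.Surjective (φ.comp D.subtype) := fun z => by
    obtain ⟨g, hg, e⟩ : z ∈ D.map φ := h1 ▸ Subgroup.mem_top z
    exact ⟨⟨g, hg⟩, e⟩
  have hle : (φ.comp D.subtype).ker ≤ frattini D := le_iInf₂ fun M hM => by
    by_contra hn
    have h3 : M ⊔ (φ.comp D.subtype).ker = ⊤ := hM.2 _ (left_lt_sup.2 hn)
    have h4 : (M.map D.subtype).map φ = ⊤ := by
      rw [Subgroup.map_map, ← Subgroup.map_top_of_surjective _ hs, ← h3, Subgroup.map_sup,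
        (Subgroup.map_eq_bot_iff _).2 le_rfl, sup_bot_eq]
    refine hM.1 (eq_top_iff.2 fun a _ => ?_)
    obtain ⟨b, hb, e⟩ := h2 h4 (Subgroup.map_subtype_le M) a.2
    rwa [← Subtype.ext e]
  have := frattini_nilpotent (G := D)
  exact ⟨D, hs, Group.isSolvable_of_isSolvable_injective (Subgroup.inclusion_injective hle)⟩

omit [Finite G] in
lemma le_pPart {I : Subgroup G} (h : IsPGroup p I) : I ≤ pPart p G := fun a ha => by
  obtain ⟨j, hj⟩ := h ⟨a, ha⟩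
  exact Subgroup.subset_normalClosure ⟨j, congrArg Subtype.val hj⟩

omit [Finite G] in
lemma pPart_pPart : pPart p (pPart p G) = ⊤ := by
  refine eq_top_iff.2 fun ⟨g, hg⟩ _ => ?_
  induction hg using Subgroup.closure_induction with
  | mem x hx =>
    obtain ⟨a, ⟨j, hj⟩, h⟩ := Group.mem_conjugatesOfSet_iff.1 hx
    obtain ⟨c, rfl⟩ := isConj_iff.1 h
    exact Subgroup.subset_normalClosure ⟨j, Subtype.ext (by
      change (c * a * c⁻¹) ^ p ^ j = 1
      rw [conj_pow, hj, mul_one, mul_inv_cancel])⟩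
  | one => exact one_mem (pPart p (pPart p G))
  | mul x y _ _ hx hy => exact mul_mem (hx trivial) (hy trivial)
  | inv x _ hx => exact inv_mem (hx trivial)

lemma unit_lift {w : G'} {M a b : ℕ} (hM : M ≠ 0) (hw : w ^ M = 1) (h : w = (w ^ a) ^ b) :
    ∃ a' b' : ℕ, w ^ a' = w ^ a ∧ a' * b' ≡ 1 [MOD M] := by
  have : NeZero M := ⟨hM⟩
  have hd : orderOf w ∣ M := orderOf_dvd_of_pow_eq_one hw
  have h1 : a * b ≡ 1 [MOD orderOf w] := by rw [← pow_eq_pow_iff_modEq, pow_mul, pow_one, ← h]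
  have h2 : a.Coprime (orderOf w) := Nat.coprime_of_mul_modEq_one b h1
  obtain ⟨v, hv⟩ := ZMod.unitsMap_surjective hd (ZMod.unitOfCoprime a h2)
  refine ⟨(v : ZMod M).val, (↑v⁻¹ : ZMod M).val, ?_, ?_⟩
  · rw [pow_eq_pow_iff_modEq, ← ZMod.natCast_eq_natCast_iff, ZMod.natCast_val,
      ← ZMod.coe_unitOfCoprime a h2, ← hv, ZMod.unitsMap_val]
  · rw [← ZMod.natCast_eq_natCast_iff, Nat.cast_mul, ZMod.natCast_zmod_val, ZMod.natCast_zmod_val,
      Units.mul_inv, Nat.cast_one]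

end Gp3

open Gp3 in
theorem blockGp3 : StmtGp3 where
  supp := fun _ _ _ _ _ φ hφ => supp φ hφ
  frat := fun p _ G _ _ S => by
    have h1 := le_pPart S.isPGroup'
    refine ⟨h1, fun h => S.not_dvd_index (h.trans (Subgroup.index_dvd_of_le h1)), pPart_pPart,
      fun g => ?_, fun I hI => ?_⟩
    · have h2 : g ∈ Subgroup.normalizer (S : Set G) ⊔ pPart p G :=
        S.normalizer_sup_eq_top' h1 ▸ Subgroup.mem_top g
      obtain ⟨n, hn, m, hm, rfl⟩ := Subgroup.mem_sup_of_normal_right.1 h2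
      refine ⟨n, hn, ?_⟩
      rw [mul_inv_rev, ← mul_assoc]
      exact Subgroup.Normal.conj_mem inferInstance _ (inv_mem hm) n
    · obtain ⟨Q, hQ⟩ := hI.exists_le_sylow
      obtain ⟨g, rfl⟩ := MulAction.exists_smul_eq G Q S
      exact ⟨g, fun a ha => Subgroup.smul_mem_pointwise_smul a (MulAut.conj g) _ (hQ ha)⟩
  norm := fun p _ G _ _ Q hQ => by
    obtain ⟨n, hn⟩ := hQ.exists_card_eq
    have h := (Sylow.card_quotient_normalizer_modEq_card_quotient hn).dvd_iff dvd_rfl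
    exact ⟨fun h1 => ⟨hQ.toSylow fun h2 => h1 (h.2 h2), rfl⟩,
      fun ⟨S, e⟩ h1 => S.not_dvd_index (e ▸ h.1 h1)⟩
  gen := by
    rintro p hp G G' _ _ _ ψ H P M ⟨h1, h2, h3, c₀, hc₀, h4⟩ hM hG hψ z hz
    have hM0 : M ≠ 0 := fun e => hM (e ▸ dvd_zero p)
    have : (P.subgroupOf H).Normal := ⟨fun a ha g => h3 g g.2 a ha⟩
    let π := QuotientGroup.mk' (P.subgroupOf H)
    let c : H := ⟨c₀, hc₀⟩
    have k1 : ∀ g : H, ∃ i : ℕ, π g = π c ^ i := fun g => by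
      obtain ⟨i, hi⟩ := h4 g g.2
      refine ⟨i, mul_inv_eq_one.1 ?_⟩
      rw [← map_pow, ← map_inv, ← map_mul]
      exact (QuotientGroup.eq_one_iff _).2 hi
    have k2 : ∀ g ∈ H, ∃ i : ℕ, ψ g = ψ c₀ ^ i := fun g hg => by
      obtain ⟨i, hi⟩ := h4 g hg
      obtain ⟨j, hj⟩ := h2 ⟨_, hi⟩
      have e1 : ψ (g * (c₀ ^ i)⁻¹) ^ Nat.gcd (p ^ j) M = 1 := pow_gcd_eq_one.2
        ⟨by rw [← map_pow, show (g * (c₀ ^ i)⁻¹) ^ p ^ j = 1 from congrArg Subtype.val hj,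
          map_one], hψ _⟩
      rw [Nat.Coprime.pow_left j ((Nat.Prime.coprime_iff_not_dvd hp.out).2 hM), pow_one, map_mul,
        map_inv, map_pow, mul_inv_eq_one] at e1
      exact ⟨i, e1⟩
    obtain ⟨g₀, hg₀, e₀⟩ := (hz z).2 ⟨1, (pow_one z).symm⟩
    obtain ⟨a, ha⟩ := k2 g₀ hg₀
    obtain ⟨b, hb⟩ := (hz (ψ c₀)).1 ⟨c₀, hc₀, rfl⟩
    rw [← e₀, ha] at hb
    obtain ⟨a', b', e1, e2⟩ := unit_lift hM0 (hψ c₀) hb
    let Z := (Subgroup.zpowers (π c ^ M)).comap π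
    have mZ : ∀ g : H, π g ∈ Subgroup.zpowers (π c ^ M) → (g : G) ∈ Z.map H.subtype :=
      fun g hg => ⟨g, hg, rfl⟩
    refine ⟨Z.map H.subtype, c₀ ^ a', Subgroup.map_subtype_le _, IsPGroup.map ?_ _,
      fun g hg => ?_, pow_mem hc₀ _, fun g hg => ?_, mZ ((c ^ a') ^ M) ?_, ?_⟩
    · refine IsPGroup.comap_of_ker_isPGroup ?_ π ?_
      · rintro ⟨_, t, rfl⟩
        obtain ⟨j, hj⟩ := hG c₀
        refine ⟨j, Subtype.ext ?_⟩
        change ((π c ^ M) ^ t) ^ p ^ j = 1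
        rw [← zpow_natCast, ← zpow_mul, mul_comm, zpow_mul, zpow_natCast, ← pow_mul, ← map_pow,
          show c ^ (M * p ^ j) = 1 from Subtype.ext hj, map_one, one_zpow]
      · rw [QuotientGroup.ker_mk']
        exact h2.comap_subtype
    · rintro _ ⟨a, ha, rfl⟩
      refine mZ (⟨g, hg⟩ * a * ⟨g, hg⟩⁻¹) ?_
      obtain ⟨i, hi⟩ := k1 ⟨g, hg⟩
      obtain ⟨j, hj⟩ := k1 a
      rw [map_mul, map_mul, map_inv, hi, hj, pow_mul_comm, mul_inv_cancel_right, ← hj]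
      exact ha
    · obtain ⟨i, hi⟩ := k1 ⟨g, hg⟩
      refine ⟨b' * i, mZ (⟨g, hg⟩ * ((c ^ a') ^ (b' * i))⁻¹) ?_⟩
      obtain ⟨t, ht⟩ := (e2.mul_right i).dvd
      refine ⟨t, ?_⟩
      beta_reduce
      rw [map_mul, map_inv, map_pow, map_pow, hi, ← pow_mul, ← zpow_natCast, ← zpow_mul, ← ht,
        zpow_sub, zpow_natCast, zpow_natCast, one_mul, mul_assoc]
    · rw [map_pow, map_pow, ← pow_mul, mul_comm, pow_mul]
      exact pow_mem (Subgroup.mem_zpowers _) _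
    · rw [map_pow, e1, ← ha, e₀]

end Pool.Agent.Lib.IW2
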