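import Pool.Agent.Lib.IW2.Blue2

/-! Hahn series with real exponents form a spherically complete field. -/

namespace Pool.Agent.Lib.IW2

namespace HAHN1

open HahnSeries

variable {k : Type} [Field k]

open Classical in
/-- The absolute value of a Hahn series. -/
noncomputable def nv (a : HahnSeries ℝ k) : ℝ := if a = 0 then 0 else Real.exp (-a.order)

lemma nv_zero : nv (0 : HahnSeries ℝ k) = 0 := if_pos rfl

lemma nv_ne {a : HahnSeries ℝ k} (h : a ≠ 0) : nv a = Real.exp (-a.order) := if_neg h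

lemma nv_nonneg (a : HahnSeries ℝ k) : 0 ≤ nv a := by
  rcases eq_or_ne a 0 with rfl | h
  · exact nv_zero.ge
  · rw [nv_ne h]
    exact (Real.exp_pos _).le

lemma le_nv {a : HahnSeries ℝ k} {γ : ℝ} (h : a.coeff γ ≠ 0) : Real.exp (-γ) ≤ nv a := by
  have h0 : a ≠ 0 := fun e => h (by simp [e])
  rw [nv_ne h0]
  exact Real.exp_le_exp.2 (neg_le_neg (order_le_of_coeff_ne_zero h))

lemma nv_le {a : HahnSeries ℝ k} {r : ℝ} (hr : 0 ≤ r)
    (h : ∀ γ, a.coeff γ ≠ 0 → Real.exp (-γ) ≤ r) : nv a ≤ r := by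
  rcases eq_or_ne a 0 with rfl | h0
  · exact nv_zero.le.trans hr
  · rw [nv_ne h0]
    exact h _ (coeff_order_eq_zero.not.2 h0)

lemma nv_add (a b : HahnSeries ℝ k) : nv (a + b) ≤ max (nv a) (nv b) := by
  refine nv_le ((nv_nonneg a).trans (le_max_left _ _)) fun γ h => ?_
  by_cases h1 : a.coeff γ = 0
  · rw [coeff_add, h1, zero_add] at h
    exact (le_nv h).trans (le_max_right _ _)
  · exact (le_nv h1).trans (le_max_left _ _)

variable (k) in
/-- The same as a bundled absolute value. -/
noncomputable def nu : AbsoluteValue (HahnSeries ℝ k) ℝ where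
  toFun := nv
  map_mul' := fun a b => by
    rcases eq_or_ne a 0 with rfl | ha
    · rw [zero_mul, nv_zero, zero_mul]
    rcases eq_or_ne b 0 with rfl | hb
    · rw [mul_zero, nv_zero, mul_zero]
    rw [nv_ne ha, nv_ne hb, nv_ne (mul_ne_zero ha hb), order_mul ha hb, neg_add, Real.exp_add]
  nonneg' := nv_nonneg
  eq_zero' := fun a => ⟨fun h => by
    by_contra h0
    rw [nv_ne h0] at h
    exact (Real.exp_pos _).ne' h, fun h => h ▸ nv_zero⟩
  add_le' := fun a b => (nv_add a b).trans
    (max_le (le_add_of_nonneg_right (nv_nonneg b)) (le_add_of_nonneg_left (nv_nonneg a)))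

lemma sph (a : ℕ → HahnSeries ℝ k) (r : ℕ → ℝ) (hr : Antitone r)
    (h : ∀ n, nv (a (n + 1) - a n) ≤ r n) : ∃ b, ∀ n, nv (b - a n) ≤ r n := by
  classical
  have h0 : ∀ n, 0 ≤ r n := fun n => (nv_nonneg _).trans (h n)
  have h1 : ∀ n γ, r n < Real.exp (-γ) → ∀ m, n ≤ m → (a m).coeff γ = (a n).coeff γ := by
    intro n γ hγ m hm
    induction m, hm using Nat.le_induction with
    | base => rfl
    | succ m hm ih =>
      rw [← ih, ← sub_eq_zero, ← coeff_sub]
      by_contra h2
      exact not_le.2 hγ (((le_nv h2).trans (h m)).trans (hr hm))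
  let c : ℝ → k := fun γ => if e : ∃ n, r n < Real.exp (-γ) then (a e.choose).coeff γ else 0
  have h2 : ∀ n γ, r n < Real.exp (-γ) → c γ = (a n).coeff γ := fun n γ hγ => by
    have e : ∃ n, r n < Real.exp (-γ) := ⟨n, hγ⟩
    rw [show c γ = (a e.choose).coeff γ from dif_pos e, ← h1 n γ hγ _ (le_max_left n e.choose),
      h1 _ γ e.choose_spec _ (le_max_right n e.choose)]
  have h3 : (Function.support c).IsWF := by
    rw [Set.isWF_iff_no_descending_seq]
    intro f hf hs
    have e : ∃ n, r n < Real.exp (-f 0) := by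
      by_contra e
      exact hs 0 (dif_neg e)
    obtain ⟨n, hn⟩ := e
    refine Set.isWF_iff_no_descending_seq.1 (a n).isWF_support f hf fun i => ?_
    have := hs i
    rwa [Function.mem_support, h2 n _
      (hn.trans_le (Real.exp_le_exp.2 (neg_le_neg (hf.antitone i.zero_le))))] at this
  refine ⟨⟨c, h3.isPWO⟩, fun n => nv_le (h0 n) fun γ hγ => not_lt.1 fun e => hγ ?_⟩
  rw [coeff_sub, sub_eq_zero]
  exact h2 n γ e

lemma alg_eq (c : k) : algebraMap k (HahnSeries ℝ k) c = single 0 c := by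
  rw [HahnSeries.algebraMap_apply']
  simp

lemma big : Big k (nu k) where
  na := nv_add
  const := fun c => nv_le zero_le_one fun γ h => by
    rw [alg_eq] at h
    rw [eq_of_mem_support_single h, neg_zero, Real.exp_zero]
  res := fun a h => ⟨a.coeff 0, by
    change nv _ < 1
    rw [alg_eq]
    rcases eq_or_ne (a - single 0 (a.coeff 0)) 0 with e | e
    · rw [e, nv_zero]
      exact one_pos
    · have h1 := coeff_order_eq_zero.not.2 e
      rw [nv_ne e]
      generalize (a - single 0 (a.coeff 0)).order = γ at h1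
      have h2 : γ ≠ 0 := fun e' => h1 (by simp [e'])
      rw [coeff_sub, coeff_single_of_ne h2, sub_zero] at h1
      refine ((le_nv h1).trans h).lt_of_ne fun e' => h2 ?_
      rwa [Real.exp_eq_one_iff, neg_eq_zero] at e'⟩
  onto := fun r hr => ⟨single (-Real.log r) 1, by
    change nv _ = r
    rw [nv_ne (single_ne_zero one_ne_zero), order_single one_ne_zero, neg_neg, Real.exp_log hr]⟩
  sph := sph

end HAHN1

theorem blockHAHN1 : StmtHAHN1 := fun k _ =>
  ⟨HahnSeries ℝ k, inferInstance, inferInstance, HAHN1.nu k, HAHN1.big⟩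

end Pool.Agent.Lib.IW2
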