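import Pool.Agent.Lib.IW2.Blue2

/-! A spherically complete field with all positive values and algebraically closed residue field
is algebraically closed. -/

namespace Pool.Agent.Lib.IW2

open Pool.Agent.Lib.IW Filter Topology

namespace HAHN2

lemma onto (N1 : StmtN1) {k K : Type} [Field k] [IsAlgClosed k] [NormedField K] [Algebra k K]
    {ν : AbsoluteValue K ℝ} (h : Big k ν) (hn : ∀ a : K, ‖a‖ = ν a) : IsAlgClosed K := by
  have : IsUltrametricDist K :=
    IsUltrametricDist.isUltrametricDist_of_forall_norm_add_le_max_norm fun x y => by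
      rw [hn, hn, hn]; exact h.na x y
  have : CompleteSpace K := by
    refine Metric.complete_of_convergent_controlled_sequences (fun n => (1 / 2 : ℝ) ^ n)
      (fun n => by positivity) fun u hu => ?_
    obtain ⟨b, hb⟩ := h.sph u (fun n => (1 / 2 : ℝ) ^ n)
      (fun m n hmn => pow_le_pow_of_le_one (by norm_num) (by norm_num) hmn) fun n => by
        rw [← hn, ← dist_eq_norm]
        exact (hu n (n + 1) n (Nat.le_succ n) le_rfl).le
    refine ⟨b, tendsto_iff_dist_tendsto_zero.2 (squeeze_zero (fun _ => dist_nonneg) (fun n => ?_)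
      (tendsto_pow_atTop_nhds_zero_of_lt_one (r := (1 / 2 : ℝ)) (by norm_num) (by norm_num)))⟩
    rw [dist_comm, dist_eq_norm, hn]
    exact hb n
  obtain ⟨t, ht⟩ := h.onto (1 / 2) (by norm_num)
  obtain ⟨L, _, _, _, j, hj, ha⟩ := Khat.spec K (t := t)
    (by rintro rfl; rw [map_zero] at ht; norm_num at ht) (by rw [hn, ht]; norm_num)
  have hR : Khat.Res (j.comp (algebraMap k K)) := Khat.res_alg
    ⟨fun c => by rw [hn]; exact h.const c, fun a ha => by
      simp only [hn] at ha ⊢; exact h.res a ha⟩ j hj ha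
  let _ := j.toAlgebra
  have hs : ∀ (c : K) (e : L), c • e = j c * e := fun _ _ => rfl
  suffices hsurj : Function.Surjective j from
    IsAlgClosed.of_ringEquiv L K (RingEquiv.ofBijective j ⟨j.injective, hsurj⟩).symm
  intro y
  by_contra hy
  have hli : LinearIndependent K ![(1 : L), y] := by
    refine LinearIndependent.pair_iff.2 fun a b hab => ?_
    rw [hs, hs, mul_one] at hab
    have hb : b = 0 := by
      by_contra hb
      refine hy ⟨-a / b, ?_⟩
      rw [map_div₀, map_neg, div_eq_iff ((map_ne_zero j).2 hb)]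
      linear_combination -hab
    rw [hb, map_zero, zero_mul, add_zero, map_eq_zero] at hab
    exact ⟨hab, hb⟩
  obtain ⟨w, -, h1, h2⟩ := N1 k K ν h L (fun e => ‖e‖) norm_nonneg (fun e => norm_eq_zero.1)
    (fun c e => by rw [hs, norm_mul, hj, hn]) IsUltrametricDist.norm_add_le_max 2 _ hli
  have h3 : 1 ≤ ‖w 0‖ := by simpa using h2 ![1, 0] 0
  have h0 : w 0 ≠ 0 := norm_pos_iff.1 (one_pos.trans_le h3)
  obtain ⟨c, hc⟩ := hR.2 (w 1 / w 0) (by
    rw [norm_div]
    exact div_le_one_of_le₀ ((h1 1).trans h3) (norm_nonneg _))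
  have h4 := h2 ![-algebraMap k K c, 1] 1
  have e : ∑ i, (![-algebraMap k K c, 1] : Fin 2 → K) i • w i =
      (w 1 / w 0 - j.comp (algebraMap k K) c) * w 0 := by
    rw [Fin.sum_univ_two, hs, hs, sub_mul, div_mul_cancel₀ _ h0]
    simp
    ring
  rw [e, norm_mul] at h4
  have h5 : (1 : ℝ) ≤ ‖w 1 / w 0 - j.comp (algebraMap k K) c‖ * ‖w 0‖ := by simpa using h4
  exact h5.not_gt ((mul_le_of_le_one_right (norm_nonneg _) (h1 0)).trans_lt hc)

end HAHN2

theorem blockHAHN2 (N1 : StmtN1) : StmtHAHN2 := by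
  intro k 𝕜 _ _ _ _ ν h
  exact @HAHN2.onto N1 k 𝕜 _ _ ν.toNormedField _ ν h fun _ => rfl

end Pool.Agent.Lib.IW2
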