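import Pool.Agent.Lib.IW2.Blue4

/-! Block INDX: cocycles with values in an induced module, with one free place. -/

open Polynomial IntermediateField
open scoped Pointwise

namespace Pool.Agent.Lib.IW2

open Pool.Agent.Lib.IW Pool.Agent.Lib.IW.Ind

namespace INDX

variable {k Ω : Type} [Field k] [Field Ω] [Algebra k Ω]

open Classical in
lemma eval_divX [IsAlgClosed k] (hB : StmtBas) {x : Ω} (hx : Co k x)
    {F L : IntermediateField k Ω} (hL : ∀ γ ∈ F.fixingSubgroup, ∀ y ∈ L, γ y ∈ L) {n : ℕ}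
    (hn : (n : k) ≠ 0) {ω : Ω} (hω : ω ^ n = 1)
    {f : Ω} {W₁ W₂ W : ValuationSubring Ω} (hf : DivMod L n f W₁ W₂) (hW : IsPl k W) {π r φ : Ω}
    (hπ : IsUnif L W π) (hr : r ^ n = π) {δ : Aut k Ω} (hδ : δ ∈ F.fixingSubgroup) (hφ : φ ^ n = δ f)
    {γ : Aut k Ω} (hγ : γ ∈ DecF L W) {j : ℤ} (hj : γ r = ω ^ j * r) :
    γ φ / φ = ω ^ (j * ((if Agr L (δ⁻¹ • W) W₁ then 1 else 0) -
      (if Agr L (δ⁻¹ • W) W₂ then 1 else 0))) := by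
  have hn0 : n ≠ 0 := by
    rintro rfl
    simp at hn
  have hω0 : ω ≠ 0 := by
    rintro rfl
    simp [hn0] at hω
  have hW' := (hB.smulPl k Ω W hW δ⁻¹).1
  obtain ⟨i, hi, t, ht⟩ := hf.2.2 (δ⁻¹ • W) hW' (δ⁻¹ π)
    (unif_smul hB hW hπ (hL _ (inv_mem hδ)) (by simpa using hL _ hδ))
  have h4 := (hB.smulPl k Ω _ hW' δ).2.2.2
  rw [smul_inv_smul] at h4
  have h5 : δ (δ⁻¹ π ^ i) = π ^ i := by
    rw [map_zpow₀]
    exact congrArg (· ^ i) (δ.apply_symm_apply π)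
  rw [← map_zpow₀] at hi
  have hv : W.valuation (φ ^ n) = W.valuation π ^ i := by
    rw [hφ, ← map_zpow₀, ← h5]
    exact le_antisymm ((h4 _ _).2 hi.le) ((h4 _ _).2 hi.ge)
  have h6 := unit_fix hB hx hW hn hπ hr (hφ ▸ hL δ hδ f hf.1) hv hγ
  have hr0 : r ≠ 0 := by
    rintro rfl
    exact hπ.2.1 (by rw [← hr, zero_pow hn0])
  have hφ0 : φ ≠ 0 := by
    rintro rfl
    rw [zero_pow hn0, eq_comm, map_eq_zero] at hφ
    exact hf.2.1 hφ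
  have h7 : γ φ / φ = ω ^ (j * i) := by
    rw [map_div₀, map_zpow₀, hj, mul_zpow, ← zpow_mul, div_eq_div_iff
      (mul_ne_zero (zpow_ne_zero _ hω0) (zpow_ne_zero _ hr0)) (zpow_ne_zero _ hr0)] at h6
    rw [div_eq_iff hφ0]
    apply mul_right_cancel₀ (zpow_ne_zero i hr0)
    rw [h6]
    ring
  generalize (if Agr L (δ⁻¹ • W) W₁ then (1 : ℤ) else 0) = e₁ at ht ⊢
  generalize (if Agr L (δ⁻¹ • W) W₂ then (1 : ℤ) else 0) = e₂ at ht ⊢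
  have h8 : j * i = n * (j * t) + j * (e₁ - e₂) := by linear_combination j * ht
  rw [h7, h8, zpow_add₀ hω0, zpow_mul, zpow_natCast, hω, one_zpow, one_mul]

lemma agr_iffX [IsAlgClosed Ω] (hC : StmtConj) {F L : IntermediateField k Ω}
    (hff : FF L) {H : Type} [Group H] {ρ : Aut k Ω → H} (hρ : IsRep F.fixingSubgroup ρ)
    (hfix : ∀ γ : Aut k Ω, γ ∈ L.fixingSubgroup ↔ γ ∈ F.fixingSubgroup ∧ ρ γ = 1) (W : ValuationSubring Ω)
    {δ δ' : Aut k Ω} (hδ : δ ∈ F.fixingSubgroup) (hδ' : δ' ∈ F.fixingSubgroup) :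
    Agr L (δ⁻¹ • W) (δ'⁻¹ • W) ↔ ρ δ' * (ρ δ)⁻¹ ∈ (hρ.mono (DecF_le F W)).im := by
  rw [IsRep.mem_im]
  constructor
  · intro h
    obtain ⟨τ, hτ, e⟩ := hC k Ω L (ff_alg hff) _ _ h
    obtain ⟨h1, h2⟩ := (hfix τ).1 hτ
    have h3 := mul_mem (mul_mem hδ' h1) (inv_mem hδ)
    refine ⟨δ' * τ * δ⁻¹, ⟨h3, ?_⟩, ?_⟩
    · show (δ' * τ * δ⁻¹) • W = W
      rw [mul_smul, mul_smul, e, smul_inv_smul]
    · rw [hρ.mul _ (mul_mem hδ' h1) _ (inv_mem hδ), hρ.mul _ hδ' _ h1, h2, hρ.inv hδ, mul_one]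
  · rintro ⟨γ, hγ, e⟩
    have h1 := DecF_le F W hγ
    have h2 : δ'⁻¹ * γ * δ ∈ L.fixingSubgroup := by
      refine (hfix _).2 ⟨mul_mem (mul_mem (inv_mem hδ') h1) hδ, ?_⟩
      rw [hρ.mul _ (mul_mem (inv_mem hδ') h1) _ hδ, hρ.mul _ (inv_mem hδ') _ h1, hρ.inv hδ', e]
      group
    have h3 := agr_smul h2 (δ⁻¹ • W)
    rwa [mul_smul, mul_smul, smul_inv_smul, (mem_DecF.1 hγ).2] at h3

lemma agr_downX {F L : IntermediateField k Ω} (hle : F ≤ L) {W W' : ValuationSubring Ω}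
    {δ δ' : Aut k Ω} (hδ : δ ∈ F.fixingSubgroup) (hδ' : δ' ∈ F.fixingSubgroup)
    (h : Agr L (δ⁻¹ • W') (δ'⁻¹ • W)) : Agr F W W' := fun y hy => by
  rw [agr_smul (inv_mem hδ') W y hy, agr_smul (inv_mem hδ) W' y hy]
  exact (h y (hle hy)).symm

lemma agr_downY {F L : IntermediateField k Ω} (hle : F ≤ L) {W W' : ValuationSubring Ω}
    {δ : Aut k Ω} (hδ : δ ∈ F.fixingSubgroup)
    (h : Agr L (δ⁻¹ • W') W) : Agr F W W' := fun y hy => by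
  rw [agr_smul (inv_mem hδ) W' y hy]
  exact (h y (hle hy)).symm

/-- The local cocycle on the inertia group upstairs is the tame character times a residue. -/
lemma exists_resX (hF : Found) {p : ℕ} [Fact p.Prime] [IsAlgClosed k] [CharP k p] [IsAlgClosed Ω]
    {x : Ω} (hx : Co k x) {F L : IntermediateField k Ω} (hff : FF L)
    (hL : ∀ γ ∈ F.fixingSubgroup, ∀ y ∈ L, γ y ∈ L) {H A : Type} [Group H] [AddCommGroup A] [Finite A]
    {ρ : Aut k Ω → H} (hρ : IsRep F.fixingSubgroup ρ)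
    (hfix : ∀ γ : Aut k Ω, γ ∈ L.fixingSubgroup ↔ γ ∈ F.fixingSubgroup ∧ ρ γ = 1) {n : ℕ} (hn : ¬ p ∣ n)
    (hA : ∀ a : A, n • a = 0) {W : ValuationSubring Ω} (hW : IsPl k W) {c₀ : Aut k Ω → H → A}
    (hc : ∀ γ ∈ DecF F W, ∀ δ ∈ DecF F W, ∀ h, c₀ (γ * δ) h = c₀ γ h + c₀ δ ((ρ γ)⁻¹ * h))
    (hcts : Cts (DecF F W) c₀) {π r ω : Ω} (hπ : IsUnif L W π) (hr : r ^ n = π)
    (hω : ω ^ n = 1) : ∃ res : H → A,
      (∀ h h', h' * h⁻¹ ∈ (hρ.mono (DecF_le F W)).im → res h = res h') ∧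
      ∀ γ ∈ DecF L W, ∀ j : ℕ, γ r = ω ^ j * r → ∀ h, c₀ γ h = j • res h := by
  have hnk : (n : k) ≠ 0 := fun h => hn ((CharP.cast_eq_zero_iff k p n).1 h)
  have hn0 : n ≠ 0 := by
    rintro rfl
    simp at hn
  have hle : ∀ γ ∈ DecF L W, γ ∈ DecF F W ∧ ρ γ = 1 := fun γ hγ =>
    ⟨⟨((hfix γ).1 hγ.1).1, hγ.2⟩, ((hfix γ).1 hγ.1).2⟩
  have hrep : ∀ h, IsRep (DecF L W) fun γ => Multiplicative.ofAdd (c₀ γ h) := fun h =>
    ⟨fun γ hγ δ hδ => by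
      rw [hc γ (hle γ hγ).1 δ (hle δ hδ).1, (hle γ hγ).2, inv_one, one_mul, ofAdd_add],
      (hcts.mono fun γ hγ => (hle γ hγ).1).comp fun c => Multiplicative.ofAdd (c h)⟩
  obtain ⟨γ₁, hγ₁, h1⟩ := hF.tame1 p k Ω L hff W hW π hπ n hn r ω hr hω
  have h2 : ∀ j : ℕ, (γ₁ ^ j) r = ω ^ j * r := fun j => by
    induction j with
    | zero => simp
    | succ j ih =>
      rw [pow_succ', AlgEquiv.mul_apply, ih, map_mul, map_pow, root_fixed hn0 hω, h1]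
      ring
  have h3 : ∀ γ ∈ DecF L W, ∀ j : ℕ, γ r = ω ^ j * r → ∀ h, c₀ γ h = j • c₀ γ₁ h := by
    intro γ hγ j hj h
    have h4 := mul_mem (inv_mem (pow_mem hγ₁ j)) hγ
    have h5 : ∀ a : A, Multiplicative.ofAdd a ^ n = 1 := fun a => by
      rw [← ofAdd_nsmul, hA, ofAdd_zero]
    obtain ⟨i, hi⟩ := hF.tame2 p k Ω L hff W hW π hπ _ _ (hrep h) n hn
      (fun γ _ => ⟨0, by rw [pow_zero, mul_one, h5]⟩) r hr _ h4 (by
        rw [AlgEquiv.mul_apply, hj, ← h2]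
        exact (γ₁ ^ j).symm_apply_apply r)
    have h6 := (pow_eq_one_iff_of_coprime
      (((Nat.Prime.coprime_iff_not_dvd Fact.out).2 hn).pow_left i)).1 ⟨hi, h5 _⟩
    have h7 := (hrep h).mul _ (pow_mem hγ₁ j) _ h4
    rw [mul_inv_cancel_left, h6, mul_one, (hrep h).pow hγ₁, ← ofAdd_nsmul] at h7
    exact Multiplicative.ofAdd.injective h7
  refine ⟨c₀ γ₁, fun h h' e => ?_, h3⟩
  obtain ⟨δ, hδ, e⟩ := (IsRep.mem_im _).1 e
  have hδ' := DecF_le F W hδ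
  have hγ₁' := DecF_le F W (hle _ hγ₁).1
  have h4 : δ⁻¹ * γ₁ * δ ∈ DecF L W := by
    refine ⟨(hfix _).2 ⟨mul_mem (mul_mem (inv_mem hδ') hγ₁') hδ', ?_⟩,
      (W.decompositionSubgroup k).mul_mem ((W.decompositionSubgroup k).mul_mem
        ((W.decompositionSubgroup k).inv_mem hδ.2) hγ₁.2) hδ.2⟩
    rw [hρ.mul _ (mul_mem (inv_mem hδ') hγ₁') _ hδ', hρ.mul _ (inv_mem hδ') _ hγ₁', hρ.inv hδ',
      (hle _ hγ₁).2]
    group
  have h5 := unif_smul hF.bas hW hπ (hL δ hδ') (hL _ (inv_mem hδ'))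
  rw [(mem_DecF.1 hδ).2] at h5
  have h6 : (δ r) ^ n = δ π := by rw [← map_pow, hr]
  have h7 := unit_fix hF.bas hx hW hnk hπ hr (φ := δ r) (h6 ▸ h5.1) (i := 1) (by
    rw [h6, zpow_one]
    exact le_antisymm (hπ.2.2.2 _ h5.1 h5.2.2.1) (h5.2.2.2 _ hπ.1 hπ.2.2.1)) hγ₁
  have hr0 : r ≠ 0 := by
    rintro rfl
    exact hπ.2.1 (by rw [← hr, zero_pow hn0])
  have hω0 : ω ≠ 0 := by
    rintro rfl
    simp [hn0] at hω
  have h8 : γ₁ (δ r) = δ (ω * r) := by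
    rw [zpow_one, map_div₀, h1, div_eq_div_iff (mul_ne_zero hω0 hr0) hr0] at h7
    rw [map_mul, root_fixed hn0 hω]
    apply mul_right_cancel₀ hr0
    rw [h7]
    ring
  have h9 := h3 _ h4 1 (by
    rw [AlgEquiv.mul_apply, AlgEquiv.mul_apply, h8, pow_one]
    exact δ.symm_apply_apply _) h
  have h10 := hc δ hδ _ (hle _ h4).1 h'
  have h11 := hc γ₁ (hle _ hγ₁).1 δ hδ h'
  rw [(hle _ hγ₁).2, inv_one, one_mul] at h11
  rw [show δ * (δ⁻¹ * γ₁ * δ) = γ₁ * δ by group, h11, e,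
    show (h' * h⁻¹)⁻¹ * h' = h by group, h9, one_nsmul, add_comm] at h10
  exact (add_left_cancel h10).symm

end INDX

open INDX in
theorem blockINDX : StmtINDX := by
  classical
  intro p _ k Ω _ _ _ _ _ _ F L hFF hff hFL _ hL H A _ _ _ _ ρ hρ hsurj hfix n hn hA hP W W₁ hW hW₁
    hne₁ c₀ hc hcts
  have hF := found
  obtain ⟨-, x, -, hx⟩ := hFF
  have := Fintype.ofFinite H
  have hnk : (n : k) ≠ 0 := fun h => hn ((CharP.cast_eq_zero_iff k p n).1 h)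
  have hn0 : n ≠ 0 := by
    rintro rfl
    simp at hn
  obtain ⟨ω, hω⟩ := exists_prim (k := k) (Ω := Ω) p hn
  have hω0 := hω.ne_zero hn0
  obtain ⟨ℓ, hℓ⟩ := exists_ell hn0 hω hA
  obtain ⟨π, hπ⟩ := hF.unif.ex k Ω L hff W hW
  obtain ⟨r, hr⟩ := IsAlgClosed.exists_pow_nat_eq π (Nat.pos_of_ne_zero hn0)
  obtain ⟨res, hres, hres'⟩ := exists_resX hF hx hff hL hρ hfix hn hA hW hc hcts hπ hr hω.pow_eq_one
  set I := (hρ.mono (DecF_le F W)).im with hI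
  obtain ⟨rep, hrep, hrep'⟩ := exists_rep I
  choose δ hδ hδ' using hsurj
  choose f hf using fun h₀ : H => hP ((δ h₀)⁻¹ • W) W₁ (hF.bas.smulPl k Ω W hW _).1 hW₁
  choose φ hφ using fun i : H × H =>
    IsAlgClosed.exists_pow_nat_eq (δ i.2 (f i.1)) (Nat.pos_of_ne_zero hn0)
  have hφ0 : ∀ i, φ i ≠ 0 := fun i h => by
    have h1 := hφ i
    rw [h, zero_pow hn0, eq_comm, map_eq_zero] at h1
    exact (hf _).2.1 h1
  have hroot : ∀ γ ∈ F.fixingSubgroup, ∀ h₀ h, (γ (φ (h₀, (ρ γ)⁻¹ * h)) / φ (h₀, h)) ^ n = 1 := by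
    intro γ hγ h₀ h
    have h1 := mul_mem hγ (hδ ((ρ γ)⁻¹ * h))
    have h2 := (hfix _).2 ⟨mul_mem (inv_mem (hδ h)) h1, by
      rw [hρ.mul _ (inv_mem (hδ h)) _ h1, hρ.inv (hδ h), hρ.mul _ hγ _ (hδ _), hδ', hδ']
      group⟩
    have h3 := congrArg (δ h)
      ((IntermediateField.mem_fixingSubgroup_iff L _).1 h2 _ (hf h₀).1)
    rw [← AlgEquiv.mul_apply, mul_inv_cancel_left, AlgEquiv.mul_apply] at h3
    rw [div_pow, ← map_pow, hφ, hφ, h3, div_self]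
    rw [← hφ (h₀, h)]
    exact pow_ne_zero _ (hφ0 _)
  let c : Aut k Ω → H → A := fun γ h => ∑ h₀ ∈ Finset.univ.image rep,
    ℓ (γ (φ (h₀, (ρ γ)⁻¹ * h)) / φ (h₀, h)) (res h₀)
  have hcoc : ∀ γ ∈ F.fixingSubgroup, ∀ τ ∈ F.fixingSubgroup, ∀ h, c (γ * τ) h = c γ h + c τ ((ρ γ)⁻¹ * h) := by
    intro γ hγ τ hτ h
    simp only [c]
    rw [← Finset.sum_add_distrib]
    refine Finset.sum_congr rfl fun h₀ _ => ?_
    obtain ⟨i, hi⟩ := exists_zpow hn0 hω (hroot γ hγ h₀ h)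
    obtain ⟨j, hj⟩ := exists_zpow hn0 hω (hroot τ hτ h₀ ((ρ γ)⁻¹ * h))
    have h1 : (γ * τ) (φ (h₀, (ρ (γ * τ))⁻¹ * h)) / φ (h₀, h) = ω ^ (i + j) := by
      rw [hρ.mul γ hγ τ hτ, mul_inv_rev, mul_assoc, AlgEquiv.mul_apply,
        (div_eq_iff (hφ0 _)).1 hj, map_mul, map_zpow₀, root_fixed hn0 hω.pow_eq_one,
        mul_div_assoc, hi, zpow_add₀ hω0, mul_comm]
    rw [h1, hi, hj, hℓ, hℓ, hℓ, add_smul]
  have hccts : Cts F.fixingSubgroup c :=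
    hρ.cts.comp₂ (cts_family F.fixingSubgroup φ) fun (u : H) (v : H × H → Ω) (h : H) =>
      ∑ h₀ ∈ Finset.univ.image rep, ℓ (v (h₀, u⁻¹ * h) / φ (h₀, h)) (res h₀)
  have hsum : ∀ h, ∑ h₀ ∈ Finset.univ.image rep,
      (if h₀ * h⁻¹ ∈ I then (1 : ℤ) else 0) • res h₀ = res h := by
    intro h
    rw [Finset.sum_eq_single (rep h)]
    · have h1 : rep h * h⁻¹ ∈ I := by simpa using inv_mem (hrep h)
      rw [if_pos h1, one_smul, hres h _ h1]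
    · intro h₀ h1 h2
      obtain ⟨u, -, rfl⟩ := Finset.mem_image.1 h1
      rw [if_neg, zero_smul]
      intro h3
      exact h2 (hrep' h u (by simpa [mul_assoc] using mul_mem (hrep u) h3)).symm
    · intro h1
      exact absurd (Finset.mem_image_of_mem rep (Finset.mem_univ h)) h1
  have hDec : ∀ W' : ValuationSubring Ω, ∀ γ ∈ DecF F W', ρ γ = 1 → γ ∈ DecF L W' :=
    fun W' γ hγ h1 => ⟨(hfix γ).2 ⟨hγ.1, h1⟩, hγ.2⟩
  have hexp : ∀ (W' : ValuationSubring Ω) (π' r' : Ω), IsUnif L W' π' → r' ^ n = π' →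
      ∀ γ ∈ DecF L W', ∃ j : ℕ, γ r' = ω ^ j * r' := by
    intro W' π' r' hπ' hr' γ hγ
    have : NeZero n := ⟨hn0⟩
    have hr0 : r' ≠ 0 := by
      rintro rfl
      exact hπ'.2.1 (by rw [← hr', zero_pow hn0])
    obtain ⟨j, -, hj⟩ := hω.eq_pow_of_pow_eq_one (ξ := γ r' / r') (by
      rw [div_pow, ← map_pow, hr', (mem_DecF.1 hγ).1 _ hπ'.1, div_self hπ'.2.1])
    exact ⟨j, by rw [hj, div_mul_cancel₀ _ hr0]⟩
  obtain ⟨a, ha⟩ := cobdry (hρ.mono (DecF_le F W)) (fun γ h => c γ h - c₀ γ h)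
    (fun γ hγ τ hτ h => by
      rw [hcoc γ hγ.1 τ hτ.1, hc γ hγ τ hτ]
      abel)
    (fun γ hγ h1 h => by
      have h2 := hDec W γ hγ h1
      obtain ⟨j, hj⟩ := hexp W π r hπ hr γ h2
      rw [sub_eq_zero, hres' γ h2 j hj, ← hsum h, Finset.smul_sum]
      refine Finset.sum_congr rfl fun h₀ _ => ?_
      rw [h1, inv_one, one_mul, eval_divX hF.bas hx hL hnk hω.pow_eq_one (hf h₀) hW hπ hr (hδ h)
        (hφ (h₀, h)) h2 (j := j) (by rw [zpow_natCast, hj]), hℓ, mul_smul, natCast_zsmul,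
        if_congr (agr_iffX hF.conj hff hρ hfix W (hδ h) (hδ _)) rfl rfl,
        if_neg fun e => hne₁ fun y hy => (agr_downY hFL (hδ h) e y hy).symm, sub_zero, hδ', hδ'])
  refine ⟨fun γ h => c γ h - (a ((ρ γ)⁻¹ * h) - a h), fun γ hγ τ hτ h => ?_,
    hccts.comp₂ hρ.cts fun (v : H → A) (u : H) (h : H) => v h - (a (u⁻¹ * h) - a h),
    fun γ hγ h => ?_, fun W' hW' hne hne' => ?_⟩
  · beta_reduce
    rw [hcoc γ hγ τ hτ, hρ.mul γ hγ τ hτ, mul_inv_rev, mul_assoc]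
    abel
  · beta_reduce
    rw [← ha γ hγ h]
    abel
  · obtain ⟨π', hπ'⟩ := hF.unif.ex k Ω L hff W' hW'
    obtain ⟨r', hr'⟩ := IsAlgClosed.exists_pow_nat_eq π' (Nat.pos_of_ne_zero hn0)
    obtain ⟨a', ha'⟩ := cobdry (hρ.mono (DecF_le F W')) c
      (fun γ hγ τ hτ h => hcoc γ hγ.1 τ hτ.1 h) (fun γ hγ h1 h => by
        have h2 := hDec W' γ hγ h1
        obtain ⟨j, hj⟩ := hexp W' π' r' hπ' hr' γ h2
        refine Finset.sum_eq_zero fun h₀ _ => ?_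
        rw [h1, inv_one, one_mul, eval_divX hF.bas hx hL hnk hω.pow_eq_one (hf h₀) hW' hπ' hr'
          (hδ h) (hφ (h₀, h)) h2 (j := j) (by rw [zpow_natCast, hj]), hℓ,
          if_neg fun e => hne (agr_downX hFL (hδ h) (hδ _) e),
          if_neg fun e => hne' (agr_downY hFL (hδ h) e), sub_zero, mul_zero, zero_smul])
    refine ⟨fun h => a' h - a h, fun γ hγ h => ?_⟩
    beta_reduce
    rw [ha' γ hγ h]
    abel

end Pool.Agent.Lib.IW2
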