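import Pool.Agent.Lib.IW2.All1
import Pool.Agent.Lib.IW2.Blue4

/-! The inner cover. -/

open Polynomial IntermediateField

namespace Pool.Agent.Lib.IW2

open Pool.Agent.Lib.IW

namespace INNER

lemma expo {p M : ℕ} [hp : Fact p.Prime] {G : Type} [Group G] {N : Subgroup G} [N.Normal]
    (h : ¬ p ∣ Nat.card (G ⧸ N)) (hE : ∀ g : G, ∃ j : ℕ, g ^ (M * p ^ j) = 1) (z : G ⧸ N) :
    z ^ M = 1 := by
  obtain ⟨g, rfl⟩ := QuotientGroup.mk_surjective z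
  obtain ⟨j, hj⟩ := hE g
  refine orderOf_eq_one_iff.1 (Nat.eq_one_of_dvd_coprimes
    (((Nat.Prime.coprime_iff_not_dvd hp.out).2 h).pow_left j) (orderOf_dvd_of_pow_eq_one ?_)
    (orderOf_dvd_natCard _))
  rw [← pow_mul, ← QuotientGroup.mk_pow, hj, QuotientGroup.mk_one]

end INNER

theorem blockINNER (hG : StmtGp3) (hK : StmtKG) (hJ : StmtJOIN) (hR : StmtRAY)
    (hC : StmtCHAIN) : StmtINNER := by
  intro p _ k Ω _ _ _ _ _ _ x q M ω hx hM hω hq G _ _ hE H P c hPH hP hn hc hg hcM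
  have hq0 : q ≠ 0 := (co_of_pow found.bas hx hq).ne_zero
  obtain ⟨β₀, V₀, V, d₀, r0, u0, pl0, v0, im0, lq0, plV, hV, dM, l0⟩ :=
    hK p k Ω x q M ω hx hM hω hq G H P c hPH hP hn hc hg hcM
  let I : Set (G × Ω) := {z | ∃ γ ∈ Dec k x V₀, β₀ γ = z.1 ∧ γ q = z.2 * q}
  have c0 : CH p M x q (algebraMap k Ω ω) V₀ I β₀ ⊥ d₀ :=
    ⟨r0, u0, ⟨V₀, pl0, fun _ _ => Iff.rfl, 1, fun h ζ => by simp [I, DecF_adjoin]⟩,
      IsPGroup.of_bot, by rw [Subgroup.normalizer_eq_top]; trivial, by simp [dM], V, plV, hV,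
      fun γ hγ i e => by simp [l0 γ hγ i e]⟩
  obtain ⟨β₁, S, d, c1⟩ := hC p k Ω x q M ω hx hM hω hq G hE V₀ I β₀ ⊥ d₀ pl0 v0 c0
  obtain ⟨fS, fN, fP, -, fI⟩ := hG.frat p G S
  obtain ⟨I', pI', ρ', r', on', un', W, plW, hW, imW⟩ := hR p k Ω x hx (pPart p G) fP
  obtain ⟨g, hg'⟩ := fI _ (pI'.map (pPart p G).subtype)
  obtain ⟨β, c2, -, v, -, hv⟩ := hJ p k Ω x q M ω hx hM hω hq G V₀ I β₁
    (fun γ => g * (pPart p G).subtype (ρ' γ) * g⁻¹) S d pl0 v0 c1 ((r'.comp _).conj g)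
    (fun U hU hxU γ hγ => by simp [un' U hU hxU γ hγ])
    ⟨W, plW, hW, fun γ hγ => hg' _ ⟨ρ' γ, imW.le ⟨γ, hγ, rfl⟩, rfl⟩⟩
  have nN : (pPart p G).Normal := inferInstance
  obtain ⟨e, he⟩ := kumg.two p k Ω x q M ω hx hM hq hω (G ⧸ pPart p G)
    (fun γ => QuotientGroup.mk' _ (β γ)) (c2.1.comp _)
    (fun U hU hxU γ hγ => by simp [c2.2.1 U hU hxU γ hγ]) (INNER.expo fN hE)
  have hω1 : algebraMap k Ω ω ^ M = 1 := by rw [← map_pow, hω.pow_eq_one, map_one]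
  obtain ⟨V', plV', hV', lq⟩ := c2.2.2.2.2.2.2
  obtain ⟨τ, t1, t2⟩ := loc.tau p k Ω k⟮x⟯ hx.ff V' x⁻¹ q _ M plV'
    (found.bas.unifInf k Ω x hx.tr V' plV' hV') hM (Or.inr (by rw [inv_inv, hq])) hω1
  obtain ⟨σ, s1, s2⟩ := loc.tau p k Ω k⟮x⟯ hx.ff V₀ x q _ M pl0
    (by simpa using found.bas.unifAt k Ω x hx.tr 0 V₀ pl0 (by simpa using v0)) hM (Or.inl hq) hω1
  rw [DecF_adjoin] at t1 s1
  obtain ⟨W', -, -, g₀, hg₀⟩ := c2.2.2.1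
  obtain ⟨γ, g1, g2, g3⟩ := (hg₀ (β₀ σ) _).1 ⟨σ, s1, rfl, s2⟩
  rw [DecF_adjoin] at g1
  refine ⟨β, V₀, I, S, d, g₀, pl0, v0, c2, fun h => ⟨fun hh => ?_, ?_⟩, fun n hn => ?_, ?_⟩
  · obtain ⟨δ, h1, h2⟩ := im0.ge hh
    exact ⟨δ q / q, δ, h1, h2, (div_mul_cancel₀ _ hq0).symm⟩
  · rintro ⟨ζ, δ, h1, h2, -⟩
    exact im0.le ⟨δ, h1, h2⟩
  · obtain ⟨δ, h1, h2⟩ := on' ⟨(v * g)⁻¹ * n * (v * g)⁻¹⁻¹, nN.conj_mem _ hn _⟩
    obtain ⟨δ', h3, h4⟩ := hv δ h1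
    refine ⟨δ', h3, ?_⟩
    rw [h4, h2, Subgroup.subtype_apply]
    group
  · obtain ⟨u, hu⟩ := fI P hP
    have e1 := he τ t1.1 1 (by simpa using t2)
    have e2 := he γ g1.1 1 (by simpa using g3)
    have e3 := fS (lq τ t1 1 (by simpa using t2))
    have e4 := nN.mem_comm (fS (hu _ (lq0 σ s1 1 (by simpa using s2))))
    rw [inv_mul_cancel_left] at e4
    rw [← QuotientGroup.eq_one_iff] at e3 e4 ⊢
    simp only [QuotientGroup.mk'_apply, g2, pow_one, QuotientGroup.mk_mul, QuotientGroup.mk_inv,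
      mul_inv_eq_one] at e1 e2 e3 e4 ⊢
    rw [← e3, ← e4, e1, e2]

end Pool.Agent.Lib.IW2
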