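import Pool.Agent.Lib.IW2.All1
import Pool.Agent.Lib.IW2.Blue4

/-! Joining with a cover of the affine line. -/

open Polynomial IntermediateField
open scoped Pointwise

namespace Pool.Agent.Lib.IW2

open Pool.Agent.Lib.IW

namespace JOIN

variable {k Ω : Type} [Field k] [Field Ω] [Algebra k Ω]

lemma unif_mul {F : IntermediateField k Ω} {W : ValuationSubring Ω} {u e : Ω} (h : IsUnif F W u)
    (he : e ∈ F) (h1 : W.valuation e = 1) : IsUnif F W (u * e) := by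
  have e0 : e ≠ 0 := fun t => by simp [t] at h1
  refine ⟨mul_mem h.1 he, mul_ne_zero h.2.1 e0, ?_, ?_⟩ <;> rw [map_mul, h1, mul_one]
  exacts [h.2.2.1, h.2.2.2]

lemma not_agr {x : Ω} (x0 : x ≠ 0) {U V : ValuationSubring Ω} (hU : U.valuation x = 1)
    (hV : V.valuation x < 1) : ¬ Agr k⟮x⟯ U V := fun h => by
  have h1 := (h x⁻¹ (inv_mem (mem_adjoin_simple_self k x))).1
    ((U.valuation_le_one_iff _).1 (by rw [map_inv₀, hU, inv_one]))
  rw [← V.valuation_le_one_iff, map_inv₀, inv_le_one₀ (zero_lt_iff.2 (by simpa using x0))] at h1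
  exact hV.not_ge h1

open Classical in
/-- corestriction to a subgroup -/
noncomputable def cor {G : Type} [Group G] (B : Subgroup G) (g : G) : B :=
  if h : g ∈ B then ⟨g, h⟩ else 1

lemma cor_val {G : Type} [Group G] {B : Subgroup G} {g : G} (h : g ∈ B) : (cor B g : G) = g := by
  rw [cor, dif_pos h]

lemma cor_rep {G : Type} [Group G] {B : Subgroup G} {Δ : Subgroup (Aut k Ω)} {β : Aut k Ω → G}
    (h : IsRep Δ β) (hB : ∀ γ ∈ Δ, β γ ∈ B) : IsRep Δ fun γ => cor B (β γ) :=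
  ⟨fun γ hγ δ hδ => Subtype.ext (by
    rw [Subgroup.coe_mul, cor_val (hB _ (mul_mem hγ hδ)), cor_val (hB _ hγ), cor_val (hB _ hδ),
      h.mul γ hγ δ hδ]), h.cts.comp _⟩

end JOIN

open JOIN in
theorem blockJOIN (hGL : StmtGLUE) : StmtJOIN := by
  intro p _ k Ω _ _ _ _ _ _ x q M ω hx hM hω hq G _ _ V₀ I β β' Q c hV₀ hx₀
    ⟨rβ, uβ, lβ, hQ, hc, hcM, V, hV, hxV, qβ⟩ rβ' uβ' ⟨V', hV', hxV', qβ'⟩
  have M0 : 0 < M := Nat.pos_of_ne_zero fun e => hM (e ▸ dvd_zero p)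
  have Mk : (M : k) ≠ 0 := by rwa [Ne, CharP.cast_eq_zero_iff k p]
  have x0 : x ≠ 0 := hx.ne_zero
  have xF := mem_adjoin_simple_self k x
  have x1F : x - 1 ∈ k⟮x⟯ := sub_mem xF (one_mem _)
  obtain ⟨W₁, hW₁, hx₁⟩ := found.bas.exAt k Ω x hx 1
  have u1 := found.bas.unifAt k Ω x hx.tr 1 W₁ hW₁ hx₁
  have u0 := found.bas.unifAt k Ω x hx.tr 0 V₀ hV₀ (by simpa using hx₀)
  rw [map_one] at hx₁ u1
  rw [map_zero, sub_zero] at u0
  have v1 : W₁.valuation x = 1 := by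
    rw [← W₁.valuation.map_one]
    exact W₁.valuation.map_eq_of_sub_lt (by rwa [map_one])
  have v0 : V₀.valuation (x - 1) = 1 := by
    rw [← neg_sub, Valuation.map_neg]
    exact V₀.valuation.map_one_sub_of_lt hx₀
  have U0 := unif_mul u0 x1F v0
  have U1 : IsUnif k⟮x⟯ W₁ (x * (x - 1)) := mul_comm (x - 1) x ▸ unif_mul u1 xF v1
  obtain ⟨r, hr⟩ := IsAlgClosed.exists_pow_nat_eq (x * (x - 1)) M0
  have r0 : r ≠ 0 := fun e => U0.2.1 (by rw [← hr, e, zero_pow M0.ne'])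
  have e1 : (q / r) ^ M = (x - 1)⁻¹ := by rw [div_pow, hq, hr, div_mul_cancel_left₀ x0]
  have chg := loc.chg k Ω k⟮x⟯ hx.ff V₀ q r M Mk (e1 ▸ inv_mem x1F) (by
    have := congrArg V₀.valuation e1
    rwa [map_pow, map_inv₀, v0, inv_one, pow_eq_one_iff_left M0.ne'] at this)
  set B := Subgroup.normalizer (Q : Set G) with hB
  have QB : Q ≤ B := Subgroup.le_normalizer
  let φ := QuotientGroup.mk' (Q.subgroupOf B)
  have kφ : ∀ b : B, φ b = 1 ↔ (b : G) ∈ Q := fun b => QuotientGroup.eq_one_iff b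
  obtain ⟨a, ra, la, ua⟩ := loc.kum p k Ω x hx x q M ω hM hω x0 hq _ (φ ⟨c, hc⟩)
    (by rw [← map_pow, kφ]; exact hcM)
  have bB : ∀ γ ∈ Dec k x V, β γ ∈ B := fun γ hγ => by
    obtain ⟨i, hi⟩ := loc.expo k Ω q M ω hω M0 γ (by rw [hq]; exact hγ.1)
    simpa using mul_mem (QB (qβ γ hγ i hi)) (pow_mem hc i)
  have na := not_agr (k := k) x0 v1 hx₀
  obtain ⟨ρ, H⟩ := hGL p k Ω k⟮x⟯ (x * (x - 1)) r x q M ω Bool (fun j => cond j V₀ W₁)
    (fun j => cond j V V') G B _ B.subtype φ a (fun j => cond j β β')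
    (fun j γ => cor B (cond j β β' γ)) (fun j => cond j (φ ⟨c, hc⟩) 1)
    ⟨fb1.sepu p k Ω _ hx.ff V₀ _ hV₀ U0, hx, hM, hω, hr, hq, Bool.rec hW₁ hV₀, Bool.rec U1 U0,
      Bool.rec (Bool.rec (fun _ => rfl) fun h => (na h).elim)
        (Bool.rec (fun h => (na fun y hy => (h y hy).symm).elim) fun _ => rfl),
      Bool.rec ⟨hV', hxV'⟩ ⟨hV, hxV⟩, QuotientGroup.mk'_surjective _,
      by rw [QuotientGroup.ker_mk']; exact hQ.comap_subtype,
      by rwa [fix_adjoin], Bool.rec rβ' rβ,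
      Bool.rec (cor_rep (rβ'.mono (Dec_le _ _)) fun γ hγ => QB (qβ' γ hγ))
        (cor_rep (rβ.mono (Dec_le _ _)) bB),
      Bool.rec (fun γ hγ => cor_val (QB (qβ' γ hγ))) fun γ hγ => cor_val (bB γ hγ),
      Bool.rec (fun γ hγ i _ => (ua W₁ hW₁ v1 γ (DecF_adjoin (k := k) x W₁ ▸ hγ)).trans
          (one_pow i).symm)
        fun γ hγ i hi => la γ (fix_le_Gam xF hγ.1) i
          ((chg V₀ hV₀ (fun _ _ => Iff.rfl) γ hγ _).2 hi),
      Bool.rec (fun γ hγ i _ => ((kφ _).2 (by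
          change (cor B (β' γ) : G) ∈ Q
          rw [cor_val (QB (qβ' γ hγ))]
          exact qβ' γ hγ)).trans (one_pow i).symm)
        fun γ hγ i hi => by
          change φ (cor B (β γ)) = φ ⟨c, hc⟩ ^ i
          rw [← mul_inv_eq_one, ← map_pow, ← map_inv, ← map_mul, kφ, Subgroup.coe_mul,
            cor_val (bB γ hγ)]
          exact qβ γ hγ i hi⟩
    (Bool.rec (fun W hW h => uβ' W hW ((W.valuation_le_one_iff _).1 h.le)) uβ)
  have g3 : ∀ j : Bool, ∃ v ∈ Q, ∀ γ ∈ Gam k x, ∃ γ' ∈ Gam k x,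
      ρ γ' = v * cond j β β' γ * v⁻¹ := fun j => by
    obtain ⟨v, hv, h⟩ := H.g3 j
    rw [fix_adjoin] at h
    exact ⟨v, (kφ v).1 hv, h⟩
  refine ⟨ρ, ⟨fix_adjoin (k := k) x ▸ H.rep, fun U hU hxU => ?_, ?_, hQ, hc, hcM, ?_⟩, g3 true,
    g3 false⟩
  · rw [← DecF_adjoin]
    have xU : x ∈ U := (U.valuation_le_one_iff _).1 hxU.le
    by_cases h : Agr k⟮x⟯ U W₁
    · obtain ⟨W', -, w2, g, hg⟩ := H.g2 false V₀
        {e | ∃ γ ∈ DecF k⟮x⟯ V₀, β' γ = e.1 ∧ γ q = e.2 * q} hV₀ hx₀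
        ⟨V₀, hV₀, fun _ _ => Iff.rfl, 1, fun h ζ => by simp⟩
      refine fb1.trivA k Ω _ hx.ff G ρ H.rep W' U (fun y hy => (w2 y hy).trans (h y hy).symm)
        fun γ hγ => ?_
      obtain ⟨δ, hδ, e, -⟩ := (hg (g⁻¹ * ρ γ * g) (γ r / r)).2
        ⟨γ, hγ, by group, (div_mul_cancel₀ _ r0).symm⟩
      rw [uβ' V₀ hV₀ ((V₀.valuation_le_one_iff _).1 hx₀.le) δ (DecF_adjoin (k := k) x V₀ ▸ hδ)] at e
      simpa [mul_assoc, inv_mul_eq_one] using e.symm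
    · exact H.g1 U hU (mul_mem xU (sub_mem xU (one_mem U))) (Bool.rec h (not_agr x0 hxU hx₀))
        (by rw [DecF_adjoin]; exact ua U hU hxU)
  · obtain ⟨W', w1, w2, g, hg⟩ := H.g2 true V₀ I hV₀ hx₀ lβ
    exact ⟨W', w1, w2, g, fun h ζ => (hg h ζ).trans (exists_congr fun γ => and_congr_right fun hγ =>
      and_congr_right fun _ => (chg W' w1 w2 γ hγ ζ).symm)⟩
  · obtain ⟨U, hU, hπ, h⟩ := H.g5
    refine ⟨U, hU, fun xU => hπ (mul_mem xU (sub_mem xU (one_mem U))), fun γ hγ i hi => ?_⟩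
    obtain ⟨b, b1, b2⟩ := h γ (DecF_adjoin (k := k) x U ▸ hγ)
    rw [la γ hγ.1 i hi, ← mul_inv_eq_one, ← map_pow, ← map_inv, ← map_mul, kφ] at b2
    rw [b1]
    exact b2

end Pool.Agent.Lib.IW2
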