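import Pool.Agent.Lib.IW2.All1
import Pool.Agent.Lib.IW2.Blue4

/-! A cover of the multiplicative group, totally ramified at zero and tame at infinity. -/

open Polynomial IntermediateField
open scoped Pointwise

namespace Pool.Agent.Lib.IW2

open Pool.Agent.Lib.IW

theorem blockKG (hA : StmtASMX) : StmtKG := by
  intro p _ k Ω _ _ _ _ _ _ x q M ω hx hM hω hq G _ _ H P c hPH hP hN hc hcyc hcM
  have hD : ∀ W : ValuationSubring Ω, Dec k x⁻¹ W = Dec k x W := fun W => by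
    rw [Dec, Dec, Gam_inv]
  let P' : Subgroup H := P.subgroupOf H
  have : P'.Normal := ⟨fun a ha g => hN g g.2 a ha⟩
  let φ : H →* H ⧸ P' := QuotientGroup.mk' P'
  let c₀ : H := ⟨c, hc⟩
  have hk : φ.ker = P' := QuotientGroup.ker_mk' P'
  have hφ : ∀ g h : H, φ g = φ h ↔ g * h⁻¹ ∈ P' := fun g h => by
    rw [← mul_inv_eq_one, ← map_inv, ← map_mul, ← MonoidHom.mem_ker, hk]
  have hP' : IsPGroup p P' := hP.of_equiv (Subgroup.subgroupOfEquivOfLe hPH).symm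
  have hP'' : IsPGroup p φ.ker := by rw [hk]; exact hP'
  have hz : φ c₀ ^ M = 1 := by
    rw [← map_pow, ← MonoidHom.mem_ker, hk]
    exact hcM
  have hgen : ∀ y : H ⧸ P', ∃ i : ℕ, φ c₀ ^ i = y := fun y => by
    obtain ⟨g, rfl⟩ := QuotientGroup.mk'_surjective P' y
    obtain ⟨i, hi⟩ := hcyc g g.2
    exact ⟨i, by rw [← map_pow]; exact ((hφ g (c₀ ^ i)).2 hi).symm⟩
  have hexp : ∀ y : H ⧸ P', y ^ M = 1 := fun y => by
    obtain ⟨i, rfl⟩ := hgen y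
    rw [← pow_mul, mul_comm, pow_mul, hz, one_pow]
  obtain ⟨a, a1, a2, a3⟩ := loc.kum p k Ω x hx x q M ω hM hω hx.ne_zero hq _ (φ c₀) hz
  have hω1 : algebraMap k Ω ω ^ M = 1 := by rw [← map_pow, hω.pow_eq_one, map_one]
  obtain ⟨V₀, hV₀, h0⟩ := found.bas.exAt k Ω x hx 0
  have h0' : V₀.valuation x < 1 := by simpa using h0
  have hx₀ : x⁻¹ ∉ V₀ := fun h => by
    have h1 := (V₀.valuation_le_one_iff _).2 h
    have h2 : V₀.valuation x ≠ 0 := by simpa using hx.ne_zero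
    rw [map_inv₀, inv_le_one₀ (zero_lt_iff.2 h2)] at h1
    exact absurd h0' (not_lt.2 h1)
  obtain ⟨τ₀, t1, t2⟩ := loc.tau p k Ω k⟮x⟯ hx.ff V₀ x q (algebraMap k Ω ω) M hV₀
    (by simpa using found.bas.unifAt k Ω x hx.tr 0 V₀ hV₀ h0) hM (Or.inl hq) hω1
  rw [DecF_adjoin] at t1
  have t3 : a τ₀ = φ c₀ := by
    rw [a2 τ₀ (Dec_le _ _ t1) 1 (by rw [pow_one, t2]), pow_one]
  have hx' := co_inv found.bas hx
  obtain ⟨b, b1, b2, b3⟩ := blockLocP found blockLin (blockASW found blockLin) p k Ω x⁻¹ hx' V₀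
    hV₀ hx₀ H (H ⧸ P') φ (QuotientGroup.mk'_surjective P') hP'' P'
    ⟨le_top, hP', fun g _ y hy => hN g g.2 y hy, c₀, trivial, fun g _ => hcyc g g.2⟩ a
    (by rw [hD]; exact a1.mono (Dec_le _ _)) fun y => by
      obtain ⟨i, rfl⟩ := hgen y
      exact ⟨τ₀ ^ i, by rw [hD]; exact pow_mem t1 i, by rw [a1.pow (Dec_le _ _ t1), t3]⟩
  obtain ⟨α, r1, r2, r3, r4⟩ := hA p k Ω x⁻¹ hx' H (H ⧸ P') φ (QuotientGroup.mk'_surjective P')
    hP'' a (by rwa [Gam_inv]) V₀ hV₀ hx₀ b b1 b2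
  rw [Gam_inv] at r1 r2
  simp only [hD] at r3 r4 b3
  have r5 : ∀ U : ValuationSubring Ω, IsPl k U → x⁻¹ ∈ U → ∀ γ ∈ Dec k x U, a γ = 1 → α γ = 1 :=
    fun U hU hxU => r4 U hU hxU fun γ _ => ⟨M, hM, hexp _⟩
  obtain ⟨V, hV, hxV⟩ := found.bas.exInf k Ω x hx
  have hxV' : x⁻¹ ∈ V := (V.mem_or_inv_mem x).resolve_left hxV
  obtain ⟨τ, s1, s2⟩ := loc.tau p k Ω k⟮x⟯ hx.ff V x⁻¹ q (algebraMap k Ω ω) M hV
    (found.bas.unifInf k Ω x hx.tr V hV hxV) hM (Or.inr (by rw [inv_inv, hq])) hω1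
  rw [DecF_adjoin] at s1
  have s1' := Dec_le _ _ s1
  have s3 : a τ = φ c₀ := by rw [a2 τ s1' 1 (by rw [pow_one, s2]), pow_one]
  refine ⟨fun γ => H.subtype (α γ), V₀, V, H.subtype (α τ), r1.comp _, fun W hW hW1 γ hγ => ?_,
    hV₀, h0', ?_, fun γ hγ i hi => ?_, hV, hxV, ?_, fun γ hγ i hi => ?_⟩
  · have h1 : x⁻¹ ∈ W := (W.valuation_le_one_iff _).1 (by rw [map_inv₀, hW1, inv_one])
    beta_reduce
    rw [r5 W hW h1 γ hγ (a3 W hW hW1 γ hγ), map_one]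
  · refine Set.Subset.antisymm ?_ fun g hg => ?_
    · rintro _ ⟨γ, -, rfl⟩
      exact (α γ).2
    · obtain ⟨γ, hγ, e⟩ := b3 ⟨g, hg⟩
      refine ⟨γ, hγ, ?_⟩
      beta_reduce
      rw [r3 γ hγ, e]
      rfl
  · have hγ' := Dec_le _ _ hγ
    exact (hφ (α γ) (c₀ ^ i)).1 (by rw [r2 γ hγ', a2 γ hγ' i hi, map_pow])
  · rw [← map_pow, ← r1.pow s1', r5 V hV hxV' _ (pow_mem s1 M) (by rw [a1.pow s1', hexp]), map_one]
  · have hγ' := Dec_le _ _ hγ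
    have h1 := r5 V hV hxV' (γ * (τ ^ i)⁻¹) (mul_mem hγ (inv_mem (pow_mem s1 i))) (by
      rw [a1.mul _ hγ' _ (inv_mem (pow_mem s1' i)), a1.inv (pow_mem s1' i), a1.pow s1', s3,
        a2 γ hγ' i hi, mul_inv_cancel])
    rw [r1.mul _ hγ' _ (inv_mem (pow_mem s1' i)), r1.inv (pow_mem s1' i), r1.pow s1',
      mul_inv_eq_one] at h1
    beta_reduce
    rw [h1, map_pow]

end Pool.Agent.Lib.IW2
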