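import Pool.Agent.Lib.IW2.All1
import Pool.Agent.Lib.IW2.Blue2

/-! Block LEFT: good reduction is a closed condition on the radius. -/

open Polynomial IntermediateField
open scoped Pointwise

namespace Pool.Agent.Lib.IW2

open Pool.Agent.Lib.IW

namespace LEFT

section Abs

variable {K : Type} [Field K] {y : AbsoluteValue K ℝ} {s a : K}

lemma sub_right (hy : IsNonarchimedean y) (h : y s < y a) : y (s - a) = y a := by
  have h1 : y s < y (-a) := by rwa [y.map_neg]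
  rw [sub_eq_add_neg, IsNonarchimedean.add_eq_right_of_lt hy h1, y.map_neg]

lemma sub_left (hy : IsNonarchimedean y) (h : y a < y s) : y (s - a) = y s := by
  rw [y.map_sub, sub_right hy h]

lemma quot_lt (hy : IsNonarchimedean y) (h : y s < y a) : y (s / (s - a)) < 1 := by
  rw [map_div₀, sub_right hy h]
  exact (div_lt_one (lt_of_le_of_lt (y.nonneg s) h)).2 h

lemma quot_eq (hy : IsNonarchimedean y) (h : y a < y s) : y (s / (s - a)) = 1 := by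
  rw [map_div₀, sub_left hy h]
  exact div_self (lt_of_le_of_lt (y.nonneg a) h).ne'

lemma quot_le (hy : IsNonarchimedean y) (h : y s ≠ y a) : y (s / (s - a)) ≤ 1 := by
  rcases lt_or_gt_of_ne h with h | h
  · exact (quot_lt hy h).le
  · exact (quot_eq hy h).le

lemma prod_lt {G : Type} [Fintype G] [DecidableEq G] {w : G → K} (h : ∀ g, y (w g) ≤ 1) {g₀ : G}
    (h0 : y (w g₀) < 1) : y (∏ g, w g) < 1 := by
  rw [map_prod, ← Finset.mul_prod_erase _ _ (Finset.mem_univ g₀)]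
  exact mul_lt_one_of_nonneg_of_lt_one_left (y.nonneg _) h0
    (Finset.prod_le_one (fun g _ => y.nonneg _) fun g _ => h g)

lemma ex_lt {G : Type} [Fintype G] {w : G → K} (h : y (∏ g, w g) < 1) : ∃ g, y (w g) < 1 := by
  by_contra hn
  push Not at hn
  rw [map_prod] at h
  exact not_le.2 h (Finset.one_le_prod fun g _ => hn g)

end Abs

section One

variable {k Ω : Type} [Field k] [Field Ω] [Algebra k Ω]

/-- A coordinate is not a power in the field it generates. -/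
lemma not_mem {x z : Ω} (hx : Transcendental k x) {p : ℕ} (hp : 1 < p) (e : z ^ p = x) :
    z ∉ k⟮x⟯ := by
  intro hz
  obtain ⟨P, Q, rfl⟩ := (mem_adjoin_simple_iff k z).1 hz
  have hx0 : x ≠ 0 := fun h => hx (h ▸ isAlgebraic_zero)
  have hQ : aeval x Q ≠ 0 := fun h => by
    rw [h, div_zero, zero_pow (by omega)] at e
    exact hx0 e.symm
  have hQ' : Q ≠ 0 := fun h => hQ (by rw [h, map_zero])
  have h1 : P ^ p = X * Q ^ p := by
    apply transcendental_iff_injective.1 hx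
    rw [map_mul, map_pow, map_pow, aeval_X]
    rw [div_pow, div_eq_iff (pow_ne_zero _ hQ)] at e
    exact e
  have h2 := congrArg natDegree h1
  rw [natDegree_pow, natDegree_mul X_ne_zero (pow_ne_zero _ hQ'), natDegree_pow, natDegree_X] at h2
  have h3 : p ∣ 1 := (Nat.dvd_add_left (Dvd.intro _ rfl)).1 (h2 ▸ Dvd.intro _ rfl)
  exact absurd (Nat.le_of_dvd one_pos h3) (by omega)

lemma not_sep (p : ℕ) [Fact p.Prime] [CharP k p] [IsAlgClosed Ω] {x z : Ω} (hx : Co k x)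
    (e : z ^ p = x) : ¬ IsSeparable k⟮x⟯ z := by
  intro hs
  have : CharP Ω p := charP_of_injective_algebraMap (algebraMap k Ω).injective p
  refine not_mem hx.tr (Fact.out : p.Prime).one_lt e
    (found.gal.sep k Ω k⟮x⟯ hx.alg z hs fun γ hγ => ?_)
  have h1 : γ x = x := fix_apply hγ (mem_adjoin_simple_self k x)
  apply frobenius_inj Ω p
  rw [frobenius_def, frobenius_def, ← map_pow, e, h1]

end One

section Two

variable {k 𝕜 Ω Ω' : Type} [Field k] [Field 𝕜] [Field Ω] [Field Ω'] [Algebra k 𝕜] [Algebra k Ω]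
  [Algebra k Ω'] [Algebra 𝕜 Ω'] [IsScalarTower k 𝕜 Ω'] {G : Type} [Group G]

/-- The coordinate at the Gauss point of radius `r`. -/
lemma setup [IsAlgClosed Ω'] {ν : AbsoluteValue 𝕜 ℝ} (hν : Big k ν) {x : Ω} {σ : Ω'}
    (hx : Co k x) (hσ : Co 𝕜 σ) {r : ℝ} (hr : 0 < r) : ∃ (c : 𝕜) (ι : Ω →ₐ[k] Ω'), c ≠ 0 ∧
      ν c = r ∧ ι x * algebraMap 𝕜 Ω' c = σ ∧ 𝕜⟮ι x⟯ = 𝕜⟮σ⟯ ∧ Co 𝕜 (ι x) := by
  obtain ⟨c, hc⟩ := hν.onto r hr
  have c0 : c ≠ 0 := fun h => by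
    rw [h, map_zero] at hc
    exact hr.ne hc
  have c1 : algebraMap 𝕜 Ω' c ≠ 0 := (_root_.map_ne_zero _).2 c0
  have h1 : Transcendental 𝕜 (σ / algebraMap 𝕜 Ω' c) := fun h => hσ.tr (by
    have h2 := h.mul (isAlgebraic_algebraMap (A := Ω') c)
    rwa [div_mul_cancel₀ _ c1] at h2)
  obtain ⟨ι, hι⟩ := found.bas.exEmb k Ω Ω' x (σ / algebraMap 𝕜 Ω' c) hx
    (h1.restrictScalars (algebraMap k 𝕜).injective)
  have e : ι x * algebraMap 𝕜 Ω' c = σ := by rw [hι, div_mul_cancel₀ _ c1]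
  have e2 : 𝕜⟮ι x⟯ = 𝕜⟮σ⟯ := by
    refine le_antisymm (adjoin_simple_le_iff.2 ?_) (adjoin_simple_le_iff.2 ?_)
    · rw [hι]
      exact div_mem (mem_adjoin_simple_self 𝕜 σ) (IntermediateField.algebraMap_mem _ c)
    · rw [← e]
      exact mul_mem (mem_adjoin_simple_self 𝕜 _) (IntermediateField.algebraMap_mem _ c)
  exact ⟨c, ι, c0, hc, e, e2, hι ▸ h1, e2 ▸ hσ.alg⟩

lemma cmem (F : IntermediateField 𝕜 Ω') (c : k) : algebraMap k Ω' c ∈ F := by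
  rw [IsScalarTower.algebraMap_apply k 𝕜 Ω']
  exact F.algebraMap_mem _

/-- Elements of the field generated by a residue are residues. -/
lemma lift {ι : Ω →ₐ[k] Ω'} {O : ValuationSubring Ω'} (h : ∀ s, ι s ∈ O) {x s₀ : Ω}
    {ρ : Aut 𝕜 Ω' → G} {f : G → Ω'} (hf : Alg 𝕜⟮ι x⟯ ρ f) {g₀ : G} (h0 : Rd ι O (f g₀) s₀)
    {z : Ω} (hz : z ∈ k⟮x, s₀⟯) : ∃ f' : G → Ω', Alg 𝕜⟮ι x⟯ ρ f' ∧ Rd ι O (f' g₀) z := by
  induction hz using IntermediateField.adjoin_induction with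
  | mem t ht =>
    rcases ht with rfl | rfl
    · exact ⟨fun _ => ι t, Alg.const (mem_adjoin_simple_self 𝕜 _), ORTH.rd_self t⟩
    · exact ⟨f, hf, h0⟩
  | algebraMap c =>
    exact ⟨fun _ => ι (algebraMap k Ω c), Alg.const (by rw [ι.commutes]; exact cmem _ c),
      ORTH.rd_self _⟩
  | add a b _ _ ha hb =>
    obtain ⟨a', a1, a2⟩ := ha
    obtain ⟨b', b1, b2⟩ := hb
    refine ⟨_, a1.add b1, ?_⟩
    rw [Rd, map_add, add_sub_add_comm]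
    exact O.valuation.map_add_lt a2 b2
  | inv a _ ha =>
    obtain ⟨a', a1, a2⟩ := ha
    by_cases a0 : a = 0
    · refine ⟨a', a1, ?_⟩
      rwa [a0, inv_zero, ← a0]
    · exact ⟨_, a1.inv, ORTH.rd_inv h a2 a0⟩
  | mul a b _ _ ha hb =>
    obtain ⟨a', a1, a2⟩ := ha
    obtain ⟨b', b1, b2⟩ := hb
    exact ⟨_, a1.mul b1, ORTH.rd_mul h a2 b2⟩

omit [IsScalarTower k 𝕜 Ω'] [Algebra k 𝕜] in
lemma rd_pow (p : ℕ) [Fact p.Prime] [CharP k p] {ι : Ω →ₐ[k] Ω'} {O : ValuationSubring Ω'}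
    {a : Ω'} {z : Ω} : Rd ι O a z ↔ O.valuation (a ^ p - ι (z ^ p)) < 1 := by
  have : CharP Ω' p := charP_of_injective_algebraMap (algebraMap k Ω').injective p
  rw [Rd, map_pow, ← sub_pow_char, map_pow, pow_lt_one_iff (Fact.out : p.Prime).ne_zero]

/-- At a point of good reduction no value of the Galois algebra has inseparable residue. -/
lemma res_sep [IsAlgClosed k] [IsAlgClosed Ω] [IsAlgClosed Ω'] [Fintype G] [DecidableEq G]
    {ι : Ω →ₐ[k] Ω'} {O : ValuationSubring Ω'} (h : RedD 𝕜 ι O) {x : Ω} (hx : Co k x)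
    (hx' : Co 𝕜 (ι x)) {ρ : Aut 𝕜 Ω' → G} (hc : Cert 𝕜⟮ι x⟯ ρ O) {f : G → Ω'}
    (hf : Alg 𝕜⟮ι x⟯ ρ f) {g : G} {z : Ω} (hz : Rd ι O (f g) z) : IsSeparable k⟮x⟯ z := by
  have e : Ext 𝕜 ι k⟮x⟯ = 𝕜⟮ι x⟯ := by rw [rx.ext1, Set.image_singleton]
  obtain ⟨β, hβ⟩ := rrep.ex k 𝕜 Ω Ω' ι O h k⟮x⟯ x (fs_self hx) hx' G ρ (e ▸ hc)
  obtain ⟨a, ha⟩ := VAND.avoid (fun g' (a : k) => Rd ι O (f g') (algebraMap k Ω a))
    fun g' a b h1 h2 => (algebraMap k Ω).injective (ORTH.rd_uniq h.mem h1 h2)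
  have hm : ∀ g', (f g' - ι (algebraMap k Ω a))⁻¹ ∈ O := fun g' => by
    rw [← O.valuation_le_one_iff, map_inv₀]
    exact inv_le_one_of_one_le₀ (not_lt.1 (ha g'))
  choose f₀ hf₀ using fun g' => h.res _ (hm g')
  have hA : Alg 𝕜⟮ι x⟯ ρ fun g' => (f g' - ι (algebraMap k Ω a))⁻¹ :=
    (hf.sub (Alg.const (by rw [ι.commutes]; exact cmem _ a))).inv
  have h1 := (hβ.down _ f₀ (e ▸ hA) hf₀).1 g
  have h2 : Rd ι O (f g - ι (algebraMap k Ω a)) (z - algebraMap k Ω a) := by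
    rw [Rd, map_sub ι, sub_sub_sub_cancel_right]
    exact hz
  have h3 : z - algebraMap k Ω a ≠ 0 := fun h0 => ha g (sub_eq_zero.1 h0 ▸ hz)
  rw [ORTH.rd_uniq h.mem (hf₀ g) (ORTH.rd_inv h.mem h2 h3)] at h1
  have h4 : z = (z - algebraMap k Ω a)⁻¹⁻¹ + algebraMap k Ω a := by rw [inv_inv, sub_add_cancel]
  rw [h4]
  exact (separableClosure k⟮x⟯ Ω).add_mem ((separableClosure k⟮x⟯ Ω).inv_mem h1)
    (sep_mem (IntermediateField.algebraMap_mem _ a))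

end Two

end LEFT

theorem blockLEFT (GP1 : StmtGP1) (GP2 : StmtGP2) (DEF : StmtDEF) (GSEP : StmtGSEP) :
    StmtLEFT := by
  intro p _ k 𝕜 Ω Ω' _ _ _ _ _ _ _ _ _ _ _ _ _ _ ν hν x σ hx hσ G _ _ _ ρ hρ r₀ hr₀ H y O hy hO
  by_contra hn
  obtain ⟨c, ι, c0, c1, c2, c3, c4⟩ := LEFT.setup hν hx hσ hr₀
  have hR := GP1.gpr k 𝕜 Ω Ω' ν hν σ hσ r₀ y O hy hO c c0 c1 x ι hx c2
  have hG : Gam 𝕜 (ι x) = Gam 𝕜 σ := by rw [← fix_adjoin, c3, fix_adjoin]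
  obtain ⟨X, X₀, x1, x2, x3⟩ := DEF p k 𝕜 Ω Ω' ν hν y O hy.na hy.ext hO ι hR x hx c4 G ρ (hG ▸ hρ)
  have h1 : ∃ g i, ¬ IsSeparable k⟮x⟯ (X₀ g i) := by
    by_contra h
    push Not at h
    exact hn (c3 ▸ GSEP k 𝕜 Ω Ω' ι O hR x hx c4 G ρ X X₀ x1 x2 x3 h)
  obtain ⟨g₀, i, h1⟩ := h1
  obtain ⟨z, hz, ez⟩ := fb1.ins p k Ω x _ (hx.alg _) h1
  obtain ⟨f, f1, f2⟩ := LEFT.lift hR.mem (x1 i) (x2 g₀ i) hz
  rw [LEFT.rd_pow p, ez, ((GP1.ball Ω' y hy.na).2 O hO).1] at f2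
  set s : G → Ω' := fun g => f g ^ p - ι x with hs
  have s1 : Alg 𝕜⟮ι x⟯ ρ s := (f1.pow p).sub (Alg.const (mem_adjoin_simple_self 𝕜 _))
  obtain ⟨θ, ⟨t1, t2⟩, t3⟩ := ((Set.Ioo_infinite f2).sdiff
    (Set.finite_range fun g => y (s g))).nonempty
  have t0 : 0 < θ := lt_of_le_of_lt (y.nonneg _) t1
  obtain ⟨a, ha⟩ := hν.onto θ t0
  have w1 : Alg 𝕜⟮ι x⟯ ρ fun g => s g / (s g - algebraMap 𝕜 Ω' a) :=
    s1.div (s1.sub (Alg.const (IntermediateField.algebraMap_mem _ a)))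
  have w2 := w1.prod_mem c4.alg
  rw [c3] at w2
  obtain ⟨φ, p1, p2⟩ := GP2.cont 𝕜 Ω' ν σ _ w2
  have p3 : φ r₀ < 1 := by
    rw [← p2 r₀ y hr₀ hy]
    refine LEFT.prod_lt (fun g => LEFT.quot_le hy.na ?_) (g₀ := g₀) (LEFT.quot_lt hy.na ?_)
    · rw [hy.ext, ha]
      exact fun e => t3 ⟨g, e⟩
    · rw [hy.ext, ha]
      exact t1
  have p4 : ∀ᶠ r in nhds r₀, φ r < 1 ∧ θ * r₀ < r :=
    ((p1.continuousAt (Ioi_mem_nhds hr₀)).eventually (gt_mem_nhds p3)).and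
      (lt_mem_nhds (by nlinarith))
  obtain ⟨ε, e0, e1⟩ := Metric.eventually_nhds_iff.1 p4
  obtain ⟨r, r0, r1, r2⟩ := H ε e0
  obtain ⟨q1, q2⟩ := e1 (show dist r r₀ < ε from r1)
  obtain ⟨y', hy'⟩ := GP1.exg k 𝕜 Ω' ν hν σ hσ r r0
  obtain ⟨O', hO'⟩ := (GP1.ball Ω' y' hy'.na).1
  rw [← p2 r y' r0 hy'] at q1
  obtain ⟨g, q1⟩ := LEFT.ex_lt q1
  have q3 : y' (s g) ≤ θ := by
    by_contra h
    rw [LEFT.quot_eq hy'.na (by rw [hy'.ext, ha]; exact not_le.1 h)] at q1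
    exact lt_irrefl _ q1
  obtain ⟨c', ι', d0, d1, d2, d3, d4⟩ := LEFT.setup hν hx hσ r0
  have hR' := GP1.gpr k 𝕜 Ω Ω' ν hν σ hσ r y' O' hy' hO' c' d0 d1 x ι' hx d2
  obtain ⟨d, hd⟩ := IsAlgClosed.exists_pow_nat_eq (c / c') (Fact.out : p.Prime).pos
  have f3 : Alg 𝕜⟮ι' x⟯ ρ fun g => algebraMap 𝕜 Ω' d * f g :=
    (Alg.const (IntermediateField.algebraMap_mem _ d)).mul (by rw [d3, ← c3]; exact f1)
  refine LEFT.not_sep p hx ez
    (LEFT.res_sep hR' hx d4 (d3 ▸ r2 y' O' hy' hO') f3 (g := g) ?_)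
  have d5 : algebraMap 𝕜 Ω' c' ≠ 0 := (_root_.map_ne_zero _).2 d0
  have d6 : ι' x = algebraMap 𝕜 Ω' (c / c') * ι x := by
    rw [map_div₀, div_mul_eq_mul_div, eq_div_iff d5, d2, mul_comm, c2]
  rw [LEFT.rd_pow p, ez, ((GP1.ball Ω' y' hy'.na).2 O' hO').1, mul_pow, ← map_pow, hd, d6,
    ← mul_sub, map_mul, hy'.ext, map_div₀, c1, d1, div_mul_eq_mul_div, div_lt_one r0]
  exact lt_of_le_of_lt (mul_le_mul_of_nonneg_left q3 hr₀.le) (by rwa [mul_comm])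

end Pool.Agent.Lib.IW2
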