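import Pool.Agent.Lib.IW2.All1
import Pool.Agent.Lib.IW2.Blue4

/-! The main theorem in the language of representations. -/

open Polynomial IntermediateField
open scoped Pointwise

namespace Pool.Agent.Lib.IW2

open Pool.Agent.Lib.IW

namespace MAIN

lemma pow_of {A : Type} [Group A] [Finite A] {p M j : ℕ} [hp : Fact p.Prime]
    (h : ¬ p ∣ Nat.card A) {g : A} (hg : g ^ (M * p ^ j) = 1) : g ^ M = 1 := by
  have h2 : Nat.gcd (p ^ j) (Nat.card A) = 1 :=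
    Nat.Coprime.pow_left _ ((Nat.Prime.coprime_iff_not_dvd hp.out).2 h)
  rw [← pow_one (g ^ _), ← h2]
  exact pow_gcd_eq_one.2 ⟨by rw [← pow_mul, hg], pow_card_eq_one'⟩

lemma quot_pow {A : Type} [Group A] {K : Subgroup A} [K.Normal] {n : ℕ} (h : ∀ g : A, g ^ n = 1)
    (g : A ⧸ K) : g ^ n = 1 := by
  obtain ⟨g, rfl⟩ := QuotientGroup.mk_surjective g
  rw [← QuotientGroup.mk_pow, h, QuotientGroup.mk_one]

variable {k Ω : Type} [Field k] [IsAlgClosed k] [Field Ω] [IsAlgClosed Ω] [Algebra k Ω]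
  {F : IntermediateField k Ω}

omit [IsAlgClosed k] [IsAlgClosed Ω] in
lemma expo {π q : Ω} {M : ℕ} {ω : k} (hω : IsPrimitiveRoot ω M) (hM : 0 < M) (hq : q ^ M = π)
    (hπ : π ∈ F) {γ : Aut k Ω} (hγ : γ ∈ F.fixingSubgroup) :
    ∃ i : ℕ, γ q = algebraMap k Ω ω ^ i * q :=
  loc.expo k Ω q M ω hω hM γ (by rw [hq]; exact fix_apply hγ hπ)

/-- The easy direction. -/
lemma forward (p : ℕ) [Fact p.Prime] [CharP k p] (hF : FF F) {Z : ValuationSubring Ω → Prop}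
    {W₀ : ValuationSubring Ω} {G : Type} [Group G] [Finite G] {H : Subgroup G}
    (h : OccR F Z W₀ G H) : (∃ P : Subgroup G, CycP p H P) ∧
      OccR F Z W₀ (G ⧸ pPart p G) (H.map (QuotientGroup.mk' (pPart p G))) := by
  obtain ⟨ρ, hρ, hon, hun, W, hW, hA, him⟩ := h
  have hmem : ∀ g, g ∈ H ↔ ∃ γ ∈ DecF F W, ρ γ = g := fun g => by
    rw [← SetLike.mem_coe, ← him]
    rfl
  constructor
  · obtain ⟨M, hM, ⟨j, hj⟩, -⟩ := exists_pprime G p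
    have hM0 : 0 < M := Nat.pos_of_ne_zero fun e => hM (e ▸ dvd_zero p)
    obtain ⟨ω, hω⟩ := exists_prim (k := k) (Ω := k) p hM
    obtain ⟨π, hπ⟩ := found.unif.ex k Ω F hF W hW
    obtain ⟨q, hq⟩ := IsAlgClosed.exists_pow_nat_eq π hM0
    obtain ⟨τ, hτ, -, P, hP, h1, h2, h3⟩ := loc.str p k Ω F hF W π q M ω hW hπ hM (Or.inl hq) hω
      G ρ (hρ.mono (DecF_le F W)) fun g => ⟨j, hj g⟩
    refine ⟨P, fun a ha => ?_, hP, fun g hg a ha => ?_, ρ τ, (hmem _).2 ⟨τ, hτ, rfl⟩,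
      fun g hg => ?_⟩
    · obtain ⟨γ, hγ, -, e⟩ := h1 a ha
      exact (hmem a).2 ⟨γ, hγ, e⟩
    · obtain ⟨γ, hγ, rfl⟩ := (hmem g).1 hg
      exact h2 γ hγ a ha
    · obtain ⟨γ, hγ, rfl⟩ := (hmem g).1 hg
      obtain ⟨i, hi⟩ := expo hω hM0 hq hπ.1 (DecF_le F W hγ)
      exact ⟨i, h3 γ hγ i hi⟩
  · refine ⟨fun γ => QuotientGroup.mk' _ (ρ γ), hρ.comp _, fun g => ?_, fun U hU hZ γ hγ => ?_,
      W, hW, hA, ?_⟩
    · obtain ⟨g, rfl⟩ := QuotientGroup.mk'_surjective _ g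
      obtain ⟨γ, hγ, rfl⟩ := hon g
      exact ⟨γ, hγ, rfl⟩
    · beta_reduce
      rw [hun U hU hZ γ hγ, map_one]
    · rw [Subgroup.coe_map, ← him, Set.image_image]

/-- The local structure of a representation with values in a group of exponent dividing `M`. -/
lemma tame (p : ℕ) [hp : Fact p.Prime] [CharP k p] (hF : FF F) {W : ValuationSubring Ω} {π q : Ω}
    {M : ℕ} {ω : k} (hW : IsPl k W) (hπ : IsUnif F W π) (hM : ¬ p ∣ M) (hq : q ^ M = π)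
    (hω : IsPrimitiveRoot ω M) {A : Type} [Group A] [Finite A] (hA : ∀ g : A, g ^ M = 1)
    {a : Aut k Ω → A} (ha : IsRep F.fixingSubgroup a) :
    ∃ z : A, Lam a (DecF F W) q (algebraMap k Ω ω) z ∧
      ∀ g, (∃ γ ∈ DecF F W, a γ = g) ↔ ∃ i : ℕ, g = z ^ i := by
  have hM0 : 0 < M := Nat.pos_of_ne_zero fun e => hM (e ▸ dvd_zero p)
  obtain ⟨τ, hτ, -, P, hP, -, -, h3⟩ := loc.str p k Ω F hF W π q M ω hW hπ hM (Or.inl hq) hω
    A a (ha.mono (DecF_le F W)) fun g => ⟨0, by rw [pow_zero, mul_one, hA]⟩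
  have hP1 : ∀ b ∈ P, b = 1 := fun b hb => by
    obtain ⟨i, hi⟩ := hP ⟨b, hb⟩
    have h1 : b ^ p ^ i = 1 := congrArg Subtype.val hi
    have h2 : Nat.gcd (p ^ i) M = 1 :=
      Nat.Coprime.pow_left _ ((Nat.Prime.coprime_iff_not_dvd hp.out).2 hM)
    rw [← pow_one b, ← h2]
    exact pow_gcd_eq_one.2 ⟨h1, hA b⟩
  have hL : Lam a (DecF F W) q (algebraMap k Ω ω) (a τ) := fun γ hγ i hi =>
    mul_inv_eq_one.1 (hP1 _ (h3 γ hγ i hi))
  refine ⟨a τ, hL, fun g => ⟨?_, ?_⟩⟩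
  · rintro ⟨γ, hγ, rfl⟩
    obtain ⟨i, hi⟩ := expo hω hM0 hq hπ.1 (DecF_le F W hγ)
    exact ⟨i, hL γ hγ i hi⟩
  · rintro ⟨i, rfl⟩
    exact ⟨τ ^ i, pow_mem hτ i, ha.pow (DecF_le F W hτ) i⟩

omit [IsAlgClosed k] [IsAlgClosed Ω] in
/-- Reading off the decomposition group from the local image. -/
lemma finish {Z : ValuationSubring Ω → Prop} {W₀ W : ValuationSubring Ω} {G : Type} [Group G]
    {H : Subgroup G} {ρ : Aut k Ω → G} {q : Ω} (hq : q ≠ 0) {I : Set (G × Ω)}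
    (hρ : IsRep F.fixingSubgroup ρ) (hon : ∀ g, ∃ γ ∈ F.fixingSubgroup, ρ γ = g)
    (hun : ∀ U : ValuationSubring Ω, IsPl k U → ¬ Z U → Triv ρ (DecF F U))
    (hL : Loc F W q ρ I) (hA : Agr F W W₀) (hI : ∀ h : G, h ∈ H ↔ ∃ ζ : Ω, (h, ζ) ∈ I) :
    OccR F Z W₀ G H := by
  obtain ⟨W', hW', hA', g, hg⟩ := hL
  refine ⟨fun γ => g⁻¹ * ρ γ * g⁻¹⁻¹, hρ.conj g⁻¹, fun h => ?_, fun U hU hZ γ hγ => ?_, W', hW',
    (FB1.agr_equiv F).trans hA' hA, Set.ext fun h => ⟨?_, fun hh => ?_⟩⟩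
  · obtain ⟨γ, hγ, e⟩ := hon (g * h * g⁻¹)
    exact ⟨γ, hγ, by beta_reduce; rw [e]; group⟩
  · beta_reduce
    rw [hun U hU hZ γ hγ]
    group
  · rintro ⟨γ, hγ, rfl⟩
    exact (hI _).2 ⟨γ q / q, (hg _ _).2 ⟨γ, hγ, by group, by rw [div_mul_cancel₀ _ hq]⟩⟩
  · obtain ⟨ζ, hζ⟩ := (hI h).1 hh
    obtain ⟨γ, hγ, e, -⟩ := (hg h ζ).1 hζ
    exact ⟨γ, hγ, by beta_reduce; rw [e]; group⟩

open Classical in
/-- Gluing the inner cover into the outer one. -/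
lemma glue (hG : StmtGLUE) (p : ℕ) [Fact p.Prime] [CharP k p] {π q : Ω} {M : ℕ} {ω : k}
    (hF : FS F π) (hM : ¬ p ∣ M) (hω : IsPrimitiveRoot ω M) (hq : q ^ M = π)
    {W V₀ : ValuationSubring Ω} (hW : IsPl k W) (hπ : IsUnif F W π) (hV₀ : IsPl k V₀)
    (hv : V₀.valuation π < 1) {G : Type} [Group G] [Finite G] {I : Set (G × Ω)}
    {β : Aut k Ω → G} {S : Subgroup G} {d : G}
    (hC : CH p M π q (algebraMap k Ω ω) V₀ I β S d)
    {α : Aut k Ω → Subgroup.normalizer (S : Set G) ⧸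
      S.subgroupOf (Subgroup.normalizer (S : Set G))}
    (hα : IsRep F.fixingSubgroup α)
    (hl : Lam α (DecF F W) q (algebraMap k Ω ω) (QuotientGroup.mk ⟨d, hC.2.2.2.2.1⟩)) :
    ∃ ρ : Aut k Ω → G, IsRep F.fixingSubgroup ρ ∧ Loc F W q ρ I ∧
      (∀ U : ValuationSubring Ω, IsPl k U → π ∈ U → ¬ Agr F U W → Triv α (DecF F U) →
        Triv ρ (DecF F U)) ∧
      (∃ v : G, ∀ γ ∈ Gam k π, ∃ γ' ∈ F.fixingSubgroup, ρ γ' = v * β γ * v⁻¹) ∧
      ∀ γ ∈ F.fixingSubgroup, ∃ γ' ∈ F.fixingSubgroup,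
        ∃ b : Subgroup.normalizer (S : Set G), ρ γ' = b ∧ QuotientGroup.mk b = α γ := by
  obtain ⟨hβ, hu, hL, hS, hd, -, V, hV, hπV, hQ⟩ := id hC
  have hM0 : 0 < M := Nat.pos_of_ne_zero fun e => hM (e ▸ dvd_zero p)
  have hex : ∀ γ ∈ Dec k π V, ∃ i : ℕ, γ q = algebraMap k Ω ω ^ i * q := fun γ hγ =>
    loc.expo k Ω q M ω hω hM0 γ (by rw [hq]; exact hγ.1)
  have hmem : ∀ γ ∈ Dec k π V, β γ ∈ Subgroup.normalizer (S : Set G) := fun γ hγ => by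
    obtain ⟨i, hi⟩ := hex γ hγ
    have h1 := mul_mem (Subgroup.le_normalizer (hQ γ hγ i hi)) (pow_mem hd i)
    rwa [inv_mul_cancel_right] at h1
  let b : Aut k Ω → Subgroup.normalizer (S : Set G) := fun γ =>
    if h : β γ ∈ Subgroup.normalizer (S : Set G) then ⟨β γ, h⟩ else 1
  have hb : ∀ γ ∈ Dec k π V, (b γ : G) = β γ := fun γ hγ => by
    simp only [b, dif_pos (hmem γ hγ)]
  have hin : GIn p F π q π q M ω (fun _ : Unit => W) (fun _ => V)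
      (Subgroup.normalizer (S : Set G)).subtype (QuotientGroup.mk' _) α (fun _ => β) (fun _ => b)
      (fun _ => QuotientGroup.mk ⟨d, hd⟩) :=
    { fs := hF
      co := hF.co
      hM := hM
      prim := hω
      e1 := hq
      e2 := hq
      pl := fun _ => hW
      un := fun _ => hπ
      ne := fun _ _ _ => rfl
      plV := fun _ => ⟨hV, hπV⟩
      onto := QuotientGroup.mk'_surjective _
      ker := by
        rw [QuotientGroup.ker_mk']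
        exact hS.comap_subtype
      ra := hα
      rβ := fun _ => hβ
      rb := fun _ => ⟨fun γ hγ δ hδ => Subtype.ext (by
          rw [Subgroup.coe_mul, hb _ (mul_mem hγ hδ), hb γ hγ, hb δ hδ,
            hβ.mul γ (Dec_le _ _ hγ) δ (Dec_le _ _ hδ)]),
        (hβ.cts.mono (Dec_le _ _)).comp fun g =>
          if h : g ∈ Subgroup.normalizer (S : Set G) then
            (⟨g, h⟩ : Subgroup.normalizer (S : Set G)) else 1⟩
      eb := fun _ => hb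
      la := fun _ => hl
      lb := fun _ γ hγ i hi => by
        beta_reduce
        rw [← QuotientGroup.mk_pow, QuotientGroup.mk'_apply, QuotientGroup.eq_iff_div_mem,
          Subgroup.mem_subgroupOf, div_eq_mul_inv, Subgroup.coe_mul, Subgroup.coe_inv,
          Subgroup.coe_pow, hb γ hγ]
        exact hQ γ hγ i hi }
  obtain ⟨ρ, hR⟩ := hG p k Ω F π q π q M ω Unit _ _ G _ _ _ _ α _ _ _ hin fun _ => hu
  obtain ⟨v, -, hv'⟩ := hR.g3 ()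
  exact ⟨ρ, hR.rep, hR.g2 () V₀ I hV₀ hv hL, fun U hU h1 h2 => hR.g1 U hU h1 fun _ => h2,
    ⟨v, hv'⟩, hR.g4⟩

end MAIN

theorem blockMAIN (h3 : StmtGp3) (hG : StmtGLUE) (hI : StmtINNER) (hS : StmtWS) : StmtMAIN := by
  intro p hp k Ω _ _ _ _ _ _ F hF Z W₀ W₁ _ hW₁ hne hZ₀ hZ₁ G _ _ H
  refine ⟨MAIN.forward p hF, fun ⟨⟨P, hP⟩, a, ha, hon, hun, W, hW, hA, him⟩ => ?_⟩
  have eqv := FB1.agr_equiv F
  obtain ⟨M, hM, ⟨j, hj⟩, -⟩ := exists_pprime G p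
  have hM0 : 0 < M := Nat.pos_of_ne_zero fun e => hM (e ▸ dvd_zero p)
  obtain ⟨ω, hω⟩ := exists_prim (k := k) (Ω := k) p hM
  have hne' : ¬ Agr F W W₁ := fun h => hne (eqv.trans (eqv.symm hA) h)
  obtain ⟨π, hπ, hpole⟩ := pi.pi1 k Ω F hF W W₁ hW hW₁ hne'
  have hFS : FS F π := fb1.sepu p k Ω F hF W π hW hπ
  obtain ⟨q, hq⟩ := IsAlgClosed.exists_pow_nat_eq π hM0
  have hq0 : q ≠ 0 := by
    rintro rfl
    exact hπ.2.1 (by rw [← hq, zero_pow hM0.ne'])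
  have hexp : ∀ g : G ⧸ pPart p G, g ^ M = 1 := fun g =>
    MAIN.pow_of (h3.frat p G default).2.1 (MAIN.quot_pow hj g)
  obtain ⟨z, hz, hz'⟩ := MAIN.tame p hF hW hπ hM hq hω hexp ha
  obtain ⟨P', c, c1, c2, c3, c4, c5, c6, c7⟩ := h3.gen p G _ (QuotientGroup.mk' (pPart p G)) H P M
    hP hM (fun g => ⟨j, hj g⟩) (fun g => hexp _) z fun g' => by
      rw [← hz', ← SetLike.mem_coe, ← him]
      rfl
  obtain ⟨β, V₀, I, S, d, g, hV₀, hv, hC, hH, hN, hd⟩ := hI p k Ω π q M ω hFS.co hM hω hq G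
    (fun g => ⟨j, hj g⟩) H P' c c1 c2 c3 c4 c5 c6
  obtain ⟨f1, -, -, f4, -⟩ := h3.frat p G S
  obtain ⟨δ, hδ, eδ⟩ := hon (QuotientGroup.mk g)
  have hlam := loc.lamA k Ω F _ a ha W q M ω z hM0 hq0 (hq ▸ hπ.1) hz δ hδ
  have hAδ : Agr F W (δ • W) := Ind.agr_smul hδ W
  let φ : (Subgroup.normalizer ((S : Subgroup G) : Set G) ⧸
      (S : Subgroup G).subgroupOf (Subgroup.normalizer ((S : Subgroup G) : Set G))) →*
      G ⧸ pPart p G :=
    QuotientGroup.lift _ ((QuotientGroup.mk' (pPart p G)).comp (Subgroup.subtype _))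
      fun x hx => (QuotientGroup.eq_one_iff _).2 (f1 hx)
  have hφ : ∀ b : Subgroup.normalizer ((S : Subgroup G) : Set G),
      φ (QuotientGroup.mk b) = QuotientGroup.mk (b : G) := fun _ => rfl
  have hφon : Function.Surjective φ := fun y => by
    obtain ⟨y, rfl⟩ := QuotientGroup.mk_surjective y
    obtain ⟨n, hn, e⟩ := f4 y
    exact ⟨QuotientGroup.mk ⟨n, hn⟩, by
      rw [hφ, QuotientGroup.eq_iff_div_mem, div_eq_mul_inv]; exact e⟩
  have hexp' := fun y => MAIN.pow_of ((h3.norm p G S S.isPGroup').2 ⟨S, rfl⟩)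
    (MAIN.quot_pow (n := M * p ^ j) (fun b => Subtype.ext (hj b)) y)
  have e1 : a δ * z * (a δ)⁻¹ = φ (QuotientGroup.mk ⟨d, hC.2.2.2.2.1⟩) := by
    rw [hφ, eδ, ← c7, QuotientGroup.mk'_apply, ← QuotientGroup.mk_inv, ← QuotientGroup.mk_mul,
      ← QuotientGroup.mk_mul, QuotientGroup.eq_iff_div_mem, div_eq_mul_inv]
    exact hd
  rw [e1] at hlam
  obtain ⟨α, hα, hαa, ⟨W', hW', hA', hl⟩, hαu⟩ := hS p k Ω F π q M ω hFS hM hω hq (δ • W) W₁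
    (found.bas.smulPl k Ω W hW δ).1 (FB2.unif_agr hπ (eqv.symm hAδ)) hW₁
    (fun h => hne' (eqv.trans hAδ h)) hpole _ _ φ hφon hexp' a ha hon _ hlam
  have hA'' : Agr F W' W := eqv.trans hA' (eqv.symm hAδ)
  obtain ⟨ρ, hρ, hL, hu, ⟨v, hv'⟩, h4⟩ := MAIN.glue hG p hFS hM hω hq hW' (FB2.unif_agr hπ hA'')
    hV₀ hv hC hα hl
  refine MAIN.finish hq0 hρ (fun y => ?_) (fun U hU hZ => ?_) hL (eqv.trans hA'' hA) hH
  · have hNle : pPart p G ≤ hρ.im := fun n hn => by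
      obtain ⟨γ, hγ, e⟩ := hN _ ((inferInstance : (pPart p G).Normal).conj_mem' n hn v)
      obtain ⟨γ', hγ', e'⟩ := hv' γ hγ
      exact hρ.mem_im.2 ⟨γ', hγ', by rw [e', e]; group⟩
    obtain ⟨γ, hγ, e⟩ := hon (QuotientGroup.mk y)
    obtain ⟨γ', hγ', b, e2, e3⟩ := h4 γ hγ
    have e4 : (QuotientGroup.mk (b : G) : G ⧸ pPart p G) = QuotientGroup.mk y := by
      rw [← hφ, e3, hαa γ hγ, e]
    have h5 := mul_mem (hρ.mem_im.2 ⟨γ', hγ', e2⟩) (hNle (QuotientGroup.eq.1 e4))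
    rw [mul_inv_cancel_left] at h5
    exact hρ.mem_im.1 h5
  · have n0 : ¬ Agr F W U := fun h => hZ (hZ₀ U hU (eqv.trans (eqv.symm hA) h))
    have n1 : ¬ Agr F W₁ U := fun h => hZ (hZ₁ U hU h)
    refine hu U hU (by_contra fun h => n1 (eqv.symm (hpole U hU h)))
      (fun h => n0 (eqv.symm (eqv.trans h hA''))) ?_
    exact hαu U hU (fun h => n0 (eqv.trans hAδ h)) n1 (hun U hU hZ)

end Pool.Agent.Lib.IW2
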