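import Pool.Agent.Lib.IW2.All1
import Pool.Agent.Lib.IW2.Blue2

/-! Bounds on poles pass to the reduction. -/

open Polynomial IntermediateField

namespace Pool.Agent.Lib.IW2

open Pool.Agent.Lib.IW

namespace MAXP

variable {k Ω G : Type} [Field k] [Field Ω] [Algebra k Ω]

lemma scale (a : G → Ω) (c : Ω) (s : Finset G) :
    ∏ g ∈ s, (X - C (a g * c)) = (∏ g ∈ s, (X - C (a g))).scaleRoots c := by
  classical
  induction s using Finset.induction_on with
  | empty => simp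
  | insert g s hg ih =>
    rw [Finset.prod_insert hg, Finset.prod_insert hg, mul_scaleRoots_of_noZeroDivisors,
      X_sub_C_scaleRoots, ih]

lemma coeff_div [Fintype G] (a : G → Ω) (c : Ω) (m j : ℕ) :
    (∏ g, (X - C (a g / c ^ m))).coeff j =
      (∏ g, (X - C (a g))).coeff j / c ^ (m * (Fintype.card G - j)) := by
  simp only [div_eq_mul_inv]
  rw [scale, coeff_scaleRoots, natDegree_finsetProd_X_sub_C_eq_card, Finset.card_univ, inv_pow,
    ← pow_mul]

lemma deg_iff {W : ValuationSubring Ω} (hW : IsPl k W) {x : Ω} (hx : x ∉ W) (P : k[X]) (N : ℕ) :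
    aeval x P / x ^ N ∈ W ↔ P.natDegree ≤ N := by
  rcases eq_or_ne P 0 with rfl | hP
  · simp
  have h : 1 < W.valuation x := by rwa [← not_le, W.valuation_le_one_iff]
  rw [← W.valuation_le_one_iff, map_div₀, found.bas.infPoly k Ω x W hW hx P hP, map_pow,
    div_le_one₀ (pow_pos (lt_trans zero_lt_one h) _), pow_le_pow_iff_right₀ h]

lemma mem_of [Fintype G] {W : ValuationSubring Ω} {a : G → Ω}
    (h : ∀ j, (∏ g, (X - C (a g))).coeff j ∈ W) (g : G) : a g ∈ W :=
  MAX.root_mem (monic_prod_X_sub_C a _) h (by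
    rw [eval_prod]
    exact Finset.prod_eq_zero (Finset.mem_univ g) (by simp))

end MAXP

open MAXP in
theorem blockMAXP : StmtMAXP := by
  intro k 𝕜 Ω Ω' _ _ _ _ _ _ _ _ _ _ _ _ _ ι O hO x hx hx' G _ _ ρ f f₀ m hf hR hI
  have := Fintype.ofFinite G
  obtain ⟨φ, hφ⟩ := RREP.ex_phi hO
  obtain ⟨W', hW', hxW'⟩ := found.bas.exInf 𝕜 Ω' _ hx'
  have key : ∀ j, ∃ P : k[X], P.natDegree ≤ m * (Fintype.card G - j) ∧
      (∏ g, (X - C (f₀ g))).coeff j = aeval x P := fun j => by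
    obtain ⟨P, hP⟩ := found.bas.intgPoly 𝕜 Ω' (ι x) _ hx'.tr (fun W hW hxW =>
      SpecRep.coeff_prod_mem W.toSubring (fun g => (hI g).1 W hW hxW) j) (hf.coeff_mem hx'.alg j)
    have h1 := SpecRep.coeff_prod_mem W'.toSubring (fun g => (hI g).2 W' hW' hxW') j
    rw [coeff_div, hP] at h1
    let F : G → O.toSubring := fun g => ⟨f g, RREP.rd_mem hO (hR g)⟩
    have h2 : ((∏ g, (X - C (F g))).coeff j : Ω') = aeval (ι x) P := by
      rw [← hP, ← Subring.subtype_apply, ← coeff_map]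
      simp [Polynomial.map_prod, F]
    have h3 : φ ((∏ g, (X - C (F g))).coeff j) = (∏ g, (X - C (f₀ g))).coeff j := by
      rw [← coeff_map]
      simp [Polynomial.map_prod, fun g => (hφ (F g) _).1 (hR g)]
    obtain ⟨-, P₀, h4, h5⟩ := orth.poly k 𝕜 Ω Ω' ι O hO x hx.tr P (h2 ▸ SetLike.coe_mem _)
    exact ⟨P₀, h4.trans ((deg_iff hW' hxW' _ _).1 h1), h3.symm.trans ((hφ _ _).1 (h2 ▸ h5))⟩
  choose P h1 h2 using key
  refine fun g => ⟨fun W hW hxW => mem_of (fun j => ?_) g, fun W hW hxW =>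
    mem_of (a := fun g => f₀ g / x ^ m) (fun j => ?_) g⟩
  · rw [h2]
    exact MAX.amem (R := W.toSubring) _ (fun i => hW.2 _) hxW
  · rw [coeff_div, h2]
    exact (deg_iff hW hxW _ _).2 (h1 j)

end Pool.Agent.Lib.IW2
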