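import Pool.Agent.Lib.IW2.Blue2

/-! Orthonormal bases over a spherically complete field. -/

namespace Pool.Agent.Lib.IW2

namespace N1

variable {k 𝕜 : Type} [Field k] [Field 𝕜] [Algebra k 𝕜] {ν : AbsoluteValue 𝕜 ℝ}
  {E : Type} [AddCommGroup E] [Module 𝕜 E] {N : E → ℝ}

lemma sub_le (hs : ∀ (c : 𝕜) (e : E), N (c • e) = ν c * N e)
    (ha : ∀ e e', N (e + e') ≤ max (N e) (N e')) (e e' : E) : N (e - e') ≤ max (N e) (N e') := by
  have h1 : N (-e') = N e' := by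
    have := hs (-1) e'
    rwa [neg_one_smul, ν.map_neg, ν.map_one, one_mul] at this
  have h2 := ha e (-e')
  rwa [h1, ← sub_eq_add_neg] at h2

lemma sum_le (h0 : ∀ e, 0 ≤ N e) (hs : ∀ (c : 𝕜) (e : E), N (c • e) = ν c * N e)
    (ha : ∀ e e', N (e + e') ≤ max (N e) (N e')) {d : ℕ} {w : Fin d → E} (hw : ∀ i, N (w i) ≤ 1)
    {c : Fin d → 𝕜} {r : ℝ} (hr : 0 ≤ r) (hc : ∀ i, ν (c i) ≤ r) : N (∑ j, c j • w j) ≤ r := by
  refine Finset.sum_induction (fun j => c j • w j) (fun e => N e ≤ r)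
    (fun a b h1 h2 => (ha a b).trans (max_le h1 h2)) ?_ fun i _ => ?_
  · have := hs 0 0
    rw [zero_smul, ν.map_zero, zero_mul] at this
    rw [this]
    exact hr
  · rw [hs]
    calc ν (c i) * N (w i) ≤ r * 1 := mul_le_mul (hc i) (hw i) (h0 _) hr
      _ = r := mul_one r

lemma best (hB : Big k ν) (h0 : ∀ e, 0 ≤ N e) (hs : ∀ (c : 𝕜) (e : E), N (c • e) = ν c * N e)
    (ha : ∀ e e', N (e + e') ≤ max (N e) (N e')) {d : ℕ} {w : Fin d → E} (hw : ∀ i, N (w i) ≤ 1)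
    (hc : ∀ (c : Fin d → 𝕜) (i : Fin d), ν (c i) ≤ N (∑ j, c j • w j)) (x : E) :
    ∃ b : Fin d → 𝕜, ∀ a : Fin d → 𝕜, N (x - ∑ j, b j • w j) ≤ N (x - ∑ j, a j • w j) := by
  set f : (Fin d → 𝕜) → ℝ := fun a => N (x - ∑ j, a j • w j) with hf
  have hbd : BddBelow (Set.range f) := ⟨0, by rintro _ ⟨a, rfl⟩; exact h0 _⟩
  have hδ : 0 ≤ ⨅ a, f a := le_ciInf fun a => h0 _
  have hpos : ∀ n : ℕ, (0 : ℝ) < 1 / ((n : ℝ) + 1) := fun n => Nat.one_div_pos_of_nat
  have h1 : ∀ n : ℕ, ∃ a, f a < (⨅ a, f a) + 1 / ((n : ℝ) + 1) := fun n =>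
    exists_lt_of_ciInf_lt (lt_add_of_pos_right _ (hpos n))
  choose a h1 using h1
  set r : ℕ → ℝ := fun n => (⨅ a, f a) + 1 / ((n : ℝ) + 1) with hr
  have hanti : Antitone r := fun m n hmn =>
    add_le_add le_rfl (Nat.one_div_le_one_div hmn)
  have h2 : ∀ i n, ν (a (n + 1) i - a n i) ≤ r n := by
    intro i n
    refine (hc (fun j => a (n + 1) j - a n j) i).trans ?_
    have e : ∑ j, (a (n + 1) j - a n j) • w j =
        (x - ∑ j, a n j • w j) - (x - ∑ j, a (n + 1) j • w j) := by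
      simp only [sub_smul, Finset.sum_sub_distrib]
      abel
    rw [e]
    exact (sub_le hs ha _ _).trans
      (max_le (h1 n).le ((h1 (n + 1)).le.trans (hanti (Nat.le_succ n))))
  have h3 : ∀ i, ∃ b, ∀ n, ν (b - a n i) ≤ r n := fun i => hB.sph (fun n => a n i) r hanti (h2 i)
  choose b h3 using h3
  refine ⟨b, fun a' => le_trans ?_ (ciInf_le hbd a')⟩
  refine le_of_forall_pos_le_add fun ε hε => ?_
  obtain ⟨n, hn⟩ := exists_nat_one_div_lt hε
  have e : x - ∑ j, b j • w j = (x - ∑ j, a n j • w j) - ∑ j, (b j - a n j) • w j := by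
    simp only [sub_smul, Finset.sum_sub_distrib]
    abel
  have h4 : N (x - ∑ j, b j • w j) ≤ r n := by
    rw [e]
    exact (sub_le hs ha _ _).trans (max_le (h1 n).le
      (sum_le h0 hs ha hw (add_nonneg hδ (hpos n).le) fun i => h3 i n))
  exact h4.trans (add_le_add le_rfl hn.le)

end N1

theorem blockN1 : StmtN1 := by
  intro k 𝕜 _ _ _ ν hB E _ _ N h0 hz hs ha d
  induction d with
  | zero => exact fun v _ => ⟨v, fun i => i.elim0, fun i => i.elim0, fun _ i => i.elim0⟩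
  | succ d ih =>
    intro v hv
    obtain ⟨hv1, hv2⟩ := linearIndependent_finSucc.1 hv
    obtain ⟨w, hw1, hw2, hw3⟩ := ih _ hv1
    obtain ⟨b, hb⟩ := N1.best hB h0 hs ha hw2 hw3 (v 0)
    set y := v 0 - ∑ j, b j • w j with hy
    have hu : ∑ j, b j • w j ∈ Submodule.span 𝕜 (Set.range (Fin.tail v)) :=
      Submodule.sum_mem _ fun j _ => Submodule.smul_mem _ _ (hw1 j)
    have hy0 : 0 < N y := by
      refine lt_of_le_of_ne (h0 _) fun h => hv2 ?_
      rw [sub_eq_zero.1 (hz _ h.symm)]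
      exact hu
    obtain ⟨c, hc⟩ := hB.onto _ hy0
    have hc0 : c ≠ 0 := fun h => by
      rw [h, ν.map_zero] at hc
      exact hy0.ne hc
    have hle : Submodule.span 𝕜 (Set.range (Fin.tail v)) ≤ Submodule.span 𝕜 (Set.range v) :=
      Submodule.span_mono (by rintro _ ⟨i, rfl⟩; exact ⟨i.succ, rfl⟩)
    have hn : N (c⁻¹ • y) = 1 := by
      rw [hs, map_inv₀, hc, inv_mul_cancel₀ hy0.ne']
    have key : ∀ (c0 : 𝕜) (cs : Fin d → 𝕜), ν c0 ≤ N (c0 • c⁻¹ • y + ∑ j, cs j • w j) := by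
      intro c0 cs
      rcases eq_or_ne c0 0 with rfl | h
      · rw [ν.map_zero]
        exact h0 _
      have e : c0 • c⁻¹ • y + ∑ j, cs j • w j =
          (c0 * c⁻¹) • (v 0 - ∑ j, (b j - (c0 * c⁻¹)⁻¹ * cs j) • w j) := by
        have h' : c0 * c⁻¹ ≠ 0 := mul_ne_zero h (inv_ne_zero hc0)
        simp only [sub_smul, Finset.sum_sub_distrib, mul_smul ((c0 * c⁻¹)⁻¹), ← Finset.smul_sum]
        rw [← sub_add, smul_add, smul_inv_smul₀ h', smul_smul]
      rw [e, hs, map_mul, map_inv₀, hc, mul_assoc]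
      refine le_mul_of_one_le_right (ν.nonneg _) ?_
      rw [le_inv_mul_iff₀ hy0, mul_one]
      exact hb _
    refine ⟨Fin.cons (c⁻¹ • y) w, fun i => ?_, fun i => ?_, fun cs i => ?_⟩
    · refine Fin.cases ?_ (fun j => hle (hw1 j)) i
      exact Submodule.smul_mem _ _ (Submodule.sub_mem _ (Submodule.subset_span ⟨0, rfl⟩) (hle hu))
    · exact Fin.cases hn.le (fun j => hw2 j) i
    · rw [Fin.sum_univ_succ]
      simp only [Fin.cons_zero, Fin.cons_succ]
      refine Fin.cases (key _ _) (fun j => ?_) i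
      refine (hw3 (fun j => cs j.succ) j).trans ?_
      have h1 := N1.sub_le hs ha (cs 0 • c⁻¹ • y + ∑ j, cs j.succ • w j) (cs 0 • c⁻¹ • y)
      rw [add_sub_cancel_left, hs (cs 0), hn, mul_one] at h1
      exact h1.trans (max_le le_rfl (key _ _))

end Pool.Agent.Lib.IW2
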