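import Pool.Agent.Lib.IW2.Blue2

/-! Block N2: the upper bound in a Riemann-Roch type count. -/

open Polynomial IntermediateField Module

namespace Pool.Agent.Lib.IW2

open Pool.Agent.Lib.IW

namespace N2

variable {k Ω : Type} [Field k] [Field Ω] [Algebra k Ω] {x : Ω} {G : Type}

lemma rank_le {V : Type} [AddCommGroup V] [Module k V] (A B : Submodule k V)
    [FiniteDimensional k A] [FiniteDimensional k B] (f : ℕ)
    (h : ∀ w : Fin (f + 1) → V, (∀ i, w i ∈ B) → ∃ c : Fin (f + 1) → k, c ≠ 0 ∧ ∑ i, c i • w i ∈ A) :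
    finrank k B ≤ finrank k A + f := by
  obtain ⟨C, h1, h2⟩ := IsModularLattice.exists_disjoint_and_sup_eq (inf_le_right : A ⊓ B ≤ B)
  have hC : C ≤ B := h2 ▸ le_sup_right
  have : FiniteDimensional k C := Submodule.finiteDimensional_of_le hC
  have h3 : finrank k C ≤ f := by
    by_contra hc
    obtain ⟨w, hw⟩ := exists_linearIndependent_of_le_finrank (Nat.succ_le_of_lt (not_le.1 hc))
    obtain ⟨c, c0, c1⟩ := h (fun i => w i) fun i => hC (w i).2
    have c2 : ∑ i, c i • (w i : V) ∈ C := sum_mem fun i _ => C.smul_mem _ (w i).2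
    have c3 := Submodule.disjoint_def.1 h1 _ ⟨c1, hC c2⟩ c2
    exact c0 (funext (Fintype.linearIndependent_iff.1 hw c (Subtype.ext (by simpa using c3))))
  have h4 := Submodule.finrank_add_le_finrank_add_finrank (A ⊓ B) C
  have h5 : finrank k (A ⊓ B : Submodule k V) ≤ finrank k A := Submodule.finrank_mono inf_le_left
  rw [h2] at h4
  omega

/-- Functions that are integral with poles of order less than `j` at infinity. -/
def LL (x : Ω) (U : Submodule k (G → Ω)) (j : ℕ) : Submodule k (G → Ω) where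
  carrier := {v | v ∈ U ∧ ∀ g, Intg k x (v g) ∧ IntgInf k x (v g * x / x ^ j)}
  zero_mem' := ⟨zero_mem U, fun _ => ⟨fun W _ _ => zero_mem W, fun W _ _ => by simp⟩⟩
  add_mem' := fun ha hb => ⟨add_mem ha.1 hb.1, fun g =>
    ⟨fun W h1 h2 => add_mem ((ha.2 g).1 W h1 h2) ((hb.2 g).1 W h1 h2), fun W h1 h2 => by
      rw [Pi.add_apply, add_mul, add_div]
      exact add_mem ((ha.2 g).2 W h1 h2) ((hb.2 g).2 W h1 h2)⟩⟩
  smul_mem' := fun c v ha => ⟨U.smul_mem c ha.1, fun g =>
    ⟨fun W h1 h2 => by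
      rw [Pi.smul_apply, Algebra.smul_def]
      exact mul_mem (h1.2 c) ((ha.2 g).1 W h1 h2), fun W h1 h2 => by
      rw [Pi.smul_apply, Algebra.smul_def, mul_assoc, mul_div_assoc]
      exact mul_mem (h1.2 c) ((ha.2 g).2 W h1 h2)⟩⟩

lemma eq_zero [IsAlgClosed k] (hx : Co k x) {y : Ω} (h1 : Intg k x y) (h2 : IntgInf k x (y * x)) :
    y = 0 := by
  have sm : ∀ W : ValuationSubring Ω, IsPl k W → x ∉ W → W.valuation y < 1 := fun W hW h => by
    rw [← mul_inv_cancel_right₀ hx.ne_zero y, map_mul]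
    exact mul_lt_one_of_nonneg_of_lt_one_right ((W.valuation_le_one_iff _).2 (h2 W hW h)) zero_le
      (PicA.lt_one_iff.2 (Or.inr (by rwa [inv_inv])))
  have ha : IsAlgebraic k y := by
    by_contra ht
    obtain ⟨W, hW, h⟩ := found.bas.exInf k Ω y (found.bas.coOf k Ω x y hx ht)
    by_cases e : x ∈ W
    · exact h (h1 W hW e)
    · exact h ((W.valuation_le_one_iff _).1 (sm W hW e).le)
  obtain ⟨c, rfl⟩ := minpoly.mem_range_of_degree_eq_one k y
    (IsAlgClosed.degree_eq_one_of_irreducible k (minpoly.irreducible ha.isIntegral))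
  obtain ⟨W, hW, h⟩ := found.bas.exInf k Ω x hx
  by_contra h0
  have := sm W hW h
  rw [PicA.val_const hW.2 fun e => h0 (by rw [e, map_zero])] at this
  exact lt_irrefl _ this

lemma step [IsAlgClosed k] (hx : Co k x) {U : Submodule k (G → Ω)} {n j : ℕ}
    {w : Fin (n + 1) → G → Ω} (hw : ∀ i, w i ∈ LL x U (j + 1)) {a : Fin (n + 1) → Ω}
    (h1 : ∀ i, a i ∈ k⟮x⟯) (h2 : a ≠ 0) (h3 : ∀ g, ∑ i, a i * w i g = 0) :
    ∃ c : Fin (n + 1) → k, c ≠ 0 ∧ ∑ i, c i • w i ∈ LL x U j := by
  obtain ⟨W, hW, h⟩ := found.bas.exInf k Ω x hx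
  obtain ⟨l, hl⟩ := Finite.exists_max fun i => W.valuation (a i)
  have l0 : a l ≠ 0 := fun e => h2 (funext fun i => by
    have := hl i
    rw [e, map_zero, le_zero_iff, map_eq_zero] at this
    exact this)
  have b1 : ∀ i, a i / a l ∈ W := fun i => by
    rw [← W.valuation_le_one_iff, map_div₀]
    exact div_le_one_of_le₀ (hl i) zero_le
  choose c hc using fun i => found.bas.resid k Ω x hx W hW _ (b1 i)
  have b2 : ∀ i, a i / a l - algebraMap k Ω (c i) ∈ k⟮x⟯ := fun i =>
    sub_mem (div_mem (h1 i) (h1 l)) (IntermediateField.algebraMap_mem _ _)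
  have b3 : ∀ i, IntgInf k x ((a i / a l - algebraMap k Ω (c i)) * x) := fun i V hV hx' => by
    rw [← found.bas.agrInf k Ω x hx.tr W V hW hV h hx' _
      (mul_mem (b2 i) (mem_adjoin_simple_self k x)), ← W.valuation_le_one_iff, map_mul]
    have := (found.bas.unifInf k Ω x hx.tr W hW h).2.2.2 _ (b2 i) (hc i)
    refine (mul_le_mul_left this _).trans_eq ?_
    rw [← map_mul, inv_mul_cancel₀ hx.ne_zero, map_one]
  refine ⟨c, fun e => ?_, sum_mem fun i _ => U.smul_mem _ (hw i).1, fun g => ⟨fun V hV hx' => ?_,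
    fun V hV hx' => ?_⟩⟩
  · have := hc l
    rw [e, div_self l0, Pi.zero_apply, map_zero, sub_zero, map_one] at this
    exact lt_irrefl _ this
  · rw [Finset.sum_apply]
    exact sum_mem fun i _ => by
      rw [Pi.smul_apply, Algebra.smul_def]
      exact mul_mem (hV.2 _) (((hw i).2 g).1 V hV hx')
  · have e : (∑ i, c i • w i) g * x / x ^ j = (∑ i, a i * w i g) * (x / x ^ j / a l) -
        ∑ i, (a i / a l - algebraMap k Ω (c i)) * x * (w i g * x / x ^ (j + 1)) := by
      rw [Finset.sum_apply, Finset.sum_mul, Finset.sum_div, Finset.sum_mul,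
        ← Finset.sum_sub_distrib]
      refine Finset.sum_congr rfl fun i _ => ?_
      have := hx.ne_zero
      rw [Pi.smul_apply, Algebra.smul_def]
      field_simp
      ring
    rw [e, h3, zero_mul, zero_sub]
    exact neg_mem (sum_mem fun i _ => mul_mem (b3 i V hV hx') (((hw i).2 g).2 V hV hx'))

end N2

open N2 in
theorem blockN2 : StmtN2 := by
  intro k Ω _ _ _ _ x hx G U f H m d v h1 h2 h3
  set S := Submodule.span k (Set.range v) with hS
  have : FiniteDimensional k S := FiniteDimensional.span_of_finite k (Set.finite_range v)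
  have key : ∀ j, finrank k (S ⊓ LL x U j : Submodule k _) ≤ f * j := fun j => by
    induction j with
    | zero =>
      have : S ⊓ LL x U 0 = ⊥ := eq_bot_iff.2 fun w hw => funext fun g =>
        eq_zero hx (hw.2.2 g).1 (by simpa using (hw.2.2 g).2)
      rw [this, finrank_bot]
      exact Nat.zero_le _
    | succ j ih =>
      refine (rank_le (S ⊓ LL x U j) (S ⊓ LL x U (j + 1)) f fun w hw => ?_).trans
        (by rw [Nat.mul_succ]; omega)
      obtain ⟨a, a1, a2, a3⟩ := H w fun i => (hw i).2.1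
      obtain ⟨c, c1, c2⟩ := step hx (fun i => (hw i).2) a1 a2 a3
      exact ⟨c, c1, sum_mem fun i _ => S.smul_mem _ (hw i).1, c2⟩
  have h4 : S ≤ LL x U (m + 1) := Submodule.span_le.2 (by
    rintro _ ⟨i, rfl⟩
    refine ⟨h1 i, fun g => ⟨(h3 i g).1, ?_⟩⟩
    rw [pow_succ, mul_div_mul_right _ _ hx.ne_zero]
    exact (h3 i g).2)
  have h5 := key (m + 1)
  rwa [inf_eq_left.2 h4, hS, finrank_span_eq_card h2, Fintype.card_fin] at h5

end Pool.Agent.Lib.IW2
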