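import Pool.Agent.Lib.IW2.All1
import Pool.Agent.Lib.IW2.Blue2

/-! Block NEAR: splitting is an open condition on the radius. -/

open Polynomial IntermediateField
open scoped Pointwise

namespace Pool.Agent.Lib.IW2

open Pool.Agent.Lib.IW

namespace NEAR

lemma const_eq {k Ω : Type} [Field k] [Field Ω] [Algebra k Ω] {y : AbsoluteValue Ω ℝ}
    (hk : ∀ c : k, y (algebraMap k Ω c) ≤ 1) {a b : k}
    (h : y (algebraMap k Ω a - algebraMap k Ω b) < 1) : a = b := by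
  by_contra hne
  have h0 : a - b ≠ 0 := sub_ne_zero.2 hne
  have h1 : y (algebraMap k Ω (a - b)) * y (algebraMap k Ω (a - b)⁻¹) = 1 := by
    rw [← map_mul, ← map_mul, mul_inv_cancel₀ h0, map_one, map_one]
  have h2 := hk (a - b)⁻¹
  rw [← map_sub] at h
  have h3 := y.nonneg (algebraMap k Ω (a - b))
  have h4 := y.nonneg (algebraMap k Ω (a - b)⁻¹)
  nlinarith

lemma na_lt {Ω : Type} [Field Ω] {y : AbsoluteValue Ω ℝ} (hy : IsNonarchimedean y) {a b : Ω}
    (ha : y a < 1) (hb : y b < 1) : y (a + b) < 1 :=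
  lt_of_le_of_lt (hy a b) (max_lt ha hb)

lemma na_le {Ω : Type} [Field Ω] {y : AbsoluteValue Ω ℝ} (hy : IsNonarchimedean y) {a b : Ω}
    (ha : y a ≤ 1) (hb : y b ≤ 1) : y (a + b) ≤ 1 :=
  le_trans (hy a b) (max_le ha hb)

/-- A family whose characteristic polynomial almost vanishes at enough constants gives a
certificate. -/
lemma nearc (GP1 : StmtGP1) {k 𝕜 Ω : Type} [Field k] [IsAlgClosed k] [Field 𝕜] [Field Ω]
    [Algebra k 𝕜] [Algebra k Ω] [Algebra 𝕜 Ω] [IsScalarTower k 𝕜 Ω]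
    {y : AbsoluteValue Ω ℝ} (hy : IsNonarchimedean y) {O : ValuationSubring Ω} (hO : IsBall y O)
    (hk : ∀ c : k, y (algebraMap k Ω c) ≤ 1) {F : IntermediateField 𝕜 Ω}
    {G : Type} [Group G] [Fintype G] [DecidableEq G] {ρ : Aut 𝕜 Ω → G} {f : G → Ω}
    (hf : Alg F ρ f) {c : G → k} (hc : Function.Injective c)
    (h : ∀ a, y (∏ g, (algebraMap k Ω (c a) - f g)) < 1) : Cert F ρ O := by
  have h1 : ∀ a, ∃ g, y (algebraMap k Ω (c a) - f g) < 1 := fun a => by
    by_contra hn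
    push Not at hn
    have h2 := h a
    rw [map_prod] at h2
    exact absurd (Finset.prod_induction _ (fun t : ℝ => 1 ≤ t)
      (fun _ _ => one_le_mul_of_one_le_of_one_le) le_rfl fun g _ => hn g) (not_le.2 h2)
  choose π hπ using h1
  have key : ∀ a b, y (f (π a) - f (π b)) < 1 → a = b := fun a b hab => by
    refine hc (const_eq hk ?_)
    have h3 : algebraMap k Ω (c a) - algebraMap k Ω (c b) =
        (algebraMap k Ω (c a) - f (π a)) + ((f (π a) - f (π b)) +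
          (f (π b) - algebraMap k Ω (c b))) := by ring
    rw [h3]
    exact na_lt hy (hπ a) (na_lt hy hab (by rw [y.map_sub]; exact hπ b))
  have hinj : Function.Injective π := fun a b hab => key a b (by simp [hab])
  have hsur : Function.Surjective π := Finite.surjective_of_injective hinj
  have hv := ((GP1.ball Ω y hy).2 O hO).1
  refine vand.vand k 𝕜 Ω F G ρ O (fun a => (hO _).2 (hk a)) fun g hg => ⟨f, hf, ?_, ?_⟩
  · obtain ⟨a, ha⟩ := hsur 1
    rw [hO]
    have h3 : f 1 = (f (π a) - algebraMap k Ω (c a)) + algebraMap k Ω (c a) := by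
      rw [ha]; ring
    rw [h3]
    exact na_le hy (by rw [y.map_sub]; exact (hπ a).le) (hk _)
  · obtain ⟨a, ha⟩ := hsur g
    obtain ⟨b, hb⟩ := hsur 1
    rw [hv, ← ha, ← hb]
    intro h3
    exact hg (by rw [← ha, key a b h3, hb])

lemma gr_const {k 𝕜 Ω : Type} [Field k] [Field 𝕜] [Field Ω] [Algebra k 𝕜] [Algebra k Ω]
    [Algebra 𝕜 Ω] [IsScalarTower k 𝕜 Ω] {ν : AbsoluteValue 𝕜 ℝ} (hν : Big k ν)
    {y : AbsoluteValue Ω ℝ} {σ : Ω} {r : ℝ} (h : GR ν y σ r) (c : k) :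
    y (algebraMap k Ω c) ≤ 1 := by
  rw [IsScalarTower.algebraMap_apply k 𝕜 Ω, h.ext]
  exact hν.const c

lemma prod_in {k 𝕜 Ω : Type} [Field k] [Field 𝕜] [Field Ω] [IsAlgClosed Ω] [Algebra k 𝕜]
    [Algebra k Ω] [Algebra 𝕜 Ω] [IsScalarTower k 𝕜 Ω] {σ : Ω} (hσ : Co 𝕜 σ)
    {G : Type} [Group G] [Fintype G] {ρ : Aut 𝕜 Ω → G} {f : G → Ω} (hf : Alg 𝕜⟮σ⟯ ρ f) (a : k) :
    ∏ g, (algebraMap k Ω a - f g) ∈ 𝕜⟮σ⟯ := by
  refine Alg.prod_mem hσ.alg ((Alg.const ?_).sub hf)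
  rw [IsScalarTower.algebraMap_apply k 𝕜 Ω]
  exact IntermediateField.algebraMap_mem _ _

lemma alg_aeval {k Ω : Type} [Field k] [Field Ω] [Algebra k Ω] {F : IntermediateField k Ω}
    {G : Type} [Group G] {ρ : Aut k Ω → G} {z : G → Ω} (hz : Alg F ρ z) (L : k[X]) :
    Alg F ρ fun g => aeval (z g) L := by
  induction L using Polynomial.induction_on' with
  | add P Q hP hQ => simpa only [map_add] using hP.add hQ
  | monomial n a =>
    simpa only [aeval_monomial] using (Alg.const (F.algebraMap_mem a)).mul (hz.pow n)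

lemma aeval_mem {k Ω : Type} [Field k] [Field Ω] [Algebra k Ω] {W : ValuationSubring Ω}
    (hW : ∀ c : k, algebraMap k Ω c ∈ W) {z : Ω} (hz : z ∈ W) (L : k[X]) : aeval z L ∈ W := by
  induction L using Polynomial.induction_on' with
  | add P Q hP hQ => rw [map_add]; exact add_mem hP hQ
  | monomial n a => rw [aeval_monomial]; exact mul_mem (hW a) (pow_mem hz n)

lemma aeval_near {k Ω : Type} [Field k] [Field Ω] [Algebra k Ω] {W : ValuationSubring Ω}
    (hW : ∀ c : k, algebraMap k Ω c ∈ W) {z : Ω} (hz : z ∈ W) {e : k}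
    (h : W.valuation (z - algebraMap k Ω e) < 1) (L : k[X]) :
    W.valuation (aeval z L - algebraMap k Ω (L.eval e)) < 1 := by
  obtain ⟨Q, hQ⟩ := Polynomial.X_sub_C_dvd_sub_C_eval (p := L) (a := e)
  have h1 := congrArg (aeval z) hQ
  rw [map_sub, map_mul, map_sub, aeval_X, aeval_C, aeval_C] at h1
  rw [h1, map_mul]
  exact lt_of_le_of_lt (mul_le_of_le_one_right' ((W.valuation_le_one_iff _).2
    (aeval_mem hW hz Q))) h

/-- At a place with trivial decomposition group the points of the fibre are separated. -/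
lemma sep_at (p : ℕ) [Fact p.Prime] {k Ω : Type} [Field k] [IsAlgClosed k] [CharP k p] [Field Ω]
    [IsAlgClosed Ω] [Algebra k Ω] {σ : Ω} (hσ : Co k σ) {G : Type} [Group G] [Finite G]
    {ρ : Aut k Ω → G} (hρ : IsRep (Gam k σ) ρ) {W : ValuationSubring Ω} (hW : IsPl k W)
    (h0 : W.valuation σ < 1) (hT : Triv ρ (Dec k σ W)) (h : G) (hh : h ≠ 1) :
    ∃ f, Alg k⟮σ⟯ ρ f ∧ f 1 ∈ W ∧ ¬ W.valuation (f h - f 1) < 1 := by
  obtain ⟨f, hf, hinj, -⟩ := exists_alg_inj p (fs_self hσ) (ρ := ρ) (by rwa [fix_adjoin])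
  have hU := found.bas.unifAt k Ω σ hσ.tr 0 W hW (by simpa using h0)
  rw [map_zero, sub_zero] at hU
  let Kh : IntermediateField k Ω :=
    (separableClosure k⟮σ⟯ Ω).restrictScalars k ⊓ IntermediateField.fixedField (Dec k σ W)
  have hKh : ∀ y, y ∈ Kh ↔ IsSeparable k⟮σ⟯ y ∧ ∀ γ ∈ Dec k σ W, γ y = y := fun y => by
    simp only [Kh, IntermediateField.mem_inf, IntermediateField.mem_fixedField_iff]
    rfl
  have hπ : σ ∈ Kh := (hKh _).2 ⟨sep_mem hU.1, fun γ hγ => (mem_Dec.1 hγ).1⟩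
  have hval : ∀ y ∈ Kh, y ≠ 0 → ∃ i : ℤ, W.valuation y = W.valuation σ ^ i := fun y hy h0 =>
    found.hens.hens p k Ω k⟮σ⟯ hσ.ff W hW _ hU y h0 ((hKh y).1 hy).1 (by
      rw [DecF_adjoin]
      exact ((hKh y).1 hy).2)
  have hfK : ∀ g, f g ∈ Kh := fun g => (hKh _).2 ⟨hf.1 g, fun γ hγ => by
    rw [hf.2 γ (by rw [fix_adjoin]; exact Dec_le _ _ hγ), hT γ hγ, one_mul]⟩
  obtain ⟨n, hn⟩ := hval _ (sub_mem (hfK h) (hfK 1)) (sub_ne_zero.2 fun e => hh (hinj e))
  obtain ⟨s, a, -, hv⟩ := found.dens.expand k Ω σ hσ W hW σ hU.2.1 hU.2.2.1 Kh hπ hval _ (hfK 1) n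
  have hTm : ∑ i ∈ s, algebraMap k Ω (a i) * σ ^ i ∈ k⟮σ⟯ :=
    sum_mem fun i _ => mul_mem (IntermediateField.algebraMap_mem _ _) (zpow_mem hU.1 i)
  have hσ0 : W.valuation σ ^ n ≠ 0 := zpow_ne_zero _ (by simpa using hU.2.1)
  refine ⟨_, (hf.sub (Alg.const hTm)).div (Alg.const (zpow_mem hU.1 n)), ?_, ?_⟩
  · rw [← W.valuation_le_one_iff, map_div₀, map_zpow₀]
    exact div_le_one_of_le₀ hv zero_le
  · rw [← sub_div, sub_sub_sub_cancel_right, map_div₀, map_zpow₀, hn, div_self hσ0]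
    exact lt_irrefl _

end NEAR

open NEAR in
theorem blockNEAR (GP1 : StmtGP1) (GP2 : StmtGP2) : StmtNEAR where
  right k 𝕜 Ω' _ _ _ _ _ _ _ _ _ _ ν hν σ hσ G _ _ _ ρ r₀ y hr₀ hy f c hf hc h := by
    have h1 : ∀ a : G, ∃ ε : ℝ, 0 < ε ∧ ∀ (r : ℝ) (y' : AbsoluteValue Ω' ℝ), 0 < r →
        |r - r₀| < ε → GR ν y' σ r → y' (∏ g, (algebraMap k Ω' (c a) - f g)) < 1 := fun a => by
      obtain ⟨φ, hφ, hv⟩ := GP2.cont 𝕜 Ω' ν σ _ (prod_in hσ hf (c a))
      have h2 : φ r₀ < 1 := by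
        rw [← hv r₀ y hr₀ hy, map_prod, ← Finset.mul_prod_erase _ _ (Finset.mem_univ a)]
        have h3 : y (algebraMap k Ω' (c a) - f a) < 1 := by rw [y.map_sub]; exact h a
        have h4 : ∏ g ∈ Finset.univ.erase a, y (algebraMap k Ω' (c a) - f g) ≤ 1 :=
          Finset.prod_le_one (fun g _ => y.nonneg _) fun g _ => by
            have h5 : algebraMap k Ω' (c a) - f g = algebraMap k Ω' (c a - c g) +
                (algebraMap k Ω' (c g) - f g) := by rw [map_sub]; ring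
            rw [h5]
            exact na_le hy.na (gr_const hν hy _) (by rw [y.map_sub]; exact (h g).le)
        exact lt_of_le_of_lt (mul_le_of_le_one_right (y.nonneg _) h4) h3
      have h3 : ContinuousAt φ r₀ := hφ.continuousAt (Ioi_mem_nhds hr₀)
      obtain ⟨ε, hε, h4⟩ := Metric.eventually_nhds_iff.1 (h3.eventually (gt_mem_nhds h2))
      exact ⟨ε, hε, fun r y' hr hd hy' => by
        rw [hv r y' hr hy']
        exact h4 (by rwa [Real.dist_eq])⟩
    choose ε hε hv using h1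
    obtain ⟨a₀, ha₀⟩ := Finite.exists_min ε
    exact ⟨ε a₀, hε a₀, fun r hr hd y' O hy' hO => nearc GP1 hy'.na hO (gr_const hν hy') hf hc
      fun a => hv a r y' hr (hd.trans_le (ha₀ a)) hy'⟩
  zero p _ k 𝕜 Ω' _ _ _ _ _ _ _ _ _ _ _ ν hν σ hσ G _ _ _ ρ hρ W hW h0 hT := by
    have : CharP 𝕜 p := charP_of_injective_algebraMap (algebraMap k 𝕜).injective p
    have hkW : ∀ c : k, algebraMap k Ω' c ∈ W := fun c => by
      rw [IsScalarTower.algebraMap_apply k 𝕜 Ω']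
      exact hW.2 _
    obtain ⟨z, hz, hzW, hzs⟩ := vand.sepf k 𝕜 Ω' 𝕜⟮σ⟯ G ρ W hkW (sep_at p hσ hρ hW h0 hT)
    choose e he using fun g => found.bas.resid 𝕜 Ω' σ hσ W hW (z g) (hzW g)
    have hei : Function.Injective e := fun a b hab => by
      by_contra hne
      have h1 : z a - z b = (z a - algebraMap 𝕜 Ω' (e a)) - (z b - algebraMap 𝕜 Ω' (e b)) := by
        rw [hab]; ring
      have h2 := hzs a b hne
      rw [h1] at h2
      exact absurd h2 (W.valuation.map_sub_lt (he a) (he b)).ne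
    obtain ⟨c⟩ : Nonempty (G ↪ k) := by
      obtain ⟨n, ⟨q⟩⟩ := Finite.exists_equiv_fin G
      exact ⟨q.toEmbedding.trans (Fin.valEmbedding.trans (Infinite.natEmbedding k))⟩
    let L : 𝕜[X] := Lagrange.interpolate Finset.univ e fun g => algebraMap k 𝕜 (c g)
    have hL : ∀ g, L.eval (e g) = algebraMap k 𝕜 (c g) := fun g =>
      Lagrange.eval_interpolate_at_node _ hei.injOn (Finset.mem_univ g)
    have hf := alg_aeval hz L
    have hn : ∀ g, W.valuation (algebraMap k Ω' (c g) - aeval (z g) L) < 1 := fun g => by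
      rw [Valuation.map_sub_swap, IsScalarTower.algebraMap_apply k 𝕜 Ω', ← hL]
      exact aeval_near hW.2 (hzW g) (he g) L
    have h1 : ∀ a : G, W.valuation (∏ g, (algebraMap k Ω' (c a) - aeval (z g) L)) < 1 := fun a => by
      rw [← Finset.mul_prod_erase _ _ (Finset.mem_univ a), map_mul]
      refine lt_of_le_of_lt (mul_le_of_le_one_right' ((W.valuation_le_one_iff _).2 ?_)) (hn a)
      exact prod_mem fun g _ => sub_mem (hkW _) (aeval_mem hW.2 (hzW g) L)
    choose r hr hv using fun a => GP2.zero 𝕜 Ω' ν σ hσ.tr W hW h0 _ (prod_in hσ hf (c a)) (h1 a)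
    obtain ⟨a₀, ha₀⟩ := Finite.exists_min r
    exact ⟨r a₀, hr a₀, fun r' hr' hd y' O hy' hO => nearc GP1 hy'.na hO (gr_const hν hy') hf
      c.injective fun a => hv a r' y' hr' (hd.trans_le (ha₀ a)) hy'⟩

end Pool.Agent.Lib.IW2
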