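import Pool.Agent.Lib.IW2.All1
import Pool.Agent.Lib.IW2.Blue3

/-! The sheet of a simple root over the closed unit disc. -/

open Polynomial IntermediateField

namespace Pool.Agent.Lib.IW2

open Pool.Agent.Lib.IW

namespace ONS

lemma up {Ω C : Type} [Field Ω] [IsAlgClosed Ω] [Field C] (κ : Ω →+* C) {g : Polynomial Ω}
    (hg : g ≠ 0) {z : C} (h : (g.map κ).IsRoot z) : ∃ y, κ y = z ∧ g.IsRoot y := by
  obtain ⟨y, rfl⟩ := (IsAlgClosed.splits g).mem_range_of_isRoot hg h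
  exact ⟨y, rfl, (isRoot_map_iff κ.injective).1 h⟩

/-- an element with a zero at `W` has no unramified roots of all orders prime to `p` -/
lemma no_roots (p : ℕ) [hp : Fact p.Prime] {𝕜 Ω : Type} [Field 𝕜] [IsAlgClosed 𝕜] [CharP 𝕜 p]
    [Field Ω] [IsAlgClosed Ω] [Algebra 𝕜 Ω] {σ u : Ω} (hσ : Co 𝕜 σ) {W : ValuationSubring Ω}
    (hW : IsPl 𝕜 W) {a : 𝕜} (ha : W.valuation (σ - algebraMap 𝕜 Ω a) < 1) (u0 : u ≠ 0)
    (u1 : W.valuation u < 1)
    (h : ∀ n : ℕ, ¬ p ∣ n → ∃ y, y ^ n = u ∧ ∀ γ ∈ Dec 𝕜 σ W, γ y = y) : False := by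
  have hπ := found.bas.unifAt 𝕜 Ω σ hσ.tr a W hW ha
  have π0 := (W.valuation.pos_iff).2 hπ.2.1
  have key : ∀ n : ℕ, ¬ p ∣ n → ∃ (N : ℕ) (i : ℤ),
      W.valuation u ^ p ^ N = W.valuation (σ - algebraMap 𝕜 Ω a) ^ (n * i) := fun n hn => by
    obtain ⟨y, rfl, hy⟩ := h n hn
    obtain ⟨N, hN⟩ := found.gal.powSep p 𝕜 Ω 𝕜⟮σ⟯ y (hσ.alg y)
    obtain ⟨i, hi⟩ := found.hens.hens p 𝕜 Ω _ hσ.ff W hW _ hπ _
      (pow_ne_zero _ fun c => hn (by
        rcases n with _ | n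
        · exact dvd_zero p
        · simp [c] at u0)) hN fun γ hγ => by rw [map_pow, hy γ ((DecF_adjoin σ W).le hγ)]
    exact ⟨N, i, by rw [zpow_mul', ← hi, zpow_natCast, map_pow, map_pow, pow_right_comm]⟩
  obtain ⟨N, i, hi⟩ := key 1 hp.out.not_dvd_one
  have hn : ¬ p ∣ p * i.natAbs + 1 := fun c =>
    hp.out.not_dvd_one ((Nat.dvd_add_right (dvd_mul_right _ _)).1 c)
  obtain ⟨N', i', hi'⟩ := key _ hn
  have e : (1 : ℕ) * i * (p ^ N' : ℕ) = (p * i.natAbs + 1 : ℕ) * i' * (p ^ N : ℕ) :=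
    zpow_right_injective₀ π0 ha.ne (by
      simp only [zpow_mul _ _ ((p ^ _ : ℕ) : ℤ), zpow_natCast, ← hi, ← hi']
      exact pow_right_comm _ _ _)
  have d : p * i.natAbs + 1 ∣ i.natAbs := Nat.Coprime.dvd_of_dvd_mul_right
    (((Nat.Prime.coprime_iff_not_dvd hp.out).2 hn).symm.pow_right N') (by
      have := congrArg Int.natAbs e
      simp only [Int.natAbs_mul, Int.natAbs_natCast, one_mul] at this
      exact ⟨_, this.trans (mul_assoc _ _ _)⟩)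
  have i0 : i = 0 := Int.natAbs_eq_zero.1 (Nat.eq_zero_of_dvd_of_lt d
    (Nat.lt_succ_of_le (Nat.le_mul_of_pos_left _ hp.out.pos)))
  rw [i0, mul_zero, zpow_zero] at hi
  exact (pow_lt_one₀ zero_le u1 (pow_pos hp.out.pos N).ne').ne hi

end ONS

open ONS PD in
theorem blockONS : StmtONS := by
  intro p _ k 𝕜 Q Ω _ _ _ _ _ _ _ _ _ _ _ _ _ _ _ _ _ s σ κ hs hk hσ hκ O hO f hf ε hε θ hθ θ1
  let _ : Algebra k Q := ((algebraMap 𝕜 Q).comp (algebraMap k 𝕜)).toAlgebra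
  have : IsScalarTower k 𝕜 Q := IsScalarTower.of_algebraMap_eq fun _ => rfl
  have : CharP 𝕜 p := charP_of_injective_algebraMap (algebraMap k 𝕜).injective p
  set A := algebraMap Q (AlgebraicClosure Q)
  have hH := (blockEvalN blockGN).hensel 𝕜 Q (R1 𝕜 s) (Subalgebra.isClosed_topologicalClosure _)
  have m1 : ∀ y, ∀ r ∈ R1 𝕜 s, κ y = A r → y ∈ Eof 𝕜 κ (Mer 𝕜 s (R1 𝕜 s)) := fun y r hr e =>
    (blockEof 𝕜 Q Ω s σ κ hσ hκ _ le_sup_right y).2 ⟨r, (le_sup_left : _ ≤ Mer 𝕜 s _) hr, e.symm⟩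
  have hc : ∀ a : 𝕜, A (algebraMap 𝕜 Q a) = κ (algebraMap 𝕜 Ω a) := fun a => by
    rw [κ.commutes, ← IsScalarTower.algebraMap_apply]
  have hO' : ∀ y r, A r = κ.toRingHom y → (y ∈ O ↔ ‖r‖ ≤ 1) := hO
  have cv : ∀ a : 𝕜, O.valuation (algebraMap 𝕜 Ω a) < 1 ↔ ‖a‖ < 1 := fun a => by
    rw [val_lt hO' (hc a), norm_algebraMap']
  have e : A (algebraMap 𝕜 Q ε * s) = κ (algebraMap 𝕜 Ω ε * σ) := by rw [map_mul, map_mul, hc, hκ]
  have n1 : ‖algebraMap 𝕜 Q ε * s‖ < 1 := by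
    rw [norm_mul, norm_algebraMap', show ‖s‖ = 1 by simpa using hs.gauss 0, mul_one]
    exact (cv ε).1 hε
  have hp : A.comp (aeval (R := k) (algebraMap 𝕜 Q ε * s)).toRingHom =
      κ.toRingHom.comp (aeval (R := k) (algebraMap 𝕜 Ω ε * σ)).toRingHom :=
    Polynomial.ringHom_ext (fun c => by
      simpa [IsScalarTower.algebraMap_apply k 𝕜 Q, IsScalarTower.algebraMap_apply k 𝕜 Ω]
        using hc (algebraMap k 𝕜 c)) (by simpa using e)
  obtain ⟨r, r1, r2, r3⟩ := hH (f.map (aeval (R := k) (algebraMap 𝕜 Q ε * s)).toRingHom)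
    (fun i => by
      rw [coeff_map]
      exact ⟨aeval_mem _ (mul_mem (Subalgebra.algebraMap_mem _ _) (Subalgebra.le_topologicalClosure
        _ (Algebra.self_mem_adjoin_singleton 𝕜 s))) _, norm_aeval hk n1 _⟩)
    0 _ (by simp) (norm_one hk hf.2.2) (by
      have := norm_sub hk n1 (f.coeff 0)
      rw [← coeff_zero_eq_eval_zero, hf.2.1] at this
      simpa [← coeff_zero_eq_eval_zero] using this) (by
      have := norm_sub hk n1 (f.coeff 1)
      rw [← coeff_zero_eq_eval_zero] at this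
      simpa [← coeff_zero_eq_eval_zero, coeff_derivative, IsScalarTower.algebraMap_apply k 𝕜 Q]
        using this)
  rw [map_zero, sub_zero] at r3
  obtain ⟨y, y1, y2⟩ := up κ.toRingHom (z := A r)
    (hf.1.map (aeval (R := k) (algebraMap 𝕜 Ω ε * σ)).toRingHom).ne_zero (by
      rw [Polynomial.map_map, ← hp, ← Polynomial.map_map, IsRoot, eval_map_apply, r2, map_zero])
  obtain rfl : θ = y := sh2.simple k Ω O (fun c => by
      rw [IsScalarTower.algebraMap_apply k 𝕜 Ω, hO _ _ (hc _), norm_algebraMap']; exact hk c)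
    f hf _ _ _ ((val_lt hO' e).2 n1) θ1 ((val_lt hO' y1.symm).2 r3) hθ ((eval_map _ _).symm.trans y2)
  refine ⟨m1 _ r r1 y1, fun W a hW _ ha hD => ?_⟩
  have mW : θ ∈ W := MAX.root_mem (hf.1.map _) (fun i => by
    rw [coeff_map]
    exact SH2.aeval_mem (fun c => IsScalarTower.algebraMap_apply k 𝕜 Ω c ▸ hW.2 _) _
      (mul_mem (hW.2 _) (SH2.r_mem hW.2 ha))) y2
  obtain ⟨b, hb⟩ := found.bas.resid 𝕜 Ω σ hσ W hW θ mW
  refine ⟨b, (cv b).2 (lt_of_not_ge fun c => ?_), hb⟩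
  have b0 : b ≠ 0 := norm_pos_iff.1 (one_pos.trans_le c)
  have t1 : ‖algebraMap 𝕜 Q b⁻¹ * r‖ < 1 := by
    rw [norm_mul, norm_algebraMap', norm_inv]
    exact mul_lt_one_of_nonneg_of_lt_one_right (inv_le_one_of_one_le₀ c) (norm_nonneg _) r3
  have t2 : κ (1 - algebraMap 𝕜 Ω b⁻¹ * θ) = A (1 - algebraMap 𝕜 Q b⁻¹ * r) := by
    rw [map_sub, map_sub, map_mul, map_mul, hc, map_one, map_one, ← y1]; rfl
  refine no_roots p hσ hW ha (u := 1 - algebraMap 𝕜 Ω b⁻¹ * θ) (fun c => ?_) ?_ fun n hn => ?_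
  · rw [c, map_zero, eq_comm, map_eq_zero, sub_eq_zero] at t2
    exact t1.ne (t2 ▸ norm_one)
  · rw [show 1 - algebraMap 𝕜 Ω b⁻¹ * θ = -(algebraMap 𝕜 Ω b⁻¹ * (θ - algebraMap 𝕜 Ω b)) by
      rw [mul_sub, ← map_mul, inv_mul_cancel₀ b0, map_one, neg_sub], Valuation.map_neg]
    exact SH2.mul_lt (hW.2 _) hb
  · have n0 : n ≠ 0 := fun c => hn (c ▸ dvd_zero p)
    obtain ⟨z, z1, z2, -⟩ := hH (X ^ n - C (1 - algebraMap 𝕜 Q b⁻¹ * r)) (fun i => by
        have m := sub_mem (one_mem _) (mul_mem ((R1 𝕜 s).algebraMap_mem b⁻¹) r1)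
        have l : ‖1 - algebraMap 𝕜 Q b⁻¹ * r‖ ≤ 1 := by
          rw [sub_eq_add_neg]
          exact (IsUltrametricDist.norm_add_le_max _ _).trans
            (max_le norm_one.le ((norm_neg _).trans_le t1.le))
        rw [coeff_sub, coeff_X_pow, coeff_C]
        split_ifs with c1 c2 c2
        exacts [absurd (c1 ▸ c2) n0, by simp, ⟨sub_mem (zero_mem _) m,
          by rwa [zero_sub, norm_neg]⟩, by simp])
      1 _ (by simp) (norm_one hk ((CharP.cast_eq_zero_iff k p n).not.2 hn))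
      (by simpa using t1) (by simp [derivative_X_pow])
    obtain ⟨w, w1, w2⟩ := up κ.toRingHom (z := A z)
      (X_pow_sub_C_ne_zero (Nat.pos_of_ne_zero n0) (1 - algebraMap 𝕜 Ω b⁻¹ * θ)) (by
        rw [Polynomial.map_sub, Polynomial.map_pow, map_X, map_C, show κ.toRingHom _ = _ from t2]
        simpa using congrArg A z2)
    exact ⟨w, sub_eq_zero.1 (by simpa using w2), fun γ hγ => fix_apply (hD hγ) (m1 w z z1 w1)⟩

end Pool.Agent.Lib.IW2
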