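import Pool.Agent.Lib.IW2.All1
import Pool.Agent.Lib.IW2.Blue3

/-! Patching on a finite cover of the line, through the induced representation. -/

open Polynomial IntermediateField
open scoped Pointwise

namespace Pool.Agent.Lib.IW2

open Pool.Agent.Lib.IW

namespace PATCH

/-- The wreath product of `G` with the permutations of `X`. -/
@[ext] structure WR (X G : Type) where
  f : X → G
  p : Equiv.Perm X

section WRsec

variable {X G G' : Type} [Group G] [Group G']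

lemma ia (e : Equiv.Perm X) (x : X) : e⁻¹ (e x) = x := e.symm_apply_apply x

lemma ai (e : Equiv.Perm X) (x : X) : e (e⁻¹ x) = x := e.apply_symm_apply x

instance : Mul (WR X G) := ⟨fun a b => ⟨fun x => a.f (b.p x) * b.f x, a.p * b.p⟩⟩

instance : One (WR X G) := ⟨⟨fun _ => 1, 1⟩⟩

instance : Inv (WR X G) := ⟨fun a => ⟨fun x => (a.f (a.p⁻¹ x))⁻¹, a.p⁻¹⟩⟩

lemma mul_f (a b : WR X G) (x : X) : (a * b).f x = a.f (b.p x) * b.f x := rfl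

lemma mul_p (a b : WR X G) : (a * b).p = a.p * b.p := rfl

lemma one_f (x : X) : (1 : WR X G).f x = 1 := rfl

lemma one_p : (1 : WR X G).p = 1 := rfl

lemma inv_f (a : WR X G) (x : X) : (a⁻¹).f x = (a.f (a.p⁻¹ x))⁻¹ := rfl

lemma inv_p (a : WR X G) : (a⁻¹).p = a.p⁻¹ := rfl

instance : Group (WR X G) := Group.ofLeftAxioms
  (fun a b c => by
    ext x
    · simp only [mul_f, mul_p, Equiv.Perm.mul_apply, mul_assoc]
    · simp only [mul_p, mul_assoc])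
  (fun a => by
    ext x
    · simp only [mul_f, one_f, one_mul]
    · simp only [mul_p, one_p, one_mul])
  (fun a => by
    ext x
    · simp only [mul_f, inv_f, one_f, ia, inv_mul_cancel]
    · simp only [mul_p, inv_p, one_p, inv_mul_cancel])

instance [Finite X] [Finite G] : Finite (WR X G) :=
  Finite.of_injective (fun a : WR X G => (a.f, a.p)) fun _ _ h =>
    WR.ext (congrArg Prod.fst h) (congrArg Prod.snd h)

/-- The permutation part. -/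
def pHom : WR X G →* Equiv.Perm X := MonoidHom.mk' (fun a => a.p) fun _ _ => rfl

/-- Change of the group. -/
def mapHom (ψ : G →* G') : WR X G →* WR X G' :=
  MonoidHom.mk' (fun a => ⟨fun x => ψ (a.f x), a.p⟩) fun a b =>
    WR.ext (funext fun x => by simp only [mul_f, map_mul]) rfl

end WRsec

section Rep

variable {k Ω : Type} [Field k] [Field Ω] [Algebra k Ω] {X G : Type} [Group G]

lemma cts_pi [Finite X] {Y : Type} {Δ : Subgroup (Aut k Ω)} {f : Aut k Ω → X → Y}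
    (h : ∀ x, Cts Δ fun γ => f γ x) : Cts Δ f := by
  classical
  have := Fintype.ofFinite X
  choose S hS using h
  exact ⟨Finset.univ.biUnion S, fun γ hγ δ hδ e => funext fun x =>
    hS x γ hγ δ hδ fun s hs => e s (Finset.mem_biUnion.2 ⟨x, Finset.mem_univ _, hs⟩)⟩

lemma rep_mk [Finite X] {Δ : Subgroup (Aut k Ω)} {a : Aut k Ω → Equiv.Perm X} (ha : IsRep Δ a)
    {c : Aut k Ω → X → G} (hc : ∀ γ ∈ Δ, ∀ δ ∈ Δ, ∀ x, c (γ * δ) x = c γ (a δ x) * c δ x)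
    (hd : ∀ x, Cts Δ fun γ => c γ x) : IsRep Δ fun γ => (⟨c γ, a γ⟩ : WR X G) :=
  ⟨fun γ hγ δ hδ => WR.ext (funext fun x => hc γ hγ δ hδ x) (ha.mul γ hγ δ hδ),
    (cts_pi hd).comp₂ ha.cts fun u v => (⟨u, v⟩ : WR X G)⟩

/-- The conjugation rule for the component at a fixed point. -/
lemma conj_f {Γ : Subgroup (Aut k Ω)} {R : Aut k Ω → WR X G} (hR : IsRep Γ R) {η γ : Aut k Ω}
    (hη : η ∈ Γ) (hγ : γ ∈ Γ) {x : X} (hx : (R γ).p x = x) :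
    (R (η * γ * η⁻¹)).f ((R η).p x) = (R η).f x * (R γ).f x * ((R η).f x)⁻¹ := by
  rw [hR.mul _ (mul_mem hη hγ) _ (inv_mem hη), hR.mul _ hη _ hγ, hR.inv hη]
  simp only [mul_f, inv_f, inv_p, ia, hx]

/-- The finite set of cosets with its action. -/
lemma ex_cosets {Γ Δ : Subgroup (Aut k Ω)} (hle : Δ ≤ Γ) {H : Type} [Group H] [Finite H]
    {τ : Aut k Ω → H} (hτ : IsRep Γ τ) (hs : ∀ h, ∃ γ ∈ Γ, τ γ = h)
    (hk : ∀ γ ∈ Γ, τ γ = 1 → γ ∈ Δ) :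
    ∃ (X : Type) (_ : Finite X) (a : Aut k Ω → Equiv.Perm X) (b : X), IsRep Γ a ∧
      (∀ x, ∃ γ ∈ Γ, a γ b = x) ∧ ∀ γ ∈ Γ, (a γ b = b ↔ γ ∈ Δ) := by
  let K : Subgroup H := (hτ.mono hle).im
  refine ⟨H ⧸ K, inferInstance, fun γ => MulAction.toPermHom H (H ⧸ K) (τ γ), ((1 : H) : H ⧸ K),
    hτ.comp _, fun x => ?_, fun γ hγ => ?_⟩
  · obtain ⟨h, rfl⟩ := QuotientGroup.mk_surjective x
    obtain ⟨γ, hγ, rfl⟩ := hs h
    refine ⟨γ, hγ, ?_⟩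
    change τ γ • ((1 : H) : H ⧸ K) = _
    rw [MulAction.Quotient.smul_coe, smul_eq_mul, mul_one]
  · change τ γ • ((1 : H) : H ⧸ K) = _ ↔ _
    rw [MulAction.Quotient.smul_coe, smul_eq_mul, mul_one, eq_comm, QuotientGroup.eq, inv_one,
      one_mul]
    refine ⟨fun h => ?_, fun h => (hτ.mono hle).mem_im.2 ⟨γ, h, rfl⟩⟩
    obtain ⟨δ, hδ, e⟩ := (hτ.mono hle).mem_im.1 h
    have h1 : δ⁻¹ * γ ∈ Δ := hk _ (mul_mem (inv_mem (hle hδ)) hγ) (by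
      rw [hτ.mul _ (inv_mem (hle hδ)) _ hγ, hτ.inv (hle hδ), e, inv_mul_cancel])
    simpa using mul_mem hδ h1

/-- The induced representation attached to a section. -/
lemma rep_ind [Finite X] {Γ Δ : Subgroup (Aut k Ω)} {a : Aut k Ω → Equiv.Perm X} (ha : IsRep Γ a)
    {b : X} (hb : ∀ γ ∈ Γ, (a γ b = b ↔ γ ∈ Δ)) {s : X → Aut k Ω} (s1 : ∀ x, s x ∈ Γ)
    (s2 : ∀ x, a (s x) b = x) {α : Aut k Ω → G} (hα : IsRep Δ α) :
    IsRep Γ fun γ => (⟨fun x => α ((s (a γ x))⁻¹ * γ * s x), a γ⟩ : WR X G) := by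
  classical
  have hm : ∀ γ ∈ Γ, ∀ x, (s (a γ x))⁻¹ * γ * s x ∈ Δ := fun γ hγ x => by
    rw [← hb _ (mul_mem (mul_mem (inv_mem (s1 _)) hγ) (s1 _)),
      ha.mul _ (mul_mem (inv_mem (s1 _)) hγ) _ (s1 _), ha.mul _ (inv_mem (s1 _)) _ hγ,
      ha.inv (s1 _), Equiv.Perm.mul_apply, Equiv.Perm.mul_apply, s2, Equiv.Perm.inv_eq_iff_eq, s2]
  refine rep_mk ha (fun γ hγ δ hδ x => ?_) fun x => ?_
  · rw [← hα.mul _ (hm γ hγ _) _ (hm δ hδ _), ha.mul _ hγ _ hδ, Equiv.Perm.mul_apply]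
    congr 1
    group
  · obtain ⟨S, hS⟩ := ha.cts
    obtain ⟨T, hT⟩ := hα.cts
    refine ⟨S ∪ T.image (s x), fun γ hγ δ hδ e => ?_⟩
    have e1 : a γ = a δ := hS γ hγ δ hδ fun y hy => e y (Finset.mem_union_left _ hy)
    refine hT _ (hm γ hγ x) _ (hm δ hδ x) fun y hy => ?_
    rw [AlgEquiv.mul_apply, AlgEquiv.mul_apply, AlgEquiv.mul_apply, AlgEquiv.mul_apply, e1,
      e _ (Finset.mem_union_right _ (Finset.mem_image_of_mem _ hy))]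

end Rep

end PATCH

open _root_.Pool.Agent.Lib.IW2.PATCH

theorem blockPATCH : StmtPATCH := by
  intro p _ 𝕜 Ω' _ _ _ _ _ _ σ E0 E1 E2 h1 h2 l1 l2 hI hP F hF J δ hδ hδ1 hδi G _ _ α β hα hβ h0
  classical
  have lF : F.fixingSubgroup ≤ Gam 𝕜 σ := fix_le_Gam hF.mem
  have g1 : E1.fixingSubgroup ≤ Gam 𝕜 σ := fix_le_Gam h1
  have g2 : E2.fixingSubgroup ≤ Gam 𝕜 σ := fix_le_Gam h2
  have f1 : E0.fixingSubgroup ≤ E1.fixingSubgroup := IntermediateField.fixingSubgroup_le l1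
  obtain ⟨H, _, _, τ, hτ, hτs, hτk⟩ := fb1.core p 𝕜 Ω' F σ hF G α hα ∅
  obtain ⟨X, _, a, b, ha, hX, hb⟩ := ex_cosets lF hτ hτs fun γ hγ h => (hτk γ hγ h).1
  have hδΓ : ∀ j, δ j ∈ Gam 𝕜 σ := fun j => g2 (hδ j)
  -- the marked points
  let xj : J → X := fun j => a (δ j)⁻¹ b
  have hxj : ∀ η ∈ Gam 𝕜 σ, ∀ j, a η (xj j) = b ↔ η * (δ j)⁻¹ ∈ F.fixingSubgroup := fun η hη j => by
    rw [← hb _ (mul_mem hη (inv_mem (hδΓ j))), ha.mul _ hη _ (inv_mem (hδΓ j)),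
      Equiv.Perm.mul_apply]
  have hxb : ∀ j, a (δ j) (xj j) = b := fun j =>
    (hxj _ (hδΓ j) j).2 (by rw [mul_inv_cancel]; exact one_mem _)
  have xinj : ∀ i j, xj i = xj j → i = j := fun i j h =>
    hδi i j ((hxj _ (hδΓ i) j).1 (by rw [← h, hxb]))
  have xfix : ∀ j, ∀ γ ∈ E1.fixingSubgroup, a γ (xj j) = xj j := fun j γ hγ => by
    apply (a (δ j)).injective
    rw [hxb, ← Equiv.Perm.mul_apply, ← ha.mul _ (hδΓ j) _ (g1 hγ)]
    exact (hxj _ (mul_mem (hδΓ j) (g1 hγ)) j).2 (hδ1 j γ hγ)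
  -- the section
  have hsec : ∀ x, ∃ γ ∈ Gam 𝕜 σ, a γ b = x ∧ ∀ j, x = xj j → γ = (δ j)⁻¹ := fun x => by
    by_cases h : ∃ j, x = xj j
    · obtain ⟨j, rfl⟩ := h
      exact ⟨(δ j)⁻¹, inv_mem (hδΓ j), rfl, fun i hi => by rw [xinj j i hi]⟩
    · obtain ⟨γ, hγ, e⟩ := hX x
      exact ⟨γ, hγ, e, fun j hj => absurd ⟨j, hj⟩ h⟩
  choose s s1 s2 s3 using hsec
  have s4 : ∀ j, s (xj j) = (δ j)⁻¹ := fun j => s3 _ j rfl
  have s0 : s b ∈ F.fixingSubgroup := (hb _ (s1 b)).1 (s2 b)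
  let R2 : Aut 𝕜 Ω' → WR X G := fun γ => ⟨fun x => α ((s (a γ x))⁻¹ * γ * s x), a γ⟩
  have r2 : IsRep (Gam 𝕜 σ) R2 := rep_ind ha hb s1 s2 hα
  have p2 : ∀ γ, (R2 γ).p = a γ := fun _ => rfl
  have r2b : ∀ γ ∈ F.fixingSubgroup, (R2 γ).f b = (α (s b))⁻¹ * α γ * α (s b) := fun γ hγ => by
    change α ((s (a γ b))⁻¹ * γ * s b) = _
    rw [(hb γ (lF hγ)).2 hγ, hα.mul _ (mul_mem (inv_mem s0) hγ) _ s0, hα.mul _ (inv_mem s0) _ hγ,
      hα.inv s0]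
  have r2j : ∀ j, ∀ γ ∈ E1.fixingSubgroup, (R2 γ).f (xj j) = α (δ j * γ * (δ j)⁻¹) :=
    fun j γ hγ => by
    change α ((s (a γ (xj j)))⁻¹ * γ * s (xj j)) = _
    rw [xfix j γ hγ, s4, inv_inv]
  -- the modified representation
  have hc : ∀ x, ∃ c : Aut 𝕜 Ω' → G, (∀ j, x = xj j → c = β j) ∧
      ((∀ j, x ≠ xj j) → c = fun γ => (R2 γ).f x) := fun x => by
    by_cases h : ∃ j, x = xj j
    · obtain ⟨j, rfl⟩ := h
      exact ⟨β j, fun i hi => by rw [xinj j i hi], fun h => absurd rfl (h j)⟩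
    · exact ⟨_, fun j hj => absurd ⟨j, hj⟩ h, fun _ => rfl⟩
  choose c c1 c2 using hc
  let R1 : Aut 𝕜 Ω' → WR X G := fun γ => ⟨fun x => c x γ, a γ⟩
  have r1 : IsRep E1.fixingSubgroup R1 := by
    refine rep_mk (ha.mono g1) (fun γ hγ γ' hγ' x => ?_) fun x => ?_
    · by_cases h : ∃ j, x = xj j
      · obtain ⟨j, rfl⟩ := h
        rw [xfix j γ' hγ', c1 _ j rfl, (hβ j).mul _ hγ _ hγ']
      · have h' : ∀ j, x ≠ xj j := fun j hj => h ⟨j, hj⟩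
        rw [c2 x h', c2 (a γ' x) fun j hj =>
          h' j ((a γ').injective (by rw [hj, xfix j γ' hγ']))]
        change (R2 (γ * γ')).f x = _
        rw [r2.mul _ (g1 hγ) _ (g1 hγ'), mul_f]
    · by_cases h : ∃ j, x = xj j
      · obtain ⟨j, rfl⟩ := h
        rw [c1 _ j rfl]
        exact (hβ j).cts
      · rw [c2 x fun j hj => h ⟨j, hj⟩]
        exact (r2.cts.mono g1).comp fun u => u.f x
  have cmp : ∀ (G' : Type) [Group G'] (ψ : G →* G'), ∀ γ ∈ E1.fixingSubgroup,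
      (∀ j, ψ (β j γ) = ψ (α (δ j * γ * (δ j)⁻¹))) → mapHom ψ (R1 γ) = mapHom ψ (R2 γ) := by
    intro G' _ ψ γ hγ hψ
    refine WR.ext (funext fun x => ?_) rfl
    change ψ (c x γ) = ψ ((R2 γ).f x)
    by_cases h : ∃ j, x = xj j
    · obtain ⟨j, rfl⟩ := h
      rw [c1 _ j rfl, r2j j γ hγ, hψ]
    · rw [c2 x fun j hj => h ⟨j, hj⟩]
  obtain ⟨R, r, e1, e2⟩ := (blockCore found).ex p 𝕜 Ω' σ E0 E1 E2 hF.co h1 h2 l1 l2 hI hP (WR X G)
    R1 R2 r1 (r2.mono g2) fun γ hγ =>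
      cmp G (MonoidHom.id G) γ (f1 hγ) fun j => congrArg _ (h0 j γ hγ)
  have pR : ∀ γ ∈ Gam 𝕜 σ, (R γ).p = a γ :=
    (blockCore found).uniq p 𝕜 Ω' σ E1 E2 hF.co h1 h2 hI _ _ _ (r.comp pHom) ha
      (fun γ hγ => by rw [e1 γ hγ]) fun γ hγ => by rw [e2 γ hγ]
  -- the conjugation rule
  have key : ∀ η ∈ Gam 𝕜 σ, ∃ h : G, ∀ γ ∈ F.fixingSubgroup,
      (R (η⁻¹ * γ * η)).f (a η⁻¹ b) = (R2 (η⁻¹ * γ * η)).f (a η⁻¹ b) →
        α (s b) * (R γ).f b * (α (s b))⁻¹ = h⁻¹ * α γ * h := by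
    intro η hη
    refine ⟨α (s b) * ((R2 η⁻¹).f b)⁻¹ * (R η⁻¹).f b * (α (s b))⁻¹, fun γ hγ h => ?_⟩
    have hγb := (hb γ (lF hγ)).2 hγ
    have k1 := conj_f r (inv_mem hη) (lF hγ) (x := b) (by rw [pR γ (lF hγ), hγb])
    have k2 := conj_f r2 (inv_mem hη) (lF hγ) (x := b) hγb
    rw [inv_inv] at k1 k2
    rw [pR _ (inv_mem hη), h] at k1
    rw [p2, k1, r2b γ hγ] at k2
    have k3 : (R γ).f b = ((R η⁻¹).f b)⁻¹ *
        ((R2 η⁻¹).f b * ((α (s b))⁻¹ * α γ * α (s b)) * ((R2 η⁻¹).f b)⁻¹) * (R η⁻¹).f b := by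
      rw [← k2]
      group
    rw [k3]
    group
  refine ⟨fun γ => α (s b) * (R γ).f b * (α (s b))⁻¹, ⟨fun γ hγ γ' hγ' => ?_,
    (r.cts.mono lF).comp fun u => α (s b) * u.f b * (α (s b))⁻¹⟩, fun γ hγ hγ2 => ?_,
    fun j γ hγ => ?_, fun η hη => ?_, fun η hη hj => ?_, fun G' _ ψ hψ γ hγ => ?_⟩
  · rw [r.mul _ (lF hγ) _ (lF hγ'), mul_f, pR _ (lF hγ'), (hb _ (lF hγ')).2 hγ']
    group
  · beta_reduce
    rw [e2 γ hγ2, r2b γ hγ]
    group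
  · have k1 := conj_f r (hδΓ j) (g1 hγ) (x := xj j) (by rw [pR γ (g1 hγ), xfix j γ hγ])
    have k2 : (R (δ j)).f (xj j) = (α (s b))⁻¹ := by
      rw [e2 _ (hδ j)]
      change α ((s (a (δ j) (xj j)))⁻¹ * δ j * s (xj j)) = _
      rw [hxb, s4, mul_inv_cancel_right, hα.inv s0]
    have k3 : (R γ).f (xj j) = β j γ := by
      rw [e1 γ hγ]
      exact congrFun (c1 _ j rfl) γ
    rw [pR _ (hδΓ j), hxb, k2, k3] at k1
    beta_reduce
    rw [k1]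
    group
  · obtain ⟨h, hh⟩ := key η hη
    exact ⟨h, fun γ hγ h2 => hh γ hγ (by rw [e2 _ h2])⟩
  · obtain ⟨h, hh⟩ := key η hη
    refine ⟨h, fun γ hγ h2 => hh γ hγ ?_⟩
    rw [e1 _ h2]
    refine congrFun (c2 _ fun j e => hj j ((hxj η hη j).1 ?_)) _
    rw [← e, ha.inv hη, ai]
  · have k1 := (blockCore found).uniq p 𝕜 Ω' σ E1 E2 hF.co h1 h2 hI _ _ _ (r.comp (mapHom ψ))
      (r2.comp (mapHom ψ)) (fun γ hγ => by rw [e1 γ hγ]; exact cmp G' ψ γ hγ fun j => hψ j γ hγ)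
      (fun γ hγ => by rw [e2 γ hγ]) γ (lF hγ)
    have k2 : ψ ((R γ).f b) = ψ ((R2 γ).f b) := congrFun (congrArg WR.f k1) b
    beta_reduce
    rw [map_mul, map_mul, k2, r2b γ hγ, ← map_mul, ← map_mul]
    congr 1
    group

end Pool.Agent.Lib.IW2
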