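import Pool.Agent.Lib.IW2.All1
import Pool.Agent.Lib.IW2.Blue3

/-! The extended patching datum over a large field. -/

open Polynomial IntermediateField
open scoped Pointwise

namespace Pool.Agent.Lib.IW2

open Pool.Agent.Lib.IW

namespace PDX

/-- The Gauss valuation ring, together with the real absolute value that defines it. -/
lemma pd0 {𝕜 Q Ω' : Type} [NormedField 𝕜] [hQ : NormedField Q] [IsUltrametricDist Q]
    [CompleteSpace Q] [NormedAlgebra 𝕜 Q] [Field Ω'] [IsAlgClosed Ω'] [Algebra 𝕜 Ω'] {σ : Q}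
    {σ' : Ω'} {κ : Ω' →ₐ[𝕜] AlgebraicClosure Q} (ht : ∃ t : 𝕜, t ≠ 0 ∧ ‖t‖ < 1) (hσ : Co 𝕜 σ')
    (hκ : κ σ' = algebraMap Q (AlgebraicClosure Q) σ) :
    ∃ (O : ValuationSubring Ω') (N : Ω' →*₀ ℝ), (∀ y, 0 ≤ N y) ∧ (∀ y, y ∈ O ↔ N y ≤ 1) ∧
      (∀ (y : Ω') (r : Q), algebraMap Q (AlgebraicClosure Q) r = κ y → N y = ‖r‖) ∧
      (Eof 𝕜 κ ⊤).fixingSubgroup ≤ O.decompositionSubgroup 𝕜 := by
  obtain ⟨t, ht0, ht1⟩ := ht
  let _ : NontriviallyNormedField Q :=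
    { hQ with
      non_trivial := ⟨algebraMap 𝕜 Q t⁻¹, by
        rw [norm_algebraMap', norm_inv]
        exact (one_lt_inv₀ (norm_pos_iff.2 ht0)).2 ht1⟩ }
  let N := spectralMulAlgNorm Q (AlgebraicClosure Q)
  have hN : ∀ x, N x = spectralNorm Q (AlgebraicClosure Q) x := fun _ => rfl
  let O : ValuationSubring Ω' :=
    { carrier := {y | N (κ y) ≤ 1}
      mul_mem' := fun {a b} (ha : N (κ a) ≤ 1) (hb : N (κ b) ≤ 1) => by
        change N (κ (a * b)) ≤ 1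
        rw [map_mul, map_mul]
        exact mul_le_one₀ ha (apply_nonneg _ _) hb
      one_mem' := by
        change N (κ 1) ≤ 1
        rw [map_one, map_one]
      add_mem' := fun {a b} (ha : N (κ a) ≤ 1) (hb : N (κ b) ≤ 1) => by
        change N (κ (a + b)) ≤ 1
        rw [map_add]
        exact (isNonarchimedean_spectralNorm (κ a) (κ b)).trans (max_le ha hb)
      zero_mem' := by
        change N (κ 0) ≤ 1
        rw [map_zero, map_zero]; exact zero_le_one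
      neg_mem' := fun {a} (ha : N (κ a) ≤ 1) => by
        change N (κ (-a)) ≤ 1
        rwa [map_neg, map_neg_eq_map]
      mem_or_inv_mem' := fun a => by
        change N (κ a) ≤ 1 ∨ N (κ a⁻¹) ≤ 1
        rw [map_inv₀, map_inv₀]
        exact (le_total _ 1).imp_right inv_le_one_of_one_le₀ }
  have hO : ∀ y, y ∈ O ↔ N (κ y) ≤ 1 := fun _ => Iff.rfl
  let N' : Ω' →*₀ ℝ :=
    { toFun := fun y => N (κ y)
      map_zero' := by rw [map_zero, map_zero]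
      map_one' := by rw [map_one, map_one]
      map_mul' := fun a b => by rw [map_mul, map_mul] }
  refine ⟨O, N', fun y => apply_nonneg N (κ y), hO, fun y r e => ?_, fun γ hγ => ?_⟩
  · change N (κ y) = ‖r‖
    rw [← e, hN, spectralNorm_extends]
  · refine MulAction.mem_stabilizer_iff.2 (ValuationSubring.ext _ _ fun y => ?_)
    have h1 := PD0.minp hσ hκ γ⁻¹ (fun y r e =>
      (IntermediateField.mem_fixingSubgroup_iff _ _).1 (inv_mem hγ) y
        (IntermediateField.subset_adjoin _ _ ⟨r, Algebra.mem_top, e⟩)) y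
    rw [ValuationSubring.mem_pointwise_smul_iff_inv_smul_mem, hO, hO, hN, hN, spectralNorm,
      spectralNorm, AlgEquiv.smul_def, h1]

lemma val_lt {Ω' : Type} [Field Ω'] {O : ValuationSubring Ω'} {N : Ω' →*₀ ℝ} (h0 : ∀ y, 0 ≤ N y)
    (hO : ∀ y, y ∈ O ↔ N y ≤ 1) (y : Ω') : O.valuation y < 1 ↔ N y < 1 := by
  by_cases hy : y = 0
  · simp [hy]
  · have h1 := hO y⁻¹
    have h2 : 0 < N y := (h0 y).lt_of_ne fun e => hy ((map_eq_zero N).1 e.symm)
    rw [← O.valuation_le_one_iff, map_inv₀, map_inv₀,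
      inv_le_one₀ ((Valuation.pos_iff _).2 hy), inv_le_one₀ h2] at h1
    rw [← not_le, ← not_le, h1]

/-- Rational functions whose finite poles lie in the closed unit disc. -/
lemma rat {𝕜 Q Ω' : Type} [NormedField 𝕜] [NormedField Q] [NormedAlgebra 𝕜 Q] [Field Ω']
    [Algebra 𝕜 Ω'] {σ : Q} {x : Ω'} {κ : Ω' →ₐ[𝕜] AlgebraicClosure Q}
    (hκ : κ x = algebraMap Q (AlgebraicClosure Q) σ) {S : Set Q}
    (hS : ∀ y ∈ S, y = σ ∨ ∃ a : 𝕜, ‖a‖ ≤ 1 ∧ y = (σ - algebraMap 𝕜 Q a)⁻¹) {r : Q}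
    (hr : r ∈ Algebra.adjoin 𝕜 S) :
    ∃ e ∈ 𝕜⟮x⟯, algebraMap Q (AlgebraicClosure Q) r = κ e ∧
      ∀ W : ValuationSubring Ω', IsPl 𝕜 W → x ∈ W →
        (∀ a : 𝕜, ‖a‖ ≤ 1 → ¬ W.valuation (x - algebraMap 𝕜 Ω' a) < 1) → e ∈ W := by
  have hc : ∀ a : 𝕜, algebraMap Q (AlgebraicClosure Q) (algebraMap 𝕜 Q a) =
      κ (algebraMap 𝕜 Ω' a) := fun a => by
    rw [κ.commutes, ← IsScalarTower.algebraMap_apply]
  induction hr using Algebra.adjoin_induction with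
  | mem y hy =>
    rcases hS y hy with rfl | ⟨a, ha, rfl⟩
    · exact ⟨x, mem_adjoin_simple_self 𝕜 x, hκ.symm, fun W _ h _ => h⟩
    · refine ⟨(x - algebraMap 𝕜 Ω' a)⁻¹, inv_mem (sub_mem (mem_adjoin_simple_self 𝕜 x)
        (IntermediateField.algebraMap_mem _ a)), ?_, fun W _ _ h => ?_⟩
      · rw [map_inv₀, map_inv₀, map_sub, map_sub, hc, hκ]
      · rw [← W.valuation_le_one_iff, map_inv₀]
        exact inv_le_one_of_one_le₀ (not_lt.1 (h a ha))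
  | algebraMap c =>
    exact ⟨_, IntermediateField.algebraMap_mem _ c, hc c, fun W hW _ _ => hW.2 c⟩
  | add a b _ _ ha hb =>
    obtain ⟨e, h1, h2, h3⟩ := ha
    obtain ⟨e', h1', h2', h3'⟩ := hb
    exact ⟨e + e', add_mem h1 h1', by rw [map_add, map_add, h2, h2'],
      fun W hW hx h => add_mem (h3 W hW hx h) (h3' W hW hx h)⟩
  | mul a b _ _ ha hb =>
    obtain ⟨e, h1, h2, h3⟩ := ha
    obtain ⟨e', h1', h2', h3'⟩ := hb
    exact ⟨e * e', mul_mem h1 h1', by rw [map_mul, map_mul, h2, h2'],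
      fun W hW hx h => mul_mem (h3 W hW hx h) (h3' W hW hx h)⟩

lemma near {𝕜 Q : Type} [NormedField 𝕜] [NormedField Q] [NormedAlgebra 𝕜 Q] (A : Subalgebra 𝕜 Q)
    {a : Q} (ha : a ∈ A.topologicalClosure) {ε : ℝ} (hε : 0 < ε) : ∃ b ∈ A, ‖b - a‖ < ε := by
  have h : a ∈ closure (A : Set Q) := ha
  obtain ⟨b, hb, h1⟩ := Metric.mem_closure_iff.1 h ε hε
  exact ⟨b, hb, by rwa [← dist_eq_norm, dist_comm]⟩

lemma main (hS : StmtONS) (p : ℕ) [Fact p.Prime] (k 𝕜 : Type) [Field k] [IsAlgClosed k]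
    [CharP k p] [NormedField 𝕜] [IsUltrametricDist 𝕜] [CompleteSpace 𝕜] [IsAlgClosed 𝕜]
    [Algebra k 𝕜] (hk : ∀ c : k, ‖algebraMap k 𝕜 c‖ ≤ 1)
    (hres : ∀ a : 𝕜, ‖a‖ ≤ 1 → ∃ c : k, ‖a - algebraMap k 𝕜 c‖ < 1)
    (ht : ∃ t : 𝕜, t ≠ 0 ∧ ‖t‖ < 1) :
    ∃ (Ω' : Type) (_ : Field Ω') (_ : IsAlgClosed Ω') (_ : Algebra k Ω') (_ : Algebra 𝕜 Ω')
      (_ : IsScalarTower k 𝕜 Ω') (σ : Ω') (E0 E1 E2 : IntermediateField 𝕜 Ω')
      (O : ValuationSubring Ω'), PX k σ E0 E1 E2 O := by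
  obtain ⟨Q, _, _, _, g, σ, h1, h2⟩ := Khat.gauss 𝕜 (NormedField.toAbsoluteValue 𝕜)
    IsUltrametricDist.isNonarchimedean_norm one_pos
  have hg : ∀ c, ‖g c‖ = ‖c‖ := fun c => by
    have := h1 (C c)
    rwa [eval₂_C, gaussNorm_C] at this
  let _ := g.toAlgebra
  let _ : NormedAlgebra 𝕜 Q :=
    { norm_smul_le := fun c x => by
        rw [Algebra.smul_def, norm_mul]
        exact (congrArg (· * ‖x‖) (hg c)).le }
  have hσ : Gauss 𝕜 σ := by
    refine ⟨fun a => ?_, fun y ε hε => ?_⟩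
    · have := h1 (X - C a)
      rwa [eval₂_sub, eval₂_X, eval₂_C, Khat.gauss_lin] at this
    · obtain ⟨P, R, h⟩ := h2 y ε hε
      exact ⟨_, (mem_adjoin_simple_iff 𝕜 _).2 ⟨P, R, rfl⟩, h⟩
  obtain ⟨x, hx⟩ := PD.ex_co 𝕜
  obtain ⟨κ, hκ⟩ := blockBas.exEmb 𝕜 _ (AlgebraicClosure Q) x (algebraMap Q _ σ) hx
    ((transcendental_algebraMap_iff (algebraMap Q _).injective).2 (blockGN.tr 𝕜 Q σ hσ))
  obtain ⟨O, N, N0, hON, hN, hd⟩ := pd0 ht hx hκ
  have hO : ∀ y r, algebraMap Q (AlgebraicClosure Q) r = κ y → (y ∈ O ↔ ‖r‖ ≤ 1) :=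
    fun y r e => by rw [hON, hN y r e]
  have hv := val_lt N0 hON
  have hc : ∀ a : 𝕜, algebraMap Q (AlgebraicClosure Q) (algebraMap 𝕜 Q a) =
      κ (algebraMap 𝕜 _ a) := fun a => by
    rw [κ.commutes, ← IsScalarTower.algebraMap_apply]
  have hcO : ∀ a : 𝕜, algebraMap 𝕜 (AlgebraicClosure (RatFunc 𝕜)) a ∈ O ↔ ‖a‖ ≤ 1 := fun a => by
    rw [hO _ _ (hc a), norm_algebraMap']
  let i1 : Algebra k Q := ((algebraMap 𝕜 Q).comp (algebraMap k 𝕜)).toAlgebra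
  have i2 : IsScalarTower k 𝕜 Q := IsScalarTower.of_algebraMap_eq fun _ => rfl
  have hI := blockInter blockGN
  refine ⟨AlgebraicClosure (RatFunc 𝕜), inferInstance, inferInstance, inferInstance,
    inferInstance, inferInstance, x, _, _, _, O,
    PD.basP blockGN hI (blockEvalN blockGN) blockEof hσ hk hres ht hx hκ hO hd,
    blockPD2 (blockFact (blockAdd blockGN)) hI blockEof 𝕜 Q _ σ x κ hσ hx hκ,
    blockPD3 blockBas found.dens blockChev (blockEvalT blockGN) blockEof 𝕜 Q _ σ x κ hσ hx hκ O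
      hcO, fun c hc1 => ?_, fun s m hs => ?_, fun e he m => ?_,
    hS p k 𝕜 Q _ σ x κ hσ hk hx hκ O hO⟩
  · obtain ⟨c₀, h⟩ := hres c ((hcO c).1 hc1)
    refine ⟨c₀, ?_⟩
    rw [IsScalarTower.algebraMap_apply k 𝕜 (AlgebraicClosure (RatFunc 𝕜)), ← map_sub, hv,
      hN _ _ (hc _), norm_algebraMap']
    exact h
  · rw [hv] at hs
    have hm : 0 < N m + 1 := by have := N0 m; positivity
    obtain ⟨n, hn⟩ := exists_pow_lt_of_lt_one (inv_pos.2 hm) hs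
    refine ⟨n, ?_⟩
    rw [hv, map_mul, map_pow]
    calc N s ^ n * N m ≤ (N m + 1)⁻¹ * N m := mul_le_mul_of_nonneg_right hn.le (N0 m)
      _ < 1 := by rw [inv_mul_lt_iff₀ hm]; linarith
  · obtain ⟨r, -, er⟩ := (blockEof 𝕜 Q _ σ x κ hx hκ ⊤ le_top e).1 he
    obtain ⟨a, ha, b, hb, rfl, -⟩ := blockAdd blockGN 𝕜 Q σ hσ r
    have hm : 0 < N m + 1 := by have := N0 m; positivity
    obtain ⟨a', ha', h3⟩ := near _ ha (inv_pos.2 hm)
    obtain ⟨b', hb', h4⟩ := near _ hb (inv_pos.2 hm)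
    obtain ⟨u, u1, u2, u3⟩ := rat hκ (fun y hy => Or.inl (Set.mem_singleton_iff.1 hy)) ha'
    obtain ⟨w, w1, w2, w3⟩ := rat hκ (fun y hy => Or.inr hy) hb'
    refine ⟨u + w, add_mem u1 w1, ?_, fun W hW hxW hno => ?_⟩
    · have h5 : N (u + w - e) = ‖(a' - a) + (b' - b)‖ := hN _ _ (by
        rw [map_sub, map_add κ, ← u2, ← w2, ← er, ← map_add, ← map_sub]
        congr 1
        ring)
      have h6 : N (u + w - e) ≤ (N m + 1)⁻¹ :=
        h5 ▸ (IsUltrametricDist.norm_add_le_max _ _).trans (max_le h3.le h4.le)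
      rw [hv, map_mul]
      calc N (u + w - e) * N m ≤ (N m + 1)⁻¹ * N m := mul_le_mul_of_nonneg_right h6 (N0 m)
        _ < 1 := by rw [inv_mul_lt_iff₀ hm]; linarith
    · by_contra hcon
      have h : ∀ a : 𝕜, ‖a‖ ≤ 1 → ¬ W.valuation (x - algebraMap 𝕜 _ a) < 1 :=
        fun a ha hlt => hcon ⟨a, (hcO a).2 ha, hlt⟩
      exact hno (add_mem (u3 W hW hxW h) (w3 W hW hxW h))

lemma complete {k 𝕜 : Type} [Field k] [NormedField 𝕜] [Algebra k 𝕜] {ν : AbsoluteValue 𝕜 ℝ}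
    (h : Big k ν) (hν : ∀ a, ‖a‖ = ν a) : CompleteSpace 𝕜 := by
  refine Metric.complete_of_convergent_controlled_sequences (fun n => (1 / 2 : ℝ) ^ n)
    (fun n => by positivity) fun u hu => ?_
  obtain ⟨b, hb⟩ := h.sph u (fun n => (1 / 2 : ℝ) ^ n)
    (fun m n hmn => pow_le_pow_of_le_one (by norm_num) (by norm_num) hmn) fun n => by
      rw [← hν, ← dist_eq_norm]
      exact (hu n (n + 1) n (Nat.le_succ n) le_rfl).le
  refine ⟨b, ?_⟩
  rw [tendsto_iff_dist_tendsto_zero]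
  refine squeeze_zero (fun n => dist_nonneg) (fun n => ?_)
    (tendsto_pow_atTop_nhds_zero_of_lt_one (r := (1 / 2 : ℝ)) (by norm_num) (by norm_num))
  rw [dist_comm, dist_eq_norm, hν]
  exact hb n

end PDX

theorem blockPDX (h1 : StmtHAHN1) (h2 : StmtHAHN2) (hS : StmtONS) : StmtPDX := by
  intro p _ k _ _ _
  obtain ⟨𝕜, _, _, ν, hν⟩ := h1 k
  have hA := h2 k 𝕜 ν hν
  let _ : NormedField 𝕜 := ν.toNormedField
  have e : ∀ a : 𝕜, ‖a‖ = ν a := fun _ => rfl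
  have : IsUltrametricDist 𝕜 :=
    IsUltrametricDist.isUltrametricDist_of_isNonarchimedean_norm hν.na
  have : CompleteSpace 𝕜 := PDX.complete hν e
  obtain ⟨t, ht⟩ := hν.onto (1 / 2) (by norm_num)
  obtain ⟨Ω', _, _, _, _, _, σ, E0, E1, E2, O, h⟩ := PDX.main hS p k 𝕜 hν.const hν.res
    ⟨t, fun h0 => by rw [h0, map_zero] at ht; norm_num at ht, by rw [e, ht]; norm_num⟩
  exact ⟨𝕜, Ω', inferInstance, hA, inferInstance, inferInstance, inferInstance, inferInstance,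
    inferInstance, inferInstance, ν, σ, E0, E1, E2, O, hν, h⟩

end Pool.Agent.Lib.IW2
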