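import Pool.Agent.Lib.IW2.Blue3

/-! Elementary abelian normal subgroups of finite groups. -/

namespace Pool.Agent.Lib.IW2

namespace PIND

theorem solv (G : Type) [Group G] [Finite G] (K : Subgroup G) (hK : K.Normal) (h0 : K ≠ ⊥)
    (hs : Group.IsSolvable K) : ∃ (V : Subgroup G) (l : ℕ), V.Normal ∧ V ≠ ⊥ ∧ V ≤ K ∧ l.Prime ∧
      (∀ a ∈ V, ∀ b ∈ V, a * b = b * a) ∧ ∀ a ∈ V, a ^ l = 1 := by
  obtain ⟨V, ⟨n, v0, vK⟩, hm⟩ := exists_minimal_of_wellFoundedLT
    (fun V : Subgroup G => V.Normal ∧ V ≠ ⊥ ∧ V ≤ K) ⟨K, hK, h0, le_rfl⟩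
  have sV : Group.IsSolvable V :=
    Group.isSolvable_of_isSolvable_injective (Subgroup.inclusion_injective vK)
  have nt : Nontrivial V := (Subgroup.nontrivial_iff_ne_bot V).2 v0
  have c1 : ⁅V, V⁆ < V := by
    have a := Group.IsSolvable.commutator_lt_top_of_nontrivial V
    have b := Subgroup.map_commutator ⊤ ⊤ V.subtype
    rw [← MonoidHom.range_eq_map, Subgroup.range_subtype] at b
    refine lt_of_le_of_ne (Subgroup.commutator_le_left V V) fun e => a.ne ?_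
    apply Subgroup.map_injective V.subtype_injective
    rw [commutator_def, b, e, ← MonoidHom.range_eq_map, Subgroup.range_subtype]
  have c2 : ⁅V, V⁆ = ⊥ := by
    by_contra c
    exact c1.not_ge (hm ⟨inferInstance, c, c1.le.trans vK⟩ c1.le)
  have cm : ∀ a ∈ V, ∀ b ∈ V, a * b = b * a := fun a ha b hb => by
    have := Subgroup.commutator_mem_commutator ha hb
    rw [c2, Subgroup.mem_bot, commutatorElement_eq_one_iff_mul_comm] at this
    exact this
  obtain ⟨l, hl, dv⟩ := Nat.exists_prime_and_dvd (Finite.one_lt_card (α := V)).ne'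
  have := Fact.mk hl
  obtain ⟨x, hx⟩ := exists_prime_orderOf_dvd_card' l dv
  let W : Subgroup G :=
    { carrier := {a | a ∈ V ∧ a ^ l = 1}
      mul_mem' := fun {a b} ha hb => ⟨V.mul_mem ha.1 hb.1, by
        rw [Commute.mul_pow (cm a ha.1 b hb.1), ha.2, hb.2, one_mul]⟩
      one_mem' := ⟨V.one_mem, one_pow l⟩
      inv_mem' := fun {a} ha => ⟨V.inv_mem ha.1, by rw [inv_pow, ha.2, inv_one]⟩ }
  have w1 : W ≤ V := fun a ha => ha.1
  have w2 : W.Normal := ⟨fun a ha g => ⟨n.conj_mem a ha.1 g, by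
    rw [conj_pow, ha.2, mul_one, mul_inv_cancel]⟩⟩
  have w3 : W ≠ ⊥ := fun e => by
    have a : (x : G) ∈ W := ⟨x.2, by
      rw [← hx, ← Subgroup.coe_pow, pow_orderOf_eq_one, Subgroup.coe_one]⟩
    rw [e, Subgroup.mem_bot] at a
    have b : x = 1 := Subtype.ext a
    rw [b, orderOf_one] at hx
    exact hl.one_lt.ne hx
  exact ⟨V, l, n, v0, vK, hl, cm, fun a ha => (hm ⟨w2, w3, w1.trans vK⟩ w1 ha).2⟩

end PIND

theorem blockPIND : StmtPIND where
  solv := PIND.solv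
  pgrp := fun p hp G _ _ K hK h0 hP => by
    have := hP.isNilpotent
    obtain ⟨V, l, n, v0, vK, hl, cm, hV⟩ := PIND.solv G K hK h0 inferInstance
    refine ⟨V, n, v0, vK, cm, ?_⟩
    obtain ⟨⟨a, ha⟩, a1⟩ := Subgroup.ne_bot_iff_exists_ne_one.1 v0
    have a2 : a ≠ 1 := fun e => a1 (Subtype.ext e)
    have := Fact.mk hl
    have o := orderOf_eq_prime (hV a ha) a2
    obtain ⟨k, hk⟩ := hP ⟨a, vK ha⟩
    have d : l ∣ p ^ k := o ▸ orderOf_dvd_of_pow_eq_one (congrArg Subtype.val hk)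
    rw [← (Nat.prime_dvd_prime_iff_eq hl hp.out).1 (hl.dvd_of_dvd_pow d)]
    exact hV

end Pool.Agent.Lib.IW2
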