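import Pool.Agent.Lib.IW2.All1
import Pool.Agent.Lib.IW2.Blue4

/-! Every quasi-`p` group occurs over the affine line. -/

open Polynomial IntermediateField
open scoped Pointwise

namespace Pool.Agent.Lib.IW2

open Pool.Agent.Lib.IW

namespace RAY

section Grp

variable {p : ℕ} [hp : Fact p.Prime] {G : Type} [Group G]

omit hp in
lemma pPart_surj {G' : Type} [Group G'] (φ : G →* G') (hφ : Function.Surjective φ)
    (h : pPart p G = ⊤) : pPart p G' = ⊤ := by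
  have h1 : pPart p G ≤ (pPart p G').comap φ := by
    refine Subgroup.normalClosure_le_normal fun g ⟨j, hj⟩ => ?_
    exact Subgroup.subset_normalClosure ⟨j, by rw [← map_pow, hj, map_one]⟩
  rw [eq_top_iff]
  intro g _
  obtain ⟨g, rfl⟩ := hφ g
  exact h1 (h ▸ Subgroup.mem_top g)

lemma top_of_pow (h : pPart p G = ⊤) (N : Subgroup G) (hN : N.Normal)
    (h1 : ∀ g : G, ∃ n : ℕ, ¬ p ∣ n ∧ g ^ n ∈ N) : N = ⊤ := by
  rw [eq_top_iff, ← h]
  refine Subgroup.normalClosure_le_normal fun g ⟨j, hj⟩ => ?_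
  obtain ⟨n, hn, hg⟩ := h1 g
  have h2 : Nat.gcd (p ^ j) n = 1 :=
    Nat.Coprime.pow_left j ((Nat.Prime.coprime_iff_not_dvd hp.out).2 hn)
  have h3 : (QuotientGroup.mk' N g) ^ Nat.gcd (p ^ j) n = 1 :=
    pow_gcd_eq_one.2 ⟨by rw [← map_pow, hj, map_one],
      by rw [← map_pow]; exact (QuotientGroup.eq_one_iff _).2 hg⟩
  rw [h2, pow_one] at h3
  exact (QuotientGroup.eq_one_iff g).1 h3

omit hp in
lemma pPart_pgroup (h : IsPGroup p G) : pPart p G = ⊤ :=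
  eq_top_iff.2 fun g _ => Subgroup.subset_normalClosure (h g)

lemma not_dvd_one : ¬ p ∣ 1 := hp.out.not_dvd_one

end Grp

variable {p : ℕ} [hp : Fact p.Prime] {k Ω : Type} [Field k] [IsAlgClosed k] [CharP k p]
  [Field Ω] [IsAlgClosed Ω] [Algebra k Ω] {x : Ω} {G : Type} [Group G] [Finite G]

omit [IsAlgClosed k] [IsAlgClosed Ω] [Finite G] in
lemma triv (hx : Co k x) [Subsingleton G] : RealAt k x G ⊥ := by
  obtain ⟨W, hW, hxW⟩ := found.bas.exInf k Ω x hx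
  refine ⟨fun _ => 1, ⟨fun _ _ _ _ => (one_mul _).symm, ∅, fun _ _ _ _ _ => rfl⟩,
    fun g => ⟨1, one_mem _, Subsingleton.elim _ _⟩, fun _ _ _ _ _ => rfl, W, hW, hxW, ?_⟩
  ext g
  exact ⟨fun _ => Subsingleton.elim 1 g ▸ (⊥ : Subgroup G).one_mem,
    fun _ => ⟨1, one_mem _, Subsingleton.elim _ _⟩⟩

variable (p) in
include hp in
lemma closure_top (hx : Co k x) {I : Subgroup G} (h : RealAt k x G I) (K : Subgroup G)
    (hK : K.Normal) (hI : I ≤ K) : K = ⊤ := by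
  obtain ⟨ρ, h1, h2, h3, W, hW, hxW, h4⟩ := h
  have h5 := sc p k Ω x hx (G ⧸ K) (fun γ => QuotientGroup.mk' K (ρ γ)) (h1.comp _)
    (fun U hU hxU γ hγ => by simp only [h3 U hU hxU γ hγ, map_one]) W hW hxW fun γ hγ =>
      ⟨1, not_dvd_one, by
        rw [pow_one]
        exact (QuotientGroup.eq_one_iff _).2 (hI (show ρ γ ∈ (I : Set G) from h4 ▸ ⟨γ, hγ, rfl⟩))⟩
  rw [eq_top_iff]
  intro g _
  obtain ⟨γ, hγ, rfl⟩ := h2 g
  exact (QuotientGroup.eq_one_iff _).1 (h5 γ hγ)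

lemma step_normal (hx : Co k x) (N : Subgroup G) [N.Normal] (hN : IsPGroup p N)
    {I : Subgroup (G ⧸ N)} (hI : IsPGroup p I) (h : RealAt k x (G ⧸ N) I) :
    ∃ H : Subgroup G, IsPGroup p H ∧ RealAt k x G H := by
  have hs := QuotientGroup.mk'_surjective N
  have hk : IsPGroup p (QuotientGroup.mk' N).ker := by rwa [QuotientGroup.ker_mk']
  have hH : IsPGroup p (I.comap (QuotientGroup.mk' N)) := hI.comap_of_ker_isPGroup _ hk
  have hm : (I.comap (QuotientGroup.mk' N)).map (QuotientGroup.mk' N) = I :=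
    Subgroup.map_comap_eq_self_of_surjective hs I
  set H := I.comap (QuotientGroup.mk' N) with hHd
  have hle : H ≤ Subgroup.normalClosure (H : Set G) := Subgroup.le_normalClosure
  have h1 : (Subgroup.normalClosure (H : Set G)).map (QuotientGroup.mk' N) = ⊤ :=
    closure_top p hx h _ (Subgroup.Normal.map inferInstance _ hs) (hm ▸ Subgroup.map_mono hle)
  have h2 : Subgroup.normalClosure (H : Set G) = ⊤ := by
    rw [← Subgroup.comap_map_eq_self ((Subgroup.ker_le_comap _ I).trans hle), h1,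
      Subgroup.comap_top]
  have h3 : Group.IsSolvable (QuotientGroup.mk' N).ker := by
    have := hk.isNilpotent
    infer_instance
  obtain ⟨x', hx', h4⟩ := lift p k Ω G (G ⧸ N) _ hs h3 H H
    ⟨le_rfl, hH, fun g hg a ha => mul_mem (mul_mem hg ha) (inv_mem hg), 1, one_mem _,
      fun g hg => ⟨0, by simpa using hg⟩⟩ h2
    (fun l hl hlp _ hd => by
      obtain ⟨n, hn⟩ := IsPGroup.iff_card.1 hH
      rw [hn] at hd
      exact hlp ((Nat.prime_dvd_prime_iff_eq hl hp.out).1 (hl.dvd_of_dvd_pow hd)))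
    ⟨x, hx, hm.symm ▸ h⟩
  obtain ⟨θ, rfl⟩ := found.bas.exAut k Ω x' x hx' hx
  exact ⟨H, hH, Br2.move found.bas h4 θ⟩

variable (k x) in
/-- `D` is the image of a cover of the affine line with inertia inside `S`. -/
def Rz (S D : Subgroup G) : Prop :=
  ∃ ρ : Aut k Ω → G, IsRep (Gam k x) ρ ∧ Unr x ρ ∧ (∀ g, g ∈ D ↔ ∃ γ ∈ Gam k x, ρ γ = g) ∧
    ∃ V : ValuationSubring Ω, IsPl k V ∧ x ∉ V ∧ ∀ γ ∈ Dec k x V, ρ γ ∈ S

omit [IsAlgClosed k] [IsAlgClosed Ω] [CharP k p] in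
lemma rz_of (h3 : StmtGp3) (S : Sylow p G) (Y : Subgroup G)
    (hY : ¬ p ∣ (S : Subgroup G).relIndex Y) {I : Subgroup Y} (hI : IsPGroup p I)
    (h : RealAt k x Y I) : Rz k x (S : Subgroup G) Y := by
  obtain ⟨ρ, h1, h2, h4, W, hW, hxW, h5⟩ := h
  have hS : IsPGroup p ((S : Subgroup G).subgroupOf Y) :=
    S.isPGroup'.comap_of_injective _ Y.subtype_injective
  obtain ⟨g, hg⟩ := (h3.frat p Y (hS.toSylow hY)).2.2.2.2 I hI
  refine ⟨fun γ => Y.subtype (g * ρ γ * g⁻¹), (h1.conj g).comp Y.subtype,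
    fun U hU hxU γ hγ => by simp [h4 U hU hxU γ hγ], fun a => ⟨fun ha => ?_, ?_⟩,
    W, hW, hxW, fun γ hγ => ?_⟩
  · obtain ⟨γ, hγ, e⟩ := h2 (g⁻¹ * ⟨a, ha⟩ * g)
    refine ⟨γ, hγ, ?_⟩
    simp only [e]
    have : g * (g⁻¹ * ⟨a, ha⟩ * g) * g⁻¹ = ⟨a, ha⟩ := by group
    rw [this]
    rfl
  · rintro ⟨γ, -, rfl⟩
    exact (g * ρ γ * g⁻¹).2
  · exact hg _ (show ρ γ ∈ (I : Set Y) from h5 ▸ ⟨γ, hγ, rfl⟩)

lemma rz_join (hJ : StmtJOIN) (hx : Co k x) {S D Y : Subgroup G} (hS : IsPGroup p S)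
    (hD : Rz k x S D) (hSD : S ≤ D) (hY : Rz k x S Y) :
    ∃ D' : Subgroup G, Rz k x S D' ∧ D ≤ D' ∧ Y ≤ D' := by
  obtain ⟨β, b1, b2, b3, V, hV, hxV, b4⟩ := hD
  obtain ⟨β', c1, c2, c3, c4⟩ := hY
  obtain ⟨V₀, hV₀, h0⟩ := found.bas.exAt k Ω x hx 0
  have h0' := h0
  rw [map_zero, sub_zero] at h0
  have hx0 : x ∈ V₀ := (V₀.valuation_le_one_iff x).1 h0.le
  obtain ⟨ρ, ⟨r1, r2, ⟨W', hW', ha, g, r3⟩, -, -, -, U, hU, hxU, r4⟩, ⟨v, hv, r5⟩, v', hv', r6⟩ :=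
    hJ p k Ω x x 1 1 hx not_dvd_one IsPrimitiveRoot.one (pow_one x) G V₀ {(1, 1)} β β' S 1 hV₀ h0
      ⟨b1, fun W hW h => b2 W hW ((W.valuation_le_one_iff x).1 h.le),
        ⟨V₀, hV₀, fun _ _ => Iff.rfl, 1, fun h ζ => by
          rw [DecF_adjoin]
          constructor
          · intro e
            obtain ⟨rfl, rfl⟩ := Prod.mk.inj (Set.mem_singleton_iff.1 e)
            exact ⟨1, one_mem _, by simp [b1.one], by simp⟩
          · rintro ⟨γ, hγ, e1, e2⟩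
            rw [b2 V₀ hV₀ hx0 γ hγ] at e1
            rw [(mem_Dec.1 hγ).1] at e2
            have e3 : h = 1 := by simpa using e1.symm
            have e4 : ζ = 1 := by
              have := mul_right_cancel₀ hx.ne_zero ((one_mul x).trans e2)
              exact this.symm
            rw [e3, e4]
            rfl⟩,
        hS, one_mem _, by simp, V, hV, hxV, fun γ hγ i _ => by simpa using b4 γ hγ⟩
      c1 c2 c4
  have hD' : D ≤ r1.im := fun a ha => by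
    obtain ⟨γ, hγ, e⟩ := (b3 (v⁻¹ * a * v)).1 (mul_mem (mul_mem (inv_mem (hSD hv)) ha) (hSD hv))
    obtain ⟨γ', hγ', e'⟩ := r5 γ hγ
    exact r1.mem_im.2 ⟨γ', hγ', by rw [e', e]; group⟩
  refine ⟨r1.im, ⟨ρ, r1, fun W hW hxW => ?_, fun _ => r1.mem_im, U, hU, hxU, fun γ hγ => ?_⟩,
    hD', fun a ha => ?_⟩
  · rcases ((W.valuation_le_one_iff x).2 hxW).eq_or_lt with h | h
    · exact r2 W hW h
    · have h1 : Triv ρ (DecF k⟮x⟯ W') := fun γ hγ => by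
        have h2 : γ x = x := fix_apply (DecF_le _ _ hγ) (mem_adjoin_simple_self k x)
        have h3 := (r3 (g⁻¹ * ρ γ * g) 1).2 ⟨γ, hγ, by group, by rw [h2, one_mul]⟩
        have h4 : g⁻¹ * ρ γ * g = 1 := (Prod.mk.inj (Set.mem_singleton_iff.1 h3)).1
        calc ρ γ = g * (g⁻¹ * ρ γ * g) * g⁻¹ := by group
          _ = 1 := by rw [h4]; group
      have h2 : Agr k⟮x⟯ V₀ W :=
        found.bas.agrAt k Ω x hx.tr 0 V₀ W hV₀ hW h0' (by rwa [map_zero, sub_zero])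
      have h3 := fb1.trivA k Ω k⟮x⟯ hx.ff G ρ (by rwa [fix_adjoin]) W' W
        (fun y hy => (ha y hy).trans (h2 y hy)) h1
      rwa [DecF_adjoin] at h3
  · simpa using r4 γ hγ 0 (by rw [pow_zero, one_mul]; exact (mem_Dec.1 hγ).1)
  · obtain ⟨γ, hγ, rfl⟩ := (c3 a).1 ha
    obtain ⟨γ', hγ', e'⟩ := r6 γ hγ
    have h1 : v' ∈ r1.im := hD' (hSD hv')
    have h2 : β' γ = v'⁻¹ * ρ γ' * v' := by rw [e']; group
    rw [h2]
    exact mul_mem (mul_mem (inv_mem h1) (r1.mem_im.2 ⟨γ', hγ', rfl⟩)) h1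

lemma left (hJ : StmtJOIN) (hx : Co k x) {S : Subgroup G} (hS : IsPGroup p S) (h0 : Rz k x S S)
    (T : Subgroup G → Prop) (h1 : ∀ Y, T Y → Rz k x S Y)
    (h2 : ∀ D : Subgroup G, (∀ Y, T Y → Y ≤ D) → D = ⊤) :
    ∃ I : Subgroup G, IsPGroup p I ∧ RealAt k x G I := by
  obtain ⟨D, ⟨hD, hSD⟩, hm⟩ := (Set.toFinite {D : Subgroup G | Rz k x S D ∧ S ≤ D}).exists_maximal
    ⟨S, h0, le_rfl⟩
  have h3 : D = ⊤ := h2 D fun Y hY => by
    obtain ⟨D', e1, e2, e3⟩ := rz_join hJ hx hS hD hSD (h1 Y hY)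
    exact e3.trans (hm ⟨e1, hSD.trans e2⟩ e2)
  obtain ⟨ρ, r1, r2, r3, V, hV, hxV, r4⟩ := hD
  have r5 := r1.mono (Dec_le x V)
  refine ⟨r5.im, hS.to_le fun a ha => ?_, ρ, r1, fun g => (r3 g).1 (h3 ▸ Subgroup.mem_top g), r2,
    V, hV, hxV, r5.coe_im.symm⟩
  obtain ⟨γ, hγ, rfl⟩ := r5.mem_im.1 ha
  exact r4 γ hγ

lemma right (hS : StmtSTAR0) (hx : Co k x) (hG : pPart p G = ⊤) (hd : p ∣ Nat.card G) (c : G)
    (hc : ¬ p ∣ orderOf c) (h1 : ∀ D : Subgroup G, c ∈ D → p ∣ Nat.card D → D = ⊤) :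
    ∃ I : Subgroup G, IsPGroup p I ∧ RealAt k x G I := by
  obtain ⟨M, hM, ⟨j, hj⟩, hM'⟩ := exists_pprime G p
  have hM0 : M ≠ 0 := fun h => hM (h ▸ dvd_zero p)
  obtain ⟨ω, hω⟩ := exists_prim (k := k) (Ω := k) p hM
  have hX : Co k (x ^ M) := found.bas.coOf k Ω x _ hx (hx.tr.pow (Nat.pos_of_ne_zero hM0))
  obtain ⟨V₀, hV₀, h0⟩ := found.bas.exAt k Ω _ hX 0
  have hu := found.bas.unifAt k Ω _ hX.tr 0 V₀ hV₀ h0
  rw [map_zero, sub_zero] at h0 hu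
  obtain ⟨β, b1, b2, b3, b4⟩ := hS p k Ω (x ^ M) x M ω hX hM hω rfl G c
    (hM' c _ hc (pow_orderOf_eq_one c)) hd V₀ hV₀ h0
  obtain ⟨V, hV, hxV⟩ := found.bas.exInf k Ω x hx
  have hXV : x ^ M ∉ V := fun h => hxV (by
    rw [← V.valuation_le_one_iff] at h ⊢
    rw [map_pow] at h
    exact (pow_le_one_iff hM0).1 h)
  have hon : b1.im = ⊤ := by
    refine h1 _ ?_ ?_
    · obtain ⟨τ, hτ, e⟩ := loc.tau p k Ω k⟮x ^ M⟯ hX.ff V₀ (x ^ M) x (algebraMap k Ω ω) M hV₀ hu hM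
        (Or.inl rfl) (by rw [← map_pow, hω.pow_eq_one, map_one])
      rw [DecF_adjoin] at hτ
      exact b1.mem_im.2 ⟨τ, Dec_le _ _ hτ, by rw [b3 τ hτ 1 (by rwa [pow_one]), pow_one]⟩
    · by_contra hn
      refine b4 V hV hXV fun γ hγ => ⟨_, hn, ?_⟩
      exact congrArg Subtype.val
        (pow_card_eq_one' (x := (⟨β γ, b1.mem_im.2 ⟨γ, Dec_le _ _ hγ, rfl⟩⟩ : b1.im)))
  have hall : ∀ g, ∃ δ ∈ Gam k (x ^ M), β δ = g := fun g => b1.mem_im.1 (hon ▸ Subgroup.mem_top g)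
  have hle : Gam k x ≤ Gam k (x ^ M) := Gam_le_of_pow rfl
  have hun := (kumg.one p k Ω (x ^ M) x M hX hM rfl G β b1 b2 V₀ hV₀ h0 fun γ hγ e => by
    rw [b3 γ hγ 0 (by rwa [pow_zero, one_mul]), pow_zero]).1
  have b5 := b1.mono hle
  have hex := loc.expo k Ω x M ω hω (Nat.pos_of_ne_zero hM0)
  have htop : b5.im = ⊤ := by
    refine top_of_pow hG _ ⟨fun n hn g => ?_⟩ fun g => ⟨M, hM, ?_⟩
    · obtain ⟨γ, hγ, rfl⟩ := b5.mem_im.1 hn
      obtain ⟨δ, hδ, rfl⟩ := hall g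
      obtain ⟨i, hi⟩ := hex δ⁻¹ (inv_mem hδ)
      refine b5.mem_im.2 ⟨δ * γ * δ⁻¹, ?_, ?_⟩
      · have e : γ (δ⁻¹ x) = δ⁻¹ x := by
          rw [hi, map_mul, map_pow, γ.commutes, mem_Gam.1 hγ]
        rw [mem_Gam, AlgEquiv.mul_apply, AlgEquiv.mul_apply, e]
        exact δ.apply_symm_apply x
      · rw [b1.mul _ (mul_mem hδ (hle hγ)) _ (inv_mem hδ), b1.mul _ hδ _ (hle hγ), b1.inv hδ]
    · obtain ⟨δ, hδ, rfl⟩ := hall g
      obtain ⟨i, hi⟩ := hex δ hδ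
      have e : ∀ n : ℕ, (δ ^ n) x = algebraMap k Ω ω ^ (i * n) * x := fun n => by
        induction n with
        | zero => simp
        | succ n ih =>
          rw [pow_succ', AlgEquiv.mul_apply, ih, map_mul, map_pow, δ.commutes, hi]
          ring
      refine b5.mem_im.2 ⟨δ ^ M, ?_, b1.pow hδ M⟩
      rw [mem_Gam, e, mul_comm i, pow_mul, ← map_pow, hω.pow_eq_one]
      simp
  obtain ⟨τ, -, -, P, p1, p2, -, p4⟩ := loc.str p k Ω k⟮x ^ M⟯ hX.ff V (x ^ M)⁻¹ x M ω hV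
    (found.bas.unifInf k Ω _ hX.tr V hV hXV) hM (Or.inr (inv_inv _).symm) hω G β
    (by rw [DecF_adjoin]; exact b1.mono (Dec_le _ _)) fun g => ⟨j, hj g⟩
  rw [DecF_adjoin] at p2 p4
  refine ⟨P, p1, β, b5, fun g => b5.mem_im.1 (htop ▸ Subgroup.mem_top g), hun, V, hV, hxV, ?_⟩
  ext a
  constructor
  · rintro ⟨γ, hγ, rfl⟩
    simpa using p4 γ (Dec_le_of_pow rfl V hγ) 0
      (by rw [pow_zero, one_mul]; exact (mem_Dec.1 hγ).1)
  · intro ha
    obtain ⟨γ, hγ, e1, e2⟩ := p2 a ha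
    exact ⟨γ, mem_Dec.2 ⟨e1, (mem_Dec.1 hγ).2⟩, e2⟩

end RAY

open RAY in
theorem blockRAY (h1 : StmtGp1) (h3 : StmtGp3) (hS : StmtSTAR0) (hJ : StmtJOIN) : StmtRAY := by
  intro p _ k Ω _ _ _ _ _ _ x hx
  suffices h : ∀ (n : ℕ) (G : Type) [Group G] [Finite G], Nat.card G = n → pPart p G = ⊤ →
      ∃ I : Subgroup G, IsPGroup p I ∧ RealAt k x G I from fun G _ _ => h _ G rfl
  intro n
  induction n using Nat.strong_induction_on with
  | _ n ih =>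
  intro G _ _ hn hG
  subst hn
  by_cases h0 : (⊤ : Subgroup G) = ⊥
  · have : Subsingleton G := Subgroup.subsingleton_iff.1 (subsingleton_of_bot_eq_top h0.symm)
    exact ⟨⊥, IsPGroup.of_bot, triv hx⟩
  by_cases hN : ∀ N : Subgroup G, N.Normal → IsPGroup p N → N = ⊥
  · obtain ⟨S⟩ : Nonempty (Sylow p G) := inferInstance
    have hsub : ∀ Y : Subgroup G, Y ≠ ⊤ → pPart p Y = ⊤ →
        ¬ p ∣ (S : Subgroup G).relIndex Y → Rz k x (S : Subgroup G) Y := fun Y e1 e2 e3 => by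
      obtain ⟨I, hI, h⟩ := ih _ (lt_of_le_of_ne Y.card_le_card_group
        fun e => e1 (Subgroup.eq_top_of_card_eq Y e)) Y rfl e2
      exact rz_of h3 S Y e3 hI h
    rcases h1 p G hG hN h0 S with h | ⟨c, hc, h⟩
    · refine left hJ hx S.isPGroup' (hsub _ (fun e => h0 (hN ⊤ inferInstance (e ▸ S.isPGroup')))
        (pPart_pgroup S.isPGroup') (by rw [Subgroup.relIndex_self]; exact not_dvd_one))
        (fun Y => Y ≠ ⊤ ∧ pPart p Y = ⊤ ∧ ¬ p ∣ (S : Subgroup G).relIndex Y)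
        (fun Y e => hsub Y e.1 e.2.1 e.2.2) fun D e => h D fun Y e1 e2 e3 => e Y ⟨e1, e2, e3⟩
    · refine right hS hx hG ?_ c hc h
      by_contra hd
      exact h0 (top_of_pow hG ⊥ inferInstance fun g =>
        ⟨_, hd, Subgroup.mem_bot.2 pow_card_eq_one'⟩).symm
  · push Not at hN
    obtain ⟨N, e1, e2, e3⟩ := hN
    have hlt : Nat.card (G ⧸ N) < Nat.card G := by
      rw [Subgroup.card_eq_card_quotient_mul_card_subgroup N]
      exact lt_mul_of_one_lt_right Nat.card_pos ((Subgroup.one_lt_card_iff_ne_bot N).2 e3)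
    obtain ⟨I, hI, h⟩ := ih _ hlt (G ⧸ N) rfl
      (pPart_surj _ (QuotientGroup.mk'_surjective N) hG)
    exact step_normal hx N e2 hI h

end Pool.Agent.Lib.IW2
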