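import Pool.Agent.Lib.IW2.All1
import Pool.Agent.Lib.IW2.Blue4

/-! Lifting through a solvable kernel of order prime to `p`. -/

open Polynomial IntermediateField
open scoped Pointwise

namespace Pool.Agent.Lib.IW2

open Pool.Agent.Lib.IW

namespace SOLV

variable {k Ω : Type} [Field k] [Field Ω] [Algebra k Ω] {F : IntermediateField k Ω}

lemma asymm {U V : ValuationSubring Ω} (h : Agr F U V) : Agr F V U := fun y hy => (h y hy).symm

lemma atrans {U V W : ValuationSubring Ω} (h : Agr F U V) (h' : Agr F V W) : Agr F U W :=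
  fun y hy => (h y hy).trans (h' y hy)

lemma isRep_one {G : Type} [Group G] (Δ : Subgroup (Aut k Ω)) : IsRep Δ fun _ => (1 : G) :=
  ⟨fun _ _ _ _ => (one_mul _).symm, ∅, fun _ _ _ _ _ => rfl⟩

end SOLV

open SOLV

theorem blockSOLV (PIND : StmtPIND) (SOLV1 : StmtSOLV1) : StmtSOLV := by
  intro p _ k Ω _ _ _ _ _ _ F x hF G G' _ _ _ φ hφ hs hp a ha I _ W W₁ b hW hW₁ hWW hWW₁
  induction hn : Nat.card G using Nat.strong_induction_on generalizing G with
  | _ n ih =>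
  intro hb hab
  by_cases hk : φ.ker = ⊥
  · have inj := (MonoidHom.ker_eq_bot_iff φ).1 hk
    let e := MulEquiv.ofBijective φ ⟨inj, hφ⟩
    have he : ∀ y, φ (e.symm y) = y := e.apply_symm_apply
    refine ⟨fun γ => e.symm (a γ), ha.comp e.symm.toMonoidHom, fun γ _ => he _,
      fun j => ⟨1, one_mem _, fun γ hγ => inj ?_⟩, fun U _ _ _ h γ hγ => ?_⟩
    · simp only [he, one_mul, inv_one, mul_one, hab j γ hγ]
    · simp only [h γ hγ, map_one]
  obtain ⟨V, l, hN, hV, hle, hl, hc, he⟩ := PIND.solv G φ.ker inferInstance hk hs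
  have hlp : l ≠ p := by
    rintro rfl
    obtain ⟨⟨v, hv⟩, hv1⟩ := (Subgroup.ne_bot_iff_exists_ne_one).1 hV
    have h1 : v ≠ 1 := fun h => hv1 (Subtype.ext h)
    exact hp (orderOf_eq_prime (he v hv) h1 ▸ Subgroup.orderOf_dvd_natCard _ (hle hv))
  let φ' : G ⧸ V →* G' := QuotientGroup.lift V φ hle
  have kr : φ'.ker = φ.ker.map (QuotientGroup.mk' V) := QuotientGroup.ker_lift V φ hle
  have lt : Nat.card (G ⧸ V) < n := by
    rw [← hn, Subgroup.card_eq_card_quotient_mul_card_subgroup V]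
    exact lt_mul_of_one_lt_right Nat.card_pos ((Subgroup.one_lt_card_iff_ne_bot V).2 hV)
  have hs' : Group.IsSolvable φ'.ker := by
    rw [kr]
    exact Group.isSolvable_of_surjective ((QuotientGroup.mk' V).subgroupMap_surjective φ.ker)
  have hp' : ¬ p ∣ Nat.card φ'.ker := fun h =>
    hp (h.trans (by rw [kr]; exact Subgroup.card_map_dvd _ _))
  obtain ⟨α₁, r1, a1, c1, t1⟩ := ih _ lt (G ⧸ V) φ'
    (fun y => let ⟨g, hg⟩ := hφ y; ⟨g, hg⟩) hs' hp'
    (fun j γ => QuotientGroup.mk' V (b j γ)) rfl (fun j => (hb j).comp _) hab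
  obtain ⟨α₀, r0, a0⟩ := weak p k Ω x hF.co F.fixingSubgroup hF.le G (G ⧸ V)
    (QuotientGroup.mk' V) (QuotientGroup.mk'_surjective V) l hl hlp
    (by
      rw [QuotientGroup.ker_mk']
      exact fun g => ⟨1, Subtype.ext (by simpa using he g g.2)⟩)
    (by rw [QuotientGroup.ker_mk']; exact hc) α₁ r1
  have c2 : ∀ j, ∃ w ∈ φ.ker, ∀ γ ∈ DecF F (W j),
      α₁ γ = QuotientGroup.mk' V (w * b j γ * w⁻¹) := fun j => by
    obtain ⟨v, hv, h⟩ := c1 j
    rw [kr] at hv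
    obtain ⟨w, hw, rfl⟩ := hv
    exact ⟨w, hw, fun γ hγ => by rw [h γ hγ, map_mul, map_mul, map_inv]⟩
  choose w w1 w2 using c2
  obtain ⟨T, T1, T2, T3⟩ := fb1.finx p k Ω F hF.ff G α₀ r0
  let J : Type := {U : ValuationSubring Ω //
    U ∈ T ∧ Triv α₁ (DecF F U) ∧ (∀ i, ¬ Agr F (W i) U) ∧ ¬ Agr F U W₁}
  have : Finite J := (T.finite_toSet.subset fun U hU => hU.1).to_subtype
  obtain ⟨α, r, a2, c3, t2⟩ := SOLV1 p k Ω F x hF G V l hl hlp hc he α₀ r0 (I ⊕ J)
    (Sum.elim W Subtype.val) W₁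
    (Sum.elim (fun j γ => w j * b j γ * (w j)⁻¹) fun _ _ => 1)
    (by
      rintro (i | U)
      exacts [hW i, (T1 U U.2.1).1])
    hW₁
    (by
      rintro (i | U) (j | U') h
      · rw [hWW i j h]
      · exact (U'.2.2.2.1 i h).elim
      · exact (U.2.2.2.1 j (asymm h)).elim
      · rw [Subtype.ext (T2 U U.2.1 U' U'.2.1 h)])
    (by
      rintro (i | U)
      exacts [hWW₁ i, U.2.2.2.2])
    (by
      rintro (i | U)
      exacts [(hb i).conj _, isRep_one _])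
    (by
      rintro (i | U) γ hγ
      · change w i * b i γ * (w i)⁻¹ * (α₀ γ)⁻¹ ∈ V
        rw [← QuotientGroup.ker_mk' V, MonoidHom.mem_ker, map_mul, map_inv,
          a0 γ (DecF_le _ _ hγ), w2 i γ hγ, mul_inv_cancel]
      · change 1 * (α₀ γ)⁻¹ ∈ V
        rw [← QuotientGroup.ker_mk' V, MonoidHom.mem_ker, one_mul, map_inv,
          a0 γ (DecF_le _ _ hγ), U.2.2.1 γ hγ, inv_one])
  refine ⟨α, r, fun γ hγ => ?_, fun j => ?_, fun U hU n1 n2 hta => ?_⟩
  · have := hle (a2 γ hγ)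
    rw [MonoidHom.mem_ker, map_mul, map_inv, mul_inv_eq_one] at this
    rw [this, ← a1 γ hγ, ← a0 γ hγ]
    rfl
  · obtain ⟨v, hv, h⟩ := c3 (Sum.inl j)
    exact ⟨v * w j, mul_mem (hle hv) (w1 j), fun γ hγ => by
      rw [h γ hγ]
      change v * (w j * b j γ * (w j)⁻¹) * v⁻¹ = _
      group⟩
  · have h1 := t1 U hU n1 n2 hta
    by_cases hJ : ∃ U' : J, Agr F U'.1 U
    · obtain ⟨U', hU'⟩ := hJ
      obtain ⟨v, -, h⟩ := c3 (Sum.inr U')
      refine fb1.trivA k Ω F hF.ff G α r _ _ hU' fun γ hγ => ?_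
      rw [h γ hγ]
      change v * 1 * v⁻¹ = 1
      group
    · refine t2 U hU ?_ n2 ?_
      · rintro (i | U')
        exacts [n1 i, fun h => hJ ⟨U', h⟩]
      · by_contra h0
        obtain ⟨U', m1, m2⟩ := T3 U hU h0
        exact hJ ⟨⟨U', m1, fb1.trivA k Ω F hF.ff _ α₁ r1 _ _ m2 h1,
          fun i h => n1 i (atrans h (asymm m2)), fun h => n2 (asymm (atrans m2 h))⟩, asymm m2⟩

end Pool.Agent.Lib.IW2
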