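import Pool.Agent.Lib.IW.LG
import Pool.Agent.Lib.IW2.Blue4

/-! One abelian step with prescribed local behaviour. -/

open Polynomial IntermediateField
open scoped Pointwise

namespace Pool.Agent.Lib.IW2

open Pool.Agent.Lib.IW

open LG in
theorem blockSOLV1 (hL : StmtLGX) : StmtSOLV1 := by
  intro p _ k Ω _ _ _ _ _ _ F x hF G _ _ V _ l hl hlp hc hV α₀ h0 I _ W W₁ b hW hW₁ hd hn hb hbV
  classical
  have := Fintype.ofFinite I
  obtain ⟨A, iA, iS, e, hi, ha, hr, hs⟩ := exists_module G V hc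
  have : Finite A := Finite.of_injective e hi
  have hexp : ∀ a : A, l • a = 0 := fun a => hi (by
    rw [emb_nsmul ha, emb_zero ha]
    exact hV _ ((hr _).2 ⟨a, rfl⟩))
  have le : ∀ U : ValuationSubring Ω, DecF F U ≤ F.fixingSubgroup := fun U => inf_le_left
  choose c hc1 hc2 using fun i => exists_coc hi ha hr hs (h0.mono (le (W i))) (hb i) (hbV i)
  choose C hC1 hC2 hC3 using fun i =>
    hL p k Ω F x hF G A α₀ h0 l hl hlp hexp (W i) W₁ (hW i) hW₁ (hn i) (c i) (hc1 i)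
  refine ⟨fun γ => e (∑ i, C i γ) * α₀ γ, rep_of_coc ha hs h0 (coc_sum _ hC1), fun γ _ => ?_,
    fun i => ?_, fun U hU h1 h2 h3 γ hγ => ?_⟩
  · rw [mul_inv_cancel_right]
    exact (hr _).2 ⟨_, rfl⟩
  · have : ∀ j, ∃ a : A, j ≠ i → ∀ γ ∈ DecF F (W i), C j γ = α₀ γ • a - a := fun j => by
      by_cases h : j = i
      · exact ⟨0, fun h' => absurd h h'⟩
      · obtain ⟨a, h⟩ := hC3 j (W i) (hW i) (fun g => h (hd j i g))
          fun g => hn i fun y hy => (g y hy).symm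
        exact ⟨a, fun _ => h⟩
    choose a h using this
    refine ⟨e (-∑ j ∈ Finset.univ.erase i, a j), (hr _).2 ⟨_, rfl⟩, fun γ hγ => ?_⟩
    beta_reduce
    rw [← Finset.add_sum_erase _ _ (Finset.mem_univ i), Finset.sum_congr rfl
      fun j hj => h j (Finset.ne_of_mem_erase hj) γ hγ, Finset.sum_sub_distrib,
      ← Finset.smul_sum, hC2 i γ hγ]
    generalize ∑ j ∈ Finset.univ.erase i, a j = s
    rw [show c i γ + (α₀ γ • s - s) = -s + c i γ + α₀ γ • s by abel, ha, ha, hs, hc2 i γ hγ,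
      emb_neg ha]
    group
  · beta_reduce
    rw [Finset.sum_eq_zero fun j _ => ?_, emb_zero ha, h3 γ hγ, one_mul]
    obtain ⟨a, h⟩ := hC3 j U hU (h1 j) h2
    rw [h γ hγ, h3 γ hγ, one_smul, sub_self]

end Pool.Agent.Lib.IW2
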