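import Pool.Agent.Lib.IW2.All1
import Pool.Agent.Lib.IW2.Blue3

/-! A cover of the multiplicative group, tame at zero and wild at infinity. -/

open Polynomial IntermediateField
open scoped Pointwise

namespace Pool.Agent.Lib.IW2

open Pool.Agent.Lib.IW

namespace STAR0

section One

variable {k Ω : Type} [Field k] [Field Ω] [Algebra k Ω]

lemma Gam_sub (x : Ω) : Gam k (x - 1) = Gam k x := by
  ext γ
  simp

lemma Dec_sub (x : Ω) (W : ValuationSubring Ω) : Dec k (x - 1) W = Dec k x W := by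
  rw [Dec, Dec, Gam_sub]

lemma Dec_inv (x : Ω) (W : ValuationSubring Ω) : Dec k x⁻¹ W = Dec k x W := by
  rw [Dec, Dec, Gam_inv]

lemma co_sub {x : Ω} (hx : Co k x) : Co k (x - 1) :=
  found.bas.coOf k Ω x _ hx fun h => hx.tr (by simpa using h.add isAlgebraic_one)

lemma co_of_sub {x : Ω} (hx : Co k (x - 1)) : Co k x :=
  found.bas.coOf k Ω _ x hx fun h => hx.tr (h.sub isAlgebraic_one)

lemma val_one {W : ValuationSubring Ω} {x : Ω} (h : W.valuation (x - 1) < 1) :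
    W.valuation x = 1 := by
  have := W.valuation.map_one_add_of_lt h
  rwa [add_sub_cancel] at this

lemma val_const {W : ValuationSubring Ω} (hW : IsPl k W) {c : k} (hc : c ≠ 0) :
    W.valuation (algebraMap k Ω c) = 1 := by
  have h1 := (W.valuation_le_one_iff _).2 (hW.2 c)
  have h2 := (W.valuation_le_one_iff _).2 (hW.2 c⁻¹)
  rw [map_inv₀, map_inv₀] at h2
  have h0 : W.valuation (algebraMap k Ω c) ≠ 0 := by simpa using hc
  exact le_antisymm h1 ((inv_le_one₀ (zero_lt_iff.2 h0)).1 h2)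

lemma exists_as (p : ℕ) [hp : Fact p.Prime] [IsAlgClosed Ω] (a : Ω) : ∃ z : Ω, z ^ p - z = a := by
  have h1 : (X ^ p - (X + C a) : Polynomial Ω).degree = p := by
    rw [degree_sub_eq_left_of_degree_lt, degree_X_pow]
    rw [degree_X_pow, degree_X_add_C]
    exact_mod_cast hp.out.one_lt
  obtain ⟨z, hz⟩ := IsAlgClosed.exists_root (X ^ p - (X + C a) : Polynomial Ω) (by
    rw [h1]; exact_mod_cast hp.out.ne_zero)
  refine ⟨z, ?_⟩
  simp only [IsRoot.def, eval_sub, eval_pow, eval_X, eval_add, eval_C] at hz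
  linear_combination hz

variable {G : Type} [Group G]

/-- Normalisation of the output. -/
lemma finish (p : ℕ) [IsAlgClosed k] [IsAlgClosed Ω] {x q : Ω} {M : ℕ} {ω : k} (hx : Co k x)
    (hM : 0 < M) (hq : q ^ M = x) {c g : G} {β : Aut k Ω → G} (h1 : IsRep (Gam k x) β)
    (h2 : UnrG x β) {V V' : ValuationSubring Ω} (hV : IsPl k V) (hVx : V.valuation x < 1)
    (h3 : Lam β (Dec k x V) q (algebraMap k Ω ω) (g⁻¹ * c * g)) (hV' : IsPl k V') (hx' : x ∉ V')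
    (h4 : ¬ Tame p β (Dec k x V')) {V₀ : ValuationSubring Ω} (hV₀ : IsPl k V₀)
    (hx₀ : V₀.valuation x < 1) :
    ∃ β : Aut k Ω → G, IsRep (Gam k x) β ∧ UnrG x β ∧
      Lam β (Dec k x V₀) q (algebraMap k Ω ω) c ∧
      ∀ V : ValuationSubring Ω, IsPl k V → x ∉ V → ¬ Tame p β (Dec k x V) := by
  obtain ⟨δ, hδ, rfl⟩ := conj_at (a := 0) found.conj found.bas hx hV hV₀ (by simpa using hVx)
    (by simpa using hx₀)
  have hq0 : q ≠ 0 := by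
    rintro rfl
    exact hx.ne_zero (by rw [← hq, zero_pow hM.ne'])
  have h5 := loc.lamA k Ω k⟮x⟯ G β (by rwa [fix_adjoin]) V q M ω _ hM hq0
    (hq ▸ mem_adjoin_simple_self k x) (by rwa [DecF_adjoin]) δ (by rwa [fix_adjoin])
  rw [DecF_adjoin] at h5
  refine ⟨fun γ => (g * (β δ)⁻¹) * β γ * (g * (β δ)⁻¹)⁻¹, h1.conj _, fun W hW hW1 γ hγ => ?_,
    fun γ hγ i hi => ?_, fun U hU hUx hT => h4 ?_⟩
  · simp [h2 W hW hW1 γ hγ]
  · have e : β δ * (g⁻¹ * c * g) * (β δ)⁻¹ = (g * (β δ)⁻¹)⁻¹ * c * (g * (β δ)⁻¹)⁻¹⁻¹ := by group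
    beta_reduce
    rw [h5 γ hγ i hi, e, conj_pow]
    group
  · obtain ⟨η, hη, rfl⟩ := conj_inf found.conj found.bas hx hU hV' hUx hx'
    intro γ hγ
    obtain ⟨n, hn, e⟩ := hT _ ((conj_mem_Dec hη).2 hγ)
    refine ⟨n, hn, ?_⟩
    have hγ' := Dec_le _ _ hγ
    beta_reduce at e
    rw [h1.mul _ (mul_mem (inv_mem hη) hγ') _ hη, h1.mul _ (inv_mem hη) _ hγ', h1.inv hη] at e
    have e2 : g * (β δ)⁻¹ * ((β η)⁻¹ * β γ * β η) * (g * (β δ)⁻¹)⁻¹ =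
        (g * (β δ)⁻¹ * (β η)⁻¹) * β γ * (g * (β δ)⁻¹ * (β η)⁻¹)⁻¹ := by group
    rw [e2, conj_pow, mul_inv_eq_one, mul_eq_left] at e
    exact e

end One

end STAR0

open STAR0 in
theorem blockSTAR0 (hG : StmtGLUE0) (hS : StmtSTAR1) : StmtSTAR0 := by
  intro p hp k Ω _ _ _ _ _ _ x q M ω hx hM hω hq G _ _ c hc hpG V₀ hV₀ hx₀
  have hM0 : 0 < M := Nat.pos_of_ne_zero fun h => hM (h ▸ dvd_zero p)
  obtain ⟨a₀, ha₀⟩ := exists_prime_orderOf_dvd_card' p hpG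
  have ha1 : a₀ ^ p = 1 := ha₀ ▸ pow_orderOf_eq_one a₀
  have ha2 : a₀ ≠ 1 := fun h => hp.out.ne_one (by rw [← ha₀, h, orderOf_one])
  obtain ⟨z, hz⟩ := exists_as p x⁻¹
  obtain ⟨χ, χ1, χ2, χ3⟩ := loc.kum p k Ω x hx x q M ω hM hω hx.ne_zero hq G c hc
  obtain ⟨β, β1, β2, β3⟩ := loc.as p k Ω x hx x⁻¹ z hz G a₀ ha1
  have hπ := co_sub hx
  obtain ⟨W₁, hW₁, hW₁x⟩ := found.bas.exAt k Ω (x - 1) hπ 0
  obtain ⟨V₁, hV₁, hV₁x⟩ := found.bas.exInf k Ω x hx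
  have hW₁' : W₁.valuation (x - 1) < 1 := by simpa using hW₁x
  have hIn : GIn p k⟮x - 1⟯ (x - 1) (x - 1) x x 1 (1 : k) (fun _ : Unit => W₁) (fun _ => V₁)
      (MonoidHom.id G) (MonoidHom.id G) χ (fun _ => β) (fun _ _ => 1) (fun _ => 1) :=
    { fs := fs_self hπ
      co := hx
      hM := hp.out.not_dvd_one
      prim := IsPrimitiveRoot.one
      e1 := pow_one _
      e2 := pow_one _
      pl := fun _ => hW₁
      un := fun _ => by simpa using found.bas.unifAt k Ω (x - 1) hπ.tr 0 W₁ hW₁ hW₁x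
      ne := fun _ _ _ => rfl
      plV := fun _ => ⟨hV₁, hV₁x⟩
      onto := Function.surjective_id
      ker := by
        rw [(MonoidHom.ker_eq_bot_iff (MonoidHom.id G)).2 Function.injective_id]
        exact IsPGroup.of_bot
      ra := by rwa [fix_adjoin, Gam_sub]
      rβ := fun _ => by rwa [Gam_inv] at β1
      rb := fun _ => ⟨fun _ _ _ _ => (mul_one 1).symm, ∅, fun _ _ _ _ _ => rfl⟩
      eb := fun _ γ hγ => (β3 V₁ hV₁ ((V₁.mem_or_inv_mem x).resolve_left hV₁x) γ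
        (by rwa [Dec_inv])).symm
      la := fun _ γ hγ i _ => by
        rw [one_pow]
        rw [DecF_adjoin, Dec_sub] at hγ
        exact χ3 W₁ hW₁ (val_one hW₁') γ hγ
      lb := fun _ γ _ i _ => by simp }
  obtain ⟨𝕜, Ω', _, _, _, _, _, _, _, _, ι, t, ρ, α, hO⟩ :=
    hG p k Ω _ _ _ _ _ _ _ _ _ _ G G G _ _ _ _ _ _ hIn
  have : CharP 𝕜 p := charP_of_injective_algebraMap (algebraMap k 𝕜).injective p
  have ht : Transcendental k (t * t) := by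
    rw [← pow_two]; exact hO.tr.pow two_pos
  have ht0 : t * t ≠ 0 := fun h => ht (h ▸ isAlgebraic_zero)
  obtain ⟨ν, hν, hνt⟩ := hO.big _ ht
  have eπ : ι (x - 1) = ι x - 1 := by rw [map_sub, map_one]
  have hσ : Co 𝕜 (ι x) := co_of_sub (eπ ▸ hO.co)
  have eE : Ext 𝕜 ι k⟮x - 1⟯ = 𝕜⟮ι x - 1⟯ := by
    rw [rx.ext1, Set.image_singleton, eπ]
  have eF : (Ext 𝕜 ι k⟮x - 1⟯).fixingSubgroup = Gam 𝕜 (ι x) := by rw [eE, fix_adjoin, Gam_sub]
  have eD : ∀ U, DecF (Ext 𝕜 ι k⟮x - 1⟯) U = Dec 𝕜 (ι x) U := fun U => by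
    rw [eE, DecF_adjoin, Dec_sub]
  have hα : ∀ γ ∈ Gam 𝕜 (ι x), α γ = χ (res 𝕜 ι γ) := fun γ hγ => hO.lift γ (eF ▸ hγ)
  have hfix : ∀ ι' : Ω →ₐ[k] Ω', ι' x * algebraMap 𝕜 Ω' (t * t) = ι (x - 1) →
      ∀ γ ∈ Gam 𝕜 (ι x), γ (ι' x) = ι' x := fun ι' e γ hγ => by
    have h0 : algebraMap 𝕜 Ω' (t * t) ≠ 0 := by simpa using ht0
    apply mul_right_cancel₀ h0
    have e2 := congrArg γ e
    rw [map_mul, γ.commutes, eπ, map_sub, map_one, mem_Gam.1 hγ] at e2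
    rw [e2, e, eπ]
  obtain ⟨U₀, hU₀, hU₀x⟩ := found.bas.exAt 𝕜 Ω' (ι x) hσ 0
  have hU₀' : U₀.valuation (ι x) < 1 := by simpa using hU₀x
  obtain ⟨h₀, hh₀⟩ : ∃ h : G, ∀ γ ∈ Dec 𝕜 (ι x) U₀, ρ γ = h⁻¹ * α γ * h := by
    rcases hO.h1 U₀ hU₀ with ⟨⟨h, hh⟩, -⟩ | ⟨_, _, _, -, -, -, h, -⟩
    · exact ⟨h, fun γ hγ => hh γ ((eD U₀).symm ▸ hγ)⟩
    · exact absurd (by simpa [eπ] using hU₀') (h (-1) (neg_ne_zero.2 one_ne_zero))
  have H1 : ∀ U : ValuationSubring Ω', IsPl 𝕜 U → U.valuation (ι x) = 1 →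
      ¬ U.valuation (ι x - 1) < 1 → Triv ρ (Dec 𝕜 (ι x) U) := by
    intro U hU hU1 hU2 γ hγ
    have hγ' := Dec_le _ _ hγ
    rcases hO.h1 U hU with ⟨⟨h, hh⟩, -⟩ | ⟨_, h, ι', e, hh, hm, -, -⟩
    · have e1 : χ (res 𝕜 ι γ) = 1 := by
        rcases rx.plc k 𝕜 Ω Ω' ι x hx hσ U hU with ⟨-, h1⟩ | ⟨h1, h2, h3⟩
        · rw [h1 γ hγ, χ1.one]
        · refine χ3 _ h1 ?_ _ (h3 γ hγ)
          refine le_antisymm ((ValuationSubring.valuation_le_one_iff _ _).2 ?_) ?_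
          · exact (U.valuation_le_one_iff _).1 hU1.le
          · rw [← not_lt, h2, hU1]
            exact lt_irrefl _
      rw [hh γ ((eD U).symm ▸ hγ), MonoidHom.id_apply, hα γ hγ', e1]
      simp
    · have v1 : U.valuation (ι' x) = 1 := by
        have e2 := congrArg U.valuation e
        rw [map_mul, val_const hU ht0, mul_one, eπ] at e2
        rw [e2]
        exact le_antisymm ((U.valuation_le_one_iff _).2 (eπ ▸ hm)) (not_lt.1 hU2)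
      have e1 : β (res 𝕜 ι' γ) = 1 :=
        found.res.unr k 𝕜 Ω Ω' x⁻¹ (co_inv found.bas hx) _ hσ ι' G β β1 β3 U hU
          ((U.valuation_le_one_iff _).1 (by rw [map_inv₀, map_inv₀, v1, inv_one])) γ
          (by rw [map_inv₀, map_inv₀, hfix ι' e γ hγ']) hγ.2
      rw [hh γ ((eD U).symm ▸ hγ), e1]
      simp
  have H2 : Lam ρ (Dec 𝕜 (ι x) U₀) (ι q) (algebraMap k Ω' ω) (h₀⁻¹ * c * h₀) := by
    intro γ hγ i hi
    have hγ' := Dec_le _ _ hγ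
    have e1 : res 𝕜 ι γ q = algebraMap k Ω ω ^ i * q := by
      apply ι.toRingHom.injective
      change ι (res 𝕜 ι γ q) = ι (algebraMap k Ω ω ^ i * q)
      rw [found.res.spec k 𝕜 Ω Ω' x hx ι γ hγ', hi, map_mul, map_pow, ι.commutes]
    rw [hh₀ γ hγ, hα γ hγ', χ2 _ ((rx.mul k 𝕜 Ω Ω' ι x hx).2.1 γ hγ') i e1]
    simpa using (conj_pow (a := h₀⁻¹) (b := c) (i := i)).symm
  have H3 : ∀ U : ValuationSubring Ω', IsPl 𝕜 U → U.valuation (ι x - 1) < 1 →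
      ∃ (z : Ω') (l : 𝕜) (a : G), 1 < ν l ∧ (z ^ p - z) * (ι x - 1) = algebraMap 𝕜 Ω' l ∧
        a ≠ 1 ∧ ASLam ρ (Dec 𝕜 (ι x) U) z a := by
    intro U hU hU1
    have hOv : Ov ι k⟮x - 1⟯ U W₁ := by
      rcases rx.plc k 𝕜 Ω Ω' ι x hx hσ U hU with ⟨h1, -⟩ | ⟨h1, h2, -⟩
      · exfalso
        have h3 := (U.valuation_le_one_iff _).2 (h1 (x - 1)⁻¹)
        have h0 : U.valuation (ι x - 1) ≠ 0 := by
          rw [← eπ, ne_eq, map_eq_zero, map_eq_zero]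
          exact hπ.ne_zero
        rw [map_inv₀, map_inv₀, eπ, inv_le_one₀ (zero_lt_iff.2 h0)] at h3
        exact absurd hU1 (not_lt.2 h3)
      · exact found.bas.agrAt k Ω (x - 1) hπ.tr 0 _ _ h1 hW₁
          (by rw [map_zero, sub_zero, h2, eπ]; exact hU1) hW₁x
    obtain ⟨h, ι', e, hh⟩ := hO.h2 () U hU hOv
    refine ⟨ι' z, t * t, h⁻¹ * a₀ * h, hνt, ?_, fun h1 => ha2 ?_, fun γ hγ i hi => ?_⟩
    · have h0 : ι' x ≠ 0 := by simpa using hx.ne_zero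
      rw [← map_pow, ← map_sub, hz, ← eπ, ← e, map_inv₀, ← mul_assoc, inv_mul_cancel₀ h0, one_mul]
    · calc a₀ = h * (h⁻¹ * a₀ * h) * h⁻¹ := by group
        _ = 1 := by rw [h1]; group
    · have hγ' := hfix ι' e γ (Dec_le _ _ hγ)
      have e1 : res 𝕜 ι' γ z = z + i := by
        apply ι'.toRingHom.injective
        change ι' (res 𝕜 ι' γ z) = ι' (z + i)
        rw [found.res.spec k 𝕜 Ω Ω' x hx ι' γ hγ', hi, map_add, map_natCast]
      rw [(hh γ (by rwa [eπ, Dec_sub])).2,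
        β2 _ (by rw [Gam_inv]; exact (rx.mul k 𝕜 Ω Ω' ι' x hx).2.1 γ hγ') i e1]
      simpa using (conj_pow (a := h⁻¹) (b := a₀) (i := i)).symm
  obtain ⟨β', b1, b2, ⟨V, g, hV, hVx, b3⟩, V', hV', hV'x, b4⟩ :=
    hS p k 𝕜 Ω Ω' ν hν x q (ι x) (ι q) M ω hx hσ hM hω hq (by rw [← map_pow, hq]) G ρ
      (h₀⁻¹ * c * h₀) (eF ▸ hO.rρ) H1 ⟨U₀, hU₀, hU₀', H2⟩ H3
  refine finish p hx hM0 hq (g := h₀ * g) b1 b2 hV hVx ?_ hV' hV'x b4 hV₀ hx₀
  have e : (h₀ * g)⁻¹ * c * (h₀ * g) = g⁻¹ * (h₀⁻¹ * c * h₀) * g := by group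
  rw [e]
  exact b3

end Pool.Agent.Lib.IW2
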