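import Pool.Agent.Lib.IW2.All1
import Pool.Agent.Lib.IW2.Blue2

/-! Block STAR1: the first radius of non-trivial reduction. -/

open Polynomial IntermediateField
open scoped Pointwise

namespace Pool.Agent.Lib.IW2

open Pool.Agent.Lib.IW

namespace STAR1

lemma first (P : ℝ → Prop) (h0 : ∃ r₁ : ℝ, 0 < r₁ ∧ ∀ r, 0 < r → r < r₁ → P r) (h1 : ¬ P 1)
    (hc : ∀ r₀ : ℝ, 0 < r₀ → (∀ ε : ℝ, 0 < ε → ∃ r : ℝ, 0 < r ∧ |r - r₀| < ε ∧ P r) → P r₀) :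
    ∃ r₀ : ℝ, 0 < r₀ ∧ r₀ < 1 ∧ P r₀ ∧
      ¬ ∃ ε : ℝ, 0 < ε ∧ ∀ r : ℝ, 0 < r → |r - r₀| < ε → P r := by
  obtain ⟨r₁, a1, a2⟩ := h0
  set S : Set ℝ := {r | 0 < r ∧ r ≤ 1 ∧ P r} with hS
  have b0 : 0 < min (r₁ / 2) 1 := lt_min (by linarith) one_pos
  have b1 : min (r₁ / 2) 1 ∈ S :=
    ⟨b0, min_le_right _ _, a2 _ b0 ((min_le_left _ _).trans_lt (by linarith))⟩
  have b2 : BddAbove S := ⟨1, fun r hr => hr.2.1⟩
  have b3 : 0 < sSup S := b0.trans_le (le_csSup b2 b1)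
  have b4 : P (sSup S) := hc _ b3 fun ε hε => by
    obtain ⟨r, hr, h⟩ := exists_lt_of_lt_csSup ⟨_, b1⟩ (show sSup S - ε < sSup S by linarith)
    have := le_csSup b2 hr
    exact ⟨r, hr.1, abs_lt.2 ⟨by linarith, by linarith⟩, hr.2.2⟩
  have b5 : sSup S < 1 :=
    lt_of_le_of_ne (csSup_le ⟨_, b1⟩ fun r hr => hr.2.1) fun e => h1 (e ▸ b4)
  refine ⟨_, b3, b5, b4, fun ⟨ε, hε, h⟩ => ?_⟩
  have c1 : sSup S < min (sSup S + ε / 2) 1 := lt_min (by linarith) b5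
  have c2 := min_le_left (sSup S + ε / 2) 1
  have c3 : min (sSup S + ε / 2) 1 ∈ S := ⟨b3.trans c1, min_le_right _ _,
    h _ (b3.trans c1) (abs_lt.2 ⟨by linarith, by linarith⟩)⟩
  exact absurd (le_csSup b2 c3) (not_le.2 c1)

section One

variable {K Ω : Type} [Field K] [Field Ω] [Algebra K Ω]

lemma adj_mul {a b : Ω} {s : K} (hs : s ≠ 0) (h : a * algebraMap K Ω s = b) : K⟮a⟯ = K⟮b⟯ := by
  refine le_antisymm (adjoin_simple_le_iff.2 ?_) (adjoin_simple_le_iff.2 ?_)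
  · rw [(eq_mul_inv_iff_mul_eq₀ ((_root_.map_ne_zero _).2 hs)).2 h]
    exact mul_mem (mem_adjoin_simple_self K b) (inv_mem (IntermediateField.algebraMap_mem _ s))
  · rw [← h]
    exact mul_mem (mem_adjoin_simple_self K a) (IntermediateField.algebraMap_mem _ s)

lemma adj_sub (a : Ω) : K⟮a - 1⟯ = K⟮a⟯ := by
  refine le_antisymm (adjoin_simple_le_iff.2 ?_) (adjoin_simple_le_iff.2 ?_)
  · exact sub_mem (mem_adjoin_simple_self K a) (one_mem _)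
  · simpa using add_mem (mem_adjoin_simple_self K (a - 1)) (one_mem K⟮a - 1⟯)

lemma co_adj {a b : Ω} (h : K⟮a⟯ = K⟮b⟯) (hb : Co K b) : Co K a :=
  found.bas.coOf K Ω b a hb fun ha => hb.tr (by
    have : Algebra.IsAlgebraic K K⟮a⟯ := isAlgebraic_adjoin_simple ha.isIntegral
    have h1 : b ∈ K⟮a⟯ := h ▸ mem_adjoin_simple_self K b
    exact (Algebra.IsAlgebraic.isAlgebraic (R := K) (⟨b, h1⟩ : K⟮a⟯)).algebraMap)

variable {W : ValuationSubring Ω}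

lemma val_one (hW : IsPl K W) {s : Ω} {a : K} (ha : a ≠ 0)
    (h : W.valuation (s - algebraMap K Ω a) < 1) : W.valuation s = 1 := by
  refine le_antisymm ((W.valuation_le_one_iff _).2 (RED3.mem_of_small (hW.2 a) h))
    (not_lt.1 fun h' => ha (RED3.res_uniq hW.2 h (by simpa using h')))

lemma pow_small {s a : Ω} (ha : a ∈ W) (h : W.valuation (s - a) < 1) (n : ℕ) :
    W.valuation (s ^ n - a ^ n) < 1 := by
  have hs := RED3.mem_of_small ha h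
  rw [← Commute.geom_sum₂_mul (Commute.all s a) n]
  exact RED3.mul_small (sum_mem fun i _ => mul_mem (pow_mem hs _) (pow_mem ha _)) h

lemma geom_small {s : Ω} (h : W.valuation (s - 1) < 1) (n : ℕ) :
    W.valuation (∑ i ∈ Finset.range n, s ^ i - algebraMap K Ω n) < 1 := by
  have : ∑ i ∈ Finset.range n, s ^ i - algebraMap K Ω n =
      ∑ i ∈ Finset.range n, (s ^ i - 1 ^ i) := by simp
  rw [this]
  exact W.valuation.map_sum_lt one_ne_zero fun i _ => pow_small (one_mem W) h i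

end One

variable {k 𝕜 Ω Ω' : Type} [Field k] [Field 𝕜] [Field Ω] [Field Ω'] [Algebra k 𝕜] [Algebra k Ω]
  [Algebra k Ω'] [Algebra 𝕜 Ω'] [IsScalarTower k 𝕜 Ω'] {ν : AbsoluteValue 𝕜 ℝ}

lemma nu_one (hν : Big k ν) {a : k} (ha : a ≠ 0) : ν (algebraMap k 𝕜 a) = 1 := by
  have h1 := hν.const a
  have h2 := hν.const a⁻¹
  have h3 : ν (algebraMap k 𝕜 a) * ν (algebraMap k 𝕜 a⁻¹) = 1 := by
    rw [← map_mul, ← map_mul, mul_inv_cancel₀ ha, map_one, map_one]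
  nlinarith [ν.nonneg (algebraMap k 𝕜 a), ν.nonneg (algebraMap k 𝕜 a⁻¹)]

omit [Algebra k Ω'] [IsScalarTower k 𝕜 Ω'] in
lemma gr_sub (hν : Big k ν) {y : AbsoluteValue Ω' ℝ} {Q : Ω'} (h : GR ν y Q 1) :
    GR ν y (Q - 1) 1 := by
  refine ⟨h.na, h.ext, fun a => ?_⟩
  rw [sub_sub, ← map_one (algebraMap 𝕜 Ω'), ← map_add, h.gau]
  have h1 := hν.na 1 a
  have h2 := hν.na (1 + a) (-1)
  rw [map_one] at h1
  rw [add_neg_cancel_comm, ν.map_neg, map_one, max_comm] at h2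
  exact le_antisymm (max_le (le_max_left _ _) h1) (max_le (le_max_left _ _) h2)

lemma ext_one (ι : Ω →ₐ[k] Ω') (x : Ω) : Ext 𝕜 ι k⟮x⟯ = 𝕜⟮ι x⟯ := by
  rw [RX.ext1, Set.image_singleton]

lemma emb [IsAlgClosed Ω'] {x : Ω} (hx : Co k x) {t : Ω'} (ht : Co 𝕜 t) :
    ∃ ι : Ω →ₐ[k] Ω', ι x = t :=
  found.bas.exEmb k Ω Ω' x t hx fun h => ht.tr (h.tower_top 𝕜)

/-- Bad reduction at radius one. -/
lemma bad (GP1 : StmtGP1) (p : ℕ) [Fact p.Prime] [IsAlgClosed k] [CharP k p] [IsAlgClosed 𝕜]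
    [IsAlgClosed Ω] [IsAlgClosed Ω'] (hν : Big k ν) {x : Ω} {σ Q : Ω'} {M : ℕ} {ω : k}
    (hx : Co k x) (hσ : Co 𝕜 σ) (hM : ¬ p ∣ M) (hω : IsPrimitiveRoot ω M) (e2 : Q ^ M = σ)
    {G : Type} [Group G] [Fintype G] [DecidableEq G] {ρ : Aut 𝕜 Ω' → G} (hρ : IsRep (Gam 𝕜 σ) ρ)
    (hU : ∀ W : ValuationSubring Ω', IsPl 𝕜 W → W.valuation σ = 1 → ¬ W.valuation (σ - 1) < 1 →
      Triv ρ (Dec 𝕜 σ W))
    (h1 : ∀ W : ValuationSubring Ω', IsPl 𝕜 W → W.valuation (σ - 1) < 1 →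
      ∃ (z : Ω') (l : 𝕜) (a : G), 1 < ν l ∧ (z ^ p - z) * (σ - 1) = algebraMap 𝕜 Ω' l ∧ a ≠ 1 ∧
        ASLam ρ (Dec 𝕜 σ W) z a) : ¬ Good ν Q 1 ρ := by
  intro hg
  have hM0 : M ≠ 0 := fun e => hM (e ▸ dvd_zero p)
  have : NeZero M := ⟨hM0⟩
  have hQ := co_of_pow found.bas hσ e2
  obtain ⟨y, hy⟩ := GP1.exg k 𝕜 Ω' ν hν Q hQ 1 one_pos
  obtain ⟨⟨O, hO⟩, hb⟩ := GP1.ball Ω' y hy.na
  have hQ1 : Co 𝕜 (Q - 1) := co_adj (adj_sub Q) hQ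
  obtain ⟨ι, hι⟩ := emb hx hQ1
  have hR : RedD 𝕜 ι O := GP1.gpr k 𝕜 Ω Ω' ν hν (Q - 1) hQ1 1 y O (gr_sub hν hy) hO 1 one_ne_zero
    (map_one ν) x ι hx (by rw [map_one, mul_one, hι])
  have g1 : Gam 𝕜 (Q - 1) ≤ Gam 𝕜 σ := by
    rw [← fix_adjoin, adj_sub, fix_adjoin]
    exact Gam_le_of_pow e2
  have g2 : ∀ W, Dec 𝕜 (Q - 1) W ≤ Dec 𝕜 σ W := fun W => inf_le_inf_right _ g1
  refine aso p k 𝕜 Ω Ω' ι O hR x hx (hι ▸ hQ1) G ρ (hι ▸ hρ.mono g1) ?_ ?_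
    (by rw [hι, adj_sub]; exact hg y O hy hO)
  · intro W e hW he0 he hWe γ hγ
    rw [(hb O hO).1, hy.ext] at he
    rw [hι] at hWe hγ
    rw [sub_sub, ← map_one (algebraMap 𝕜 Ω'), ← map_add] at hWe
    have s1 := pow_small (hW.2 _) hWe M
    rw [e2, ← map_pow] at s1
    have s2 : 1 + e ≠ 0 := fun h => by
      rw [eq_neg_of_add_eq_zero_right h, ν.map_neg, map_one] at he
      exact lt_irrefl _ he
    refine hU W hW (val_one hW (pow_ne_zero M s2) s1) (fun s3 => ?_) γ (g2 W hγ)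
    have s4 := RED3.res_uniq hW.2 s1 (b := 1) (by rwa [map_one])
    obtain ⟨i, -, hi⟩ := (hω.map_of_injective (algebraMap k 𝕜).injective).eq_pow_of_pow_eq_one s4
    have s5 : e = algebraMap k 𝕜 (ω ^ i - 1) := by rw [map_sub, map_pow, hi, map_one]; ring
    have s6 : ω ^ i - 1 ≠ 0 := fun h => he0 (by rw [s5, h, map_zero])
    rw [s5, nu_one hν s6] at he
    exact lt_irrefl _ he
  · intro W hW hWx
    rw [hι] at hWx ⊢
    have s1 := pow_small (one_mem W) hWx M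
    rw [e2, one_pow] at s1
    obtain ⟨z, l, a, a1, a2, a3, a4⟩ := h1 W hW s1
    have m0 : (M : k) ≠ 0 := fun h => hM ((CharP.cast_eq_zero_iff k p M).1 h)
    have m1 : ν (M : 𝕜) = 1 := by rw [← map_natCast (algebraMap k 𝕜), nu_one hν m0]
    have m2 : (M : 𝕜) ≠ 0 := fun h => by simp [h] at m1
    have s0 : σ - 1 ≠ 0 := fun h => hσ.tr (sub_eq_zero.1 h ▸ isAlgebraic_one)
    refine ⟨z, l / M, a, fun h => ?_, ?_, ?_, a3, fun γ hγ => a4 γ (g2 W hγ)⟩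
    · rw [hO, hy.ext, map_div₀, m1, div_one] at h
      exact absurd a1 (not_lt.2 h)
    · rw [(eq_mul_inv_iff_mul_eq₀ s0).2 a2, adj_sub, ← e2]
      exact mul_mem (IntermediateField.algebraMap_mem _ l)
        (inv_mem (sub_mem (pow_mem (mem_adjoin_simple_self 𝕜 Q) M) (one_mem _)))
    · have t1 := geom_small (K := 𝕜) hWx M
      have t2 := val_one hW m2 t1
      set S := ∑ i ∈ Finset.range M, Q ^ i with hS
      have t3 : S ≠ 0 := fun h => by simp [h] at t2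
      have t4 : S⁻¹ ∈ W := by rw [← W.valuation_le_one_iff, map_inv₀, t2, inv_one]
      have t5 : S * (Q - 1) = σ - 1 := by rw [hS, geom_sum_mul, e2]
      have t6 : algebraMap 𝕜 Ω' M ≠ 0 := (_root_.map_ne_zero _).2 m2
      have t7 := RED3.mul_small (mul_mem (neg_mem (hW.2 (l / M))) t4) t1
      convert t7 using 2
      rw [map_div₀, ← a2, ← t5]
      field_simp
      ring

end STAR1

open STAR1 in
theorem blockSTAR1 (GP1 : StmtGP1) (NEAR : StmtNEAR) (LEFT : StmtLEFT) : StmtSTAR1 := by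
  intro p _ k 𝕜 Ω Ω' _ _ _ _ _ _ _ _ _ _ _ _ _ _ ν hν x q σ Q M ω hx hσ hM hω e1 e2 G _ _ ρ c hρ hU
    ⟨W₀, w1, w2, w3⟩ h1
  classical
  have := Fintype.ofFinite G
  have : CharP 𝕜 p := charP_of_injective_algebraMap (algebraMap k 𝕜).injective p
  have hM0 : M ≠ 0 := fun e => hM (e ▸ dvd_zero p)
  have hQ := co_of_pow found.bas hσ e2
  have hq := co_of_pow found.bas hx e1
  have hρQ := hρ.mono (Gam_le_of_pow e2)
  obtain ⟨r₀, r1, r2, r3, r4⟩ := first (fun r => Good ν Q r ρ)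
    (NEAR.zero p k 𝕜 Ω' ν hν Q hQ G ρ hρQ W₀ w1
      (by rwa [← e2, map_pow, pow_lt_one_iff hM0] at w2) fun γ hγ => by
        rw [w3 γ (Dec_le_of_pow e2 W₀ hγ) 0 (by rw [pow_zero, one_mul]; exact hγ.1), pow_zero])
    (bad GP1 p hν hx hσ hM hω e2 hρ hU h1) (LEFT p k 𝕜 Ω Ω' ν hν x Q hx hQ G ρ hρQ)
  obtain ⟨d, hd⟩ := hν.onto r₀ r1
  have d0 : d ≠ 0 := fun h => by simp [← hd, h] at r1
  have d1 : algebraMap 𝕜 Ω' d ≠ 0 := (_root_.map_ne_zero _).2 d0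
  have d2 : Q / algebraMap 𝕜 Ω' d * algebraMap 𝕜 Ω' d = Q := div_mul_cancel₀ _ d1
  obtain ⟨y, hy⟩ := GP1.exg k 𝕜 Ω' ν hν Q hQ r₀ r1
  obtain ⟨⟨O, hO⟩, hb⟩ := GP1.ball Ω' y hy.na
  obtain ⟨ι, hι⟩ := emb hq (co_adj (adj_mul d0 d2) hQ)
  rw [← hι] at d2
  have d3 : ι x * algebraMap 𝕜 Ω' (d ^ M) = σ := by
    rw [← e1, map_pow, map_pow, ← mul_pow, d2, e2]
  have f1 := adj_mul d0 d2
  have f2 := adj_mul (pow_ne_zero M d0) d3
  have cq := co_adj f1 hQ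
  have cx := co_adj f2 hσ
  have x1 : Ext 𝕜 ι k⟮q⟯ = 𝕜⟮Q⟯ := by rw [ext_one, f1]
  have x2 : Ext 𝕜 ι k⟮x⟯ = 𝕜⟮σ⟯ := by rw [ext_one, f2]
  have le : k⟮x⟯ ≤ k⟮q⟯ :=
    adjoin_simple_le_iff.2 (e1 ▸ pow_mem (mem_adjoin_simple_self k q) M)
  have hR : RedD 𝕜 ι O := GP1.gpr k 𝕜 Ω Ω' ν hν Q hQ r₀ y O hy hO d d0 hd q ι hq d2
  have C1 : Cert (Ext 𝕜 ι k⟮q⟯) ρ O := x1 ▸ r3 y O hy hO
  have C2 : Cert (Ext 𝕜 ι (k⟮x⟯ ⊔ k⟮q⟯)) ρ O := by rwa [sup_eq_right.2 le]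
  have hρ' : IsRep (Ext 𝕜 ι k⟮x⟯).fixingSubgroup ρ := by rwa [x2, fix_adjoin]
  have sm : W₀.valuation (ι x) < 1 := by
    rw [(eq_mul_inv_iff_mul_eq₀ ((_root_.map_ne_zero _).2 (pow_ne_zero M d0))).2 d3, ← map_inv₀,
      mul_comm]
    exact RED3.mul_small (w1.2 _) w2
  obtain ⟨τ, hτ, eτ⟩ := loc.tau p 𝕜 Ω' 𝕜⟮ι x⟯ cx.ff W₀ (ι x) (ι q) (algebraMap k Ω' ω) M w1
    (by simpa using found.bas.unifAt 𝕜 Ω' (ι x) cx.tr 0 W₀ w1 (by simpa using sm)) hM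
    (Or.inl (by rw [← map_pow, e1])) (by rw [← map_pow, hω.pow_eq_one, map_one])
  have C3 : Cert (Ext 𝕜 ι k⟮x⟯) ρ O := (down p k 𝕜 Ω Ω' ι O hR k⟮x⟯ x q M ω (fs_self hx) cx hM hω
    e1 τ (by rw [ext_one]; exact hτ.1) eτ G ρ hρ').2 C2
  obtain ⟨β, hβ⟩ := rrep.ex k 𝕜 Ω Ω' ι O hR k⟮x⟯ x (fs_self hx) cx G ρ C3
  have rβ : IsRep (Gam k x) β := fix_adjoin (k := k) x ▸ hβ.rep
  have key : ∀ (V : ValuationSubring Ω) (a : k) (W : ValuationSubring Ω'),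
      V.valuation (x - algebraMap k Ω a) < 1 → In 𝕜 ι O k⟮x⟯ V W →
      (a ≠ 0 ∨ ¬ W.valuation (ι x) < 1) → Triv ρ (DecF (Ext 𝕜 ι k⟮x⟯) W) := by
    intro V a W ha hin h
    obtain ⟨b, b1, b2⟩ := hin.2 _
      (sub_mem (mem_adjoin_simple_self k x) (IntermediateField.algebraMap_mem _ a)) ha
    rw [(hb O hO).1, hy.ext] at b1
    rw [map_sub ι, ι.commutes, sub_sub, IsScalarTower.algebraMap_apply k 𝕜 Ω', ← map_add] at b2
    have b3 : algebraMap k 𝕜 a + b ≠ 0 := fun e => by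
      rcases h with h | h
      · rw [eq_neg_of_add_eq_zero_right e, ν.map_neg, nu_one hν h] at b1
        exact lt_irrefl _ b1
      · exact h (by simpa [e] using b2)
    have b4 := RED3.mul_small (hin.1.2 (d ^ M)) b2
    rw [mul_sub, mul_comm _ (ι x), d3, ← map_mul] at b4
    rw [x2, DecF_adjoin]
    refine hU W hin.1 (val_one hin.1 (mul_ne_zero (pow_ne_zero M d0) b3) b4) fun s => ?_
    have b5 := congrArg ν (RED3.res_uniq hin.1.2 b4 (b := 1) (by rwa [map_one]))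
    have b6 := (hν.na _ _).trans (max_le (hν.const a) b1.le)
    rw [map_mul, map_pow, hd, map_one] at b5
    exact (mul_lt_one_of_nonneg_of_lt_one_left (pow_nonneg r1.le M)
      (pow_lt_one₀ r1.le r2 hM0) b6).ne b5
  have unr : UnrG x β := fun V hV hx1 => by
    obtain ⟨a, ha⟩ := found.bas.resid k Ω x hx V hV x ((V.valuation_le_one_iff _).1 hx1.le)
    rw [← DecF_adjoin]
    exact red2 p k 𝕜 Ω Ω' ι O hR k⟮x⟯ x (fs_self hx) cx V hV G ρ β C3 hβ fun W hin =>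
      key V a W ha hin (Or.inl fun e => by simp [e, hx1] at ha)
  rcases rx.plc k 𝕜 Ω Ω' ι x hx cx W₀ w1 with ⟨j, -⟩ | ⟨j1, j2, -⟩
  · exact (((DISC.lt_iff _ _).1 sm).resolve_left cx.ne_zero (map_inv₀ ι x ▸ j x⁻¹)).elim
  have v0 := (j2 x).2 sm
  obtain ⟨g, hg⟩ := red3 p k 𝕜 Ω Ω' ι O hR k⟮x⟯ x q M ω (fs_self hx) cx hM hω e1 _ j1
    (by simpa using found.bas.unifAt k Ω x hx.tr 0 _ j1 (by simpa using v0)) G ρ β hρ' C2 hβ
    (fun W hin hn => key _ 0 W (by simpa using v0) hin (Or.inr hn)) W₀ c w1 (fun _ _ => Iff.rfl)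
    fun γ hγ i hi => by
      rw [x2, DecF_adjoin] at hγ
      exact w3 γ hγ i (by rw [← d2, map_mul, hi, γ.commutes, mul_assoc])
  rw [DecF_adjoin] at hg
  obtain ⟨V, hV, hxV⟩ := found.bas.exInf k Ω x hx
  refine ⟨β, rβ, unr, ⟨_, g, j1, v0, hg⟩, V, hV, hxV, fun ht => r4 ?_⟩
  have tr := (kumg.one p k Ω x q M hx hM e1 G β rβ unr _ j1 v0 fun γ hγ e => by
    rw [hg γ hγ 0 (by rw [pow_zero, one_mul, e]), pow_zero]).2 V hV hxV ht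
  obtain ⟨β', hβ'⟩ := rrep.ex k 𝕜 Ω Ω' ι O hR k⟮q⟯ q (fs_self hq) cq G ρ C1
  have sb := rrep.sub k 𝕜 Ω Ω' ι O hR k⟮x⟯ k⟮q⟯ le G ρ β β' C3 hβ hβ'
  obtain ⟨n, ⟨en⟩⟩ := Finite.exists_equiv_fin G
  let cc : G → k := fun g => Infinite.natEmbedding k (en g)
  have ci : Function.Injective cc :=
    (Infinite.natEmbedding k).injective.comp (Fin.val_injective.comp en.injective)
  obtain ⟨f, f3, f4⟩ := hβ'.up (fun g => algebraMap k Ω (cc g))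
    ⟨fun g => sep_mem (IntermediateField.algebraMap_mem _ _), fun γ hγ g => by
      rw [← sb γ hγ, tr γ (fix_adjoin (k := k) q ▸ hγ), one_mul, γ.commutes]⟩
  exact NEAR.right k 𝕜 Ω' ν hν Q hQ G ρ r₀ y r1 hy f cc (x1 ▸ f3) ci fun g => by
    rw [← (hb O hO).1, ← ι.commutes]
    exact f4 g

end Pool.Agent.Lib.IW2
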