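import Pool.Agent.Lib.IW2.All1
import Pool.Agent.Lib.IW2.Blue3

/-! Specialisation of a cover of a constant curve. -/

open Polynomial IntermediateField
open scoped Pointwise

namespace Pool.Agent.Lib.IW2

open Pool.Agent.Lib.IW

namespace TPX

variable {k Ω : Type} [Field k] [Field Ω] [Algebra k Ω]

lemma fix_adj (S : Set Ω) (γ : Aut k Ω) :
    γ ∈ (IntermediateField.adjoin k S).fixingSubgroup ↔ ∀ s ∈ S, γ s = s := by
  rw [IntermediateField.mem_fixingSubgroup_iff]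
  refine ⟨fun h s hs => h s (subset_adjoin k S hs), fun h y hy => ?_⟩
  induction hy using IntermediateField.adjoin_induction with
  | mem y hy => exact h y hy
  | algebraMap c => exact γ.commutes c
  | add a b _ _ ha hb => rw [map_add, ha, hb]
  | inv a _ ha => rw [map_inv₀, ha]
  | mul a b _ _ ha hb => rw [map_mul, ha, hb]

lemma sep_down {F : IntermediateField k Ω} {x : Ω} (h : FS F x) {y : Ω} (hy : IsSeparable F y) :
    IsSeparable k⟮x⟯ y := by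
  let _ := (IntermediateField.inclusion (adjoin_simple_le_iff.2 h.mem)).toAlgebra
  have : IsScalarTower k⟮x⟯ F Ω := IsScalarTower.of_algebraMap_eq fun _ => rfl
  have : Algebra.IsSeparable k⟮x⟯ F := ⟨fun a =>
    (isSeparable_map_iff (IsScalarTower.toAlgHom k⟮x⟯ F Ω) Subtype.val_injective).1 (h.sep a a.2)⟩
  exact IsSeparable.of_algebra_isSeparable_of_isSeparable k⟮x⟯ hy

lemma lt_iff (W : ValuationSubring Ω) (y : Ω) : W.valuation y < 1 ↔ y = 0 ∨ y⁻¹ ∉ W := by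
  by_cases h : y = 0
  · simp [h]
  rw [← W.valuation_le_one_iff, map_inv₀, not_le, one_lt_inv₀ (by simpa [zero_lt_iff] using h)]
  simp [h]

lemma agr_lt {F : IntermediateField k Ω} {W W' : ValuationSubring Ω} (h : Agr F W W') {y : Ω}
    (hy : y ∈ F) : W.valuation y < 1 ↔ W'.valuation y < 1 := by
  rw [lt_iff, lt_iff, h _ (inv_mem hy)]

/-- A function that singles out one pole. -/
lemma exists_mark [IsAlgClosed k] {F : IntermediateField k Ω} {u : Ω} (h : FS F u)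
    {V : ValuationSubring Ω} (hV : IsPl k V) (hu : u ∉ V) : ∃ s ∈ F, IntgInf k u s ∧
      V.valuation s < 1 ∧ ∀ W, IsPl k W → u ∉ W → W.valuation s < 1 → Agr F W V := by
  classical
  obtain ⟨T, h1, -, h3⟩ := found.unif.fin k Ω F h.ff u h.mem
  obtain ⟨s, s1, s2, s3, s4⟩ := found.unif.sepp k Ω u⁻¹ (co_inv found.bas h.co) F h.fg
    (inv_mem h.mem) V (T.filter fun W => ¬ Agr F W V) hV ((V.mem_or_inv_mem u).resolve_left hu)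
    fun W hW => by
      rw [Finset.mem_filter] at hW
      exact ⟨(h1 W hW.1).1, (W.mem_or_inv_mem u).resolve_left (h1 W hW.1).2, hW.2⟩
  refine ⟨s - 1, sub_mem s1 (one_mem _), fun W hW hx => sub_mem
    (s2 W hW ((W.mem_or_inv_mem u).resolve_left hx)) (one_mem _), s3, fun W hW hx e => ?_⟩
  obtain ⟨W', hW', a⟩ := h3 W hW hx
  by_contra n
  have e' := (agr_lt a s1).2 (s4 W' (Finset.mem_filter.2
    ⟨hW', fun b => n fun y hy => (a y hy).trans (b y hy)⟩))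
  have := W.valuation.map_sub_lt e' e
  simp at this

end TPX

open TPX TP in
theorem blockTPX (hT : StmtTPD) (hA : StmtADM) : StmtTPX := by
  intro p _ k 𝕜 Ω Ω' _ _ _ _ _ _ _ _ _ _ _ _ _ _ ι F u hF hσ G _ _ ρ' hρ hunr S hS I _ U hU
  classical
  have := Fintype.ofFinite G
  have := Fintype.ofFinite I
  have : CharP 𝕜 p := charP_of_injective_algebraMap (algebraMap k 𝕜).injective p
  have hE := rx.extf k 𝕜 Ω Ω' ι F u hF hσ
  have sp := blockSpec found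
  obtain ⟨y, y1, y2, y3⟩ := found.str p 𝕜 Ω' (ι u) hσ _ hE.le G ρ' hρ
  have hy : Alg (Ext 𝕜 ι F) ρ' y :=
    ⟨fun g => sep_up (adjoin_simple_le_iff.2 hE.mem) (y2 g).1, y3⟩
  obtain ⟨A, hAF⟩ := hF.fg
  have hAm : ∀ a ∈ A, a ∈ F := fun a ha => hAF ▸ subset_adjoin k _ ha
  have plc : ∀ W : ValuationSubring Ω', IsPl 𝕜 W → ι u ∉ W → IsPl k (W.comap ι.toRingHom) ∧
      ∀ s, (W.comap ι.toRingHom).valuation s < 1 ↔ W.valuation (ι s) < 1 := fun W h1 h2 =>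
    let h := (rx.plc k 𝕜 Ω Ω' ι u hF.co hσ W h1).resolve_left fun h => h2 (h.1 u)
    ⟨h.1, h.2.1⟩
  choose s s1 s2 s3 s4 using fun i => exists_mark hF (plc _ (hU i).1 (hU i).2).1 (hU i).2
  obtain ⟨H, _, _, τ, t1, t2, t3⟩ := fb1.core p 𝕜 Ω' _ _ hE G ρ' hρ (S.image ι)
  have inE : ∀ a ∈ F, IsSeparable 𝕜⟮ι u⟯ (ι a) ∧ ∀ δ ∈ Gam 𝕜 (ι u), τ δ = 1 → δ (ι a) = ι a :=
    fun a ha => ⟨hE.sep _ (mem_Ext ι ha), fun δ h1 h2 => fix_apply (t3 δ h1 h2).1 (mem_Ext ι ha)⟩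
  choose R R1 R2 using fun i => hT p k 𝕜 Ω Ω' (ι u) u hσ hF.co H τ t1 t2 (U i) (ι (s i)) (hU i).1
    (hU i).2 (inE _ (s1 i)).1 (inE _ (s1 i)).2 (fun W h1 h2 => s2 i _ (plc W h1 h2).1 h2)
    (((plc _ (hU i).1 (hU i).2).2 _).1 (s3 i))
  let B : Finset Ω' := (S ∪ A).image ι ∪ (Finset.univ.image y ∪ Finset.univ.biUnion R)
  have B1 : ∀ a ∈ S ∪ A, ι a ∈ B := fun a ha =>
    Finset.mem_union_left _ (Finset.mem_image_of_mem _ ha)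
  have B2 : ∀ g, y g ∈ B := fun g => by simp [B]
  have B3 : ∀ i, ∀ a ∈ R i, a ∈ B := fun i a ha => Finset.mem_union_right _
    (Finset.mem_union_right _ (Finset.mem_biUnion.2 ⟨i, Finset.mem_univ _, ha⟩))
  obtain ⟨T, hT0, hev⟩ := ev_and (blockSpecRep found blockNoe sp p k 𝕜 Ω Ω' (ι u) u hσ hF.co H τ
    t1 t2 B (by
      intro b hb
      simp only [B, Finset.mem_union, Finset.mem_image, Finset.mem_biUnion] at hb
      rcases hb with ⟨a, ha | ha, rfl⟩ | ⟨g, -, rfl⟩ | ⟨i, -, hi⟩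
      · exact ⟨sep_down hE (rx.sep k 𝕜 Ω Ω' ι F a (hS a ha)),
          fun δ h1 h2 => (t3 δ h1 h2).2.2 _ (Finset.mem_image_of_mem _ ha)⟩
      · exact inE a (hAm a ha)
      · exact ⟨(y2 g).1, fun δ h1 h2 => by rw [y3 δ (t3 δ h1 h2).1, (t3 δ h1 h2).2.1, one_mul]⟩
      · exact R1 i b hi))
    (ev_and (ev_all R2) (ev_all fun gh : {x : G × G // x.1 ≠ x.2} =>
      sp.ne k 𝕜 Ω Ω' (ι u) u hσ hF.co.tr _ (sub_ne_zero.2 (y1.ne gh.2))))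
  obtain ⟨O, ψ0, a0, hO⟩ := sp.ex k 𝕜 Ω Ω' (ι u) u hσ.tr T hT0
  obtain ⟨ψ, a1, a2, a3, a4⟩ := hA k 𝕜 Ω Ω' ι u hF.co hσ O ψ0 a0
  obtain ⟨⟨τ', r1, r2, r3⟩, e1, e2⟩ := hev O ψ a1 hO
  have yO : ∀ g, y g ∈ O := fun g => (r3 _ (B2 g)).2.1 1 (one_mem _)
  have hc : Cert (Ext 𝕜 ι F) ρ' O := vand.vand k 𝕜 Ω' _ G ρ' O a1.memk fun h hh =>
    ⟨y, hy, yO 1, fun e => ((lt_iff _ _).1 e).elim (sub_ne_zero.2 (y1.ne hh))
      fun n => n (a1.unit _ (e2 ⟨(h, 1), hh⟩).1 (e2 ⟨(h, 1), hh⟩).2)⟩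
  obtain ⟨β, hβ⟩ := rrep.ex k 𝕜 Ω Ω' ι O a3 F u hF hσ G ρ' hc
  have k1 : ∀ γ ∈ Gam k u, ∀ δ ∈ Gam 𝕜 (ι u), τ δ = τ' γ → ∀ a ∈ S ∪ A, ι (γ a) = δ (ι a) :=
    fun γ hγ δ hδ e a ha => by
      have := (r3 _ (B1 a ha)).2.2 γ hγ δ hδ e
      have e2 := found.res.spec k 𝕜 Ω Ω' u hF.co ι δ hδ a
      rw [a2, ← e2, a2] at this
      rw [this, e2]
  have k2 : ∀ γ ∈ Gam k u, ∀ δ ∈ Gam 𝕜 (ι u), τ δ = τ' γ →
      (γ ∈ F.fixingSubgroup ↔ δ ∈ (Ext 𝕜 ι F).fixingSubgroup) := fun γ hγ δ hδ e => by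
    rw [← hAF, rx.ext1, fix_adj, fix_adj, Set.forall_mem_image]
    refine forall₂_congr fun a ha => ?_
    rw [← k1 γ hγ δ hδ e a (Finset.mem_union_right _ ha)]
    exact ι.injective.eq_iff.symm
  have k3 : ∀ γ ∈ F.fixingSubgroup, ∀ δ ∈ (Ext 𝕜 ι F).fixingSubgroup, τ δ = τ' γ →
      β γ = ρ' δ ∧ ∀ a ∈ S, ι (γ a) = δ (ι a) := fun γ hγ δ hδ e => by
    refine ⟨?_, fun a ha => k1 γ (hF.le hγ) δ (hE.le hδ) e a (Finset.mem_union_left _ ha)⟩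
    have q1 := (hβ.down y (fun g => ψ (y g)) hy fun g => a4 _ (yO g)).2 γ hγ 1
    rw [(r3 _ (B2 1)).2.2 γ (hF.le hγ) δ (hE.le hδ) e, y3 δ hδ, mul_one, mul_one] at q1
    by_contra n
    exact (e2 ⟨(_, _), n⟩).2 (by rw [psi_sub a1 (yO _) (yO _), q1, sub_self])
  refine ⟨β, hβ.rep, fun W hW hu => red2 p k 𝕜 Ω Ω' ι O a3 F u hF hσ W hW G ρ' β hc hβ
    fun W' hW' => hunr W' hW'.1 ?_, fun δ hδ => ?_, fun i => ?_⟩
  · obtain ⟨c, hc⟩ := found.bas.resid k Ω u hF.co W hW u hu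
    obtain ⟨c', -, h⟩ := hW'.2 _ (sub_mem hF.mem (F.algebraMap_mem c)) hc
    have := add_mem (add_mem ((W'.valuation_le_one_iff _).1 h.le) (hW'.1.2 c'))
      (hW'.1.2 (algebraMap k 𝕜 c))
    simpa [← IsScalarTower.algebraMap_apply] using this
  · obtain ⟨γ, hγ, e⟩ := r2 (τ δ)
    have := (k2 γ hγ δ (hE.le hδ) e.symm).2 hδ
    exact ⟨γ, this, k3 γ this δ hδ e.symm⟩
  · obtain ⟨W, w1, w2, w3, w4⟩ := e1 i τ' r1 r2 fun b hb => r3 b (B3 i b hb)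
    rw [a2] at w3
    refine ⟨W, w1, fun a ha => (s4 i W w1 w2 w3 a ha).symm, fun δ hδ => ?_, fun γ hγ => ?_⟩
    · obtain ⟨γ, hγ, e⟩ : τ δ ∈ τ' '' (Dec k u W : Set (Aut k Ω)) :=
        w4 ▸ ⟨δ, ⟨hE.le hδ.1, hδ.2⟩, rfl⟩
      have := (k2 γ hγ.1 δ (hE.le hδ.1) e.symm).2 hδ.1
      exact ⟨γ, ⟨this, hγ.2⟩, k3 γ this δ hδ.1 e.symm⟩
    · obtain ⟨δ, hδ, e⟩ : τ' γ ∈ τ '' (Dec 𝕜 (ι u) (U i) : Set (Aut 𝕜 Ω')) :=
        w4 ▸ ⟨γ, ⟨hF.le hγ.1, hγ.2⟩, rfl⟩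
      have := (k2 γ (hF.le hγ.1) δ hδ.1 e).1 hγ.1
      exact ⟨δ, ⟨this, hδ.2⟩, k3 γ hγ.1 δ this e⟩

end Pool.Agent.Lib.IW2
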