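import Pool.Agent.Lib.IW2.All1
import Pool.Agent.Lib.IW2.Blue3

/-! Block TRX: a trace element regular at all finite tame places. -/

open Polynomial IntermediateField
open scoped Pointwise

namespace Pool.Agent.Lib.IW2

open Pool.Agent.Lib.IW

namespace TRX

variable {k Ω : Type} [Field k] [Field Ω] [Algebra k Ω] {G : Type} [Group G]
  {F L : IntermediateField k Ω} {ρ : Aut k Ω → G}

lemma same (h : IsRep F.fixingSubgroup ρ)
    (hL : ∀ γ : Aut k Ω, γ ∈ L.fixingSubgroup ↔ γ ∈ F.fixingSubgroup ∧ ρ γ = 1) {γ δ : Aut k Ω}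
    (hγ : γ ∈ F.fixingSubgroup) (hδ : δ ∈ F.fixingSubgroup) (e : ρ γ = ρ δ) {s : Ω}
    (hs : s ∈ L) : γ s = δ s := by
  have h1 : δ⁻¹ * γ ∈ L.fixingSubgroup := (hL _).2 ⟨mul_mem (inv_mem hδ) hγ, by
    rw [h.mul _ (inv_mem hδ) _ hγ, h.inv hδ, e, inv_mul_cancel]⟩
  have h2 := congrArg δ (fix_apply h1 hs)
  rwa [← AlgEquiv.mul_apply, mul_inv_cancel_left] at h2

lemma agr_dec [IsAlgClosed Ω] (hal : ∀ y : Ω, IsAlgebraic L y) (h : IsRep F.fixingSubgroup ρ)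
    (hL : ∀ γ : Aut k Ω, γ ∈ L.fixingSubgroup ↔ γ ∈ F.fixingSubgroup ∧ ρ γ = 1)
    {W : ValuationSubring Ω} {γ : Aut k Ω} (hγ : γ ∈ F.fixingSubgroup)
    (h2 : Agr L (γ⁻¹ • W) W) : ∃ δ ∈ DecF F W, ρ δ = ρ γ := by
  obtain ⟨δ₂, hδ₂, e₂⟩ := found.conj k Ω L hal _ _ h2
  obtain ⟨a₂, b₂⟩ := (hL _).1 hδ₂
  have a₃ : γ * δ₂⁻¹ ∈ F.fixingSubgroup := mul_mem hγ (inv_mem a₂)
  refine ⟨γ * δ₂⁻¹, ⟨a₃, ?_⟩, ?_⟩
  · change (γ * δ₂⁻¹) • W = W
    conv_lhs => rw [← e₂]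
    rw [mul_smul, inv_smul_smul, smul_inv_smul]
  · rw [h.mul _ hγ _ (inv_mem a₂), h.inv a₂, b₂]
    simp

lemma tame_smul {p : ℕ} (h : IsRep F.fixingSubgroup ρ) {W : ValuationSubring Ω}
    (ht : Tame p ρ (DecF F W)) {γ : Aut k Ω} (hγ : γ ∈ F.fixingSubgroup) :
    Tame p ρ (DecF F (γ • W)) := fun δ hδ => by
  obtain ⟨n, hn, e⟩ := ht _ ((conj_mem_DecF hγ).2 hδ)
  refine ⟨n, hn, ?_⟩
  have h1 := DecF_le F _ hδ
  rw [h.mul _ (mul_mem (inv_mem hγ) h1) _ hγ, h.mul _ (inv_mem hγ) _ h1, h.inv hγ] at e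
  have h2 : ((ρ γ)⁻¹ * ρ δ * ρ γ) ^ n = (ρ γ)⁻¹ * ρ δ ^ n * ρ γ := by
    have := conj_pow (i := n) (a := (ρ γ)⁻¹) (b := ρ δ)
    rwa [inv_inv] at this
  rw [h2, mul_assoc, inv_mul_eq_one] at e
  exact (mul_eq_right.1 e.symm)

lemma not_dvd {p : ℕ} [Fact p.Prime] [Finite G] {Γ : Subgroup (Aut k Ω)} (h : IsRep Γ ρ)
    (ht : Tame p ρ Γ) : ¬ p ∣ Nat.card h.im := fun hd => by
  obtain ⟨g, hg⟩ := exists_prime_orderOf_dvd_card' p hd
  obtain ⟨γ, hγ, e⟩ := h.mem_im.1 g.2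
  obtain ⟨n, hn, e'⟩ := ht γ hγ
  refine hn ?_
  rw [← hg, ← Subgroup.orderOf_coe, ← e]
  exact orderOf_dvd_of_pow_eq_one e'

variable (F ρ) in
/-- Invariant elements that are regular at all finite tame places. -/
def RT (p : ℕ) (x : Ω) : Subring Ω where
  carrier := {y | (∀ γ ∈ F.fixingSubgroup, γ y = y) ∧
    ∀ W : ValuationSubring Ω, IsPl k W → x ∈ W → Tame p ρ (DecF F W) → y ∈ W}
  mul_mem' := fun ha hb => ⟨fun γ hγ => by rw [map_mul, ha.1 γ hγ, hb.1 γ hγ],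
    fun W h1 h2 h3 => mul_mem (ha.2 W h1 h2 h3) (hb.2 W h1 h2 h3)⟩
  add_mem' := fun ha hb => ⟨fun γ hγ => by rw [map_add, ha.1 γ hγ, hb.1 γ hγ],
    fun W h1 h2 h3 => add_mem (ha.2 W h1 h2 h3) (hb.2 W h1 h2 h3)⟩
  one_mem' := ⟨fun γ _ => map_one γ, fun W _ _ _ => one_mem W⟩
  zero_mem' := ⟨fun γ _ => map_zero γ, fun W _ _ _ => zero_mem W⟩
  neg_mem' := fun ha => ⟨fun γ hγ => by rw [map_neg, ha.1 γ hγ],
    fun W h1 h2 h3 => neg_mem (ha.2 W h1 h2 h3)⟩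

end TRX

open TRX in
theorem blockTRX : StmtTRX := by
  classical
  intro p _ k Ω _ _ _ _ _ _ F x hF G _ _ ρ h
  by_cases hex : ∃ W₀ : ValuationSubring Ω, IsPl k W₀ ∧ x ∈ W₀ ∧ Tame p ρ (DecF F W₀)
  swap
  · obtain ⟨t, -, h1, h2⟩ := found.fld.tr p k Ω x hF.co _ hF.le G ρ h
    exact ⟨t, h1, h2, fun W a b c => absurd ⟨W, a, b, c⟩ hex⟩
  obtain ⟨W₀, hW₀, hx₀, ht₀⟩ := hex
  have hB := found.bas
  obtain ⟨y, hy, hinj, -⟩ := exists_alg_inj p hF h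
  let L : IntermediateField k Ω := F ⊔ k⟮y 1⟯
  have hfg : L.FG := IntermediateField.fg_sup hF.fg ⟨{y 1}, by simp⟩
  have hxL : x ∈ L := (le_sup_left : F ≤ L) hF.mem
  have hal : ∀ s : Ω, IsAlgebraic L s := Cert.alg_of_mem hF.co hxL
  have hfix : ∀ γ : Aut k Ω, γ ∈ L.fixingSubgroup ↔ γ ∈ F.fixingSubgroup ∧ ρ γ = 1 := by
    intro γ
    rw [IntermediateField.fixingSubgroup_sup, Subgroup.mem_inf, fix_adjoin (k := k), mem_Gam]
    refine and_congr_right fun hγ => ?_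
    rw [hy.2 γ hγ, mul_one, hinj.eq_iff]
  have := Fintype.ofFinite h.im
  choose! σ hσ hσ' using fun g (hg : g ∈ h.im) => h.mem_im.1 hg
  have hmul : ∀ γ ∈ F.fixingSubgroup, ∀ g ∈ h.im, ∀ s ∈ L, γ (σ g s) = σ (ρ γ * g) s := by
    intro γ hγ g hg s hs
    have h1 : ρ γ * g ∈ h.im := mul_mem (h.mem_im.2 ⟨γ, hγ, rfl⟩) hg
    refine same h hfix (mul_mem hγ (hσ g hg)) (hσ _ h1) ?_ hs
    rw [h.mul _ hγ _ (hσ g hg), hσ' g hg, hσ' _ h1]
  let J : Ideal (RT F ρ p x) :=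
    { carrier := {a | ∃ t : G → Ω, (∀ γ ∈ F.fixingSubgroup, ∀ g, γ (t g) = t (ρ γ * g)) ∧
        ∑ g : h.im, t g = a ∧ ∀ W : ValuationSubring Ω, IsPl k W → x ∈ W →
          Tame p ρ (DecF F W) → ∀ g, t g ∈ W}
      zero_mem' := ⟨fun _ => 0, fun γ _ _ => map_zero γ, by simp, fun W _ _ _ _ => zero_mem W⟩
      add_mem' := by
        rintro a b ⟨s, hs, hs1, hs2⟩ ⟨s', hs', hs1', hs2'⟩
        refine ⟨fun g => s g + s' g, fun γ hγ g => by rw [map_add, hs γ hγ, hs' γ hγ], ?_,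
          fun W a b c g => add_mem (hs2 W a b c g) (hs2' W a b c g)⟩
        rw [Finset.sum_add_distrib, hs1, hs1', Subring.coe_add]
      smul_mem' := by
        rintro c a ⟨s, hs, hs1, hs2⟩
        refine ⟨fun g => c * s g, fun γ hγ g => by rw [map_mul, hs γ hγ, c.2.1 γ hγ], ?_,
          fun W a b d g => mul_mem (c.2.2 W a b d) (hs2 W a b d g)⟩
        rw [← Finset.mul_sum, hs1, smul_eq_mul, Subring.coe_mul] }
  have hJ : J = ⊤ := by
    by_contra hJ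
    obtain ⟨W, hW, hRW, hJW⟩ := Cert.ex_place (RT F ρ p x)
      (fun c => ⟨fun γ _ => γ.commutes c, fun W a _ _ => a.2 c⟩) J hJ W₀ hW₀
      fun a ha => ha.2 W₀ hW₀ hx₀ ht₀
    have hxW : x ∈ W := hRW x ⟨fun γ hγ => fix_apply hγ hF.mem, fun _ _ b _ => b⟩
    have htW : Tame p ρ (DecF F W) := by
      by_contra hn
      obtain ⟨u, hu, hu'⟩ := pi.pi2 p k Ω F hF.ff {W} (Finset.singleton_nonempty W)
        fun V hV => Finset.mem_singleton.1 hV ▸ hW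
      refine (hu' W hW).2 ⟨W, Finset.mem_singleton_self W, fun _ _ => Iff.rfl⟩
        (hRW u ⟨fun γ hγ => fix_apply hγ hu.mem, fun W' a _ c => ?_⟩)
      by_contra hm
      obtain ⟨V, hV, hA⟩ := (hu' W' a).1 hm
      rw [Finset.mem_singleton.1 hV] at hA
      obtain ⟨γ, hγ, e⟩ := found.conj k Ω F hF.alg _ _ hA
      exact hn (e ▸ tame_smul h c hγ)
    let P : h.im → Prop := fun g => Agr L ((σ g)⁻¹ • W) W
    obtain ⟨s, hs, h1, h2, h3⟩ := found.unif.sepp k Ω x hF.co L hfg hxL W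
      ((Finset.univ.filter fun g => ¬ P g).image fun g : h.im => (σ g)⁻¹ • W) hW hxW (by
        intro W' hW'
        obtain ⟨g, hg, rfl⟩ := Finset.mem_image.1 hW'
        exact ⟨(hB.smulPl k Ω W hW _).1, (Cert.inv_mem_iff hB hW _ x).2 (by
          rwa [fix_apply (hσ g g.2) hF.mem]), (Finset.mem_filter.1 hg).2⟩)
    have hD := h.mono (DecF_le F W)
    have hP : ∀ g : h.im, P g ↔ (g : G) ∈ hD.im := fun g => by
      rw [hD.mem_im]
      constructor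
      · intro hg
        obtain ⟨δ, hδ, e⟩ := agr_dec hal h hfix (hσ g g.2) hg
        exact ⟨δ, hδ, e.trans (hσ' g g.2)⟩
      · rintro ⟨δ, hδ, e⟩ z hz
        have e1 : δ⁻¹ • W = W := inv_smul_eq_iff.2 (mem_DecF.1 hδ).2.symm
        rw [Cert.inv_mem_iff hB hW, same h hfix (hσ g g.2) (DecF_le F W hδ)
          ((hσ' g g.2).trans e.symm) hz, ← Cert.inv_mem_iff hB hW, e1]
    have hcard : (Finset.univ.filter P).card = Nat.card hD.im := by
      rw [← Fintype.card_subtype, ← Nat.card_eq_fintype_card]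
      refine Nat.card_congr ⟨fun g => ⟨g.1, (hP _).1 g.2⟩, fun g => ?_, ?_, ?_⟩
      · have hg : (g : G) ∈ h.im := by
          obtain ⟨δ, hδ, e⟩ := hD.mem_im.1 g.2
          exact h.mem_im.2 ⟨δ, DecF_le F W hδ, e⟩
        exact ⟨⟨g, hg⟩, (hP _).2 g.2⟩
      · intro g
        rfl
      · intro g
        rfl
    have hin : ∀ g : h.im, Intg k x (σ g s) := fun g => Cert.intg_map hB (hF.le (hσ g g.2)) h1
    let t : G → Ω := fun g => if g ∈ h.im then σ g s else 0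
    have ht1 : ∀ γ ∈ F.fixingSubgroup, ∀ g, γ (t g) = t (ρ γ * g) := fun γ hγ g => by
      have h4 : ρ γ * g ∈ h.im ↔ g ∈ h.im :=
        Subgroup.mul_mem_cancel_left _ (h.mem_im.2 ⟨γ, hγ, rfl⟩)
      by_cases hg : g ∈ h.im
      · simp only [t, hg, h4, if_true]
        exact hmul γ hγ g hg s hs
      · simp only [t, hg, h4, if_false, map_zero]
    have ht2 : ∑ g : h.im, t g = ∑ g : h.im, σ g s :=
      Finset.sum_congr rfl fun g _ => if_pos g.2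
    have ht3 : ∀ W' : ValuationSubring Ω, IsPl k W' → x ∈ W' → ∀ g, t g ∈ W' := by
      intro W' a b g
      by_cases hg : g ∈ h.im
      · simp only [t, hg, if_true]
        exact hin ⟨g, hg⟩ W' a b
      · simp only [t, hg, if_false]
        exact zero_mem W'
    have h5 : ∑ g : h.im, σ g s ∈ RT F ρ p x := by
      refine ⟨fun γ hγ => ?_, fun W' a b _ => sum_mem fun g _ => hin g W' a b⟩
      rw [map_sum, ← Equiv.sum_comp (Equiv.mulLeft (⟨ρ γ, h.mem_im.2 ⟨γ, hγ, rfl⟩⟩ : h.im))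
        fun g : h.im => σ g s]
      exact Finset.sum_congr rfl fun g _ => hmul γ hγ g g.2 s hs
    have h6 : W.valuation (∑ g : h.im, σ g s) < 1 :=
      hJW ⟨_, h5⟩ ⟨t, ht1, ht2, fun W' a b _ => ht3 W' a b⟩
    have h7 : W.valuation (∑ g : h.im, σ g s - (Nat.card hD.im : Ω)) < 1 := by
      rw [← hcard, Finset.card_filter, Nat.cast_sum, ← Finset.sum_sub_distrib]
      refine W.valuation.map_sum_lt one_ne_zero fun g _ => ?_
      by_cases hg : P g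
      · rw [if_pos hg, Nat.cast_one, ← map_one (σ g), ← map_sub, ← Cert.inv_lt_iff hB hW]
        exact Cert.agr_lt (fun z hz => (hg z hz).symm) (sub_mem hs (one_mem L)) h2
      · rw [if_neg hg, Nat.cast_zero, sub_zero, ← Cert.inv_lt_iff hB hW]
        exact h3 _ (Finset.mem_image_of_mem _ (Finset.mem_filter.2 ⟨Finset.mem_univ g, hg⟩))
    have h8 := W.valuation.map_sub_lt h6 h7
    rw [sub_sub_cancel] at h8
    have h9 : (Nat.card hD.im : k) ≠ 0 := fun e =>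
      not_dvd hD htW ((CharP.cast_eq_zero_iff k p _).1 e)
    rw [← map_natCast (algebraMap k Ω)] at h8
    rcases W.mem_nonunits_iff_or.1 h8 with h0 | h0
    · exact h9 ((map_eq_zero _).1 h0)
    · exact h0 (map_inv₀ (algebraMap k Ω) _ ▸ hW.2 _)
  obtain ⟨t, h1, h2, h3⟩ : (1 : RT F ρ p x) ∈ J := hJ ▸ Submodule.mem_top
  refine ⟨t, h1, ?_, h3⟩
  rw [← finsum_subtype_eq_finsum_cond, finsum_eq_sum_of_fintype]
  exact h2

end Pool.Agent.Lib.IW2
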