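import Pool.Agent.Lib.IW2.All1
import Pool.Agent.Lib.IW2.Blue4

/-! The outer cover: lifting with a prescribed tame inertia generator. -/

open Polynomial IntermediateField
open scoped Pointwise

namespace Pool.Agent.Lib.IW2

open Pool.Agent.Lib.IW

namespace WS

section

variable {k Ω : Type} [Field k] [Field Ω] [Algebra k Ω] {G G' : Type} [Group G] [Group G']

lemma lam_conj {ρ : Aut k Ω → G} {Γ : Subgroup (Aut k Ω)} {q ω : Ω} {c : G} (h : Lam ρ Γ q ω c)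
    (g : G) : Lam (fun γ => g * ρ γ * g⁻¹) Γ q ω (g * c * g⁻¹) := fun γ hγ i e => by
  rw [conj_pow, ← h γ hγ i e]

lemma not_dvd {p M : ℕ} [Fact p.Prime] [Finite G] (hM : ¬ p ∣ M) (h : ∀ g : G, g ^ M = 1) :
    ¬ p ∣ Nat.card G := fun hd => by
  obtain ⟨g, hg⟩ := exists_prime_orderOf_dvd_card' p hd
  exact hM (hg ▸ orderOf_dvd_of_pow_eq_one (h g))

lemma sub_pow {M : ℕ} (h : ∀ g : G, g ^ M = 1) (D : Subgroup G) (g : D) : g ^ M = 1 :=
  Subtype.ext (h g)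

lemma mem_of_lt {W : ValuationSubring Ω} (hW : IsPl k W) {x : Ω} {a : k}
    (h : W.valuation (x - algebraMap k Ω a) < 1) : x ∈ W := by
  have h1 : x - algebraMap k Ω a ∈ W := (W.valuation_le_one_iff _).1 h.le
  simpa using W.add_mem _ _ h1 (hW.2 a)

/-- The conclusion for the generator `y`. -/
def Pr (F : IntermediateField k Ω) (q ω : Ω) (W W₁ : ValuationSubring Ω) (φ : G →* G')
    (a : Aut k Ω → G') (y : G) : Prop :=
  ∃ α : Aut k Ω → G, IsRep F.fixingSubgroup α ∧ (∀ γ ∈ F.fixingSubgroup, φ (α γ) = a γ) ∧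
    (∃ W' : ValuationSubring Ω, IsPl k W' ∧ Agr F W' W ∧ Lam α (DecF F W') q ω y) ∧
    ∀ U : ValuationSubring Ω, IsPl k U → ¬ Agr F W U → ¬ Agr F W₁ U →
      Triv a (DecF F U) → Triv α (DecF F U)

lemma pr_conj [IsAlgClosed k] [IsAlgClosed Ω] {F : IntermediateField k Ω} {q : Ω} {ω : k} {M : ℕ}
    (hM : 0 < M) (hq : q ≠ 0) (hqF : q ^ M ∈ F) {W W₁ : ValuationSubring Ω} {φ : G →* G'}
    {a : Aut k Ω → G'} (ha : ∀ g, ∃ γ ∈ F.fixingSubgroup, a γ = g) {y : G}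
    (h : Pr F q (algebraMap k Ω ω) W W₁ φ a y) (g : G) :
    Pr F q (algebraMap k Ω ω) W W₁ φ a (g * y * g⁻¹) := by
  obtain ⟨α, h1, h2, ⟨W', h3, h4, h5⟩, h6⟩ := h
  obtain ⟨δ, hδ, e⟩ := ha (φ g)
  have hv : φ (g * (α δ)⁻¹) = 1 := by rw [map_mul, map_inv, h2 δ hδ, e, mul_inv_cancel]
  refine ⟨fun γ => g * (α δ)⁻¹ * α γ * (g * (α δ)⁻¹)⁻¹, h1.conj _, fun γ hγ => ?_,
    ⟨δ • W', (found.bas.smulPl k Ω W' h3 δ).1,
      fun s hs => ((Ind.agr_smul hδ W' s hs).symm.trans (h4 s hs)), ?_⟩,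
    fun U u1 u2 u3 u4 γ hγ => ?_⟩
  · rw [map_mul, map_mul, map_inv, hv, h2 γ hγ, one_mul, inv_one, mul_one]
  · have h7 := lam_conj (loc.lamA k Ω F G α h1 W' q M ω y hM hq hqF h5 δ hδ) (g * (α δ)⁻¹)
    have h8 : g * (α δ)⁻¹ * (α δ * y * (α δ)⁻¹) * (g * (α δ)⁻¹)⁻¹ = g * y * g⁻¹ := by group
    rwa [h8] at h7
  · beta_reduce
    rw [h6 U u1 u2 u3 u4 γ hγ, mul_one, mul_inv_cancel]

end

/-- The inner cover attached to a solvable pair. -/
lemma inner (hS : StmtSOLV) (p : ℕ) [Fact p.Prime] {k Ω : Type} [Field k] [IsAlgClosed k]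
    [CharP k p] [Field Ω] [IsAlgClosed Ω] [Algebra k Ω] {x q : Ω} {M : ℕ} {ω : k} (hx : Co k x)
    (hM : ¬ p ∣ M) (hω : IsPrimitiveRoot ω M) (hq : q ^ M = x) {G G' : Type} [Group G] [Finite G]
    [Group G'] (φ : G →* G') (hG : ∀ g : G, g ^ M = 1) (hsol : Group.IsSolvable G) {y z : G}
    (hyz : φ y = φ z) {V V₀ : ValuationSubring Ω} (hV : IsPl k V) (hxV : x ∉ V) (hV₀ : IsPl k V₀)
    (hx₀ : V₀.valuation x < 1) :
    ∃ (β : Aut k Ω → G) (u : G), IsRep (Gam k x) β ∧ Lam β (Dec k x V) q (algebraMap k Ω ω) y ∧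
      Lam β (Dec k x V₀) q (algebraMap k Ω ω) (u * z * u⁻¹) ∧
      (∀ U : ValuationSubring Ω, IsPl k U → U.valuation x = 1 → ¬ U.valuation (x - 1) < 1 →
        Triv β (Dec k x U)) ∧
      Lam (fun γ => φ (β γ)) (Gam k x) q (algebraMap k Ω ω) (φ y) := by
  have hM0 : 0 < M := Nat.pos_of_ne_zero fun h => hM (h ▸ dvd_zero p)
  obtain ⟨χ, c1, c2, c3⟩ := loc.kum p k Ω x hx x q M ω hM hω hx.ne_zero hq G y (hG y)
  obtain ⟨χ', d1, d2, -⟩ := loc.kum p k Ω x hx x q M ω hM hω hx.ne_zero hq G z (hG z)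
  obtain ⟨V₁, hV₁, hx₁⟩ := found.bas.exAt k Ω x hx 1
  have hx₀' : V₀.valuation (x - algebraMap k Ω 0) < 1 := by simpa using hx₀
  have mx := mem_adjoin_simple_self k x
  have hcc : ∀ γ ∈ Gam k x, φ (χ' γ) = φ (χ γ) := fun γ hγ => by
    obtain ⟨i, hi⟩ := loc.expo k Ω q M ω hω hM0 γ (by rw [hq]; exact hγ)
    rw [c2 γ hγ i hi, d2 γ hγ i hi, map_pow, map_pow, hyz]
  have hk : ¬ p ∣ Nat.card φ.rangeRestrict.ker := not_dvd hM (sub_pow hG _)
  obtain ⟨β, b1, b2, b3, b4⟩ := hS p k Ω k⟮x⟯ x (fs_self hx) G φ.range φ.rangeRestrict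
    φ.rangeRestrict_surjective inferInstance hk (fun γ => φ.rangeRestrict (χ γ))
    (by rw [fix_adjoin]; exact c1.comp _) Bool (fun i => cond i V V₀) V₁ (fun i => cond i χ χ')
    (fun i => by cases i; exacts [hV₀, hV]) hV₁
    (fun i j h => by
      cases i <;> cases j
      · rfl
      · exact absurd ((h x mx).1 (mem_of_lt hV₀ hx₀')) hxV
      · exact absurd ((h x mx).2 (mem_of_lt hV₀ hx₀')) hxV
      · rfl)
    (fun i h => by
      cases i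
      · exact PicA.not_agr hV₀ mx hx₀' hx₁ zero_ne_one h
      · exact hxV ((h x mx).2 (mem_of_lt hV₁ hx₁)))
    (fun i => by
      rw [DecF_adjoin]
      cases i
      exacts [d1.mono (Dec_le _ _), c1.mono (Dec_le _ _)])
    (fun i γ hγ => by
      rw [DecF_adjoin] at hγ
      cases i
      · exact Subtype.ext (hcc γ (Dec_le _ _ hγ))
      · rfl)
  rw [fix_adjoin] at b1 b2
  obtain ⟨v, hv, e⟩ := b3 true
  obtain ⟨v₀, -, e₀⟩ := b3 false
  rw [DecF_adjoin] at e e₀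
  have hv1 : φ v = 1 := congrArg Subtype.val (MonoidHom.mem_ker.1 hv)
  refine ⟨fun γ => v⁻¹ * β γ * v⁻¹⁻¹, v⁻¹ * v₀, b1.conj _, fun γ hγ i hi => ?_,
    fun γ hγ i hi => ?_, fun U u1 u2 u3 γ hγ => ?_, fun γ hγ i hi => ?_⟩
  · beta_reduce
    rw [e γ hγ, ← c2 γ (Dec_le _ _ hγ) i hi]
    simp only [cond]
    group
  · beta_reduce
    rw [e₀ γ hγ, conj_pow, ← d2 γ (Dec_le _ _ hγ) i hi]
    simp only [cond]
    group
  · have h1 := b4 U u1 (fun i h => by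
      cases i
      · exact absurd (MAX.agr_lt h mx hx₀) (by rw [u2]; exact lt_irrefl _)
      · exact hxV ((h x mx).2 ((U.valuation_le_one_iff x).1 u2.le)))
      (LG.not_agr_of_lt hx hx₁ (by simpa using u3))
      (fun δ hδ => by
        rw [DecF_adjoin] at hδ
        beta_reduce
        rw [c3 U u1 u2 δ hδ, map_one])
    rw [DecF_adjoin] at h1
    beta_reduce
    rw [h1 γ hγ, mul_one, mul_inv_cancel]
  · have h1 : φ (β γ) = φ (χ γ) := congrArg Subtype.val (b2 γ hγ)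
    beta_reduce
    rw [map_mul, map_mul, inv_inv, map_inv, hv1, h1, c2 γ hγ i hi, map_pow, inv_one, one_mul,
      mul_one]

end WS

open _root_.Pool.Agent.Lib.IW2.WS

theorem blockWS (hG2 : StmtGp2) (hG3 : StmtGp3) (hS : StmtSOLV) (hE : StmtEDGE) : StmtWS := by
  intro p _ k Ω _ _ _ _ _ _ F π q M ω hF hM hω hq W W₁ hW hu hW₁ hne hpole G G' _ _ _ φ hφ hG a ha
    hon y hy
  have hM0 : 0 < M := Nat.pos_of_ne_zero fun h => hM (h ▸ dvd_zero p)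
  have hq0 : q ≠ 0 := fun h => hu.2.1 (by rw [← hq, h, zero_pow hM0.ne'])
  have hqF : q ^ M ∈ F := hq ▸ hF.mem
  have hp := not_dvd hM hG
  -- the starting point
  obtain ⟨y₀, e₀, h₀⟩ : ∃ y₀, φ y₀ = φ y ∧ Pr F q (algebraMap k Ω ω) W W₁ φ a y₀ := by
    obtain ⟨D, d1, d2⟩ := hG3.supp G G' φ hφ
    obtain ⟨α, a1, a2, -, a4⟩ := hS p k Ω F π hF D G' (φ.comp D.subtype) d1 d2
      (not_dvd hM (sub_pow (sub_pow hG D) _)) a ha Empty (fun i => i.elim) W₁ (fun i => i.elim)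
      (fun i => i.elim) hW₁ (fun i => i.elim) (fun i => i.elim) (fun i => i.elim) fun i => i.elim
    have r := a1.comp D.subtype
    obtain ⟨τ, t1, t2, P, p1, -, -, p4⟩ := loc.str p k Ω F hF.ff W π q M ω hW hu hM (Or.inl hq) hω
      G _ (r.mono (DecF_le F W)) fun g => ⟨0, by simpa using hG g⟩
    have hP : ∀ b ∈ P, b = 1 := fun b hb => by
      obtain ⟨j, hj⟩ := p1 ⟨b, hb⟩
      have h1 : orderOf b ∣ p ^ j := orderOf_dvd_of_pow_eq_one (congrArg Subtype.val hj)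
      have h2 : orderOf b ∣ M := orderOf_dvd_of_pow_eq_one (hG b)
      have h3 : (p ^ j).Coprime M :=
        Nat.Coprime.pow_left j ((Nat.Prime.coprime_iff_not_dvd Fact.out).2 hM)
      exact orderOf_eq_one_iff.1 (Nat.eq_one_of_dvd_coprimes h3 h1 h2)
    refine ⟨D.subtype (α τ), ?_, _, r, a2, ⟨W, hW, fun _ _ => Iff.rfl, fun γ hγ i hi =>
      mul_inv_eq_one.1 (hP _ (p4 γ hγ i hi))⟩, fun U u1 _ u3 u4 γ hγ => ?_⟩
    · rw [← pow_one (φ y), ← hy τ t1 1 (by rw [pow_one]; exact t2)]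
      exact a2 τ (DecF_le F W t1)
    · beta_reduce
      rw [a4 U u1 (fun i => i.elim) u3 u4 γ hγ, map_one]
  obtain ⟨V, hV, hxV⟩ := found.bas.exInf k Ω π hF.co
  obtain ⟨V₀, hV₀, hx₀⟩ := found.bas.exAt k Ω π hF.co 0
  have hx₀' : V₀.valuation π < 1 := by simpa using hx₀
  have hk : ∀ z, z * y₀⁻¹ ∈ φ.ker ↔ φ z = φ y₀ := fun z => by
    rw [MonoidHom.mem_ker, map_mul, map_inv, mul_inv_eq_one]
  refine hG2 G φ.ker inferInstance y₀ (Pr F q (algebraMap k Ω ω) W W₁ φ a)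
    (fun z hz v _ => pr_conj hM0 hq0 hqF hon hz v) (fun c z hc hz hsol hP => ?_) h₀ y
    ((hk y).2 e₀.symm)
  obtain ⟨α, a1, a2, ⟨W', w1, w2, w3⟩, a4⟩ := hP
  let D : Subgroup G := Subgroup.closure {c, z}
  have hcD : c ∈ D := Subgroup.subset_closure (by simp)
  have hzD : z ∈ D := Subgroup.subset_closure (by simp)
  obtain ⟨β, u, b1, b2, b3, b4, b5⟩ := inner hS p hF.co hM hω hq (φ.comp D.subtype) (sub_pow hG D)
    hsol (y := ⟨c, hcD⟩) (z := ⟨z, hzD⟩) (((hk c).1 hc).trans ((hk z).1 hz).symm) hV hxV hV₀ hx₀'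
  obtain ⟨α', e1, e2, ⟨g, e3⟩, e4⟩ := hE p k Ω F π q π q M ω hF hF.co hM hω hq hq W' V V₀ w1
    (FB2.unif_agr hu w2) hV hxV hV₀ hx₀' G G' φ α (fun γ => D.subtype (β γ)) c
    ((u : G) * z * (u : G)⁻¹) hp a1 (b1.comp _) w3
    (fun γ hγ i hi => congrArg Subtype.val (b2 γ hγ i hi))
    (fun γ hγ i hi => congrArg Subtype.val (b3 γ hγ i hi))
    (fun U u1 u2 u3 γ hγ => congrArg Subtype.val (b4 U u1 u2 u3 γ hγ)) b5
  have h1 : Pr F q (algebraMap k Ω ω) W W₁ φ a (g⁻¹ * ((u : G) * z * (u : G)⁻¹) * g) := by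
    refine ⟨α', e1, fun γ hγ => (e2 γ hγ).trans (a2 γ hγ), ⟨W', w1, w2, e3⟩,
      fun U u1 u2 u3 u4 => e4 U u1 ?_ (fun h => u2 fun s hs => ?_) (a4 U u1 u2 u3 u4)⟩
    · by_contra h
      exact u3 fun s hs => (hpole U u1 h s hs).symm
    · exact ((h s hs).trans (w2 s hs)).symm
  have h2 := pr_conj hM0 hq0 hqF hon h1 ((u : G)⁻¹ * g)
  have h3 : (u : G)⁻¹ * g * (g⁻¹ * ((u : G) * z * (u : G)⁻¹) * g) * ((u : G)⁻¹ * g)⁻¹ = z := by
    group
  rwa [h3] at h2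

end Pool.Agent.Lib.IW2
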