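import Pool.Agent.Lib.IW2.ADM
import Pool.Agent.Lib.IW2.APXF
import Pool.Agent.Lib.IW2.ASG
import Pool.Agent.Lib.IW2.ASG1
import Pool.Agent.Lib.IW2.ASMX
import Pool.Agent.Lib.IW2.AUT
import Pool.Agent.Lib.IW2.BR
import Pool.Agent.Lib.IW2.CHAIN
import Pool.Agent.Lib.IW2.Cor
import Pool.Agent.Lib.IW2.DEF
import Pool.Agent.Lib.IW2.EDGE
import Pool.Agent.Lib.IW2.FRL1
import Pool.Agent.Lib.IW2.FRL2
import Pool.Agent.Lib.IW2.FRX
import Pool.Agent.Lib.IW2.G0A
import Pool.Agent.Lib.IW2.G0B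
import Pool.Agent.Lib.IW2.GLUE
import Pool.Agent.Lib.IW2.GP1
import Pool.Agent.Lib.IW2.GP2
import Pool.Agent.Lib.IW2.GSEP
import Pool.Agent.Lib.IW2.Gp1
import Pool.Agent.Lib.IW2.Gp2
import Pool.Agent.Lib.IW2.Gp3
import Pool.Agent.Lib.IW2.HAHN1
import Pool.Agent.Lib.IW2.HAHN2
import Pool.Agent.Lib.IW2.INDX
import Pool.Agent.Lib.IW2.INNER
import Pool.Agent.Lib.IW2.JOIN
import Pool.Agent.Lib.IW2.KG
import Pool.Agent.Lib.IW2.LEFT
import Pool.Agent.Lib.IW2.LGX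
import Pool.Agent.Lib.IW2.MAIN
import Pool.Agent.Lib.IW2.MAXP
import Pool.Agent.Lib.IW2.N1
import Pool.Agent.Lib.IW2.N2
import Pool.Agent.Lib.IW2.NEAR
import Pool.Agent.Lib.IW2.ONS
import Pool.Agent.Lib.IW2.PATCH
import Pool.Agent.Lib.IW2.PDX
import Pool.Agent.Lib.IW2.PIND
import Pool.Agent.Lib.IW2.RAY
import Pool.Agent.Lib.IW2.SOLV
import Pool.Agent.Lib.IW2.SOLV1
import Pool.Agent.Lib.IW2.STAR0
import Pool.Agent.Lib.IW2.STAR1
import Pool.Agent.Lib.IW2.TPD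
import Pool.Agent.Lib.IW2.TPX
import Pool.Agent.Lib.IW2.TRX
import Pool.Agent.Lib.IW2.WS

/-! Assembly of all blocks. -/

namespace Pool.Agent.Lib.IW2

theorem star1 : StmtSTAR1 :=
  blockSTAR1 blockGP1 (blockNEAR blockGP1 blockGP2)
    (blockLEFT blockGP1 blockGP2 (blockDEF blockN1 blockN2 blockMAXP) blockGSEP)

theorem glue0 : StmtGLUE0 :=
  glue0_of (blockG0A (blockPDX blockHAHN1 (blockHAHN2 blockN1) blockONS) blockFRX blockFRL1
      (blockAPXF blockFRL1) (blockASG blockTRX blockPIND blockASG1))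
    (blockG0B blockAUT blockFRX blockFRL1 (blockFRL2 blockFRL1) blockPATCH)

theorem glue : StmtGLUE := blockGLUE glue0 (blockTPX blockTPD blockADM)

theorem star0 : StmtSTAR0 := blockSTAR0 glue0 star1

theorem solv : StmtSOLV := blockSOLV blockPIND (blockSOLV1 (blockLGX blockINDX))

theorem ray : StmtRAY := blockRAY blockGp1 blockGp3 star0 (blockJOIN glue)

theorem inner : StmtINNER :=
  blockINNER blockGp3 (blockKG (blockASMX blockTRX blockPIND)) (blockJOIN glue) ray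
    (blockCHAIN blockGp3 star0 glue)

theorem mainThm : StmtMAIN :=
  blockMAIN blockGp3 glue inner (blockWS blockGp2 blockGp3 solv (blockEDGE blockGP1 glue0))

end Pool.Agent.Lib.IW2
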