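import Pool.Agent.Lib.IW2.Defs

/-! Block statements, part one: fields, places, reduction. See `iw2_PLAN.md` in the team store. -/

open Polynomial IntermediateField
open scoped Pointwise

namespace Pool.Agent.Lib.IW2

open Pool.Agent.Lib.IW

/-! ### Function fields and places -/

/-- Inseparable elements, separating uniformisers, normal cores, finiteness of ramification. -/
structure StmtFB1 : Prop where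
  ins : ∀ (p : ℕ) [Fact p.Prime] (k Ω : Type) [Field k] [IsAlgClosed k] [CharP k p] [Field Ω]
    [IsAlgClosed Ω] [Algebra k Ω] (x s : Ω), IsAlgebraic k⟮x⟯ s → ¬ IsSeparable k⟮x⟯ s →
      ∃ z ∈ k⟮x, s⟯, z ^ p = x
  sepu : ∀ (p : ℕ) [Fact p.Prime] (k Ω : Type) [Field k] [IsAlgClosed k] [CharP k p] [Field Ω]
    [IsAlgClosed Ω] [Algebra k Ω] (F : IntermediateField k Ω), FF F →
      ∀ (W : ValuationSubring Ω) (π : Ω), IsPl k W → IsUnif F W π → FS F π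
  core : ∀ (p : ℕ) [Fact p.Prime] (k Ω : Type) [Field k] [IsAlgClosed k] [CharP k p] [Field Ω]
    [IsAlgClosed Ω] [Algebra k Ω] (F : IntermediateField k Ω) (x : Ω), FS F x →
      ∀ (G : Type) [Group G] [Finite G] (ρ : Aut k Ω → G), IsRep F.fixingSubgroup ρ →
        ∀ S : Finset Ω, ∃ (H : Type) (_ : Group H) (_ : Finite H) (τ : Aut k Ω → H),
          IsRep (Gam k x) τ ∧ (∀ h, ∃ γ ∈ Gam k x, τ γ = h) ∧ ∀ γ ∈ Gam k x, τ γ = 1 →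
            γ ∈ F.fixingSubgroup ∧ ρ γ = 1 ∧ ∀ s ∈ S, γ s = s
  trivA : ∀ (k Ω : Type) [Field k] [Field Ω] [IsAlgClosed Ω] [Algebra k Ω]
    (F : IntermediateField k Ω), FF F → ∀ (G : Type) [Group G] (ρ : Aut k Ω → G),
      IsRep F.fixingSubgroup ρ → ∀ W W' : ValuationSubring Ω, Agr F W W' →
        Triv ρ (DecF F W) → Triv ρ (DecF F W')
  finx : ∀ (p : ℕ) [Fact p.Prime] (k Ω : Type) [Field k] [IsAlgClosed k] [CharP k p] [Field Ω]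
    [IsAlgClosed Ω] [Algebra k Ω] (F : IntermediateField k Ω), FF F →
      ∀ (G : Type) [Group G] [Finite G] (ρ : Aut k Ω → G), IsRep F.fixingSubgroup ρ →
        ∃ T : Finset (ValuationSubring Ω), (∀ V ∈ T, IsPl k V ∧ ¬ Triv ρ (DecF F V)) ∧
          (∀ V ∈ T, ∀ V' ∈ T, Agr F V V' → V = V') ∧
          ∀ W, IsPl k W → ¬ Triv ρ (DecF F W) → ∃ V ∈ T, Agr F W V

/-- Adjoining a root of a uniformiser is totally ramified. -/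
def StmtFB2 : Prop := ∀ (k Ω : Type) [Field k] [IsAlgClosed k] [Field Ω] [IsAlgClosed Ω]
  [Algebra k Ω] (F : IntermediateField k Ω), FF F → ∀ (W : ValuationSubring Ω) (π q : Ω) (M : ℕ),
    IsPl k W → IsUnif F W π → 0 < M → q ^ M = π → FF (F ⊔ k⟮q⟯) ∧ IsUnif (F ⊔ k⟮q⟯) W q ∧
      ∀ W' : ValuationSubring Ω, IsPl k W' → Agr F W' W → Agr (F ⊔ k⟮q⟯) W' W

/-- Local structure of representations; Kummer and Artin-Schreier representations. -/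
structure StmtLOC : Prop where
  expo : ∀ (k Ω : Type) [Field k] [Field Ω] [Algebra k Ω] (q : Ω) (M : ℕ) (ω : k),
    IsPrimitiveRoot ω M → 0 < M → ∀ γ : Aut k Ω, γ (q ^ M) = q ^ M →
      ∃ i : ℕ, γ q = algebraMap k Ω ω ^ i * q
  tau : ∀ (p : ℕ) [Fact p.Prime] (k Ω : Type) [Field k] [IsAlgClosed k] [CharP k p] [Field Ω]
    [IsAlgClosed Ω] [Algebra k Ω] (F : IntermediateField k Ω), FF F →
      ∀ (W : ValuationSubring Ω) (π q ω : Ω) (M : ℕ), IsPl k W → IsUnif F W π → ¬ p ∣ M →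
        (q ^ M = π ∨ q ^ M = π⁻¹) → ω ^ M = 1 → ∃ τ ∈ DecF F W, τ q = ω * q
  str : ∀ (p : ℕ) [Fact p.Prime] (k Ω : Type) [Field k] [IsAlgClosed k] [CharP k p] [Field Ω]
    [IsAlgClosed Ω] [Algebra k Ω] (F : IntermediateField k Ω), FF F →
      ∀ (W : ValuationSubring Ω) (π q : Ω) (M : ℕ) (ω : k), IsPl k W → IsUnif F W π → ¬ p ∣ M →
        (q ^ M = π ∨ q ^ M = π⁻¹) → IsPrimitiveRoot ω M →
        ∀ (G : Type) [Group G] [Finite G] (ρ : Aut k Ω → G), IsRep (DecF F W) ρ →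
          (∀ g : G, ∃ j : ℕ, g ^ (M * p ^ j) = 1) →
            ∃ τ ∈ DecF F W, τ q = algebraMap k Ω ω * q ∧ ∃ P : Subgroup G, IsPGroup p P ∧
              (∀ a ∈ P, ∃ γ ∈ DecF F W, γ q = q ∧ ρ γ = a) ∧
              (∀ γ ∈ DecF F W, ∀ a ∈ P, ρ γ * a * (ρ γ)⁻¹ ∈ P) ∧
              LamQ ρ (DecF F W) q (algebraMap k Ω ω) (ρ τ) P
  any : ∀ (k Ω : Type) [Field k] [IsAlgClosed k] [Field Ω] [IsAlgClosed Ω] [Algebra k Ω]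
    (F : IntermediateField k Ω), FF F → ∀ (G : Type) [Group G] (ρ : Aut k Ω → G),
      IsRep F.fixingSubgroup ρ → ∀ (W : ValuationSubring Ω) (q : Ω) (M : ℕ) (J : Set (G × Ω)),
        0 < M → q ≠ 0 → q ^ M ∈ F → Loc F W q ρ J → ∀ W' : ValuationSubring Ω, Agr F W' W →
          ∃ g : G, ∀ (h : G) (ζ : Ω),
            (h, ζ) ∈ J ↔ ∃ γ ∈ DecF F W', ρ γ = g * h * g⁻¹ ∧ γ q = ζ * q
  chg : ∀ (k Ω : Type) [Field k] [IsAlgClosed k] [Field Ω] [IsAlgClosed Ω] [Algebra k Ω]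
    (F : IntermediateField k Ω), FF F → ∀ (W : ValuationSubring Ω) (q q' : Ω) (M : ℕ),
      (M : k) ≠ 0 → (q / q') ^ M ∈ F → W.valuation (q / q') = 1 → ∀ W' : ValuationSubring Ω,
        IsPl k W' → Agr F W' W → ∀ γ ∈ DecF F W', ∀ ζ : Ω, γ q = ζ * q ↔ γ q' = ζ * q'
  lamA : ∀ (k Ω : Type) [Field k] [IsAlgClosed k] [Field Ω] [IsAlgClosed Ω] [Algebra k Ω]
    (F : IntermediateField k Ω) (G : Type) [Group G] (ρ : Aut k Ω → G),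
      IsRep F.fixingSubgroup ρ → ∀ (W : ValuationSubring Ω) (q : Ω) (M : ℕ) (ω : k) (c : G),
        0 < M → q ≠ 0 → q ^ M ∈ F → Lam ρ (DecF F W) q (algebraMap k Ω ω) c →
          ∀ δ ∈ F.fixingSubgroup,
            Lam ρ (DecF F (δ • W)) q (algebraMap k Ω ω) (ρ δ * c * (ρ δ)⁻¹)
  kum : ∀ (p : ℕ) [Fact p.Prime] (k Ω : Type) [Field k] [IsAlgClosed k] [CharP k p] [Field Ω]
    [Algebra k Ω] (x₀ : Ω), Co k x₀ → ∀ (x q : Ω) (M : ℕ) (ω : k), ¬ p ∣ M →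
      IsPrimitiveRoot ω M → x ≠ 0 → q ^ M = x → ∀ (G : Type) [Group G] (c : G), c ^ M = 1 →
        ∃ χ : Aut k Ω → G, IsRep (Gam k x) χ ∧ Lam χ (Gam k x) q (algebraMap k Ω ω) c ∧ UnrG x χ
  as : ∀ (p : ℕ) [Fact p.Prime] (k Ω : Type) [Field k] [IsAlgClosed k] [CharP k p] [Field Ω]
    [Algebra k Ω] (x₀ : Ω), Co k x₀ → ∀ (a z : Ω), z ^ p - z = a →
      ∀ (G : Type) [Group G] (c : G), c ^ p = 1 →
        ∃ χ : Aut k Ω → G, IsRep (Gam k a) χ ∧ ASLam χ (Gam k a) z c ∧ Unr a χ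

/-- Functions with prescribed poles. -/
structure StmtPI : Prop where
  pi1 : ∀ (k Ω : Type) [Field k] [IsAlgClosed k] [Field Ω] [IsAlgClosed Ω] [Algebra k Ω]
    (F : IntermediateField k Ω), FF F → ∀ W₀ W₁ : ValuationSubring Ω, IsPl k W₀ → IsPl k W₁ →
      ¬ Agr F W₀ W₁ → ∃ π, IsUnif F W₀ π ∧ ∀ W, IsPl k W → π ∉ W → Agr F W W₁
  pi2 : ∀ (p : ℕ) [Fact p.Prime] (k Ω : Type) [Field k] [IsAlgClosed k] [CharP k p] [Field Ω]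
    [IsAlgClosed Ω] [Algebra k Ω] (F : IntermediateField k Ω), FF F →
      ∀ T : Finset (ValuationSubring Ω), T.Nonempty → (∀ V ∈ T, IsPl k V) →
        ∃ u, FS F u ∧ ∀ W, IsPl k W → (u ∉ W ↔ ∃ V ∈ T, Agr F W V)

/-- A primitive element that is a simple small root. -/
def StmtSH1 : Prop := ∀ (p : ℕ) [Fact p.Prime] (k Ω : Type) [Field k] [IsAlgClosed k] [CharP k p]
  [Field Ω] [IsAlgClosed Ω] [Algebra k Ω] (F : IntermediateField k Ω) (x : Ω), FS F x →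
    ∀ W : ValuationSubring Ω, IsPl k W → IsUnif F W x → ∃ (θ : Ω) (f : k[X][X]), Sh f ∧
      Rt f x θ ∧ W.valuation θ < 1 ∧ F = k⟮x, θ⟯

/-- Simple roots and composite valuation rings. -/
structure StmtSH2 : Prop where
  simple : ∀ (k Ω : Type) [Field k] [Field Ω] [Algebra k Ω] (U : ValuationSubring Ω),
    (∀ c : k, algebraMap k Ω c ∈ U) → ∀ f : k[X][X], Sh f → ∀ u θ θ' : Ω, U.valuation u < 1 →
      U.valuation θ < 1 → U.valuation θ' < 1 → Rt f u θ → Rt f u θ' → θ = θ'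
  fac : ∀ (k 𝕜 Ω' : Type) [Field k] [Field 𝕜] [IsAlgClosed 𝕜] [Field Ω'] [Algebra k 𝕜]
    [Algebra k Ω'] [Algebra 𝕜 Ω'] [IsScalarTower k 𝕜 Ω'] (O : ValuationSubring Ω'),
      (∀ c : k, algebraMap k Ω' c ∈ O) → ∀ f : k[X][X], Sh f → ∀ a : 𝕜,
        O.valuation (algebraMap 𝕜 Ω' a) < 1 → ∃ (b : 𝕜) (h : 𝕜[X]),
          O.valuation (algebraMap 𝕜 Ω' b) < 1 ∧
          f.map (aeval (R := k) a).toRingHom = (X - C b) * h ∧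
          (∀ i, algebraMap 𝕜 Ω' (h.coeff i) ∈ O) ∧ O.valuation (algebraMap 𝕜 Ω' (h.coeff 0)) = 1
  cmpPl : ∀ (𝕜 Ω' : Type) [Field 𝕜] [IsAlgClosed 𝕜] [Field Ω'] [Algebra 𝕜 Ω'] (σ : Ω'), Co 𝕜 σ →
    ∀ W O : ValuationSubring Ω', IsPl 𝕜 W → ∃ U : ValuationSubring Ω',
      (∀ s, s ∈ U ↔ ∃ c : 𝕜, algebraMap 𝕜 Ω' c ∈ O ∧ W.valuation (s - algebraMap 𝕜 Ω' c) < 1) ∧
      ∀ s, U.valuation s < 1 ↔ ∃ c : 𝕜, O.valuation (algebraMap 𝕜 Ω' c) < 1 ∧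
        W.valuation (s - algebraMap 𝕜 Ω' c) < 1
  cmpRed : ∀ (k 𝕜 Ω Ω' : Type) [Field k] [Field 𝕜] [Field Ω] [Field Ω'] [Algebra k Ω]
    [Algebra k Ω'] [Algebra 𝕜 Ω'] (ι : Ω →ₐ[k] Ω') (O : ValuationSubring Ω'), RedD 𝕜 ι O →
      ∀ V : ValuationSubring Ω, ∃ U : ValuationSubring Ω',
        (∀ s, s ∈ U ↔ ∃ s₀ ∈ V, Rd ι O s s₀) ∧
        ∀ s, U.valuation s < 1 ↔ ∃ s₀, V.valuation s₀ < 1 ∧ Rd ι O s s₀

/-- Constant extension and restriction. -/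
structure StmtRX : Prop where
  ext1 : ∀ (k 𝕜 Ω Ω' : Type) [Field k] [Field 𝕜] [Field Ω] [Field Ω'] [Algebra k 𝕜] [Algebra k Ω]
    [Algebra k Ω'] [Algebra 𝕜 Ω'] [IsScalarTower k 𝕜 Ω'] (ι : Ω →ₐ[k] Ω') (S : Set Ω),
      Ext 𝕜 ι (IntermediateField.adjoin k S) = IntermediateField.adjoin 𝕜 (ι '' S)
  extf : ∀ (k 𝕜 Ω Ω' : Type) [Field k] [Field 𝕜] [Field Ω] [Field Ω'] [Algebra k 𝕜] [Algebra k Ω]
    [Algebra k Ω'] [Algebra 𝕜 Ω'] [IsScalarTower k 𝕜 Ω'] (ι : Ω →ₐ[k] Ω')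
    (F : IntermediateField k Ω) (x : Ω), FS F x → Co 𝕜 (ι x) → FS (Ext 𝕜 ι F) (ι x)
  sep : ∀ (k 𝕜 Ω Ω' : Type) [Field k] [Field 𝕜] [Field Ω] [Field Ω'] [Algebra k 𝕜] [Algebra k Ω]
    [Algebra k Ω'] [Algebra 𝕜 Ω'] [IsScalarTower k 𝕜 Ω'] (ι : Ω →ₐ[k] Ω')
    (F : IntermediateField k Ω) (s : Ω), IsSeparable F s → IsSeparable (Ext 𝕜 ι F) (ι s)
  mul : ∀ (k 𝕜 Ω Ω' : Type) [Field k] [Field 𝕜] [Field Ω] [IsAlgClosed Ω] [Field Ω']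
    [Algebra k 𝕜] [Algebra k Ω] [Algebra k Ω'] [Algebra 𝕜 Ω'] [IsScalarTower k 𝕜 Ω']
    (ι : Ω →ₐ[k] Ω') (x : Ω), Co k x → res 𝕜 ι (1 : Aut 𝕜 Ω') = 1 ∧
      (∀ γ ∈ Gam 𝕜 (ι x), res 𝕜 ι γ ∈ Gam k x) ∧
      (∀ γ ∈ Gam 𝕜 (ι x), ∀ δ ∈ Gam 𝕜 (ι x), res 𝕜 ι (γ * δ) = res 𝕜 ι γ * res 𝕜 ι δ) ∧
      (∀ γ ∈ Gam 𝕜 (ι x), res 𝕜 ι γ⁻¹ = (res 𝕜 ι γ)⁻¹) ∧
      ∀ (δ γ : Aut 𝕜 Ω') (ι' : Ω →ₐ[k] Ω'), (∀ s, ι' s = δ (ι s)) → γ ∈ Gam 𝕜 (ι x) →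
        res 𝕜 ι' (δ * γ * δ⁻¹) = res 𝕜 ι γ
  fix : ∀ (k 𝕜 Ω Ω' : Type) [Field k] [Field 𝕜] [Field Ω] [IsAlgClosed Ω] [Field Ω']
    [Algebra k 𝕜] [Algebra k Ω] [Algebra k Ω'] [Algebra 𝕜 Ω'] [IsScalarTower k 𝕜 Ω']
    (ι : Ω →ₐ[k] Ω') (F : IntermediateField k Ω) (x : Ω), Co k x → x ∈ F →
      ∀ γ ∈ Gam 𝕜 (ι x), γ ∈ (Ext 𝕜 ι F).fixingSubgroup ↔ res 𝕜 ι γ ∈ F.fixingSubgroup
  rep : ∀ (k 𝕜 Ω Ω' : Type) [Field k] [Field 𝕜] [Field Ω] [IsAlgClosed Ω] [Field Ω']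
    [Algebra k 𝕜] [Algebra k Ω] [Algebra k Ω'] [Algebra 𝕜 Ω'] [IsScalarTower k 𝕜 Ω']
    (ι : Ω →ₐ[k] Ω') (x : Ω), Co k x → ∀ (Δ : Subgroup (Aut k Ω)) (Δ' : Subgroup (Aut 𝕜 Ω')),
      Δ' ≤ Gam 𝕜 (ι x) → (∀ γ ∈ Δ', res 𝕜 ι γ ∈ Δ) → ∀ (G : Type) [Group G] (κ : Aut k Ω → G),
        IsRep Δ κ → IsRep Δ' fun γ => κ (res 𝕜 ι γ)
  smul : ∀ (k 𝕜 Ω Ω' : Type) [Field k] [Field 𝕜] [Field Ω] [IsAlgClosed Ω] [Field Ω']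
    [Algebra k 𝕜] [Algebra k Ω] [Algebra k Ω'] [Algebra 𝕜 Ω'] [IsScalarTower k 𝕜 Ω']
    (ι : Ω →ₐ[k] Ω') (x : Ω), Co k x → ∀ γ ∈ Gam 𝕜 (ι x), ∀ (U : ValuationSubring Ω'),
      (γ • U).comap ι.toRingHom = res 𝕜 ι γ • U.comap ι.toRingHom
  plc : ∀ (k 𝕜 Ω Ω' : Type) [Field k] [Field 𝕜] [IsAlgClosed 𝕜] [Field Ω] [IsAlgClosed Ω]
    [Field Ω'] [Algebra k 𝕜] [Algebra k Ω] [Algebra k Ω'] [Algebra 𝕜 Ω'] [IsScalarTower k 𝕜 Ω']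
    (ι : Ω →ₐ[k] Ω') (x : Ω), Co k x → Co 𝕜 (ι x) → ∀ U : ValuationSubring Ω', IsPl 𝕜 U →
      ((∀ s, ι s ∈ U) ∧ ∀ γ ∈ Dec 𝕜 (ι x) U, res 𝕜 ι γ = 1) ∨
      (IsPl k (U.comap ι.toRingHom) ∧ (∀ s, (U.comap ι.toRingHom).valuation s < 1 ↔
        U.valuation (ι s) < 1) ∧ ∀ γ ∈ Dec 𝕜 (ι x) U, res 𝕜 ι γ ∈ Dec k x (U.comap ι.toRingHom))
  ovr : ∀ (k Ω Ω' : Type) [Field k] [Field Ω] [IsAlgClosed Ω] [Field Ω'] [Algebra k Ω]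
    [Algebra k Ω'] (x : Ω), Co k x → ∀ (ι : Ω →ₐ[k] Ω') (U : ValuationSubring Ω')
      (V : ValuationSubring Ω), Agr k⟮x⟯ (U.comap ι.toRingHom) V →
        ∃ ι' : Ω →ₐ[k] Ω', ι' x = ι x ∧ ∀ s, ι' s ∈ U ↔ s ∈ V

/-! ### Certificates -/

/-- Certificates from separating functions. -/
structure StmtVAND : Prop where
  invm : ∀ (k Ω : Type) [Field k] [Field Ω] [Algebra k Ω] (F : IntermediateField k Ω)
    (G : Type) [Group G] [Fintype G] [DecidableEq G] (ρ : Aut k Ω → G) (X : Matrix G G Ω),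
      (∀ i, Alg F ρ fun g => X g i) → X.det ≠ 0 → (∀ i, Alg F ρ (X⁻¹ i)) ∧
        ∀ U : ValuationSubring Ω, (∀ g i, X g i ∈ U) → U.valuation X.det = 1 → ∀ i g, X⁻¹ i g ∈ U
  det2 : ∀ (k Ω : Type) [Field k] [Field Ω] [IsAlgClosed Ω] [Algebra k Ω]
    (F : IntermediateField k Ω), (∀ y : Ω, IsAlgebraic F y) →
      ∀ (G : Type) [Group G] [Fintype G] [DecidableEq G] (ρ : Aut k Ω → G) (X : Matrix G G Ω),
        (∀ i, Alg F ρ fun g => X g i) → X.det ^ 2 ∈ F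
  sepf : ∀ (k 𝕜 Ω' : Type) [Field k] [IsAlgClosed k] [Field 𝕜] [Field Ω'] [Algebra k 𝕜]
    [Algebra k Ω'] [Algebra 𝕜 Ω'] [IsScalarTower k 𝕜 Ω'] (F : IntermediateField 𝕜 Ω')
    (G : Type) [Group G] [Finite G] (ρ : Aut 𝕜 Ω' → G) (U : ValuationSubring Ω'),
      (∀ c : k, algebraMap k Ω' c ∈ U) →
      (∀ h : G, h ≠ 1 → ∃ f, Alg F ρ f ∧ f 1 ∈ U ∧ ¬ U.valuation (f h - f 1) < 1) →
        ∃ z, Alg F ρ z ∧ (∀ g, z g ∈ U) ∧ ∀ g h, g ≠ h → U.valuation (z g - z h) = 1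
  vand : ∀ (k 𝕜 Ω' : Type) [Field k] [IsAlgClosed k] [Field 𝕜] [Field Ω'] [Algebra k 𝕜]
    [Algebra k Ω'] [Algebra 𝕜 Ω'] [IsScalarTower k 𝕜 Ω'] (F : IntermediateField 𝕜 Ω')
    (G : Type) [Group G] [Fintype G] [DecidableEq G] (ρ : Aut 𝕜 Ω' → G)
    (U : ValuationSubring Ω'), (∀ c : k, algebraMap k Ω' c ∈ U) →
      (∀ h : G, h ≠ 1 → ∃ f, Alg F ρ f ∧ f 1 ∈ U ∧ ¬ U.valuation (f h - f 1) < 1) → Cert F ρ U
  cert : ∀ (k Ω : Type) [Field k] [Field Ω] [Algebra k Ω] (F : IntermediateField k Ω)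
    (G : Type) [Group G] [Fintype G] [DecidableEq G] (ρ : Aut k Ω → G) (U : ValuationSubring Ω),
      Cert F ρ U → ∀ h : G, h ≠ 1 →
        ∃ f, Alg F ρ f ∧ (∀ g, f g ∈ U) ∧ U.valuation (f h - f 1) = 1

/-- Two homomorphisms that agree on invariants differ by a translation. -/
def StmtHOM : Prop := ∀ (k Ω E : Type) [Field k] [Field Ω] [IsAlgClosed Ω] [Algebra k Ω] [Field E]
  (F : IntermediateField k Ω), (∀ y : Ω, IsAlgebraic F y) →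
    ∀ (G : Type) [Group G] [Fintype G] [DecidableEq G] (ρ : Aut k Ω → G) (R : Subring Ω),
      Cert F ρ R → ∀ φ φ' : R →+* E, (∀ a : R, (a : Ω) ∈ F → φ a = φ' a) →
        (∃ h : G, ∀ f : G → R, Alg F ρ (fun g => f g) → ∀ g, φ' (f g) = φ (f (h * g))) ∧
        ∀ h h' : G, (∀ f : G → R, Alg F ρ (fun g => f g) → φ (f h) = φ (f h')) → h = h'

/-- Groups of order prime to `p` have good reduction. -/
def StmtTAMEG : Prop := ∀ (p : ℕ) [Fact p.Prime] (k 𝕜 Ω' : Type) [Field k] [IsAlgClosed k]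
  [CharP k p] [Field 𝕜] [IsAlgClosed 𝕜] [Field Ω'] [IsAlgClosed Ω'] [Algebra k 𝕜] [Algebra k Ω']
  [Algebra 𝕜 Ω'] [IsScalarTower k 𝕜 Ω'] (F : IntermediateField 𝕜 Ω') (σ : Ω'), FS F σ →
    ∀ (G : Type) [Group G] [Fintype G] [DecidableEq G] (ρ : Aut 𝕜 Ω' → G),
      IsRep F.fixingSubgroup ρ → ¬ p ∣ Nat.card G → ∀ O : ValuationSubring Ω',
        (∀ c : k, algebraMap k Ω' c ∈ O) →
        (∀ s : Ω', s ≠ 0 → ∃ c : 𝕜, O.valuation s = O.valuation (algebraMap 𝕜 Ω' c)) → Cert F ρ O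

/-! ### Reduction -/

/-- Residues of the constant extension; uniqueness of the Gauss extension. -/
structure StmtORTH : Prop where
  uniq₀ : ∀ (k Ω Ω' : Type) [Field k] [Field Ω] [Field Ω'] [Algebra k Ω] [Algebra k Ω']
    (ι : Ω →ₐ[k] Ω') (O : ValuationSubring Ω'), (∀ s, ι s ∈ O) → ∀ (s : Ω') (a b : Ω),
      Rd ι O s a → Rd ι O s b → a = b
  resf : ∀ (k 𝕜 Ω Ω' : Type) [Field k] [Field 𝕜] [Field Ω] [Field Ω'] [Algebra k 𝕜]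
    [Algebra k Ω] [Algebra k Ω'] [Algebra 𝕜 Ω'] [IsScalarTower k 𝕜 Ω'] (ι : Ω →ₐ[k] Ω')
    (O : ValuationSubring Ω'), RedD 𝕜 ι O → ∀ (F : IntermediateField k Ω) (x : Ω), FS F x →
      ∀ a ∈ Ext 𝕜 ι F, ∀ a₀, Rd ι O a a₀ → a₀ ∈ F
  poly : ∀ (k 𝕜 Ω Ω' : Type) [Field k] [Field 𝕜] [Field Ω] [Field Ω'] [Algebra k 𝕜]
    [Algebra k Ω] [Algebra k Ω'] [Algebra 𝕜 Ω'] [IsScalarTower k 𝕜 Ω'] (ι : Ω →ₐ[k] Ω')
    (O : ValuationSubring Ω'), RedD 𝕜 ι O → ∀ x : Ω, Transcendental k x → ∀ P : 𝕜[X],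
      aeval (ι x) P ∈ O → (∀ i, algebraMap 𝕜 Ω' (P.coeff i) ∈ O) ∧
        ∃ P₀ : k[X], P₀.natDegree ≤ P.natDegree ∧ Rd ι O (aeval (ι x) P) (aeval x P₀)
  uniq : ∀ (k 𝕜 Ω Ω' : Type) [Field k] [Field 𝕜] [Field Ω] [IsAlgClosed Ω] [Field Ω']
    [Algebra k 𝕜] [Algebra k Ω] [Algebra k Ω'] [Algebra 𝕜 Ω'] [IsScalarTower k 𝕜 Ω']
    (ι : Ω →ₐ[k] Ω') (O : ValuationSubring Ω'), RedD 𝕜 ι O →
      ∀ (F : IntermediateField k Ω) (x : Ω), FS F x → ∀ γ ∈ Gam 𝕜 (ι x), ∀ a ∈ Ext 𝕜 ι F,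
        γ a ∈ O ↔ a ∈ O

/-- The reduced representation. -/
structure StmtRREP : Prop where
  ex : ∀ (k 𝕜 Ω Ω' : Type) [Field k] [Field 𝕜] [Field Ω] [IsAlgClosed Ω] [Field Ω']
    [IsAlgClosed Ω'] [Algebra k 𝕜] [Algebra k Ω] [Algebra k Ω'] [Algebra 𝕜 Ω']
    [IsScalarTower k 𝕜 Ω'] (ι : Ω →ₐ[k] Ω') (O : ValuationSubring Ω'), RedD 𝕜 ι O →
      ∀ (F : IntermediateField k Ω) (x : Ω), FS F x → Co 𝕜 (ι x) →
        ∀ (G : Type) [Group G] [Fintype G] [DecidableEq G] (ρ : Aut 𝕜 Ω' → G),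
          Cert (Ext 𝕜 ι F) ρ O → ∃ β : Aut k Ω → G, IsRed 𝕜 ι O F ρ β
  quot : ∀ (p : ℕ) [Fact p.Prime] (k 𝕜 Ω Ω' : Type) [Field k] [IsAlgClosed k] [CharP k p]
    [Field 𝕜] [Field Ω] [IsAlgClosed Ω] [Field Ω'] [Algebra k 𝕜] [Algebra k Ω] [Algebra k Ω']
    [Algebra 𝕜 Ω'] [IsScalarTower k 𝕜 Ω'] (ι : Ω →ₐ[k] Ω') (O : ValuationSubring Ω')
    (F : IntermediateField k Ω) (x : Ω), FS F x → ∀ (G G' : Type) [Group G] [Group G'] [Finite G']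
      (ψ : G →* G') (ρ : Aut 𝕜 Ω' → G) (β : Aut k Ω → G) (κ : Aut k Ω → G'),
        IsRed 𝕜 ι O F ρ β → IsRep F.fixingSubgroup κ →
        (∀ γ ∈ (Ext 𝕜 ι F).fixingSubgroup, ψ (ρ γ) = κ (res 𝕜 ι γ)) →
          ∀ γ ∈ F.fixingSubgroup, ψ (β γ) = κ γ
  sub : ∀ (k 𝕜 Ω Ω' : Type) [Field k] [Field 𝕜] [Field Ω] [Field Ω'] [Algebra k Ω]
    [Algebra k Ω'] [Algebra 𝕜 Ω'] (ι : Ω →ₐ[k] Ω') (O : ValuationSubring Ω'), RedD 𝕜 ι O →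
      ∀ F F' : IntermediateField k Ω, F ≤ F' →
        ∀ (G : Type) [Group G] [Fintype G] [DecidableEq G] (ρ : Aut 𝕜 Ω' → G)
          (β β' : Aut k Ω → G), Cert (Ext 𝕜 ι F) ρ O → IsRed 𝕜 ι O F ρ β → IsRed 𝕜 ι O F' ρ β' →
            ∀ γ ∈ F'.fixingSubgroup, β γ = β' γ

/-- The residue disc of a place is a disc. -/
def StmtDISC : Prop := ∀ (p : ℕ) [Fact p.Prime] (k 𝕜 Ω Ω' : Type) [Field k] [IsAlgClosed k]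
  [CharP k p] [Field 𝕜] [IsAlgClosed 𝕜] [Field Ω] [IsAlgClosed Ω] [Field Ω'] [IsAlgClosed Ω']
  [Algebra k 𝕜] [Algebra k Ω] [Algebra k Ω'] [Algebra 𝕜 Ω'] [IsScalarTower k 𝕜 Ω']
  (ι : Ω →ₐ[k] Ω') (O : ValuationSubring Ω'), (∀ c : k, algebraMap k Ω' c ∈ O) →
    ∀ (F : IntermediateField k Ω) (u : Ω), FS F u → Co 𝕜 (ι u) → ∀ V : ValuationSubring Ω,
      IsPl k V → IsUnif F V u →
      (∀ (θ : Ω) (f : k[X][X]), Sh f → Rt f u θ → V.valuation θ < 1 → F = k⟮u, θ⟯ →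
        ∀ W, In 𝕜 ι O F V W ↔ IsPl 𝕜 W ∧
          (∃ a : 𝕜, O.valuation (algebraMap 𝕜 Ω' a) < 1 ∧
            W.valuation (ι u - algebraMap 𝕜 Ω' a) < 1) ∧
          ∃ b : 𝕜, O.valuation (algebraMap 𝕜 Ω' b) < 1 ∧
            W.valuation (ι θ - algebraMap 𝕜 Ω' b) < 1) ∧
      (∀ W, In 𝕜 ι O F V W → Dec 𝕜 (ι u) W ≤ (Ext 𝕜 ι F).fixingSubgroup ∧
        ∃ a : 𝕜, O.valuation (algebraMap 𝕜 Ω' a) < 1 ∧
          IsUnif (Ext 𝕜 ι F) W (ι u - algebraMap 𝕜 Ω' a)) ∧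
      (∀ W W' (a : 𝕜), In 𝕜 ι O F V W → In 𝕜 ι O F V W' →
        W.valuation (ι u - algebraMap 𝕜 Ω' a) < 1 → W'.valuation (ι u - algebraMap 𝕜 Ω' a) < 1 →
          Agr (Ext 𝕜 ι F) W W') ∧
      (∀ W, In 𝕜 ι O F V W → (W.valuation (ι u) < 1 ∧ Ov ι F W V) ∨ ∀ s, ι s ∈ W) ∧
      (∀ W, IsPl 𝕜 W → Ov ι F W V → In 𝕜 ι O F V W) ∧
      ∀ W, In 𝕜 ι O F V W → ∀ γ ∈ (Ext 𝕜 ι F).fixingSubgroup, In 𝕜 ι O F V (γ • W)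

/-- The maximum principle on a residue disc. -/
def StmtMAX : Prop := ∀ (p : ℕ) [Fact p.Prime] (k 𝕜 Ω Ω' : Type) [Field k] [IsAlgClosed k]
  [CharP k p] [Field 𝕜] [IsAlgClosed 𝕜] [Field Ω] [IsAlgClosed Ω] [Field Ω'] [IsAlgClosed Ω']
  [Algebra k 𝕜] [Algebra k Ω] [Algebra k Ω'] [Algebra 𝕜 Ω'] [IsScalarTower k 𝕜 Ω']
  (ι : Ω →ₐ[k] Ω') (O : ValuationSubring Ω'), RedD 𝕜 ι O →
    ∀ (F : IntermediateField k Ω) (u : Ω), FS F u → Co 𝕜 (ι u) → ∀ V : ValuationSubring Ω,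
      IsPl k V → IsUnif F V u →
      (∀ a ∈ Ext 𝕜 ι F, a ∈ Reg 𝕜 ι O F V → ∀ U, Cen 𝕜 ι O F V U → a ∈ U) ∧
      (∀ (G : Type) [Group G] [Finite G] (ρ : Aut 𝕜 Ω' → G) (f : G → Ω'), Alg (Ext 𝕜 ι F) ρ f →
        (∀ g, f g ∈ Reg 𝕜 ι O F V) → ∀ U, Cen 𝕜 ι O F V U → ∀ g, f g ∈ U) ∧
      (∀ W₀, In 𝕜 ι O F V W₀ → W₀.valuation (ι u) < 1 → ∀ a ∈ Ext 𝕜 ι F, a ∈ Reg 𝕜 ι O F V →
        ∃ c : k, ∀ U, Cen 𝕜 ι O F V U → U.valuation (a - algebraMap k Ω' c) < 1) ∧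
      (∀ U : ValuationSubring Ω', (∀ s, s ∈ U ↔ ∃ s₀ ∈ V, Rd ι O s s₀) →
        (∀ s, U.valuation s < 1 ↔ ∃ s₀, V.valuation s₀ < 1 ∧ Rd ι O s s₀) → Cen 𝕜 ι O F V U) ∧
      ∀ W U : ValuationSubring Ω', In 𝕜 ι O F V W →
        (∀ s, s ∈ U ↔ ∃ c : 𝕜, algebraMap 𝕜 Ω' c ∈ O ∧ W.valuation (s - algebraMap 𝕜 Ω' c) < 1) →
        (∀ s, U.valuation s < 1 ↔ ∃ c : 𝕜, O.valuation (algebraMap 𝕜 Ω' c) < 1 ∧
          W.valuation (s - algebraMap 𝕜 Ω' c) < 1) → Cen 𝕜 ι O F V U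

/-- An orthonormal basis of a lattice on a residue disc. -/
def StmtLAT : Prop := ∀ (p : ℕ) [Fact p.Prime] (k 𝕜 Ω Ω' : Type) [Field k] [IsAlgClosed k]
  [CharP k p] [Field 𝕜] [IsAlgClosed 𝕜] [Field Ω] [IsAlgClosed Ω] [Field Ω'] [IsAlgClosed Ω']
  [Algebra k 𝕜] [Algebra k Ω] [Algebra k Ω'] [Algebra 𝕜 Ω'] [IsScalarTower k 𝕜 Ω']
  (ι : Ω →ₐ[k] Ω') (O : ValuationSubring Ω'), RedD 𝕜 ι O →
    ∀ (F : IntermediateField k Ω) (u : Ω), FS F u → Co 𝕜 (ι u) → ∀ V : ValuationSubring Ω,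
      IsPl k V → IsUnif F V u → ∀ (G : Type) [Group G] [Fintype G] [DecidableEq G]
        (ρ : Aut 𝕜 Ω' → G), Cert (Ext 𝕜 ι F) ρ O → ∀ a b : ℕ, 0 < a →
          ∃ X : Matrix G G Ω', (∀ i, Alg (Ext 𝕜 ι F) ρ fun g => X g i) ∧ (∀ g i, X g i ∈ O) ∧
            O.valuation X.det = 1 ∧ (∀ g i W, In 𝕜 ι O F V W → X g i ^ a * ι u ^ b ∈ W) ∧
            ∀ (c : G → 𝕜) (e : 𝕜), O.valuation (algebraMap 𝕜 Ω' e) < 1 →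
              (∀ g W, In 𝕜 ι O F V W → ((∑ i, algebraMap 𝕜 Ω' (c i) * X g i) /
                (ι u - algebraMap 𝕜 Ω' e)) ^ a * ι u ^ b ∈ W) → c = 0

/-- Purity of the branch locus. -/
def StmtPUR : Prop := ∀ (p : ℕ) [Fact p.Prime] (k 𝕜 Ω Ω' : Type) [Field k] [IsAlgClosed k]
  [CharP k p] [Field 𝕜] [IsAlgClosed 𝕜] [Field Ω] [IsAlgClosed Ω] [Field Ω'] [IsAlgClosed Ω']
  [Algebra k 𝕜] [Algebra k Ω] [Algebra k Ω'] [Algebra 𝕜 Ω'] [IsScalarTower k 𝕜 Ω']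
  (ι : Ω →ₐ[k] Ω') (O : ValuationSubring Ω'), RedD 𝕜 ι O →
    ∀ (F : IntermediateField k Ω) (u : Ω), FS F u → Co 𝕜 (ι u) → ∀ V : ValuationSubring Ω,
      IsPl k V → IsUnif F V u → ∀ (G : Type) [Group G] [Fintype G] [DecidableEq G]
        (ρ : Aut 𝕜 Ω' → G), Cert (Ext 𝕜 ι F) ρ O →
          (∀ W, In 𝕜 ι O F V W → Triv ρ (DecF (Ext 𝕜 ι F) W)) →
            Cert (Ext 𝕜 ι F) ρ (Reg 𝕜 ι O F V)

/-- The reduction is unramified where the residue disc contains no branch point. -/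
def StmtRED2 : Prop := ∀ (p : ℕ) [Fact p.Prime] (k 𝕜 Ω Ω' : Type) [Field k] [IsAlgClosed k]
  [CharP k p] [Field 𝕜] [IsAlgClosed 𝕜] [Field Ω] [IsAlgClosed Ω] [Field Ω'] [IsAlgClosed Ω']
  [Algebra k 𝕜] [Algebra k Ω] [Algebra k Ω'] [Algebra 𝕜 Ω'] [IsScalarTower k 𝕜 Ω']
  (ι : Ω →ₐ[k] Ω') (O : ValuationSubring Ω'), RedD 𝕜 ι O →
    ∀ (F : IntermediateField k Ω) (x : Ω), FS F x → Co 𝕜 (ι x) → ∀ V : ValuationSubring Ω,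
      IsPl k V → ∀ (G : Type) [Group G] [Fintype G] [DecidableEq G]
        (ρ : Aut 𝕜 Ω' → G) (β : Aut k Ω → G), Cert (Ext 𝕜 ι F) ρ O → IsRed 𝕜 ι O F ρ β →
          (∀ W, In 𝕜 ι O F V W → Triv ρ (DecF (Ext 𝕜 ι F) W)) → Triv β (DecF F V)

/-- Good reduction descends along a tame Kummer extension. -/
def StmtDOWN : Prop := ∀ (p : ℕ) [Fact p.Prime] (k 𝕜 Ω Ω' : Type) [Field k] [IsAlgClosed k]
  [CharP k p] [Field 𝕜] [IsAlgClosed 𝕜] [Field Ω] [IsAlgClosed Ω] [Field Ω'] [IsAlgClosed Ω']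
  [Algebra k 𝕜] [Algebra k Ω] [Algebra k Ω'] [Algebra 𝕜 Ω'] [IsScalarTower k 𝕜 Ω']
  (ι : Ω →ₐ[k] Ω') (O : ValuationSubring Ω'), RedD 𝕜 ι O →
    ∀ (F : IntermediateField k Ω) (π q : Ω) (M : ℕ) (ω : k), FS F π → Co 𝕜 (ι π) → ¬ p ∣ M →
      IsPrimitiveRoot ω M → q ^ M = π → ∀ τ ∈ (Ext 𝕜 ι F).fixingSubgroup,
        τ (ι q) = algebraMap k Ω' ω * ι q →
        ∀ (G : Type) [Group G] [Fintype G] [DecidableEq G] (ρ : Aut 𝕜 Ω' → G),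
          IsRep (Ext 𝕜 ι F).fixingSubgroup ρ →
          (∀ f : G → Ω', Alg (Ext 𝕜 ι (F ⊔ k⟮q⟯)) ρ f → (∀ g, f g ∈ O) → ∀ j : ℕ,
            Alg (Ext 𝕜 ι (F ⊔ k⟮q⟯)) ρ (fun g => (τ ^ j) (f ((ρ τ ^ j)⁻¹ * g))) ∧
            (∀ g, (τ ^ j) (f ((ρ τ ^ j)⁻¹ * g)) ∈ O) ∧
            Alg (Ext 𝕜 ι F) ρ (fun g => ∑ i ∈ Finset.range M,
              (algebraMap k Ω' ω ^ i * ι q) ^ j * (τ ^ i) (f ((ρ τ ^ i)⁻¹ * g)))) ∧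
          (Cert (Ext 𝕜 ι (F ⊔ k⟮q⟯)) ρ O → Cert (Ext 𝕜 ι F) ρ O)

/-- The reduction keeps the tame inertia of the only branch point in a residue disc. -/
def StmtRED3 : Prop := ∀ (p : ℕ) [Fact p.Prime] (k 𝕜 Ω Ω' : Type) [Field k] [IsAlgClosed k]
  [CharP k p] [Field 𝕜] [IsAlgClosed 𝕜] [Field Ω] [IsAlgClosed Ω] [Field Ω'] [IsAlgClosed Ω']
  [Algebra k 𝕜] [Algebra k Ω] [Algebra k Ω'] [Algebra 𝕜 Ω'] [IsScalarTower k 𝕜 Ω']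
  (ι : Ω →ₐ[k] Ω') (O : ValuationSubring Ω'), RedD 𝕜 ι O →
    ∀ (F : IntermediateField k Ω) (π q : Ω) (M : ℕ) (ω : k), FS F π → Co 𝕜 (ι π) → ¬ p ∣ M →
      IsPrimitiveRoot ω M → q ^ M = π → ∀ V : ValuationSubring Ω, IsPl k V → IsUnif F V π →
        ∀ (G : Type) [Group G] [Fintype G] [DecidableEq G] (ρ : Aut 𝕜 Ω' → G) (β : Aut k Ω → G),
          IsRep (Ext 𝕜 ι F).fixingSubgroup ρ → Cert (Ext 𝕜 ι (F ⊔ k⟮q⟯)) ρ O →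
          IsRed 𝕜 ι O F ρ β → (∀ W, In 𝕜 ι O F V W → ¬ W.valuation (ι π) < 1 →
            Triv ρ (DecF (Ext 𝕜 ι F) W)) → ∀ (W₀ : ValuationSubring Ω') (c : G), IsPl 𝕜 W₀ →
              Ov ι F W₀ V → Lam ρ (DecF (Ext 𝕜 ι F) W₀) (ι q) (algebraMap k Ω' ω) c →
                ∃ a : G, Lam β (DecF F V) q (algebraMap k Ω ω) (a⁻¹ * c * a)

/-- Local expansion at an Artin-Schreier branch point. -/
def StmtASO1 : Prop := ∀ (p : ℕ) [Fact p.Prime] (𝕜 Ω' : Type) [Field 𝕜] [IsAlgClosed 𝕜]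
  [CharP 𝕜 p] [Field Ω'] [IsAlgClosed Ω'] [Algebra 𝕜 Ω'] (u : Ω'), Co 𝕜 u →
    ∀ W : ValuationSubring Ω', IsPl 𝕜 W → W.valuation u < 1 → ∀ (z : Ω') (l : 𝕜), l ≠ 0 →
      z ^ p - z ∈ 𝕜⟮u⟯ → W.valuation ((z ^ p - z) * u - algebraMap 𝕜 Ω' l) < 1 →
      ∀ (G : Type) [Group G] [Fintype G] [DecidableEq G] (ρ : Aut 𝕜 Ω' → G) (c : G),
        IsRep (Gam 𝕜 u) ρ → c ≠ 1 → ASLam ρ (Dec 𝕜 u W) z c →
        (∀ X : Matrix G G Ω', (∀ i, Alg 𝕜⟮u⟯ ρ fun g => X g i) → X.det ≠ 0 →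
          (∀ g i, X g i ^ p * u ^ (p - 1) ∈ W) →
          (∀ e : G → 𝕜, (∀ g, ((∑ i, algebraMap 𝕜 Ω' (e i) * X g i) / u) ^ p * u ^ (p - 1) ∈ W) →
            e = 0) → ∀ i g, X⁻¹ i g ^ p * u ^ (p - 1) ∈ W) ∧
        ∀ f : G → Ω', Alg 𝕜⟮u⟯ ρ f → (∀ g, f g ^ p * u ^ (p - 1) ∈ W) →
          ∃ (T : Finset G) (e : G → 𝕜), W.valuation (∑ g, f g + algebraMap 𝕜 Ω' (∑ g ∈ T, e g)) < 1 ∧
            ∀ g ∈ T, W.valuation (f g ^ p * u ^ (p - 1) -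
              algebraMap 𝕜 Ω' (e g ^ p * l ^ (p - 1))) < 1

/-- A large Artin-Schreier branch point alone in a residue disc prevents good reduction. -/
def StmtASO : Prop := ∀ (p : ℕ) [Fact p.Prime] (k 𝕜 Ω Ω' : Type) [Field k] [IsAlgClosed k]
  [CharP k p] [Field 𝕜] [IsAlgClosed 𝕜] [Field Ω] [IsAlgClosed Ω] [Field Ω'] [IsAlgClosed Ω']
  [Algebra k 𝕜] [Algebra k Ω] [Algebra k Ω'] [Algebra 𝕜 Ω'] [IsScalarTower k 𝕜 Ω']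
  (ι : Ω →ₐ[k] Ω') (O : ValuationSubring Ω'), RedD 𝕜 ι O → ∀ x : Ω, Co k x → Co 𝕜 (ι x) →
    ∀ (G : Type) [Group G] [Fintype G] [DecidableEq G] (ρ : Aut 𝕜 Ω' → G),
      IsRep (Gam 𝕜 (ι x)) ρ →
      (∀ (W : ValuationSubring Ω') (e : 𝕜), IsPl 𝕜 W → e ≠ 0 →
        O.valuation (algebraMap 𝕜 Ω' e) < 1 → W.valuation (ι x - algebraMap 𝕜 Ω' e) < 1 →
          Triv ρ (Dec 𝕜 (ι x) W)) →
      (∀ W : ValuationSubring Ω', IsPl 𝕜 W → W.valuation (ι x) < 1 → ∃ (z : Ω') (l : 𝕜) (c : G),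
        algebraMap 𝕜 Ω' l ∉ O ∧ z ^ p - z ∈ 𝕜⟮ι x⟯ ∧
        W.valuation ((z ^ p - z) * ι x - algebraMap 𝕜 Ω' l) < 1 ∧ c ≠ 1 ∧
        ASLam ρ (Dec 𝕜 (ι x) W) z c) → ¬ Cert 𝕜⟮ι x⟯ ρ O

/-! ### The affine line has no tame covers -/

/-- A unimodular integral basis. -/
def StmtSC1 : Prop := ∀ (p : ℕ) [Fact p.Prime] (k Ω : Type) [Field k] [IsAlgClosed k] [CharP k p]
  [Field Ω] [IsAlgClosed Ω] [Algebra k Ω] (x : Ω), Co k x →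
    ∀ (G : Type) [Group G] [Fintype G] [DecidableEq G] (ρ : Aut k Ω → G), IsRep (Gam k x) ρ →
      Unr x ρ → ∃ (X : Matrix G G Ω) (d : k), (∀ i, Alg k⟮x⟯ ρ fun g => X g i) ∧
        (∀ g i, Intg k x (X g i)) ∧ d ≠ 0 ∧ X.det = algebraMap k Ω d

/-- Unramified on the affine line and tame at infinity implies trivial. -/
def StmtSC : Prop := ∀ (p : ℕ) [Fact p.Prime] (k Ω : Type) [Field k] [IsAlgClosed k] [CharP k p]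
  [Field Ω] [IsAlgClosed Ω] [Algebra k Ω] (x : Ω), Co k x →
    ∀ (G : Type) [Group G] [Finite G] (ρ : Aut k Ω → G), IsRep (Gam k x) ρ → Unr x ρ →
      ∀ W : ValuationSubring Ω, IsPl k W → x ∉ W → Tame p ρ (Dec k x W) → Triv ρ (Gam k x)

/-- Tame covers of the multiplicative group are Kummer covers. -/
structure StmtKUMG : Prop where
  one : ∀ (p : ℕ) [Fact p.Prime] (k Ω : Type) [Field k] [IsAlgClosed k] [CharP k p]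
    [Field Ω] [IsAlgClosed Ω] [Algebra k Ω] (x q : Ω) (M : ℕ), Co k x → ¬ p ∣ M → q ^ M = x →
      ∀ (G : Type) [Group G] [Finite G] (ρ : Aut k Ω → G), IsRep (Gam k x) ρ → UnrG x ρ →
        ∀ V₀ : ValuationSubring Ω, IsPl k V₀ → V₀.valuation x < 1 →
          (∀ γ ∈ Dec k x V₀, γ q = q → ρ γ = 1) → Unr q ρ ∧
            ∀ V : ValuationSubring Ω, IsPl k V → x ∉ V → Tame p ρ (Dec k x V) → Triv ρ (Gam k q)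
  two : ∀ (p : ℕ) [Fact p.Prime] (k Ω : Type) [Field k] [IsAlgClosed k] [CharP k p]
    [Field Ω] [IsAlgClosed Ω] [Algebra k Ω] (x q : Ω) (M : ℕ) (ω : k), Co k x → ¬ p ∣ M →
      q ^ M = x → IsPrimitiveRoot ω M → ∀ (G : Type) [Group G] [Finite G] (ρ : Aut k Ω → G),
        IsRep (Gam k x) ρ → UnrG x ρ → (∀ g : G, g ^ M = 1) →
          ∃ d : G, Lam ρ (Gam k x) q (algebraMap k Ω ω) d

end Pool.Agent.Lib.IW2
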