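import Pool.Agent.Lib.IW.All

/-! Definitions for the project on inertia groups over curves with two or more punctures. -/

open Polynomial IntermediateField
open scoped Pointwise

namespace Pool.Agent.Lib.IW2

open Pool.Agent.Lib.IW

section One

variable {k Ω : Type} [Field k] [Field Ω] [Algebra k Ω] {G : Type} [Group G]

/-- `F` is finite and separable over `k(x)`, where `x` is a coordinate. -/
structure FS (F : IntermediateField k Ω) (x : Ω) : Prop where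
  co : Co k x
  fg : F.FG
  mem : x ∈ F
  sep : ∀ y ∈ F, IsSeparable k⟮x⟯ y

/-- `ρ` is trivial on `Γ`. -/
def Triv (ρ : Aut k Ω → G) (Γ : Subgroup (Aut k Ω)) : Prop := ∀ γ ∈ Γ, ρ γ = 1

/-- On `Γ` the map `ρ` is the Kummer character of `q` with generator `c`. -/
def Lam (ρ : Aut k Ω → G) (Γ : Subgroup (Aut k Ω)) (q ω : Ω) (c : G) : Prop :=
  ∀ γ ∈ Γ, ∀ i : ℕ, γ q = ω ^ i * q → ρ γ = c ^ i

/-- The same modulo `Q`. -/
def LamQ (ρ : Aut k Ω → G) (Γ : Subgroup (Aut k Ω)) (q ω : Ω) (c : G) (Q : Subgroup G) : Prop :=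
  ∀ γ ∈ Γ, ∀ i : ℕ, γ q = ω ^ i * q → ρ γ * (c ^ i)⁻¹ ∈ Q

/-- On `Γ` the map `ρ` is the Artin-Schreier character of `z` with generator `c`. -/
def ASLam (ρ : Aut k Ω → G) (Γ : Subgroup (Aut k Ω)) (z : Ω) (c : G) : Prop :=
  ∀ γ ∈ Γ, ∀ i : ℕ, γ z = z + i → ρ γ = c ^ i

/-- The values of `ρ` on `Γ` have order prime to `p`. -/
def Tame (p : ℕ) (ρ : Aut k Ω → G) (Γ : Subgroup (Aut k Ω)) : Prop :=
  ∀ γ ∈ Γ, ∃ n : ℕ, ¬ p ∣ n ∧ ρ γ ^ n = 1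

/-- Unramified on the multiplicative group. -/
def UnrG (x : Ω) (ρ : Aut k Ω → G) : Prop :=
  ∀ W : ValuationSubring Ω, IsPl k W → W.valuation x = 1 → Triv ρ (Dec k x W)

/-- `J` is the joint image of a decomposition group above `W` under `ρ` (up to conjugation) and
the Kummer character of `q`. -/
def Loc (F : IntermediateField k Ω) (W : ValuationSubring Ω) (q : Ω) (ρ : Aut k Ω → G)
    (J : Set (G × Ω)) : Prop :=
  ∃ W' : ValuationSubring Ω, IsPl k W' ∧ Agr F W' W ∧ ∃ g : G, ∀ (h : G) (ζ : Ω),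
    (h, ζ) ∈ J ↔ ∃ γ ∈ DecF F W', ρ γ = g * h * g⁻¹ ∧ γ q = ζ * q

/-- `H` is a decomposition group above `W₀` of a `G`-cover unramified outside `Z`. -/
def OccR (F : IntermediateField k Ω) (Z : ValuationSubring Ω → Prop) (W₀ : ValuationSubring Ω)
    (G : Type) [Group G] (H : Subgroup G) : Prop :=
  ∃ ρ : Aut k Ω → G, IsRep F.fixingSubgroup ρ ∧ (∀ g, ∃ γ ∈ F.fixingSubgroup, ρ γ = g) ∧
    (∀ W : ValuationSubring Ω, IsPl k W → ¬ Z W → Triv ρ (DecF F W)) ∧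
    ∃ W : ValuationSubring Ω, IsPl k W ∧ Agr F W W₀ ∧
      ρ '' (DecF F W : Set (Aut k Ω)) = (H : Set G)

/-- The Galois algebra of `ρ`: equivariant functions with separable values. -/
def Alg (F : IntermediateField k Ω) (ρ : Aut k Ω → G) (f : G → Ω) : Prop :=
  (∀ g, IsSeparable F (f g)) ∧ ∀ γ ∈ F.fixingSubgroup, ∀ g, γ (f g) = f (ρ γ * g)

/-- A Galois certificate with entries in `R`. -/
def Cert [Fintype G] [DecidableEq G] (F : IntermediateField k Ω) (ρ : Aut k Ω → G) (R : Set Ω) :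
    Prop :=
  ∃ X X' : Matrix G G Ω, (∀ i, Alg F ρ (fun g => X g i) ∧ Alg F ρ (X' i)) ∧
    (∀ g i, X g i ∈ R ∧ X' i g ∈ R) ∧ X * X' = 1

/-- A monic polynomial with a simple root at the origin. -/
def Sh (f : k[X][X]) : Prop := f.Monic ∧ (f.coeff 0).coeff 0 = 0 ∧ (f.coeff 1).coeff 0 ≠ 0

/-- `θ` is a root of `f (u, ·)`. -/
def Rt (f : k[X][X]) (u θ : Ω) : Prop := f.eval₂ (aeval (R := k) u).toRingHom θ = 0

lemma FS.ff {F : IntermediateField k Ω} {x : Ω} (h : FS F x) : FF F := ⟨h.fg, x, h.mem, h.co⟩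

lemma FS.le {F : IntermediateField k Ω} {x : Ω} (h : FS F x) : F.fixingSubgroup ≤ Gam k x :=
  fix_le_Gam h.mem

lemma FS.alg {F : IntermediateField k Ω} {x : Ω} (h : FS F x) (y : Ω) : IsAlgebraic F y :=
  Ind.alg_of_mem h.co h.mem y

lemma fs_self {x : Ω} (h : Co k x) : FS k⟮x⟯ x :=
  ⟨h, h.ff.1, mem_adjoin_simple_self k x, fun y hy =>
    isSeparable_algebraMap (F := k⟮x⟯) ⟨y, hy⟩⟩

lemma ff_alg {F : IntermediateField k Ω} (h : FF F) (y : Ω) : IsAlgebraic F y := by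
  obtain ⟨-, x, h1, h2⟩ := h
  exact Ind.alg_of_mem h2 h1 y

lemma sep_up {F F' : IntermediateField k Ω} (hle : F ≤ F') {y : Ω} (h : IsSeparable F y) :
    IsSeparable F' y := by
  let _ := (IntermediateField.inclusion hle).toAlgebra
  have : IsScalarTower F F' Ω := IsScalarTower.of_algebraMap_eq fun _ => rfl
  exact h.tower_top F'

lemma sep_mem {F : IntermediateField k Ω} {y : Ω} (h : y ∈ F) : IsSeparable F y :=
  isSeparable_algebraMap (F := F) ⟨y, h⟩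

lemma sep_aut {F : IntermediateField k Ω} {γ : Aut k Ω} (hγ : γ ∈ F.fixingSubgroup) {y : Ω}
    (hy : IsSeparable F y) : IsSeparable F (γ y) :=
  (AlgEquiv.isSeparable_iff (IntermediateField.fixingSubgroupEquiv F ⟨γ, hγ⟩)).2 hy

lemma DecF_le (F : IntermediateField k Ω) (W : ValuationSubring Ω) :
    DecF F W ≤ F.fixingSubgroup := inf_le_left

lemma fix_apply {F : IntermediateField k Ω} {γ : Aut k Ω} (hγ : γ ∈ F.fixingSubgroup) {y : Ω}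
    (hy : y ∈ F) : γ y = y := (IntermediateField.mem_fixingSubgroup_iff F γ).1 hγ y hy

lemma conj_mem_DecF {F : IntermediateField k Ω} {W : ValuationSubring Ω} {γ δ : Aut k Ω}
    (hδ : δ ∈ F.fixingSubgroup) : δ⁻¹ * γ * δ ∈ DecF F W ↔ γ ∈ DecF F (δ • W) := by
  have h1 : δ⁻¹ * γ * δ ∈ F.fixingSubgroup ↔ γ ∈ F.fixingSubgroup := by
    rw [mul_assoc, Subgroup.mul_mem_cancel_left _ (inv_mem hδ), Subgroup.mul_mem_cancel_right _ hδ]
  have h2 : (δ⁻¹ * γ * δ) • W = W ↔ γ • δ • W = δ • W := by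
    rw [mul_smul, mul_smul, inv_smul_eq_iff]
  exact and_congr h1 h2

namespace Alg

variable {F : IntermediateField k Ω} {ρ : Aut k Ω → G} {f f' : G → Ω}

lemma const {a : Ω} (ha : a ∈ F) : Alg F ρ fun _ => a :=
  ⟨fun _ => sep_mem ha, fun _ hγ _ => fix_apply hγ ha⟩

lemma add (h : Alg F ρ f) (h' : Alg F ρ f') : Alg F ρ fun g => f g + f' g :=
  ⟨fun g => (separableClosure F Ω).add_mem (h.1 g) (h'.1 g),
    fun γ hγ g => by rw [map_add, h.2 γ hγ, h'.2 γ hγ]⟩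

lemma sub (h : Alg F ρ f) (h' : Alg F ρ f') : Alg F ρ fun g => f g - f' g :=
  ⟨fun g => (separableClosure F Ω).sub_mem (h.1 g) (h'.1 g),
    fun γ hγ g => by rw [map_sub, h.2 γ hγ, h'.2 γ hγ]⟩

lemma mul (h : Alg F ρ f) (h' : Alg F ρ f') : Alg F ρ fun g => f g * f' g :=
  ⟨fun g => (separableClosure F Ω).mul_mem (h.1 g) (h'.1 g),
    fun γ hγ g => by rw [map_mul, h.2 γ hγ, h'.2 γ hγ]⟩

lemma inv (h : Alg F ρ f) : Alg F ρ fun g => (f g)⁻¹ :=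
  ⟨fun g => (separableClosure F Ω).inv_mem (h.1 g), fun γ hγ g => by rw [map_inv₀, h.2 γ hγ]⟩

lemma div (h : Alg F ρ f) (h' : Alg F ρ f') : Alg F ρ fun g => f g / f' g :=
  ⟨fun g => (separableClosure F Ω).div_mem (h.1 g) (h'.1 g),
    fun γ hγ g => by rw [map_div₀, h.2 γ hγ, h'.2 γ hγ]⟩

lemma pow (h : Alg F ρ f) (n : ℕ) : Alg F ρ fun g => f g ^ n :=
  ⟨fun g => (separableClosure F Ω).toSubalgebra.pow_mem (h.1 g) n,
    fun γ hγ g => by rw [map_pow, h.2 γ hγ]⟩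

lemma sum {ι : Type} (s : Finset ι) {e : ι → G → Ω} (h : ∀ i ∈ s, Alg F ρ (e i)) :
    Alg F ρ fun g => ∑ i ∈ s, e i g :=
  ⟨fun g => (separableClosure F Ω).sum_mem fun i hi => (h i hi).1 g,
    fun γ hγ g => by
      rw [map_sum]
      exact Finset.sum_congr rfl fun i hi => (h i hi).2 γ hγ g⟩

lemma shift (h : Alg F ρ f) (a : G) : Alg F ρ fun g => f (g * a) :=
  ⟨fun g => h.1 _, fun γ hγ g => by rw [h.2 γ hγ, ← mul_assoc]⟩

lemma mono (h : Alg F ρ f) {F' : IntermediateField k Ω} (hle : F ≤ F') : Alg F' ρ f :=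
  ⟨fun g => sep_up hle (h.1 g), fun γ hγ => h.2 γ (IntermediateField.fixingSubgroup_le hle hγ)⟩

variable [IsAlgClosed Ω] [Fintype G]

lemma tr_mem (hF : ∀ y : Ω, IsAlgebraic F y) (h : Alg F ρ f) : ∑ g, f g ∈ F :=
  found.gal.sep k Ω F hF _ ((separableClosure F Ω).sum_mem fun g _ => h.1 g) fun γ hγ => by
    rw [map_sum, ← Equiv.sum_comp (Equiv.mulLeft (ρ γ)) f]
    exact Finset.sum_congr rfl fun g _ => h.2 γ hγ g

lemma prod_mem (hF : ∀ y : Ω, IsAlgebraic F y) (h : Alg F ρ f) : ∏ g, f g ∈ F :=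
  found.gal.sep k Ω F hF _ ((separableClosure F Ω).prod_mem fun g _ => h.1 g) fun γ hγ => by
    rw [map_prod, ← Equiv.prod_comp (Equiv.mulLeft (ρ γ)) f]
    exact Finset.prod_congr rfl fun g _ => h.2 γ hγ g

/-- The coefficients of the characteristic polynomial. -/
lemma coeff_mem (hF : ∀ y : Ω, IsAlgebraic F y) (h : Alg F ρ f) (n : ℕ) :
    (∏ g, (X - C (f g))).coeff n ∈ F :=
  found.gal.sep k Ω F hF _
    (SpecRep.coeff_prod_mem (separableClosure F Ω).toSubring (fun g => h.1 g) n) fun γ hγ => by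
      have h1 : (∏ g, (X - C (f g))).map (γ : Ω →+* Ω) = ∏ g, (X - C (f g)) := by
        rw [Polynomial.map_prod, ← Equiv.prod_comp (Equiv.mulLeft (ρ γ)) fun g => X - C (f g)]
        refine Finset.prod_congr rfl fun g _ => ?_
        rw [Polynomial.map_sub, map_X, map_C]
        exact congrArg (fun a => X - C a) (h.2 γ hγ g)
      have h2 := congrArg (fun P => P.coeff n) h1
      simp only [coeff_map] at h2
      exact h2

end Alg

lemma exists_alg_inj (p : ℕ) [Fact p.Prime] [IsAlgClosed k] [CharP k p] [IsAlgClosed Ω]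
    [Finite G] {F : IntermediateField k Ω} {x : Ω} (h : FS F x) {ρ : Aut k Ω → G}
    (hρ : IsRep F.fixingSubgroup ρ) :
    ∃ f : G → Ω, Alg F ρ f ∧ Function.Injective f ∧ ∀ g, Intg k x (f g) := by
  obtain ⟨y, h1, h2, h3⟩ := found.str p k Ω x h.co _ h.le G ρ hρ
  exact ⟨y, ⟨fun g => sep_up (adjoin_simple_le_iff.2 h.mem) (h2 g).1, h3⟩, h1, fun g => (h2 g).2⟩

lemma Cert.smul [Fintype G] [DecidableEq G] {F : IntermediateField k Ω} {ρ : Aut k Ω → G}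
    {O : ValuationSubring Ω} (h : Cert F ρ O) {γ : Aut k Ω} (hγ : γ ∈ F.fixingSubgroup) :
    Cert F ρ (γ • O : ValuationSubring Ω) := by
  obtain ⟨X, X', h1, h2, h3⟩ := h
  refine ⟨X, X', h1, fun g i => ⟨?_, ?_⟩, h3⟩
  · rw [SetLike.mem_coe, ValuationSubring.mem_pointwise_smul_iff_inv_smul_mem, AlgEquiv.smul_def,
      (h1 i).1.2 _ (inv_mem hγ)]
    exact (h2 _ i).1
  · rw [SetLike.mem_coe, ValuationSubring.mem_pointwise_smul_iff_inv_smul_mem, AlgEquiv.smul_def,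
      (h1 i).2.2 _ (inv_mem hγ)]
    exact (h2 _ i).2

end One

section Two

variable {k : Type} (𝕜 : Type) {Ω Ω' : Type} [Field k] [Field 𝕜] [Field Ω] [Field Ω']
  [Algebra k Ω] [Algebra k Ω'] [Algebra 𝕜 Ω'] {G : Type} [Group G]

/-- The constant extension of `F`. -/
noncomputable def Ext (ι : Ω →ₐ[k] Ω') (F : IntermediateField k Ω) : IntermediateField 𝕜 Ω' :=
  IntermediateField.adjoin 𝕜 (ι '' (F : Set Ω))

/-- `W` lies over `V` on the field `F`. -/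
def Ov (ι : Ω →ₐ[k] Ω') (F : IntermediateField k Ω) (W : ValuationSubring Ω')
    (V : ValuationSubring Ω) : Prop := ∀ s ∈ F, (ι s ∈ W ↔ s ∈ V)

/-- `s` reduces to `s₀`. -/
def Rd (ι : Ω →ₐ[k] Ω') (O : ValuationSubring Ω') (s : Ω') (s₀ : Ω) : Prop :=
  O.valuation (s - ι s₀) < 1

/-- `O` is a point of good reduction: the residue field is `Ω`, and the values are values of
constants. -/
structure RedD (ι : Ω →ₐ[k] Ω') (O : ValuationSubring Ω') : Prop where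
  mem : ∀ s, ι s ∈ O
  val : ∀ s : Ω', s ≠ 0 → ∃ c : 𝕜, O.valuation s = O.valuation (algebraMap 𝕜 Ω' c)
  res : ∀ s ∈ O, ∃ s₀, Rd ι O s s₀
  con : ∀ c : 𝕜, algebraMap 𝕜 Ω' c ∈ O →
    ∃ c₀ : k, O.valuation (algebraMap 𝕜 Ω' c - algebraMap k Ω' c₀) < 1

/-- `β` is the reduction of `ρ`. -/
structure IsRed (ι : Ω →ₐ[k] Ω') (O : ValuationSubring Ω') (F : IntermediateField k Ω)
    (ρ : Aut 𝕜 Ω' → G) (β : Aut k Ω → G) : Prop where
  rep : IsRep F.fixingSubgroup β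
  down : ∀ (f : G → Ω') (f₀ : G → Ω), Alg (Ext 𝕜 ι F) ρ f → (∀ g, Rd ι O (f g) (f₀ g)) →
    Alg F β f₀
  up : ∀ f₀ : G → Ω, Alg F β f₀ → ∃ f : G → Ω', Alg (Ext 𝕜 ι F) ρ f ∧ ∀ g, Rd ι O (f g) (f₀ g)

/-- The place `W` specialises to the place `V` of `F`. -/
def In (ι : Ω →ₐ[k] Ω') (O : ValuationSubring Ω') (F : IntermediateField k Ω)
    (V : ValuationSubring Ω) (W : ValuationSubring Ω') : Prop :=
  IsPl 𝕜 W ∧ ∀ s ∈ F, V.valuation s < 1 → ∃ c : 𝕜, O.valuation (algebraMap 𝕜 Ω' c) < 1 ∧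
    W.valuation (ι s - algebraMap 𝕜 Ω' c) < 1

/-- The valuation ring `U` is centred at the place `V` of `F`. -/
def Cen (ι : Ω →ₐ[k] Ω') (O : ValuationSubring Ω') (F : IntermediateField k Ω)
    (V : ValuationSubring Ω) (U : ValuationSubring Ω') : Prop :=
  (∀ c : 𝕜, algebraMap 𝕜 Ω' c ∈ U ↔ algebraMap 𝕜 Ω' c ∈ O) ∧
    ∀ s ∈ F, V.valuation s < 1 → U.valuation (ι s) < 1

/-- Elements bounded at `O` and regular on the residue disc of `V`. -/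
def Reg (ι : Ω →ₐ[k] Ω') (O : ValuationSubring Ω') (F : IntermediateField k Ω)
    (V : ValuationSubring Ω) : Subring Ω' where
  carrier := {s | s ∈ O ∧ ∀ W, In 𝕜 ι O F V W → s ∈ W}
  mul_mem' := fun ha hb => ⟨mul_mem ha.1 hb.1, fun W h => mul_mem (ha.2 W h) (hb.2 W h)⟩
  add_mem' := fun ha hb => ⟨add_mem ha.1 hb.1, fun W h => add_mem (ha.2 W h) (hb.2 W h)⟩
  one_mem' := ⟨one_mem O, fun W _ => one_mem W⟩
  zero_mem' := ⟨zero_mem O, fun W _ => zero_mem W⟩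
  neg_mem' := fun ha => ⟨neg_mem ha.1, fun W h => neg_mem (ha.2 W h)⟩

variable {𝕜}

lemma mem_Reg {ι : Ω →ₐ[k] Ω'} {O : ValuationSubring Ω'} {F : IntermediateField k Ω}
    {V : ValuationSubring Ω} {s : Ω'} :
    s ∈ Reg 𝕜 ι O F V ↔ s ∈ O ∧ ∀ W, In 𝕜 ι O F V W → s ∈ W := Iff.rfl

lemma mem_Ext (ι : Ω →ₐ[k] Ω') {F : IntermediateField k Ω} {s : Ω} (h : s ∈ F) :
    ι s ∈ Ext 𝕜 ι F := IntermediateField.subset_adjoin _ _ ⟨s, h, rfl⟩

lemma Ext_mono (ι : Ω →ₐ[k] Ω') {F F' : IntermediateField k Ω} (h : F ≤ F') :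
    Ext 𝕜 ι F ≤ Ext 𝕜 ι F' := IntermediateField.adjoin.mono _ _ _ (Set.image_mono h)

end Two

section Real

variable (k : Type) {𝕜 Ω' : Type} [Field k] [Field 𝕜] [Field Ω'] [Algebra k 𝕜] [Algebra 𝕜 Ω']

/-- A spherically complete absolute value with all positive values and residue field `k`. -/
structure Big (ν : AbsoluteValue 𝕜 ℝ) : Prop where
  na : IsNonarchimedean ν
  const : ∀ c : k, ν (algebraMap k 𝕜 c) ≤ 1
  res : ∀ a, ν a ≤ 1 → ∃ c : k, ν (a - algebraMap k 𝕜 c) < 1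
  onto : ∀ r : ℝ, 0 < r → ∃ a, ν a = r
  sph : ∀ (a : ℕ → 𝕜) (r : ℕ → ℝ), Antitone r → (∀ n, ν (a (n + 1) - a n) ≤ r n) →
    ∃ b, ∀ n, ν (b - a n) ≤ r n

variable {k}

/-- `y` lies above the Gauss point of the disc of radius `r` around zero. -/
structure GR (ν : AbsoluteValue 𝕜 ℝ) (y : AbsoluteValue Ω' ℝ) (σ : Ω') (r : ℝ) : Prop where
  na : IsNonarchimedean y
  ext : ∀ a, y (algebraMap 𝕜 Ω' a) = ν a
  gau : ∀ a, y (σ - algebraMap 𝕜 Ω' a) = max r (ν a)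

/-- `O` is the unit ball of `y`. -/
def IsBall (y : AbsoluteValue Ω' ℝ) (O : ValuationSubring Ω') : Prop := ∀ s, s ∈ O ↔ y s ≤ 1

/-- Good reduction at the Gauss point of radius `r`. -/
def Good {G : Type} [Group G] [Fintype G] [DecidableEq G] (ν : AbsoluteValue 𝕜 ℝ) (σ : Ω') (r : ℝ)
    (ρ : Aut 𝕜 Ω' → G) : Prop :=
  ∀ (y : AbsoluteValue Ω' ℝ) (O : ValuationSubring Ω'), GR ν y σ r → IsBall y O →
    Cert 𝕜⟮σ⟯ ρ O

end Real

section Patch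

variable (k : Type) {𝕜 Ω Ω' : Type} [Field k] [Field 𝕜] [Field Ω] [Field Ω'] [Algebra k Ω]
  [Algebra k Ω'] [Algebra 𝕜 Ω']

/-- A patching datum with approximation and a sharper form of Hensel's lemma. -/
structure PX (σ : Ω') (E0 E1 E2 : IntermediateField 𝕜 Ω') (O : ValuationSubring Ω') : Prop where
  bas : BasP k σ E0 E1 E2 O
  fact : FactP E0 E1 E2
  loc : LocP σ E1 E2 O
  con : ∀ c : 𝕜, algebraMap 𝕜 Ω' c ∈ O →
    ∃ c₀ : k, O.valuation (algebraMap 𝕜 Ω' c - algebraMap k Ω' c₀) < 1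
  arch : ∀ s m : Ω', O.valuation s < 1 → ∃ n : ℕ, O.valuation (s ^ n * m) < 1
  apx : ∀ e ∈ E0, ∀ m : Ω', ∃ e' ∈ 𝕜⟮σ⟯, O.valuation ((e' - e) * m) < 1 ∧
    ∀ W : ValuationSubring Ω', IsPl 𝕜 W → σ ∈ W → e' ∉ W →
      ∃ a : 𝕜, algebraMap 𝕜 Ω' a ∈ O ∧ W.valuation (σ - algebraMap 𝕜 Ω' a) < 1
  onS : ∀ f : k[X][X], Sh f → ∀ ε : 𝕜, O.valuation (algebraMap 𝕜 Ω' ε) < 1 → ∀ θ : Ω',
    Rt f (algebraMap 𝕜 Ω' ε * σ) θ → O.valuation θ < 1 → θ ∈ E1 ∧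
      ∀ (W : ValuationSubring Ω') (a : 𝕜), IsPl 𝕜 W → algebraMap 𝕜 Ω' a ∈ O →
        W.valuation (σ - algebraMap 𝕜 Ω' a) < 1 → Dec 𝕜 σ W ≤ E1.fixingSubgroup →
          ∃ b : 𝕜, O.valuation (algebraMap 𝕜 Ω' b) < 1 ∧ W.valuation (θ - algebraMap 𝕜 Ω' b) < 1

variable {k}

/-- A frame: small discs around the places `W j` of the curve with function field `F`. -/
structure Fr (σ : Ω') (E2 : IntermediateField 𝕜 Ω') (O : ValuationSubring Ω') (ι : Ω →ₐ[k] Ω')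
    (t : 𝕜) (F : IntermediateField k Ω) (π : Ω) {J : Type} (W : J → ValuationSubring Ω)
    (δ : J → Aut 𝕜 Ω') : Prop where
  fs : FS F π
  t0 : t ≠ 0
  t1 : O.valuation (algebraMap 𝕜 Ω' t) < 1
  eq : ι π = algebraMap 𝕜 Ω' t * σ
  pl : ∀ j, IsPl k (W j)
  un : ∀ j, IsUnif F (W j) π
  ne : ∀ i j, Agr F (W i) (W j) → i = j
  mem : ∀ j, δ j ∈ E2.fixingSubgroup
  ov : ∀ j s, ι s ∈ (δ j • O : ValuationSubring Ω') ↔ s ∈ W j

/-- The input of the gluing theorem: an outer cover `a` of the curve with group `B'`, and inner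
covers `β j` of the `x`-line whose local behaviour `b j` at infinity matches that of `a` at
`W j`. -/
structure GIn (p : ℕ) (F : IntermediateField k Ω) (π qπ x qx : Ω) (M : ℕ) (ω : k) {J : Type}
    (W V : J → ValuationSubring Ω) {G B B' : Type} [Group G] [Group B] [Group B']
    (inc : B →* G) (φ : B →* B') (a : Aut k Ω → B') (β : J → Aut k Ω → G)
    (b : J → Aut k Ω → B) (c : J → B') : Prop where
  fs : FS F π
  co : Co k x
  hM : ¬ p ∣ M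
  prim : IsPrimitiveRoot ω M
  e1 : qπ ^ M = π
  e2 : qx ^ M = x
  pl : ∀ j, IsPl k (W j)
  un : ∀ j, IsUnif F (W j) π
  ne : ∀ i j, Agr F (W i) (W j) → i = j
  plV : ∀ j, IsPl k (V j) ∧ x ∉ V j
  onto : Function.Surjective φ
  ker : IsPGroup p φ.ker
  ra : IsRep F.fixingSubgroup a
  rβ : ∀ j, IsRep (Gam k x) (β j)
  rb : ∀ j, IsRep (Dec k x (V j)) (b j)
  eb : ∀ j, ∀ γ ∈ Dec k x (V j), inc (b j γ) = β j γ
  la : ∀ j, Lam a (DecF F (W j)) qπ (algebraMap k Ω ω) (c j)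
  lb : ∀ j, Lam (fun γ => φ (b j γ)) (Dec k x (V j)) qx (algebraMap k Ω ω) (c j)

variable [Algebra k 𝕜]

/-- The output of the gluing theorem over the large constant field. -/
structure GOut (F : IntermediateField k Ω) (π x qx : Ω) (ω : k) {J : Type}
    (W : J → ValuationSubring Ω) {G B B' : Type} [Group G] [Group B] [Group B']
    (inc : B →* G) (φ : B →* B') (a : Aut k Ω → B') (β : J → Aut k Ω → G) (c : J → B')
    (ι : Ω →ₐ[k] Ω') (t : 𝕜) (ρ : Aut 𝕜 Ω' → G) (α : Aut 𝕜 Ω' → B) : Prop where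
  tr : Transcendental k t
  big : ∀ l : 𝕜, Transcendental k l → ∃ ν : AbsoluteValue 𝕜 ℝ, Big k ν ∧ 1 < ν l
  co : Co 𝕜 (ι π)
  rρ : IsRep (Ext 𝕜 ι F).fixingSubgroup ρ
  rα : IsRep (Ext 𝕜 ι F).fixingSubgroup α
  lift : ∀ γ ∈ (Ext 𝕜 ι F).fixingSubgroup, φ (α γ) = a (res 𝕜 ι γ)
  h1 : ∀ U : ValuationSubring Ω', IsPl 𝕜 U →
    ((∃ h : G, ∀ γ ∈ DecF (Ext 𝕜 ι F) U, ρ γ = h⁻¹ * inc (α γ) * h) ∧
      (ι π ∈ U → Triv (fun γ => a (res 𝕜 ι γ)) (DecF (Ext 𝕜 ι F) U) →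
        Triv α (DecF (Ext 𝕜 ι F) U))) ∨
    ∃ (j : J) (h : G) (ι' : Ω →ₐ[k] Ω'), ι' x * algebraMap 𝕜 Ω' (t * t) = ι π ∧
      (∀ γ ∈ DecF (Ext 𝕜 ι F) U, ρ γ = h⁻¹ * β j (res 𝕜 ι' γ) * h) ∧ ι π ∈ U ∧
      (∀ e : k, e ≠ 0 → ¬ U.valuation (ι π - algebraMap k Ω' e) < 1) ∧
      (U.valuation (ι π) < 1 → Ov ι F U (W j))
  h2 : ∀ (j : J) (U : ValuationSubring Ω'), IsPl 𝕜 U → Ov ι F U (W j) →
    ∃ (h : G) (ι' : Ω →ₐ[k] Ω'), ι' x * algebraMap 𝕜 Ω' (t * t) = ι π ∧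
      ∀ γ ∈ Dec 𝕜 (ι π) U, γ ∈ (Ext 𝕜 ι F).fixingSubgroup ∧ ρ γ = h⁻¹ * β j (res 𝕜 ι' γ) * h
  ex : ∀ j : J, ∃ U : ValuationSubring Ω', IsPl 𝕜 U ∧ Ov ι F U (W j)
  h3 : ∀ j : J, ∃ v ∈ φ.ker, ∀ γ ∈ Gam k x, ∃ γ' ∈ (Ext 𝕜 ι F).fixingSubgroup,
    ρ γ' = inc v * β j γ * (inc v)⁻¹
  h4 : ∀ γ ∈ F.fixingSubgroup, ∃ γ' ∈ (Ext 𝕜 ι F).fixingSubgroup,
    ρ γ' = inc (α γ') ∧ φ (α γ') = a γ
  h5 : ∃ U : ValuationSubring Ω', IsPl 𝕜 U ∧ ι π ∉ U ∧
    ∀ γ ∈ DecF (Ext 𝕜 ι F) U, ρ γ = inc (α γ)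
  h6 : ∀ (G' : Type) [Group G'] (ψ : G →* G') (ψ' : B' →* G'), (∀ g, ψ (inc g) = ψ' (φ g)) →
    (∀ j, Lam (fun γ => ψ (β j γ)) (Gam k x) qx (algebraMap k Ω ω) (ψ' (c j))) →
      ∀ γ ∈ (Ext 𝕜 ι F).fixingSubgroup, ψ (ρ γ) = ψ' (a (res 𝕜 ι γ))

end Patch

end Pool.Agent.Lib.IW2
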