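import Pool.Agent.Lib.IW2.All1
import Pool.Agent.Lib.IW2.Blue3

/-! Block G0B: from the patching data to the glued representation. -/

open Polynomial IntermediateField
open scoped Pointwise

namespace Pool.Agent.Lib.IW2

open Pool.Agent.Lib.IW

namespace G0B

section One

variable {𝕜 Ω' : Type} [Field 𝕜] [Field Ω'] [Algebra 𝕜 Ω']

lemma gam_eq {y σ : Ω'} {t : 𝕜} (ht : t ≠ 0) (h : y * algebraMap 𝕜 Ω' t = σ) :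
    Gam 𝕜 y = Gam 𝕜 σ := by
  have hT : algebraMap 𝕜 Ω' t ≠ 0 := (_root_.map_ne_zero _).2 ht
  ext γ
  rw [mem_Gam, mem_Gam, ← h, map_mul, γ.commutes, mul_left_inj' hT]

lemma pow_const [IsAlgClosed 𝕜] {d : Ω'} {M : ℕ} (hM : 0 < M) {c : 𝕜}
    (h : d ^ M = algebraMap 𝕜 Ω' c) : ∃ D : 𝕜, algebraMap 𝕜 Ω' D = d :=
  have h1 : IsIntegral 𝕜 d := IsIntegral.of_pow hM (h ▸ isIntegral_algebraMap)
  minpoly.mem_range_of_degree_eq_one 𝕜 d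
    (IsAlgClosed.degree_eq_one_of_irreducible 𝕜 (minpoly.irreducible h1))

lemma mem_iff {y σ : Ω'} {t : 𝕜} (ht : t ≠ 0) (h : y = algebraMap 𝕜 Ω' t * σ)
    {U : ValuationSubring Ω'} (hU : IsPl 𝕜 U) : y ∈ U ↔ σ ∈ U := by
  have hT : algebraMap 𝕜 Ω' t ≠ 0 := (_root_.map_ne_zero _).2 ht
  refine ⟨fun hy => ?_, fun hs => h ▸ mul_mem (hU.2 t) hs⟩
  have e : σ = algebraMap 𝕜 Ω' t⁻¹ * y := by
    rw [h, map_inv₀, inv_mul_cancel_left₀ hT]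
  exact e ▸ mul_mem (hU.2 _) hy

lemma agr_smul {F : IntermediateField 𝕜 Ω'} {ε : Aut 𝕜 Ω'} (hε : ε ∈ F.fixingSubgroup)
    (W : ValuationSubring Ω') {s : Ω'} (hs : s ∈ F) :
    s ∈ (ε • W : ValuationSubring Ω') ↔ s ∈ W := by
  rw [ValuationSubring.mem_pointwise_smul_iff_inv_smul_mem, AlgEquiv.smul_def,
    fix_apply (inv_mem hε) hs]

lemma eqv {H : Type} [Group H] {Δ : Subgroup (Aut 𝕜 Ω')} {τ : Aut 𝕜 Ω' → H} (hτ : IsRep Δ τ)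
    {γ η : Aut 𝕜 Ω'} (hγ : γ ∈ Δ) (hη : η ∈ Δ) (e : τ η = τ γ) : τ (γ⁻¹ * η) = 1 := by
  rw [hτ.mul _ (inv_mem hγ) _ hη, hτ.inv hγ, e, inv_mul_cancel]

end One

section Two

variable {p : ℕ} {k 𝕜 Ω Ω' : Type} [Field k] [Field 𝕜] [Field Ω] [IsAlgClosed Ω] [Field Ω']
  [Algebra k 𝕜] [Algebra k Ω] [Algebra k Ω'] [Algebra 𝕜 Ω'] [IsScalarTower k 𝕜 Ω']
  {F : IntermediateField k Ω} {π qπ x qx : Ω} {M : ℕ} {ω : k} {J : Type}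
  {W V : J → ValuationSubring Ω} {G B B' H : Type} [Group G] [Group B] [Group B'] [Group H]
  {inc : B →* G} {φ : B →* B'} {a : Aut k Ω → B'} {β : J → Aut k Ω → G}
  {b : J → Aut k Ω → B} {c : J → B'} {τ : Aut k Ω → H} {σ : Ω'}
  {E0 E1 E2 : IntermediateField 𝕜 Ω'} {O : ValuationSubring Ω'} {ι : Ω →ₐ[k] Ω'} {t : 𝕜}
  {ε : J → Aut k Ω} {δ : J → Aut 𝕜 Ω'} {ι' : J → Ω →ₐ[k] Ω'} {α : Aut 𝕜 Ω' → B} {v : J → B}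

omit [IsAlgClosed Ω] [Algebra k 𝕜] [IsScalarTower k 𝕜 Ω'] in
/-- Elements with the same image under `τ`. -/
lemma same (h : GIn p F π qπ x qx M ω W V inc φ a β b c)
    (m : GMid F π qπ x W V φ a b τ σ E0 E1 E2 O ι t ε δ ι' α v) {γ η : Aut k Ω}
    (hγ : γ ∈ F.fixingSubgroup) (hη : η ∈ Gam k π) (e : τ η = τ γ) :
    η ∈ F.fixingSubgroup ∧ a η = a γ ∧ η qπ = γ qπ := by
  obtain ⟨h1, h2, h3⟩ := m.kτ _ (mul_mem (inv_mem (h.fs.le hγ)) hη) (eqv m.rτ (h.fs.le hγ) hη e)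
  have e1 : η = γ * (γ⁻¹ * η) := (mul_inv_cancel_left γ η).symm
  refine ⟨e1 ▸ mul_mem hγ h1, ?_, ?_⟩
  · rw [e1, h.ra.mul _ hγ _ h1, h2, mul_one]
  · rw [e1, AlgEquiv.mul_apply, h3]

omit [IsAlgClosed Ω] [Algebra k 𝕜] [IsScalarTower k 𝕜 Ω'] in
lemma ov_iff (m : GMid F π qπ x W V φ a b τ σ E0 E1 E2 O ι t ε δ ι' α v) (j : J)
    (U : ValuationSubring Ω') : Ov ι F U (ε j • W j) ↔ Ov ι F U (W j) :=
  forall₂_congr fun _ hs => iff_congr Iff.rfl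
    (agr_smul (m.kτ _ (m.eps j).1 (m.eps j).2).1 (W j) hs)

omit [IsAlgClosed Ω] [Algebra k 𝕜] [IsScalarTower k 𝕜 Ω'] in
lemma gam_in (m : GMid F π qπ x W V φ a b τ σ E0 E1 E2 O ι t ε δ ι' α v) (j : J) :
    Gam 𝕜 (ι' j x) = Gam 𝕜 σ := gam_eq m.fr.t0 (m.inn j).1

omit [IsAlgClosed Ω] [Algebra k 𝕜] [IsScalarTower k 𝕜 Ω'] in
lemma le1 (m : GMid F π qπ x W V φ a b τ σ E0 E1 E2 O ι t ε δ ι' α v) (j : J) :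
    E1.fixingSubgroup ≤ Gam 𝕜 (ι' j x) := gam_in m j ▸ fix_le_Gam m.px.bas.mem1

lemma rep_in (h : GIn p F π qπ x qx M ω W V inc φ a β b c)
    (m : GMid F π qπ x W V φ a b τ σ E0 E1 E2 O ι t ε δ ι' α v) (j : J) :
    IsRep E1.fixingSubgroup fun γ => inc (v j) * β j (res 𝕜 (ι' j) γ) * (inc (v j))⁻¹ :=
  (rx.rep k 𝕜 Ω Ω' (ι' j) x h.co (Gam k x) E1.fixingSubgroup (le1 m j)
    (fun γ hγ => (rx.mul k 𝕜 Ω Ω' (ι' j) x h.co).2.1 γ (le1 m j hγ)) G (β j) (h.rβ j)).comp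
    (MulAut.conj (inc (v j))).toMonoidHom

lemma agree (h : GIn p F π qπ x qx M ω W V inc φ a β b c)
    (m : GMid F π qπ x W V φ a b τ σ E0 E1 E2 O ι t ε δ ι' α v) (j : J) {γ : Aut 𝕜 Ω'}
    (hγ : γ ∈ E0.fixingSubgroup) :
    inc (v j) * β j (res 𝕜 (ι' j) γ) * (inc (v j))⁻¹ = inc (α (δ j * γ * (δ j)⁻¹)) := by
  have h1 : γ ∈ Gam 𝕜 (ι' j x) := le1 m j (IntermediateField.fixingSubgroup_le m.px.bas.le1 hγ)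
  have h2 : O.comap (ι' j).toRingHom = V j := by
    ext s
    exact (m.inn j).2 s
  have h3 : γ • O = O := m.px.bas.dec hγ
  have h4 := rx.smul k 𝕜 Ω Ω' (ι' j) x h.co γ h1 O
  rw [h3, h2] at h4
  have h5 : res 𝕜 (ι' j) γ ∈ Dec k x (V j) :=
    ⟨(rx.mul k 𝕜 Ω Ω' (ι' j) x h.co).2.1 γ h1, h4.symm⟩
  rw [m.agree j γ hγ, map_mul, map_mul, map_inv, h.eb j _ h5]

/-- The glued representation on a translate of the `j`-th disc. -/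
lemma onDisc (h : GIn p F π qπ x qx M ω W V inc φ a β b c)
    (m : GMid F π qπ x W V φ a b τ σ E0 E1 E2 O ι t ε δ ι' α v) {ρ : Aut 𝕜 Ω' → G}
    (r1 : IsRep (Ext 𝕜 ι F).fixingSubgroup ρ)
    (f4 : ∀ j, ∀ γ ∈ E1.fixingSubgroup, δ j * γ * (δ j)⁻¹ ∈ (Ext 𝕜 ι F).fixingSubgroup)
    (r3 : ∀ j, ∀ γ ∈ E1.fixingSubgroup,
      ρ (δ j * γ * (δ j)⁻¹) = inc (v j) * β j (res 𝕜 (ι' j) γ) * (inc (v j))⁻¹)
    (j : J) {η : Aut 𝕜 Ω'} (hη : η ∈ Gam 𝕜 σ) (h0 : η * (δ j)⁻¹ ∈ (Ext 𝕜 ι F).fixingSubgroup) :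
    ∃ (g : G) (κ : Ω →ₐ[k] Ω'), κ x * algebraMap 𝕜 Ω' (t * t) = ι π ∧
      ∀ γ : Aut 𝕜 Ω', η⁻¹ * γ * η ∈ E1.fixingSubgroup → ρ γ = g⁻¹ * β j (res 𝕜 κ γ) * g := by
  let κ : Ω →ₐ[k] Ω' := (η.toAlgHom.restrictScalars k).comp (ι' j)
  have hκ : ∀ s, κ s = η (ι' j s) := fun _ => rfl
  refine ⟨(ρ (η * (δ j)⁻¹) * inc (v j))⁻¹, κ, ?_, fun γ hγ => ?_⟩
  · have e : η (ι' j x) = ι' j x := by
      have h1 : η ∈ Gam 𝕜 (ι' j x) := gam_in m j ▸ hη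
      exact h1
    rw [hκ, e, map_mul, ← mul_assoc, (m.inn j).1, m.fr.eq, mul_comm]
  · have e1 := (rx.mul k 𝕜 Ω Ω' (ι' j) x h.co).2.2.2.2 η _ κ hκ (le1 m j hγ)
    have e2 : η * (η⁻¹ * γ * η) * η⁻¹ = γ := by group
    have e3 : γ = η * (δ j)⁻¹ * (δ j * (η⁻¹ * γ * η) * (δ j)⁻¹) * (η * (δ j)⁻¹)⁻¹ := by group
    rw [e2] at e1
    have e4 : ρ γ = ρ (η * (δ j)⁻¹) * ρ (δ j * (η⁻¹ * γ * η) * (δ j)⁻¹) * (ρ (η * (δ j)⁻¹))⁻¹ := by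
      rw [← r1.inv h0, ← r1.mul _ h0 _ (f4 j _ hγ), ← r1.mul _ (mul_mem h0 (f4 j _ hγ)) _
        (inv_mem h0), ← e3]
    rw [e4, r3 j _ hγ, e1]
    group

/-- The two Kummer characters agree on the `j`-th disc. -/
lemma kummer [IsAlgClosed 𝕜] (h : GIn p F π qπ x qx M ω W V inc φ a β b c)
    (m : GMid F π qπ x W V φ a b τ σ E0 E1 E2 O ι t ε δ ι' α v) (j : J) {γ : Aut 𝕜 Ω'}
    (hγ : γ ∈ E1.fixingSubgroup) (i : ℕ)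
    (hi : res 𝕜 (ι' j) γ qx = algebraMap k Ω ω ^ i * qx) :
    res 𝕜 ι (δ j * γ * (δ j)⁻¹) qπ = algebraMap k Ω ω ^ i * qπ := by
  have hM : 0 < M := Nat.pos_of_ne_zero fun e => h.hM (e ▸ dvd_zero p)
  have hδ : δ j ∈ Gam 𝕜 σ := fix_le_Gam m.px.bas.mem2 (m.fr.mem j)
  have hγσ : γ ∈ Gam 𝕜 σ := fix_le_Gam m.px.bas.mem1 hγ
  have hG : Gam 𝕜 (ι π) = Gam 𝕜 σ :=
    (gam_eq m.fr.t0 ((mul_comm _ _).trans m.fr.eq.symm)).symm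
  have hx : x ≠ 0 := fun e => h.co.tr (e ▸ isAlgebraic_zero)
  have hq : qx ≠ 0 := fun e => hx (by rw [← h.e2, e, zero_pow hM.ne'])
  have hq' : ι' j qx ≠ 0 := (_root_.map_ne_zero _).2 hq
  have hx' : ι' j x ≠ 0 := (_root_.map_ne_zero _).2 hx
  have h1 : γ (ι' j qx) = algebraMap k Ω' ω ^ i * ι' j qx := by
    rw [← found.res.spec k 𝕜 Ω Ω' x h.co (ι' j) γ (le1 m j hγ), hi, map_mul, map_pow,
      AlgHom.commutes]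
  have h2 : (δ j)⁻¹ (ι π) = ι π := by
    have : (δ j)⁻¹ ∈ Gam 𝕜 (ι π) := hG ▸ inv_mem hδ
    exact this
  have h3 : ((δ j)⁻¹ (ι qπ) / ι' j qx) ^ M = algebraMap 𝕜 Ω' (t * t) := by
    rw [div_pow, ← map_pow, ← map_pow, ← map_pow, h.e1, h.e2, h2, m.fr.eq, ← (m.inn j).1,
      map_mul, div_eq_iff hx']
    ring
  obtain ⟨D, hD⟩ := pow_const hM h3
  have h4 : (δ j)⁻¹ (ι qπ) = algebraMap 𝕜 Ω' D * ι' j qx := by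
    rw [hD, div_mul_cancel₀ _ hq']
  have h5 : δ j * γ * (δ j)⁻¹ ∈ Gam 𝕜 (ι π) := hG ▸ mul_mem (mul_mem hδ hγσ) (inv_mem hδ)
  have h6 : γ ((δ j)⁻¹ (ι qπ)) = algebraMap k Ω' ω ^ i * (δ j)⁻¹ (ι qπ) := by
    rw [h4, map_mul, γ.commutes, h1]
    ring
  apply ι.toRingHom.injective
  change ι _ = ι _
  rw [found.res.spec k 𝕜 Ω Ω' π h.fs.co ι _ h5, AlgEquiv.mul_apply, AlgEquiv.mul_apply, h6,
    map_mul, map_mul, map_pow, map_pow, AlgHom.commutes, IsScalarTower.algebraMap_apply k 𝕜 Ω',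
    AlgEquiv.commutes, ← AlgEquiv.mul_apply, mul_inv_cancel, AlgEquiv.one_apply]

end Two

end G0B

open G0B in
theorem blockG0B (hAUT : StmtAUT) (hFRX : StmtFRX) (hFRL1 : StmtFRL1) (hFRL2 : StmtFRL2)
    (hPATCH : StmtPATCH) : StmtG0B := by
  intro p _ k 𝕜 Ω Ω' _ _ _ _ _ _ _ _ _ _ _ _ _ _ F π qπ x qx M ω J W V G B B' H _ _ _ _ _ _ inc φ a
    β b c h ν τ σ E0 E1 E2 O ι t ε δ ι' α v hν m
  have : CharP 𝕜 p := charP_of_injective_algebraMap (algebraMap k 𝕜).injective p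
  have bas := m.px.bas
  obtain ⟨f1, f2, f3, f4, f5, -, -, f8⟩ := hFRL1 p k 𝕜 Ω Ω' σ E0 E1 E2 O m.px ι t F π J _ δ m.fr
  obtain ⟨g1, g2, g3, g4⟩ := hFRL2 p k 𝕜 Ω Ω' σ E0 E1 E2 O m.px ι t F π J _ δ m.fr
  obtain ⟨ρ, r1, r2, r3, r4, r5, r6⟩ := hPATCH p 𝕜 Ω' σ E0 E1 E2 bas.mem1 bas.mem2 bas.le1 bas.le2
    bas.inter m.px.fact (Ext 𝕜 ι F) f1 J δ m.fr.mem f4 f5 G (fun γ => inc (α γ))
    (fun j γ => inc (v j) * β j (res 𝕜 (ι' j) γ) * (inc (v j))⁻¹) (m.rα.comp inc) (rep_in h m)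
    fun j γ hγ => agree h m j hγ
  have hd : ∀ U : ValuationSubring Ω', DecF (Ext 𝕜 ι F) U ≤ Dec 𝕜 σ U := fun U =>
    inf_le_inf_right _ f1.le
  have hM : 0 < M := Nat.pos_of_ne_zero fun e => h.hM (e ▸ dvd_zero p)
  refine ⟨ρ, (hFRX.inner k 𝕜 Ω Ω' σ E0 E1 E2 O bas t m.fr.t0 m.fr.t1).1, hAUT k 𝕜 ν hν, f2, r1,
    m.rα, m.lift, fun U hU => ?_, fun j U hU hO => ?_, fun j => ?_, fun j => ?_, fun γ hγ => ?_,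
    ?_, fun G' _ ψ ψ' hψ hl γ hγ => ?_⟩
  · obtain ⟨η, hη, ⟨h1, h2⟩ | ⟨h1, h2⟩⟩ := g1 U hU
    · obtain ⟨g, hg⟩ := r4 η hη
      exact Or.inl ⟨⟨g, fun γ hγ => hg γ (DecF_le _ _ hγ) (h1 γ (hd U hγ))⟩,
        fun hπ => m.unr U hU ((mem_iff m.fr.t0 m.fr.eq hU).1 hπ) h2⟩
    · by_cases hj : ∃ j, η * (δ j)⁻¹ ∈ (Ext 𝕜 ι F).fixingSubgroup
      · obtain ⟨j, hj⟩ := hj
        obtain ⟨g, κ, e1, e2⟩ := onDisc h m r1 f4 r3 j hη hj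
        obtain ⟨u1, u2, u3⟩ := g2 j U ((h2 j).1 hj)
        exact Or.inr ⟨j, g, κ, e1, fun γ hγ => e2 γ (h1 γ (hd U hγ)), u1, u2,
          fun hπ => (ov_iff m j U).1 (u3 hπ)⟩
      · obtain ⟨g, hg⟩ := r5 η hη fun j e => hj ⟨j, e⟩
        exact Or.inl ⟨⟨g, fun γ hγ => hg γ (DecF_le _ _ hγ) (h1 γ (hd U hγ))⟩,
          fun hπ => m.unr U hU ((mem_iff m.fr.t0 m.fr.eq hU).1 hπ) fun j e => hj ⟨j, (h2 j).2 e⟩⟩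
  · obtain ⟨u1, u2⟩ := g3 j U hU ((ov_iff m j U).2 hO)
    obtain ⟨η, hη, ⟨-, h2⟩ | ⟨h1, h2⟩⟩ := g1 U hU
    · exact absurd u1 (h2 j)
    · obtain ⟨g, κ, e1, e2⟩ := onDisc h m r1 f4 r3 j hη ((h2 j).2 u1)
      refine ⟨g, κ, e1, fun γ hγ => ?_⟩
      have h3 : γ ∈ Dec 𝕜 σ U := ⟨f3 ▸ hγ.1, hγ.2⟩
      exact ⟨u2 h3, e2 γ (h1 γ h3)⟩
  · obtain ⟨U, hU, hO⟩ := g4 j
    exact ⟨U, hU, (ov_iff m j U).1 hO⟩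
  · refine ⟨v j, m.ker j, fun γ hγ => ?_⟩
    obtain ⟨γ', h1, h2⟩ := hFRX.conn1 p k 𝕜 Ω Ω' σ E0 E1 E2 O bas t m.fr.t0 m.fr.t1 x (ι' j) h.co
      (m.inn j).1 G (β j) (h.rβ j) γ hγ
    exact ⟨_, f4 j γ' h1, by rw [r3 j γ' h1, h2]⟩
  · obtain ⟨γ', h1, h2⟩ := hFRX.conn2 p k 𝕜 Ω Ω' σ E0 E1 E2 O bas t m.fr.t0 m.fr.t1 π ι h.fs.co
      m.fr.eq H τ m.rτ γ (h.fs.le hγ)
    have h3 : γ' ∈ Gam 𝕜 (ι π) := f3 ▸ fix_le_Gam bas.mem2 h1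
    obtain ⟨s1, s2, -⟩ := same h m hγ ((rx.mul k 𝕜 Ω Ω' ι π h.fs.co).2.1 γ' h3) h2
    have h4 := (rx.fix k 𝕜 Ω Ω' ι F π h.fs.co h.fs.mem γ' h3).2 s1
    exact ⟨γ', h4, r2 γ' h4 h1, by rw [m.lift γ' h4, s2]⟩
  · obtain ⟨U, hU, h1, h2⟩ := m.px.loc.locInf
    exact ⟨U, hU, fun e => h1 ((mem_iff m.fr.t0 m.fr.eq hU).1 e),
      fun γ hγ => r2 γ (DecF_le _ _ hγ) (h2 (hd U hγ))⟩
  · rw [r6 G' ψ (fun j γ hγ => ?_) γ hγ, hψ, m.lift γ hγ]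
    have h1 : res 𝕜 (ι' j) γ ∈ Gam k x := (rx.mul k 𝕜 Ω Ω' (ι' j) x h.co).2.1 γ (le1 m j hγ)
    obtain ⟨i, hi⟩ := loc.expo k Ω qx M ω h.prim hM (res 𝕜 (ι' j) γ) (by rw [h.e2]; exact h1)
    have h2 : ψ (inc (v j)) = 1 := by rw [hψ, (MonoidHom.mem_ker).1 (m.ker j), map_one]
    obtain ⟨η, hη, e⟩ := f8 H τ m.rτ j γ hγ
    have h3 : δ j * γ * (δ j)⁻¹ ∈ Gam 𝕜 (ι π) := f3 ▸ f1.le (f4 j γ hγ)
    obtain ⟨-, s2, s3⟩ := same h m (DecF_le _ _ hη) ((rx.mul k 𝕜 Ω Ω' ι π h.fs.co).2.1 _ h3) e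
    obtain ⟨t1, t2, -⟩ := m.kτ _ (m.eps j).1 (m.eps j).2
    have hπ : π ≠ 0 := (h.un j).2.1
    have hq : qπ ≠ 0 := fun e => hπ (by rw [← h.e1, e, zero_pow hM.ne'])
    have h4 := loc.lamA k Ω F B' a h.ra (W j) qπ M ω (c j) hM hq (h.e1 ▸ h.fs.mem) (h.la j) _ t1
      η hη i (by rw [← s3]; exact kummer h m j hγ i hi)
    rw [t2, one_mul, inv_one, mul_one] at h4
    have h5 : ψ (β j (res 𝕜 (ι' j) γ)) = ψ' (c j) ^ i := hl j _ h1 i hi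
    rw [map_mul, map_mul, map_inv, h2, one_mul, inv_one, mul_one, h5, hψ,
      m.lift _ (f4 j γ hγ), s2, h4, map_pow]

end Pool.Agent.Lib.IW2
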