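import Pool.Agent.Lib.IW2.All1
import Pool.Agent.Lib.IW2.Blue4

/-! Block LGX: local cocycles are global when one place is free. -/

open IntermediateField

namespace Pool.Agent.Lib.IW2

open Pool.Agent.Lib.IW

namespace LGX

/-- The induced module. -/
def Ind1 (H A : Type) : Type := H → A

section Ind

variable {H A : Type} [Group H] [AddCommGroup A]

instance : AddCommGroup (Ind1 H A) := inferInstanceAs (AddCommGroup (H → A))

instance [Finite H] [Finite A] : Finite (Ind1 H A) := inferInstanceAs (Finite (H → A))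

instance : DistribMulAction H (Ind1 H A) where
  smul u f := fun h => f (u⁻¹ * h)
  one_smul f := by
    funext h
    change f (1⁻¹ * h) = f h
    rw [inv_one, one_mul]
  mul_smul u v f := by
    funext h
    change f ((u * v)⁻¹ * h) = f (v⁻¹ * (u⁻¹ * h))
    rw [mul_inv_rev, mul_assoc]
  smul_zero _ := rfl
  smul_add _ _ _ := rfl

variable [Fintype H] [DistribMulAction H A]

/-- The natural map from the induced module. -/
def Psi : Ind1 H A →+ A := LG0.push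

lemma Psi_smul (u : H) (f : Ind1 H A) : Psi (u • f) = u • Psi f := LG0.push_shift u f

lemma Psi_surj : Function.Surjective (Psi : Ind1 H A →+ A) := by
  classical
  intro a
  refine ⟨fun h => if h = 1 then a else 0, ?_⟩
  change ∑ h : H, h • (if h = 1 then a else 0) = a
  simp [smul_ite]

end Ind

/-- The case of a representation cutting out a given field. -/
lemma main (hI : StmtINDX) (p : ℕ) [Fact p.Prime] (k Ω : Type) [Field k]
    [IsAlgClosed k] [CharP k p] [Field Ω] [IsAlgClosed Ω] [Algebra k Ω]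
    (F L : IntermediateField k Ω) (x : Ω) (hx : FS F x) (hL : FF L) (hle : F ≤ L)
    (hsep : ∀ y ∈ L, IsSeparable F y) (hst : ∀ γ ∈ F.fixingSubgroup, ∀ y ∈ L, γ y ∈ L)
    (H A : Type) [Group H] [Finite H] [AddCommGroup A] [Finite A] [DistribMulAction H A]
    (ρ : Aut k Ω → H) (hρ : IsRep F.fixingSubgroup ρ) (hs : ∀ h, ∃ γ ∈ F.fixingSubgroup, ρ γ = h)
    (hk : ∀ γ : Aut k Ω, γ ∈ L.fixingSubgroup ↔ γ ∈ F.fixingSubgroup ∧ ρ γ = 1) (l : ℕ)
    (hl : l.Prime) (hlp : l ≠ p) (hA : ∀ a : A, l • a = 0)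
    (hpic : ∀ W₁ W₂ : ValuationSubring Ω, IsPl k W₁ → IsPl k W₂ → ∃ f : Ω, DivMod L l f W₁ W₂)
    (W W₁ : ValuationSubring Ω) (hW : IsPl k W) (hW₁ : IsPl k W₁) (hne : ¬ Agr F W W₁)
    (c₀ : Aut k Ω → A) (hc : IsCoc (DecF F W) ρ c₀) :
    ∃ c : Aut k Ω → A, IsCoc F.fixingSubgroup ρ c ∧ (∀ γ ∈ DecF F W, c γ = c₀ γ) ∧
      ∀ W' : ValuationSubring Ω, IsPl k W' → ¬ Agr F W W' → ¬ Agr F W₁ W' →
        ∃ a : A, ∀ γ ∈ DecF F W', c γ = ρ γ • a - a := by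
  classical
  have := Fintype.ofFinite H
  obtain ⟨b, hb, hbe⟩ := LG0.lift weak p k Ω x hx.co (DecF F W) ((DecF_le F W).trans hx.le)
    (Psi : Ind1 H A →+ A) Psi_smul Psi_surj l 1 hl hlp
    (fun f => funext fun h => by rw [pow_one]; exact hA (f h)) ρ (hρ.mono (DecF_le F W)) c₀ hc
  have hn : ¬ p ∣ l := fun h => hlp ((Nat.prime_dvd_prime_iff_eq Fact.out hl).1 h).symm
  obtain ⟨c, hc1, hc2, hc3, hc4⟩ := hI p k Ω F L hx.ff hL hle hsep hst H A ρ hρ hs hk l hn hA hpic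
    W W₁ hW hW₁ hne b (fun γ hγ δ hδ h => congrFun (hb.add γ hγ δ hδ) h) hb.cts
  refine ⟨fun γ => LG0.push (c γ), ⟨fun γ hγ δ hδ => ?_, hc2.comp _⟩, fun γ hγ => ?_,
    fun W' hW' hn' hn'' => ?_⟩
  · rw [← LG0.push_shift, ← map_add]
    congr 1
    funext h
    exact hc1 γ hγ δ hδ h
  · rw [← hbe γ hγ]
    change LG0.push (c γ) = LG0.push (b γ)
    congr 1
    funext h
    exact hc3 γ hγ h
  · obtain ⟨a, ha⟩ := hc4 W' hW' hn' hn''
    refine ⟨LG0.push a, fun γ hγ => ?_⟩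
    rw [← LG0.push_shift, ← map_sub]
    refine congrArg LG0.push ?_
    funext h
    exact ha γ hγ h

end LGX

theorem blockLGX (hI : StmtINDX) : StmtLGX := by
  intro p _ k Ω _ _ _ _ _ _ F x hx H A _ _ _ _ _ ρ hρ l hl hlp hA W W₁ hW hW₁ hne c₀ hc
  classical
  obtain ⟨H', _, _, τ, hτ, -, hτ1⟩ := fb1.core p k Ω F x hx H ρ hρ ∅
  obtain ⟨L, hL1, hL2, hL3, hL4, hL5, hL6⟩ := found.fld.fld p k Ω x hx.co H' τ hτ
  have hle : F ≤ L := fun y hy => hL6 y (hx.sep y hy) fun γ hγ e =>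
    (IntermediateField.mem_fixingSubgroup_iff F γ).1 (hτ1 γ hγ e).1 y hy
  have hxF : k⟮x⟯ ≤ F := adjoin_simple_le_iff.2 hx.mem
  have hn : ¬ p ∣ l := fun h => hlp ((Nat.prime_dvd_prime_iff_eq Fact.out hl).1 h).symm
  have hσ := (hτ.mono hx.le).prod hρ
  let ρ' : Aut k Ω → hσ.im := fun γ =>
    if h : γ ∈ F.fixingSubgroup then ⟨(τ γ, ρ γ), hσ.mem_im.2 ⟨γ, h, rfl⟩⟩ else 1
  have he : ∀ γ ∈ F.fixingSubgroup, (ρ' γ : H' × H) = (τ γ, ρ γ) := fun γ hγ => by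
    simp only [ρ', dif_pos hγ]
  let _ : DistribMulAction hσ.im A :=
    DistribMulAction.compHom A ((MonoidHom.snd H' H).comp hσ.im.subtype)
  have hs : ∀ γ ∈ F.fixingSubgroup, ∀ a : A, ρ' γ • a = ρ γ • a := fun γ hγ a => by
    change (ρ' γ : H' × H).2 • a = _
    rw [he γ hγ]
  have hρ' : IsRep F.fixingSubgroup ρ' := by
    refine ⟨fun γ hγ δ hδ => Subtype.ext ?_, ?_⟩
    · rw [Subgroup.coe_mul, he _ (mul_mem hγ hδ), he γ hγ, he δ hδ]
      exact hσ.mul γ hγ δ hδ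
    · obtain ⟨S, hS⟩ := hσ.cts
      exact ⟨S, fun γ hγ δ hδ e => Subtype.ext (by rw [he γ hγ, he δ hδ]; exact hS γ hγ δ hδ e)⟩
  obtain ⟨c, hc1, hc2, hc3⟩ := LGX.main hI p k Ω F L x hx ⟨hL1, x, hL2, hx.co⟩ hle
    (fun y hy => sep_up hxF (hL3 y hy)) (fun γ hγ y hy => hL4 γ (hx.le hγ) y hy) hσ.im A ρ' hρ'
    (fun h => by
      obtain ⟨γ, hγ, e⟩ := hσ.mem_im.1 h.2
      exact ⟨γ, hγ, Subtype.ext ((he γ hγ).trans e)⟩)
    (fun γ => by
      rw [hL5]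
      refine ⟨fun ⟨h1, h2⟩ => ?_, fun ⟨h1, h2⟩ => ⟨hx.le h1, ?_⟩⟩
      · obtain ⟨g1, g2, -⟩ := hτ1 γ h1 h2
        exact ⟨g1, Subtype.ext (by rw [he γ g1, h2, g2]; rfl)⟩
      · have h3 := he γ h1
        rw [h2] at h3
        exact (congrArg Prod.fst h3).symm) l hl hlp hA
    (pic p k Ω x hx.co L hL1 hL2 hL3 H' τ hτ hL5 l hn) W W₁ hW hW₁ hne c₀
    ⟨fun γ hγ δ hδ => by rw [hc.add γ hγ δ hδ, hs γ (DecF_le F W hγ)], hc.cts⟩
  refine ⟨c, ⟨fun γ hγ δ hδ => by rw [hc1.add γ hγ δ hδ, hs γ hγ], hc1.cts⟩, hc2,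
    fun W' hW' h1 h2 => ?_⟩
  obtain ⟨a, ha⟩ := hc3 W' hW' h1 h2
  exact ⟨a, fun γ hγ => by rw [ha γ hγ, hs γ (DecF_le F W' hγ)]⟩

end Pool.Agent.Lib.IW2
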