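import Pool.Agent.Lib.IW2.RED3a

/-! The reduction keeps the tame inertia of the only branch point in a residue disc. -/

open Polynomial IntermediateField
open scoped Pointwise

namespace Pool.Agent.Lib.IW2

open Pool.Agent.Lib.IW RED3

namespace RED3

variable {k 𝕜 Ω Ω' : Type} [Field k] [Field 𝕜] [Field Ω] [Field Ω'] [Algebra k Ω] [Algebra k Ω']
  [Algebra 𝕜 Ω'] {ι : Ω →ₐ[k] Ω'} {O : ValuationSubring Ω'} {F : IntermediateField k Ω}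
  {G : Type} [Group G] {ρ : Aut 𝕜 Ω' → G} {β : Aut k Ω → G}

/-- The action of the reduced representation on residues, by Fourier inversion. -/
lemma act (hO : RedD 𝕜 ι O) (hβ : IsRed 𝕜 ι O F ρ β) {q : Ω} (hq : q ≠ 0) {M i : ℕ} {ω : k}
    (hω : IsPrimitiveRoot ω M) (hi : i < M) (t : ℕ → G → Ω') (r : ℕ → G → Ω)
    (hr : ∀ m g, Rd ι O (t m g) (r m g))
    (hS : ∀ j : ℕ, Alg (Ext 𝕜 ι F) ρ fun g => ∑ m ∈ Finset.range M,
      (algebraMap k Ω' ω ^ m * ι q) ^ j * t m g)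
    {γ : Aut k Ω} (hγ : γ ∈ F.fixingSubgroup) (e : γ q = algebraMap k Ω ω ^ i * q) (g : G) :
    γ (r 0 g) = r i (β γ * g) := by
  refine fourier (hω.map_of_injective (algebraMap k Ω).injective) hi (fun m => γ (r m g))
    (fun m => r m (β γ * g)) fun j => mul_left_cancel₀ (pow_ne_zero j hq) ?_
  have h1 := (hβ.down _ (fun g => ∑ m ∈ Finset.range M, (algebraMap k Ω ω ^ m * q) ^ j * r m g)
    (hS j) fun g => ?_).2 γ hγ g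
  · rw [Finset.mul_sum, Finset.mul_sum]
    rw [map_sum] at h1
    convert h1 using 2
    · simp only [map_mul, map_pow, AlgEquiv.commutes, e]
      ring
    · ring
  · unfold Rd
    rw [map_sum, ← Finset.sum_sub_distrib]
    refine O.valuation.map_sum_lt one_ne_zero fun m _ => ?_
    convert mul_small (hO.mem ((algebraMap k Ω ω ^ m * q) ^ j)) (hr m g) using 2
    simp only [map_mul, map_pow, AlgHom.commutes]
    ring

end RED3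

theorem blockRED3 (hFB1 : StmtFB1) (hFB2 : StmtFB2) (hLOC : StmtLOC) (hSH2 : StmtSH2)
    (hRX : StmtRX) (hHOM : StmtHOM) (hORTH : StmtORTH) (hDISC : StmtDISC) (hMAX : StmtMAX)
    (hPUR : StmtPUR) (hDOWN : StmtDOWN) : StmtRED3 := by
  intro p _ k 𝕜 Ω Ω' _ _ _ _ _ _ _ _ _ _ _ _ _ _ ι O hO F π q M ω hF hco hM hω hq V hV hu G _ _ _
    ρ β hρ hC hβ htr W₀ c hW₀ hov hlam
  have : CharP 𝕜 p := charP_of_injective_algebraMap (algebraMap k 𝕜).injective p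
  have M0 : 0 < M := Nat.pos_of_ne_zero fun t => hM (t ▸ dvd_zero p)
  have q0 : q ≠ 0 := fun t => hu.2.1 (by rw [← hq, t, zero_pow M0.ne'])
  have hq' : ι q ^ M = ι π := by rw [← map_pow, hq]
  have kO : ∀ a : k, algebraMap k Ω' a ∈ O := fun a => ι.commutes a ▸ hO.mem _
  obtain ⟨f1, f2, -⟩ := hFB2 k Ω F hF.ff V π q M hV hu M0 hq
  have hF' := hFB1.sepu p k Ω _ f1 V q hV f2
  have hco' : Co 𝕜 (ι q) := co_of_pow found.bas hco hq'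
  have hE := hRX.extf k 𝕜 Ω Ω' ι F π hF hco
  have hE' := hRX.extf k 𝕜 Ω Ω' ι _ q hF' hco'
  have le : F ≤ F ⊔ k⟮q⟯ := le_sup_left
  obtain ⟨-, d2, d3, -, d5, d6⟩ := hDISC p k 𝕜 Ω Ω' ι O kO F π hF hco V hV hu
  obtain ⟨-, m2, m3, m4, m5⟩ := hMAX p k 𝕜 Ω Ω' ι O hO _ q hF' hco' V hV f2
  have up : ∀ W, In 𝕜 ι O F V W → In 𝕜 ι O (F ⊔ k⟮q⟯) V W := fun W h =>
    in_up hFB2 hSH2 hO hF hco hV hu M0 hq h
  have dn : ∀ W, In 𝕜 ι O (F ⊔ k⟮q⟯) V W → In 𝕜 ι O F V W := fun W h =>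
    ⟨h.1, fun s hs => h.2 s (le hs)⟩
  have i0 := d5 W₀ hW₀ hov
  have w0 : W₀.valuation (ι π) < 1 := small_iff.2 (Or.inr fun t =>
    (small_iff.1 hu.2.2.1).elim hu.2.1 fun e => e ((hov _ (inv_mem hu.1)).1 (by rwa [map_inv₀])))
  have w1 : W₀.valuation (ι q) < 1 := by
    rw [← hq', map_pow] at w0
    exact (pow_lt_one_iff M0.ne').1 w0
  have ωe : algebraMap k Ω' ω = algebraMap 𝕜 Ω' (algebraMap k 𝕜 ω) :=
    IsScalarTower.algebraMap_apply k 𝕜 Ω' ω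
  have ωM : algebraMap k Ω' ω ^ M = 1 := by rw [← map_pow, hω.1, map_one]
  -- purity over the Kummer extension
  have hR := hPUR p k 𝕜 Ω Ω' ι O hO _ q hF' hco' V hV f2 G ρ hC fun W hW γ hγ => by
    have hγ' : γ ∈ DecF (Ext 𝕜 ι F) W :=
      ⟨IntermediateField.fixingSubgroup_le (Ext_mono ι le) hγ.1, hγ.2⟩
    by_cases t : W.valuation (ι π) < 1
    · obtain ⟨δ, h1, rfl⟩ := found.conj 𝕜 Ω' _ hE.alg W₀ W
        (d3 W₀ W 0 i0 (dn W hW) (by simpa using w0) (by simpa using t))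
      have := hLOC.lamA 𝕜 Ω' _ G ρ hρ W₀ (ι q) M _ c M0 ((_root_.map_ne_zero ι).2 q0)
        (hq' ▸ hE.mem) (ωe ▸ hlam) δ h1 γ hγ' 0 (by simpa using fix_apply hγ.1 hE'.mem)
      simpa using this
    · exact htr W (dn W hW) t γ hγ'
  obtain ⟨U1, a1, a2⟩ := hSH2.cmpRed k 𝕜 Ω Ω' ι O hO V
  obtain ⟨U2, b1, b2⟩ := hSH2.cmpPl 𝕜 Ω' _ hco W₀ O hW₀
  have c1 := m4 U1 a1 a2
  have c2 := m5 W₀ U2 (up _ i0) b1 b2
  have kU : ∀ U, Cen 𝕜 ι O (F ⊔ k⟮q⟯) V U → ∀ a : k, algebraMap k Ω' a ∈ U := fun U h a => by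
    rw [IsScalarTower.algebraMap_apply k 𝕜 Ω', h.1, ← IsScalarTower.algebraMap_apply]
    exact kO a
  have s1 : ∀ s s₀ (e : k), Rd ι O s s₀ → V.valuation (s₀ - algebraMap k Ω e) < 1 →
      U1.valuation (s - algebraMap k Ω' e) < 1 := fun s s₀ e h1 h2 =>
    (a2 _).2 ⟨_, h2, by simpa [Rd] using h1⟩
  have r1 : ∀ s ∈ U1, ∃ e : k, U1.valuation (s - algebraMap k Ω' e) < 1 := fun s hs => by
    obtain ⟨s₀, h1, h2⟩ := (a1 s).1 hs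
    obtain ⟨e, he⟩ := found.bas.resid k Ω π hF.co V hV s₀ h1
    exact ⟨e, s1 s s₀ e h2 he⟩
  have r2 : ∀ s ∈ U2, ∃ e : k, U2.valuation (s - algebraMap k Ω' e) < 1 := fun s hs => by
    obtain ⟨e, h1, h2⟩ := (b1 s).1 hs
    obtain ⟨e₀, h3⟩ := hO.con e h1
    refine ⟨e₀, (b2 _).2 ⟨e - algebraMap k 𝕜 e₀, ?_, ?_⟩⟩ <;>
      rw [map_sub (algebraMap 𝕜 Ω'), ← IsScalarTower.algebraMap_apply]
    · exact h3
    · simpa using h2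
  let R : Subring Ω' := Reg 𝕜 ι O (F ⊔ k⟮q⟯) V ⊓ U1.toSubring ⊓ U2.toSubring
  have inR : ∀ f : G → Ω', Alg (Ext 𝕜 ι (F ⊔ k⟮q⟯)) ρ f → (∀ g, f g ∈ Reg 𝕜 ι O (F ⊔ k⟮q⟯) V) →
      ∀ g, f g ∈ R := fun f h1 h2 g =>
    ⟨⟨h2 g, m2 G ρ f h1 h2 U1 c1 g⟩, m2 G ρ f h1 h2 U2 c2 g⟩
  obtain ⟨φ1, p1⟩ := exists_res (kU _ c1) r1 R fun s hs => hs.1.2
  obtain ⟨φ2, p2⟩ := exists_res (kU _ c2) r2 R fun s hs => hs.2
  have hR' : Cert (Ext 𝕜 ι (F ⊔ k⟮q⟯)) ρ R := by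
    obtain ⟨X, X', h1, h2, h3⟩ := hR
    exact ⟨X, X', h1, fun g i => ⟨inR _ (h1 i).1 (fun g => (h2 g i).1) g,
      inR _ (h1 i).2 (fun g => (h2 g i).2) g⟩, h3⟩
  obtain ⟨⟨h, H1⟩, H2⟩ := hHOM 𝕜 Ω' k _ hE'.alg G ρ R hR' φ1 φ2 fun a ha => by
    obtain ⟨e, he⟩ := m3 W₀ (up _ i0) w1 a ha a.2.1.1
    exact (res_uniq (kU _ c1) (p1 a) (he _ c1)).trans (res_uniq (kU _ c2) (he _ c2) (p2 a))
  have H1' : ∀ f : G → Ω', Alg (Ext 𝕜 ι (F ⊔ k⟮q⟯)) ρ f →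
      (∀ g, f g ∈ Reg 𝕜 ι O (F ⊔ k⟮q⟯) V) → ∀ g (e : k),
        U2.valuation (f g - algebraMap k Ω' e) < 1 →
          U1.valuation (f (h * g) - algebraMap k Ω' e) < 1 := fun f h1 h2 g e he => by
    have t := H1 (fun g => ⟨f g, inR f h1 h2 g⟩) h1 g
    rw [res_uniq (kU _ c2) he (p2 ⟨f g, inR f h1 h2 g⟩), t]
    exact p1 ⟨f (h * g), inR f h1 h2 _⟩
  -- the tame generator
  obtain ⟨τ, hτ, τq⟩ : ∃ τ ∈ DecF (Ext 𝕜 ι F) W₀, τ (ι q) = algebraMap k Ω' ω * ι q := by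
    obtain ⟨-, a, -, h2⟩ := d2 W₀ i0
    have a0 : a = 0 := const_eq_zero hW₀.2 (by
      simpa using W₀.valuation.map_sub_lt w0 h2.2.2.1)
    rw [a0, map_zero, sub_zero] at h2
    exact hLOC.tau p 𝕜 Ω' _ hE.ff W₀ _ _ _ M hW₀ h2 hM (Or.inl hq') ωM
  have ρτ : ρ τ = c := by simpa using hlam τ hτ 1 (by simpa using τq)
  have cM : c ^ M = 1 := (hlam 1 (one_mem _) M (by simp [ωM])).symm.trans hρ.one
  have D := (hDOWN p k 𝕜 Ω Ω' ι O hO F π q M ω hF hco hM hω hq τ hτ.1 τq G ρ hρ).1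
  rw [ρτ] at D
  refine ⟨h⁻¹, fun γ hγ i hi => ?_⟩
  wlog iM : i < M generalizing i
  · rw [← Nat.mod_add_div i M, pow_add, pow_mul, inv_inv, conj_pow (i := M), cM]
    simpa using this (i % M) (by
      rw [hi, ← map_pow, ← map_pow, ← pow_mod_orderOf, ← hω.eq_orderOf]) (Nat.mod_lt i M0)
  have key : 1 = h * ((c ^ i)⁻¹ * (h⁻¹ * β γ)) := H2 _ _ fun f' hf => by
    have hf' : ∀ g, (f' g : Ω') ∈ Reg 𝕜 ι O (F ⊔ k⟮q⟯) V := fun g => (f' g).2.1.1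
    have D1 := D _ hf fun g => (hf' g).1
    choose r hr using fun m g => hO.res _ ((D1 m).2.1 g)
    have e1 := act hO hβ q0 hω iM _ r hr (fun j => (D1 j).2.2) hγ.1 hi 1
    obtain ⟨s₀, h1, h2⟩ := (a1 _).1 (f' 1).2.1.2
    have e2 : s₀ = r 0 1 := hORTH.uniq₀ k Ω Ω' ι O hO.mem _ _ _ h2 (by simpa using hr 0 1)
    obtain ⟨e, he⟩ := found.bas.resid k Ω π hF.co V hV s₀ h1
    have e3 := small_trans ((found.bas.move k Ω π hF.co V hV γ hγ.2).1 s₀ h1) he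
    rw [e2, e1, mul_one] at e3
    have e4 := s1 _ _ _ (hr i (β γ)) e3
    have hi' : ∀ g, (τ ^ i) (f' ((c ^ i)⁻¹ * g) : Ω') ∈ Reg 𝕜 ι O (F ⊔ k⟮q⟯) V := fun g =>
      ⟨(D1 i).2.1 g, fun W hW => by
        have := (hf' ((c ^ i)⁻¹ * g)).2 _ (up _ (d6 W (dn W hW) _ (inv_mem (pow_mem hτ.1 i))))
        rwa [ValuationSubring.mem_pointwise_smul_iff_inv_smul_mem, inv_inv] at this⟩
    have e5 := p2 (f' ((c ^ i)⁻¹ * (h⁻¹ * β γ)))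
    have e6 := H1' _ hf hf' _ _ e5
    obtain ⟨a, t1, t2⟩ := (b2 _).1 e5
    have t3 := (found.bas.move 𝕜 Ω' _ hco W₀ hW₀ (τ ^ i) (pow_mem hτ i).2).1 _
      ((hf' ((c ^ i)⁻¹ * (h⁻¹ * β γ))).2 _ (up _ i0))
    have e7 := H1' _ (D1 i).1 hi' (h⁻¹ * β γ) _ ((b2 _).2 ⟨a, t1, by
      convert W₀.valuation.map_add_lt t3 t2 using 2
      ring⟩)
    rw [mul_inv_cancel_left] at e7
    rw [res_uniq (kU _ c1) (p1 _) (s1 _ _ _ h2 he), res_uniq (kU _ c1) (p1 _) e6]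
    exact res_uniq (kU _ c1) e4 e7
  rw [inv_inv, conj_pow]
  have := congrArg (fun x => h * c ^ i * h⁻¹ * x) key
  simpa [mul_assoc] using this.symm

end Pool.Agent.Lib.IW2
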