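import Pool.Agent.Lib.IW2.Blue

/-! Helpers for the reduction of tame inertia: residues in the constant field, Fourier inversion. -/

open Polynomial IntermediateField
open scoped Pointwise

namespace Pool.Agent.Lib.IW2

open Pool.Agent.Lib.IW

namespace RED3

section Val

variable {k Ω : Type} [Field k] [Field Ω] [Algebra k Ω] {U : ValuationSubring Ω}

lemma const_eq_zero (hk : ∀ c : k, algebraMap k Ω c ∈ U) {a : k}
    (h : U.valuation (algebraMap k Ω a) < 1) : a = 0 := by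
  by_contra ha
  have h1 := (U.valuation_le_one_iff _).2 (hk a⁻¹)
  have h2 : U.valuation (algebraMap k Ω a) * U.valuation (algebraMap k Ω a⁻¹) = 1 := by
    rw [← map_mul, ← map_mul, mul_inv_cancel₀ ha, map_one, map_one]
  exact (mul_lt_one_of_nonneg_of_lt_one_left zero_le h h1).ne h2

lemma res_uniq (hk : ∀ c : k, algebraMap k Ω c ∈ U) {s : Ω} {a b : k}
    (h : U.valuation (s - algebraMap k Ω a) < 1) (h' : U.valuation (s - algebraMap k Ω b) < 1) :
    a = b := by
  refine sub_eq_zero.1 (const_eq_zero hk ?_)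
  have := U.valuation.map_sub_lt h' h
  rwa [sub_sub_sub_cancel_left, ← map_sub] at this

lemma mul_small {a b : Ω} (ha : a ∈ U) (hb : U.valuation b < 1) : U.valuation (a * b) < 1 := by
  rw [map_mul]
  exact mul_lt_one_of_nonneg_of_lt_one_right ((U.valuation_le_one_iff _).2 ha) zero_le hb

lemma mem_of_small {a b : Ω} (hb : b ∈ U) (h : U.valuation (a - b) < 1) : a ∈ U := by
  simpa using add_mem ((U.valuation_le_one_iff _).1 h.le) hb

lemma small_trans {a b c : Ω} (h : U.valuation (a - b) < 1) (h' : U.valuation (b - c) < 1) :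
    U.valuation (a - c) < 1 := by
  simpa using U.valuation.map_add_lt h h'

lemma small_iff {s : Ω} : U.valuation s < 1 ↔ s = 0 ∨ s⁻¹ ∉ U := by
  rcases eq_or_ne s 0 with rfl | hs
  · simp
  · rw [or_iff_right hs, ← U.valuation_le_one_iff, map_inv₀, not_le,
      one_lt_inv₀ (zero_lt_iff.2 ((_root_.map_ne_zero _).2 hs))]

lemma exists_res (hk : ∀ c : k, algebraMap k Ω c ∈ U)
    (hr : ∀ s ∈ U, ∃ c : k, U.valuation (s - algebraMap k Ω c) < 1) (R : Subring Ω)
    (hR : ∀ s ∈ R, s ∈ U) :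
    ∃ φ : R →+* k, ∀ s : R, U.valuation ((s : Ω) - algebraMap k Ω (φ s)) < 1 := by
  choose f hf using fun s : R => hr s (hR s s.2)
  refine ⟨⟨⟨⟨f, res_uniq hk (hf 1) (by simp)⟩, fun a b => res_uniq hk (hf _) ?_⟩,
    res_uniq hk (hf 0) (by simp), fun a b => res_uniq hk (hf _) ?_⟩, hf⟩
  · have := U.valuation.map_add_lt (mul_small (hR b b.2) (hf a)) (mul_small (hk (f a)) (hf b))
    convert this using 2
    simp only [Subring.coe_mul, map_mul]
    ring
  · have := U.valuation.map_add_lt (hf a) (hf b)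
    convert this using 2
    simp only [Subring.coe_add, map_add]
    ring

end Val

lemma geom {Ω : Type} [Field Ω] [DecidableEq Ω] {ζ : Ω} {M : ℕ} (h : ζ ^ M = 1) :
    ∑ j ∈ Finset.range M, ζ ^ j = if ζ = 1 then (M : Ω) else 0 := by
  split_ifs with e
  · simp [e]
  · rw [geom_sum_eq e, h, sub_self, zero_div]

lemma fourier {Ω : Type} [Field Ω] {ω : Ω} {M i : ℕ} (hω : IsPrimitiveRoot ω M) (hi : i < M)
    (A B : ℕ → Ω) (h : ∀ j : ℕ, ∑ m ∈ Finset.range M, (ω ^ m * ω ^ i) ^ j * A m =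
      ∑ m ∈ Finset.range M, (ω ^ m) ^ j * B m) : A 0 = B i := by
  classical
  have hM : 0 < M := by omega
  have : NeZero M := ⟨hM.ne'⟩
  have h0 : ω ^ i ≠ 0 := pow_ne_zero _ (hω.ne_zero hM.ne')
  have hp : ∀ m, (ω ^ m) ^ M = 1 := fun m => by rw [← pow_mul, mul_comm, pow_mul, hω.1, one_pow]
  have e : ∑ j ∈ Finset.range M, ∑ m ∈ Finset.range M, (ω ^ m) ^ j * A m =
      ∑ j ∈ Finset.range M, ∑ m ∈ Finset.range M, (ω ^ m / ω ^ i) ^ j * B m := by
    refine Finset.sum_congr rfl fun j _ => mul_left_cancel₀ (pow_ne_zero j h0) ?_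
    rw [Finset.mul_sum, Finset.mul_sum]
    convert h j using 2
    · ring
    · rw [← mul_assoc, ← mul_pow, mul_div_cancel₀ _ h0]
  rw [Finset.sum_comm, Finset.sum_comm (f := fun j m => (ω ^ m / ω ^ i) ^ j * B m)] at e
  simp only [← Finset.sum_mul] at e
  have e1 : ∑ m ∈ Finset.range M, (∑ j ∈ Finset.range M, (ω ^ m) ^ j) * A m = M * A 0 := by
    rw [Finset.sum_eq_single 0]
    · simp
    · intro m hm hne
      rw [geom (hp m), if_neg, zero_mul]
      exact hω.pow_ne_one_of_pos_of_lt hne (Finset.mem_range.1 hm)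
    · simp [hM]
  have e2 : ∑ m ∈ Finset.range M, (∑ j ∈ Finset.range M, (ω ^ m / ω ^ i) ^ j) * B m =
      M * B i := by
    rw [Finset.sum_eq_single i]
    · simp [div_self h0]
    · intro m hm hne
      rw [geom (by rw [div_pow, hp, hp, div_one]), if_neg, zero_mul]
      rw [div_eq_one_iff_eq h0]
      exact fun t => hne (hω.pow_inj (Finset.mem_range.1 hm) hi t)
    · simp [hi]
  rw [e1, e2] at e
  exact mul_left_cancel₀ (hω.neZero').1 e

section Cen

variable {k 𝕜 Ω Ω' : Type} [Field k] [IsAlgClosed k] [Field 𝕜] [Field Ω] [IsAlgClosed Ω]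
  [Field Ω'] [Algebra k 𝕜] [Algebra k Ω] [Algebra k Ω'] [Algebra 𝕜 Ω'] [IsScalarTower k 𝕜 Ω']
  {ι : Ω →ₐ[k] Ω'} {O : ValuationSubring Ω'} {F : IntermediateField k Ω} {π q : Ω} {M : ℕ}
  {V : ValuationSubring Ω}

lemma cen_up (hFB2 : StmtFB2) (hF : FS F π) (hV : IsPl k V) (hu : IsUnif F V π) (hM : 0 < M)
    (hq : q ^ M = π) {U : ValuationSubring Ω'} (hk : ∀ c : k, algebraMap k Ω' c ∈ U)
    (h : ∀ s ∈ F, V.valuation s < 1 → U.valuation (ι s) < 1) :
    ∀ s ∈ F ⊔ k⟮q⟯, V.valuation s < 1 → U.valuation (ι s) < 1 := by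
  have a : Agr F (U.comap ι.toRingHom) V := fun s hs => by
    refine ⟨fun t => by_contra fun t' => ?_, fun t => ?_⟩
    · have h1 := h s⁻¹ (inv_mem hs) (small_iff.2 (Or.inr (by rwa [inv_inv])))
      rcases small_iff.1 h1 with e | e
      · rw [map_eq_zero, inv_eq_zero] at e
        exact t' (e ▸ zero_mem V)
      · exact e (by rw [map_inv₀, inv_inv]; exact t)
    · obtain ⟨c, hc⟩ := found.bas.resid k Ω π hF.co V hV s t
      have h1 := h _ (sub_mem hs (F.algebraMap_mem c)) hc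
      rw [map_sub, ι.commutes] at h1
      exact mem_of_small (U := U) (hk c) h1
  have b : IsPl k (U.comap ι.toRingHom) := by
    refine ⟨fun t => ?_, fun c => ?_⟩
    · rcases small_iff.1 hu.2.2.1 with e | e
      · exact hu.2.1 e
      · exact e ((a _ (inv_mem hu.1)).1 (t ▸ ValuationSubring.mem_top _))
    · show ι (algebraMap k Ω c) ∈ U
      rw [ι.commutes]
      exact hk c
  have a' := (hFB2 k Ω F hF.ff V π q M hV hu hM hq).2.2 _ b a
  intro s hs t
  rcases small_iff.1 t with rfl | e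
  · simp
  · refine small_iff.2 (Or.inr fun w => e ((a' _ (inv_mem hs)).1 ?_))
    show ι s⁻¹ ∈ U
    rwa [map_inv₀]

lemma in_up [IsAlgClosed 𝕜] (hFB2 : StmtFB2) (hSH2 : StmtSH2) (hO : RedD 𝕜 ι O) (hF : FS F π)
    (hco : Co 𝕜 (ι π)) (hV : IsPl k V) (hu : IsUnif F V π) (hM : 0 < M) (hq : q ^ M = π)
    {W : ValuationSubring Ω'} (h : In 𝕜 ι O F V W) : In 𝕜 ι O (F ⊔ k⟮q⟯) V W := by
  obtain ⟨U, u1, u2⟩ := hSH2.cmpPl 𝕜 Ω' _ hco W O h.1
  refine ⟨h.1, fun s hs t => (u2 _).1 (cen_up hFB2 hF hV hu hM hq (fun c => ?_)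
    (fun s hs t => (u2 _).2 (h.2 s hs t)) s hs t)⟩
  refine (u1 _).2 ⟨algebraMap k 𝕜 c, ?_, ?_⟩ <;> rw [← IsScalarTower.algebraMap_apply]
  · exact ι.commutes c ▸ hO.mem _
  · simp

end Cen

end RED3

end Pool.Agent.Lib.IW2
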