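import Pool.Agent.Lib.IW2.Blue3
import Pool.Agent.Lib.IW.All

/-! The specialised decomposition groups at the poles of the coordinate. -/

open Polynomial IntermediateField
open scoped Pointwise

namespace Pool.Agent.Lib.IW2

open Pool.Agent.Lib.IW Pool.Agent.Lib.IW.TP

namespace TPD

variable {k Ω : Type} [Field k] [Field Ω] [Algebra k Ω] {x : Ω}
variable {G : Type} [Group G] {ρ : Aut k Ω → G}

/-- The decomposition group at a pole where the certificate is small. -/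
lemma dec_eq (p : ℕ) [Fact p.Prime] [CharP k p] [IsAlgClosed k] [IsAlgClosed Ω] [Finite G]
    (hF : Found) (hx : Co k x) (h : IsRep (Gam k x) ρ) (I : Subgroup G)
    {θ : Ω} (hD : ∀ γ ∈ Gam k x, ρ γ ∉ I →
      ∃ a b : Ω, IntgInf k x a ∧ IntgInf k x b ∧ a * θ + b * γ θ = 1)
    {ϖ u : Ω} (h1 : IsSeparable k⟮x⟯ ϖ) (h2 : ∀ γ ∈ Gam k x, ρ γ = 1 → γ ϖ = ϖ)
    (h3 : IntgInf k x (ϖ ^ Nat.card I * x)) (h4 : IntgInf k x u)
    (h5 : ϖ ^ Nat.card I * x * u = 1) {W : ValuationSubring Ω} (hW : IsPl k W) (hxW : x ∉ W)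
    (hθ : W.valuation θ < 1) : ρ '' (Dec k x W : Set (Aut k Ω)) = (I : Set G) := by
  have hrep : IsRep (DecF k⟮x⟯ W) ρ := h.mono (by rw [DecF_adjoin]; exact Dec_le _ _)
  have hle : hrep.im ≤ I := by
    intro g hg
    obtain ⟨γ, hγ, rfl⟩ := hrep.mem_im.1 hg
    rw [DecF_adjoin] at hγ
    by_contra hne
    obtain ⟨a, b, ha, hb, e⟩ := hD γ (Dec_le _ _ hγ) hne
    have hm := (hF.bas.move k Ω x hx W hW γ (mem_Dec.1 hγ).2).2 θ hθ
    have := W.valuation.map_add_lt (val_mul_lt (ha W hW hxW) hθ) (val_mul_lt (hb W hW hxW) hm)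
    rw [e, map_one] at this
    exact lt_irrefl _ this
  rw [← DecF_adjoin, ← hrep.coe_im]
  congr 1
  have hI : 0 < Nat.card I := Nat.card_pos
  have hϖ : ϖ ≠ 0 := by
    rintro rfl
    simp [hI.ne'] at h5
  have hu := hF.bas.unifInf k Ω x hx.tr W hW hxW
  obtain ⟨i, hi⟩ := hF.hens.nrm p k Ω k⟮x⟯ hx.ff W hW _ hu G ρ hrep ϖ hϖ h1 fun γ hγ =>
    h2 γ (Dec_le x W (by rwa [DecF_adjoin] at hγ))
  have hv : W.valuation (ϖ ^ Nat.card I * x) = 1 := by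
    have a1 := (W.valuation_le_one_iff _).2 (h3 W hW hxW)
    have a2 := (W.valuation_le_one_iff _).2 (h4 W hW hxW)
    have a3 := congrArg W.valuation h5
    rw [map_mul, map_one] at a3
    exact le_antisymm a1 (a3.ge.trans (mul_le_of_le_one_right' a2))
  have hv' : W.valuation ϖ ^ Nat.card I = W.valuation x⁻¹ := by
    rw [map_mul, map_pow] at hv
    rw [map_inv₀]
    exact eq_inv_of_mul_eq_one_left hv
  have hpos : 0 < W.valuation x⁻¹ := by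
    rw [zero_lt_iff, Valuation.ne_zero_iff]; exact hu.2.1
  have e4 : W.valuation x⁻¹ ^ (Nat.card hrep.im : ℤ) = W.valuation x⁻¹ ^ (i * Nat.card I) := by
    rw [zpow_mul, ← hi, zpow_natCast, zpow_natCast, ← hv', ← pow_mul, ← pow_mul, mul_comm]
  have e5 := zpow_right_injective₀ hpos hu.2.2.1.ne e4
  have e6 : Nat.card I ∣ Nat.card hrep.im := Int.natCast_dvd_natCast.1 ⟨i, by rw [e5, mul_comm]⟩
  exact Subgroup.eq_of_le_of_card_ge hle (Nat.le_of_dvd Nat.card_pos e6)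

lemma exists_small {ι : Type} [Fintype ι] {W : ValuationSubring Ω} (hxW : x ∉ W) {y : ι → Ω}
    (hN : x * ∏ g, y g ∈ W) : ∃ g, W.valuation (y g) < 1 := by
  by_contra hne
  push Not at hne
  have e1 := (W.valuation_le_one_iff _).2 hN
  rw [map_mul, map_prod] at e1
  have e2 : 1 ≤ ∏ g, W.valuation (y g) := Finset.one_le_prod' fun g _ => hne g
  exact hxW ((W.valuation_le_one_iff _).1 (le_trans (le_mul_of_one_le_right' e2) e1))

/-- Pigeonhole: one conjugate at which both elements are small. -/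
lemma pick [Infinite k] {ι : Type} [Fintype ι] {W : ValuationSubring Ω} (hW : IsPl k W)
    (hxW : x ∉ W) {y z : ι → Ω} {e : Option ι → k} (he : Function.Injective e)
    (hN : ∀ j, x * ∏ g, (y g + algebraMap k Ω (e j) * z g) ∈ W) :
    ∃ g, W.valuation (y g) < 1 ∧ W.valuation (z g) < 1 := by
  classical
  choose f hf using fun j => exists_small hxW (hN j)
  obtain ⟨i, j, hij, hf'⟩ := Fintype.exists_ne_map_eq_of_card_lt f (by simp)
  have a1 := hf i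
  have a2 := hf j
  rw [← hf'] at a2
  have hne : e i - e j ≠ 0 := sub_ne_zero.2 fun h => hij (he h)
  have a3 : W.valuation (z (f i)) < 1 := by
    have := val_mul_lt (hW.2 (e i - e j)⁻¹) (W.valuation.map_sub_lt a1 a2)
    rwa [show algebraMap k Ω (e i - e j)⁻¹ * (y (f i) + algebraMap k Ω (e i) * z (f i) -
        (y (f i) + algebraMap k Ω (e j) * z (f i))) = z (f i) by
      rw [add_sub_add_left_eq_sub, ← sub_mul, ← map_sub, ← mul_assoc, ← map_mul,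
        inv_mul_cancel₀ hne, map_one, one_mul]] at this
  refine ⟨f i, ?_, a3⟩
  have := W.valuation.map_sub_lt a1 (val_mul_lt (hW.2 (e i)) a3)
  rwa [add_sub_cancel_right] at this

end TPD

open TPD in
theorem blockTPD : StmtTPD := by
  intro p _ k 𝕜 Ω Ω' _ _ _ _ _ _ _ _ _ _ _ _ _ _ σ x hσ hx G _ _ ρ h hs W s hW hσW hs1 hs2 hs3 hs4
  classical
  have hF := found
  have hS := blockSpec found
  have := Fintype.ofFinite G
  have : CharP 𝕜 p := charP_of_injective_algebraMap (algebraMap k 𝕜).injective p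
  choose δ hδ hδ' using hs
  have hrep : IsRep (Dec 𝕜 σ W) ρ := h.mono (Dec_le _ _)
  set I : Subgroup G := hrep.im with hIdef
  have hI : ρ '' (Dec 𝕜 σ W : Set (Aut 𝕜 Ω')) = (I : Set G) := hrep.coe_im.symm
  obtain ⟨θ, hθ1, hθ2, hθ3, hθ4, hθ5⟩ := hF.cert.dec p 𝕜 Ω' σ hσ G ρ h W hW hσW
  have hD : ∀ g : G, ∃ b c : Ω', IntgInf 𝕜 σ b ∧ IntgInf 𝕜 σ c ∧
      (g ∉ I → b * θ + c * δ g θ = 1) := by
    intro g
    by_cases hg : g ∈ I
    · exact ⟨0, 0, fun W _ _ => zero_mem W, fun W _ _ => zero_mem W, fun h => absurd hg h⟩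
    · obtain ⟨b, c, h1, h2, h3⟩ := hθ5 (δ g) (hδ g) fun γ hγ e => hg (by
        rw [← SetLike.mem_coe, ← hI]; exact ⟨γ, hγ, e.trans (hδ' g)⟩)
      exact ⟨b, c, h1, h2, fun _ => h3⟩
  choose b c hb hc hbc using hD
  obtain ⟨ϖ, hϖ1, hϖ2, hϖ3⟩ := hF.ram p 𝕜 Ω' σ hσ G ρ h W hW hσW I hI
  obtain ⟨e, he⟩ : ∃ e : Option G → k, Function.Injective e := by
    obtain ⟨e⟩ := Function.Embedding.nonempty_of_card_le (α := Option G)
      (β := Fin (Fintype.card (Option G))) (by simp)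
    exact ⟨fun j => Infinite.natEmbedding k (e j), fun i j hij =>
      e.injective (Fin.ext ((Infinite.natEmbedding k).injective hij))⟩
  have hc0 : ∀ j, algebraMap k Ω' (e j) = algebraMap 𝕜 Ω' (algebraMap k 𝕜 (e j)) := fun j =>
    IsScalarTower.algebraMap_apply k 𝕜 Ω' _
  have hfix : ∀ (γ : Aut 𝕜 Ω') j, γ (algebraMap k Ω' (e j)) = algebraMap k Ω' (e j) := fun γ j => by
    rw [hc0, AlgEquiv.commutes]
  have hN : ∀ j, IntgInf 𝕜 σ (σ * ∏ g, δ g (θ + algebraMap k Ω' (e j) * s)) := by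
    intro j
    refine norm_inf hF hσ h hδ hδ' ?_ (fun γ hγ e1 => ?_) (fun W' h1 h2 => ?_) hW hσW ?_
    · refine mem_separableClosure_iff.1 (add_mem (mem_separableClosure_iff.2 hθ1)
        (mul_mem ?_ (mem_separableClosure_iff.2 hs1)))
      rw [hc0, IsScalarTower.algebraMap_apply 𝕜 𝕜⟮σ⟯ Ω']
      exact IntermediateField.algebraMap_mem _ _
    · rw [map_add, map_mul, hfix, hθ2 γ hγ e1, hs2 γ hγ e1]
    · exact add_mem (hθ3 W' h1 h2) (mul_mem (hc0 j ▸ h1.2 _) (hs3 W' h1 h2))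
    · exact W.valuation.map_add_lt hθ4 (val_mul_lt (hc0 j ▸ hW.2 _) hs4)
  have hu0 : ϖ ^ Nat.card I * σ ≠ 0 := by
    rw [← W.valuation.ne_zero_iff, hϖ3 W hW hσW]; exact one_ne_zero
  have hu1 : IntgInf 𝕜 σ (ϖ ^ Nat.card I * σ) := fun W' h1 h2 =>
    (W'.valuation_le_one_iff _).1 (hϖ3 W' h1 h2).le
  have hu2 : IntgInf 𝕜 σ (ϖ ^ Nat.card I * σ)⁻¹ := fun W' h1 h2 =>
    (W'.valuation_le_one_iff _).1 (by rw [map_inv₀, hϖ3 W' h1 h2, inv_one])
  let S : Finset Ω' := {θ, ϖ, s}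
  have hθS : θ ∈ S := by simp [S]
  have hϖS : ϖ ∈ S := by simp [S]
  have hsS : s ∈ S := by simp [S]
  have inf := hS.intgInf k 𝕜 Ω Ω' σ x hσ hx.tr
  refine ⟨S, fun y hy => ?_, ?_⟩
  · simp only [S, Finset.mem_insert, Finset.mem_singleton] at hy
    rcases hy with rfl | rfl | rfl
    · exact ⟨hθ1, hθ2⟩
    · exact ⟨hϖ1, hϖ2⟩
    · exact ⟨hs1, hs2⟩
  obtain ⟨T, hT, hev⟩ := ev_and (ev_all fun g => ev_and (inf _ (hb g)) (inf _ (hc g)))
    (ev_and (ev_all fun j => inf _ (hN j)) (ev_and (inf _ hu1) (inf _ hu2)))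
  refine ⟨T, hT, fun O ψ hA hO ρ' h' hs' hS' => ?_⟩
  obtain ⟨e2, e3, e4, e5⟩ := hev O ψ hA hO
  have hO1 : ∀ y ∈ S, y ∈ O := fun y hy => (hS' y hy).2.1 1 (one_mem _)
  choose δ' hδ1 hδ2 using id hs'
  obtain ⟨W₀, hW₀, hxW₀⟩ := hF.bas.exInf k Ω x hx
  obtain ⟨g, hg1, hg2⟩ := pick (y := fun g => δ' g (ψ θ)) (z := fun g => δ' g (ψ s)) hW₀ hxW₀ he
    fun j => by
      have m1 : ∀ g, δ g θ ∈ O := fun g => (hS' _ hθS).2.1 _ (hδ _)
      have m2 : ∀ g, δ g s ∈ O := fun g => (hS' _ hsS).2.1 _ (hδ _)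
      have m3 : ∀ g, δ g (θ + algebraMap k Ω' (e j) * s) =
          δ g θ + algebraMap k Ω' (e j) * δ g s := fun g => by rw [map_add, map_mul, hfix]
      have m4 : ∀ g, δ g θ + algebraMap k Ω' (e j) * δ g s ∈ O := fun g =>
        add_mem (m1 g) (mul_mem (hA.memk _) (m2 g))
      have := (e3 j).2 W₀ hW₀ hxW₀
      simp only [m3] at this
      rw [hA.mul _ hA.mem _ (prod_mem fun g _ => m4 g), psi_prod hA m4, hA.map] at this
      rwa [Finset.prod_congr rfl fun g _ => show δ' g (ψ θ) + algebraMap k Ω (e j) * δ' g (ψ s) =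
        ψ (δ g θ + algebraMap k Ω' (e j) * δ g s) by
          rw [hA.add _ (m1 g) _ (mul_mem (hA.memk _) (m2 g)), hA.mul _ (hA.memk _) _ (m2 g),
            hA.mapk, (hS' _ hθS).2.2 _ (hδ1 g) _ (hδ g) ((hδ' g).trans (hδ2 g).symm),
            (hS' _ hsS).2.2 _ (hδ1 g) _ (hδ g) ((hδ' g).trans (hδ2 g).symm)]]
  obtain ⟨hW', f2, f3, -⟩ := hF.bas.smulPl k Ω W₀ hW₀ (δ' g)⁻¹
  set W' := (δ' g)⁻¹ • W₀
  have hxW : x ∉ W' := fun h => hxW₀ ((f2 x).1 (by rwa [mem_Gam.1 (inv_mem (hδ1 g))]))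
  have hsm : ∀ y, W₀.valuation (δ' g y) < 1 → W'.valuation y < 1 := fun y hy => by
    have := (f3 _).2 hy
    rwa [← AlgEquiv.mul_apply, inv_mul_cancel, AlgEquiv.one_apply] at this
  refine ⟨W', hW', hxW, hsm _ hg2, ?_⟩
  rw [hI]
  refine dec_eq p hF hx h' I (θ := ψ θ) (fun γ hγ hne => ?_)
    (u := ψ (ϖ ^ Nat.card I * σ)⁻¹) (hS' ϖ hϖS).1 (fun γ hγ e => ?_) ?_ e5.2 ?_ hW' hxW
    (hsm _ hg1)
  · have m1 : δ (ρ' γ) θ ∈ O := (hS' _ hθS).2.1 _ (hδ _)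
    refine ⟨ψ (b (ρ' γ)), ψ (c (ρ' γ)), (e2 _).1.2, (e2 _).2.2, ?_⟩
    rw [← psi_one hA, ← hbc _ hne, hA.add _ (mul_mem (e2 _).1.1 (hO1 _ hθS)) _
      (mul_mem (e2 _).2.1 m1), hA.mul _ (e2 _).1.1 _ (hO1 _ hθS), hA.mul _ (e2 _).2.1 _ m1,
      (hS' _ hθS).2.2 γ hγ _ (hδ _) (hδ' _)]
  · exact (hS' _ hϖS).2.2 γ hγ 1 (one_mem _) (h.one.trans e.symm)
  · have := e4.2
    rwa [hA.mul _ (pow_mem (hO1 _ hϖS) _) _ hA.mem, psi_pow hA (hO1 _ hϖS), hA.map] at this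
  · have := hA.mul _ e4.1 _ e5.1
    rw [mul_inv_cancel₀ hu0, psi_one hA, hA.mul _ (pow_mem (hO1 _ hϖS) _) _ hA.mem,
      psi_pow hA (hO1 _ hϖS), hA.map] at this
    exact this.symm

end Pool.Agent.Lib.IW2
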